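import Pool.Agent.Helper54.HQ.StL
import Pool.Agent.Helper3.HY.Base

/-!
# HQ: basic lemmas
-/

set_option autoImplicit false

namespace Pool.Agent.Helper54.HQ

open Polynomial Finset Filter Topology Matrix IsDedekindDomain
open Pool.Agent.Helper3.HY (co tau co_mk sum_co ext_co co_eq_zero)

variable {f : ℤ[X]}

lemma algebraMap_intCast (a : ℤ) : algebraMap (RR f) (LL f) (a : RR f) = (a : LL f) :=
  map_intCast _ a

lemma algebraMap_castRingHom (a : ℤ) :
    algebraMap (RR f) (LL f) (Int.castRingHom (RR f) a) = Int.castRingHom (LL f) a := by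
  rw [eq_intCast, eq_intCast, map_intCast]

lemma of_eq_castRingHom (a : ℤ) : AdjoinRoot.of f a = Int.castRingHom (RR f) a := by
  rw [eq_intCast, eq_intCast]

lemma of_eq_castRingHom' (a : ℤ) :
    AdjoinRoot.of (fK f) (Int.castRingHom ℚ a) = Int.castRingHom (LL f) a := by
  rw [eq_intCast, eq_intCast, map_intCast]

lemma algebraMap_root : algebraMap (RR f) (LL f) (AdjoinRoot.root f) = th f := by
  change AdjoinRoot.map (Int.castRingHom ℚ) f (fK f) dvd_rfl (AdjoinRoot.root f) = _
  rw [AdjoinRoot.map_root]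

lemma algebraMap_mk (p : ℤ[X]) : algebraMap (RR f) (LL f) (AdjoinRoot.mk f p) =
    AdjoinRoot.mk (fK f) (p.map (Int.castRingHom ℚ)) := by
  induction p using Polynomial.induction_on' with
  | add p q hp hq => rw [map_add, map_add, hp, hq, Polynomial.map_add, map_add]
  | monomial n a =>
    rw [← C_mul_X_pow_eq_monomial, map_mul, map_pow, AdjoinRoot.mk_X, AdjoinRoot.mk_C, map_mul,
      map_pow, algebraMap_root, Polynomial.map_mul, Polynomial.map_pow, map_X, map_C, map_mul,
      map_pow, AdjoinRoot.mk_X, AdjoinRoot.mk_C]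
    congr 1
    change AdjoinRoot.map (Int.castRingHom ℚ) f (fK f) dvd_rfl (AdjoinRoot.of f a) = _
    rw [AdjoinRoot.map_of]

lemma co_algebraMap (hm : f.Monic) (i : ℕ) (r : RR f) :
    co (hm.map (Int.castRingHom ℚ)) i (algebraMap (RR f) (LL f) r) =
      Int.castRingHom ℚ (co hm i r) := by
  obtain ⟨p, rfl⟩ := AdjoinRoot.mk_surjective r
  rw [algebraMap_mk, co_mk, co_mk, ← map_modByMonic _ hm, coeff_map]

lemma Bf_apply (hm : f.Monic) (α x y : LL f) :
    Bf hm α x y = tau (hm.map (Int.castRingHom ℚ)) (α * x * y) := rfl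

lemma natDegree_fK (hm : f.Monic) : (fK f).natDegree = f.natDegree := hm.natDegree_map _

lemma pz_prime (P : Prm) : Prime (pz P) := Nat.prime_iff_prime_int.1 P.2

lemma pz_ne_zero (P : Prm) : pz P ≠ 0 := (pz_prime P).ne_zero

lemma red_eq_zero {P : Prm} {a : ℤ} : red P a = 0 ↔ pz P ∣ a := by
  rw [eq_intCast]
  exact ZMod.intCast_zmod_eq_zero_iff_dvd a (P : ℕ)

lemma red_surj (P : Prm) : Function.Surjective (red P) := ZMod.intCast_surjective

lemma two_ne_zero_kp {P : Prm} (h : P.1 ≠ 2) : (2 : kp P) ≠ 0 := by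
  intro h0
  have h1 : ((2 : ℕ) : kp P) = 0 := by exact_mod_cast h0
  rw [ZMod.natCast_eq_zero_iff] at h1
  exact h ((Nat.prime_dvd_prime_iff_eq P.2 Nat.prime_two).1 h1)

end Pool.Agent.Helper54.HQ
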