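import Pool.Agent.Helper54.HQ.StC
import Pool.Agent.Helper54.HQ.Base

/-!
# HQ module Ch1: the distinguished orbit
-/

set_option autoImplicit false

namespace Pool.Agent.Helper54.HQ

open Polynomial Finset Filter Topology Matrix IsDedekindDomain
open Pool.Agent.Helper3.HY (co tau Ix co_mk sum_co)

namespace Ch1

variable {f : ℤ[X]}

theorem tau_pow (hm : f.Monic) {g : ℕ} (hdeg : f.natDegree = 2 * g + 1) {k : ℕ}
    (hk : k ≤ 2 * g) :
    tau (hm.map (Int.castRingHom ℚ)) (th f ^ k) = if k = 2 * g then 1 else 0 := by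
  have hd : (fK f).natDegree = 2 * g + 1 := by rw [hm.natDegree_map, hdeg]
  have h1 : th f ^ k = AdjoinRoot.mk (fK f) (X ^ k) := by rw [map_pow, AdjoinRoot.mk_X]
  rw [tau, h1, co_mk, hd, Nat.add_sub_cancel, (modByMonic_eq_self_iff (hm.map _)).2, coeff_X_pow]
  · simp only [eq_comm]
  · rw [degree_X_pow, degree_eq_natDegree (hm.map _).ne_zero, hd]
    exact_mod_cast Nat.lt_succ_of_le hk

/-- if `τ (θ^k z) = 0` for `k < 2 g` then `z` is a constant -/
theorem const_of_tau (hm : f.Monic) {g : ℕ} (hdeg : f.natDegree = 2 * g + 1) (z : LL f)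
    (hz : ∀ k, k < 2 * g → tau (hm.map (Int.castRingHom ℚ)) (th f ^ k * z) = 0) :
    ∃ c : ℚ, z = algebraMap ℚ (LL f) c := by
  have hmK := hm.map (Int.castRingHom ℚ)
  have hdK : (fK f).natDegree = 2 * g + 1 := by rw [hm.natDegree_map, hdeg]
  have hsum := sum_co hmK z
  rw [hdK] at hsum
  have key : ∀ k, k < 2 * g → co hmK (2 * g - k) z = 0 := by
    intro k
    induction k using Nat.strong_induction_on with
    | _ k ih =>
      intro hk
      have h1 := hz k hk
      conv_lhs at h1 => rw [hsum]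
      rw [Finset.mul_sum, map_sum, Finset.sum_eq_single (2 * g - k)] at h1
      · rw [mul_smul_comm, map_smul, ← pow_add, tau_pow hm hdeg (by omega),
          if_pos (by omega), smul_eq_mul, mul_one] at h1
        exact h1
      · intro i hi hik
        rw [Finset.mem_range] at hi
        rw [mul_smul_comm, map_smul, ← pow_add]
        rcases lt_or_ge (2 * g) (k + i) with h2 | h2
        · have h3 := ih (2 * g - i) (by omega) (by omega)
          have h4 : 2 * g - (2 * g - i) = i := by omega
          rw [h4] at h3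
          rw [h3, zero_smul]
        · rw [tau_pow hm hdeg h2, if_neg (by omega), smul_zero]
      · intro h2
        exact absurd (Finset.mem_range.2 (by omega)) h2
  refine ⟨co hmK 0 z, ?_⟩
  rw [Algebra.algebraMap_eq_smul_one]
  conv_lhs => rw [hsum]
  rw [Finset.sum_eq_single 0]
  · rw [pow_zero]
  · intro i hi hi0
    rw [Finset.mem_range] at hi
    have h3 := key (2 * g - i) (by omega)
    have h4 : 2 * g - (2 * g - i) = i := by omega
    rw [h4] at h3
    rw [h3, zero_smul]
  · intro h2
    exact absurd (Finset.mem_range.2 (by omega)) h2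

/-- a hyperplane of `P` is cut out by a functional -/
theorem exists_fun {K V : Type} [Field K] [AddCommGroup V] [Module K V] [FiniteDimensional K V]
    {X P : Submodule K V} (hXP : X ≤ P) (h : Module.finrank K P = Module.finrank K X + 1) :
    ∃ l : V →ₗ[K] K, ∀ y ∈ P, l y = 0 → y ∈ X := by
  obtain ⟨w, hwP, hwX⟩ : ∃ w ∈ P, w ∉ X := by
    by_contra hcon
    push Not at hcon
    have h1 : P = X := le_antisymm hcon hXP
    rw [h1] at h
    omega
  obtain ⟨l, hl, hlX⟩ := Submodule.exists_le_ker_of_notMem hwX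
  refine ⟨l, fun y hy hly => ?_⟩
  have hw0 : w ≠ 0 := by
    rintro rfl
    exact hwX (zero_mem _)
  have h2 : X ⊔ Submodule.span K {w} = P := by
    refine Submodule.eq_of_le_of_finrank_eq (sup_le hXP ?_) ?_
    · rwa [Submodule.span_singleton_le_iff_mem]
    · have h3 := Submodule.finrank_sup_add_finrank_inf_eq X (Submodule.span K {w})
      have h4 : X ⊓ Submodule.span K {w} = ⊥ := by
        rw [Submodule.eq_bot_iff]
        rintro x ⟨hx1, hx2⟩
        obtain ⟨c, rfl⟩ := Submodule.mem_span_singleton.1 hx2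
        by_cases hc : c = 0
        · rw [hc, zero_smul]
        · exact absurd ((Submodule.smul_mem_iff X hc).1 hx1) hwX
      rw [h4, finrank_bot, finrank_span_singleton hw0] at h3
      rw [h]
      omega
  rw [← h2] at hy
  obtain ⟨x, hx, v, hv, rfl⟩ := Submodule.mem_sup.1 hy
  obtain ⟨c, rfl⟩ := Submodule.mem_span_singleton.1 hv
  have hx0 : l x = 0 := hlX hx
  rw [map_add, hx0, zero_add, map_smul, smul_eq_mul] at hly
  have hc : c = 0 := (mul_eq_zero.1 hly).resolve_right hl
  rw [hc, zero_smul, add_zero]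
  exact hx

end Ch1

theorem hCh1 (hCg : StCg) : StCh1 := by
  intro g hg f hm hdeg _ α hα hsq X hX hX1 hX2
  have hmK := hm.map (Int.castRingHom ℚ)
  have hdK : (fK f).natDegree = 2 * g + 1 := by rw [hm.natDegree_map, hdeg]
  have hfd : FiniteDimensional ℚ (LL f) := hmK.finite_adjoinRoot
  obtain ⟨b, hbth, hb⟩ := hCg g f hm hdeg α
  have hnorm : Algebra.norm ℚ α ≠ 0 := by
    rwa [Ne, Algebra.norm_eq_zero_iff]
  have hfr : Module.finrank ℚ (LL f) = 2 * g + 1 := by
    rw [Module.finrank_eq_card_basis b, Fintype.card_fin]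
  have hnd : (Bf hm α).Nondegenerate := by
    rw [LinearMap.BilinForm.nondegenerate_iff_det_ne_zero b]
    have h1 : LinearMap.BilinForm.toMatrix b (Bf hm α) =
        Matrix.of fun i j => Bf hm α (b i) (b j) := by
      ext i j
      rw [LinearMap.BilinForm.toMatrix_apply, Matrix.of_apply]
    rw [h1, hb]
    exact mul_ne_zero (pow_ne_zero _ (neg_ne_zero.2 one_ne_zero)) hnorm
  set P := (Bf hm α).orthogonal X with hP
  have hPm : ∀ y, y ∈ P ↔ ∀ x ∈ X, Bf hm α x y = 0 := by
    intro y
    rw [hP, LinearMap.BilinForm.mem_orthogonal_iff]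
  have hsymm : ∀ x y, Bf hm α x y = Bf hm α y x := by
    intro x y
    rw [Bf_apply, Bf_apply, mul_right_comm]
  have hPf : Module.finrank ℚ P = Module.finrank ℚ X + 1 := by
    rw [hP, LinearMap.BilinForm.finrank_orthogonal hnd, hfr, hX]
    omega
  have hXP : X ≤ P := fun y hy => (hPm y).2 fun x hx => hX1 x hx y hy
  obtain ⟨l, hl⟩ := Ch1.exists_fun hXP hPf
  -- a vector whose first `g` translates lie in `X`
  obtain ⟨v, hv0, hv⟩ : ∃ v : LL f, v ≠ 0 ∧ ∀ i < g, th f ^ i * v ∈ X := by
    let T : X →ₗ[ℚ] (Fin (g - 1) → ℚ) :=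
      LinearMap.pi fun i => (l ∘ₗ LinearMap.mulLeft ℚ (th f ^ ((i : ℕ) + 1))) ∘ₗ X.subtype
    have hT : LinearMap.ker T ≠ ⊥ := by
      refine LinearMap.ker_ne_bot_of_finrank_lt ?_
      rw [Module.finrank_fin_fun, hX]
      omega
    obtain ⟨v, hvT, hv0⟩ := Submodule.exists_mem_ne_zero_of_ne_bot hT
    refine ⟨v, fun h => hv0 (Subtype.ext h), ?_⟩
    intro i
    induction i with
    | zero =>
      intro _
      rw [pow_zero, one_mul]
      exact v.2
    | succ i ih =>
      intro hi
      have h1 := ih (by omega)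
      refine hl _ ?_ ?_
      · rw [hPm]
        intro x hx
        rw [hsymm, pow_succ', mul_assoc]
        exact hX2 _ h1 x hx
      · have h2 := congrFun (LinearMap.mem_ker.1 hvT) ⟨i, by omega⟩
        exact h2
  obtain ⟨c, hc⟩ := Ch1.const_of_tau hm hdeg (α * v ^ 2) (by
    intro k hk
    rcases Nat.lt_or_ge k g with h1 | h1
    · have h2 := hX1 _ (hv k h1) _ (hv 0 (by omega))
      rw [Bf_apply, pow_zero, one_mul] at h2
      rw [← h2]
      congr 1
      ring
    · have h2 := hX2 _ (hv (k - g) (by omega)) _ (hv (g - 1) (by omega))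
      rw [Bf_apply] at h2
      rw [← h2]
      congr 1
      have h3 : k = 1 + (k - g) + (g - 1) := by omega
      conv_lhs => rw [h3, pow_add, pow_add, pow_one]
      ring)
  replace hc : α * v ^ 2 = algebraMap ℚ (LL f) c := by
    rw [hc, eq_ratCast, eq_ratCast]
  have hc0 : c ≠ 0 := by
    rintro rfl
    rw [map_zero] at hc
    exact mul_ne_zero hα (pow_ne_zero 2 hv0) hc
  refine ⟨?_, v, c, hv0, hc, ?_⟩
  · obtain ⟨s, hs⟩ := hsq
    have h1 : s * s * Algebra.norm ℚ v ^ 2 = c ^ (2 * g + 1) := by
      rw [← hs, ← map_pow, ← map_mul, hc, Algebra.norm_algebraMap, hfr]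
    set r : ℚ := s * Algebra.norm ℚ v / c ^ g with hr
    have h2 : c = r * r := by
      rw [hr]
      field_simp
      have h3 : c ^ (2 * g + 1) = c * (c ^ g) ^ 2 := by ring
      rw [h3] at h1
      linear_combination -h1
    refine ⟨algebraMap ℚ (LL f) r / v, ?_⟩
    have h3 : algebraMap ℚ (LL f) r * algebraMap ℚ (LL f) r = α * v ^ 2 := by
      rw [← map_mul, ← h2, hc]
    field_simp
    linear_combination -h3
  · have hli : LinearIndependent ℚ fun i : Fin g => th f ^ (i : ℕ) * v := by
      have h1 : LinearIndependent ℚ fun i : Fin g => b (Fin.castLE (by omega) i) :=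
        b.linearIndependent.comp _ (Fin.castLE_injective _)
      have h2 := h1.map' (LinearMap.mulRight ℚ v)
        (LinearMap.ker_eq_bot.2 fun x y hxy => mul_right_cancel₀ hv0 hxy)
      have h3 : (fun i : Fin g => th f ^ (i : ℕ) * v) =
          (LinearMap.mulRight ℚ v) ∘ fun i : Fin g => b (Fin.castLE (by omega) i) := by
        ext i
        rw [Function.comp_apply, LinearMap.mulRight_apply, hbth]
        rfl
      rw [h3]
      exact h2
    symm
    refine Submodule.eq_of_le_of_finrank_eq ?_ ?_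
    · rw [Submodule.span_le]
      rintro _ ⟨i, rfl⟩
      exact hv i i.2
    · rw [finrank_span_eq_card hli, Fintype.card_fin, hX]

end Pool.Agent.Helper54.HQ
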