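import Pool.Agent.Helper54.HQ.StC
import Pool.Agent.Helper54.HQ.Base
import Pool.Agent.Helper3.HY.M_Ce

/-!
# HQ, module Ce: square root of an ideal class
-/

set_option autoImplicit false

namespace Pool.Agent.Helper54.HQ

open Polynomial Finset Filter Topology Matrix IsDedekindDomain
open Pool.Agent.Helper3

theorem exists_denom_Ce {f : ℤ[X]} (z : LL f) : ∃ a : ℤ, a ≠ 0 ∧ InR (a • z) := by
  obtain ⟨p, rfl⟩ := AdjoinRoot.mk_surjective z
  obtain ⟨b, hb⟩ := IsLocalization.integerNormalization_map_to_map (nonZeroDivisors ℤ) p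
  refine ⟨b, nonZeroDivisors.ne_zero b.2,
    AdjoinRoot.mk f (IsLocalization.integerNormalization (nonZeroDivisors ℤ) p), ?_⟩
  have hb' : (IsLocalization.integerNormalization (nonZeroDivisors ℤ) p).map
      (Int.castRingHom ℚ) = (b : ℤ) • p := hb
  rw [algebraMap_mk, hb', map_zsmul]

open scoped nonZeroDivisors in
theorem hCe : StCe := by
  intro f hm _ _ _ α hα hev
  obtain ⟨J, hJ0, hJ⟩ := HY.Ce.exists_sqrt (R := RR f) (K := LL f) α hα hev
  refine ⟨(J : Submodule (RR f) (LL f)).toAddSubgroup.toIntSubmodule, ?_, ?_, ?_, ?_⟩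
  · intro x hx
    change x ∈ (J : Submodule (RR f) (LL f)) at hx
    change th f * x ∈ (J : Submodule (RR f) (LL f))
    have h1 := Submodule.smul_mem (J : Submodule (RR f) (LL f)) (AdjoinRoot.root f) hx
    rwa [Algebra.smul_def, algebraMap_root] at h1
  · intro x hx y hy
    have h1 : α * x * y ∈ FractionalIdeal.spanSingleton (RR f)⁰ α * J * J :=
      FractionalIdeal.mul_mem_mul (FractionalIdeal.mul_mem_mul
        (FractionalIdeal.mem_spanSingleton_self _ _) hx) hy
    rw [hJ, FractionalIdeal.mem_one_iff] at h1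
    obtain ⟨r, hr⟩ := h1
    exact ⟨r, hr.symm⟩
  · intro z hz
    have h1 : FractionalIdeal.spanSingleton (RR f)⁰ (α * z) * J ≤ 1 := by
      rw [FractionalIdeal.mul_le]
      intro x hx y hy
      obtain ⟨r, hr⟩ := (FractionalIdeal.mem_spanSingleton _).1 hx
      obtain ⟨s, hs⟩ := hz y hy
      rw [FractionalIdeal.mem_one_iff]
      refine ⟨r * s, ?_⟩
      rw [map_mul, ← hs, ← hr, Algebra.smul_def]
      ring
    have h2 : FractionalIdeal.spanSingleton (RR f)⁰ z ≤ J := by
      have h3 : FractionalIdeal.spanSingleton (RR f)⁰ z =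
          (FractionalIdeal.spanSingleton (RR f)⁰ (α * z) * J) * J := by
        rw [← FractionalIdeal.spanSingleton_mul_spanSingleton]
        calc FractionalIdeal.spanSingleton (RR f)⁰ z =
            FractionalIdeal.spanSingleton (RR f)⁰ z *
              (FractionalIdeal.spanSingleton (RR f)⁰ α * J * J) := by rw [hJ, mul_one]
          _ = _ := by ring
      rw [h3]
      calc (FractionalIdeal.spanSingleton (RR f)⁰ (α * z) * J) * J ≤ 1 * J := by gcongr
        _ = J := one_mul _
    exact h2 (FractionalIdeal.mem_spanSingleton_self _ _)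
  · intro z
    obtain ⟨j, hj, hj0⟩ : ∃ j ∈ J, j ≠ 0 := by
      by_contra hcon
      push Not at hcon
      exact hJ0 (FractionalIdeal.eq_zero_iff.2 hcon)
    obtain ⟨a, ha, r, hr⟩ := exists_denom_Ce (z / j)
    refine ⟨a, ha, ?_⟩
    change a • z ∈ (J : Submodule (RR f) (LL f))
    have h1 : a • z = r • j := by
      rw [Algebra.smul_def r j, ← hr, smul_mul_assoc, div_mul_cancel₀ _ hj0]
    rw [h1]
    exact Submodule.smul_mem _ _ hj

end Pool.Agent.Helper54.HQ
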