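import Pool.Agent.Helper54.HQ.StC
import Pool.Agent.Helper54.HQ.Base

/-!
# HQ, module Cj1: integrality at `P`
-/

set_option autoImplicit false

namespace Pool.Agent.Helper54.HQ

open Polynomial Finset Filter Topology Matrix IsDedekindDomain
open Pool.Agent.Helper3.HY (co tau Ix nu TType IType rho2 exc Adm Gm)
open Pool.Agent.Helper3

/-- An element of `R` which is prime to `P` divides an integer prime to `P`. -/
lemma exists_mul_Cj1 {f : ℤ[X]} (hm : f.Monic) (P : Prm) (a : ℤ) (ha : ¬ pz P ∣ a) (r : RR f) :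
    ∃ (s : RR f) (c : ℤ), ¬ pz P ∣ c ∧ ((a : RR f) + (pz P : RR f) * r) * s = (c : RR f) := by
  classical
  set x : RR f := (a : RR f) + (pz P : RR f) * r with hx
  have hfin : Module.Finite ℤ (RR f) := (AdjoinRoot.powerBasis' hm).finite
  have hint : Algebra.IsIntegral ℤ (RR f) := Algebra.IsIntegral.of_finite ℤ (RR f)
  have hcast : ∀ c : ℤ, algebraMap ℤ (RR f) c = (c : RR f) := fun c => eq_intCast _ c
  by_contra hcon
  push Not at hcon
  have hle : (Ideal.span {x}).comap (algebraMap ℤ (RR f)) ≤ Ideal.span {pz P} := by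
    intro c hc
    rw [Ideal.mem_comap, Ideal.mem_span_singleton, hcast] at hc
    obtain ⟨s, hs⟩ := hc
    rw [Ideal.mem_span_singleton]
    by_contra hPc
    exact hcon s c hPc hs.symm
  have hprime : (Ideal.span {pz P}).IsPrime := by
    rw [Ideal.span_singleton_prime (pz_ne_zero P)]
    exact pz_prime P
  obtain ⟨Q, hQ1, hQ2, hQ3⟩ := Ideal.exists_ideal_over_prime_of_isIntegral (Ideal.span {pz P})
    (Ideal.span {x}) hle
  have hxQ : x ∈ Q := hQ1 (Ideal.mem_span_singleton_self x)
  have hPQ : (pz P : RR f) ∈ Q := by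
    have : pz P ∈ Q.comap (algebraMap ℤ (RR f)) := by
      rw [hQ3]; exact Ideal.mem_span_singleton_self _
    rw [Ideal.mem_comap, hcast] at this
    exact this
  have haQ : (a : RR f) ∈ Q := by
    have h1 : (a : RR f) = x - (pz P : RR f) * r := by rw [hx]; ring
    rw [h1]
    exact Q.sub_mem hxQ (Q.mul_mem_right _ hPQ)
  have haP : a ∈ Q.comap (algebraMap ℤ (RR f)) := by
    rw [Ideal.mem_comap, hcast]
    exact haQ
  rw [hQ3, Ideal.mem_span_singleton] at haP
  exact ha haP

theorem hCj1 : StCj1 := by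
  intro f hm _ _ _ P α β e hβ hloc hα
  obtain ⟨r, a, ha, hr⟩ := hloc
  obtain ⟨q, hq⟩ := hα
  obtain ⟨s, c, hc, hsc⟩ := exists_mul_Cj1 hm P a ha r
  rw [eq_intCast, eq_intCast] at hr
  set u : LL f := α * β ^ 2 with hu
  have hau : (a : LL f) * u =
      algebraMap (RR f) (LL f) ((a : RR f) + (pz P : RR f) * r) := by
    rw [map_add, map_mul, map_intCast, map_intCast, ← hr]
    ring
  have haus : (a : LL f) * u * algebraMap (RR f) (LL f) s = (c : LL f) := by
    rw [hau, ← map_mul, hsc, map_intCast]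
  have hchar : CharZero (LL f) := algebraRat.charZero (LL f)
  have hc0 : (c : LL f) ≠ 0 := by
    rw [Int.cast_ne_zero]
    rintro rfl
    exact hc (dvd_zero _)
  have hu0 : u ≠ 0 := by
    intro h0
    rw [h0, mul_zero, zero_mul] at haus
    exact hc0 haus.symm
  refine ⟨c, hc, ?_⟩
  have h1 : ((c : LL f) * e * β⁻¹) ^ 2 =
      algebraMap (RR f) (LL f) ((c : RR f) * (a : RR f) * s * q) := by
    rw [map_mul, map_mul, map_mul, map_intCast, map_intCast, ← hq]
    have h3 : α * e ^ 2 = u * (e * β⁻¹) ^ 2 := by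
      rw [hu]
      field_simp
    calc ((c : LL f) * e * β⁻¹) ^ 2 = (c : LL f) * (c : LL f) * (e * β⁻¹) ^ 2 := by ring
      _ = (c : LL f) * ((a : LL f) * u * algebraMap (RR f) (LL f) s) * (e * β⁻¹) ^ 2 := by rw [haus]
      _ = (c : LL f) * (a : LL f) * algebraMap (RR f) (LL f) s * (u * (e * β⁻¹) ^ 2) := by ring
      _ = _ := by rw [h3]
  have h4 : IsIntegral (RR f) ((c : LL f) * e * β⁻¹) := by
    apply IsIntegral.of_pow (n := 2) (by norm_num)
    rw [h1]
    exact isIntegral_algebraMap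
  obtain ⟨ri, hri⟩ := IsIntegrallyClosed.isIntegral_iff.mp h4
  exact ⟨ri, hri.symm⟩

end Pool.Agent.Helper54.HQ
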