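import Pool.Agent.Helper54.HQ.StS
import Pool.Agent.Helper3.HY.M_Ui
import Pool.Agent.Helper3.HY.M_Pn

/-!
# HQ, module Dn: the primes and the densities
-/

set_option autoImplicit false

namespace Pool.Agent.Helper54.HQ

open Polynomial Finset Filter Topology Matrix IsDedekindDomain
open Pool.Agent.Helper3.HY (co tau Ix nu TType IType)

lemma inf_Dn (N : ℕ) : ∀ n : ℕ, ∃ T : Finset Prm, T.card = n ∧
    ∀ P ∈ T, (P : ℕ) % 8 = 1 ∧ N < (P : ℕ) := by
  intro n
  induction n with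
  | zero => exact ⟨∅, rfl, fun P hP => absurd hP (Finset.notMem_empty P)⟩
  | succ n ih =>
    obtain ⟨T, hT, h⟩ := ih
    obtain ⟨p, hp, hlt, hmod⟩ := Nat.exists_prime_gt_modEq_one (k := 8)
      (N + ∑ P ∈ T, (P : ℕ)) (by norm_num)
    obtain ⟨Q, hQ⟩ : ∃ Q : Prm, (Q : ℕ) = p := ⟨⟨p, hp⟩, rfl⟩
    rw [← hQ] at hlt hmod
    have hnot : Q ∉ T := by
      intro hmem
      have h1 : (Q : ℕ) ≤ ∑ P ∈ T, (P : ℕ) :=
        Finset.single_le_sum (f := fun P : Prm => (P : ℕ)) (fun _ _ => Nat.zero_le _) hmem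
      omega
    refine ⟨Finset.cons Q T hnot, by rw [Finset.card_cons, hT], fun P hP => ?_⟩
    rw [Finset.mem_cons] at hP
    rcases hP with rfl | hP
    · exact ⟨hmod, by omega⟩
    · exact h P hP

theorem hDn : StDn := by
  intro g hg
  refine ⟨fun P => ?_, fun n => inf_Dn _ n⟩
  have hne : (TType (kp P) g).Nonempty := by
    obtain ⟨p, hp1, hp2, hp3⟩ := Pool.Agent.Helper3.HY.Pn.exists_irr (kp P) (2 * g) (by omega)
    exact ⟨(X - C 0) * p, 0, p, hp1, hp2, hp3, rfl⟩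
  have hfin : (TType (kp P) g).Finite := by
    refine (Pool.Agent.Helper3.HY.MUi.finite_deg (kp P) (2 * g + 1)).subset ?_
    rintro h ⟨a, p, hp, hirr, hd, rfl⟩
    change ((X - C a) * p).natDegree ≤ 2 * g + 1
    rw [(monic_X_sub_C a).natDegree_mul hp, natDegree_X_sub_C, hd]
    omega
  unfold dens
  have h1 : 0 < (TType (kp P) g).ncard := (Set.ncard_pos hfin).2 hne
  have h2 : 0 < ((P : ℕ) : ℝ) := by exact_mod_cast P.2.pos
  have h3 : (0 : ℝ) < ((TType (kp P) g).ncard : ℝ) := by exact_mod_cast h1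
  positivity

end Pool.Agent.Helper54.HQ
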