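import Pool.Agent.Helper54.HQ.StR
import Pool.Agent.Helper54.HQ.Base

/-!
# HQ: Ma, evaluation at the complex roots
-/

set_option autoImplicit false

namespace Pool.Agent.Helper54.HQ

open Polynomial Finset Filter Topology Matrix IsDedekindDomain
open Pool.Agent.Helper3.HY (co tau Ix nu TType IType rho2 exc Adm Gm co_mk)
open Pool.Agent.Helper3

private lemma rts_root_Ma {f : ℤ[X]} (hm : f.Monic) {ρ : ℂ} (h : ρ ∈ rts f) : aeval ρ f = 0 := by
  have h0 : f.map (Int.castRingHom ℂ) ≠ 0 := (hm.map _).ne_zero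
  rw [rts, Multiset.mem_toFinset, mem_roots h0, IsRoot, eval_map] at h
  rw [aeval_def]
  exact h

private lemma aeval_fK_Ma (f : ℤ[X]) (ρ : ℂ) : aeval ρ (fK f) = aeval ρ f := by
  rw [fK, aeval_def, aeval_def, eval₂_map]
  congr 1

lemma evc_mk_Ma {f : ℤ[X]} (hm : f.Monic) (hN : 1 ≤ f.natDegree) {ρ : ℂ} (h : ρ ∈ rts f)
    (p : ℚ[X]) : evc hm ρ (AdjoinRoot.mk (fK f) p) = aeval ρ p := by
  have hmK : (fK f).Monic := hm.map _
  have hdK : (fK f).natDegree = f.natDegree := hm.natDegree_map _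
  have hne : fK f ≠ 1 := by
    intro h1
    rw [h1, natDegree_one] at hdK
    omega
  have hlt : (p %ₘ fK f).natDegree < f.natDegree := by
    rw [← hdK]
    exact natDegree_modByMonic_lt p hmK hne
  have h1 : evc hm ρ (AdjoinRoot.mk (fK f) p) = aeval ρ (p %ₘ fK f) := by
    rw [evc, aeval_eq_sum_range' hlt]
    apply Finset.sum_congr rfl
    intro i _
    rw [co_mk, Algebra.smul_def]
    rfl
  rw [h1]
  conv_rhs => rw [← modByMonic_add_div p (fK f)]
  rw [map_add, map_mul, aeval_fK_Ma, rts_root_Ma hm h, zero_mul, add_zero]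

theorem hMa : StMa := by
  intro f hm hN
  have hlin : ∀ (ρ : ℂ) (x y : LL f) (a : ℚ), evc hm ρ (x + y) = evc hm ρ x + evc hm ρ y ∧
      evc hm ρ (a • x) = (a : ℂ) * evc hm ρ x := by
    intro ρ x y a
    constructor
    · rw [evc, evc, evc, ← Finset.sum_add_distrib]
      apply Finset.sum_congr rfl
      intro i _
      rw [map_add]
      push_cast
      ring
    · rw [evc, evc, Finset.mul_sum]
      apply Finset.sum_congr rfl
      intro i _
      rw [map_smul, smul_eq_mul]
      push_cast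
      ring
  refine ⟨hlin, ?_, ?_, fun ρ h => rts_root_Ma hm h, ?_⟩
  · intro ρ h x y
    obtain ⟨p, rfl⟩ := AdjoinRoot.mk_surjective x
    obtain ⟨q, rfl⟩ := AdjoinRoot.mk_surjective y
    rw [← map_mul, evc_mk_Ma hm hN h, evc_mk_Ma hm hN h, evc_mk_Ma hm hN h, map_mul]
  · intro ρ h
    constructor
    · rw [th, ← AdjoinRoot.mk_X, evc_mk_Ma hm hN h, aeval_X]
    · rw [← map_one (AdjoinRoot.mk (fK f)), evc_mk_Ma hm hN h, map_one]
  · intro ρ x
    rw [evc, evc, map_sum]
    apply Finset.sum_congr rfl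
    intro i _
    rw [map_mul, map_pow, map_ratCast]

end Pool.Agent.Helper54.HQ
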