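import Pool.Agent.Helper54.HQ.StR
import Pool.Agent.Helper54.HQ.Base

/-!
# HQ: Mb, the formula of Euler
-/

set_option autoImplicit false

namespace Pool.Agent.Helper54.HQ

open Polynomial Finset Filter Topology Matrix IsDedekindDomain
open Pool.Agent.Helper3.HY (co tau Ix nu TType IType rho2 exc Adm Gm co_mk)
open Pool.Agent.Helper3

theorem hMb : StMb := by
  classical
  intro f hm hN hsep
  set F : ℂ[X] := f.map (Int.castRingHom ℂ) with hF
  have hFm : F.Monic := hm.map _
  have hFK : (fK f).map (algebraMap ℚ ℂ) = F := by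
    rw [fK, Polynomial.map_map, hF]
    congr 1
  have hFsep : F.Separable := by
    rw [← hFK]
    exact hsep.map
  have hnd : F.roots.Nodup := nodup_roots hFsep
  have hsp : F.Splits := IsAlgClosed.splits F
  have hFdeg : F.natDegree = f.natDegree := hm.natDegree_map _
  have hcard : (rts f).card = f.natDegree := by
    rw [rts, Multiset.toFinset_card_of_nodup hnd, ← hFdeg]
    exact hsp.natDegree_eq_card_roots.symm
  have hnodal : Lagrange.nodal (rts f) (id : ℂ → ℂ) = F := by
    rw [Lagrange.nodal_eq]
    conv_rhs => rw [hsp.eq_prod_roots_of_monic hFm]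
    rw [Finset.prod, rts, Multiset.toFinset_val, hnd.dedup]
    rfl
  have hderiv : ∀ ρ : ℂ, aeval ρ (derivative f) = eval ρ (derivative F) := by
    intro ρ
    rw [hF, derivative_map, eval_map, aeval_def]
    rfl
  have hprod : ∀ ρ ∈ rts f, ∏ j ∈ (rts f).erase ρ, (ρ - j) = aeval ρ (derivative f) := by
    intro ρ h
    have h1 := Lagrange.eval_nodal_derivative_eval_node_eq (v := (id : ℂ → ℂ)) h
    rw [hnodal, Lagrange.eval_nodal] at h1
    rw [hderiv]
    exact h1.symm
  refine ⟨hcard, ?_, ?_⟩
  · intro ρ h
    rw [← hprod ρ h, Finset.prod_ne_zero_iff]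
    intro j hj h0
    exact (Finset.mem_erase.1 hj).1 (sub_eq_zero.1 h0).symm
  · intro x
    obtain ⟨p, rfl⟩ := AdjoinRoot.mk_surjective x
    have hmK : (fK f).Monic := hm.map _
    have hdK : (fK f).natDegree = f.natDegree := hm.natDegree_map _
    have hne : fK f ≠ 1 := by
      intro h1
      rw [h1, natDegree_one] at hdK
      omega
    have hlt : (p %ₘ fK f).natDegree < f.natDegree := by
      rw [← hdK]
      exact natDegree_modByMonic_lt p hmK hne
    set P : ℂ[X] := (p %ₘ fK f).map (algebraMap ℚ ℂ) with hP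
    have hPlt : P.natDegree < f.natDegree := (natDegree_map_le).trans_lt hlt
    have hPdeg : P.degree < (rts f).card := by
      rw [hcard]
      exact (degree_le_natDegree).trans_lt (by exact_mod_cast hPlt)
    have h1 := Lagrange.coeff_eq_sum (s := rts f) (v := (id : ℂ → ℂ))
      (fun a _ b _ h => h) hPdeg
    have h2 : ((tau hmK (AdjoinRoot.mk (fK f) p) : ℚ) : ℂ) = P.coeff ((rts f).card - 1) := by
      rw [hP, coeff_map, hcard, tau, co_mk, hdK]
      rfl
    rw [h2, h1]
    apply Finset.sum_congr rfl
    intro ρ h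
    congr 1
    · rw [id, hP, eval_map, eval₂_eq_sum_range' _ hlt, evc]
      apply Finset.sum_congr rfl
      intro i _
      rw [co_mk]
      rfl
    · exact hprod ρ h

end Pool.Agent.Helper54.HQ
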