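import Pool.Agent.Helper54.HQ.StR

/-!
# HQ module Rg: the type of a reduced basis
-/

set_option autoImplicit false

namespace Pool.Agent.Helper54.HQ

open Polynomial Finset Filter Topology Matrix IsDedekindDomain
open Pool.Agent.Helper3.HY (co tau Ix nu TType IType rho2 exc Adm Gm)

/-- the exponent of a positive number -/
theorem exp_Rg {y : ℝ} (hy : 0 < y) : ∃ p : ℕ, ((2 : ℝ) ^ p ≤ 1 ∨ (2 : ℝ) ^ p * y ≤ 1) ∧
    1 ≤ 2 * ((2 : ℝ) ^ p * y) := by
  obtain ⟨p, h1, h2⟩ := exists_nat_pow_near (le_max_left (1 : ℝ) (1 / y)) one_lt_two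
  refine ⟨p, ?_, ?_⟩
  · rcases le_max_iff.1 h1 with h3 | h3
    · exact Or.inl h3
    · exact Or.inr ((le_div_iff₀ hy).1 h3)
  · have h3 : 1 / y < 2 ^ (p + 1) := (le_max_right _ _).trans_lt h2
    rw [div_lt_iff₀ hy, pow_succ] at h3
    linarith

theorem pow4_Rg {a C : ℝ} (ha : 0 < a) (h : a ^ 2 * a ^ 2 ≤ C) : a ≤ 1 + |C| := by
  rcases le_or_gt a 1 with h1 | h1
  · linarith [abs_nonneg C]
  · have h2 : 1 < a ^ 2 := by nlinarith
    have h3 : a ≤ a ^ 2 * a ^ 2 := by nlinarith
    linarith [le_abs_self C]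

theorem pow2_Rg {a C : ℝ} (ha : 0 < a) (h : a ^ 2 ≤ C) : a ≤ 1 + |C| := by
  rcases le_or_gt a 1 with h1 | h1
  · linarith [abs_nonneg C]
  · have h3 : a ≤ a ^ 2 := by nlinarith
    linarith [le_abs_self C]

theorem low2_Rg {a c : ℝ} (ha : 0 < a) (hc : 0 < c) (h : c ≤ a ^ 2) : 1 ≤ (1 + 1 / c) * a := by
  rcases le_or_gt 1 a with h1 | h1
  · have : 0 < 1 / c := by positivity
    nlinarith
  · have h2 : c ≤ a := by nlinarith
    have h3 : 1 ≤ 1 / c * a := by
      rw [div_mul_eq_mul_div, one_mul, le_div_iff₀ hc, one_mul]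
      exact h2
    nlinarith

theorem hRg : StRg := by
  intro g c₁ c₂ hc₁
  set c : ℝ := 2 ^ (2 * g + 1) with hc
  have hc1 : 1 ≤ c := one_le_pow₀ one_le_two
  set K₁ : ℝ := 2 + c + |c * c₂| with hK₁
  have hK₁2 : 2 ≤ K₁ := by
    have := abs_nonneg (c * c₂)
    linarith
  set K : ℝ := K₁ * (1 + |c₂| + (1 + 1 / c₁)) with hK
  have hi1 : 0 < 1 / c₁ := by positivity
  have habs := abs_nonneg c₂
  have hKK : K₁ ≤ K := by
    rw [hK]
    nlinarith
  refine ⟨K, by linarith, ?_⟩
  intro a ha hmono hprod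
  choose p hp1 hp2 using fun i => exp_Rg (ha i)
  set m : Fin g → ℕ := fun i =>
    (univ.filter fun j : Ix g => (i : ℕ) ≤ j ∧ (j : ℕ) < g).sup p with hm
  have hK₁0 : 0 < K₁ := by linarith
  -- the first half
  have key : ∀ (i : Ix g) (hi : (i : ℕ) < g),
      1 ≤ K₁ * ((2 : ℝ) ^ m ⟨i, hi⟩ * a i) ∧ (2 : ℝ) ^ m ⟨i, hi⟩ * a i ≤ K₁ := by
    intro i hi
    constructor
    · have h1 : p i ≤ m ⟨i, hi⟩ :=
        Finset.le_sup (f := p) (by simp only [Finset.mem_filter, Finset.mem_univ, true_and]; exact ⟨le_refl _, hi⟩)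
      have h2 : (2 : ℝ) ^ p i ≤ 2 ^ m ⟨i, hi⟩ := pow_le_pow_right₀ one_le_two h1
      have h3 := hp2 i
      have h4 : (2 : ℝ) ^ p i * a i ≤ 2 ^ m ⟨i, hi⟩ * a i :=
        mul_le_mul_of_nonneg_right h2 (ha i).le
      have h5 : 0 < (2 : ℝ) ^ m ⟨i, hi⟩ * a i := mul_pos (by positivity) (ha i)
      nlinarith
    · obtain ⟨j, hj, hj2⟩ := Finset.exists_mem_eq_sup
        (univ.filter fun j : Ix g => (i : ℕ) ≤ j ∧ (j : ℕ) < g)
        ⟨i, by simp only [Finset.mem_filter, Finset.mem_univ, true_and]; exact ⟨le_refl _, hi⟩⟩ p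
      simp only [Finset.mem_filter, Finset.mem_univ, true_and] at hj
      have hmj : m ⟨i, hi⟩ = p j := hj2
      rw [hmj]
      rcases hp1 j with h1 | h1
      · have hrev : i ≤ Fin.rev i := by
          rw [Fin.le_def, Fin.val_rev]
          omega
        have h2 := hmono i (Fin.rev i) hrev
        have h3 := (hprod i).2
        have h4 : a i ^ 2 * a i ^ 2 ≤ c * c₂ := by
          calc a i ^ 2 * a i ^ 2 ≤ a i ^ 2 * (c * a (Fin.rev i) ^ 2) :=
                mul_le_mul_of_nonneg_left h2 (sq_nonneg _)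
            _ = c * (a i ^ 2 * a (Fin.rev i) ^ 2) := by ring
            _ ≤ c * c₂ := mul_le_mul_of_nonneg_left h3 (by linarith)
        have h5 := pow4_Rg (ha i) h4
        have h6 : (2 : ℝ) ^ p j * a i ≤ 1 * a i := mul_le_mul_of_nonneg_right h1 (ha i).le
        linarith
      · have h2 := hmono i j (Fin.le_def.2 hj.1)
        have h3 : ((2 : ℝ) ^ p j * a i) ^ 2 ≤ c := by
          calc ((2 : ℝ) ^ p j * a i) ^ 2 = ((2 : ℝ) ^ p j) ^ 2 * a i ^ 2 := by ring
            _ ≤ ((2 : ℝ) ^ p j) ^ 2 * (c * a j ^ 2) :=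
              mul_le_mul_of_nonneg_left h2 (sq_nonneg _)
            _ = c * ((2 : ℝ) ^ p j * a j) ^ 2 := by ring
            _ ≤ c * 1 := by
              refine mul_le_mul_of_nonneg_left ?_ (by linarith)
              exact pow_le_one₀ (mul_pos (by positivity) (ha j)).le h1
            _ = c := mul_one c
        have h4 := pow2_Rg (mul_pos (by positivity) (ha i)) h3
        rw [abs_of_pos (by linarith : (0 : ℝ) < c)] at h4
        have := abs_nonneg (c * c₂)
        linarith
  refine ⟨m, ?_, ?_⟩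
  · intro i j hij
    refine Finset.sup_mono fun l hl => ?_
    simp only [Finset.mem_filter, Finset.mem_univ, true_and] at hl ⊢
    exact ⟨(Fin.le_def.1 hij).trans hl.1, hl.2⟩
  · intro i
    rcases lt_trichotomy (i : ℕ) g with hi | hi | hi
    · obtain ⟨h1, h2⟩ := key i hi
      have hnu : (2 : ℝ) ^ nu g m i = ((2 : ℝ) ^ m ⟨i, hi⟩)⁻¹ := by
        unfold nu
        rw [dif_pos hi, _root_.zpow_neg, zpow_natCast]
      have h0 : (0 : ℝ) < 2 ^ m ⟨i, hi⟩ := by positivity
      rw [hnu]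
      constructor
      · rw [inv_le_iff_one_le_mul₀ h0]
        calc 1 ≤ K₁ * ((2 : ℝ) ^ m ⟨i, hi⟩ * a i) := h1
          _ ≤ K * ((2 : ℝ) ^ m ⟨i, hi⟩ * a i) :=
            mul_le_mul_of_nonneg_right hKK (mul_pos h0 (ha i)).le
          _ = K * a i * 2 ^ m ⟨i, hi⟩ := by ring
      · rw [← div_eq_mul_inv, le_div_iff₀ h0]
        linarith
    · have hrev : Fin.rev i = i := by
        rw [Fin.ext_iff, Fin.val_rev]
        omega
      have hnu : (2 : ℝ) ^ nu g m i = 1 := by
        unfold nu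
        rw [dif_neg (by omega), dif_neg (by omega), zpow_zero]
      obtain ⟨h1, h2⟩ := hprod i
      rw [hrev] at h1 h2
      rw [hnu]
      have h3 := pow4_Rg (ha i) h2
      have h4 : 1 ≤ (1 + 1 / c₁) * a i ^ 2 := low2_Rg (by have := ha i; positivity) hc₁ (by
        calc c₁ ≤ a i ^ 2 * a i ^ 2 := h1
          _ = (a i ^ 2) ^ 2 := by ring)
      have h5 : 1 ≤ (1 + 1 / c₁) * a i := by
        rcases le_or_gt 1 (a i) with h6 | h6
        · nlinarith
        · have : a i ^ 2 ≤ a i := by nlinarith [ha i]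
          nlinarith
      constructor
      · have h6 : (1 + 1 / c₁) * a i ≤ K * a i := by
          refine mul_le_mul_of_nonneg_right ?_ (ha i).le
          rw [hK]
          nlinarith
        linarith
      · rw [mul_one, hK]
        nlinarith
    · have hi' : ((Fin.rev i : Ix g) : ℕ) < g := by
        rw [Fin.val_rev]
        omega
      obtain ⟨h1, h2⟩ := key (Fin.rev i) hi'
      have hnu : (2 : ℝ) ^ nu g m i = (2 : ℝ) ^ m ⟨(Fin.rev i : Ix g), hi'⟩ := by
        unfold nu
        rw [dif_neg (by omega), dif_pos hi, zpow_natCast]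
        congr 2
        rw [Fin.ext_iff]
        simp only [Fin.val_rev]
        omega
      rw [hnu]
      obtain ⟨h3, h4⟩ := hprod i
      set b := a (Fin.rev i) with hb
      have hb0 : 0 < b := ha _
      have ha0 := ha i
      set w := (2 : ℝ) ^ m ⟨(Fin.rev i : Ix g), hi'⟩ with hw
      have hw0 : 0 < w := by positivity
      have hab : 0 < a i * b := mul_pos ha0 hb0
      have h5 : 1 ≤ (1 + 1 / c₁) * (a i * b) := low2_Rg hab hc₁ (by linarith [mul_pow (a i) b 2])
      have h6 : a i * b ≤ 1 + |c₂| := pow2_Rg hab (by linarith [mul_pow (a i) b 2])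
      constructor
      · -- `w b ≤ K₁`
        have h7 : w * b ≤ K * (a i * b) := by
          calc w * b ≤ K₁ * 1 := by linarith
            _ ≤ K₁ * ((1 + 1 / c₁) * (a i * b)) := mul_le_mul_of_nonneg_left h5 hK₁0.le
            _ = (K₁ * (1 + 1 / c₁)) * (a i * b) := by ring
            _ ≤ K * (a i * b) := by
              refine mul_le_mul_of_nonneg_right ?_ hab.le
              rw [hK]
              refine mul_le_mul_of_nonneg_left ?_ hK₁0.le
              linarith
        have h8 : w * b ≤ (K * a i) * b := by linarith [mul_assoc K (a i) b]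
        exact le_of_mul_le_mul_right h8 hb0
      · have h7 : a i * b ≤ K * w * b := by
          calc a i * b ≤ 1 + |c₂| := h6
            _ = (1 + |c₂|) * 1 := (mul_one _).symm
            _ ≤ (1 + |c₂|) * (K₁ * (w * b)) := mul_le_mul_of_nonneg_left h1 (by linarith)
            _ = K₁ * (1 + |c₂|) * (w * b) := by ring
            _ ≤ K * (w * b) := by
              refine mul_le_mul_of_nonneg_right ?_ (mul_pos hw0 hb0).le
              rw [hK]
              refine mul_le_mul_of_nonneg_left ?_ hK₁0.le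
              linarith
            _ = K * w * b := by ring
        exact le_of_mul_le_mul_right h7 hb0

end Pool.Agent.Helper54.HQ
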