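import Pool.Agent.Helper54.HQ.StS

/-!
# HQ, module Sp: basic facts on `mkP`
-/

set_option autoImplicit false

namespace Pool.Agent.Helper54.HQ

open Polynomial Finset

theorem hSp : StSp := by
  refine ⟨?_, ?_, ?_⟩
  · intro R _ _ N c
    have hdeg : (∑ i : Fin N, C (c i) * X ^ (i : ℕ) : R[X]).degree < N := degree_sum_fin_lt c
    have hm : (mkP c).Monic := monic_X_pow_add hdeg
    refine ⟨hm, ?_, ?_⟩
    · unfold mkP
      rw [natDegree_eq_of_degree_eq (q := (X : R[X]) ^ N), natDegree_X_pow]
      rw [degree_add_eq_left_of_degree_lt]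
      rw [degree_X_pow]
      exact hdeg
    · intro i
      unfold mkP
      rw [coeff_add, coeff_X_pow, if_neg (by have := i.2; omega), zero_add, finsetSum_coeff]
      rw [Finset.sum_eq_single i]
      · rw [coeff_C_mul_X_pow, if_pos rfl]
      · intro j _ hj
        rw [coeff_C_mul_X_pow, if_neg]
        intro h
        exact hj (Fin.ext h.symm)
      · intro h
        exact absurd (Finset.mem_univ i) h
  · intro R _ _ N f hf hN
    unfold mkP
    conv_lhs => rw [hf.as_sum, hN]
    rw [Finset.sum_range]
  · intro R S _ _ φ N c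
    unfold mkP
    rw [Polynomial.map_add, Polynomial.map_pow, map_X, Polynomial.map_sum]
    congr 1
    refine Finset.sum_congr rfl fun i _ => ?_
    rw [Polynomial.map_mul, map_C, Polynomial.map_pow, map_X]

end Pool.Agent.Helper54.HQ
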