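import Pool.Agent.Helper54.HQ.StU
import Pool.Agent.Helper3.HY.M_Uf
import Pool.Agent.Helper3.HY.M_Uh

/-!
# HQ, module Uf: the number of pairs in the box
-/

set_option autoImplicit false

namespace Pool.Agent.Helper54.HQ

open Polynomial Finset Filter Topology Matrix IsDedekindDomain
open Pool.Agent.Helper3.HY (co tau Ix nu TType IType rho2 exc Adm Gm)
open Pool.Agent.Helper3
open Pool.Agent.Helper3.HY.MUh (Up up up_inj card_Up)

/-- The number of integral points of a box. -/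
lemma box_Uf {ι : Type} [Fintype ι] (X : ι → ℝ) (hX : ∀ i, 0 ≤ X i) :
    {x : ι → ℤ | ∀ i, |((x i : ℤ) : ℝ)| ≤ X i}.Finite ∧
      ({x : ι → ℤ | ∀ i, |((x i : ℤ) : ℝ)| ≤ X i}.ncard : ℝ) ≤ ∏ i, (2 * X i + 1) := by
  classical
  have h1 : {x : ι → ℤ | ∀ i, |((x i : ℤ) : ℝ)| ≤ X i} =
      ((Fintype.piFinset fun i => Finset.Icc (-⌊X i⌋) ⌊X i⌋ : Finset (ι → ℤ)) : Set (ι → ℤ)) := by
    ext x
    simp only [Set.mem_ofPred_eq, Finset.mem_coe, Fintype.mem_piFinset, Finset.mem_Icc]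
    refine forall_congr' fun i => ?_
    rw [abs_le, Int.le_floor]
    constructor
    · rintro ⟨h1, h2⟩
      refine ⟨?_, h2⟩
      have : -x i ≤ ⌊X i⌋ := by
        rw [Int.le_floor]
        push_cast
        linarith
      linarith
    · rintro ⟨h1, h2⟩
      refine ⟨?_, h2⟩
      have h3 : ((-x i : ℤ) : ℝ) ≤ X i := by
        rw [← Int.le_floor]
        linarith
      push_cast at h3
      linarith
  rw [h1]
  refine ⟨Finset.finite_toSet _, ?_⟩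
  rw [Set.ncard_coe_finset, Fintype.card_piFinset, Nat.cast_prod]
  refine Finset.prod_le_prod (fun i _ => Nat.cast_nonneg _) fun i _ => ?_
  rw [Int.card_Icc]
  have h0 : 0 ≤ ⌊X i⌋ := Int.floor_nonneg.2 (hX i)
  have h2 : (((⌊X i⌋ + 1 - -⌊X i⌋).toNat : ℕ) : ℝ) = 2 * (⌊X i⌋ : ℝ) + 1 := by
    have h3 : (((⌊X i⌋ + 1 - -⌊X i⌋).toNat : ℕ) : ℤ) = 2 * ⌊X i⌋ + 1 := by
      rw [Int.toNat_of_nonneg (by linarith)]
      ring
    exact_mod_cast h3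
  rw [h2]
  have := Int.floor_le (X i)
  linarith

/-- The number of symmetric integral matrices in a box. -/
lemma symbox_Uf {g : ℕ} (X : Up g → ℝ) (hX : ∀ i, 0 ≤ X i) :
    {b : Matrix (Ix g) (Ix g) ℤ | b.IsSymm ∧ ∀ p : Up g, |((b p.1.1 p.1.2 : ℤ) : ℝ)| ≤ X p}.Finite ∧
      ({b : Matrix (Ix g) (Ix g) ℤ | b.IsSymm ∧
        ∀ p : Up g, |((b p.1.1 p.1.2 : ℤ) : ℝ)| ≤ X p}.ncard : ℝ) ≤ ∏ i, (2 * X i + 1) := by
  set S := {b : Matrix (Ix g) (Ix g) ℤ | b.IsSymm ∧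
    ∀ p : Up g, |((b p.1.1 p.1.2 : ℤ) : ℝ)| ≤ X p} with hS
  obtain ⟨h1, h2⟩ := box_Uf X hX
  have hinj : Set.InjOn (up (B := ℤ) (g := g)) S := fun b hb c hc h => up_inj hb.1 hc.1 h
  have hsub : up (B := ℤ) (g := g) '' S ⊆ {x : Up g → ℤ | ∀ i, |((x i : ℤ) : ℝ)| ≤ X i} := by
    rintro _ ⟨b, hb, rfl⟩
    exact hb.2
  refine ⟨Set.Finite.of_finite_image (h1.subset hsub) hinj, ?_⟩
  rw [← hinj.ncard_image]
  refine le_trans ?_ h2
  exact_mod_cast Set.ncard_le_ncard hsub h1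

/-- A product over the upper triangle. -/
lemma prod_Uf {g : ℕ} (C : ℝ) (hC : 0 ≤ C) (X : Up g → ℝ) (e : Up g → ℤ) (hX : ∀ i, 0 ≤ X i)
    (h : ∀ i, X i ≤ C * (2 : ℝ) ^ (e i)) :
    ∏ i, (2 * X i + 1) ≤ (2 * C + 1) ^ ((g + 1) * (2 * g + 1)) * 2 ^ (∑ i, (e i).toNat) := by
  have h1 : ∀ i, 2 * X i + 1 ≤ (2 * C + 1) * 2 ^ (e i).toNat := by
    intro i
    have h2 : (2 : ℝ) ^ (e i) ≤ 2 ^ (e i).toNat := by
      rw [← zpow_natCast]
      exact zpow_le_zpow_right₀ (by norm_num) (Int.self_le_toNat _)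
    have h3 : (1 : ℝ) ≤ 2 ^ (e i).toNat := one_le_pow₀ (by norm_num)
    have h4 := h i
    have h5 : C * (2 : ℝ) ^ (e i) ≤ C * 2 ^ (e i).toNat := mul_le_mul_of_nonneg_left h2 hC
    linarith
  calc ∏ i, (2 * X i + 1) ≤ ∏ i, ((2 * C + 1) * 2 ^ (e i).toNat) :=
        Finset.prod_le_prod (fun i _ => by have := hX i; linarith) fun i _ => h1 i
    _ = _ := by
        rw [Finset.prod_mul_distrib, Finset.prod_const, Finset.card_univ, card_Up,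
          Finset.prod_pow_eq_pow_sum]

/-- A sum over the upper triangle. -/
lemma sum_Uf {g : ℕ} (e : Ix g × Ix g → ℕ) :
    (∑ i : Up g, e i.1) = ∑ p : Ix g × Ix g, if p.1 ≤ p.2 then e p else 0 := by
  rw [← sum_filter]
  exact (sum_subtype (univ.filter fun p : Ix g × Ix g => p.1 ≤ p.2) (by simp)
    (fun p : Ix g × Ix g => e p)).symm

/-- The number of pairs of symmetric integral matrices in a box. -/
lemma pair_Uf {g : ℕ} (C : ℝ) (hC : 0 ≤ C) (X Y : Up g → ℝ) (e f : Up g → ℤ)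
    (hX : ∀ i, 0 ≤ X i) (hY : ∀ i, 0 ≤ Y i)
    (hXe : ∀ i, X i ≤ C * (2 : ℝ) ^ (e i)) (hYf : ∀ i, Y i ≤ C * (2 : ℝ) ^ (f i))
    (S : Set (Pr g)) (hS : ∀ p ∈ S, (p.1.IsSymm ∧ ∀ q : Up g, |((p.1 q.1.1 q.1.2 : ℤ) : ℝ)| ≤ X q) ∧
      (p.2.IsSymm ∧ ∀ q : Up g, |((p.2 q.1.1 q.1.2 : ℤ) : ℝ)| ≤ Y q)) :
    S.Finite ∧ (S.ncard : ℝ) ≤ (2 * C + 1) ^ (2 * ((g + 1) * (2 * g + 1))) *
      2 ^ ((∑ i, (e i).toNat) + ∑ i, (f i).toNat) := by
  obtain ⟨h1, h2⟩ := symbox_Uf X hX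
  obtain ⟨h3, h4⟩ := symbox_Uf Y hY
  set A := {b : Matrix (Ix g) (Ix g) ℤ | b.IsSymm ∧
    ∀ p : Up g, |((b p.1.1 p.1.2 : ℤ) : ℝ)| ≤ X p} with hA
  set B := {b : Matrix (Ix g) (Ix g) ℤ | b.IsSymm ∧
    ∀ p : Up g, |((b p.1.1 p.1.2 : ℤ) : ℝ)| ≤ Y p} with hB
  have hsub : S ⊆ A ×ˢ B := fun p hp => ⟨(hS p hp).1, (hS p hp).2⟩
  have hfin : (A ×ˢ B).Finite := h1.prod h3
  refine ⟨hfin.subset hsub, ?_⟩
  have h5 : (S.ncard : ℝ) ≤ (A.ncard : ℝ) * B.ncard := by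
    have h6 := Set.ncard_le_ncard hsub hfin
    rw [Set.ncard_prod] at h6
    exact_mod_cast h6
  refine h5.trans ?_
  have h6 := h2.trans (prod_Uf C hC X e hX hXe)
  have h7 := h4.trans (prod_Uf C hC Y f hY hYf)
  calc (A.ncard : ℝ) * B.ncard ≤ ((2 * C + 1) ^ ((g + 1) * (2 * g + 1)) * 2 ^ (∑ i, (e i).toNat)) *
        ((2 * C + 1) ^ ((g + 1) * (2 * g + 1)) * 2 ^ (∑ i, (f i).toNat)) :=
        mul_le_mul h6 h7 (Nat.cast_nonneg _) (by positivity)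
    _ = _ := by
        rw [pow_add, two_mul ((g + 1) * (2 * g + 1)), pow_add]
        ring

theorem hUf : StUf := by
  intro g C H m hC hH
  set d := Nat.log 2 H with hd
  have hH2 : (H : ℝ) ≤ (2 : ℝ) ^ ((d : ℤ) + 1) := by
    have h1 : H < 2 ^ (Nat.log 2 H).succ := Nat.lt_pow_succ_log_self (by norm_num) H
    have h2 : (H : ℝ) ≤ (2 : ℝ) ^ (d + 1) := by
      have h3 : (H : ℝ) < ((2 ^ (d + 1) : ℕ) : ℝ) := by exact_mod_cast h1
      push_cast at h3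
      exact h3.le
    rw [← zpow_natCast] at h2
    push_cast at h2
    exact h2
  have hexc : (∑ i : Up g, ((d : ℤ) + 1 + nu g m i.1.1 + nu g m i.1.2).toNat) =
      (d + 1) * ((g + 1) * (2 * g + 1)) + exc g d m := by
    rw [sum_Uf fun p : Ix g × Ix g => ((d : ℤ) + 1 + nu g m p.1 + nu g m p.2).toNat]
    have h2 : ∀ p : Ix g × Ix g,
        (((if p.1 ≤ p.2 then ((d : ℤ) + 1 + nu g m p.1 + nu g m p.2).toNat else 0 : ℕ)) : ℤ) =
        ((d : ℤ) + 1) * ((if p.1 ≤ p.2 then (1 : ℕ) else 0 : ℕ) : ℤ) +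
          (if p.1 ≤ p.2 then nu g m p.1 + nu g m p.2 else 0) +
          ((if p.1 ≤ p.2 then (-(d + 1 : ℤ) - nu g m p.1 - nu g m p.2).toNat else 0 : ℕ) : ℤ) := by
      intro p
      by_cases h : p.1 ≤ p.2
      · simp only [if_pos h]
        push_cast
        omega
      · simp only [if_neg h]
        simp
    have h3 : ((∑ p : Ix g × Ix g, if p.1 ≤ p.2 then
        ((d : ℤ) + 1 + nu g m p.1 + nu g m p.2).toNat else 0 : ℕ) : ℤ) =
        (((d + 1) * ((g + 1) * (2 * g + 1)) + exc g d m : ℕ) : ℤ) := by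
      rw [Nat.cast_sum, sum_congr rfl fun p _ => h2 p, sum_add_distrib, sum_add_distrib,
        HY.Uf.sum_nu_pairs, add_zero, ← mul_sum, ← Nat.cast_sum, ← Nat.cast_sum, HY.Uf.card_pairs]
      unfold exc
      push_cast
      ring
    exact_mod_cast h3
  have hsB : (∑ i : Up g, (nu g m i.1.1 + nu g m i.1.2).toNat) = sB g m := by
    rw [sum_Uf fun p : Ix g × Ix g => (nu g m p.1 + nu g m p.2).toNat]
    rfl
  have key := pair_Uf (g := g) C hC (fun i => C * (2 : ℝ) ^ (nu g m i.1.1 + nu g m i.1.2))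
    (fun i => C * H * (2 : ℝ) ^ (nu g m i.1.1 + nu g m i.1.2))
    (fun i => nu g m i.1.1 + nu g m i.1.2) (fun i => (d : ℤ) + 1 + nu g m i.1.1 + nu g m i.1.2)
    (fun i => by positivity) (fun i => by positivity) (fun i => le_rfl)
    (fun i => by
      have h1 : (2 : ℝ) ^ ((d : ℤ) + 1 + nu g m i.1.1 + nu g m i.1.2) =
          (2 : ℝ) ^ ((d : ℤ) + 1) * (2 : ℝ) ^ (nu g m i.1.1 + nu g m i.1.2) := by
        rw [← zpow_add₀ (by norm_num)]
        congr 1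
        ring
      rw [h1, mul_assoc]
      refine mul_le_mul_of_nonneg_left ?_ hC
      exact mul_le_mul_of_nonneg_right hH2 (by positivity))
    {p : Pr g | InBox g C H m p}
    (fun p hp => ⟨⟨hp.symB, fun q => hp.bB _ _⟩, ⟨hp.symA, fun q => hp.bA _ _⟩⟩)
  refine ⟨key.1, key.2.trans (le_of_eq ?_)⟩
  rw [hexc, hsB]
  congr 2
  ring

end Pool.Agent.Helper54.HQ
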