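import Pool.Agent.Helper54.HQ.StU
import Pool.Agent.Helper54.HQ.Base

/-!
# HQ, module Ueq: equidistribution in boxes
-/

set_option autoImplicit false

namespace Pool.Agent.Helper54.HQ

open Polynomial Finset Filter Topology Matrix IsDedekindDomain
open Pool.Agent.Helper3.HY (co tau Ix nu TType IType rho2 exc Adm Gm)
open Pool.Agent.Helper3

/-- The number of integers in an interval which lie in a residue class. -/
lemma class_Ueq (M : ℕ) (hM : 0 < M) (X : ℝ) (r : ℤ) :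
    ∃ s : Finset ℤ, (∀ x : ℤ, |(x : ℝ)| ≤ X → (M : ℤ) ∣ x - r → x ∈ s) ∧
      (0 ≤ X → (s.card : ℝ) ≤ 2 * X / M + 1) := by
  classical
  have hM' : (0 : ℝ) < M := by exact_mod_cast hM
  refine ⟨(Finset.Icc ⌈(-X - r) / M⌉ ⌊(X - r) / M⌋).image fun k => r + M * k, ?_, ?_⟩
  · intro x hx hd
    obtain ⟨k, hk⟩ := hd
    rw [Finset.mem_image]
    refine ⟨k, ?_, by linarith⟩
    have h1 : (x : ℝ) - r = M * k := by exact_mod_cast hk
    rw [abs_le] at hx
    rw [Finset.mem_Icc, Int.ceil_le, Int.le_floor, div_le_iff₀ hM', le_div_iff₀ hM']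
    constructor <;> nlinarith [hx.1, hx.2]
  · intro hX
    refine (Nat.cast_le.2 Finset.card_image_le).trans ?_
    rw [Int.card_Icc]
    by_cases h : 0 ≤ ⌊(X - r) / M⌋ + 1 - ⌈(-X - r) / M⌉
    · have h1 : (((⌊(X - r) / M⌋ + 1 - ⌈(-X - r) / M⌉).toNat : ℕ) : ℝ) =
          (⌊(X - r) / M⌋ : ℝ) + 1 - (⌈(-X - r) / M⌉ : ℝ) := by
        have h2 : (((⌊(X - r) / M⌋ + 1 - ⌈(-X - r) / M⌉).toNat : ℕ) : ℤ) =
          ⌊(X - r) / M⌋ + 1 - ⌈(-X - r) / M⌉ := Int.toNat_of_nonneg h
        exact_mod_cast h2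
      rw [h1]
      have h3 := Int.floor_le ((X - r) / M)
      have h4 := Int.le_ceil ((-X - r) / M)
      have h5 : (X - r) / M - (-X - r) / M = 2 * X / M := by ring
      linarith
    · rw [Int.toNat_of_nonpos (by linarith)]
      have : (0 : ℝ) ≤ 2 * X / M := by positivity
      push_cast
      linarith

lemma red_Ueq (T : Finset Prm) (x y : ℤ) (h : ∀ P ∈ T, red P x = red P y) :
    ((∏ P ∈ T, (P : ℕ) : ℕ) : ℤ) ∣ x - y := by
  push_cast
  refine Finset.prod_dvd_of_coprime (s := fun P : Prm => pz P) (t := T) ?_ ?_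
  · intro P _ Q _ hPQ
    have h1 : (P : ℕ) ≠ (Q : ℕ) := fun h => hPQ (Subtype.ext h)
    change IsCoprime (((P : ℕ) : ℤ)) (((Q : ℕ) : ℤ))
    rw [Nat.isCoprime_iff_coprime]
    exact (Nat.coprime_primes P.2 Q.2).2 h1
  · intro P hP
    rw [← red_eq_zero, map_sub, h P hP, sub_self]

theorem hUeq : StUeq := by
  intro ι _ T X A hX
  classical
  set M : ℕ := ∏ P ∈ T, (P : ℕ) with hM
  have hM0 : 0 < M := Finset.prod_pos fun P _ => P.2.pos
  have hMr : (∏ P ∈ T, ((P : ℕ) : ℝ)) = (M : ℝ) := by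
    rw [hM]
    push_cast
    rfl
  rw [hMr]
  set S : Set (ι → ℤ) := {x : ι → ℤ | (∀ i, |((x i : ℤ) : ℝ)| ≤ X i) ∧
    ∀ P ∈ T, (fun i => red P (x i)) ∈ A P} with hS
  have hfin : S.Finite := by
    refine (Set.Finite.pi' (t := fun i => {x : ℤ | |(x : ℝ)| ≤ X i}) fun i => ?_).subset
      fun x hx i => hx.1 i
    refine (Set.finite_Icc (-⌈X i⌉) ⌈X i⌉).subset fun x hx => ?_
    have hx' : |(x : ℝ)| ≤ X i := hx
    rw [abs_le] at hx'
    have h1 := Int.le_ceil (X i)
    constructor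
    · have h2 : ((-⌈X i⌉ : ℤ) : ℝ) ≤ x := by push_cast; linarith [hx'.1]
      exact_mod_cast h2
    · have h2 : (x : ℝ) ≤ ((⌈X i⌉ : ℤ) : ℝ) := by linarith [hx'.2]
      exact_mod_cast h2
  refine ⟨hfin, ?_⟩
  set s := hfin.toFinset with hs
  have hmem : ∀ x, x ∈ s ↔ x ∈ S := fun x => hfin.mem_toFinset
  have hAf : ∀ P : Prm, (A P).Finite := fun P => Set.toFinite _
  set t : Finset (∀ P : T, ι → kp P.1) := Fintype.piFinset fun P : T => (hAf P.1).toFinset with ht
  set φ : (ι → ℤ) → (∀ P : T, ι → kp P.1) := fun x P i => red P.1 (x i) with hφ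
  have hmaps : ∀ x ∈ s, φ x ∈ t := by
    intro x hx
    rw [ht, Fintype.mem_piFinset]
    intro P
    rw [Set.Finite.mem_toFinset]
    exact ((hmem x).1 hx).2 P.1 P.2
  have hcardt : (t.card : ℝ) = ∏ P ∈ T, ((A P).ncard : ℝ) := by
    rw [ht, Fintype.card_piFinset]
    push_cast
    rw [← Finset.prod_coe_sort T fun P => ((A P).ncard : ℝ)]
    refine Finset.prod_congr rfl fun P _ => ?_
    rw [Set.ncard_eq_toFinset_card _ (hAf P.1)]
  have hfib : ∀ b ∈ t, ((s.filter fun x => φ x = b).card : ℝ) ≤ ∏ i, (2 * X i / M + 1) := by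
    intro b _
    have hpos : (0 : ℝ) ≤ ∏ i, (2 * X i / M + 1) := Finset.prod_nonneg fun i _ => by
      have := hX i
      positivity
    rcases (s.filter fun x => φ x = b).eq_empty_or_nonempty with h0 | ⟨y, hy⟩
    · rw [h0]
      simpa using hpos
    · rw [Finset.mem_filter] at hy
      choose u hu1 hu2 using fun i => class_Ueq M hM0 (X i) (y i)
      have hsub : (s.filter fun x => φ x = b) ⊆ Fintype.piFinset u := by
        intro x hx
        rw [Finset.mem_filter] at hx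
        rw [Fintype.mem_piFinset]
        intro i
        refine hu1 i (x i) (((hmem x).1 hx.1).1 i) ?_
        refine red_Ueq T _ _ fun P hP => ?_
        have h1 : φ x ⟨P, hP⟩ i = φ y ⟨P, hP⟩ i := by rw [hx.2, hy.2]
        exact h1
      have h2 := Finset.card_le_card hsub
      rw [Fintype.card_piFinset] at h2
      have h3 : ((s.filter fun x => φ x = b).card : ℝ) ≤ ∏ i, ((u i).card : ℝ) := by
        exact_mod_cast h2
      exact h3.trans (Finset.prod_le_prod (fun i _ => Nat.cast_nonneg _) fun i _ => hu2 i (hX i))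
  have h1 : (S.ncard : ℝ) = ∑ b ∈ t, ((s.filter fun x => φ x = b).card : ℝ) := by
    rw [Set.ncard_eq_toFinset_card _ hfin, ← Nat.cast_sum]
    exact_mod_cast Finset.card_eq_sum_card_fiberwise (f := φ) (s := s) (t := t)
      (fun x hx => hmaps x hx)
  rw [h1, ← hcardt]
  calc ∑ b ∈ t, ((s.filter fun x => φ x = b).card : ℝ) ≤ ∑ _b ∈ t, ∏ i, (2 * X i / M + 1) :=
        Finset.sum_le_sum hfib
    _ = _ := by rw [Finset.sum_const, nsmul_eq_mul, mul_comm]

end Pool.Agent.Helper54.HQ
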