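import Pool.Agent.Helper54.HQ.StU
import Pool.Agent.Helper3.HY.M_Ug1
import Pool.Agent.Helper3.HY.M_Ug2
import Pool.Agent.Helper3.HY.M_Ug

/-!
# HQ, module Uw: the number of tuples with a given Gram matrix
-/

set_option autoImplicit false

namespace Pool.Agent.Helper54.HQ

open Polynomial Finset Filter Topology Matrix IsDedekindDomain
open Pool.Agent.Helper3.HY (co tau Ix nu TType IType rho2 exc Adm Gm)
open Pool.Agent.Helper3

private theorem gm_comm_Uw (k : Type) [Field k] (g : ℕ) (i j : Ix g) :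
    Gm k g i j = Gm k g j i := by
  unfold Gm
  have : j = Fin.rev i ↔ i = Fin.rev j := by
    constructor <;> rintro rfl <;> rw [Fin.rev_rev]
  simp only [this]

private theorem gm_sq_Uw (k : Type) [Field k] (g : ℕ) : Gm k g * Gm k g = 1 := by
  ext i j
  rw [Matrix.mul_apply]
  unfold Gm
  simp only [ite_mul, one_mul, zero_mul, Finset.sum_ite_eq', Finset.mem_univ, if_true,
    Fin.rev_rev, Matrix.one_apply]
  exact if_congr eq_comm rfl rfl

/-- standard bases up to a factor -/
private theorem std_Uw (k : Type) [Field k] [Fintype k] (h2 : (2 : k) ≠ 0) (g : ℕ) :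
    ∀ (W : Type) [AddCommGroup W] [Module k W] [FiniteDimensional k W]
      (b : LinearMap.BilinForm k W), (∀ x y, b x y = b y x) →
      (∀ x, (∀ y, b x y = 0) → x = 0) → Module.finrank k W = 2 * g + 1 →
      ∃ (δ : k) (w : Ix g → W), δ ≠ 0 ∧ ∀ i j, δ * b (w i) (w j) = Gm k g i j := by
  induction g with
  | zero =>
    intro W _ _ _ b hs hnd hf
    obtain ⟨w, hw0, hw⟩ := finrank_eq_one_iff'.1 (by simpa using hf)
    have hww : b w w ≠ 0 := by
      intro h
      refine hw0 (hnd w fun y => ?_)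
      obtain ⟨c, rfl⟩ := hw y
      rw [map_smul, h, smul_zero]
    refine ⟨(b w w)⁻¹, fun _ => w, inv_ne_zero hww, fun i j => ?_⟩
    rw [inv_mul_cancel₀ hww]
    unfold Gm
    rw [if_pos]
    exact Subsingleton.elim (α := Fin 1) _ _
  | succ g ih =>
    intro W _ _ _ b hs hnd hf
    obtain ⟨u, v, huu, hvv, huv⟩ := HY.hUg1 k h2 W b hs hnd (by omega)
    obtain ⟨W', hW', hf', hnd'⟩ := HY.M_Ug.compl b hs hnd (2 * g + 1) (by omega) u v huu hvv huv
    obtain ⟨δ, w, hδ, hw⟩ := ih W' (b.restrict W') (fun x y => hs x y) hnd' hf'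
    have hw' : ∀ i j, δ * b (w i : W) (w j : W) = Gm k g i j := fun i j => hw i j
    set f : Ix (g + 1) → W := fun i => if i.1 = 0 then u else if h : i.1 - 1 < 2 * g + 1 then
      (w ⟨i.1 - 1, h⟩ : W) else δ⁻¹ • v with hfdef
    have f0 : f (HY.M_Ug.fst g) = u := by
      rw [hfdef]
      exact if_pos rfl
    have f1 : f (HY.M_Ug.lst g) = δ⁻¹ • v := by
      rw [hfdef]
      have e0 : ¬ ((HY.M_Ug.lst g).1 = 0) := by
        show ¬ (2 * g + 2 = 0)
        omega
      have e1 : ¬ ((HY.M_Ug.lst g).1 - 1 < 2 * g + 1) := by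
        show ¬ (2 * g + 2 - 1 < 2 * g + 1)
        omega
      simp only [if_neg e0, dif_neg e1]
    have f2 : ∀ i, f (HY.M_Ug.mid g i) = w i := by
      intro i
      rw [hfdef]
      have e0 : ¬ ((HY.M_Ug.mid g i).1 = 0) := by
        show ¬ (i.1 + 1 = 0)
        omega
      have e1 : (HY.M_Ug.mid g i).1 - 1 < 2 * g + 1 := by
        show i.1 + 1 - 1 < 2 * g + 1
        have := i.2
        omega
      simp only [if_neg e0, dif_pos e1]
      rfl
    have hu' : ∀ i, b u (w i : W) = 0 := fun i => ((hW' _).1 (w i).2).1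
    have hv' : ∀ i, b v (w i : W) = 0 := fun i => ((hW' _).1 (w i).2).2
    have hδ1 : δ * δ⁻¹ = 1 := mul_inv_cancel₀ hδ
    refine ⟨δ, f, hδ, fun i j => ?_⟩
    rcases HY.M_Ug.cases g i with rfl | rfl | ⟨i, rfl⟩
    · rcases HY.M_Ug.cases g j with rfl | rfl | ⟨j, rfl⟩
      · rw [f0, huu, mul_zero, HY.M_Ug.gm_ff]
      · rw [f0, f1, map_smul, smul_eq_mul, huv, mul_one, hδ1, HY.M_Ug.gm_fl]
      · rw [f0, f2, hu', mul_zero, HY.M_Ug.gm_fm]
    · rcases HY.M_Ug.cases g j with rfl | rfl | ⟨j, rfl⟩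
      · rw [f0, f1, hs, map_smul, smul_eq_mul, huv, mul_one, hδ1, gm_comm_Uw, HY.M_Ug.gm_fl]
      · rw [f1, map_smul, map_smul, LinearMap.smul_apply, hvv, smul_zero, smul_zero, mul_zero,
          HY.M_Ug.gm_ll]
      · rw [f1, f2, map_smul, LinearMap.smul_apply, hv', smul_zero, mul_zero, HY.M_Ug.gm_lm]
    · rcases HY.M_Ug.cases g j with rfl | rfl | ⟨j, rfl⟩
      · rw [f0, f2, hs, hu', mul_zero, gm_comm_Uw, HY.M_Ug.gm_fm]
      · rw [f1, f2, hs, map_smul, LinearMap.smul_apply, hv', smul_zero, mul_zero, gm_comm_Uw,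
          HY.M_Ug.gm_lm]
      · rw [f2, f2, hw', HY.M_Ug.gm_mid]

theorem hUw : StUw := by
  intro k _ _ h2 g W _ _ _ b hs hnd hf B hB
  have hfinW : Finite W := Module.finite_of_finite k
  rcases Set.eq_empty_or_nonempty {w : Ix g → W | ∀ i j, b (w i) (w j) = B i j} with
    h | ⟨w₀, hw₀⟩
  · rw [h, Set.ncard_empty]
    exact Nat.zero_le _
  have hsymm : ∀ i j, B i j = B j i := by
    intro i j
    rw [← hw₀ i j, ← hw₀ j i, hs]
  -- the standard form of `B`
  have hbs : ∀ x y, Matrix.toBilin' B x y = Matrix.toBilin' B y x := by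
    intro x y
    rw [Matrix.toBilin'_apply, Matrix.toBilin'_apply, Finset.sum_comm]
    refine Finset.sum_congr rfl fun i _ => Finset.sum_congr rfl fun j _ => ?_
    rw [hsymm j i]
    ring
  have hbn : ∀ x, (∀ y, Matrix.toBilin' B x y = 0) → x = 0 := by
    intro x hx
    refine Matrix.eq_zero_of_vecMul_eq_zero hB ?_
    funext j
    have h1 := hx (Pi.single j 1)
    rw [Matrix.toBilin'_apply', Matrix.dotProduct_mulVec, dotProduct_single, mul_one] at h1
    exact h1
  obtain ⟨δ, s, hδ, hsG⟩ := std_Uw k h2 g (Ix g → k) (Matrix.toBilin' B) hbs hbn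
    (by rw [Module.finrank_fin_fun])
  -- matrices
  set S : Matrix (Ix g) (Ix g) k := Matrix.of fun i j => s j i with hS
  have hSij : ∀ i j, S i j = s j i := fun i j => rfl
  have hG : ∀ j m, δ * ∑ i, ∑ l, S i j * B i l * S l m = Gm k g j m := by
    intro j m
    rw [← hsG j m, Matrix.toBilin'_apply]
    rfl
  have hSBS : δ • (Sᵀ * B * S) = Gm k g := by
    ext j m
    rw [Matrix.smul_apply, smul_eq_mul, ← hG j m, Matrix.mul_apply, Finset.sum_comm]
    congr 1
    refine Finset.sum_congr rfl fun l _ => ?_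
    rw [Matrix.mul_apply, Finset.sum_mul]
    rfl
  have hLS : (δ • (Gm k g * (Sᵀ * B))) * S = 1 := by
    rw [Matrix.smul_mul, Matrix.mul_assoc, ← Matrix.mul_smul, hSBS, gm_sq_Uw]
  have hSL : S * (δ • (Gm k g * (Sᵀ * B))) = 1 := mul_eq_one_comm.1 hLS
  set L : Matrix (Ix g) (Ix g) k := δ • (Gm k g * (Sᵀ * B)) with hL
  have hcount := HY.hUg (HY.hUg2 HY.hUg1) k h2 g W (δ • b) (fun x y => by
      rw [LinearMap.smul_apply, LinearMap.smul_apply, LinearMap.smul_apply,
        LinearMap.smul_apply, hs]) (fun x hx => hnd x fun y => by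
      have h1 := hx y
      rw [LinearMap.smul_apply, LinearMap.smul_apply, smul_eq_mul] at h1
      exact (mul_eq_zero.1 h1).resolve_left hδ) hf
  refine le_trans ?_ hcount
  refine Set.ncard_le_ncard_of_injOn (fun w j => ∑ i, S i j • w i) ?_ ?_ (Set.toFinite _)
  · intro w hw
    show ∀ j m, (δ • b) (∑ i, S i j • w i) (∑ l, S l m • w l) = Gm k g j m
    intro j m
    rw [LinearMap.smul_apply, LinearMap.smul_apply, smul_eq_mul, ← hG j m]
    congr 1
    have e1 : ∀ l, b (∑ i, S i j • w i) (S l m • w l) = ∑ i, S i j * B i l * S l m := by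
      intro l
      rw [map_smul, hs, map_sum, smul_eq_mul, Finset.mul_sum]
      refine Finset.sum_congr rfl fun i _ => ?_
      rw [map_smul, smul_eq_mul, hs, hw i l]
      ring
    have e2 : b (∑ i, S i j • w i) (∑ l, S l m • w l) =
        ∑ l, b (∑ i, S i j • w i) (S l m • w l) := map_sum _ _ _
    rw [e2, Finset.sum_comm]
    exact Finset.sum_congr rfl fun l _ => e1 l
  · intro w _ w' _ h
    have key : ∀ (w : Ix g → W) l, ∑ j, L j l • ∑ i, S i j • w i = w l := by
      intro w l
      have h1 : ∀ i, ∑ j, S i j * L j l = if i = l then 1 else 0 := by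
        intro i
        rw [← Matrix.mul_apply, hSL, Matrix.one_apply]
      calc ∑ j, L j l • ∑ i, S i j • w i = ∑ j, ∑ i, (S i j * L j l) • w i := by
            refine Finset.sum_congr rfl fun j _ => ?_
            rw [Finset.smul_sum]
            refine Finset.sum_congr rfl fun i _ => ?_
            rw [smul_smul, mul_comm]
        _ = ∑ i, (∑ j, S i j * L j l) • w i := by
            rw [Finset.sum_comm]
            refine Finset.sum_congr rfl fun i _ => ?_
            rw [Finset.sum_smul]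
        _ = w l := by
            simp only [h1, ite_smul, one_smul, zero_smul, Finset.sum_ite_eq', Finset.mem_univ,
              if_true]
    funext l
    rw [← key w l, ← key w' l]
    refine Finset.sum_congr rfl fun j _ => ?_
    have h1 : ∑ i, S i j • w i = ∑ i, S i j • w' i := congrFun h j
    rw [h1]

end Pool.Agent.Helper54.HQ
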