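import Pool.Agent.Helper54.HQ.StR

/-!
# HQ, module Mc: the size of the complex roots
-/

set_option autoImplicit false

namespace Pool.Agent.Helper54.HQ

open Polynomial Finset Filter Topology Matrix IsDedekindDomain
open Pool.Agent.Helper3.HY (co tau Ix nu TType IType rho2 exc Adm Gm)
open Pool.Agent.Helper3

lemma aux_Mc (H x : ℝ) (hH : 0 ≤ H) (hx : 2 * H < x) (N : ℕ) :
    ∑ i ∈ range N, H ^ (N - i) * x ^ i < x ^ N := by
  have hx0 : 0 < x := by linarith
  induction N with
  | zero => simp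
  | succ N ih =>
    rw [sum_range_succ]
    have e : ∑ i ∈ range N, H ^ (N + 1 - i) * x ^ i = H * ∑ i ∈ range N, H ^ (N - i) * x ^ i := by
      rw [mul_sum]
      refine sum_congr rfl fun i hi => ?_
      rw [mem_range] at hi
      have : N + 1 - i = (N - i) + 1 := by omega
      rw [this, pow_succ]
      ring
    rw [e, Nat.add_sub_cancel_left, pow_one, pow_succ]
    have h1 := pow_pos hx0 N
    have h2 := mul_le_mul_of_nonneg_left ih.le hH
    nlinarith

theorem hMc : StMc := by
  intro N H f hf ρ hρ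
  obtain ⟨hm, hN, hc⟩ := hf
  have hH : (0 : ℝ) ≤ H := Nat.cast_nonneg H
  unfold rts at hρ
  rw [Multiset.mem_toFinset, mem_roots', IsRoot.def, eval_eq_sum_range, hm.natDegree_map, hN,
    sum_range_succ, coeff_map, ← hN, hm.coeff_natDegree, map_one, one_mul, hN] at hρ
  by_contra hne
  rw [not_le] at hne
  have h1 := aux_Mc (H : ℝ) ‖ρ‖ hH hne N
  have h2 : ρ ^ N = -∑ i ∈ range N, (f.map (Int.castRingHom ℂ)).coeff i * ρ ^ i :=
    eq_neg_of_add_eq_zero_right hρ.2
  have h3 : ‖ρ‖ ^ N ≤ ∑ i ∈ range N, (H : ℝ) ^ (N - i) * ‖ρ‖ ^ i := by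
    rw [← norm_pow, h2, norm_neg]
    refine (norm_sum_le _ _).trans (sum_le_sum fun i hi => ?_)
    rw [mem_range] at hi
    rw [norm_mul, norm_pow, coeff_map, eq_intCast, Complex.norm_intCast]
    refine mul_le_mul_of_nonneg_right ?_ (by positivity)
    have := hc i hi.le
    exact_mod_cast this
  linarith

end Pool.Agent.Helper54.HQ
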