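import Pool.Agent.Helper54.HQ.StR
import Pool.Agent.Helper54.HQ.Base

/-!
# HQ, module Md: the metric bounds the form
-/

set_option autoImplicit false

namespace Pool.Agent.Helper54.HQ

open Polynomial Finset Filter Topology Matrix IsDedekindDomain
open Pool.Agent.Helper3.HY (co tau Ix nu TType IType rho2 exc Adm Gm)
open Pool.Agent.Helper3

theorem hMd (h1 : StMa) (h2 : StMb) (h3 : StMc) : StMd := by
  intro N H hN f hf hm hsep z
  have hdeg : 1 ≤ f.natDegree := by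
    have := hf.2.1
    omega
  obtain ⟨ha1, ha2, ha3, ha4, ha5⟩ := h1 f hm hdeg
  obtain ⟨hb1, hb2, hb3⟩ := h2 f hm hdeg hsep
  constructor
  · intro x y
    have e1 : ((Bf hm z x y : ℚ) : ℂ) =
        ∑ ρ ∈ rts f, evc hm ρ z * evc hm ρ x * evc hm ρ y / aeval ρ (derivative f) := by
      rw [Bf_apply, hb3]
      refine Finset.sum_congr rfl fun ρ hρ => ?_
      rw [ha2 ρ hρ, ha2 ρ hρ]
    have e2 : |((Bf hm z x y : ℚ) : ℝ)| ≤
        ∑ ρ ∈ rts f, ‖evc hm ρ z‖ * ‖evc hm ρ x‖ * ‖evc hm ρ y‖ / ‖aeval ρ (derivative f)‖ := by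
      have e3 : |((Bf hm z x y : ℚ) : ℝ)| = ‖((Bf hm z x y : ℚ) : ℂ)‖ := by
        rw [← Complex.ofReal_ratCast, Complex.norm_real, Real.norm_eq_abs]
      rw [e3, e1]
      refine (norm_sum_le _ _).trans (le_of_eq (Finset.sum_congr rfl fun ρ _ => ?_))
      rw [norm_div, norm_mul, norm_mul]
    have e4 : (∑ ρ ∈ rts f,
        ‖evc hm ρ z‖ * ‖evc hm ρ x‖ * ‖evc hm ρ y‖ / ‖aeval ρ (derivative f)‖) ^ 2 ≤
        met hm z x * met hm z y := by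
      unfold met
      refine Finset.sum_sq_le_sum_mul_sum_of_sq_le_mul _ (fun ρ _ => by positivity)
        (fun ρ _ => by positivity) (fun ρ _ => le_of_eq ?_)
      ring
    calc ((Bf hm z x y : ℚ) : ℝ) ^ 2 = |((Bf hm z x y : ℚ) : ℝ)| ^ 2 := (sq_abs _).symm
      _ ≤ _ := pow_le_pow_left₀ (abs_nonneg _) e2 2
      _ ≤ _ := e4
  · intro x
    unfold met
    rw [Finset.mul_sum]
    refine Finset.sum_le_sum fun ρ hρ => ?_
    rw [ha2 ρ hρ, (ha3 ρ hρ).1, norm_mul]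
    have hr : ‖ρ‖ ^ 2 ≤ (2 * (H : ℝ)) ^ 2 := pow_le_pow_left₀ (norm_nonneg _) (h3 N H f hf ρ hρ) 2
    have hk : 0 ≤ ‖evc hm ρ z‖ * ‖evc hm ρ x‖ ^ 2 / ‖aeval ρ (derivative f)‖ := by positivity
    calc ‖evc hm ρ z‖ * (‖ρ‖ * ‖evc hm ρ x‖) ^ 2 / ‖aeval ρ (derivative f)‖
        = ‖ρ‖ ^ 2 * (‖evc hm ρ z‖ * ‖evc hm ρ x‖ ^ 2 / ‖aeval ρ (derivative f)‖) := by ring
      _ ≤ _ := mul_le_mul_of_nonneg_right hr hk

end Pool.Agent.Helper54.HQ
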