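import Pool.Agent.Helper54.HQ.Base
import Pool.Agent.Helper54.HL.St
import Pool.Agent.Helper92.TW.C7

/-!
# HQ module Hom: `om` and `ep` are homomorphisms
-/

set_option autoImplicit false

namespace Pool.Agent.Helper54.HQ

open Polynomial IsDedekindDomain
open Pool.Agent.Helper3.HY (co tau Ix nu TType IType baseChange descentGroup IsPointValue IsTwPoint
  twGroup co_mk sum_co ext_co co_eq_zero)
open Pool.Agent.Helper54.HL (tk IrrInt IrrBig Nr Rep RepA RepB pr pr_mk IsTwIrr LinePt RootLift)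

theorem isSquare_exp_Hom (n : ℤ) : IsSquare (WithZero.exp n) ↔ Even n := by
  constructor
  · rintro ⟨r, hr⟩
    have hr0 : r ≠ 0 := by
      rintro rfl
      rw [mul_zero] at hr
      exact WithZero.exp_ne_zero hr
    refine ⟨WithZero.log r, ?_⟩
    rw [← WithZero.exp_log hr0, ← WithZero.exp_add] at hr
    exact WithZero.exp_injective hr
  · rintro ⟨m, rfl⟩
    exact ⟨WithZero.exp m, WithZero.exp_add _ _⟩

theorem isSquare_mul_Hom {κ : Type} [Field κ] [Finite κ] {a b : κ} (ha : a ≠ 0) (hb : b ≠ 0) :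
    IsSquare (a * b) ↔ (IsSquare a ↔ IsSquare b) := by
  classical
  have _ := Fintype.ofFinite κ
  have hab : a * b ≠ 0 := mul_ne_zero ha hb
  rw [← quadraticChar_one_iff_isSquare hab, ← quadraticChar_one_iff_isSquare ha,
    ← quadraticChar_one_iff_isSquare hb, map_mul]
  rcases quadraticChar_dichotomy ha with h1 | h1 <;>
    rcases quadraticChar_dichotomy hb with h2 | h2 <;> rw [h1, h2] <;> norm_num

theorem zmod2_Hom {a b c : ZMod 2} (h : c = 0 ↔ (a = 0 ↔ b = 0)) : c = a + b := by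
  revert h
  revert a b c
  decide

theorem hHom (h1 : HL.StRA) (h2 : StCM) (h3 : StLD) (h4 : HL.StFA) (h5 : StQP) : StHom := by
  intro g hg f hf _ _ _ P hP2 hT q hq z w hz hw
  obtain ⟨i, ρ, hLD, hroot, -⟩ := h3 P
  obtain ⟨a, p, hpm, hpi, hpd, hfp⟩ := hT
  have hpa : p.eval a ≠ 0 := by
    intro h0
    have h6 := Polynomial.degree_eq_one_of_irreducible_of_root hpi h0
    have h7 : p.natDegree = 1 := Polynomial.natDegree_eq_of_degree_eq_some (by rw [h6]; rfl)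
    omega
  have hfρ : (f.map i).map ρ = (X - C a) * p := by rw [hLD.map_red, hfp]
  obtain ⟨θ, g₂, hg₂, -, hfac, hg₂ρ⟩ := h4 ℤ_[(P : ℕ)] (kp P) ρ hLD.surj hroot (f.map i) a p
    (hf.map i) hpm hpa hfρ
  have hirr : Irreducible (g₂.map ρ) := by rw [hg₂ρ]; exact hpi
  have hdvd : g₂ ∣ f.map i := ⟨X - C θ, by rw [hfac, mul_comm]⟩
  have hd : tk ℚ_[(P : ℕ)] g₂ ∣ (fK f).map (algebraMap ℚ ℚ_[(P : ℕ)]) := by
    rw [hLD.map f]
    exact Polynomial.map_dvd _ hdvd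
  obtain ⟨p₀, hp₀⟩ := Polynomial.map_surjective (red P) (red_surj P) (g₂.map ρ)
  have hp₀q : AdjoinRoot.mk f p₀ ∈ q.asIdeal :=
    h5 g hg f hf P a p hfp hpm hpi hpd q hq p₀ (hp₀.trans hg₂ρ)
  have hRA := h1 ℤ_[(P : ℕ)] ℚ_[(P : ℕ)] (kp P) (i (pz P)) ρ hLD.unif hLD.surj hLD.ker g₂ hg₂ hirr
  have _ : Fact (Irreducible (tk ℚ_[(P : ℕ)] g₂)) := ⟨hRA.irr⟩
  have _ : Fact (Irreducible (g₂.map ρ)) := ⟨hirr⟩
  have _ : Finite (AdjoinRoot (g₂.map ρ)) := by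
    have : Module.Finite (kp P) (AdjoinRoot (g₂.map ρ)) :=
      (AdjoinRoot.powerBasis hirr.ne_zero).finite
    exact Module.finite_of_finite (kp P)
  have key : ∀ (x : LL f) (e : ℤ) (s : AdjoinRoot (g₂.map ρ)),
      Rep (i (pz P)) ρ g₂ (pr hd (baseChange (algebraMap ℚ ℚ_[(P : ℕ)]) (fK f) x)) e s →
      (om q x = 0 ↔ Even e) ∧ (ep P q x = 0 ↔ IsSquare s) := by
    intro x e s hs
    obtain ⟨h6, h7⟩ := h2 f hf P ℤ_[(P : ℕ)] ℚ_[(P : ℕ)] i (algebraMap ℚ ℚ_[(P : ℕ)]) ρ hP2 hLD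
      g₂ hg₂ hirr hdvd hd p₀ hp₀ q hq.1 hp₀q x e s hs
    refine ⟨?_, h7⟩
    have h8 : EvenAt q x ↔ Even e := by
      unfold EvenAt
      rw [h6, isSquare_exp_Hom, even_neg]
    rw [← h8]
    unfold om
    split_ifs with h9 <;> simp [h9]
  have hex : ∀ x : LL f, x ≠ 0 → ∃ (e : ℤ) (s : AdjoinRoot (g₂.map ρ)),
      Rep (i (pz P)) ρ g₂ (pr hd (baseChange (algebraMap ℚ ℚ_[(P : ℕ)]) (fK f) x)) e s := by
    intro x hx
    refine hRA.ex _ ?_
    exact (_root_.map_ne_zero ((pr hd).comp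
      (baseChange (algebraMap ℚ ℚ_[(P : ℕ)]) (fK f)))).2 hx
  obtain ⟨e, s, hs⟩ := hex z hz
  obtain ⟨e', s', hs'⟩ := hex w hw
  have hm := hRA.mul _ _ _ _ _ _ hs hs'
  rw [← map_mul, ← map_mul] at hm
  obtain ⟨k1, k2⟩ := key _ _ _ hs
  obtain ⟨k3, k4⟩ := key _ _ _ hs'
  obtain ⟨k5, k6⟩ := key _ _ _ hm
  refine ⟨zmod2_Hom ?_, zmod2_Hom ?_⟩
  · rw [k5, k1, k3, Int.even_add]
  · rw [k6, k2, k4, isSquare_mul_Hom hs.1 hs'.1]

end Pool.Agent.Helper54.HQ
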