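import Pool.Agent.Helper54.HQ.Defs
import Pool.Agent.Helper54.HL.St

/-!
# HQ: the local part over `ℚ` (statements; ported from `Pool.Agent.Helper54.HL`)

Every statement of this file is the translation of the statement with the same name of
`Pool/Agent/Helper54/HL/St.lean` or `Pool/Agent/Helper3/HY/St.lean` (which are proved there over
`F[t]`): `F[t]` becomes `ℤ`, `F(t)` becomes `ℚ`, the completion at `v` becomes `ℚ_p`.
-/

set_option autoImplicit false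

namespace Pool.Agent.Helper54.HQ

open Polynomial IsDedekindDomain
open Pool.Agent.Helper3.HY (co tau Ix nu TType IType baseChange descentGroup IsPointValue IsTwPoint
  twGroup)
open Pool.Agent.Helper54.HL (tk IrrInt IrrBig Nr Rep RepA RepB pr pr_mk IsTwIrr LinePt RootLift)

/-- (LD) Local data at `P`: `O = ℤ_[P]`, `k = ℚ_[P]`, `ρ = PadicInt.toZMod`; the irreducible
polynomials by `HL.hLDI`, `HL.hLDP`, `HL.hLDR` (see `HL/M_LDA.lean`). -/
def StLD : Prop :=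
  ∀ P : Prm, ∃ (i : ℤ →+* ℤ_[(P : ℕ)]) (ρ : ℤ_[(P : ℕ)] →+* kp P),
    LD P i (algebraMap ℚ ℚ_[(P : ℕ)]) ρ ∧ RootLift ρ ∧
      ∀ U : ℚ_[(P : ℕ)][X], U.Monic → Irreducible U → IrrInt ρ U ∨ IrrBig (i (pz P)) U

/-- (DE) Density. -/
def StDE : Prop :=
  ∀ (f : ℤ[X]), f.Monic → ∀ [Fact (Irreducible (fK f))] (P : Prm)
    (O k : Type) [CommRing O] [IsDomain O] [IsDiscreteValuationRing O] [Field k] [Algebra O k]
    [IsFractionRing O k] (i : ℤ →+* O) (j : ℚ →+* k) (ρ : O →+* kp P), LD P i j ρ →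
    ∀ y y' : AdjoinRoot ((fK f).map j), y * y' = 1 → ∃ z : LL f, z ≠ 0 ∧
      Nr (i (pz P)) (baseChange j (fK f) z * y')

/-- (NO) -/
def StNO : Prop :=
  ∀ (f : ℤ[X]), f.Monic → ∀ (P : Prm)
    (O k : Type) [CommRing O] [IsDomain O] [IsDiscreteValuationRing O] [Field k] [Algebra O k]
    [IsFractionRing O k] (i : ℤ →+* O) (j : ℚ →+* k) (ρ : O →+* kp P), LD P i j ρ →
    ∀ z : LL f, NearOne P z ↔ Nr (i (pz P)) (baseChange j (fK f) z)

/-- (NV) -/
def StNV : Prop :=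
  ∀ (f : ℤ[X]), f.Monic →
    ∀ [Fact (Irreducible (fK f))] [IsDedekindDomain (RR f)] [IsFractionRing (RR f) (LL f)]
      (P : Prm) (q : HeightOneSpectrum (RR f)), Over P q → ∀ z : LL f, NearOne P z →
      q.valuation (LL f) (z - 1) < 1 ∧ q.valuation (LL f) z = 1

/-- (IN) -/
def StIN : Prop :=
  ∀ (f : ℤ[X]), f.Monic → ∀ [Fact (Irreducible (fK f))] (P : Prm)
    (O k : Type) [CommRing O] [IsDomain O] [IsDiscreteValuationRing O] [Field k] [Algebra O k]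
    [IsFractionRing O k] (i : ℤ →+* O) (j : ℚ →+* k) (ρ : O →+* kp P), LD P i j ρ →
    ∀ (D : k), D ≠ 0 → ∀ Cl : Subgroup (LL f)ˣ, (∀ z : (LL f)ˣ, NearOne P (z : LL f) → z ∈ Cl) →
    (∀ z : (LL f)ˣ, z ^ 2 ∈ Cl) →
    (∀ y y' : AdjoinRoot ((fK f).map j), y * y' = 1 → IsTwIrr ((fK f).map j) D y →
      ∃ z ∈ Cl, Nr (i (pz P)) (baseChange j (fK f) (z : LL f) * y')) →
    ∀ z : (LL f)ˣ, Units.map (baseChange j (fK f) : LL f →* _) z ∈ twGroup ((fK f).map j) D → z ∈ Cl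

/-- (OV) The order and the valuation. -/
def StOV : Prop :=
  ∀ (f : ℤ[X]), f.Monic →
    ∀ [Fact (Irreducible (fK f))] [IsDedekindDomain (RR f)] [IsFractionRing (RR f) (LL f)]
    (P : Prm) (O k : Type) [CommRing O] [IsDomain O] [IsDiscreteValuationRing O] [Field k]
    [Algebra O k] [IsFractionRing O k] (i : ℤ →+* O) (j : ℚ →+* k) (ρ : O →+* kp P),
    LD P i j ρ → ∀ (q : HeightOneSpectrum (RR f)), Over P q → ∀ p : ℤ[X],
    AdjoinRoot.mk f p ≠ 0 → (∀ q' : HeightOneSpectrum (RR f), Over P q' → q' ≠ q →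
      AdjoinRoot.mk f p ∉ q'.asIdeal) →
    ∃ m : ℕ, Ring.ord (AdjoinRoot (f.map i)) (AdjoinRoot.mk (f.map i) (p.map i)) = m ∧
      q.valuation (LL f) (algebraMap (RR f) (LL f) (AdjoinRoot.mk f p)) = WithZero.exp (-(m : ℤ))

/-- (UQ) -/
def StUQ : Prop :=
  ∀ (f : ℤ[X]), f.Monic →
    ∀ [Fact (Irreducible (fK f))] [IsDedekindDomain (RR f)] [IsFractionRing (RR f) (LL f)]
    (P : Prm) (q q' : HeightOneSpectrum (RR f)), Over P q → Over P q' → ∀ p p' : ℤ[X],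
    Irreducible (p.map (red P)) → p'.map (red P) = p.map (red P) → AdjoinRoot.mk f p ∈ q.asIdeal →
    AdjoinRoot.mk f p' ∈ q'.asIdeal → q = q'

/-- (CV) Comparison of the valuation and of `Rep`. -/
def StCV : Prop :=
  ∀ (f : ℤ[X]), f.Monic →
    ∀ [Fact (Irreducible (fK f))] [IsDedekindDomain (RR f)] [IsFractionRing (RR f) (LL f)]
    (P : Prm) (O k : Type) [CommRing O] [IsDomain O] [IsDiscreteValuationRing O] [Field k]
    [Algebra O k] [IsFractionRing O k] (i : ℤ →+* O) (j : ℚ →+* k) (ρ : O →+* kp P),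
    LD P i j ρ → ∀ (g₀ : O[X]), g₀.Monic → Irreducible (g₀.map ρ) → g₀ ∣ f.map i →
    ∀ (hd : tk k g₀ ∣ (fK f).map j) (p₀ : ℤ[X]), p₀.map (red P) = g₀.map ρ →
    ∀ q : HeightOneSpectrum (RR f), Over P q → AdjoinRoot.mk f p₀ ∈ q.asIdeal →
    ∀ (z : LL f) (e : ℤ) (s : AdjoinRoot (g₀.map ρ)),
      Rep (i (pz P)) ρ g₀ (pr hd (baseChange j (fK f) z)) e s →
      q.valuation (LL f) z = WithZero.exp (-e)

/-- (CM) Comparison of `om`, `ep` and of `Rep`. -/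
def StCM : Prop :=
  ∀ (f : ℤ[X]), f.Monic →
    ∀ [Fact (Irreducible (fK f))] [IsDedekindDomain (RR f)] [IsFractionRing (RR f) (LL f)]
    (P : Prm) (O k : Type) [CommRing O] [IsDomain O] [IsDiscreteValuationRing O] [Field k]
    [Algebra O k] [IsFractionRing O k] (i : ℤ →+* O) (j : ℚ →+* k) (ρ : O →+* kp P), P.1 ≠ 2 →
    LD P i j ρ → ∀ (g₀ : O[X]), g₀.Monic → Irreducible (g₀.map ρ) → g₀ ∣ f.map i →
    ∀ (hd : tk k g₀ ∣ (fK f).map j) (p₀ : ℤ[X]), p₀.map (red P) = g₀.map ρ →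
    ∀ q : HeightOneSpectrum (RR f), Over P q → AdjoinRoot.mk f p₀ ∈ q.asIdeal →
    ∀ (z : LL f) (e : ℤ) (s : AdjoinRoot (g₀.map ρ)),
      Rep (i (pz P)) ρ g₀ (pr hd (baseChange j (fK f) z)) e s →
      q.valuation (LL f) z = WithZero.exp (-e) ∧ (ep P q z = 0 ↔ IsSquare s)

/-- (QP) The prime `q` contains `p(θ)`. -/
def StQP : Prop :=
  ∀ (g : ℕ), 1 ≤ g → ∀ (f : ℤ[X]), f.Monic →
    ∀ [Fact (Irreducible (fK f))] [IsDedekindDomain (RR f)] [IsFractionRing (RR f) (LL f)]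
    (P : Prm) (a : kp P) (p : (kp P)[X]), f.map (red P) = (X - C a) * p → p.Monic →
    Irreducible p → p.natDegree = 2 * g →
    ∀ q : HeightOneSpectrum (RR f), IsQ g P q → ∀ p₀ : ℤ[X], p₀.map (red P) = p →
    AdjoinRoot.mk f p₀ ∈ q.asIdeal

/-- (EI) Integral points at a regular place. -/
def StEI : Prop :=
  ∀ (f : ℤ[X]), f.Monic →
    ∀ [Fact (Irreducible (fK f))] [IsDedekindDomain (RR f)] [IsFractionRing (RR f) (LL f)]
    (P : Prm) (O k : Type) [CommRing O] [IsDomain O] [IsDiscreteValuationRing O] [Field k]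
    [Algebra O k] [IsFractionRing O k] (i : ℤ →+* O) (j : ℚ →+* k) (ρ : O →+* kp P), P.1 ≠ 2 →
    LD P i j ρ → ∀ D : ℤ, ¬ pz P ∣ D → ∀ U V : k[X], Irreducible U →
    IsCoprime U ((fK f).map j) → U ∣ C (j (Int.castRingHom ℚ D)) * (fK f).map j - V ^ 2 →
    IrrInt ρ U → ∀ y' : AdjoinRoot ((fK f).map j),
    AdjoinRoot.mk _ (C (-j (Int.castRingHom ℚ D)) ^ U.natDegree * U) * y' = 1 →
    ∃ z : (LL f)ˣ, (∀ q : HeightOneSpectrum (RR f), Over P q → EvenAt q (z : LL f)) ∧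
      Nr (i (pz P)) (baseChange j (fK f) (z : LL f) * y')

/-! ### The interface -/

/-- (TRANS) Transport of the Selmer set of the twist: `z` lies in the descent groups of
`y² = f.scaleRoots D` over all `ℚ_p` and has square norm; then (if all such classes for the twist
`D y² = f` are trivial) `z` is a square.  See `HL/M_Trans.lean`, with `HL.hTR`. -/
def StTrans : Prop :=
  ∀ (g : ℕ) (f : ℤ[X]) (D : ℤ), f.Monic →
    f.natDegree = 2 * g + 1 → D ≠ 0 →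
    (∀ z : (LL f)ˣ, IsSquare (Algebra.norm ℚ (z : LL f)) →
      (∀ (p : ℕ) [Fact p.Prime], TwAt f D p z) → IsSquare z) →
    ∀ z : (LL (f.scaleRoots D))ˣ, IsSquare (Algebra.norm ℚ (z : LL (f.scaleRoots D))) →
      (∀ (p : ℕ) [Fact p.Prime],
        Units.map (baseChange (algebraMap ℚ ℚ_[p]) (fK (f.scaleRoots D)) :
          LL (f.scaleRoots D) →* _) z ∈
          descentGroup ((fK (f.scaleRoots D)).map (algebraMap ℚ ℚ_[p]))) → IsSquare z

/-- Every prime of `R` lies above a prime of `ℤ`. -/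
def StOver : Prop :=
  ∀ (f : ℤ[X]), f.Monic →
    ∀ [Fact (Irreducible (fK f))] [IsDedekindDomain (RR f)] [IsFractionRing (RR f) (LL f)],
      Nonempty (HeightOneSpectrum (RR f)) ∧ ∀ q : HeightOneSpectrum (RR f), ∃ P : Prm, Over P q

/-- Existence of the prime `q`. -/
def StQ : Prop :=
  ∀ (g : ℕ), 1 ≤ g → ∀ (f : ℤ[X]), f.Monic →
    ∀ [Fact (Irreducible (fK f))] [IsDedekindDomain (RR f)] [IsFractionRing (RR f) (LL f)]
      (P : Prm), f.map (red P) ∈ TType (kp P) g → ∃ q : HeightOneSpectrum (RR f), IsQ g P q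

/-- `om` and `ep` are homomorphisms. -/
def StHom : Prop :=
  ∀ (g : ℕ), 1 ≤ g → ∀ (f : ℤ[X]), f.Monic →
    ∀ [Fact (Irreducible (fK f))] [IsDedekindDomain (RR f)] [IsFractionRing (RR f) (LL f)]
      (P : Prm), P.1 ≠ 2 → f.map (red P) ∈ TType (kp P) g →
    ∀ q : HeightOneSpectrum (RR f), IsQ g P q →
    ∀ z w : LL f, z ≠ 0 → w ≠ 0 → om q (z * w) = om q z + om q w ∧
      ep P q (z * w) = ep P q z + ep P q w

/-- At the other primes above `P` the valuation is even if the norm is a square. -/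
def StQ3 : Prop :=
  ∀ (g : ℕ), 1 ≤ g → ∀ (f : ℤ[X]), f.Monic →
    ∀ [Fact (Irreducible (fK f))] [IsDedekindDomain (RR f)] [IsFractionRing (RR f) (LL f)]
      (P : Prm), P.1 ≠ 2 → f.map (red P) ∈ TType (kp P) g →
    ∀ q : HeightOneSpectrum (RR f), IsQ g P q →
    ∀ z : LL f, z ≠ 0 → IsSquare (Algebra.norm ℚ z) →
      (∀ q', Over P q' → q' ≠ q → EvenAt q' z) ∧ (om q z = 0 → ep P q z = 0 → LocSq P z)

/-- The primes where `f` is irreducible (`P = 2` is allowed): only the evenness.  See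
`HL/M_I1.lean` (first part). -/
def StI1 : Prop :=
  ∀ (g : ℕ), 1 ≤ g → ∀ (f : ℤ[X]), f.Monic →
    ∀ [Fact (Irreducible (fK f))] [IsDedekindDomain (RR f)] [IsFractionRing (RR f) (LL f)]
      (P : Prm), f.map (red P) ∈ IType (kp P) g →
    ∀ z : LL f, z ≠ 0 → IsSquare (Algebra.norm ℚ z) → ∀ q, Over P q → EvenAt q z

/-- Regular places: even valuation. -/
def StEven : Prop :=
  ∀ (g : ℕ), 1 ≤ g → ∀ (f : ℤ[X]), f.Monic → f.natDegree = 2 * g + 1 →
    ∀ [Fact (Irreducible (fK f))] [IsDedekindDomain (RR f)] [IsFractionRing (RR f) (LL f)]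
      (P : Prm) (D : ℤ), P.1 ≠ 2 → ¬ pz P ∣ D → ∀ z : (LL f)ˣ, TwAt f D (P : ℕ) z →
      ∀ q, Over P q → EvenAt q (z : LL f)

/-- The places of `R`: the image of the twist is a fixed line. -/
def StLine : Prop :=
  ∀ (g : ℕ), 1 ≤ g → ∀ (f : ℤ[X]), f.Monic → f.natDegree = 2 * g + 1 →
    ∀ [Fact (Irreducible (fK f))] [IsDedekindDomain (RR f)] [IsFractionRing (RR f) (LL f)]
      (P : Prm), P.1 ≠ 2 → f.map (red P) ∈ TType (kp P) g →
    ∀ q : HeightOneSpectrum (RR f), IsQ g P q →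
    ∃ η : ZMod 2, ∀ D : ℤ, ¬ pz P ∣ D → ∀ z : (LL f)ˣ, TwAt f (pz P * D) (P : ℕ) z →
      (om q (z : LL f) = 0 ∧ ep P q (z : LL f) = 0) ∨
        (om q (z : LL f) = 1 ∧ ep P q (z : LL f) = η)

end Pool.Agent.Helper54.HQ
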