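import Pool.Agent.Helper54.HQ.M_Ha

/-!
# HQ, module Hb: the Hasse invariant of a split form
-/

set_option autoImplicit false

namespace Pool.Agent.Helper54.HQ

open Finset

section forms

variable {K : Type} [Field K] {V : Type} [AddCommGroup V] [Module K V]
  {B : LinearMap.BilinForm K V}

lemma tail_mem_Hb {n : ℕ} {f : Fin (n + 1) → V} (hf : OF_Ha B f) {x : V}
    (hx : x ∈ Submodule.span K (Set.range f)) (h0 : B x (f 0) = 0) :
    x ∈ Submodule.span K (Set.range fun j : Fin n => f j.succ) := by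
  have h1 := hf.expand hx
  rw [Fin.sum_univ_succ, h0, zero_div, zero_smul, zero_add] at h1
  rw [h1]
  exact Submodule.sum_mem _ fun i _ => Submodule.smul_mem _ _ (Submodule.subset_span ⟨i, rfl⟩)

lemma pow_neg_one_Hb {s : K → K → ZMod 2} (h : IsSym K s) (g : ℕ) :
    s (-1) ((-1) ^ g) = (g : ZMod 2) * s (-1) (-1) := by
  have hm : (-1 : K) ≠ 0 := neg_ne_zero.2 one_ne_zero
  have h1 := h.prod_right_Ha1 hm (Finset.range g) (fun _ => (-1 : K)) fun _ _ => hm
  rw [Finset.prod_const, Finset.sum_const, Finset.card_range, nsmul_eq_mul] at h1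
  exact h1

lemma split_Hb (h1 : StHa1) {s : K → K → ZMod 2} (h : IsSym K s) (h2 : (2 : K) ≠ 0)
    (hB : ∀ x y, B x y = B y x) : ∀ (g : ℕ) (e : Fin (2 * g + 1) → V), OF_Ha B e →
    (∃ c : K, c ≠ 0 ∧ ∏ i, B (e i) (e i) = (-1) ^ g * c ^ 2) →
    ∀ X : Submodule K V, X ≤ Submodule.span K (Set.range e) → Module.finrank K X = g →
    (∀ x ∈ X, ∀ y ∈ X, B x y = 0) →
    hasse s (fun i => B (e i) (e i)) = (g.choose 2 : ZMod 2) * s (-1) (-1) := by
  intro g
  induction g with
  | zero =>
    intro e he _ X _ _ _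
    rw [Nat.choose_zero_succ, Nat.cast_zero, zero_mul]
    unfold hasse
    refine Finset.sum_eq_zero fun p _ => ?_
    rw [if_neg]
    intro hlt
    have h3 := p.1.2
    have h4 := p.2.2
    rw [Fin.lt_def] at hlt
    omega
  | succ g ih =>
    intro e he hdisc X hX hXg hXi
    obtain ⟨c, hc, hdisc⟩ := hdisc
    -- a nonzero vector of `X`
    have hXne : X ≠ ⊥ := by
      rintro rfl
      rw [finrank_bot] at hXg
      exact absurd hXg (by omega)
    obtain ⟨x, hxX, hx0⟩ := Submodule.exists_mem_ne_zero_of_ne_bot hXne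
    have hxx : B x x = 0 := hXi x hxX x hxX
    -- a partner
    have hex : ∃ j, B x (e j) ≠ 0 := by
      by_contra hcon
      push Not at hcon
      apply hx0
      rw [he.expand (hX hxX)]
      exact Finset.sum_eq_zero fun j _ => by rw [hcon j, zero_div, zero_smul]
    obtain ⟨j, hj⟩ := hex
    set y0 : V := (B x (e j))⁻¹ • e j with hy0
    have hxy0 : B x y0 = 1 := by
      rw [hy0, map_smul, smul_eq_mul, inv_mul_cancel₀ hj]
    set y : V := y0 - (B y0 y0 / 2) • x with hy
    have hxy : B x y = 1 := by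
      rw [hy, map_sub, map_smul (B x) (B y0 y0 / 2) x, hxx, smul_zero, sub_zero, hxy0]
    have hyx : B y x = 1 := by rw [hB, hxy]
    have hyy : B y y = 0 := by
      have hy0x : B y0 x = 1 := by rw [hB, hxy0]
      rw [hy]
      simp only [map_sub, map_smul, LinearMap.sub_apply, LinearMap.smul_apply, smul_eq_mul, hxx, hxy0,
        hy0x]
      field_simp
      ring
    have hymem : y ∈ Submodule.span K (Set.range e) := by
      rw [hy, hy0]
      exact Submodule.sub_mem _ (Submodule.smul_mem _ _ (Submodule.subset_span ⟨j, rfl⟩))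
        (Submodule.smul_mem _ _ (hX hxX))
    set u : V := x + (2 : K)⁻¹ • y with hu
    set w : V := x - (2 : K)⁻¹ • y with hw
    have huu : B u u = 1 := by
      rw [hu]
      simp only [map_add, map_smul, LinearMap.add_apply, LinearMap.smul_apply, smul_eq_mul, hxx, hxy,
        hyx, hyy]
      field_simp
      ring
    have hww : B w w = -1 := by
      rw [hw]
      simp only [map_sub, map_smul, LinearMap.sub_apply, LinearMap.smul_apply, smul_eq_mul, hxx, hxy,
        hyx, hyy]
      field_simp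
      ring
    have hwu : B w u = 0 := by
      rw [hw, hu]
      simp only [map_sub, map_add, map_smul, LinearMap.sub_apply,
        LinearMap.smul_apply, smul_eq_mul, hxx, hxy, hyx, hyy]
      ring
    have humem : u ∈ Submodule.span K (Set.range e) :=
      Submodule.add_mem _ (hX hxX) (Submodule.smul_mem _ _ hymem)
    have hwmem : w ∈ Submodule.span K (Set.range e) :=
      Submodule.sub_mem _ (hX hxX) (Submodule.smul_mem _ _ hymem)
    obtain ⟨e1, ho1, h10, hs1, hh1⟩ := chain_Ha h1 h h2 hB (2 * (g + 1) + 1) (2 * (g + 1)) e he u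
      humem (by rw [huu]; exact one_ne_zero) (by
        intro S _
        exact (Finset.card_le_univ S).trans (by rw [Fintype.card_fin]))
    have hw1 : w ∈ Submodule.span K (Set.range fun j : Fin (2 * (g + 1)) => e1 j.succ) :=
      tail_mem_Hb ho1 (by rw [hs1]; exact hwmem) (by rw [h10]; exact hwu)
    obtain ⟨e2, ho2, h20, hs2, hh2⟩ := chain_Ha h1 h h2 hB (2 * g + 2) (2 * g + 1)
      (fun j : Fin (2 * g + 2) => e1 j.succ) ho1.tail w hw1
      (by rw [hww]; exact neg_ne_zero.2 one_ne_zero) (by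
        intro S _
        exact (Finset.card_le_univ S).trans (by rw [Fintype.card_fin]))
    -- the discriminant
    obtain ⟨d1, hd1, hp1⟩ := he.disc ho1 hs1.symm
    obtain ⟨d2, hd2, hp2⟩ := OF_Ha.disc (B := B) (e := fun j : Fin (2 * g + 2) => e1 j.succ)
      ho1.tail ho2 hs2.symm
    have hq1 : ∏ i, B (e1 i) (e1 i) = ∏ i : Fin (2 * g + 2), B (e1 i.succ) (e1 i.succ) := by
      rw [Fin.prod_univ_succ, h10, huu, one_mul]
      rfl
    have hq2 : ∏ i, B (e2 i) (e2 i) = -∏ i : Fin (2 * g + 1), B (e2 i.succ) (e2 i.succ) := by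
      rw [Fin.prod_univ_succ, h20, hww, neg_one_mul]
    have hq : ∏ i : Fin (2 * g + 1), B (e2 i.succ) (e2 i.succ) = (-1) ^ g * (c / (d1 * d2)) ^ 2 := by
      rw [hdisc, hq1, hp2, hq2] at hp1
      have hdd : (d1 * d2) ^ 2 ≠ 0 := pow_ne_zero 2 (mul_ne_zero hd1 hd2)
      rw [div_pow, ← mul_div_assoc, eq_div_iff hdd]
      have e9 : (-1 : K) ^ (g + 1) = -(-1) ^ g := by rw [pow_succ]; ring
      rw [e9] at hp1
      linear_combination hp1
    -- the smaller isotropic space
    have hfr : Module.finrank K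
        ((X ⊓ LinearMap.ker (B y) : Submodule K V)) = g := by
      have : FiniteDimensional K X := Module.finite_of_finrank_pos (by rw [hXg]; omega)
      set φ : X →ₗ[K] K := (B y).comp X.subtype with hφ
      have hker : Module.finrank K (LinearMap.ker φ) + 1 = g + 1 := by
        have hr := LinearMap.finrank_range_add_finrank_ker φ
        have hsurj : LinearMap.range φ = ⊤ := by
          rw [LinearMap.range_eq_top]
          intro t
          refine ⟨t • ⟨x, hxX⟩, ?_⟩
          rw [map_smul, hφ]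
          change t • B y x = t
          rw [hyx, smul_eq_mul, mul_one]
        rw [hsurj, finrank_top, Module.finrank_self, hXg] at hr
        omega
      have hmap : (X ⊓ LinearMap.ker (B y) : Submodule K V) = (LinearMap.ker φ).map X.subtype := by
        ext v
        rw [Submodule.mem_map]
        constructor
        · rintro ⟨hv1, hv2⟩
          exact ⟨⟨v, hv1⟩, LinearMap.mem_ker.2 (LinearMap.mem_ker.1 hv2), rfl⟩
        · rintro ⟨v', hv', rfl⟩
          exact ⟨v'.2, LinearMap.mem_ker.2 (LinearMap.mem_ker.1 hv')⟩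
      rw [hmap, LinearEquiv.finrank_eq
        (Submodule.equivMapOfInjective X.subtype (Submodule.subtype_injective X) _).symm]
      omega
    have hX'' : (X ⊓ LinearMap.ker (B y) : Submodule K V) ≤
        Submodule.span K (Set.range fun j : Fin (2 * g + 1) => e2 j.succ) := by
      rintro v ⟨hv1, hv2⟩
      have hvx : B v x = 0 := hXi v hv1 x hxX
      have hvy : B v y = 0 := by rw [hB]; exact LinearMap.mem_ker.1 hv2
      refine tail_mem_Hb ho2 ?_ ?_
      · rw [hs2]
        refine tail_mem_Hb ho1 ?_ ?_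
        · rw [hs1]; exact hX hv1
        · rw [h10, hu, map_add, map_smul, hvx, hvy, smul_zero, add_zero]
      · rw [h20, hw, map_sub, map_smul, hvx, hvy, smul_zero, sub_zero]
    have hih := ih (fun j : Fin (2 * g + 1) => e2 j.succ) ho2.tail
      ⟨c / (d1 * d2), div_ne_zero hc (mul_ne_zero hd1 hd2), hq⟩ _ hX'' hfr
      fun a ha b hb => hXi a ha.1 b hb.1
    have hm : (-1 : K) ≠ 0 := neg_ne_zero.2 one_ne_zero
    have hne1 : ∏ i : Fin (2 * g + 2), B (e1 i.succ) (e1 i.succ) ≠ 0 :=
      Finset.prod_ne_zero_iff.2 fun i _ => ho1.ne _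
    have hhe1 : hasse s (fun i => B (e1 i) (e1 i)) =
        hasse s (fun i : Fin (2 * g + 2) => B (e1 i.succ) (e1 i.succ)) := by
      have h5 := hasse_succ_Ha h (n := 2 * g + 2) (fun i => B (e1 i) (e1 i)) ho1.ne
      refine h5.trans ?_
      rw [h10, huu, h.one_left_Ha1 hne1, zero_add]
    have hhe2 : hasse s (fun i => B (e2 i) (e2 i)) = (g : ZMod 2) * s (-1) (-1) +
        hasse s (fun i : Fin (2 * g + 1) => B (e2 i.succ) (e2 i.succ)) := by
      have h5 := hasse_succ_Ha h (n := 2 * g + 1) (fun i => B (e2 i) (e2 i)) ho2.ne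
      rw [h5, h20, hww, hq, h.sq_right_Ha1 hm (pow_ne_zero g hm)
        (div_ne_zero hc (mul_ne_zero hd1 hd2)), pow_neg_one_Hb h]
    rw [← hh1, hhe1, ← hh2, hhe2, hih, Nat.choose_succ_succ' g 1, Nat.choose_one_right, Nat.cast_add]
    ring

end forms

theorem hHb : StHb := by
  intro K _ s hs h2 V _ _ B hB g e he hen hc hX
  obtain ⟨X, hX1, hX2⟩ := hX
  exact split_Hb hHa1 hs h2 hB g e ⟨he, hen⟩ hc X (by rw [e.span_eq]; exact le_top) hX1 hX2

end Pool.Agent.Helper54.HQ
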