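import Pool.Agent.Helper54.HQ.StI

/-!
# HQ, module Hi3: composition
-/

set_option autoImplicit false

namespace Pool.Agent.Helper54.HQ

open Polynomial Finset Filter Topology Matrix IsDedekindDomain

/-- for an irreducible `π` only finitely many members of the pencil are divisible by `π` -/
lemma fin_Hi3 {k : Type} [Field k] (h2 : (2 : k) ≠ 0) (A B W π : k[X]) (hπ : Irreducible π)
    (hsq : ¬ π ^ 2 ∣ B ^ 2 + A * W) :
    {c : k | π ∣ C c ^ 2 * A + 2 * C c * B - W}.Finite := by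
  have : Fact (Irreducible π) := ⟨hπ⟩
  set P : (AdjoinRoot π)[X] := C (AdjoinRoot.mk π A) * X ^ 2 + C (2 * AdjoinRoot.mk π B) * X -
    C (AdjoinRoot.mk π W) with hP
  have hP0 : P ≠ 0 := by
    intro h0
    have hA : AdjoinRoot.mk π A = 0 := by
      have := congrArg (fun Q : (AdjoinRoot π)[X] => Q.coeff 2) h0
      simpa [hP, coeff_X, coeff_C] using this
    have hB : AdjoinRoot.mk π (2 * B) = 0 := by
      have := congrArg (fun Q : (AdjoinRoot π)[X] => Q.coeff 1) h0
      rw [map_mul, map_ofNat]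
      simpa [hP, coeff_X, coeff_C, coeff_X_pow] using this
    have hW : AdjoinRoot.mk π W = 0 := by
      have := congrArg (fun Q : (AdjoinRoot π)[X] => Q.coeff 0) h0
      simpa [hP, coeff_X, coeff_C, coeff_X_pow] using this
    rw [AdjoinRoot.mk_eq_zero] at hA hB hW
    have hB' : π ∣ B := by
      have h3 : B = C ((2 : k)⁻¹) * (2 * B) := by
        rw [← mul_assoc, show (2 : k[X]) = C (2 : k) from (map_ofNat C 2).symm, ← C_mul,
          inv_mul_cancel₀ h2, C_1, one_mul]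
      rw [h3]
      exact hB.mul_left _
    obtain ⟨a, rfl⟩ := hA
    obtain ⟨b, rfl⟩ := hB'
    obtain ⟨w, rfl⟩ := hW
    exact hsq ⟨b ^ 2 + a * w, by ring⟩
  have hinj : Function.Injective (algebraMap k (AdjoinRoot π)) :=
    (algebraMap k (AdjoinRoot π)).injective
  refine Set.Finite.subset (Set.Finite.preimage (hinj.injOn)
    (P.roots.toFinset.finite_toSet)) fun c hc => ?_
  rw [Set.mem_preimage, Finset.mem_coe, Multiset.mem_toFinset, mem_roots hP0, IsRoot.def]
  have hc' : π ∣ C c ^ 2 * A + 2 * C c * B - W := hc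
  rw [← AdjoinRoot.mk_eq_zero] at hc'
  rw [map_sub, map_add, map_mul, map_mul, map_mul, map_pow, AdjoinRoot.mk_C, map_ofNat] at hc'
  rw [hP]
  simp only [eval_sub, eval_add, eval_mul, eval_C, eval_pow, eval_X]
  rw [AdjoinRoot.algebraMap_eq]
  linear_combination hc'

theorem hHi3 : StHi3 := by
  intro k _ _ h2 h U₁ V₁ U₂ V₂ hm hsep hdeg hc1 hd1 hc2 hd2
  classical
  have hh0 : h ≠ 0 := hm.ne_zero
  have hnu : ¬ IsUnit h := fun hu => by
    have := natDegree_eq_zero_of_isUnit hu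
    omega
  have hU2 : U₂ ≠ 0 := by
    intro h0
    rw [h0, isCoprime_zero_left] at hc2
    exact hnu hc2
  obtain ⟨W, hW⟩ := hd1
  have hrel : V₁ ^ 2 + U₁ * W = h := by rw [← hW]; ring
  have hsqf : Squarefree h := hsep.squarefree
  -- the bad constants
  set bad : Set k := ⋃ π ∈ (UniqueFactorizationMonoid.normalizedFactors (U₂ * h)).toFinset,
    {c : k | π ∣ C c ^ 2 * U₁ + 2 * C c * V₁ - W} with hbad
  have hfin : bad.Finite := by
    refine Set.Finite.biUnion (Finset.finite_toSet _) fun π hπ => ?_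
    rw [Finset.mem_coe, Multiset.mem_toFinset] at hπ
    have hirr := UniqueFactorizationMonoid.irreducible_of_normalized_factor π hπ
    refine fin_Hi3 h2 U₁ V₁ W π hirr ?_
    rw [hrel, pow_two]
    intro hdvd
    exact hirr.not_isUnit (hsqf π hdvd)
  obtain ⟨c, hc⟩ := hfin.exists_notMem
  set U' := C c ^ 2 * U₁ + 2 * C c * V₁ - W with hU'
  set V' := C c * U₁ + V₁ with hV'
  have hUV : U₁ * U' = V' ^ 2 - h := by
    rw [← hrel, hU', hV']
    ring
  have hcop : IsCoprime U' (U₂ * h) := by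
    refine isCoprime_of_irreducible_dvd (fun h0 => mul_ne_zero hU2 hh0 h0.2) ?_
    intro z hz hz1 hz2
    obtain ⟨q, hq1, hq2⟩ := UniqueFactorizationMonoid.exists_mem_normalizedFactors_of_dvd
      (mul_ne_zero hU2 hh0) hz hz2
    apply hc
    rw [hbad, Set.mem_iUnion₂]
    exact ⟨q, Multiset.mem_toFinset.2 hq1, (hq2.symm.dvd).trans hz1⟩
  have hcU2 : IsCoprime U' U₂ := hcop.of_mul_right_left
  have hch : IsCoprime U' h := hcop.of_mul_right_right
  -- Chinese remainder theorem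
  obtain ⟨a, b, hab⟩ := hcU2
  set V := V' * (b * U₂) + V₂ * (a * U') with hV
  have hVd1 : U' ∣ h - V ^ 2 := by
    have h3 : V = V' + U' * (a * (V₂ - V')) := by
      rw [hV]
      linear_combination V' * hab
    have h4 : h - V ^ 2 = U' * (-U₁ - a * (V₂ - V') * (2 * V' + U' * (a * (V₂ - V')))) := by
      rw [h3]
      linear_combination hUV
    rw [h4]
    exact Dvd.intro _ rfl
  have hVd2 : U₂ ∣ h - V ^ 2 := by
    obtain ⟨W₂, hW2⟩ := hd2
    have h3 : V = V₂ + U₂ * (b * (V' - V₂)) := by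
      rw [hV]
      linear_combination V₂ * hab
    have h4 : h - V ^ 2 = U₂ * (W₂ - b * (V' - V₂) * (2 * V₂ + U₂ * (b * (V' - V₂)))) := by
      rw [h3]
      linear_combination hW2
    rw [h4]
    exact Dvd.intro _ rfl
  -- the units
  have hunit : ∀ p : k[X], IsCoprime p h → IsUnit (AdjoinRoot.mk h p) := by
    rintro p ⟨x, y, hxy⟩
    refine IsUnit.of_mul_eq_one (AdjoinRoot.mk h x) ?_
    rw [← map_mul, ← map_one (AdjoinRoot.mk h), AdjoinRoot.mk_eq_mk]
    exact ⟨-y, by linear_combination hxy⟩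
  have hs : AdjoinRoot.mk h V' ^ 2 = AdjoinRoot.mk h U₁ * AdjoinRoot.mk h U' := by
    rw [← map_pow, ← map_mul, hUV, AdjoinRoot.mk_eq_mk]
    exact ⟨1, by ring⟩
  have hsu : IsUnit (AdjoinRoot.mk h V') := by
    rw [← isUnit_pow_iff two_ne_zero, hs]
    exact (hunit U₁ hc1).mul (hunit U' hch)
  obtain ⟨s, hs'⟩ := hsu
  obtain ⟨u, hu⟩ := hunit U₁ hc1
  refine ⟨U' * U₂, V, u * s⁻¹, hch.mul_left hc2, IsCoprime.mul_dvd ⟨a, b, hab⟩ hVd1 hVd2, ?_⟩
  have hss : (s : AdjoinRoot h) * ((s⁻¹ : (AdjoinRoot h)ˣ) : AdjoinRoot h) = 1 := s.mul_inv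
  rw [Units.val_mul, hu, map_mul]
  rw [← hs'] at hs
  set si := ((s⁻¹ : (AdjoinRoot h)ˣ) : AdjoinRoot h)
  set x := AdjoinRoot.mk h U₁
  set x' := AdjoinRoot.mk h U'
  set x₂ := AdjoinRoot.mk h U₂
  -- `x x₂ = x' x₂ (x si)²`, `s² = x x'`, `s si = 1`
  linear_combination (-x * x₂ * ((s : AdjoinRoot h) * si + 1)) * hss + x * x₂ * si ^ 2 * hs

end Pool.Agent.Helper54.HQ
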