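import Pool.Agent.Helper54.HQ.M_Hi2
import Pool.Agent.Helper54.HQ.M_Hi3

/-!
# HQ, module Hi: the descent group is isotropic
-/

set_option autoImplicit false

namespace Pool.Agent.Helper54.HQ

open Polynomial Finset Filter Topology Matrix IsDedekindDomain
open Pool.Agent.Helper3.HY (co tau co_mk descentGroup IsPointValue)

lemma form_Hi {k : Type} [Field k] [Infinite k] (h2 : (2 : k) ≠ 0) (hHi3 : StHi3) (h : k[X])
    (hm : h.Monic) (hsep : h.Separable) (hd : 1 ≤ h.natDegree) (z : (AdjoinRoot h)ˣ)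
    (hz : z ∈ descentGroup h) : ∃ (U V : k[X]) (y : (AdjoinRoot h)ˣ), IsCoprime U h ∧
      U ∣ h - V ^ 2 ∧ (z : AdjoinRoot h) = AdjoinRoot.mk h U * (y : AdjoinRoot h) ^ 2 := by
  unfold descentGroup at hz
  induction hz using Subgroup.closure_induction with
  | mem x hx =>
    rcases hx with hx | ⟨w, rfl⟩
    · obtain ⟨U, V, -, hc, hdv, hx⟩ := hx
      have h1 : IsUnit ((-1 : k[X]) ^ U.natDegree) := (isUnit_one.neg).pow _
      refine ⟨(-1) ^ U.natDegree * U, V, 1, ?_, ?_, ?_⟩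
      · rw [isCoprime_mul_unit_left_left h1]
        exact hc
      · obtain ⟨u, hu⟩ := h1
        rw [← hu]
        exact (Units.mul_left_dvd (u := u)).2 hdv
      · rw [hx, Units.val_one, one_pow, mul_one]
    · exact ⟨1, 0, w, isCoprime_one_left, one_dvd _, by rw [map_one, one_mul]; rfl⟩
  | one => exact ⟨1, 0, 1, isCoprime_one_left, one_dvd _, by simp⟩
  | mul x y hx hy ihx ihy =>
    obtain ⟨U₁, V₁, y₁, hc1, hd1, he1⟩ := ihx
    obtain ⟨U₂, V₂, y₂, hc2, hd2, he2⟩ := ihy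
    obtain ⟨U, V, w, hc, hdv, he⟩ := hHi3 k h2 h U₁ V₁ U₂ V₂ hm hsep hd hc1 hd1 hc2 hd2
    refine ⟨U, V, w * (y₁ * y₂), hc, hdv, ?_⟩
    rw [Units.val_mul, he1, he2, Units.val_mul, Units.val_mul]
    linear_combination ((y₁ : AdjoinRoot h) ^ 2 * (y₂ : AdjoinRoot h) ^ 2) * he
  | inv x hx ih =>
    obtain ⟨U, V, y, hc, hdv, he⟩ := ih
    refine ⟨U, V, y * x⁻¹, hc, hdv, ?_⟩
    rw [Units.val_mul]
    have h1 : (x : AdjoinRoot h) * ((x⁻¹ : (AdjoinRoot h)ˣ) : AdjoinRoot h) = 1 := x.mul_inv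
    set xi := ((x⁻¹ : (AdjoinRoot h)ˣ) : AdjoinRoot h)
    linear_combination (-xi) * h1 + (xi ^ 2) * he

theorem hHi (hHi1 : StHi1) (hHi2 : StHi2) (hHi3 : StHi3) : StHi := by
  intro k _ _ h2 g h hm hsep hd z hz
  obtain ⟨U, V, y, hc, hdv, he⟩ := form_Hi h2 hHi3 h hm hsep (by omega) z hz
  obtain ⟨X, hX1, hX2⟩ := hHi2 hHi1 k h2 g h U V hm hd hc hdv
  have hyy : (y : AdjoinRoot h) * ((y⁻¹ : (AdjoinRoot h)ˣ) : AdjoinRoot h) = 1 := y.mul_inv
  set yi := ((y⁻¹ : (AdjoinRoot h)ˣ) : AdjoinRoot h)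
  have hinj : Function.Injective (LinearMap.mulLeft k yi) := by
    intro a b hab
    have h1 : yi * a = yi * b := hab
    have h2 : (y : AdjoinRoot h) * (yi * a) = y * (yi * b) := by rw [h1]
    rwa [← mul_assoc, ← mul_assoc, hyy, one_mul, one_mul] at h2
  refine ⟨X.map (LinearMap.mulLeft k yi), ?_, ?_⟩
  · rw [← (Submodule.equivMapOfInjective _ hinj X).finrank_eq, hX1]
  · rintro _ ⟨a, ha, rfl⟩ _ ⟨b, hb, rfl⟩
    rw [LinearMap.mulLeft_apply, LinearMap.mulLeft_apply]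
    rw [show (z : AdjoinRoot h) * (yi * a) * (yi * b) = AdjoinRoot.mk h U * a * b from ?_]
    · exact hX2 a ha b hb
    · rw [he]
      linear_combination (AdjoinRoot.mk h U * a * b * ((y : AdjoinRoot h) * yi + 1)) * hyy

end Pool.Agent.Helper54.HQ
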