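import Pool.Agent.Helper54.HQ.StI

/-!
# HQ, module Hi1: binary quadratic forms over `k[x]`
-/

set_option autoImplicit false

namespace Pool.Agent.Helper54.HQ

open Polynomial Finset Filter Topology Matrix IsDedekindDomain

/-- the polar form -/
noncomputable def pf_Hi1 {k : Type} [Field k] (U V W : k[X]) (y y' : k[X] × k[X]) : k[X] :=
  y.1 * y'.1 * U + (y.1 * y'.2 + y'.1 * y.2) * V - y.2 * y'.2 * W

/-- the existence of the space -/
def Gd_Hi1 {k : Type} [Field k] (g : ℕ) (U V W : k[X]) : Prop :=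
  ∃ Y : Submodule k (k[X] × k[X]), Module.finrank k Y = g ∧ ∀ y ∈ Y, ∀ y' ∈ Y,
    (pf_Hi1 U V W y y').degree < (2 * g : ℕ)

lemma transfer_Hi1 {k : Type} [Field k] {g : ℕ} {U V W U' V' W' : k[X]}
    (e : (k[X] × k[X]) ≃ₗ[k] (k[X] × k[X]))
    (he : ∀ y y', pf_Hi1 U V W (e y) (e y') = pf_Hi1 U' V' W' y y') (h : Gd_Hi1 g U' V' W') :
    Gd_Hi1 g U V W := by
  obtain ⟨Y, h1, h2⟩ := h
  refine ⟨Y.map (e : (k[X] × k[X]) →ₗ[k] (k[X] × k[X])), ?_, ?_⟩
  · rw [LinearEquiv.finrank_map_eq, h1]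
  · rintro _ ⟨y, hy, rfl⟩ _ ⟨y', hy', rfl⟩
    change (pf_Hi1 U V W (e y) (e y')).degree < _
    rw [he]
    exact h2 y hy y' hy'

/-- `(p, q) ↦ (p + c q, q)` -/
noncomputable def sh_Hi1 {k : Type} [Field k] (c : k[X]) : (k[X] × k[X]) ≃ₗ[k] (k[X] × k[X]) where
  toFun y := (y.1 + c * y.2, y.2)
  invFun y := (y.1 - c * y.2, y.2)
  map_add' x y := by ext1 <;> simp [mul_add, add_add_add_comm]
  map_smul' a y := by ext1 <;> simp [smul_add]
  left_inv y := by ext1 <;> simp
  right_inv y := by ext1 <;> simp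

/-- `(p, q) ↦ (q, - p)` -/
noncomputable def sw_Hi1 {k : Type} [Field k] : (k[X] × k[X]) ≃ₗ[k] (k[X] × k[X]) where
  toFun y := (y.2, -y.1)
  invFun y := (-y.2, y.1)
  map_add' x y := by
    ext1
    · simp
    · simp [add_comm]
  map_smul' a y := by ext1 <;> simp
  left_inv y := by ext1 <;> simp
  right_inv y := by ext1 <;> simp

lemma finrank_Hi1 {k : Type} [Field k] (a b : ℕ) :
    ∃ Y : Submodule k (k[X] × k[X]), Module.finrank k Y = a + b ∧
      ∀ y ∈ Y, y.1.degree < (a : ℕ) ∧ y.2.degree < (b : ℕ) := by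
  set φ : (degreeLT k a × degreeLT k b) →ₗ[k] (k[X] × k[X]) :=
    (degreeLT k a).subtype.prodMap (degreeLT k b).subtype with hφ
  have hinj : Function.Injective φ := by
    rintro ⟨x, y⟩ ⟨x', y'⟩ h
    have h1 : (x : k[X]) = x' := congrArg Prod.fst h
    have h2 : (y : k[X]) = y' := congrArg Prod.snd h
    rw [Prod.mk.injEq]
    exact ⟨Subtype.ext h1, Subtype.ext h2⟩
  refine ⟨LinearMap.range φ, ?_, ?_⟩
  · rw [LinearMap.finrank_range_of_inj hinj,
      ((degreeLTEquiv k a).prodCongr (degreeLTEquiv k b)).finrank_eq, Module.finrank_prod,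
      Module.finrank_fin_fun, Module.finrank_fin_fun]
  · rintro _ ⟨⟨x, y⟩, rfl⟩
    exact ⟨mem_degreeLT.1 x.2, mem_degreeLT.1 y.2⟩

/-- a product of three polynomials -/
lemma deg3_Hi1 {k : Type} [Field k] {p q r : k[X]} {a b c n : ℕ} (hp : p.degree < (a : ℕ))
    (hq : q.degree < (b : ℕ)) (hr : r.degree < (c : ℕ)) (h : a + b + c ≤ n + 2) :
    (p * q * r).degree < (n : ℕ) := by
  by_cases h0 : p * q * r = 0
  · rw [h0, degree_zero]
    exact WithBot.bot_lt_coe _
  · have hp0 : p ≠ 0 := fun h => h0 (by rw [h, zero_mul, zero_mul])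
    have hq0 : q ≠ 0 := fun h => h0 (by rw [h, mul_zero, zero_mul])
    have hr0 : r ≠ 0 := fun h => h0 (by rw [h, mul_zero])
    rw [← natDegree_lt_iff_degree_lt h0, natDegree_mul (mul_ne_zero hp0 hq0) hr0,
      natDegree_mul hp0 hq0]
    rw [← natDegree_lt_iff_degree_lt hp0] at hp
    rw [← natDegree_lt_iff_degree_lt hq0] at hq
    rw [← natDegree_lt_iff_degree_lt hr0] at hr
    omega

lemma small_Hi1 {k : Type} [Field k] {g : ℕ} {U V W : k[X]} (hm : U.natDegree ≤ g)
    (hV : V.degree < U.degree) (hU : U ≠ 0)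
    (hW : W.degree < ((2 * g + 2 - U.natDegree : ℕ) : WithBot ℕ)) :
    Gd_Hi1 g U V W := by
  set m := U.natDegree with hmdef
  obtain ⟨Y, h1, h2⟩ := finrank_Hi1 (k := k) ((2 * g + 1 - m) / 2) (m / 2)
  refine ⟨Y, by rw [h1]; omega, fun y hy y' hy' => ?_⟩
  obtain ⟨hy1, hy2⟩ := h2 y hy
  obtain ⟨hy1', hy2'⟩ := h2 y' hy'
  have hU' : U.degree < ((m + 1 : ℕ) : WithBot ℕ) := by
    rw [← natDegree_lt_iff_degree_lt hU]
    omega
  have hV' : V.degree < ((m : ℕ) : WithBot ℕ) := by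
    rwa [degree_eq_natDegree hU] at hV
  unfold pf_Hi1
  refine lt_of_le_of_lt (degree_sub_le _ _) (max_lt (lt_of_le_of_lt (degree_add_le _ _)
    (max_lt ?_ ?_)) ?_)
  · exact deg3_Hi1 hy1 hy1' hU' (by omega)
  · rw [add_mul]
    refine lt_of_le_of_lt (degree_add_le _ _) (max_lt ?_ ?_)
    · exact deg3_Hi1 hy1 hy2' hV' (by omega)
    · exact deg3_Hi1 hy1' hy2 hV' (by omega)
  · exact deg3_Hi1 hy2 hy2' hW (by omega)

theorem main_Hi1 {k : Type} [Field k] (g : ℕ) (h : k[X]) (hd : h.natDegree = 2 * g + 1) :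
    ∀ n : ℕ, ∀ U V W : k[X], U.natDegree = n → U ≠ 0 → V ^ 2 + U * W = h → Gd_Hi1 g U V W := by
  intro n
  induction n using Nat.strong_induction_on with
  | _ n ih =>
  intro U V W hn hU hUVW
  -- reduce `V` modulo `U`
  set c := V / U with hc
  set V' := V - c * U with hV'
  set W' := W + 2 * c * V - c ^ 2 * U with hW'
  have hVd : V'.degree < U.degree := by
    have h1 : V' = V % U := by
      have := EuclideanDomain.div_add_mod V U
      rw [hV', hc]
      linear_combination -this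
    rw [h1]
    exact EuclideanDomain.mod_lt V hU
  have hrel : V' ^ 2 + U * W' = h := by
    rw [← hUVW, hV', hW']
    ring
  refine transfer_Hi1 (U' := U) (V' := V') (W' := W') (sh_Hi1 (-c)) ?_ ?_
  · intro y y'
    simp only [pf_Hi1, sh_Hi1, LinearEquiv.coe_mk, LinearMap.coe_mk, AddHom.coe_mk, hV', hW']
    ring
  have hh0 : h ≠ 0 := fun h0 => by
    rw [h0, natDegree_zero] at hd
    omega
  -- the degree of `U * W'`
  have hUW : U * W' = h - V' ^ 2 := by linear_combination hrel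
  have hW0 : W' ≠ 0 := by
    intro h0
    rw [h0, mul_zero, add_zero] at hrel
    rw [← hrel, natDegree_pow] at hd
    omega
  have hVn : V' = 0 ∨ V'.natDegree < U.natDegree := by
    by_cases hV0 : V' = 0
    · exact Or.inl hV0
    · right
      rw [degree_eq_natDegree hV0, degree_eq_natDegree hU] at hVd
      exact_mod_cast hVd
  have hV2 : (V' ^ 2).natDegree ≤ 2 * (U.natDegree - 1) := by
    rw [natDegree_pow]
    rcases hVn with h0 | h0
    · rw [h0, natDegree_zero]
      omega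
    · omega
  have hle : U.natDegree + W'.natDegree ≤ max (2 * g + 1) (2 * (U.natDegree - 1)) := by
    rw [← natDegree_mul hU hW0, hUW]
    refine (natDegree_sub_le _ _).trans (max_le_max hd.le hV2)
  by_cases hm : U.natDegree ≤ g
  · refine small_Hi1 hm hVd hU ?_
    rw [← natDegree_lt_iff_degree_lt hW0]
    rw [max_eq_left (by omega)] at hle
    omega
  · have hlt : W'.natDegree < U.natDegree := by
      rcases max_le_iff.1 (le_refl (max (2 * g + 1) (2 * (U.natDegree - 1)))) with ⟨_, _⟩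
      rcases le_total (2 * g + 1) (2 * (U.natDegree - 1)) with h1 | h1
      · rw [max_eq_right h1] at hle
        omega
      · rw [max_eq_left h1] at hle
        omega
    have h1 := ih W'.natDegree (by omega) (-W') (-V') (-U) (natDegree_neg _) (neg_ne_zero.2 hW0)
      (by rw [← hrel]; ring)
    refine transfer_Hi1 (sw_Hi1 (k := k)) ?_ h1
    intro y y'
    simp only [pf_Hi1, sw_Hi1, LinearEquiv.coe_mk, LinearMap.coe_mk, AddHom.coe_mk]
    ring

theorem hHi1 : StHi1 := by
  intro k _ _ g h U V W hd hU hUVW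
  exact main_Hi1 g h hd _ U V W rfl hU hUVW

end Pool.Agent.Helper54.HQ
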