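import Pool.Agent.Helper54.HQ.M_Hi1
import Pool.Agent.Helper3.HY.Base

/-!
# HQ, module Hi2: isotropic subspaces
-/

set_option autoImplicit false

namespace Pool.Agent.Helper54.HQ

open Polynomial Finset Filter Topology Matrix IsDedekindDomain
open Pool.Agent.Helper3.HY (co tau co_mk)

/-- `(p, q) ↦ p(θ) + q(θ) w` -/
noncomputable def ph_Hi2 {k : Type} [Field k] (h : k[X]) (w : AdjoinRoot h) :
    (k[X] × k[X]) →ₗ[k] AdjoinRoot h where
  toFun y := AdjoinRoot.mk h y.1 + AdjoinRoot.mk h y.2 * w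
  map_add' x y := by
    rw [Prod.fst_add, Prod.snd_add, map_add, map_add]
    ring
  map_smul' a y := by
    have h1 : ∀ p : k[X], AdjoinRoot.mk h (a • p) = a • AdjoinRoot.mk h p := by
      intro p
      rw [← AdjoinRoot.smul_mk]
    simp only [Prod.smul_fst, Prod.smul_snd, RingHom.id_apply, h1, smul_add, smul_mul_assoc]

theorem hHi2 : StHi2 := by
  intro hHi1 k _ h2 g h U V hm hd hcop hdvd
  have hh0 : h ≠ 0 := hm.ne_zero
  have hU : U ≠ 0 := by
    intro h0
    rw [h0, isCoprime_zero_left] at hcop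
    have := natDegree_eq_zero_of_isUnit hcop
    omega
  obtain ⟨W, hW⟩ := hdvd
  have hrel : V ^ 2 + U * W = h := by rw [← hW]; ring
  obtain ⟨Y, hY1, hY2⟩ := hHi1 k h2 g h U V W hd hU hrel
  obtain ⟨a, b, hab⟩ := hcop
  -- the inverse of `u`
  have hui : AdjoinRoot.mk h a * AdjoinRoot.mk h U = 1 := by
    rw [← map_mul, ← map_one (AdjoinRoot.mk h), AdjoinRoot.mk_eq_mk]
    exact ⟨-b, by linear_combination hab⟩
  set u := AdjoinRoot.mk h U with hu
  set ui := AdjoinRoot.mk h a with hui'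
  set w : AdjoinRoot h := AdjoinRoot.mk h V * ui with hw
  have hVW : AdjoinRoot.mk h V ^ 2 + u * AdjoinRoot.mk h W = 0 := by
    rw [hu, ← map_pow, ← map_mul, ← map_add, hrel, AdjoinRoot.mk_self]
  have key : ∀ y y' : k[X] × k[X], u * ph_Hi2 h w y * ph_Hi2 h w y' =
      AdjoinRoot.mk h (y.1 * y'.1 * U + (y.1 * y'.2 + y'.1 * y.2) * V - y.2 * y'.2 * W) := by
    intro y y'
    simp only [ph_Hi2, LinearMap.coe_mk, AddHom.coe_mk, map_add, map_sub, map_mul, ← hu, hw]
    set p := AdjoinRoot.mk h y.1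
    set p' := AdjoinRoot.mk h y'.1
    set q := AdjoinRoot.mk h y.2
    set q' := AdjoinRoot.mk h y'.2
    set v := AdjoinRoot.mk h V
    set ww := AdjoinRoot.mk h W
    -- `ui * u = 1`, `v ^ 2 = - u * ww`
    linear_combination (p * q' * v + q * p' * v + q * q' * v ^ 2 * ui -
      q * q' * ww) * hui + (q * q' * ui) * hVW
  have hsmall : ∀ F : k[X], F.degree < (2 * g : ℕ) → tau hm (AdjoinRoot.mk h F) = 0 := by
    intro F hF
    rw [tau, co_mk, hd, (modByMonic_eq_self_iff hm).2]
    · refine coeff_eq_zero_of_degree_lt (hF.trans_le ?_)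
      exact_mod_cast (by omega : 2 * g ≤ 2 * g + 1 - 1)
    · rw [degree_eq_natDegree hh0, hd]
      exact hF.trans (by exact_mod_cast (by omega : 2 * g < 2 * g + 1))
  have hinj : Function.Injective ((ph_Hi2 h w).domRestrict Y) := by
    rw [injective_iff_map_eq_zero]
    rintro ⟨y, hy⟩ hy0
    have hy0' : ph_Hi2 h w y = 0 := hy0
    have h3 := key y y
    rw [hy0', mul_zero, eq_comm, AdjoinRoot.mk_eq_zero] at h3
    set F := y.1 * y.1 * U + (y.1 * y.2 + y.1 * y.2) * V - y.2 * y.2 * W with hF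
    have hF0 : F = 0 := by
      by_contra hne
      have h4 := natDegree_le_of_dvd h3 hne
      have h5 := hY2 y hy y hy
      change F.degree < _ at h5
      rw [← natDegree_lt_iff_degree_lt hne] at h5
      omega
    have hsq : (y.1 * U + y.2 * V) ^ 2 = y.2 ^ 2 * h := by
      have h4 : U * F = 0 := by rw [hF0, mul_zero]
      rw [← hrel]
      rw [hF] at h4
      linear_combination h4
    have hq : y.2 = 0 := by
      by_contra hne
      have h4 := congrArg natDegree hsq
      rw [natDegree_pow, natDegree_mul (pow_ne_zero 2 hne) hh0, natDegree_pow, hd] at h4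
      omega
    have hp : y.1 = 0 := by
      rw [hq, zero_mul, add_zero, zero_pow two_ne_zero, zero_mul] at hsq
      exact (mul_eq_zero.1 (pow_eq_zero_iff two_ne_zero |>.1 hsq)).resolve_right hU
    exact Subtype.ext (Prod.ext hp hq)
  refine ⟨LinearMap.range ((ph_Hi2 h w).domRestrict Y), ?_, ?_⟩
  · rw [LinearMap.finrank_range_of_inj hinj, hY1]
  · rintro _ ⟨⟨y, hy⟩, rfl⟩ _ ⟨⟨y', hy'⟩, rfl⟩
    change tau hm (u * ph_Hi2 h w y * ph_Hi2 h w y') = 0
    rw [key]
    exact hsmall _ (hY2 y hy y' hy')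

end Pool.Agent.Helper54.HQ
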