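import Pool.Agent.Helper54.HQ.StI
import Pool.Agent.Helper54.HQ.Base

/-!
# HQ: Hj, the real place
-/

set_option autoImplicit false

namespace Pool.Agent.Helper54.HQ

open Polynomial Finset Filter Topology Matrix IsDedekindDomain
open Pool.Agent.Helper3.HY (co tau Ix nu TType IType baseChange descentGroup IsPointValue IsTwPoint
  twGroup co_mk)
open Pool.Agent.Helper54.HL (tk IrrInt IrrBig Nr Rep RepA RepB pr pr_mk IsTwIrr LinePt RootLift)

namespace HjAux

/-- The complex roots of a real polynomial. -/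
noncomputable def crt (F : ℝ[X]) : Finset ℂ := (F.map (algebraMap ℝ ℂ)).roots.toFinset

lemma mem_crt {F : ℝ[X]} (hm : F.Monic) (ρ : ℂ) : ρ ∈ crt F ↔ aeval ρ F = 0 := by
  have h0 : F.map (algebraMap ℝ ℂ) ≠ 0 := (hm.map _).ne_zero
  rw [crt, Multiset.mem_toFinset, mem_roots h0, IsRoot, eval_map, aeval_def]

lemma aeval_conj' (p : ℝ[X]) (ρ : ℂ) :
    aeval ((starRingEnd ℂ) ρ) p = (starRingEnd ℂ) (aeval ρ p) := by
  rw [aeval_def, aeval_def, Polynomial.hom_eval₂]
  congr 1
  ext x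
  exact (Complex.conj_ofReal x).symm

lemma conj_mem_crt {F : ℝ[X]} (hm : F.Monic) {ρ : ℂ} (h : ρ ∈ crt F) :
    (starRingEnd ℂ) ρ ∈ crt F := by
  rw [mem_crt hm] at h ⊢
  rw [aeval_conj', h, map_zero]

lemma crt_spec {F : ℝ[X]} (hm : F.Monic) (hsep : F.Separable) :
    (crt F).card = F.natDegree ∧ (∀ ρ ∈ crt F, aeval ρ (derivative F) ≠ 0) ∧
    (1 ≤ F.natDegree → ∀ p : ℝ[X], ((tau hm (AdjoinRoot.mk F p) : ℝ) : ℂ) =
      ∑ ρ ∈ crt F, aeval ρ p / aeval ρ (derivative F)) := by
  classical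
  set G : ℂ[X] := F.map (algebraMap ℝ ℂ) with hG
  have hGm : G.Monic := hm.map _
  have hGsep : G.Separable := hsep.map
  have hnd : G.roots.Nodup := nodup_roots hGsep
  have hsp : G.Splits := IsAlgClosed.splits G
  have hGdeg : G.natDegree = F.natDegree := hm.natDegree_map _
  have hcard : (crt F).card = F.natDegree := by
    rw [crt, Multiset.toFinset_card_of_nodup hnd, ← hGdeg]
    exact hsp.natDegree_eq_card_roots.symm
  have hnodal : Lagrange.nodal (crt F) (id : ℂ → ℂ) = G := by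
    rw [Lagrange.nodal_eq]
    conv_rhs => rw [hsp.eq_prod_roots_of_monic hGm]
    rw [Finset.prod, crt, Multiset.toFinset_val, hnd.dedup]
    rfl
  have hderiv : ∀ ρ : ℂ, aeval ρ (derivative F) = eval ρ (derivative G) := by
    intro ρ
    rw [hG, derivative_map, eval_map, aeval_def]
  have hprod : ∀ ρ ∈ crt F, ∏ j ∈ (crt F).erase ρ, (ρ - j) = aeval ρ (derivative F) := by
    intro ρ h
    have h1 := Lagrange.eval_nodal_derivative_eval_node_eq (v := (id : ℂ → ℂ)) h
    rw [hnodal, Lagrange.eval_nodal] at h1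
    rw [hderiv]
    exact h1.symm
  refine ⟨hcard, ?_, ?_⟩
  · intro ρ h
    rw [← hprod ρ h, Finset.prod_ne_zero_iff]
    intro j hj h0
    exact (Finset.mem_erase.1 hj).1 (sub_eq_zero.1 h0).symm
  · intro hN p
    have hne : F ≠ 1 := by
      intro h1
      rw [h1, natDegree_one] at hN
      omega
    have hlt : (p %ₘ F).natDegree < F.natDegree := natDegree_modByMonic_lt p hm hne
    set P : ℂ[X] := (p %ₘ F).map (algebraMap ℝ ℂ) with hP
    have hPlt : P.natDegree < F.natDegree := (natDegree_map_le).trans_lt hlt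
    have hPdeg : P.degree < (crt F).card := by
      rw [hcard]
      exact (degree_le_natDegree).trans_lt (by exact_mod_cast hPlt)
    have h1 := Lagrange.coeff_eq_sum (s := crt F) (v := (id : ℂ → ℂ))
      (fun a _ b _ h => h) hPdeg
    have h2 : ((tau hm (AdjoinRoot.mk F p) : ℝ) : ℂ) = P.coeff ((crt F).card - 1) := by
      rw [hP, coeff_map, hcard, tau, co_mk]
      rfl
    rw [h2, h1]
    apply Finset.sum_congr rfl
    intro ρ h
    congr 1
    · rw [id, hP, eval_map, ← aeval_def]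
      conv_rhs => rw [← modByMonic_add_div p F]
      rw [map_add, map_mul, (mem_crt hm ρ).1 h, zero_mul, add_zero]
    · exact hprod ρ h

lemma exists_sq_re (w : ℂ) : ∃ l : ℂ, l ≠ 0 ∧ (l ^ 2 * w).re = 0 := by
  by_cases hw : w = 0
  · exact ⟨1, one_ne_zero, by rw [hw]; simp⟩
  · obtain ⟨l, hl⟩ := IsAlgClosed.exists_pow_nat_eq (Complex.I / w) (n := 2) (by norm_num)
    refine ⟨l, ?_, ?_⟩
    · rintro rfl
      rw [zero_pow two_ne_zero] at hl
      exact (div_ne_zero Complex.I_ne_zero hw) hl.symm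
    · rw [hl, div_mul_cancel₀ _ hw]
      exact Complex.I_re

lemma exists_poly {F : ℝ[X]} (hm : F.Monic) (hsep : F.Separable) (Z : ℝ[X]) {ρ : ℂ}
    (h : ρ ∈ crt F) (him : 0 < ρ.im) : ∃ P : ℝ[X], aeval ρ P ≠ 0 ∧
      (aeval ρ P ^ 2 * (aeval ρ Z / aeval ρ (derivative F))).re = 0 ∧
      ∀ τ ∈ crt F, τ ≠ ρ → τ ≠ (starRingEnd ℂ) ρ → aeval τ P = 0 := by
  obtain ⟨-, hder, -⟩ := crt_spec hm hsep
  obtain ⟨l, hl0, hl⟩ := exists_sq_re (aeval ρ Z / aeval ρ (derivative F))
  obtain ⟨G, hG⟩ := Polynomial.quadratic_dvd_of_aeval_eq_zero_im_ne_zero F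
    ((mem_crt hm ρ).1 h) him.ne'
  set q : ℝ[X] := X ^ 2 - C (2 * ρ.re) * X + C (‖ρ‖ ^ 2) with hq
  have hqev : ∀ τ : ℂ, aeval τ q = (τ - ρ) * (τ - (starRingEnd ℂ) ρ) := by
    intro τ
    have h3 : ρ * (starRingEnd ℂ) ρ = ((‖ρ‖ ^ 2 : ℝ) : ℂ) := by
      rw [Complex.mul_conj, Complex.normSq_eq_norm_sq]
    have h4 : ρ + (starRingEnd ℂ) ρ = ((2 * ρ.re : ℝ) : ℂ) := by
      rw [Complex.add_conj]
    rw [hq]
    simp only [map_add, map_sub, map_mul, map_pow, aeval_X, aeval_C]
    have h5 : (algebraMap ℝ ℂ) 2 * (algebraMap ℝ ℂ) ρ.re = ρ + (starRingEnd ℂ) ρ := by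
      rw [h4, ← map_mul]
      rfl
    have h6 : (algebraMap ℝ ℂ) ‖ρ‖ ^ 2 = ρ * (starRingEnd ℂ) ρ := by
      rw [h3, ← map_pow]
      rfl
    rw [h5, h6]
    ring
  have hGne : aeval ρ G ≠ 0 := by
    intro h3
    apply hder ρ h
    rw [hG, derivative_mul, map_add, map_mul, map_mul, h3, hqev]
    simp
  set μ : ℂ := l / aeval ρ G with hμ
  set a : ℝ := μ.im / ρ.im with ha
  set b : ℝ := μ.re - a * ρ.re with hb
  have hab : (a : ℂ) * ρ + (b : ℂ) = μ := by
    apply Complex.ext
    · simp [hb]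
    · simp [ha]
      field_simp
  have hP : ∀ τ : ℂ, aeval τ (G * (C a * X + C b)) = aeval τ G * ((a : ℂ) * τ + (b : ℂ)) := by
    intro τ
    simp only [map_add, map_mul, aeval_X, aeval_C]
    rfl
  have hval : aeval ρ (G * (C a * X + C b)) = l := by
    rw [hP, hab, hμ, mul_div_cancel₀ _ hGne]
  refine ⟨G * (C a * X + C b), ?_, ?_, ?_⟩
  · rw [hval]; exact hl0
  · rw [hval]; exact hl
  · intro τ hτ h3 h4
    have h5 := (mem_crt hm τ).1 hτ
    rw [hG, map_mul, hqev] at h5
    rcases mul_eq_zero.1 h5 with h6 | h6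
    · rcases mul_eq_zero.1 h6 with h7 | h7
      · exact absurd (sub_eq_zero.1 h7) h3
      · exact absurd (sub_eq_zero.1 h7) h4
    · rw [hP, h6, zero_mul]

lemma card_pos {F : ℝ[X]} (hm : F.Monic) (hsep : F.Separable) (g : ℕ)
    (hdeg : F.natDegree = 2 * g + 1)
    (huniq : ∀ a b : ℝ, F.eval a = 0 → F.eval b = 0 → a = b) :
    ((crt F).filter (fun ρ : ℂ => 0 < ρ.im)).card = g := by
  classical
  obtain ⟨hcard, -, -⟩ := crt_spec hm hsep
  have h1 : ((crt F).filter (fun ρ : ℂ => 0 < ρ.im)).card =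
      ((crt F).filter (fun ρ : ℂ => ρ.im < 0)).card := by
    refine Finset.card_nbij' (fun ρ => (starRingEnd ℂ) ρ) (fun ρ => (starRingEnd ℂ) ρ) ?_ ?_
      (fun ρ _ => Complex.conj_conj ρ) (fun ρ _ => Complex.conj_conj ρ)
    · intro ρ h
      rw [Finset.mem_coe, Finset.mem_filter] at h ⊢
      exact ⟨conj_mem_crt hm h.1, by rw [Complex.conj_im]; linarith [h.2]⟩
    · intro ρ h
      rw [Finset.mem_coe, Finset.mem_filter] at h ⊢
      exact ⟨conj_mem_crt hm h.1, by rw [Complex.conj_im]; linarith [h.2]⟩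
  have h2 : ((crt F).filter (fun ρ : ℂ => ρ.im = 0)).card ≤ 1 := by
    rw [Finset.card_le_one]
    have key : ∀ ρ ∈ (crt F).filter (fun ρ : ℂ => ρ.im = 0), ρ = ((ρ.re : ℝ) : ℂ) ∧
        F.eval ρ.re = 0 := by
      intro ρ h
      rw [Finset.mem_filter] at h
      have h3 : ρ = ((ρ.re : ℝ) : ℂ) := by
        apply Complex.ext
        · simp
        · simp [h.2]
      refine ⟨h3, ?_⟩
      have h4 := (mem_crt hm ρ).1 h.1
      rw [h3, aeval_def, ← Complex.coe_algebraMap, eval₂_at_apply] at h4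
      exact Complex.ofReal_eq_zero.1 h4
    intro ρ h τ h'
    obtain ⟨h3, h4⟩ := key ρ h
    obtain ⟨h5, h6⟩ := key τ h'
    rw [h3, h5, huniq _ _ h4 h6]
  have h3 : (crt F).card = ((crt F).filter (fun ρ : ℂ => 0 < ρ.im)).card +
      (((crt F).filter (fun ρ : ℂ => ρ.im < 0)).card +
        ((crt F).filter (fun ρ : ℂ => ρ.im = 0)).card) := by
    rw [← Finset.card_filter_add_card_filter_not (s := crt F) (fun ρ : ℂ => 0 < ρ.im)]
    congr 1
    rw [← Finset.card_filter_add_card_filter_not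
      (s := (crt F).filter (fun ρ : ℂ => ¬ 0 < ρ.im)) (fun ρ : ℂ => ρ.im < 0)]
    rw [Finset.filter_filter, Finset.filter_filter]
    congr 2
    · apply Finset.filter_congr
      intro ρ _
      constructor
      · exact fun h => h.2
      · exact fun h => ⟨by linarith, h⟩
    · apply Finset.filter_congr
      intro ρ _
      constructor
      · intro h
        exact le_antisymm (not_lt.1 h.1) (not_lt.1 h.2)
      · intro h
        rw [h]
        simp
  rw [hcard, hdeg] at h3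
  omega

theorem isotropic {F : ℝ[X]} (hm : F.Monic) (hsep : F.Separable) (g : ℕ)
    (hdeg : F.natDegree = 2 * g + 1)
    (huniq : ∀ a b : ℝ, F.eval a = 0 → F.eval b = 0 → a = b) (z : AdjoinRoot F) :
    ∃ X : Submodule ℝ (AdjoinRoot F), Module.finrank ℝ X = g ∧
      ∀ x ∈ X, ∀ y ∈ X, tau hm (z * x * y) = 0 := by
  classical
  obtain ⟨hcard, hder, hE⟩ := crt_spec hm hsep
  have hE := hE (by omega)
  obtain ⟨Z, rfl⟩ := AdjoinRoot.mk_surjective z
  set S : Finset ℂ := (crt F).filter (fun ρ : ℂ => 0 < ρ.im) with hS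
  have hSm : ∀ ρ : S, (ρ : ℂ) ∈ crt F := fun ρ => (Finset.mem_filter.1 ρ.2).1
  have hSi : ∀ ρ : S, 0 < (ρ : ℂ).im := fun ρ => (Finset.mem_filter.1 ρ.2).2
  have hex := fun ρ : S => exists_poly hm hsep Z (hSm ρ) (hSi ρ)
  choose P hP0 hPre hPz using hex
  set v : S → AdjoinRoot F := fun ρ => AdjoinRoot.mk F (P ρ) with hv
  have hzero : ∀ (ρ σ : S), ρ ≠ σ → ∀ τ ∈ crt F, aeval τ (P ρ) * aeval τ (P σ) = 0 := by
    intro ρ σ hne τ hτ
    by_cases h1 : τ = ρ
    · rw [hPz σ τ hτ, mul_zero]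
      · rw [h1]
        exact fun h => hne (Subtype.ext h)
      · intro h
        have h2 := hSi ρ
        have h3 := hSi σ
        rw [← h1, h, Complex.conj_im] at h2
        linarith
    by_cases h2 : τ = (starRingEnd ℂ) ρ
    · rw [hPz σ τ hτ, mul_zero]
      · intro h
        have h3 := hSi ρ
        have h4 := hSi σ
        rw [← h, h2, Complex.conj_im] at h4
        linarith
      · rw [h2]
        intro h
        exact hne (Subtype.ext ((starRingEnd ℂ).injective h))
    · rw [hPz ρ τ hτ h1 h2, zero_mul]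
  have hvi : LinearIndependent ℝ v := by
    rw [Fintype.linearIndependent_iff]
    intro c hc ρ
    have h1 : AdjoinRoot.mk F (∑ σ, C (c σ) * P σ) = 0 := by
      rw [map_sum, ← hc]
      apply Finset.sum_congr rfl
      intro σ _
      rw [map_mul, AdjoinRoot.mk_C, Algebra.smul_def]
      rfl
    have h2 : aeval (ρ : ℂ) (∑ σ, C (c σ) * P σ) = 0 := by
      obtain ⟨Q, hQ⟩ := AdjoinRoot.mk_eq_zero.1 h1
      rw [hQ, map_mul, (mem_crt hm _).1 (hSm ρ), zero_mul]
    rw [map_sum, Finset.sum_eq_single ρ] at h2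
    · rw [map_mul, aeval_C] at h2
      rcases mul_eq_zero.1 h2 with h3 | h3
      · exact Complex.ofReal_eq_zero.1 h3
      · exact absurd h3 (hP0 ρ)
    · intro σ _ hσ
      rw [map_mul]
      have h3 := hzero σ ρ hσ ρ (hSm ρ)
      rcases mul_eq_zero.1 h3 with h4 | h4
      · rw [h4, mul_zero]
      · exact absurd h4 (hP0 ρ)
    · intro h
      exact absurd (Finset.mem_univ ρ) h
  have hgen : ∀ ρ σ : S, tau hm (AdjoinRoot.mk F Z * v ρ * v σ) = 0 := by
    intro ρ σ
    have h1 : AdjoinRoot.mk F Z * v ρ * v σ = AdjoinRoot.mk F (Z * P ρ * P σ) := by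
      rw [map_mul, map_mul]
    have h2 := hE (Z * P ρ * P σ)
    rw [← h1] at h2
    have h3 : ∑ τ ∈ crt F, aeval τ (Z * P ρ * P σ) / aeval τ (derivative F) = 0 := by
      by_cases hne : ρ = σ
      · subst hne
        have hne2 : (ρ : ℂ) ≠ (starRingEnd ℂ) ρ := by
          intro h
          have h3 := hSi ρ
          rw [h, Complex.conj_im] at h3
          linarith [hSi ρ]
        rw [← Finset.sum_subset (s₁ := {(ρ : ℂ), (starRingEnd ℂ) ρ}), Finset.sum_pair hne2]
        · have h4 : ∀ τ : ℂ, aeval τ (Z * P ρ * P ρ) / aeval τ (derivative F) =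
              aeval τ (P ρ) ^ 2 * (aeval τ Z / aeval τ (derivative F)) := by
            intro τ
            rw [map_mul, map_mul]
            ring
          rw [h4, h4]
          have h5 : aeval ((starRingEnd ℂ) (ρ : ℂ)) (P ρ) ^ 2 *
              (aeval ((starRingEnd ℂ) (ρ : ℂ)) Z /
                aeval ((starRingEnd ℂ) (ρ : ℂ)) (derivative F)) =
              (starRingEnd ℂ) (aeval (ρ : ℂ) (P ρ) ^ 2 *
                (aeval (ρ : ℂ) Z / aeval (ρ : ℂ) (derivative F))) := by
            rw [aeval_conj', aeval_conj', aeval_conj', map_mul, map_pow, map_div₀]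
          rw [h5, Complex.add_conj, hPre ρ]
          simp
        · intro τ hτ
          rw [Finset.mem_insert, Finset.mem_singleton] at hτ
          rcases hτ with rfl | rfl
          · exact hSm ρ
          · exact conj_mem_crt hm (hSm ρ)
        · intro τ hτ hτ'
          rw [Finset.mem_insert, Finset.mem_singleton, not_or] at hτ'
          rw [map_mul, hPz ρ τ hτ hτ'.1 hτ'.2, mul_zero, zero_div]
      · apply Finset.sum_eq_zero
        intro τ hτ
        rw [map_mul, map_mul, mul_assoc, hzero ρ σ hne τ hτ, mul_zero, zero_div]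
    rw [h3] at h2
    exact Complex.ofReal_eq_zero.1 h2
  refine ⟨Submodule.span ℝ (Set.range v), ?_, ?_⟩
  · rw [finrank_span_eq_card hvi, Fintype.card_coe]
    exact card_pos hm hsep g hdeg huniq
  · have key : ∀ ρ : S, ∀ y ∈ Submodule.span ℝ (Set.range v),
        tau hm (AdjoinRoot.mk F Z * v ρ * y) = 0 := by
      intro ρ y hy
      induction hy using Submodule.span_induction with
      | mem y hy =>
        obtain ⟨σ, rfl⟩ := hy
        exact hgen ρ σ
      | zero => rw [mul_zero, map_zero]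
      | add x y _ _ hx hy => rw [mul_add, map_add, hx, hy, add_zero]
      | smul a x _ hx => rw [mul_smul_comm, map_smul, hx, smul_zero]
    intro x hx y hy
    induction hx using Submodule.span_induction with
    | mem x hx =>
      obtain ⟨σ, rfl⟩ := hx
      exact key σ y hy
    | zero => rw [mul_zero, zero_mul, map_zero]
    | add a b _ _ ha hb => rw [mul_add, add_mul, map_add, ha, hb, add_zero]
    | smul a x _ hx => rw [mul_smul_comm, smul_mul_assoc, map_smul, hx, smul_zero]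

/-! ### The region -/

lemma pow_lower {s t : ℝ} (hs : 0 ≤ s) (hst : s ≤ t) (n : ℕ) :
    (n + 1) * s ^ n * (t - s) ≤ t ^ (n + 1) - s ^ (n + 1) := by
  induction n with
  | zero => simp
  | succ n ih =>
    have h1 : t ^ (n + 1 + 1) - s ^ (n + 1 + 1) =
        t * (t ^ (n + 1) - s ^ (n + 1)) + s ^ (n + 1) * (t - s) := by ring
    have h2 : 0 ≤ (n + 1) * s ^ n * (t - s) := by
      have : 0 ≤ t - s := by linarith
      positivity
    have h3 : s * ((n + 1) * s ^ n * (t - s)) ≤ t * (t ^ (n + 1) - s ^ (n + 1)) :=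
      mul_le_mul hst ih h2 (hs.trans hst)
    rw [h1]
    push_cast
    have h4 : ((n : ℝ) + 1 + 1) * s ^ (n + 1) * (t - s) =
        s * ((n + 1) * s ^ n * (t - s)) + s ^ (n + 1) * (t - s) := by ring
    rw [h4]
    linarith

lemma pow_upper {s t : ℝ} (hs : 0 ≤ s) (hst : s ≤ t) (n : ℕ) :
    t ^ (n + 1) - s ^ (n + 1) ≤ (n + 1) * t ^ n * (t - s) := by
  induction n with
  | zero => simp
  | succ n ih =>
    have h1 : t ^ (n + 1 + 1) - s ^ (n + 1 + 1) =
        t * (t ^ (n + 1) - s ^ (n + 1)) + s ^ (n + 1) * (t - s) := by ring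
    have ht : 0 ≤ t := hs.trans hst
    have h3 : t * (t ^ (n + 1) - s ^ (n + 1)) ≤ t * ((n + 1) * t ^ n * (t - s)) :=
      mul_le_mul_of_nonneg_left ih ht
    have h5 : s ^ (n + 1) * (t - s) ≤ t ^ (n + 1) * (t - s) :=
      mul_le_mul_of_nonneg_right (pow_le_pow_left₀ hs hst _) (by linarith)
    rw [h1]
    push_cast
    have h4 : ((n : ℝ) + 1 + 1) * t ^ (n + 1) * (t - s) =
        t * ((n + 1) * t ^ n * (t - s)) + t ^ (n + 1) * (t - s) := by ring
    rw [h4]
    linarith

lemma sum_two_pow (n : ℕ) : ∑ i ∈ range n, (2 : ℝ) ^ i ≤ 2 ^ n := by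
  induction n with
  | zero => simp
  | succ n ih =>
    rw [sum_range_succ, pow_succ]
    linarith

lemma root_bound (g : ℕ) (d : ℕ → ℝ) (h1 : ∀ i ≤ 2 * g, |d i| ≤ 1) (t : ℝ)
    (ht : t ^ (2 * g + 1) + ∑ i ∈ range (2 * g + 1), d i * t ^ i = 0) : |t| ≤ 2 := by
  by_contra h
  push Not at h
  have h2 : |t| ^ (2 * g + 1) ≤ ∑ i ∈ range (2 * g + 1), |t| ^ i := by
    have h3 : t ^ (2 * g + 1) = -∑ i ∈ range (2 * g + 1), d i * t ^ i := by linarith
    calc |t| ^ (2 * g + 1) = |∑ i ∈ range (2 * g + 1), d i * t ^ i| := by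
          rw [← abs_pow, h3, abs_neg]
      _ ≤ ∑ i ∈ range (2 * g + 1), |d i * t ^ i| := abs_sum_le_sum_abs _ _
      _ ≤ ∑ i ∈ range (2 * g + 1), |t| ^ i := by
          apply sum_le_sum
          intro i hi
          rw [abs_mul, abs_pow]
          have h4 := h1 i (by rw [mem_range] at hi; omega)
          have h5 : 0 ≤ |t| ^ i := by positivity
          nlinarith
  have h3 : ∀ n : ℕ, ∑ i ∈ range n, |t| ^ i ≤ |t| ^ n - 1 := by
    intro n
    induction n with
    | zero => simp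
    | succ n ih =>
      rw [sum_range_succ, pow_succ]
      have h4 : 0 ≤ |t| ^ n := by positivity
      nlinarith
  have h4 := h3 (2 * g + 1)
  linarith

lemma root_lower (g : ℕ) (d : ℕ → ℝ) (h1 : ∀ i, 1 ≤ i → i ≤ 2 * g → 2 ^ (2 * g + 5) * |d i| ≤ 1)
    (h0 : -1 ≤ d 0) (h0' : d 0 ≤ -1 / 2) (t : ℝ)
    (ht : t ^ (2 * g + 1) + ∑ i ∈ range (2 * g + 1), d i * t ^ i = 0) :
    |t| ≤ 2 ∧ 7 / 16 ≤ t ^ (2 * g + 1) := by
  have hb : |t| ≤ 2 := by
    refine root_bound g d ?_ t ht
    intro i hi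
    by_cases h : i = 0
    · rw [h, abs_le]
      constructor <;> linarith
    · have h2 := h1 i (by omega) hi
      have h3 : (1 : ℝ) ≤ 2 ^ (2 * g + 5) := one_le_pow₀ (by norm_num)
      have h4 := abs_nonneg (d i)
      nlinarith
  refine ⟨hb, ?_⟩
  rw [sum_range_succ'] at ht
  simp only [pow_zero, mul_one] at ht
  have h2 : |∑ i ∈ range (2 * g), d (i + 1) * t ^ (i + 1)| ≤ 1 / 16 := by
    calc |∑ i ∈ range (2 * g), d (i + 1) * t ^ (i + 1)|
        ≤ ∑ i ∈ range (2 * g), |d (i + 1) * t ^ (i + 1)| := abs_sum_le_sum_abs _ _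
      _ ≤ ∑ i ∈ range (2 * g), (1 / 2 ^ (2 * g + 5)) * (2 * 2 ^ i) := by
          apply sum_le_sum
          intro i hi
          rw [mem_range] at hi
          rw [abs_mul, abs_pow]
          have h3 := h1 (i + 1) (by omega) (by omega)
          have h4 : |d (i + 1)| ≤ 1 / 2 ^ (2 * g + 5) := by
            rw [le_div_iff₀ (by positivity), mul_comm]
            exact h3
          have h5 : |t| ^ (i + 1) ≤ 2 * 2 ^ i := by
            calc |t| ^ (i + 1) ≤ 2 ^ (i + 1) := pow_le_pow_left₀ (abs_nonneg t) hb _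
              _ = 2 * 2 ^ i := by ring
          exact mul_le_mul h4 h5 (by positivity) (by positivity)
      _ = (1 / 2 ^ (2 * g + 5)) * 2 * ∑ i ∈ range (2 * g), (2 : ℝ) ^ i := by
          rw [mul_sum]
          apply sum_congr rfl
          intro i _
          ring
      _ ≤ (1 / 2 ^ (2 * g + 5)) * 2 * 2 ^ (2 * g) := by
          apply mul_le_mul_of_nonneg_left (sum_two_pow _) (by positivity)
      _ = 1 / 16 := by
          rw [pow_add]
          field_simp
          norm_num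
  have h3 := (abs_le.1 h2).2
  linarith

lemma root_unique_lt (g : ℕ) (d : ℕ → ℝ)
    (h1 : ∀ i, 1 ≤ i → i ≤ 2 * g → 2 ^ (2 * g + 5) * |d i| ≤ 1)
    (h0 : -1 ≤ d 0) (h0' : d 0 ≤ -1 / 2) (s t : ℝ)
    (hs : s ^ (2 * g + 1) + ∑ i ∈ range (2 * g + 1), d i * s ^ i = 0)
    (ht : t ^ (2 * g + 1) + ∑ i ∈ range (2 * g + 1), d i * t ^ i = 0) : ¬ s < t := by
  intro hst
  obtain ⟨hs2, hs3⟩ := root_lower g d h1 h0 h0' s hs
  obtain ⟨ht2, ht3⟩ := root_lower g d h1 h0 h0' t ht
  have hodd : Odd (2 * g + 1) := ⟨g, rfl⟩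
  have hs0 : 0 < s := by
    rw [← hodd.pow_pos_iff]
    linarith
  have hs4 : s ≤ 2 := (le_abs_self s).trans hs2
  have ht4 : t ≤ 2 := (le_abs_self t).trans ht2
  have hs5 : 7 / 32 ≤ s ^ (2 * g) := by
    rw [pow_succ] at hs3
    have : 0 ≤ s ^ (2 * g) := by positivity
    nlinarith
  have hL := pow_lower hs0.le hst.le (2 * g)
  rw [sum_range_succ'] at hs ht
  simp only [pow_zero, mul_one] at hs ht
  have h2 : |∑ i ∈ range (2 * g), d (i + 1) * (t ^ (i + 1) - s ^ (i + 1))| ≤
      (2 * g) / 32 * (t - s) := by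
    calc |∑ i ∈ range (2 * g), d (i + 1) * (t ^ (i + 1) - s ^ (i + 1))|
        ≤ ∑ i ∈ range (2 * g), |d (i + 1) * (t ^ (i + 1) - s ^ (i + 1))| :=
          abs_sum_le_sum_abs _ _
      _ ≤ ∑ i ∈ range (2 * g), (1 / 2 ^ (2 * g + 5)) * (2 * g * 2 ^ i * (t - s)) := by
          apply sum_le_sum
          intro i hi
          rw [mem_range] at hi
          have h5 : 0 ≤ t ^ (i + 1) - s ^ (i + 1) := by
            have := pow_le_pow_left₀ hs0.le hst.le (i + 1)
            linarith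
          rw [abs_mul, abs_of_nonneg h5]
          have h3 := h1 (i + 1) (by omega) (by omega)
          have h4 : |d (i + 1)| ≤ 1 / 2 ^ (2 * g + 5) := by
            rw [le_div_iff₀ (by positivity), mul_comm]
            exact h3
          have h6 : t ^ (i + 1) - s ^ (i + 1) ≤ 2 * g * 2 ^ i * (t - s) := by
            refine (pow_upper hs0.le hst.le i).trans ?_
            apply mul_le_mul_of_nonneg_right _ (by linarith)
            have h7 : ((i : ℝ) + 1) ≤ 2 * g := by exact_mod_cast hi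
            have h8 : t ^ i ≤ 2 ^ i := pow_le_pow_left₀ (by linarith) ht4 i
            exact mul_le_mul h7 h8 (by have : 0 < t := by linarith
                                       positivity) (by positivity)
          exact mul_le_mul h4 h6 h5 (by positivity)
      _ = (1 / 2 ^ (2 * g + 5)) * (2 * g) * (t - s) * ∑ i ∈ range (2 * g), (2 : ℝ) ^ i := by
          rw [mul_sum]
          apply sum_congr rfl
          intro i _
          ring
      _ ≤ (1 / 2 ^ (2 * g + 5)) * (2 * g) * (t - s) * 2 ^ (2 * g) := by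
          apply mul_le_mul_of_nonneg_left (sum_two_pow _)
          have : 0 ≤ t - s := by linarith
          positivity
      _ = (2 * g) / 32 * (t - s) := by
          rw [pow_add]
          field_simp
          norm_num
          ring
  have h3 : ∑ i ∈ range (2 * g), d (i + 1) * (t ^ (i + 1) - s ^ (i + 1)) =
      ∑ i ∈ range (2 * g), d (i + 1) * t ^ (i + 1) -
        ∑ i ∈ range (2 * g), d (i + 1) * s ^ (i + 1) := by
    rw [← sum_sub_distrib]
    apply sum_congr rfl
    intro i _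
    ring
  rw [h3] at h2
  have h4 := (abs_le.1 h2).1
  have h5 : t ^ (2 * g + 1) - s ^ (2 * g + 1) ≤ (2 * g) / 32 * (t - s) := by linarith
  have h6 : (((2 * g : ℕ) : ℝ) + 1) * (7 / 32) * (t - s) ≤ (2 * g) / 32 * (t - s) := by
    refine le_trans ?_ (hL.trans h5)
    apply mul_le_mul_of_nonneg_right _ (by linarith)
    apply mul_le_mul_of_nonneg_left hs5 (by positivity)
  push_cast at h6
  have h7 : 0 < t - s := by linarith
  have h8 : (0 : ℝ) ≤ g := Nat.cast_nonneg g
  nlinarith [mul_nonneg h8 h7.le]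

lemma reg_unique {g H : ℕ} (hH : 1 ≤ H) {f : ℤ[X]} (hf : f ∈ Reg g H) (a b : ℝ)
    (ha : ((fK f).map (algebraMap ℚ ℝ)).eval a = 0)
    (hb : ((fK f).map (algebraMap ℚ ℝ)).eval b = 0) : a = b := by
  obtain ⟨hm, hdeg, hc, hc0, hc0'⟩ := hf
  have hH0 : (0 : ℝ) < H := by exact_mod_cast hH
  set d : ℕ → ℝ := fun i => (f.coeff i : ℝ) / (H : ℝ) ^ (2 * g + 1 - i) with hd
  have h1 : ∀ i, 1 ≤ i → i ≤ 2 * g → 2 ^ (2 * g + 5) * |d i| ≤ 1 := by
    intro i hi hi'
    have h2 := hc i hi hi'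
    have h3 : (2 : ℝ) ^ (2 * g + 5) * |(f.coeff i : ℝ)| ≤ (H : ℝ) ^ (2 * g + 1 - i) := by
      exact_mod_cast h2
    rw [hd]
    simp only
    rw [abs_div, abs_of_pos (by positivity : (0 : ℝ) < (H : ℝ) ^ (2 * g + 1 - i)), ← mul_div_assoc,
      div_le_one (by positivity)]
    exact h3
  have h0 : -1 ≤ d 0 := by
    have h3 : -(H : ℝ) ^ (2 * g + 1) ≤ (f.coeff 0 : ℝ) := by exact_mod_cast hc0
    rw [hd]
    simp only [Nat.sub_zero]
    rw [le_div_iff₀ (by positivity)]
    linarith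
  have h0' : d 0 ≤ -1 / 2 := by
    have h3 : 2 * (f.coeff 0 : ℝ) ≤ -(H : ℝ) ^ (2 * g + 1) := by exact_mod_cast hc0'
    rw [hd]
    simp only [Nat.sub_zero]
    rw [div_le_iff₀ (by positivity)]
    linarith
  have hev : ∀ x : ℝ, ((fK f).map (algebraMap ℚ ℝ)).eval x = 0 →
      (x / H) ^ (2 * g + 1) + ∑ i ∈ range (2 * g + 1), d i * (x / H) ^ i = 0 := by
    intro x hx
    have hF : (fK f).map (algebraMap ℚ ℝ) = f.map (Int.castRingHom ℝ) := by
      rw [fK, Polynomial.map_map]
      congr 1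
    have hFd : (f.map (Int.castRingHom ℝ)).natDegree = 2 * g + 1 := by
      rw [hm.natDegree_map, hdeg]
    rw [hF, eval_eq_sum_range, hFd, sum_range_succ] at hx
    have hlc : (f.map (Int.castRingHom ℝ)).coeff (2 * g + 1) = 1 := by
      rw [coeff_map, ← hdeg]
      have : f.coeff f.natDegree = 1 := hm
      rw [this]
      simp
    rw [hlc, one_mul] at hx
    have h3 : (H : ℝ) ^ (2 * g + 1) * ((x / H) ^ (2 * g + 1) +
        ∑ i ∈ range (2 * g + 1), d i * (x / H) ^ i) = 0 := by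
      rw [mul_add, mul_sum, ← hx, add_comm]
      congr 1
      · apply sum_congr rfl
        intro i hi
        rw [mem_range] at hi
        rw [coeff_map, hd]
        simp only
        have h4 : (H : ℝ) ^ (2 * g + 1) = (H : ℝ) ^ (2 * g + 1 - i) * (H : ℝ) ^ i := by
          rw [← pow_add]
          congr 1
          omega
        rw [h4, div_pow]
        have h5 : (Int.castRingHom ℝ) (f.coeff i) = (f.coeff i : ℝ) := rfl
        rw [h5]
        field_simp
      · rw [div_pow]
        field_simp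
    rcases mul_eq_zero.1 h3 with h4 | h4
    · exact absurd h4 (by positivity)
    · exact h4
  have ha' := hev a ha
  have hb' := hev b hb
  have h4 := root_unique_lt g d h1 h0 h0' _ _ ha' hb'
  have h5 := root_unique_lt g d h1 h0 h0' _ _ hb' ha'
  have h6 : a / H = b / H := le_antisymm (not_lt.1 h5) (not_lt.1 h4)
  field_simp at h6
  exact h6

end HjAux

theorem hHj : StHj := by
  intro g H hg hH f hf hm hirr z
  refine HjAux.isotropic hm hirr.separable.map g ?_ (HjAux.reg_unique hH hf) z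
  have h1 : ((fK f).map (algebraMap ℚ ℝ)).natDegree = (fK f).natDegree :=
    (hf.1.map (Int.castRingHom ℚ)).natDegree_map _
  rw [h1, hf.1.natDegree_map, hf.2.1]

end Pool.Agent.Helper54.HQ
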