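import Pool.Agent.Helper54.HQ.DefsU

/-!
# HQ: the sieve over `ℤ` (statements)

`N = 2 g + 1`.  Lower bound for the number of polynomials in the region with local conditions at finitely
many primes, and upper bound for the number of polynomials which satisfy `Strong p` for some large `p`
(Ekedahl sieve, with the discriminant of the polynomial of critical values).
-/

set_option autoImplicit false

namespace Pool.Agent.Helper54.HQ

open Polynomial Finset Filter Topology Matrix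
open Pool.Agent.Helper3.HY (co tau Ix nu TType IType rho2 exc Adm)

/-- The monic polynomial `x ^ N + ∑ c_i x ^ i`. -/
noncomputable def mkP {R : Type} [CommRing R] {N : ℕ} (c : Fin N → R) : R[X] :=
  X ^ N + ∑ i : Fin N, C (c i) * X ^ (i : ℕ)

/-- Sp (basic facts). -/
def StSp : Prop :=
  (∀ (R : Type) [CommRing R] [Nontrivial R] (N : ℕ) (c : Fin N → R),
      (mkP c).Monic ∧ (mkP c).natDegree = N ∧ ∀ i : Fin N, (mkP c).coeff i = c i) ∧
  (∀ (R : Type) [CommRing R] [Nontrivial R] (N : ℕ) (f : R[X]), f.Monic → f.natDegree = N →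
      f = mkP (fun i : Fin N => f.coeff i)) ∧
  ∀ (R S : Type) [CommRing R] [CommRing S] (φ : R →+* S) (N : ℕ) (c : Fin N → R),
      (mkP c).map φ = mkP (fun i => φ (c i))

/-- Sa (lower equidistribution in boxes).  `Q = ∏ q_i`.  By the Chinese remainder theorem
(`ZMod.prodEquivPi`) there are `∏ #A_i` tuples `a` of residues modulo `Q` with reductions in the `A_i`; for
such an `a` and `0 ≤ t_j < n_j` take `c_j = l_j + ((a_j - l_j) mod Q) + t_j Q ∈ [l_j, r_j]`: an injective map. -/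
def StSa : Prop :=
  ∀ (N : ℕ) (ι : Type) [Fintype ι] [DecidableEq ι] (q : ι → ℕ), (∀ i, 0 < q i) →
    (∀ i j, i ≠ j → (q i).Coprime (q j)) → ∀ (A : ∀ i, Finset (Fin N → ZMod (q i)))
    (l r : Fin N → ℤ) (n : Fin N → ℕ), (∀ j, (n j : ℤ) * ∏ i, (q i : ℤ) ≤ r j - l j + 1) →
    (∏ i, (A i).card) * ∏ j, n j ≤
      {c : Fin N → ℤ | (∀ j, l j ≤ c j ∧ c j ≤ r j) ∧
        ∀ i, (fun j => (c j : ZMod (q i))) ∈ A i}.ncard

/-- Sw (Weak, local count).  If `p ∣ f'(r)` then `f(r + p s) ≡ f(r) mod p²`, so the condition at `r` depends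
only on `r mod p`.  For fixed `0 ≤ r < p` and fixed `c_2, .., c_(N-1) mod p²` the residue `c_1 mod p` is
determined by `f'(r) ≡ 0 mod p` (`p` choices modulo `p²`) and then `c_0 mod p²` by `f(r) ≡ 0`:
`p · p^(2(N-2)) · p` classes. -/
def StSw : Prop :=
  ∀ (N p : ℕ), 2 ≤ N → p.Prime → ∃ W : Finset (Fin N → ZMod (p ^ 2)), W.card ≤ p ^ (2 * N - 2) ∧
    ∀ c : Fin N → ℤ, Weak p (mkP c) → (fun j => (c j : ZMod (p ^ 2))) ∈ W

/-- Ss (Strong, local count).  `f̄ = φ² h`, `φ` monic of degree `d ≥ 2`, `h` monic of degree `N - 2 d`: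
at most `p^d p^(N-2d) = p^(N-d)` polynomials; `∑_(d≥2) p^(N-d) ≤ 2 p^(N-2)`. -/
def StSs : Prop :=
  ∀ (N p : ℕ), 2 ≤ N → p.Prime → ∃ W : Finset (Fin N → ZMod p), W.card ≤ 2 * p ^ (N - 2) ∧
    ∀ c : Fin N → ℤ, Strong p (mkP c) → (fun j => (c j : ZMod p)) ∈ W

/-- Sl (good classes modulo `p²`).  The complement of the union of the set of Sw and of the preimage of
the set of Ss (every class modulo `p` has `p^N` preimages). -/
def StSl : Prop :=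
  ∀ (N p : ℕ), 2 ≤ N → p.Prime → ∃ A : Finset (Fin N → ZMod (p ^ 2)),
    (1 - 3 / (p : ℝ) ^ 2) * ((p : ℝ) ^ 2) ^ N ≤ A.card ∧
    ∀ c : Fin N → ℤ, (fun j => (c j : ZMod (p ^ 2))) ∈ A →
      ¬ Weak p (mkP c) ∧ ¬ Strong p (mkP c)

/-- Sd (the special class modulo `2 N²`).  Modulo 2: an irreducible polynomial of degree `N` over `𝔽_2` (the
minimal polynomial of a primitive element of `𝔽_(2^N)`); modulo `N²`: `x^N + r`, `r = ∏_(p ∣ N) p`
(CRT).  `p = 2`: an irreducible polynomial of degree `≥ 3` has no root and no square factor.  `p ∣ N`: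
`f ≡ x^N mod p`, so `φ² ∣ f̄` gives `φ = x`; and `f(s) ≡ 0 mod p` gives `p ∣ s`, `f(s) ≡ r mod p²`, `r ≢ 0`
modulo `p²`.  The coefficient of `x^(2g)` is divisible by `N²`. -/
def StSd : Prop :=
  ∀ g : ℕ, 1 ≤ g → ∃ a : Fin (2 * g + 1) → ZMod (2 * (2 * g + 1) ^ 2), ∀ c : Fin (2 * g + 1) → ℤ,
    (fun j => (c j : ZMod (2 * (2 * g + 1) ^ 2))) = a →
    ((2 * g + 1 : ℕ) : ℤ) ∣ (mkP c).coeff (2 * g) ∧
    Irreducible ((mkP c).map (Int.castRingHom (ZMod 2))) ∧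
    ∀ p : ℕ, p.Prime → p ∣ 2 * (2 * g + 1) → ¬ Weak p (mkP c) ∧ ¬ Strong p (mkP c)

/-- Se (the product).  `1 - 3/n² ≥ 1 - 4/n² = (n-2)(n+2)/n²`; the factors are at most 1, so the product is at
least the product over all odd `3 ≤ n ≤ K`, which is at least `∏ (n-2)/n · ∏ (n+2)/n = (1/K) (K+2)/3`. -/
def StSe : Prop :=
  ∀ S : Finset ℕ, (∀ p ∈ S, 3 ≤ p ∧ p % 2 = 1) → 1 / 3 ≤ ∏ p ∈ S, (1 - 3 / (p : ℝ) ^ 2)

/-- St (the primes of `T`).  `A` is the set of the tuples whose polynomial lies in `TType`.  A polynomial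
`(x - a) p`, `p` irreducible of degree `2 g ≥ 2`, over the perfect field `𝔽_P` is squarefree, and has no
double root (`Weak` gives a common root of `f̄` and `f̄'`). -/
def StSt : Prop :=
  ∀ (g : ℕ), 1 ≤ g → ∀ (P : Prm), ∃ A : Finset (Fin (2 * g + 1) → kp P),
    A.card = (TType (kp P) g).ncard ∧ ∀ c : Fin (2 * g + 1) → ℤ, (fun j => (c j : kp P)) ∈ A →
      (mkP c).map (red P) ∈ TType (kp P) g ∧ ¬ Weak (P : ℕ) (mkP c) ∧ ¬ Strong (P : ℕ) (mkP c)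

/-- The main lower bound.  Sa with the moduli `2 N²` (Sd), `P` for `P ∈ T` (St), `p²` for the other odd
primes `p ≤ M` not dividing `N` (Sl): for every modulus `q_i` a set `A_i` of at least `δ_i q_i^N` classes.
The box of `Reg`: for `1 ≤ i ≤ 2g` the interval `|c_i| ≤ H^(N-i) / 2^(N+4)`, for `i = 0` the interval
`[-H^N, -H^N/2]`; with `Q = ∏ q_i` and `H` large it contains at least `n_i Q` integers with
`n_i Q ≥ H^(N-i) / 2^(N+5)`.  So the number is at least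
`∏ δ_i ∏ (Q n_i) ≥ (2N²)^(-N) (1/3) ∏ dens · 2^(-N(N+5)) H^(N(N+1)/2)` (Se). -/
def StSieve : Prop :=
  ∀ g : ℕ, 1 ≤ g → ∃ c₀ : ℝ, 0 < c₀ ∧ ∀ T : Finset Prm, (∀ P ∈ T, 2 * g + 1 < (P : ℕ)) →
    ∀ M : ℕ, ∀ᶠ H : ℕ in atTop, (SvMain g H T M).Finite ∧
      c₀ * (∏ P ∈ T, dens g P) * (H : ℝ) ^ ((g + 1) * (2 * g + 1)) ≤
        ((SvMain g H T M).ncard : ℝ)

/-! ### Strong for large primes -/

/-- Ta (`p ≤ H`).  `Fam N H` is in bijection with a box (Sp); a class modulo `p` contains at most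
`(2 H^k + 1)/p + 1 ≤ 4 H^k / p` integers `|c| ≤ H^k` (`1 ≤ k`, `p ≤ H`); Ss. -/
def StTa : Prop :=
  ∀ (N H : ℕ), 2 ≤ N → (Fam N H).Finite ∧ ∀ p : ℕ, p.Prime → p ≤ H →
    ({f | f ∈ Fam N H ∧ Strong p f}.ncard : ℝ) ≤
      2 * 4 ^ N * (H : ℝ) ^ (N * (N + 1) / 2) / (p : ℝ) ^ 2

/-- The resultant of `f'` and `f - t`, a polynomial in `t`. -/
noncomputable def critP {R : Type} [CommRing R] (N : ℕ) (f : R[X]) : R[X] :=
  resultant (f.derivative.map (C : R →+* R[X])) (f.map (C : R →+* R[X]) - C X) (N - 1) N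

/-- Its discriminant (resultant with the derivative). -/
noncomputable def critD {R : Type} [CommRing R] (N : ℕ) (f : R[X]) : R :=
  resultant (critP N f) (derivative (critP N f)) (N - 1) (N - 2)

/-- Tc (critical values).  Compatibility with ring homomorphisms: `resultant_map_map`.  `K` algebraically
closed, `f' = N ∏ (X - ξ_j)` (`N - 1` factors): `resultant_eq_prod_eval` over the domain `K[t]` gives
`critP N f = C (N^N) ∏_j (C (f(ξ_j)) - X)`, of degree `N - 1`, split.  By `resultant_eq_prod_eval` again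
`critD N f = lc^(N-2) ∏_(roots v of critP) (critP)'(v)`: it vanishes iff `critP` has a double root. -/
def StTc : Prop :=
  (∀ (R S : Type) [CommRing R] [CommRing S] (φ : R →+* S) (N : ℕ) (f : R[X]),
      critD N (f.map φ) = φ (critD N f)) ∧
  ∀ (K : Type) [Field K] [IsAlgClosed K] (N : ℕ), 3 ≤ N → (N : K) ≠ 0 → ∀ f : K[X], f.Monic →
    f.natDegree = N →
    ((∃ x y, x ≠ y ∧ f.derivative.IsRoot x ∧ f.derivative.IsRoot y ∧ f.eval x = f.eval y) →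
      critD N f = 0) ∧
    (f.derivative.Separable → (∀ x y, f.derivative.IsRoot x → f.derivative.IsRoot y →
      f.eval x = f.eval y → x = y) → critD N f ≠ 0)

/-- Td (elimination of the constant coefficient).  `D = critD N F`,
`F = x^N + ∑_i X_i x^(i+1)` over `ℤ[X_0, .., X_(N-2)]`.  If `Strong p f`, `p > N`: over the algebraic closure
`K` of `𝔽_p` the polynomial `φ` (irreducible over the perfect field `𝔽_p`, degree `≥ 2`) has two different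
roots `ξ, ξ'`, double roots of `f̄`: so `f̄'(ξ) = f̄'(ξ') = 0`, `f̄(ξ) = f̄(ξ') = 0`, also for
`f - c_0 = F(c)`: `D(c) = 0` in `K` by Tc.  `D ≠ 0`: evaluate at `f_0 = x^N - N x` over `ℂ`:
`f_0' = N (x^(N-1) - 1)` is separable, `f_0(ζ) = (1 - N) ζ` at its roots. -/
def StTd : Prop :=
  ∀ N : ℕ, 3 ≤ N → ∃ D : MvPolynomial (Fin (N - 1)) ℤ, D ≠ 0 ∧ ∀ p : ℕ, p.Prime → N < p →
    ∀ c : Fin N → ℤ, Strong p (mkP c) →
    (p : ℤ) ∣ MvPolynomial.eval (fun i : Fin (N - 1) => c ⟨(i : ℕ) + 1, by omega⟩) D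

/-- Te (zeros of `D` in the box).  `MvPolynomial.schwartz_zippel_sum_degreeOf` with the sets
`S_i = {|x| ≤ H^(N-1-i)}` of cardinality `≥ H`, times `2 H^N + 1` choices for `c_0`. -/
def StTe : Prop :=
  ∀ (N : ℕ), 2 ≤ N → ∀ (D : MvPolynomial (Fin (N - 1)) ℤ), D ≠ 0 → ∃ K : ℝ, 0 < K ∧ ∀ H : ℕ, 1 ≤ H →
    ({c : Fin N → ℤ | (∀ i, |c i| ≤ (H : ℤ) ^ (N - (i : ℕ))) ∧
      MvPolynomial.eval (fun i : Fin (N - 1) => c ⟨(i : ℕ) + 1, by omega⟩) D = 0}.ncard : ℝ) * H ≤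
      K * (H : ℝ) ^ (N * (N + 1) / 2)

/-- Tf (few residues of the constant coefficient).  As in Td: `c_0 ≡ - F_c(ξ)` for a root `ξ` of `f̄'` in
`K`, `f̄'` is nonzero of degree `N - 1`. -/
def StTf : Prop :=
  ∀ (N p : ℕ), 3 ≤ N → p.Prime → N < p → ∀ c' : Fin N → ℤ, ∃ E : Finset (ZMod p),
    E.card ≤ N - 1 ∧ ∀ c : Fin N → ℤ, (∀ i : Fin N, (i : ℕ) ≠ 0 → c i = c' i) →
      Strong p (mkP c) → ∀ i₀ : Fin N, (i₀ : ℕ) = 0 → (c i₀ : ZMod p) ∈ E

/-- Tg (few large primes).  `|D(c)| ≤ ‖D‖₁ H^(N deg D) ≤ H^K` for `H ≥ 2`; the product of the primes of `S`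
divides `D(c) ≠ 0` and is at least `H^#S`. -/
def StTg : Prop :=
  ∀ (N : ℕ) (D : MvPolynomial (Fin (N - 1)) ℤ), ∃ K : ℕ, ∀ H : ℕ, 2 ≤ H →
    ∀ c : Fin (N - 1) → ℤ, (∀ i, |c i| ≤ (H : ℤ) ^ N) → MvPolynomial.eval c D ≠ 0 →
    ∀ S : Finset ℕ, (∀ p ∈ S, p.Prime ∧ H < p ∧ (p : ℤ) ∣ MvPolynomial.eval c D) → S.card ≤ K

/-- Tb (large primes).  `c' = (c_i)_(i≥1)`: at most `3^(N-1) H^(N(N-1)/2)` of them.  `D(c') = 0`: Te.
`D(c') ≠ 0`: at most `K` primes `p > H` divide `D(c')` (Td, Tg), for each at most `N - 1` residues of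
`c_0` (Tf), each with at most `(2 H^N + 1)/p + 1 ≤ 4 H^(N-1)` values. -/
def StTb : Prop :=
  ∀ N : ℕ, 3 ≤ N → ∃ K : ℝ, 0 < K ∧ ∀ H : ℕ, 2 ≤ H →
    ({f | f ∈ Fam N H ∧ ∃ p : ℕ, p.Prime ∧ H < p ∧ N < p ∧ Strong p f}.ncard : ℝ) * H ≤
      K * (H : ℝ) ^ (N * (N + 1) / 2)

/-- The tail.  Ta for `M < p ≤ H` (`∑_(n > M) 1/n² ≤ 1/M`) and Tb for `p > H`.
`N (N + 1) / 2 = (g + 1) (2 g + 1)`. -/
def StStrong : Prop :=
  ∀ g : ℕ, 1 ≤ g → ∃ C₂ : ℝ, 0 < C₂ ∧ ∀ M H : ℕ, 1 ≤ M → M ≤ H → 2 * g + 1 ≤ H →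
    ({f | f ∈ Fam (2 * g + 1) H ∧ ∃ p : ℕ, p.Prime ∧ M < p ∧ Strong p f}.ncard : ℝ) ≤
      C₂ / M * (H : ℝ) ^ ((g + 1) * (2 * g + 1))

/-- Dn (the primes).  `TType` is not empty (irreducible polynomials of every degree exist) and finite;
there are infinitely many primes `≡ 1 mod 8` (`Nat.exists_prime_gt_modEq_one`). -/
def StDn : Prop :=
  ∀ g : ℕ, 1 ≤ g → (∀ P : Prm, 0 < dens g P) ∧
    ∀ n : ℕ, ∃ T : Finset Prm, T.card = n ∧ ∀ P ∈ T, (P : ℕ) % 8 = 1 ∧ 2 * g + 1 < (P : ℕ)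

end Pool.Agent.Helper54.HQ
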