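import Pool.Agent.Helper54.HQ.StI
import Pool.Agent.Helper54.HQ.StS

/-!
# HQ: final counting (statements)
-/

set_option autoImplicit false

namespace Pool.Agent.Helper54.HQ

open Polynomial Finset Filter Topology Matrix IsDedekindDomain
open Pool.Agent.Helper3.HY (co tau Ix nu TType IType baseChange descentGroup IsPointValue IsTwPoint
  twGroup)

/-- The 2-Selmer set of `y² = f` is trivial (only the finite places are used). -/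
def Triv (f : ℤ[X]) : Prop :=
  ∀ z : (LL f)ˣ, IsSquare (Algebra.norm ℚ (z : LL f)) →
    (∀ (p : ℕ) [Fact p.Prime], Units.map (baseChange (algebraMap ℚ ℚ_[p]) (fK f) : LL f →* _) z ∈
      descentGroup ((fK f).map (algebraMap ℚ ℚ_[p]))) → IsSquare z

/-- The polynomials with `c_1 = 0`. -/
def Fam0 (N H : ℕ) : Set ℤ[X] := {f | f ∈ Fam N H ∧ f.coeff (N - 1) = 0}

/-- Pol (one polynomial).  `f ∈ Good`: De1 (irreducible over `ℚ`), De2, De4 (`Smooth`), De3: the instances.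
If a class `α` with square norm, even valuations, locally a square at `T`, is not a square then
`f ∈ BadSet` by Ck (`Reg ⊆ Fam` by Wb); so the hypothesis of Tw holds. -/
def StPol : Prop :=
  ∀ g : ℕ, 1 ≤ g → ∃ (C : ℝ) (κ : ℕ), 1 ≤ C ∧ ∀ H : ℕ, 1 ≤ H →
    ∀ T : Finset Prm, (∀ P ∈ T, (P : ℕ) % 8 = 1) → ∀ f ∈ Good g H T, f ∉ BadSet g C κ H T →
      Irreducible (fK f) ∧ ∃ R ⊆ T, Triv (f.scaleRoots (∏ P ∈ R, pz P))

/-- Good (many good polynomials).  Let `C', κ'` be the constants of Wf, `C'' = max C C'`, `κ'' = max κ κ'`.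
Let `f ∈ SvMain g H T M`, `M ≥ 2`, `f ∉ Good`: then `Weak p f` or `Strong p f` for a prime `p > M`.  In the
first case (`f` is irreducible by De1) Wf gives `f ∈ BadSet g C' κ' H T ∪ DeepSet g C' κ' H M`, in the second
`f` is in the set of StStrong (`Reg ⊆ Fam`, Wb).  So (Wg)
`SvMain ⊆ {good} ∪ BadSet g C'' κ'' H T ∪ DeepSet g C'' κ'' H M ∪ {Strong for some p > M}`.  With the constants
`c₀` (StSieve), `C₀` (StU), `C₁` (StDeep), `C₂` (StStrong): choose `n` with `C₀ 2^(-n) ≤ c₀ / 4`, `T` with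
`#T = n` (Dn), `d = ∏ dens > 0`, `ε = c₀ d / 8`, `M ≥ 2` with `C₁ / √M + C₂ / M ≤ c₀ d / 8`: `δ = c₀ d / 2`. -/
def StGood : Prop :=
  ∀ g : ℕ, 1 ≤ g → ∀ (C : ℝ) (κ : ℕ), 1 ≤ C → ∃ (T : Finset Prm) (δ : ℝ),
    (∀ P ∈ T, (P : ℕ) % 8 = 1) ∧ 0 < δ ∧ ∀ᶠ H : ℕ in atTop,
      {f | f ∈ Good g H T ∧ f ∉ BadSet g C κ H T}.Finite ∧
      δ * (H : ℝ) ^ ((g + 1) * (2 * g + 1)) ≤
        ({f | f ∈ Good g H T ∧ f ∉ BadSet g C κ H T}.ncard : ℝ)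

/-- Fs (scaling). -/
def StFs : Prop :=
  ∀ (N H D : ℕ), 1 ≤ D → (∀ f ∈ Fam N H, f.scaleRoots (D : ℤ) ∈ Fam N (H * D) ∧
      (∀ m : ℤ, m ∣ f.coeff (N - 1) → m ∣ (f.scaleRoots (D : ℤ)).coeff (N - 1)) ∧
      (Irreducible (fK f) → Irreducible (fK (f.scaleRoots (D : ℤ))))) ∧
    (∀ f ∈ Fam N H, ∀ f' ∈ Fam N H, f.scaleRoots (D : ℤ) = f'.scaleRoots (D : ℤ) → f = f') ∧
    ∀ H' : ℕ, H ≤ H' → Fam N H ⊆ Fam N H'

/-- Pos (positive proportion, all `c_1` divisible by `N`).  `C, κ` from Pol, `T`, `δ` from Good.  For large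
`H` put `D = ∏_(P ∈ T) P`, `H₁ = ⌊H / D⌋ ≥ H / (2 D)`.  For every good `f` at height `H₁` choose `R ⊆ T`; for some
`R` there are at least `2^(-#T) δ H₁^(n₂)` polynomials `f` with this `R`; `f ↦ f.scaleRoots D_R` is injective
with values in `Fam N (H₁ D_R) ⊆ Fam N H` (Fs). -/
def StPos : Prop :=
  ∀ g : ℕ, 1 ≤ g → ∃ δ : ℝ, 0 < δ ∧ ∀ᶠ H : ℕ in atTop,
    δ * (H : ℝ) ^ ((g + 1) * (2 * g + 1)) ≤
      ({f | f ∈ Fam (2 * g + 1) H ∧ ((2 * g + 1 : ℕ) : ℤ) ∣ f.coeff (2 * g) ∧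
        Irreducible (fK f) ∧ Triv f}.ncard : ℝ)

/-- Tl (translation).  `h(x) = f(x + a)`: `θ_h ↦ θ_f - a` is an isomorphism `L_h ≅ L_f` of `ℚ`-algebras,
compatible with the base change to every field `k ⊇ ℚ`, with norms and with the descent groups
(`U(x) ↦ U(x + a)`). -/
def StTl : Prop :=
  ∀ (f : ℤ[X]) (a : ℤ), f.Monic → (Triv f → Triv (f.comp (X + C a))) ∧
    (Irreducible (fK f) → Irreducible (fK (f.comp (X + C a))))

/-- Tm (translation and coefficients).  `c_1 = - N a`, `|a| ≤ H`.  The coefficient of `x^(N-k)` of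
`f(x + a)` is `∑_(j ≤ k) c_j C(N-j, k-j) a^(k-j)`, of absolute value at most
`H^k ∑_j C(N-j, k-j) = H^k C(N+1, k) ≤ 4^(g+1) H^k`; for `k = 1` it is `c_1 + N a = 0`. -/
def StTm : Prop :=
  ∀ (g H : ℕ), 1 ≤ g → ∀ f ∈ Fam (2 * g + 1) H, ∀ a : ℤ,
    f.coeff (2 * g) = -((2 * g + 1 : ℕ) : ℤ) * a →
    f.comp (X + C a) ∈ Fam0 (2 * g + 1) (4 ^ (g + 1) * H) ∧ |a| ≤ H

/-- Up0 (upper bound).  `2 H^k + 1 ≤ 3 H^k`; `∑_(k=2)^N k = N(N+1)/2 - 1`. -/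
def StUp0 : Prop :=
  ∀ (g H : ℕ), 1 ≤ g → 1 ≤ H → (Fam0 (2 * g + 1) H).Finite ∧
    ((Fam0 (2 * g + 1) H).ncard : ℝ) * H ≤
      3 ^ (2 * g + 1) * (H : ℝ) ^ ((g + 1) * (2 * g + 1))

/-- Fin (the final count).  Pos at the height `H₁ = ⌊H / 4^(g+1)⌋`; `f ↦ f(x + a)`, `a = - c_1 / N`
(Tl, Tm), has fibres of at most `2 H₁ + 1` elements (`f` is determined by its image and by `a`), and
`H^(n₂) / (2 H₁ + 1) ≥ ..`; Up0. -/
def StFin : Prop :=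
  ∀ g : ℕ, 1 ≤ g → ∃ δ : ℝ, 0 < δ ∧ ∀ᶠ H : ℕ in atTop,
    δ * ((Fam0 (2 * g + 1) H).ncard : ℝ) ≤
      ({f | f ∈ Fam0 (2 * g + 1) H ∧ Irreducible (fK f) ∧ Triv f}.ncard : ℝ)

end Pool.Agent.Helper54.HQ
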