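import Pool.Agent.Helper54.HQ.DefsQ
import Pool.Agent.Helper54.HQ.StF

/-!
# HQ: from the internal statement to the definitions of the hand-in
-/

set_option autoImplicit false

namespace Pool.Agent.Helper54.HQR

open Polynomial Filter
open Pool.Agent.Helper3.HYR (InDescentGroupOver InDescentGroup IsPointValue)
open Pool.Agent.Helper3.PD (PicTwoDivisible divisible norm_isSquare isPointValue_map)
open Pool.Agent.Helper54

theorem trivial_of_triv {f : ℤ[X]} (h : HQ.Triv f) : TrivialSelmer (overQ f) := by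
  rintro z ⟨hn, hp, -⟩
  refine h z hn ?_
  intro p _
  obtain ⟨y, hy, hyz⟩ := hp p
  change (Units.map (Pool.Agent.Helper3.HY.baseChange (algebraMap ℚ ℚ_[p]) (HQ.fK f)).toMonoidHom
    z) ∈ _
  have : Units.map (Pool.Agent.Helper3.HY.baseChange (algebraMap ℚ ℚ_[p]) (HQ.fK f)).toMonoidHom
      z = y := Units.ext hyz.symm
  rw [this]
  exact hy

theorem mem_selmerSet {h : ℚ[X]} (hm : h.Monic) {z : (AdjoinRoot h)ˣ}
    (hz : IsPointValue h (z : AdjoinRoot h)) : z ∈ selmerSet h := by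
  have key : ∀ (k' : Type) [Field k'] (i : ℚ →+* k'), InDescentGroupOver i h (z : AdjoinRoot h) := by
    intro k' _ i
    refine ⟨Units.map (Pool.Agent.Helper3.HYR.baseChange i h).toMonoidHom z, ?_, rfl⟩
    apply Subgroup.subset_closure
    left
    exact isPointValue_map _ hz
  refine ⟨?_, ?_, key ℝ _⟩
  · obtain ⟨U, V, hU, -, hd, he⟩ := hz
    rw [he]
    exact norm_isSquare hm hU hd
  · intro p _
    exact key ℚ_[p] _

theorem picTwoDivisible {h : ℚ[X]} (hm : h.Monic) (hodd : Odd h.natDegree) (hsep : h.Separable)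
    (hS : TrivialSelmer h) : PicTwoDivisible h := by
  intro I hI
  refine divisible hm hodd hsep.squarefree (by norm_num) ?_ I hI
  intro z hz
  have hu : IsUnit z := by
    obtain ⟨U, V, hU, ⟨a, b, hab⟩, hd, rfl⟩ := hz
    rw [map_mul]
    refine IsUnit.mul ?_ ?_
    · rw [map_pow, map_neg, map_one]
      exact (isUnit_one.neg).pow _
    · refine IsUnit.of_mul_eq_one (AdjoinRoot.mk h a) ?_
      rw [← map_mul, mul_comm, ← map_one (AdjoinRoot.mk h), AdjoinRoot.mk_eq_mk]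
      exact ⟨-b, by linear_combination hab⟩
  obtain ⟨z, rfl⟩ := hu
  obtain ⟨w, hw⟩ := hS z (mem_selmerSet hm hz)
  exact ⟨(w : AdjoinRoot h), by rw [hw, pow_two]; simp⟩

theorem mem_family_iff {N H : ℕ} {f : ℤ[X]} : f ∈ family N H ↔ f ∈ HQ.Fam0 N H :=
  ⟨fun ⟨a, b, c, d⟩ => ⟨⟨a, b, d⟩, c⟩, fun ⟨⟨a, b, d⟩, c⟩ => ⟨a, b, c, d⟩⟩

theorem mem_trivialFamily_iff {g H : ℕ} {f : ℤ[X]} (hf : f ∈ HQ.Fam0 (2 * g + 1) H)
    (hi : Irreducible (HQ.fK f)) (ht : HQ.Triv f) : f ∈ trivialFamily (2 * g + 1) H := by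
  have hm : f.Monic := hf.1.1
  have hN : f.natDegree = 2 * g + 1 := hf.1.2.1
  refine ⟨mem_family_iff.2 hf, hi, trivial_of_triv ht, ?_⟩
  refine picTwoDivisible (hm.map _) ?_ hi.separable (trivial_of_triv ht)
  rw [overQ, hm.natDegree_map, hN]
  exact ⟨g, rfl⟩

theorem main (hU : HQ.StUp0) (h : HQ.StFin) (g : ℕ) (hg : 1 ≤ g) :
    ∃ δ : ℝ, 0 < δ ∧ ∀ᶠ H : ℕ in atTop,
      δ * ((family (2 * g + 1) H).ncard : ℝ) ≤ ((trivialFamily (2 * g + 1) H).ncard : ℝ) := by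
  obtain ⟨δ, hδ, h1⟩ := h g hg
  refine ⟨δ, hδ, ?_⟩
  filter_upwards [h1, eventually_ge_atTop 1] with H hH hH1
  have e1 : family (2 * g + 1) H = HQ.Fam0 (2 * g + 1) H := Set.ext fun f => mem_family_iff
  have hfin : (trivialFamily (2 * g + 1) H).Finite :=
    (hU g H hg hH1).1.subset fun f hf => mem_family_iff.1 hf.1
  rw [e1]
  refine hH.trans ?_
  have h2 : {f | f ∈ HQ.Fam0 (2 * g + 1) H ∧ Irreducible (HQ.fK f) ∧ HQ.Triv f} ⊆
      trivialFamily (2 * g + 1) H := fun f hf => mem_trivialFamily_iff hf.1 hf.2.1 hf.2.2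
  exact_mod_cast Set.ncard_le_ncard h2 hfin

end Pool.Agent.Helper54.HQR
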