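import Pool.Agent.Helper54.HQ.Base
import Pool.Agent.Helper54.HL.St

/-! # HQ module CV: the valuation at `q` and the exponent of `Rep` (over `ℤ`) -/

set_option autoImplicit false

namespace Pool.Agent.Helper54.HQ

open Polynomial IsDedekindDomain
open Pool.Agent.Helper3.HY (co tau Ix nu TType IType baseChange descentGroup IsPointValue IsTwPoint
  twGroup co_mk sum_co ext_co co_eq_zero)
open Pool.Agent.Helper54.HL (tk IrrInt IrrBig Nr Rep RepA RepB pr pr_mk IsTwIrr LinePt RootLift)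

section CV

variable {f : ℤ[X]} {P : Prm}

theorem red_eq_zero_CV (p : ℤ[X]) (h : p.map (red P) = 0) :
    ∃ b : ℤ[X], p = C (pz P) * b := by
  have h1 : C (pz P) ∣ p := by
    rw [C_dvd_iff_dvd_coeff]
    intro i
    have h2 : (p.map (red P)).coeff i = 0 := by rw [h, coeff_zero]
    rw [coeff_map] at h2
    exact red_eq_zero.1 h2
  exact h1

theorem red_surj_CV (c : (kp P)[X]) : ∃ b : ℤ[X], b.map (red P) = c :=
  Polynomial.map_surjective (red P) (red_surj P) c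

theorem mk_C_CV (a : ℤ) : AdjoinRoot.mk f (C a) = Int.castRingHom (RR f) a := rfl

/-- The elements of the prime `q = (P, p₀(θ))`. -/
theorem mem_iff_CV {q : HeightOneSpectrum (RR f)} (hq : Over P q) {p₀ : ℤ[X]}
    (hirr : Irreducible (p₀.map (red P))) (hp₀ : AdjoinRoot.mk f p₀ ∈ q.asIdeal) (p : ℤ[X]) :
    AdjoinRoot.mk f p ∈ q.asIdeal ↔ p₀.map (red P) ∣ p.map (red P) := by
  have hP : ∀ b : ℤ[X], AdjoinRoot.mk f (C (pz P) * b) ∈ q.asIdeal := by
    intro b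
    rw [map_mul, mk_C_CV]
    exact Ideal.mul_mem_right _ _ hq
  constructor
  · intro hp
    by_contra hnd
    obtain ⟨u, w, huw⟩ := (hirr.coprime_iff_not_dvd).2 hnd
    obtain ⟨u', hu'⟩ := red_surj_CV u
    obtain ⟨w', hw'⟩ := red_surj_CV w
    obtain ⟨b, hb⟩ := red_eq_zero_CV (P := P) (u' * p₀ + w' * p - 1) (by
      rw [Polynomial.map_sub, Polynomial.map_add, Polynomial.map_mul, Polynomial.map_mul, hu', hw',
        huw, Polynomial.map_one, sub_self])
    have h1 : (1 : RR f) = AdjoinRoot.mk f (u' * p₀ + w' * p) - AdjoinRoot.mk f (C (pz P) * b) := by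
      rw [← hb, ← map_sub, sub_sub_cancel, map_one]
    refine q.isPrime.ne_top ((Ideal.eq_top_iff_one _).2 ?_)
    rw [h1, map_add, map_mul, map_mul]
    exact sub_mem (add_mem (Ideal.mul_mem_left _ _ hp₀) (Ideal.mul_mem_left _ _ hp)) (hP b)
  · rintro ⟨c, hc⟩
    obtain ⟨c', hc'⟩ := red_surj_CV c
    obtain ⟨b, hb⟩ := red_eq_zero_CV (P := P) (p - p₀ * c') (by
      rw [Polynomial.map_sub, Polynomial.map_mul, hc', hc, sub_self])
    have h1 : AdjoinRoot.mk f p = AdjoinRoot.mk f (p₀ * c') + AdjoinRoot.mk f (C (pz P) * b) := by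
      rw [← hb, ← map_add, add_sub_cancel]
    rw [h1, map_mul]
    exact add_mem (Ideal.mul_mem_right _ _ hp₀) (hP b)

theorem baseChange_mk_CV {k k' : Type} [Field k] [Field k'] (j : k →+* k') (h p : k[X]) :
    baseChange j h (AdjoinRoot.mk h p) = AdjoinRoot.mk (h.map j) (p.map j) := by
  rw [baseChange, AdjoinRoot.map, AdjoinRoot.lift_mk, ← Polynomial.eval₂_map,
    ← AdjoinRoot.aeval_eq, Polynomial.aeval_def]
  rfl

variable {O k : Type} [CommRing O] [Field k] [Algebra O k] {i : ℤ →+* O}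
  {j : ℚ →+* k} {ρ : O →+* kp P} {g₀ : O[X]}

/-- The value of an element of `R` in `k[x] / g₀`. -/
theorem ev_mk_CV (hL : LD P i j ρ) (hd : tk k g₀ ∣ (fK f).map j) (p : ℤ[X]) :
    pr hd (baseChange j (fK f) (algebraMap (RR f) (LL f) (AdjoinRoot.mk f p))) =
      AdjoinRoot.mk (tk k g₀) (tk k (p.map i)) := by
  rw [algebraMap_mk, baseChange_mk_CV, pr_mk, ← hL.map p]

theorem res_unique_CV {κ : Type} [Field κ] (ρ : O →+* κ)
    (hinj : Function.Injective (algebraMap O k)) (hg : g₀.Monic) {p p' : O[X]}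
    (h : AdjoinRoot.mk (tk k g₀) (tk k p) = AdjoinRoot.mk (tk k g₀) (tk k p')) :
    AdjoinRoot.mk (g₀.map ρ) (p.map ρ) = AdjoinRoot.mk (g₀.map ρ) (p'.map ρ) := by
  rw [AdjoinRoot.mk_eq_mk, tk, tk, tk, ← Polynomial.map_sub,
    Polynomial.map_dvd_map _ hinj hg] at h
  rw [AdjoinRoot.mk_eq_mk, ← Polynomial.map_sub]
  exact Polynomial.map_dvd ρ h

theorem rho_eq_zero_CV (hL : LD P i j ρ) (p : O[X]) (h : p.map ρ = 0) :
    ∃ b : O[X], p = C (i (pz P)) * b := by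
  have h1 : C (i (pz P)) ∣ p := by
    rw [C_dvd_iff_dvd_coeff]
    intro l
    have h2 : (p.map ρ).coeff l = 0 := by rw [h, coeff_zero]
    rw [coeff_map] at h2
    exact (hL.ker _).1 h2
  exact h1

/-- Elements of `q` become divisible by `π`. -/
theorem ev_mem_CV (hL : LD P i j ρ) (hd : tk k g₀ ∣ (fK f).map j)
    (hirr : Irreducible (g₀.map ρ)) {p₀ : ℤ[X]} (hp : p₀.map (red P) = g₀.map ρ)
    {q : HeightOneSpectrum (RR f)} (hq : Over P q) (hp₀ : AdjoinRoot.mk f p₀ ∈ q.asIdeal)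
    {x : RR f} (hx : x ∈ q.asIdeal) :
    ∃ p : O[X], pr hd (baseChange j (fK f) (algebraMap (RR f) (LL f) x)) =
      AdjoinRoot.mk (tk k g₀) (tk k (C (i (pz P)) * p)) := by
  obtain ⟨r, rfl⟩ := AdjoinRoot.mk_surjective x
  obtain ⟨c, hc⟩ := (mem_iff_CV hq (hp ▸ hirr) hp₀ r).1 hx
  obtain ⟨c', hc'⟩ := Polynomial.map_surjective ρ hL.surj c
  obtain ⟨b, hb⟩ := rho_eq_zero_CV hL (r.map i - g₀ * c') (by
    rw [Polynomial.map_sub, Polynomial.map_mul, hc', hL.map_red, hc, hp, sub_self])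
  refine ⟨b, ?_⟩
  rw [ev_mk_CV hL, ← hb, AdjoinRoot.mk_eq_mk, ← Polynomial.map_sub, sub_sub_cancel,
    Polynomial.map_mul]
  exact dvd_mul_right _ _

theorem ev_sq_CV (hL : LD P i j ρ) (hd : tk k g₀ ∣ (fK f).map j)
    (hirr : Irreducible (g₀.map ρ)) {p₀ : ℤ[X]} (hp : p₀.map (red P) = g₀.map ρ)
    {q : HeightOneSpectrum (RR f)} (hq : Over P q) (hp₀ : AdjoinRoot.mk f p₀ ∈ q.asIdeal)
    {x : RR f} (hx : x ∈ q.asIdeal ^ 2) :
    ∃ p : O[X], pr hd (baseChange j (fK f) (algebraMap (RR f) (LL f) x)) =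
      AdjoinRoot.mk (tk k g₀) (tk k (C (i (pz P)) * (C (i (pz P)) * p))) := by
  rw [pow_two] at hx
  refine Submodule.mul_induction_on hx ?_ ?_
  · intro a ha b hb
    obtain ⟨p, hp1⟩ := ev_mem_CV hL hd hirr hp hq hp₀ ha
    obtain ⟨p', hp2⟩ := ev_mem_CV hL hd hirr hp hq hp₀ hb
    refine ⟨p * p', ?_⟩
    rw [map_mul, map_mul, map_mul, hp1, hp2, ← map_mul, tk, tk, ← Polynomial.map_mul]
    congr 2
    ring
  · rintro a b ⟨p, hp1⟩ ⟨p', hp2⟩
    refine ⟨p + p', ?_⟩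
    rw [map_add, map_add, map_add, hp1, hp2, ← map_add, tk, tk, ← Polynomial.map_add]
    congr 2
    ring

theorem nonzero_res_CV (hL : LD P i j ρ) (hd : tk k g₀ ∣ (fK f).map j) {π : O}
    (hA : RepA k π ρ g₀) (hirr : Irreducible (g₀.map ρ)) {p₀ : ℤ[X]}
    (hp : p₀.map (red P) = g₀.map ρ)
    {q : HeightOneSpectrum (RR f)} (hq : Over P q) (hp₀ : AdjoinRoot.mk f p₀ ∈ q.asIdeal)
    {x : RR f} (hx : x ∉ q.asIdeal) :
    ∃ s, Rep π ρ g₀ (pr hd (baseChange j (fK f) (algebraMap (RR f) (LL f) x))) 0 s := by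
  obtain ⟨r, rfl⟩ := AdjoinRoot.mk_surjective x
  rw [mem_iff_CV hq (hp ▸ hirr) hp₀ r, hp, ← hL.map_red, ← AdjoinRoot.mk_eq_zero] at hx
  exact ⟨_, by rw [ev_mk_CV hL]; exact hA.int _ hx⟩

/-- `P` is not in `q ^ 2`. -/
theorem P_notMem_CV (hL : LD P i j ρ) (hinj : Function.Injective (algebraMap O k))
    (hg : g₀.Monic) (hd : tk k g₀ ∣ (fK f).map j)
    (hirr : Irreducible (g₀.map ρ)) {p₀ : ℤ[X]} (hp : p₀.map (red P) = g₀.map ρ)
    {q : HeightOneSpectrum (RR f)} (hq : Over P q) (hp₀ : AdjoinRoot.mk f p₀ ∈ q.asIdeal) :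
    Int.castRingHom (RR f) (pz P) ∉ q.asIdeal ^ 2 := by
  intro hx
  obtain ⟨p, hp1⟩ := ev_sq_CV hL hd hirr hp hq hp₀ hx
  rw [← mk_C_CV, ev_mk_CV hL, Polynomial.map_C] at hp1
  have hπ : algebraMap O k (i (pz P)) ≠ 0 := by
    rw [Ne, map_eq_zero_iff _ hinj]
    exact hL.unif.ne_zero
  have h2 : AdjoinRoot.mk (tk k g₀) (tk k (1 : O[X])) = AdjoinRoot.mk (tk k g₀) (tk k (C (i (pz P)) * p)) := by
    have h3 : AdjoinRoot.mk (tk k g₀) (C (algebraMap O k (i (pz P)))⁻¹) *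
        AdjoinRoot.mk (tk k g₀) (tk k (C (i (pz P)))) =
        AdjoinRoot.mk (tk k g₀) (C (algebraMap O k (i (pz P)))⁻¹) *
        AdjoinRoot.mk (tk k g₀) (tk k (C (i (pz P)) * (C (i (pz P)) * p))) := by rw [hp1]
    simp only [tk] at h3 ⊢
    rw [← map_mul, ← map_mul, Polynomial.map_mul (p := C (i (pz P))), Polynomial.map_C,
      ← mul_assoc, ← C_mul, inv_mul_cancel₀ hπ, C_1, one_mul] at h3
    rw [Polynomial.map_one]
    exact h3
  have h4 := res_unique_CV ρ hinj hg h2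
  rw [Polynomial.map_one, map_one, Polynomial.map_mul, Polynomial.map_C, (hL.ker _).2 dvd_rfl,
    C_0, zero_mul, map_zero] at h4
  have : Fact (Irreducible (g₀.map ρ)) := ⟨hirr⟩
  exact one_ne_zero h4

/-- Nonzero elements of `R`. -/
theorem int_CV [IsDedekindDomain (RR f)] (hL : LD P i j ρ)
    (hinj : Function.Injective (algebraMap O k)) (hA : RepA k (i (pz P)) ρ g₀)
    (hg : g₀.Monic) (hd : tk k g₀ ∣ (fK f).map j)
    (hirr : Irreducible (g₀.map ρ)) {p₀ : ℤ[X]} (hp : p₀.map (red P) = g₀.map ρ)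
    {q : HeightOneSpectrum (RR f)} (hq : Over P q) (hp₀ : AdjoinRoot.mk f p₀ ∈ q.asIdeal)
    (x : RR f) (hx0 : x ≠ 0) (e : ℤ) (s : AdjoinRoot (g₀.map ρ))
    (hr : Rep (i (pz P)) ρ g₀ (pr hd (baseChange j (fK f) (algebraMap (RR f) (LL f) x))) e s) :
    q.intValuation x = WithZero.exp (-e) := by
  set P' : RR f := Int.castRingHom (RR f) (pz P) with hP'
  have hP2 : P' ∉ q.asIdeal ^ 2 := P_notMem_CV hL hinj hg hd hirr hp hq hp₀
  have hP0 : P' ≠ 0 := fun h => hP2 (h ▸ zero_mem _)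
  -- the valuation of `P`
  have hvP : q.intValuation P' = WithZero.exp (-1) := by
    have h1 := q.intValuation_eq_exp_neg_multiplicity hP0
    have h2 : q.intValuation P' ≤ WithZero.exp (-((1 : ℕ) : ℤ)) := by
      rw [q.intValuation_le_pow_iff_mem, pow_one]; exact hq
    have h3 : ¬ q.intValuation P' ≤ WithZero.exp (-((2 : ℕ) : ℤ)) := by
      rw [q.intValuation_le_pow_iff_mem]; exact hP2
    rw [h1, WithZero.exp_le_exp] at h2 h3
    rw [h1]
    congr 1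
    push_cast at h2 h3
    omega
  -- the cofactor
  obtain ⟨J, hJ⟩ : q.asIdeal ∣ Ideal.span {P'} := by
    rw [Ideal.dvd_span_singleton]; exact hq
  obtain ⟨t, htJ, htq⟩ : ∃ t ∈ J, t ∉ q.asIdeal := by
    by_contra hcon
    push Not at hcon
    refine hP2 ?_
    rw [pow_two, ← Ideal.span_singleton_le_iff_mem, hJ]
    exact Ideal.mul_mono_right hcon
  obtain ⟨n, hn⟩ : ∃ n : ℕ, q.intValuation x = WithZero.exp (-(n : ℤ)) :=
    ⟨_, q.intValuation_eq_exp_neg_multiplicity hx0⟩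
  have hxq : x ∈ q.asIdeal ^ n := (q.intValuation_le_pow_iff_mem x n).1 hn.le
  obtain ⟨x', hx'⟩ : ∃ x', x * t ^ n = P' ^ n * x' := by
    have h1 : x * t ^ n ∈ Ideal.span {P' ^ n} := by
      rw [← Ideal.span_singleton_pow, hJ, mul_pow]
      exact Ideal.mul_mem_mul hxq (Ideal.pow_mem_pow htJ n)
    obtain ⟨x', hx'⟩ := Ideal.mem_span_singleton.1 h1
    exact ⟨x', hx'⟩
  have htn : t ^ n ∉ q.asIdeal := fun h => htq (q.isPrime.mem_of_pow_mem n h)
  have hvt : q.intValuation (t ^ n) = 1 := by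
    refine le_antisymm (q.intValuation_le_one _) (not_lt.1 ?_)
    rw [q.intValuation_lt_one_iff_mem]; exact htn
  have hx'q : x' ∉ q.asIdeal := by
    rw [← q.intValuation_lt_one_iff_mem, not_lt]
    have h1 := congrArg q.intValuation hx'
    rw [map_mul, map_mul, hvt, mul_one, map_pow, hvP, hn, ← WithZero.exp_nsmul] at h1
    have h2 : (n • (-1 : ℤ)) = -(n : ℤ) := by simp
    rw [h2] at h1
    have h3 : (WithZero.exp (-(n : ℤ)) : WithZero (Multiplicative ℤ)) ≠ 0 := WithZero.exp_ne_zero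
    have h4 : q.intValuation x' = 1 := by
      have h5 : (WithZero.exp (-(n : ℤ)) : WithZero (Multiplicative ℤ)) * 1 =
          WithZero.exp (-(n : ℤ)) * q.intValuation x' := by rw [mul_one]; exact h1
      exact (mul_left_cancel₀ h3 h5).symm
    exact h4.ge
  obtain ⟨s1, hs1⟩ := nonzero_res_CV hL hd hA hirr hp hq hp₀ htn
  obtain ⟨s2, hs2⟩ := nonzero_res_CV hL hd hA hirr hp hq hp₀ hx'q
  have h3 : pr hd (baseChange j (fK f) (algebraMap (RR f) (LL f) (P' ^ n))) =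
      AdjoinRoot.mk (tk k g₀) (C (algebraMap O k (i (pz P)) ^ (n : ℤ))) := by
    rw [map_pow, map_pow, map_pow, hP', ← mk_C_CV, ev_mk_CV hL, ← map_pow, Polynomial.map_C]
    simp only [tk]
    rw [Polynomial.map_C, ← C_pow, zpow_natCast]
  have h4 := hA.mul _ _ _ _ _ _ hr hs1
  have h5 := hA.mul _ _ _ _ _ _ (hA.pow (n : ℤ)) hs2
  rw [← h3, ← map_mul, ← map_mul, ← map_mul, ← hx', map_mul, map_mul, map_mul] at h5
  have h6 := (hA.uniq _ _ _ _ _ h4 h5).1
  rw [add_zero, add_zero] at h6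
  rw [hn, h6]

end CV

theorem hCV (h : HL.StRA) : StCV := by
  intro f hf _ _ _ P O k _ _ _ _ _ _ i j ρ hL g₀ hg hirr hgd hd p₀ hp q hq hp₀ z e s hr
  have hinj : Function.Injective (algebraMap O k) := IsFractionRing.injective O k
  have hA : RepA k (i (pz P)) ρ g₀ := h O k (kp P) (i (pz P)) ρ hL.unif hL.surj hL.ker g₀ hg hirr
  have : Fact (Irreducible (tk k g₀)) := ⟨hA.irr⟩
  have hz : z ≠ 0 := by
    rintro rfl
    rw [map_zero, map_zero] at hr
    have h1 := hA.mul _ _ _ _ _ _ hr (hA.pow 1)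
    rw [zero_mul] at h1
    have h2 := (hA.uniq _ _ _ _ _ hr h1).1
    omega
  obtain ⟨a, b, hb, hab⟩ := IsFractionRing.div_surjective (A := RR f) z
  have hb0 : b ≠ 0 := nonZeroDivisors.ne_zero hb
  have hinj2 : Function.Injective (algebraMap (RR f) (LL f)) := IsFractionRing.injective _ _
  have hb1 : algebraMap (RR f) (LL f) b ≠ 0 := by
    rwa [Ne, map_eq_zero_iff _ hinj2]
  have hzb : z * algebraMap (RR f) (LL f) b = algebraMap (RR f) (LL f) a := by
    rw [← hab, div_mul_cancel₀ _ hb1]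
  have ha1 : algebraMap (RR f) (LL f) a ≠ 0 := by
    rw [← hzb]; exact mul_ne_zero hz hb1
  have ha0 : a ≠ 0 := by rintro rfl; exact ha1 (map_zero _)
  have hev : ∀ y : LL f, y ≠ 0 → pr hd (baseChange j (fK f) y) ≠ 0 := by
    intro y hy h0
    have h1 : pr hd (baseChange j (fK f) (y * y⁻¹)) = 0 := by
      rw [map_mul, map_mul, h0, zero_mul]
    rw [mul_inv_cancel₀ hy, map_one, map_one] at h1
    exact one_ne_zero h1
  obtain ⟨e1, s1, h1⟩ := hA.ex _ (hev _ ha1)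
  obtain ⟨e2, s2, h2⟩ := hA.ex _ (hev _ hb1)
  have h3 := hA.mul _ _ _ _ _ _ hr h2
  rw [← map_mul, ← map_mul, hzb] at h3
  have h4 := (hA.uniq _ _ _ _ _ h1 h3).1
  have h5 := int_CV hL hinj hA hg hd hirr hp hq hp₀ a ha0 e1 s1 h1
  have h6 := int_CV hL hinj hA hg hd hirr hp hq hp₀ b hb0 e2 s2 h2
  rw [← hab, map_div₀, HeightOneSpectrum.valuation_of_algebraMap,
    HeightOneSpectrum.valuation_of_algebraMap, h5, h6, ← WithZero.exp_sub]
  congr 1
  omega

end Pool.Agent.Helper54.HQ
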