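import Pool.Agent.Helper54.HQ.StC
import Pool.Agent.Helper54.HQ.Base
import Pool.Agent.Helper3.HY.M_Cd

/-!
# HQ, module Cd: `R` is selfdual for `tau`
-/

set_option autoImplicit false

namespace Pool.Agent.Helper54.HQ

open Polynomial Finset Filter Topology Matrix IsDedekindDomain
open Pool.Agent.Helper3.HY (co tau co_mk sum_co ext_co co_eq_zero)
open Pool.Agent.Helper3

theorem first_Cd {f : ℤ[X]} (hm : f.Monic) (z : LL f) (hz : InR z) :
    ∃ a : ℤ, tau (hm.map (Int.castRingHom ℚ)) z = a := by
  obtain ⟨r, rfl⟩ := hz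
  exact ⟨_, co_algebraMap hm _ r⟩

theorem second_Cd {f : ℤ[X]} (hm : f.Monic) (z : LL f)
    (hz : ∀ r : RR f, ∃ a : ℤ, tau (hm.map (Int.castRingHom ℚ))
      (z * algebraMap (RR f) (LL f) r) = a) : InR z := by
  have hN : (fK f).natDegree = f.natDegree := hm.natDegree_map _
  have key : ∀ j, j ≤ f.natDegree → ∃ r : RR f, ∀ i, f.natDegree - j ≤ i →
      co (hm.map (Int.castRingHom ℚ)) i (z - algebraMap (RR f) (LL f) r) = 0 := by
    intro j
    induction j with
    | zero =>
      intro _
      refine ⟨0, fun i hi => co_eq_zero _ ?_ _⟩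
      rw [hN]
      omega
    | succ j ih =>
      intro hj
      obtain ⟨r, hr⟩ := ih (by omega)
      have h1 := HY.M_Cd.shift_top (hm.map (Int.castRingHom ℚ)) (j := j) (by rw [hN]; omega)
        (z - algebraMap (RR f) (LL f) r) (fun i hi => hr i (by rw [hN] at hi; exact hi))
      obtain ⟨c, hc⟩ : ∃ c : ℤ, tau (hm.map (Int.castRingHom ℚ))
          ((z - algebraMap (RR f) (LL f) r) * AdjoinRoot.root (fK f) ^ j) = c := by
        have e1 : (z - algebraMap (RR f) (LL f) r) * AdjoinRoot.root (fK f) ^ j =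
            z * algebraMap (RR f) (LL f) (AdjoinRoot.root f ^ j) -
              algebraMap (RR f) (LL f) (r * AdjoinRoot.root f ^ j) := by
          rw [map_mul, map_pow, algebraMap_root, sub_mul]
        rw [e1, map_sub]
        obtain ⟨a, ha⟩ := hz (AdjoinRoot.root f ^ j)
        obtain ⟨b, hb⟩ := first_Cd hm _ ⟨r * AdjoinRoot.root f ^ j, rfl⟩
        exact ⟨a - b, by rw [ha, hb]; push_cast; ring⟩
      rw [hc, hN] at h1
      refine ⟨r + AdjoinRoot.mk f (C c * X ^ (f.natDegree - 1 - j)), fun i hi => ?_⟩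
      have e2 : z - algebraMap (RR f) (LL f)
          (r + AdjoinRoot.mk f (C c * X ^ (f.natDegree - 1 - j))) =
          (z - algebraMap (RR f) (LL f) r) -
          algebraMap (RR f) (LL f) (AdjoinRoot.mk f (C c * X ^ (f.natDegree - 1 - j))) := by
        rw [map_add]; ring
      have hself : (C c * X ^ (f.natDegree - 1 - j) : ℤ[X]) %ₘ f =
          C c * X ^ (f.natDegree - 1 - j) := by
        rw [modByMonic_eq_self_iff hm]
        refine (degree_C_mul_X_pow_le _ _).trans_lt ?_
        rw [degree_eq_natDegree hm.ne_zero]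
        exact_mod_cast (by omega : f.natDegree - 1 - j < f.natDegree)
      rw [e2, map_sub, co_algebraMap hm, co_mk, hself, coeff_C_mul_X_pow]
      split_ifs with h2
      · rw [h2, ← h1, eq_intCast, sub_self]
      · rw [map_zero, sub_zero]
        exact hr i (by omega)
  obtain ⟨r, hr⟩ := key f.natDegree le_rfl
  refine ⟨r, ?_⟩
  have h0 : z - algebraMap (RR f) (LL f) r = 0 := by
    refine ext_co (hm.map (Int.castRingHom ℚ)) fun i _ => ?_
    rw [map_zero]
    exact hr i (by omega)
  exact sub_eq_zero.1 h0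

theorem hCd : StCd := by
  intro f hm _
  exact ⟨fun z hz => first_Cd hm z hz, fun z hz => second_Cd hm z hz⟩

end Pool.Agent.Helper54.HQ
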