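import Pool.Agent.Helper54.HQ.StC
import Pool.Agent.Helper54.HQ.Base

/-!
# HQ, module Cf: the integral structure of an ideal
-/

set_option autoImplicit false

namespace Pool.Agent.Helper54.HQ

open Polynomial Finset Filter Topology Matrix IsDedekindDomain
open Pool.Agent.Helper3.HY (co tau Ix nu TType IType rho2 exc Adm Gm)
open Pool.Agent.Helper3

/-- `I` is stable under `R` -/
theorem smul_mem_Cf {f : ℤ[X]} {α : LL f} {I : Submodule ℤ (LL f)} (hI : IsIdl α I) (r : RR f)
    {x : LL f} (hx : x ∈ I) : algebraMap (RR f) (LL f) r * x ∈ I := by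
  have hpow : ∀ n : ℕ, th f ^ n * x ∈ I := by
    intro n
    induction n with
    | zero => rwa [pow_zero, one_mul]
    | succ n ih =>
      rw [pow_succ', mul_assoc]
      exact hI.th _ ih
  obtain ⟨p, rfl⟩ := AdjoinRoot.mk_surjective r
  induction p using Polynomial.induction_on' with
  | add p q hp hq =>
    rw [map_add, map_add, add_mul]
    exact add_mem hp hq
  | monomial n a =>
    rw [← C_mul_X_pow_eq_monomial, map_mul, map_pow, AdjoinRoot.mk_X, AdjoinRoot.mk_C,
      of_eq_castRingHom, map_mul, map_pow, algebraMap_castRingHom, algebraMap_root, eq_intCast,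
      mul_assoc, ← zsmul_eq_mul]
    exact zsmul_mem (hpow n) a

/-- an ideal is a finitely generated `ℤ`-module -/
theorem fg_Cf {f : ℤ[X]} (hm : f.Monic) [Fact (Irreducible (fK f))] {α : LL f} (hα : α ≠ 0)
    {I : Submodule ℤ (LL f)} (hI : IsIdl α I) : I.FG := by
  obtain ⟨a, ha, ha1⟩ := hI.span 1
  have hc : CharZero (LL f) := algebraRat.charZero (LL f)
  have hy : a • (1 : LL f) ≠ 0 := smul_ne_zero ha one_ne_zero
  have hR : Module.Finite ℤ (RR f) := hm.finite_adjoinRoot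
  let L1 : RR f →ₗ[ℤ] LL f := (algebraMap (RR f) (LL f)).toAddMonoidHom.toIntLinearMap
  have hN : IsNoetherian ℤ (LinearMap.range L1) :=
    isNoetherian_of_isNoetherianRing_of_finite ℤ _
  let L2 : I →ₗ[ℤ] LinearMap.range L1 := LinearMap.codRestrict (LinearMap.range L1)
    ((LinearMap.mulLeft ℤ (α * a • (1 : LL f))).comp I.subtype) (by
      rintro ⟨x, hx⟩
      obtain ⟨r, hr⟩ := hI.int _ ha1 x hx
      exact ⟨r, hr.symm⟩)
  have hinj : Function.Injective L2 := by
    rintro ⟨x, hx⟩ ⟨y, hy'⟩ hxy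
    have h1 : α * a • (1 : LL f) * x = α * a • (1 : LL f) * y := congrArg Subtype.val hxy
    have h2 := mul_left_cancel₀ (mul_ne_zero hα hy) h1
    exact Subtype.ext h2
  have : IsNoetherian ℤ I := isNoetherian_of_injective L2 hinj
  exact (Submodule.fg_top I).1 (IsNoetherian.noetherian ⊤)

theorem hCf (h : StCd) : StCf := by
  intro g f hm hdeg _ α hα I hI
  obtain ⟨d1, d2⟩ := h f hm (by omega)
  -- the lattice
  have hlat : Submodule.IsLattice ℚ I := by
    refine ⟨fg_Cf hm hα hI, ?_⟩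
    rw [eq_top_iff]
    intro z _
    obtain ⟨a, ha, haz⟩ := hI.span z
    have ha' : (a : ℚ) ≠ 0 := by exact_mod_cast ha
    have h1 : z = (a : ℚ)⁻¹ • (a • z) := by
      rw [← Int.cast_smul_eq_zsmul ℚ a z, smul_smul, inv_mul_cancel₀ ha', one_smul]
    rw [h1]
    exact Submodule.smul_mem _ _ (Submodule.subset_span haz)
  have hfin : Module.finrank ℚ (LL f) = 2 * g + 1 := by
    have h0 : fK f ≠ 0 := (hm.map _).ne_zero
    rw [(AdjoinRoot.powerBasis h0).finrank, AdjoinRoot.powerBasis_dim, natDegree_fK hm, hdeg]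
  have hfd : FiniteDimensional ℚ (LL f) := Module.finite_of_finrank_pos (by omega)
  let b0 := Module.Free.chooseBasis ℤ I
  have hcard : Fintype.card (Module.Free.ChooseBasisIndex ℤ I) = Fintype.card (Ix g) := by
    rw [← Module.finrank_eq_card_basis (b0.extendOfIsLattice ℚ), hfin, Fintype.card_fin]
  obtain ⟨b, -⟩ : ∃ b : Module.Basis (Ix g) ℤ I, True :=
    ⟨b0.reindex (Fintype.equivOfCardEq hcard), trivial⟩
  obtain ⟨e, he⟩ : ∃ e : Module.Basis (Ix g) ℚ (LL f), ∀ i, e i = (b i : LL f) :=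
    ⟨b.extendOfIsLattice ℚ, fun i => Module.Basis.extendOfIsLattice_apply ℚ b i⟩
  have heI : ∀ i, e i ∈ I := fun i => by rw [he i]; exact (b i).2
  -- coordinates of the elements of `I`
  have hco : ∀ x ∈ I, ∃ c : Ix g → ℤ, x = ∑ i, ((c i : ℤ) : ℚ) • e i := by
    intro x hx
    refine ⟨fun i => b.repr ⟨x, hx⟩ i, ?_⟩
    have h1 := congrArg (Subtype.val : I → LL f) (b.sum_repr ⟨x, hx⟩)
    simp only [AddSubmonoidClass.coe_finsetSum, Submodule.coe_smul] at h1
    refine h1.symm.trans (Finset.sum_congr rfl fun i _ => ?_)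
    rw [he i, Int.cast_smul_eq_zsmul]
  have hcr : ∀ v : Ix g → ℚ, (∑ i, v i • e i) ∈ I → ∀ i, ∃ a : ℤ, v i = a := by
    intro v hv i
    obtain ⟨c, hc⟩ := hco _ hv
    refine ⟨c i, ?_⟩
    have h1 := congrArg (fun z => e.repr z i) hc
    simp only [Module.Basis.repr_sum_self] at h1
    exact h1
  -- the dual criterion
  have hdual : ∀ z : LL f, (∀ j, ∃ a : ℤ, tau (hm.map (Int.castRingHom ℚ)) (α * z * e j) = a) →
      z ∈ I := by
    intro z hz
    have hx : ∀ x ∈ I, ∃ a : ℤ, tau (hm.map (Int.castRingHom ℚ)) (α * z * x) = a := by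
      intro x hx
      obtain ⟨c, hc⟩ := hco x hx
      choose a ha using hz
      refine ⟨∑ i, c i * a i, ?_⟩
      rw [hc, Finset.mul_sum, map_sum]
      push_cast
      refine Finset.sum_congr rfl fun i _ => ?_
      rw [mul_smul_comm, map_smul, ha i, smul_eq_mul]
    refine hI.dual z fun x hxI => d2 _ fun r => ?_
    obtain ⟨a, ha⟩ := hx _ (smul_mem_Cf hI r hxI)
    refine ⟨a, ?_⟩
    rw [← ha]
    congr 1
    ring
  choose B hB using fun i j => d1 _ (hI.int (e i) (heI i) (e j) (heI j))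
  choose T hT using fun j => hco _ (hI.th _ (heI j))
  have htau : ∀ (v : Ix g → ℚ) (j : Ix g),
      tau (hm.map (Int.castRingHom ℚ)) (α * (∑ i, v i • e i) * e j) = ∑ i, v i * (B i j : ℚ) := by
    intro v j
    rw [Finset.mul_sum, Finset.sum_mul, map_sum]
    refine Finset.sum_congr rfl fun i _ => ?_
    rw [mul_smul_comm, smul_mul_assoc, map_smul, hB, smul_eq_mul]
  let Bq : Matrix (Ix g) (Ix g) ℚ := (Matrix.of B).map (Int.cast : ℤ → ℚ)
  have hvB : ∀ (v : Ix g → ℚ) (j : Ix g), (v ᵥ* Bq) j = ∑ i, v i * (B i j : ℚ) := fun v j => rfl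
  have hdet : Bq.det ≠ 0 := by
    intro h0
    obtain ⟨v, hv, hv0⟩ := Matrix.exists_vecMul_eq_zero_iff.2 h0
    obtain ⟨i₀, hi₀⟩ := Function.ne_iff.1 hv
    have hi₀' : v i₀ ≠ 0 := hi₀
    have h1 : (∑ i, (v i / (2 * v i₀)) • e i) ∈ I := by
      refine hdual _ fun j => ⟨0, ?_⟩
      rw [htau]
      have h2 := congrFun hv0 j
      rw [hvB] at h2
      have h3 : ∑ i, v i / (2 * v i₀) * (B i j : ℚ) =
          (∑ i, v i * (B i j : ℚ)) / (2 * v i₀) := by
        rw [Finset.sum_div]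
        exact Finset.sum_congr rfl fun i _ => by ring
      rw [h3, h2]
      simp
    obtain ⟨a, ha⟩ := hcr _ h1 i₀
    have h4 : (2 * a : ℚ) = 1 := by
      rw [← ha]
      field_simp
    have h5 : 2 * a = 1 := by exact_mod_cast h4
    omega
  have hinv : Bq⁻¹ * Bq = 1 := Matrix.nonsing_inv_mul _ (isUnit_iff_ne_zero.2 hdet)
  have hNex : ∀ k i, ∃ a : ℤ, Bq⁻¹ k i = a := by
    intro k
    refine hcr (Bq⁻¹ k) (hdual _ fun j => ?_)
    rw [htau, ← hvB]
    have h1 : (Bq⁻¹ k ᵥ* Bq) j = (Bq⁻¹ * Bq) k j := rfl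
    rw [h1, hinv, Matrix.one_apply]
    split_ifs
    · exact ⟨1, by norm_num⟩
    · exact ⟨0, by norm_num⟩
  choose N hN using hNex
  have hNB : Matrix.of N * Matrix.of B = 1 := by
    ext i j
    have h1 := congrFun (congrFun hinv i) j
    rw [Matrix.mul_apply] at h1
    rw [Matrix.mul_apply]
    have h2 : ∑ l, Bq⁻¹ i l * Bq l j = ((∑ l, N i l * B l j : ℤ) : ℚ) := by
      push_cast
      exact Finset.sum_congr rfl fun l _ => by rw [hN]; rfl
    rw [h2, Matrix.one_apply] at h1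
    have h3 : (((if i = j then 1 else 0 : ℤ)) : ℚ) = if i = j then 1 else 0 := by
      split_ifs <;> norm_num
    rw [← h3] at h1
    rw [Matrix.one_apply]
    exact_mod_cast h1
  refine ⟨e, Matrix.of B, Matrix.of fun i j => T j i, ⟨?_, ?_, ?_⟩, heI⟩
  · intro i j
    rw [Bf_apply, hB]
    rfl
  · exact Matrix.isUnit_det_of_left_inverse hNB
  · intro j
    rw [hT j]
    rfl

end Pool.Agent.Helper54.HQ
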