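import Pool.Agent.Helper54.HQ.StC
import Pool.Agent.Helper54.HQ.Base
import Pool.Agent.Helper3.HY.M_Cg

/-! # HQ, module Cg: discriminant -/

set_option autoImplicit false

namespace Pool.Agent.Helper54.HQ

open Polynomial Finset Filter Topology Matrix IsDedekindDomain
open Pool.Agent.Helper3.HY (co tau Ix co_mk sum_co ext_co co_eq_zero)
open Pool.Agent.Helper3

theorem tau_pow_Cg {f : ℤ[X]} (hm : f.Monic) {g : ℕ} (hdeg : f.natDegree = 2 * g + 1) {k : ℕ}
    (hk : k ≤ 2 * g) :
    tau (hm.map (Int.castRingHom ℚ)) (th f ^ k) = if k = 2 * g then 1 else 0 := by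
  have hd : (fK f).natDegree = 2 * g + 1 := by rw [hm.natDegree_map, hdeg]
  have h1 : th f ^ k = AdjoinRoot.mk (fK f) (X ^ k) := by rw [map_pow, AdjoinRoot.mk_X]
  rw [tau, h1, co_mk, hd, Nat.add_sub_cancel, (modByMonic_eq_self_iff (hm.map _)).2, coeff_X_pow]
  · simp only [eq_comm]
  · rw [degree_X_pow, degree_eq_natDegree (hm.map _).ne_zero, hd]
    exact_mod_cast Nat.lt_succ_of_le hk

theorem hCg : StCg := by
  intro g f hm hdeg α
  classical
  have hmK := hm.map (Int.castRingHom ℚ)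
  have hdK : (fK f).natDegree = 2 * g + 1 := by rw [hm.natDegree_map, hdeg]
  obtain ⟨b, hb⟩ : ∃ b : Module.Basis (Ix g) ℚ (LL f), ∀ i, b i = th f ^ (i : ℕ) := by
    refine ⟨(AdjoinRoot.powerBasis' hmK).basis.reindex (finCongr hdK), fun i => ?_⟩
    rw [Module.Basis.reindex_apply, PowerBasis.basis_eq_pow]
    rfl
  refine ⟨b, hb, ?_⟩
  set H : Matrix (Ix g) (Ix g) ℚ := Matrix.of fun i j => tau hmK (b i * b j) with hH
  have hG : (Matrix.of fun i j => Bf hm α (b i) (b j)) = (Algebra.leftMulMatrix b α)ᵀ * H := by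
    ext i j
    rw [Matrix.of_apply, Bf_apply, Matrix.mul_apply]
    simp only [Matrix.transpose_apply, Algebra.leftMulMatrix_eq_repr_mul]
    conv_lhs => rw [← b.sum_repr (α * b i)]
    rw [Finset.sum_mul, map_sum]
    refine Finset.sum_congr rfl fun k _ => ?_
    rw [smul_mul_assoc, map_smul, smul_eq_mul, hH, Matrix.of_apply]
  rw [hG, Matrix.det_mul, Matrix.det_transpose, ← Algebra.norm_eq_matrix_det, mul_comm]
  congr 1
  have h0 : ∀ i j, H.submatrix id (Fin.revPerm : Equiv.Perm (Ix g)) i j =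
      tau hmK (th f ^ ((i : ℕ) + (2 * g - (j : ℕ)))) := by
    intro i j
    rw [Matrix.submatrix_apply, hH, Matrix.of_apply, hb, hb, ← pow_add]
    congr 2
    rw [id, Fin.revPerm_apply, Fin.val_rev]
    omega
  have h1 : (H.submatrix id (Fin.revPerm : Equiv.Perm (Ix g))).det = 1 := by
    rw [Matrix.det_of_lowerTriangular]
    · refine Finset.prod_eq_one fun i _ => ?_
      have hi := i.2
      rw [h0, tau_pow_Cg hm hdeg (by omega), if_pos (by omega)]
    · intro i j hij
      have hij' : i < j := hij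
      have h2 : (i : ℕ) < j := hij'
      have h3 := j.2
      rw [h0, tau_pow_Cg hm hdeg (by omega), if_neg (by omega)]
  rw [Matrix.det_permute', HY.Cg.sign_rev] at h1
  have h2 : (((-1 : ℤˣ) ^ g : ℤˣ) : ℤ) = (-1) ^ g := by push_cast; rfl
  have h3 : ((-1 : ℚ) ^ g) * H.det = 1 := by
    rw [h2, Int.cast_pow, Int.cast_neg, Int.cast_one] at h1
    exact h1
  have h4 : ((-1 : ℚ) ^ g) * (-1) ^ g = 1 := by
    rw [← mul_pow, neg_one_mul, neg_neg, one_pow]
  calc H.det = ((-1 : ℚ) ^ g * (-1) ^ g) * H.det := by rw [h4, one_mul]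
    _ = (-1) ^ g * ((-1 : ℚ) ^ g * H.det) := by ring
    _ = (-1) ^ g := by rw [h3, mul_one]

end Pool.Agent.Helper54.HQ
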