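import Pool.Agent.Helper54.HQ.StC
import Pool.Agent.Helper54.HQ.Base
import Pool.Agent.Helper3.HY.M_Cj

/-!
# HQ module Cj2 (local goodness)
-/

set_option autoImplicit false

namespace Pool.Agent.Helper54.HQ

open Polynomial Finset Filter Topology Matrix IsDedekindDomain
open Pool.Agent.Helper3.HY (co tau Ix nu TType IType rho2 exc Adm Gm)
open Pool.Agent.Helper3

private theorem tau_int_Cj2 {f : ℤ[X]} (hm : f.Monic) (n : ℤ) (z : LL f) :
    tau (hm.map (Int.castRingHom ℚ)) ((n : LL f) * z) =
      (n : ℚ) * tau (hm.map (Int.castRingHom ℚ)) z := by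
  rw [← zsmul_eq_mul, map_zsmul, zsmul_eq_mul]

private theorem tau_alg_Cj2 {f : ℤ[X]} (hm : f.Monic) (z : RR f) :
    tau (hm.map (Int.castRingHom ℚ)) (algebraMap (RR f) (LL f) z) = ((tau hm z : ℤ) : ℚ) := by
  have h1 := co_algebraMap hm (f.natDegree - 1) z
  have h2 : (f.map (Int.castRingHom ℚ)).natDegree - 1 = f.natDegree - 1 := by
    rw [hm.natDegree_map]
  rw [tau, tau, h2]
  exact h1

theorem hCj2 : StCj2 := by
  intro g hg f hm hdeg _ P α β hβ hnear e B T hI hc S hS
  obtain ⟨r, a, ha, hr⟩ := hnear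
  choose c hcP ri hri using hc
  rw [eq_intCast, eq_intCast] at hr
  -- the relation in `L`
  have key : ∀ i j, ∀ z : RR f, ((a * (c i * c j) : ℤ) : LL f) *
      (α * e i * e j * algebraMap (RR f) (LL f) z) =
      algebraMap (RR f) (LL f) (((a : RR f) + (pz P : RR f) * r) * (ri i * ri j) * z) := by
    intro i j z
    have h1 : (a : LL f) + (pz P : LL f) * algebraMap (RR f) (LL f) r = a * (α * β ^ 2) := by
      rw [← hr]; ring
    rw [map_mul, map_mul, map_mul, map_add, map_mul, ← hri i, ← hri j, algebraMap_intCast,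
      algebraMap_intCast, h1]
    push_cast
    field_simp
  -- the relation in `ℤ`
  have keyZ : ∀ (i j : Ix g) (z : RR f) (M : ℤ),
      tau (hm.map (Int.castRingHom ℚ)) (α * e i * e j * algebraMap (RR f) (LL f) z) = (M : ℚ) →
      a * (c i * c j) * M = tau hm (((a : RR f) + (pz P : RR f) * r) * (ri i * ri j) * z) := by
    intro i j z M hM
    have h1 := congrArg (tau (hm.map (Int.castRingHom ℚ))) (key i j z)
    rw [tau_int_Cj2 hm, hM, tau_alg_Cj2 hm] at h1
    exact_mod_cast h1
  set h : (kp P)[X] := f.map (red P) with hh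
  have hhm : h.Monic := hm.map _
  have hhdeg : h.natDegree = 2 * g + 1 := by rw [hh, hm.natDegree_map, hdeg]
  have hc0 : ∀ i, red P (c i) ≠ 0 := fun i h0 => hcP i (red_eq_zero.1 h0)
  have ha0 : red P a ≠ 0 := fun h0 => ha (red_eq_zero.1 h0)
  have hP0 : red P (pz P) = 0 := red_eq_zero.2 dvd_rfl
  have htau : ∀ z : RR f, tau hhm (HY.Cj.rho (red P) f z) = red P (tau hm z) := by
    intro z
    have h1 := HY.Cj.co_rho (red P) hm (f.natDegree - 1) z
    have h2 : h.natDegree - 1 = f.natDegree - 1 := by rw [hhdeg, hdeg]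
    rw [tau, tau, h2]
    exact h1
  have hcast : ∀ n : ℤ, ((n : ℤ) : AdjoinRoot h) = algebraMap (kp P) (AdjoinRoot h) (red P n) := by
    intro n
    rw [eq_intCast, map_intCast]
  -- reduction
  have keyP : ∀ (i j : Ix g) (z : RR f) (M : ℤ),
      tau (hm.map (Int.castRingHom ℚ)) (α * e i * e j * algebraMap (RR f) (LL f) z) = (M : ℚ) →
      tau hhm (((red P (c i))⁻¹ • HY.Cj.rho (red P) f (ri i)) *
        ((red P (c j))⁻¹ • HY.Cj.rho (red P) f (ri j)) * HY.Cj.rho (red P) f z) = red P M := by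
    intro i j z M hM
    have h1 := congrArg (red P) (keyZ i j z M hM)
    rw [← htau, map_mul (HY.Cj.rho (red P) f), map_mul (HY.Cj.rho (red P) f),
      map_mul (HY.Cj.rho (red P) f), map_add (HY.Cj.rho (red P) f),
      map_mul (HY.Cj.rho (red P) f), map_intCast (HY.Cj.rho (red P) f),
      map_intCast (HY.Cj.rho (red P) f), hcast, hcast, hP0, map_zero, zero_mul, add_zero,
      mul_assoc (algebraMap _ _ (red P a)), ← Algebra.smul_def, map_smul, smul_eq_mul, map_mul,
      map_mul, map_mul] at h1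
    have h2 : red P (c i) * red P (c j) * red P M =
        tau hhm (HY.Cj.rho (red P) f (ri i) * HY.Cj.rho (red P) f (ri j) *
          HY.Cj.rho (red P) f z) := by
      apply mul_left_cancel₀ ha0
      rw [← h1]
      ring
    rw [smul_mul_smul_comm, smul_mul_assoc, map_smul, ← h2, smul_eq_mul]
    have hi := hc0 i
    have hj := hc0 j
    field_simp
  refine ⟨h, hS, hhm, hhdeg, fun i => (red P (c i))⁻¹ • HY.Cj.rho (red P) f (ri i), ?_, ?_⟩
  · intro i j
    have h1 := keyP i j 1 (B i j) (by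
      rw [map_one, mul_one, ← Bf_apply hm]
      exact hI.gram i j)
    rw [map_one, mul_one] at h1
    exact h1
  · intro i j
    have h1 := keyP i j (AdjoinRoot.root f) ((B * T) i j) (by
      rw [algebraMap_root]
      have h2 : α * e i * e j * th f = α * e i * (th f * e j) := by ring
      rw [h2, ← Bf_apply hm, hI.mat j, map_sum, Matrix.mul_apply]
      push_cast
      refine Finset.sum_congr rfl fun k _ => ?_
      rw [map_smul, hI.gram i k, smul_eq_mul]
      ring)
    rw [HY.Cj.rho_root] at h1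
    have h3 : AdjoinRoot.root h * ((red P (c i))⁻¹ • HY.Cj.rho (red P) f (ri i)) *
        ((red P (c j))⁻¹ • HY.Cj.rho (red P) f (ri j)) =
        ((red P (c i))⁻¹ • HY.Cj.rho (red P) f (ri i)) *
        ((red P (c j))⁻¹ • HY.Cj.rho (red P) f (ri j)) * AdjoinRoot.root h := by ring
    simp only
    rw [h3]
    exact h1

end Pool.Agent.Helper54.HQ
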