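import Pool.Agent.Helper54.HQ.StC
import Pool.Agent.Helper54.HQ.Base

/-!
# HQ module Ck: a class gives a pair (assembly)
-/

set_option autoImplicit false

namespace Pool.Agent.Helper54.HQ

open Polynomial Finset Filter Topology Matrix IsDedekindDomain
open Pool.Agent.Helper3.HY (co tau Ix nu TType IType rho2 exc Adm Gm)
open Pool.Agent.Helper3

/-- integral combinations stay in the lattice -/
theorem mem_Ck {g : ℕ} {f : ℤ[X]} {α : LL f} {I : Submodule ℤ (LL f)}
    {e e' : Module.Basis (Ix g) ℚ (LL f)} {U : Matrix (Ix g) (Ix g) ℤ} (he : ∀ i, e i ∈ I)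
    (he' : ∀ j, e' j = ∑ i, ((U i j : ℤ) : ℚ) • e i) (j : Ix g) : e' j ∈ I := by
  rw [he' j]
  refine sum_mem fun i _ => ?_
  rw [Int.cast_smul_eq_zsmul ℚ]
  exact I.smul_mem _ (he i)

/-- a bilinear form vanishes on a span if it vanishes on the generators -/
theorem span_Ck {V : Type} [AddCommGroup V] [Module ℚ V] (b : LinearMap.BilinForm ℚ V) {ι : Type}
    (v : ι → V) (h : ∀ i j, b (v i) (v j) = 0) :
    ∀ x ∈ Submodule.span ℚ (Set.range v), ∀ y ∈ Submodule.span ℚ (Set.range v), b x y = 0 := by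
  intro x hx y hy
  induction hx using Submodule.span_induction with
  | mem x hx =>
    obtain ⟨i, rfl⟩ := hx
    induction hy using Submodule.span_induction with
    | mem y hy =>
      obtain ⟨j, rfl⟩ := hy
      exact h i j
    | zero => exact map_zero _
    | add y z _ _ h1 h2 => rw [map_add, h1, h2, add_zero]
    | smul a y _ h1 => rw [map_smul, h1, smul_zero]
  | zero => rw [map_zero, LinearMap.zero_apply]
  | add y z _ _ h1 h2 => rw [map_add, LinearMap.add_apply, h1, h2, add_zero]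
  | smul a y _ h1 => rw [map_smul, LinearMap.smul_apply, h1, smul_zero]

/-- **Ck** (a class gives a pair). -/
theorem hCk (h1 : StCe) (h2 : StCf) (h3 : StMh) (h4 : StMf) (h5 : StCh1) (h6 : StCj1)
    (h7 : StCj2) : StCk := by
  intro g hg
  obtain ⟨C, κ, hC, hM⟩ := h3 g hg
  refine ⟨C, κ, hC, ?_⟩
  intro H hH f hf _ _ _ T hT α hα hsq hev hloc hns
  have hm : f.Monic := hf.1
  have hdeg : f.natDegree = 2 * g + 1 := hf.2.1
  have hirr : Irreducible (fK f) := Fact.out
  obtain ⟨I, hI⟩ := h1 f hm α hα hev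
  obtain ⟨e, B, T₀, hInt, heI⟩ := h2 g f hm hdeg α hα I hI
  obtain ⟨U, e', B', T', m, -, he', hInt', -, hbox, -, hcase⟩ :=
    hM H hH f hf hm hirr α hα e B T₀ hInt
  obtain ⟨-, -, -, hchi, hmat⟩ := h4 g f hm hdeg hirr α e' B' T' hInt'
  rcases hcase with hadm | htl
  · refine ⟨m, hadm, hm, hdeg, hirr, (B', B' * T'), hbox, ?_, hchi⟩
    intro P hP
    obtain ⟨β, hβ, hnear⟩ := hloc P hP
    refine h7 g hg f hm hdeg P α β hβ hnear e' B' T' hInt' (fun i => ?_) _ (hT P hP)
    refine h6 f hm P α β (e' i) hβ hnear ?_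
    have h8 := hI.int (e' i) (mem_Ck (α := α) heI he' i) (e' i) (mem_Ck (α := α) heI he' i)
    rwa [mul_assoc, ← pow_two] at h8
  · exfalso
    refine hns ?_
    have hlt : ∀ i : Fin g, (i : ℕ) < 2 * g + 1 := fun i => by have := i.2; omega
    let v : Fin g → LL f := fun i => e' ⟨i, hlt i⟩
    have hli : LinearIndependent ℚ v := by
      refine e'.linearIndependent.comp (fun i : Fin g => (⟨i, hlt i⟩ : Ix g)) ?_
      intro i j hij
      exact Fin.ext (congrArg (fun x : Ix g => (x : ℕ)) hij)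
    have hrank : Module.finrank ℚ (Submodule.span ℚ (Set.range v)) = g := by
      rw [finrank_span_eq_card hli, Fintype.card_fin]
    refine (h5 g hg f hm hdeg α hα hsq (Submodule.span ℚ (Set.range v)) hrank ?_ ?_).1
    · refine span_Ck (Bf hm α) v fun i j => ?_
      show Bf hm α (e' _) (e' _) = 0
      have h10 : B' ⟨i, hlt i⟩ ⟨j, hlt j⟩ = 0 := (htl ⟨i, hlt i⟩ ⟨j, hlt j⟩ i.2 j.2).1
      rw [hInt'.gram, h10, Int.cast_zero]
    · intro x hx y hy
      have h9 := span_Ck ((Bf hm α).comp (LinearMap.mulLeft ℚ (th f)) LinearMap.id) v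
        (fun i j => by
          show Bf hm α (th f * e' _) (e' _) = 0
          have h10 : (B' * T') ⟨i, hlt i⟩ ⟨j, hlt j⟩ = 0 :=
            (htl ⟨i, hlt i⟩ ⟨j, hlt j⟩ i.2 j.2).2
          rw [hmat, h10, Int.cast_zero]) x hx y hy
      exact h9

end Pool.Agent.Helper54.HQ
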