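import Pool.Agent.Helper54.HQ.StC

/-! # HQ, module De1: irreducibility -/

set_option autoImplicit false

namespace Pool.Agent.Helper54.HQ

open Polynomial

theorem hDe1 : StDe1 := by
  intro f hm hirr
  have h1 : Irreducible f := hm.irreducible_of_irreducible_map (Int.castRingHom (ZMod 2)) f hirr
  have h2 : Irreducible (fK f) :=
    (hm.irreducible_iff_irreducible_map_fraction_map (K := ℚ)).1 h1
  exact ⟨h2, h2.separable⟩

end Pool.Agent.Helper54.HQ
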