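import Pool.Agent.Helper54.HQ.StC
import Pool.Agent.Helper3.HY.M_De3

/-!
# HQ module De3: regular orders are Dedekind domains
-/

set_option autoImplicit false

namespace Pool.Agent.Helper54.HQ

open Polynomial Finset Filter Topology Matrix IsDedekindDomain
open Pool.Agent.Helper3

theorem hDe3 : StDe3 := by
  intro f hm _ hirr hsm
  have hfi : Irreducible f := by
    refine (hm.irreducible_iff_irreducible_map_fraction_map (K := ℚ)).2 ?_
    rw [algebraMap_int_eq]
    exact hirr
  haveI : IsDomain (RR f) := AdjoinRoot.isDomain_of_prime hfi.prime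
  haveI : Module.Finite ℤ (RR f) := hm.finite_adjoinRoot
  haveI : Algebra.IsIntegral ℤ (RR f) := Algebra.IsIntegral.of_finite ℤ (RR f)
  have hdvr : ∀ P : Ideal (RR f), P ≠ ⊥ → ∀ _ : P.IsPrime,
      IsDiscreteValuationRing (Localization.AtPrime P) := by
    intro P hP hPp
    have hq0 : P.comap (algebraMap ℤ (RR f)) ≠ ⊥ := fun h =>
      hP (Ideal.eq_bot_of_comap_eq_bot h)
    haveI : (P.comap (algebraMap ℤ (RR f))).IsPrime := Ideal.comap_isPrime _ _
    have hqmax : (P.comap (algebraMap ℤ (RR f))).IsMaximal :=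
      Ideal.IsPrime.isMaximal inferInstance hq0
    have hPmax : P.IsMaximal :=
      Ideal.isMaximal_of_isIntegral_of_isMaximal_comap (R := ℤ) P hqmax
    obtain ⟨p, hp⟩ := (IsPrincipalIdealRing.principal
      (P.comap (algebraMap ℤ (RR f)))).principal
    have hp' : P.comap (algebraMap ℤ (RR f)) = Ideal.span {p} := hp
    have hpP : AdjoinRoot.mk f (C p) ∈ P := by
      have : p ∈ P.comap (algebraMap ℤ (RR f)) := by
        rw [hp']; exact Ideal.mem_span_singleton_self p
      exact this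
    obtain ⟨m, hmdef⟩ : ∃ m : Ideal ℤ[X], m = P.comap (AdjoinRoot.mk f) := ⟨_, rfl⟩
    have hmmax : m.IsMaximal := by
      rw [hmdef]
      exact Ideal.comap_isMaximal_of_surjective _ AdjoinRoot.mk_surjective
    have hpm : C p ∈ m := by rw [hmdef]; exact hpP
    obtain ⟨h, hh, hgen⟩ := HY.De3.two_gen m p (hp' ▸ hqmax) hpm
    have hfm : f ∈ m := by
      rw [hmdef, Ideal.mem_comap, AdjoinRoot.mk_self]
      exact P.zero_mem
    obtain ⟨a, b, hab⟩ := hgen f hfm
    have hnot : a ∉ m ∨ b ∉ m := by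
      by_contra hcon
      push Not at hcon
      apply hsm m hmmax
      rw [pow_two, hab]
      exact Ideal.add_mem _ (Ideal.mul_mem_mul hcon.1 hpm) (Ideal.mul_mem_mul hcon.2 hh)
    refine HY.De3.dvr P hP (AdjoinRoot.mk f (C p)) (AdjoinRoot.mk f h) (AdjoinRoot.mk f a)
      (AdjoinRoot.mk f b) ?_ hpP (by rw [hmdef] at hh; exact hh) ?_ ?_
    · intro x hx
      obtain ⟨x, rfl⟩ := AdjoinRoot.mk_surjective x
      obtain ⟨c, d, hcd⟩ := hgen x (by rw [hmdef]; exact hx)
      exact ⟨AdjoinRoot.mk f c, AdjoinRoot.mk f d, by rw [hcd, map_add, map_mul, map_mul]⟩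
    · rw [← map_mul, ← map_mul, ← map_add, ← hab, AdjoinRoot.mk_self]
    · rw [hmdef] at hnot
      exact hnot
  haveI : IsDedekindDomainDvr (RR f) := { is_dvr_at_nonzero_prime := hdvr }
  infer_instance

end Pool.Agent.Helper54.HQ
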