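import Pool.Agent.Helper54.HQ.StC

/-!
# HQ module De4: conditions at the primes imply regularity
-/

set_option autoImplicit false

namespace Pool.Agent.Helper54.HQ

open Polynomial Finset Filter Topology Matrix IsDedekindDomain

/-- a maximal ideal of `ℤ[x]` which contains a monic polynomial contains a prime -/
theorem prime_De4 {f : ℤ[X]} (hm : f.Monic) (m : Ideal ℤ[X]) (hmax : m.IsMaximal) (hf : f ∈ m) :
    ∃ p : ℕ, p.Prime ∧ C (p : ℤ) ∈ m := by
  have hker : RingHom.ker (AdjoinRoot.mk f) ≤ m := by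
    intro x hx
    rw [RingHom.mem_ker, AdjoinRoot.mk_eq_zero] at hx
    exact m.mem_of_dvd hx hf
  have hsurj : Function.Surjective (AdjoinRoot.mk f) := AdjoinRoot.mk_surjective
  haveI : Module.Finite ℤ (AdjoinRoot f) := hm.finite_adjoinRoot
  haveI : Algebra.IsIntegral ℤ (AdjoinRoot f) := Algebra.IsIntegral.of_finite ℤ (AdjoinRoot f)
  have hcm : (m.map (AdjoinRoot.mk f)).comap (AdjoinRoot.mk f) = m := by
    rw [Ideal.comap_map_of_surjective' _ hsurj]
    exact sup_of_le_left hker
  haveI hP : (m.map (AdjoinRoot.mk f)).IsMaximal := by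
    refine (Ideal.map_eq_top_or_isMaximal_of_surjective _ hsurj hmax).resolve_left fun h => ?_
    rw [h, Ideal.comap_top] at hcm
    exact hmax.ne_top hcm.symm
  have hq : ((m.map (AdjoinRoot.mk f)).comap (algebraMap ℤ (AdjoinRoot f))).IsMaximal :=
    Ideal.isMaximal_comap_of_isIntegral_of_isMaximal _
  obtain ⟨q, hqdef⟩ : ∃ q : Ideal ℤ, q = (m.map (AdjoinRoot.mk f)).comap
    (algebraMap ℤ (AdjoinRoot f)) := ⟨_, rfl⟩
  rw [← hqdef] at hq
  have hmem : ∀ a : ℤ, a ∈ q → C a ∈ m := by
    intro a ha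
    rw [← hcm, Ideal.mem_comap]
    rw [hqdef, Ideal.mem_comap] at ha
    exact ha
  have hq0 : q ≠ ⊥ := by
    intro h
    rw [h] at hq
    exact Int.not_isField (Ring.isField_iff_maximal_bot.2 hq)
  obtain ⟨a, ha⟩ := (IsPrincipalIdealRing.principal q).principal
  have ha' : q = Ideal.span {a} := ha
  have ha0 : a ≠ 0 := by
    rintro rfl
    rw [Ideal.span_singleton_eq_bot.2 rfl] at ha'
    exact hq0 ha'
  have hpr : Prime a := by
    rw [← Ideal.span_singleton_prime ha0, ← ha']
    exact hq.isPrime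
  refine ⟨a.natAbs, Int.prime_iff_natAbs_prime.1 hpr, hmem _ ?_⟩
  rw [ha', Ideal.mem_span_singleton]
  exact Int.dvd_natAbs.2 dvd_rfl

/-- generators of a maximal ideal -/
theorem gen_De4 (m : Ideal ℤ[X]) (hmax : m.IsMaximal) (p : ℕ) (hp : p.Prime)
    (hpm : C (p : ℤ) ∈ m) : ∃ φ : ℤ[X], φ.Monic ∧ Irreducible (φ.map (Int.castRingHom (ZMod p))) ∧
      m = Ideal.span {C (p : ℤ), φ} := by
  haveI : Fact p.Prime := ⟨hp⟩
  obtain ⟨π, hπdef⟩ : ∃ π : ℤ[X] →+* (ZMod p)[X], π = mapRingHom (Int.castRingHom (ZMod p)) :=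
    ⟨_, rfl⟩
  have hπ : Function.Surjective π := by
    rw [hπdef]; exact map_surjective _ ZMod.intCast_surjective
  have hkerd : ∀ x : ℤ[X], π x = 0 → C (p : ℤ) ∣ x := by
    intro x hx
    rw [C_dvd_iff_dvd_coeff]
    intro i
    have h4 := congrArg (fun q => q.coeff i) hx
    simp only [hπdef, coe_mapRingHom, coeff_map, coeff_zero, eq_intCast] at h4
    exact (ZMod.intCast_zmod_eq_zero_iff_dvd _ _).1 h4
  have hker : RingHom.ker π ≤ m := by
    intro x hx
    exact m.mem_of_dvd (hkerd x hx) hpm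
  have hcm : (m.map π).comap π = m := by
    rw [Ideal.comap_map_of_surjective' _ hπ]
    exact sup_of_le_left hker
  have hP : (m.map π).IsMaximal := by
    refine (Ideal.map_eq_top_or_isMaximal_of_surjective _ hπ hmax).resolve_left fun h => ?_
    rw [h, Ideal.comap_top] at hcm
    exact hmax.ne_top hcm.symm
  obtain ⟨g, hg⟩ := (IsPrincipalIdealRing.principal (m.map π)).principal
  have hg' : m.map π = Ideal.span {g} := hg
  have hg0 : g ≠ 0 := by
    rintro rfl
    rw [Ideal.span_singleton_eq_bot.2 rfl] at hg'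
    rw [hg'] at hP
    exact Polynomial.not_isField (ZMod p) (Ring.isField_iff_maximal_bot.2 hP)
  have hgpr : Prime g := by
    rw [← Ideal.span_singleton_prime hg0, ← hg']
    exact hP.isPrime
  have hass : Associated (normalize g) g := normalize_associated g
  have hgm : (normalize g).Monic := monic_normalize hg0
  obtain ⟨φ, hφ1, hφ2, hφ3⟩ := lifts_and_natDegree_eq_and_monic
    (f := Int.castRingHom (ZMod p)) (p := normalize g) (by
      obtain ⟨x, hx⟩ := hπ (normalize g)
      rw [hπdef] at hx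
      exact ⟨x, hx⟩) hgm
  have hspan : m.map π = Ideal.span {π φ} := by
    have h1 : π φ = normalize g := by rw [hπdef]; exact hφ1
    rw [h1, hg']
    exact (Ideal.span_singleton_eq_span_singleton.2 hass).symm
  have hφm : φ ∈ m := by
    rw [← hcm, Ideal.mem_comap, hspan]
    exact Ideal.mem_span_singleton_self _
  refine ⟨φ, hφ3, ?_, ?_⟩
  · rw [hφ1]
    exact (hass.irreducible_iff).2 hgpr.irreducible
  · refine le_antisymm ?_ ?_
    · intro x hx
      have h1 : π x ∈ Ideal.span {π φ} := by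
        rw [← hspan]
        exact Ideal.mem_map_of_mem π hx
      obtain ⟨c, hc⟩ := Ideal.mem_span_singleton'.1 h1
      obtain ⟨c, rfl⟩ := hπ c
      obtain ⟨a, ha⟩ := hkerd (x - c * φ) (by rw [map_sub, map_mul, hc, sub_self])
      rw [Ideal.mem_span_pair]
      exact ⟨a, c, by rw [mul_comm a, ← ha]; ring⟩
    · rw [Ideal.span_le]
      intro x hx
      rcases hx with rfl | hx
      · exact hpm
      · rw [Set.mem_singleton_iff.1 hx]
        exact hφm

theorem hDe4 : StDe4 := by
  intro f hm h m hmax hfm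
  have hf1 : f ∈ m := Ideal.pow_le_self two_ne_zero hfm
  obtain ⟨p, hp, hpm⟩ := prime_De4 hm m hmax hf1
  obtain ⟨φ, hφm, hφi, hspan⟩ := gen_De4 m hmax p hp hpm
  haveI : Fact p.Prime := ⟨hp⟩
  have h2 : ∃ a b d : ℤ[X], f = a * C (p : ℤ) ^ 2 + b * (C (p : ℤ) * φ) + d * φ ^ 2 := by
    rw [pow_two, hspan, Ideal.span_pair_mul_span_pair] at hfm
    simp only [Ideal.mem_span_insert, Ideal.mem_span_singleton'] at hfm
    obtain ⟨a, x, ⟨b, y, ⟨c, z, ⟨d, rfl⟩, rfl⟩, rfl⟩, hx⟩ := hfm
    exact ⟨a, b + c, d, by rw [hx]; ring⟩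
  obtain ⟨a, b, d, habd⟩ := h2
  have hpz : (Int.castRingHom (ZMod p)) (p : ℤ) = 0 := by simp
  rcases Nat.lt_or_ge (φ.map (Int.castRingHom (ZMod p))).natDegree 2 with h3 | h3
  · have h4 : 0 < (φ.map (Int.castRingHom (ZMod p))).natDegree := hφi.natDegree_pos
    rw [hφm.natDegree_map] at h3 h4
    have h5 : φ.natDegree = 1 := by omega
    have h6 : φ = X + C (φ.coeff 0) := by
      have := eq_X_add_C_of_natDegree_le_one (p := φ) (by omega)
      rw [show φ.coeff 1 = 1 by rw [← h5]; exact hφm.coeff_natDegree] at this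
      simpa using this
    have h7 : φ.eval (-φ.coeff 0) = 0 := by
      conv_lhs => rw [h6]
      simp
    refine (h p hp).1 ⟨-φ.coeff 0, ?_, ?_⟩
    · rw [habd]
      simp only [eval_add, eval_mul, eval_pow, eval_C, h7]
      exact ⟨a.eval (-φ.coeff 0), by ring⟩
    · rw [habd]
      simp only [derivative_add, derivative_mul, derivative_C, derivative_pow, eval_add, eval_mul,
        eval_pow, eval_C, h7, eval_natCast]
      refine ⟨(derivative a).eval (-φ.coeff 0) * p +
        b.eval (-φ.coeff 0) * (derivative φ).eval (-φ.coeff 0), ?_⟩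
      simp
      ring
  · refine (h p hp).2 ⟨φ.map (Int.castRingHom (ZMod p)), hφm.map _, hφi, h3, ?_⟩
    rw [habd]
    simp only [Polynomial.map_add, Polynomial.map_mul, Polynomial.map_pow, Polynomial.map_C, hpz,
      map_zero]
    exact ⟨d.map (Int.castRingHom (ZMod p)), by ring⟩

end Pool.Agent.Helper54.HQ
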