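import Pool.Agent.Helper54.HQ.Base
import Pool.Agent.Helper54.HL.St

/-!
# HQ module EI (port of the HL module of helper72)
-/

set_option autoImplicit false

namespace Pool.Agent.Helper54.HQ

open Polynomial IsDedekindDomain
open Pool.Agent.Helper3.HY (co tau Ix nu TType IType baseChange descentGroup IsPointValue IsTwPoint
  twGroup co_mk sum_co ext_co co_eq_zero)
open Pool.Agent.Helper54.HL (tk IrrInt IrrBig Nr Rep RepA RepB pr pr_mk IsTwIrr LinePt RootLift)

private lemma exp_sq_EI (m : ℕ) (h : Even m) : IsSquare (WithZero.exp (-(m : ℤ))) := by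
  obtain ⟨n, rfl⟩ := h
  exact ⟨WithZero.exp (-(n : ℤ)), by rw [← WithZero.exp_add]; congr 1; push_cast; ring⟩

/-- Clearing denominators by a power of the uniformizer. -/
private lemma clear_EI {O k : Type} [CommRing O] [IsDomain O] [IsDiscreteValuationRing O] [Field k]
    [Algebra O k] [IsFractionRing O k] {π : O} (hπ : Irreducible π) (Y : k[X]) :
    ∃ (r : ℕ) (Y₀ : O[X]), C (algebraMap O k (π ^ r)) * Y = tk k Y₀ := by
  obtain ⟨b, hb, hY⟩ := IsLocalization.integerNormalization_spec (nonZeroDivisors O) (S := k) Y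
  obtain ⟨r, u, hu⟩ := IsDiscreteValuationRing.associated_pow_irreducible
    (nonZeroDivisors.ne_zero hb) hπ
  refine ⟨r, C (u : O) * IsLocalization.integerNormalization (nonZeroDivisors O) Y, ?_⟩
  rw [show tk k (C (u : O) * IsLocalization.integerNormalization (nonZeroDivisors O) Y) =
    (C (u : O) * IsLocalization.integerNormalization (nonZeroDivisors O) Y).map
      (algebraMap O k) from rfl, Polynomial.map_mul, hY, map_C, ← hu, map_mul, C_mul,
    ← algebraMap_smul k b Y, smul_eq_C_mul]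
  ring

/-- Approximation of a monic polynomial. -/
private lemma approx_EI {O : Type} [CommRing O] [IsDomain O]
    (i : ℤ →+* O) (π : O) (hd : ∀ (c : O) (n : ℕ), ∃ a : ℤ, π ^ n ∣ c - i a)
    (U₀ : O[X]) (hm : U₀.Monic) (N : ℕ) :
    ∃ (U₁ : ℤ[X]) (E : O[X]), U₀ - U₁.map i = C (π ^ N) * E := by
  choose a ha using fun l : ℕ => hd (U₀.coeff l) N
  choose e he using ha
  obtain ⟨m, hm'⟩ : ∃ m, U₀.natDegree = m := ⟨_, rfl⟩
  have h := hm.as_sum
  rw [hm'] at h
  refine ⟨X ^ m + ∑ l ∈ Finset.range m, C (a l) * X ^ l,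
    ∑ l ∈ Finset.range m, C (e l) * X ^ l, ?_⟩
  conv_lhs => rw [h]
  rw [Polynomial.map_add, Polynomial.map_pow, map_X, Polynomial.map_sum,
    add_sub_add_left_eq_sub, ← Finset.sum_sub_distrib, Finset.mul_sum]
  refine Finset.sum_congr rfl fun l _ => ?_
  rw [Polynomial.map_mul, map_C, Polynomial.map_pow, map_X, ← sub_mul, ← C_sub, he l, C_mul]
  ring

theorem hEI (h1 : HL.StOP) (h2 : StOV) (h3 : StUQ) (h4 : HL.StNG) : StEI := by
  classical
  intro f hf _ _ _ P O k _ _ _ _ _ _ i j ρ hP2 hLD D hD U V hUi hUc hUV hIrr y' hy'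
  obtain ⟨U₀, hU₀m, hU₀, ψ, n, hψm, hψi, hn, hψn⟩ := hIrr
  have hinj : Function.Injective (algebraMap O k) := IsFractionRing.injective O k
  have hh : (fK f).map j = tk k (f.map i) := hLD.map f
  have hf₀ : (f.map i).Monic := hf.map i
  set m := U.natDegree with hm
  have hUm : U.Monic := by rw [← hU₀]; exact hU₀m.map _
  have hm0 : U₀.natDegree = m := by rw [hm, ← hU₀, hU₀m.natDegree_map]
  have hjD : j (Int.castRingHom ℚ D) = algebraMap O k (i D) := (hLD.comp D).symm
  have hρunit : ∀ c : O, ρ c ≠ 0 → IsUnit c := by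
    intro c hc
    by_contra hcu
    apply hc
    rw [hLD.ker]
    have h12 : c ∈ IsLocalRing.maximalIdeal O := (IsLocalRing.mem_maximalIdeal c).2 hcu
    rw [(IsDiscreteValuationRing.irreducible_iff_uniformizer _).1 hLD.unif,
      Ideal.mem_span_singleton] at h12
    exact h12
  have hiD : IsUnit (i D) := by
    apply hρunit
    rw [hLD.rho]
    intro h
    exact hD (red_eq_zero.1 h)
  rw [hjD] at hy' hUV
  -- the inverse
  obtain ⟨Y', rfl⟩ := AdjoinRoot.mk_surjective y'
  obtain ⟨r₀, Y₀, hY₀⟩ := clear_EI (k := k) hLD.unif Y'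
  obtain ⟨U₁, E, hE⟩ := approx_EI i (i (pz P)) hLD.dense U₀ hU₀m (r₀ + 1)
  have hEk : U - tk k (U₁.map i) = C (algebraMap O k (i (pz P))) * (C (algebraMap O k (i (pz P) ^ r₀)) *
      tk k E) := by
    have h5 := congrArg (fun p : O[X] => p.map (algebraMap O k)) hE
    simp only [Polynomial.map_sub, Polynomial.map_mul, map_C] at h5
    rw [← hU₀]
    refine h5.trans ?_
    rw [pow_succ, map_mul, C_mul]
    ring
  -- the element `z`
  set zp : ℤ[X] := C (-D) ^ m * U₁ with hzp
  set z : LL f := algebraMap (RR f) (LL f) (AdjoinRoot.mk f zp) with hz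
  have hbc : baseChange j (fK f) z =
      AdjoinRoot.mk ((fK f).map j) (C (-algebraMap O k (i D)) ^ m * tk k (U₁.map i)) := by
    rw [hz, algebraMap_mk, baseChange]
    have h5 : ∀ p : ℚ[X], AdjoinRoot.map j (fK f) ((fK f).map j) dvd_rfl
        (AdjoinRoot.mk (fK f) p) = AdjoinRoot.mk ((fK f).map j) (p.map j) := by
      intro p
      rw [AdjoinRoot.map, AdjoinRoot.lift_mk, ← Polynomial.eval₂_map, ← AdjoinRoot.aeval_eq,
        Polynomial.aeval_def]
      rfl
    rw [h5]
    congr 1
    have h6 : ∀ g : ℤ[X], (g.map (Int.castRingHom ℚ)).map j = tk k (g.map i) :=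
      fun g => hLD.map g
    rw [h6, hzp, Polynomial.map_mul, Polynomial.map_pow, map_C]
    rw [show tk k (C (i (-D)) ^ m * U₁.map i) = (C (i (-D)) ^ m * U₁.map i).map (algebraMap O k)
      from rfl, Polynomial.map_mul, Polynomial.map_pow, map_C, map_neg, map_neg]
  set p : O[X] := -(C (-(i D)) ^ m * Y₀ * E) with hp
  have hw1 : baseChange j (fK f) z * AdjoinRoot.mk ((fK f).map j) Y' =
      1 + AdjoinRoot.mk ((fK f).map j) (C (algebraMap O k (i (pz P))) * tk k p) := by
    rw [hbc, ← hy', ← map_mul, ← map_mul, ← map_add]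
    congr 1
    have h5 : tk k (U₁.map i) = U - C (algebraMap O k (i (pz P))) *
        (C (algebraMap O k (i (pz P) ^ r₀)) * tk k E) := by rw [← hEk]; ring
    have h6 : tk k p = -(C (-algebraMap O k (i D)) ^ m * (C (algebraMap O k (i (pz P) ^ r₀)) * Y') *
        tk k E) := by
      rw [hY₀, hp]
      rw [show tk k (-(C (-(i D)) ^ m * Y₀ * E)) = (-(C (-(i D)) ^ m * Y₀ * E)).map
        (algebraMap O k) from rfl, Polynomial.map_neg, Polynomial.map_mul, Polynomial.map_mul,
        Polynomial.map_pow, map_C, map_neg]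
    rw [h5, h6]
    ring
  have hNr : Nr (i (pz P)) (baseChange j (fK f) z * AdjoinRoot.mk ((fK f).map j) Y') := ⟨p, hw1⟩
  obtain ⟨hNG1, hNG2, hNG3⟩ := h4 O k (i (pz P)) hLD.unif (f.map i) hf₀ _ hh
  obtain ⟨w', hw', hNr'⟩ := hNG2 _ hNr
  obtain ⟨p', hp'⟩ := hNr'
  have hz0 : z ≠ 0 := by
    intro h
    rw [h, map_zero, zero_mul, zero_mul] at hw'
    have h5 : Nontrivial (AdjoinRoot ((fK f).map j)) := by
      refine AdjoinRoot.nontrivial _ ?_
      rw [degree_map]
      have h6 : Irreducible (fK f) := Fact.out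
      exact (degree_pos_of_irreducible h6).ne'
    exact zero_ne_one hw'
  refine ⟨Units.mk0 z hz0, ?_, by rw [Units.val_mk0]; exact hNr⟩
  intro q hq
  rw [Units.val_mk0]
  -- reductions
  have hred : U₁.map (red P) = ψ ^ n := by
    rw [← hψn, ← hLD.map_red]
    have h5 := congrArg (fun p : O[X] => p.map ρ) hE
    simp only [Polynomial.map_sub, Polynomial.map_mul, map_C] at h5
    rw [pow_succ, map_mul, (hLD.ker (i (pz P))).2 dvd_rfl, mul_zero, C_0, zero_mul, sub_eq_zero] at h5
    exact h5.symm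
  obtain ⟨Ψ, hΨ⟩ := Polynomial.map_surjective (red P) (red_surj P) ψ
  have hmem : ∀ q' : HeightOneSpectrum (RR f), Over P q' →
      (AdjoinRoot.mk f U₁ ∈ q'.asIdeal → AdjoinRoot.mk f Ψ ∈ q'.asIdeal) := by
    intro q' hq' h
    have h5 : (U₁ - Ψ ^ n).map (red P) = 0 := by
      rw [Polynomial.map_sub, Polynomial.map_pow, hΨ, hred, sub_self]
    have h6 : C (pz P) ∣ U₁ - Ψ ^ n := by
      rw [C_dvd_iff_dvd_coeff]
      intro l
      have h7 := congrArg (fun p => coeff p l) h5
      simp only [coeff_map, coeff_zero] at h7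
      exact red_eq_zero.1 h7
    obtain ⟨G, hG⟩ := h6
    have h7 : AdjoinRoot.mk f Ψ ^ n ∈ q'.asIdeal := by
      have h8 : AdjoinRoot.mk f Ψ ^ n = AdjoinRoot.mk f U₁ -
          Int.castRingHom (RR f) (pz P) * AdjoinRoot.mk f G := by
        have h9 : AdjoinRoot.mk f (C (pz P)) = Int.castRingHom (RR f) (pz P) := by
          rw [AdjoinRoot.mk_C, of_eq_castRingHom]
        rw [← h9, ← map_mul, ← hG, map_sub, map_pow]
        ring
      rw [h8]
      exact Ideal.sub_mem _ h (Ideal.mul_mem_right _ _ hq')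
    exact q'.isPrime.mem_of_pow_mem n h7
  have hDq : q.valuation (LL f) (algebraMap (RR f) (LL f) (AdjoinRoot.mk f (C (-D) ^ m))) = 1 := by
    rw [HeightOneSpectrum.valuation_eq_one_iff_notMem]
    intro h
    rw [map_pow] at h
    have h5 := q.isPrime.mem_of_pow_mem m h
    have h6 : IsCoprime D (pz P) := (((pz_prime P).irreducible.coprime_iff_not_dvd).2 hD).symm
    obtain ⟨a, b, hab⟩ := h6
    apply q.isPrime.ne_top
    rw [Ideal.eq_top_iff_one]
    have h7 : (1 : RR f) = -(AdjoinRoot.mk f (C a)) * AdjoinRoot.mk f (C (-D)) +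
        AdjoinRoot.mk f (C b) * Int.castRingHom (RR f) (pz P) := by
      have h9 : AdjoinRoot.mk f (C (pz P)) = Int.castRingHom (RR f) (pz P) := by
          rw [AdjoinRoot.mk_C, of_eq_castRingHom]
      rw [← h9, ← map_neg, ← map_mul, ← map_mul, ← map_add, ← C_neg, ← C_mul, ← C_mul, ← C_add,
        neg_mul_neg, hab, C_1, map_one]
    rw [h7]
    exact Ideal.add_mem _ (Ideal.mul_mem_left _ _ h5) (Ideal.mul_mem_left _ _ hq)
  have hval : q.valuation (LL f) z =
      q.valuation (LL f) (algebraMap (RR f) (LL f) (AdjoinRoot.mk f U₁)) := by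
    rw [hz, hzp, map_mul, map_mul, map_mul, hDq, one_mul]
  rw [EvenAt, hval]
  by_cases hΨq : AdjoinRoot.mk f Ψ ∈ q.asIdeal
  · have hU₁0 : AdjoinRoot.mk f U₁ ≠ 0 := by
      intro h
      apply hz0
      rw [hz, hzp, map_mul, h, mul_zero, map_zero]
    obtain ⟨m₂, hm₂, hv₂⟩ := h2 f hf P O k i j ρ hLD q hq U₁ hU₁0 (by
      intro q' hq' hne h
      apply hne
      refine (h3 f hf P q q' hq hq' Ψ Ψ (by rw [hΨ]; exact hψi) rfl hΨq (hmem q' hq' h)).symm)
    have hfin : Finite (kp P) := inferInstance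
    obtain ⟨m', hm', hev⟩ := h1 O k (kp P) (i (pz P)) ρ hLD.unif hLD.surj hLD.ker (f.map i) U₀ hf₀
      hU₀m (by rw [hU₀]; exact hUi) (by rw [hU₀, ← hh]; exact hUc) ψ n hψi hψn (i D) (i D) 0 hiD
      (by rw [pow_zero, one_mul]) V (by rw [hU₀, ← hh]; exact hUV)
    rw [zero_mul, add_zero] at hev
    -- the orders agree
    have hass : Ring.ord (AdjoinRoot (f.map i)) (AdjoinRoot.mk (f.map i) U₀) =
        Ring.ord (AdjoinRoot (f.map i)) (AdjoinRoot.mk (f.map i) (U₁.map i)) := by
      have hdvd : ∀ g : O[X], AdjoinRoot.mk ((fK f).map j) (tk k g) = 0 →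
          AdjoinRoot.mk (f.map i) g = 0 := by
        intro g hg
        rw [AdjoinRoot.mk_eq_zero, hh] at hg
        rw [AdjoinRoot.mk_eq_zero]
        exact (map_dvd_map _ hinj hf₀).1 hg
      -- `w₀` is a unit
      have hunit : AdjoinRoot.mk (f.map i) (1 + C (i (pz P)) * p) *
          AdjoinRoot.mk (f.map i) (1 + C (i (pz P)) * p') = 1 := by
        rw [← sub_eq_zero, ← map_mul, ← map_one (AdjoinRoot.mk (f.map i)), ← map_sub]
        apply hdvd
        have h5 : tk k ((1 + C (i (pz P)) * p) * (1 + C (i (pz P)) * p') - 1) =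
            (1 + C (algebraMap O k (i (pz P))) * tk k p) *
              (1 + C (algebraMap O k (i (pz P))) * tk k p') - 1 := by
          simp only [tk, Polynomial.map_sub, Polynomial.map_mul, Polynomial.map_add,
            Polynomial.map_one, map_C]
        rw [h5, map_sub, map_mul, map_add, map_add, map_one, ← hw1, ← hp', hw', sub_self]
      have hmul : AdjoinRoot.mk (f.map i) (C (-(i D)) ^ m) * AdjoinRoot.mk (f.map i) (U₁.map i) =
          AdjoinRoot.mk (f.map i) (C (-(i D)) ^ m) * (AdjoinRoot.mk (f.map i) U₀ *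
          AdjoinRoot.mk (f.map i) (1 + C (i (pz P)) * p)) := by
        rw [← map_mul, ← map_mul, ← map_mul, ← sub_eq_zero, ← map_sub]
        apply hdvd
        have h5 : tk k (C (-(i D)) ^ m * U₁.map i - C (-(i D)) ^ m *
            (U₀ * (1 + C (i (pz P)) * p))) =
            C (-algebraMap O k (i D)) ^ m * tk k (U₁.map i) -
              (C (-algebraMap O k (i D)) ^ m * U) * (1 + C (algebraMap O k (i (pz P))) * tk k p) := by
          rw [← hU₀]
          simp only [tk, Polynomial.map_sub, Polynomial.map_mul, Polynomial.map_add,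
            Polynomial.map_one, Polynomial.map_pow, map_C, map_neg, Polynomial.map_neg]
          ring
        have h7 : AdjoinRoot.mk ((fK f).map j)
            (1 + C (algebraMap O k (i (pz P))) * tk k p) =
            baseChange j (fK f) z * AdjoinRoot.mk ((fK f).map j) Y' := by
          rw [hw1, map_add, map_one]
        have h6 : AdjoinRoot.mk ((fK f).map j) (C (-algebraMap O k (i D)) ^ m * U) *
            (baseChange j (fK f) z * AdjoinRoot.mk ((fK f).map j) Y') =
            baseChange j (fK f) z * (AdjoinRoot.mk ((fK f).map j)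
              (C (-algebraMap O k (i D)) ^ m * U) * AdjoinRoot.mk ((fK f).map j) Y') := by ring
        rw [h5, map_sub, ← hbc, map_mul _ (C (-algebraMap O k (i D)) ^ m * U), h7, h6, hy',
          mul_one, sub_self]
      have hDu : IsUnit (AdjoinRoot.mk (f.map i) (C (-(i D)) ^ m)) := by
        rw [map_pow]
        refine IsUnit.pow m ?_
        exact (hiD.neg.map (C : O →+* O[X])).map (AdjoinRoot.mk (f.map i))
      have hmul2 := hDu.mul_left_cancel hmul
      rw [hmul2, Ring.ord, Ring.ord,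
        Ideal.span_singleton_mul_right_unit (IsUnit.of_mul_eq_one _ hunit)]
    have h8 : (m' : ℕ∞) = m₂ := by rw [← hm', ← hm₂, hass]
    have h9 : m' = m₂ := by exact_mod_cast h8
    rw [hv₂, ← h9]
    exact exp_sq_EI m' hev
  · have h5 : AdjoinRoot.mk f U₁ ∉ q.asIdeal := fun h => hΨq (hmem q hq h)
    rw [(HeightOneSpectrum.valuation_eq_one_iff_notMem q).2 h5]
    exact IsSquare.one

end Pool.Agent.Helper54.HQ
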