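import Pool.Agent.Helper54.HQ.Base

/-!
# HQ, local part, module Even: even valuations at the regular places
-/

set_option autoImplicit false

namespace Pool.Agent.Helper54.HQ

open Polynomial IsDedekindDomain
open Pool.Agent.Helper3.HY (co tau Ix nu TType IType baseChange descentGroup IsPointValue IsTwPoint
  twGroup)
open Pool.Agent.Helper54.HL (tk IrrInt IrrBig Nr Rep RepA RepB pr pr_mk IsTwIrr LinePt RootLift)

section

variable {f : ℤ[X]} [Fact (Irreducible (fK f))] [IsDedekindDomain (RR f)]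
  [IsFractionRing (RR f) (LL f)]

/-- The units with even valuation at all primes above `P`. -/
private noncomputable def Cl_Even (P : Prm) (f : ℤ[X]) [Fact (Irreducible (fK f))]
    [IsDedekindDomain (RR f)] [IsFractionRing (RR f) (LL f)] : Subgroup (LL f)ˣ where
  carrier := {z | ∀ q : HeightOneSpectrum (RR f), Over P q → EvenAt q (z : LL f)}
  mul_mem' := by
    intro a b ha hb q hq
    have h1 := ha q hq
    have h2 := hb q hq
    unfold EvenAt at h1 h2 ⊢
    rw [Units.val_mul, map_mul]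
    exact h1.mul h2
  one_mem' := by
    intro q hq
    unfold EvenAt
    rw [Units.val_one, map_one]
    exact IsSquare.one
  inv_mem' := by
    intro a ha q hq
    have h1 := ha q hq
    unfold EvenAt at h1 ⊢
    rw [Units.val_inv_eq_inv_val, map_inv₀]
    exact h1.inv

private lemma mem_Cl_Even {P : Prm} {z : (LL f)ˣ} : z ∈ Cl_Even P f ↔
    ∀ q : HeightOneSpectrum (RR f), Over P q → EvenAt q (z : LL f) := Iff.rfl

end

theorem hEven (h1 : StLD) (h2 : StIN) (h3 : StEI) (h4 : HL.StBG) (h5 : StNV) (h6 : StDE)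
    (h7 : HL.StNG) : StEven := by
  intro g hg f hf hdeg _ _ _ P D hP2 hPD z hz q hq
  obtain ⟨i, ρ, hLD, _, hirr⟩ := h1 P
  have hTw : Units.map (baseChange (algebraMap ℚ ℚ_[(P : ℕ)]) (fK f) : LL f →* _) z ∈
      twGroup ((fK f).map (algebraMap ℚ ℚ_[(P : ℕ)]))
        (algebraMap ℚ ℚ_[(P : ℕ)] (Int.castRingHom ℚ D)) := hz
  generalize hj : algebraMap ℚ ℚ_[(P : ℕ)] = j at hLD hTw
  set Dk : ℚ_[(P : ℕ)] := j (Int.castRingHom ℚ D) with hDk
  have hD0 : D ≠ 0 := by rintro rfl; exact hPD (dvd_zero _)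
  have hDk0 : Dk ≠ 0 := by
    rw [hDk, Ne, map_eq_zero, eq_intCast, Int.cast_eq_zero]
    exact hD0
  have hmem : z ∈ Cl_Even P f := by
    refine h2 f hf P ℤ_[(P : ℕ)] ℚ_[(P : ℕ)] i j ρ hLD Dk hDk0 (Cl_Even P f) ?_ ?_ ?_ z hTw
    · intro z hz q hq
      have := (h5 f hf P q hq (z : LL f) hz).2
      unfold EvenAt
      rw [this]; exact IsSquare.one
    · intro z q hq
      unfold EvenAt
      rw [Units.val_pow_eq_pow_val, map_pow]
      exact IsSquare.sq _
    · rintro y y' hyy ⟨U, V, hU, hUirr, hcop, hdiv, hy⟩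
      rcases hirr U hU hUirr with hI | hB
      · have e : AdjoinRoot.mk ((fK f).map j)
            (C (-j (Int.castRingHom ℚ D)) ^ U.natDegree * U) * y' = 1 := by
          rw [← hDk, ← hy]; exact hyy
        obtain ⟨z, hz1, hz2⟩ := h3 f hf P ℤ_[(P : ℕ)] ℚ_[(P : ℕ)] i j ρ hP2 hLD D hPD U V hUirr hcop
          hdiv hI y' e
        exact ⟨z, hz1, hz2⟩
      · have hmap : (fK f).map j = tk ℚ_[(P : ℕ)] (f.map i) := hLD.map f
        have hf₀ : (f.map i).Monic := hf.map i
        have hodd : Odd (f.map i).natDegree := by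
          rw [hf.natDegree_map, hdeg]; exact ⟨g, rfl⟩
        obtain ⟨c, w, hc, hw, e⟩ := h4 ℤ_[(P : ℕ)] ℚ_[(P : ℕ)] (i (pz P)) hLD.unif (f.map i) hf₀ hodd
          ((fK f).map j) hmap Dk hDk0 U V hU hB hcop hdiv
        obtain ⟨hmul, hinv, -⟩ := h7 ℤ_[(P : ℕ)] ℚ_[(P : ℕ)] (i (pz P)) hLD.unif (f.map i) hf₀
          ((fK f).map j) hmap
        obtain ⟨w', hww, hw'⟩ := hinv w hw
        have ecc : algebraMap ℚ_[(P : ℕ)] (AdjoinRoot ((fK f).map j)) c *
            algebraMap ℚ_[(P : ℕ)] (AdjoinRoot ((fK f).map j)) c⁻¹ = 1 := by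
          rw [← map_mul, mul_inv_cancel₀ hc, map_one]
        obtain ⟨z, hz0, hz⟩ := h6 f hf P ℤ_[(P : ℕ)] ℚ_[(P : ℕ)] i j ρ hLD _ _ ecc
        refine ⟨(Units.mk0 z hz0) ^ 2, ?_, ?_⟩
        · intro q hq
          unfold EvenAt
          rw [Units.val_pow_eq_pow_val, map_pow]
          exact IsSquare.sq _
        · have hyy2 : algebraMap ℚ_[(P : ℕ)] (AdjoinRoot ((fK f).map j)) c ^ 2 * w * y' = 1 := by
            rw [← e, ← hy]; exact hyy
          have e3 : algebraMap ℚ_[(P : ℕ)] (AdjoinRoot ((fK f).map j)) c ^ 2 * y' = w' := by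
            calc _ = (algebraMap ℚ_[(P : ℕ)] (AdjoinRoot ((fK f).map j)) c ^ 2 * y') * (w * w') := by
                  rw [hww, mul_one]
              _ = (algebraMap ℚ_[(P : ℕ)] (AdjoinRoot ((fK f).map j)) c ^ 2 * w * y') * w' := by ring
              _ = w' := by rw [hyy2, one_mul]
          have e4 : baseChange j (fK f) (((Units.mk0 z hz0) ^ 2 : (LL f)ˣ) : LL f) * y' =
              (baseChange j (fK f) z * algebraMap ℚ_[(P : ℕ)] (AdjoinRoot ((fK f).map j)) c⁻¹) *
              (baseChange j (fK f) z * algebraMap ℚ_[(P : ℕ)] (AdjoinRoot ((fK f).map j)) c⁻¹) *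
                w' := by
            rw [Units.val_pow_eq_pow_val, Units.val_mk0, map_pow, ← e3]
            calc _ = (baseChange j (fK f) z) ^ 2 * y' * 1 := by ring
              _ = (baseChange j (fK f) z) ^ 2 * y' *
                  ((algebraMap ℚ_[(P : ℕ)] (AdjoinRoot ((fK f).map j)) c *
                    algebraMap ℚ_[(P : ℕ)] (AdjoinRoot ((fK f).map j)) c⁻¹) ^ 2) := by
                  rw [ecc, one_pow]
              _ = _ := by ring
          rw [e4]
          exact hmul _ _ (hmul _ _ hz hz) hw'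
  exact mem_Cl_Even.1 hmem q hq

end Pool.Agent.Helper54.HQ
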