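import Pool.Agent.Helper54.HQ.StF

/-!
# HQ: the final count (module Fin)
-/

set_option autoImplicit false

namespace Pool.Agent.Helper54.HQ

open Polynomial Finset Filter Topology Matrix IsDedekindDomain

private lemma comp_back_Fin (f : ℤ[X]) (a : ℤ) : (f.comp (X + C a)).comp (X - C a) = f := by
  rw [Polynomial.comp_assoc]
  simp

private lemma mono_Fin {N H H' : ℕ} (h : H ≤ H') : Fam0 N H ⊆ Fam0 N H' := by
  rintro f ⟨⟨h1, h2, h3⟩, h4⟩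
  refine ⟨⟨h1, h2, fun i hi => (h3 i hi).trans ?_⟩, h4⟩
  have : (H : ℤ) ≤ H' := by exact_mod_cast h
  gcongr

/-- the set of Pos -/
private def SA_Fin (g H : ℕ) : Set ℤ[X] :=
  {f | f ∈ Fam (2 * g + 1) H ∧ ((2 * g + 1 : ℕ) : ℤ) ∣ f.coeff (2 * g) ∧
        Irreducible (fK f) ∧ Triv f}

/-- the set of Fin -/
private def SB_Fin (g H : ℕ) : Set ℤ[X] :=
  {f | f ∈ Fam0 (2 * g + 1) H ∧ Irreducible (fK f) ∧ Triv f}

/-- the translation -/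
private noncomputable def ta_Fin (g : ℕ) (f : ℤ[X]) : ℤ :=
  -(f.coeff (2 * g) / ((2 * g + 1 : ℕ) : ℤ))

private lemma ta_spec_Fin {g : ℕ} {f : ℤ[X]} (h : ((2 * g + 1 : ℕ) : ℤ) ∣ f.coeff (2 * g)) :
    f.coeff (2 * g) = -((2 * g + 1 : ℕ) : ℤ) * ta_Fin g f := by
  rw [ta_Fin, neg_mul_neg, Int.mul_ediv_cancel' h]

private lemma count_Fin (h2 : StTl) (h3 : StTm) (h4 : StUp0) {g H H₁ : ℕ} (hg : 1 ≤ g)
    (hH : 4 ^ (g + 1) * H₁ ≤ H) (hH1 : 1 ≤ H) :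
    (SA_Fin g H₁).ncard ≤ (SB_Fin g H).ncard * (2 * H₁ + 1) := by
  have hfin : (SB_Fin g H).Finite := (h4 g H hg hH1).1.subset fun f hf => hf.1
  have hI : (Set.Icc (-(H₁ : ℤ)) H₁).Finite := Set.finite_Icc _ _
  have hcard : (Set.Icc (-(H₁ : ℤ)) H₁).ncard = 2 * H₁ + 1 := by
    rw [← Finset.coe_Icc, Set.ncard_coe_finset, Int.card_Icc]
    omega
  rw [← hcard, ← Set.ncard_prod]
  refine Set.ncard_le_ncard_of_injOn
    (fun f => (f.comp (X + C (ta_Fin g f)), ta_Fin g f)) ?_ ?_ (hfin.prod hI)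
  · rintro f ⟨hf1, hf2, hf3, hf4⟩
    obtain ⟨e1, e2⟩ := h3 g H₁ hg f hf1 _ (ta_spec_Fin hf2)
    obtain ⟨e3, e4⟩ := h2 f (ta_Fin g f) hf1.1
    exact ⟨⟨mono_Fin hH e1, e4 hf3, e3 hf4⟩, abs_le.1 e2⟩
  · intro f _ f' _ h
    simp only [Prod.mk.injEq] at h
    obtain ⟨h, ha⟩ := h
    rw [← comp_back_Fin f (ta_Fin g f), ← comp_back_Fin f' (ta_Fin g f'), h, ha]

theorem hFin (h1 : StPos) (h2 : StTl) (h3 : StTm) (h4 : StUp0) : StFin := by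
  intro g hg
  obtain ⟨δ₁, hδ₁, hev⟩ := h1 g hg
  obtain ⟨H₀, hH₀⟩ := eventually_atTop.1 hev
  obtain ⟨K, hK⟩ : ∃ K : ℕ, K = 4 ^ (g + 1) := ⟨_, rfl⟩
  have hK0 : 0 < K := by rw [hK]; positivity
  obtain ⟨e, he⟩ : ∃ e : ℕ, (g + 1) * (2 * g + 1) = e + 1 :=
    ⟨(g + 1) * (2 * g + 1) - 1, by
      have : 0 < (g + 1) * (2 * g + 1) := by positivity
      omega⟩
  obtain ⟨N3, hN3⟩ : ∃ N3 : ℝ, N3 = 3 ^ (2 * g + 1) := ⟨_, rfl⟩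
  have hN30 : 0 < N3 := by rw [hN3]; positivity
  have hKr : (0 : ℝ) < K := by exact_mod_cast hK0
  refine ⟨δ₁ / (3 * N3 * (2 * K) ^ e), by positivity, eventually_atTop.2 ⟨K * (H₀ + 1), ?_⟩⟩
  intro H hH
  obtain ⟨H₁, hH₁⟩ : ∃ H₁ : ℕ, H₁ = H / K := ⟨_, rfl⟩
  have hH1 : H₀ + 1 ≤ H₁ := by
    rw [hH₁, Nat.le_div_iff_mul_le hK0, mul_comm]
    exact hH
  have hKH : K * H₁ ≤ H := by rw [hH₁]; exact Nat.mul_div_le H K
  have hHK : H < K * (H₁ + 1) := by rw [hH₁]; exact Nat.lt_mul_div_succ H hK0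
  have h1H : 1 ≤ H := by nlinarith
  have hc := count_Fin h2 h3 h4 hg (by rw [← hK]; exact hKH) h1H
  have hP : δ₁ * (H₁ : ℝ) ^ (e + 1) ≤ ((SA_Fin g H₁).ncard : ℝ) := by
    have := hH₀ H₁ (by omega)
    rw [he] at this
    exact this
  have hU := (h4 g H hg h1H).2
  rw [he, ← hN3] at hU
  have hHr : (0 : ℝ) < H := by exact_mod_cast h1H
  have hH1r : (1 : ℝ) ≤ H₁ := by exact_mod_cast (show 1 ≤ H₁ by omega)
  -- upper bound for the family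
  have hU2 : ((Fam0 (2 * g + 1) H).ncard : ℝ) ≤ N3 * (H : ℝ) ^ e := by
    rw [pow_succ, ← mul_assoc] at hU
    exact le_of_mul_le_mul_right hU hHr
  -- lower bound
  have hc' : ((SA_Fin g H₁).ncard : ℝ) ≤ ((SB_Fin g H).ncard : ℝ) * (2 * H₁ + 1) := by
    exact_mod_cast hc
  have hL : δ₁ * (H₁ : ℝ) ^ e ≤ 3 * ((SB_Fin g H).ncard : ℝ) := by
    have e1 : δ₁ * (H₁ : ℝ) ^ e * H₁ ≤ 3 * ((SB_Fin g H).ncard : ℝ) * H₁ := by
      calc δ₁ * (H₁ : ℝ) ^ e * H₁ = δ₁ * (H₁ : ℝ) ^ (e + 1) := by ring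
        _ ≤ ((SB_Fin g H).ncard : ℝ) * (2 * H₁ + 1) := hP.trans hc'
        _ ≤ ((SB_Fin g H).ncard : ℝ) * (3 * H₁) := by gcongr; linarith
        _ = 3 * ((SB_Fin g H).ncard : ℝ) * H₁ := by ring
    exact le_of_mul_le_mul_right e1 (by linarith)
  have hHH : (H : ℝ) ≤ 2 * K * H₁ := by
    have e1 : (H : ℝ) ≤ K * (H₁ + 1) := by exact_mod_cast hHK.le
    nlinarith
  change δ₁ / (3 * N3 * (2 * K) ^ e) * ((Fam0 (2 * g + 1) H).ncard : ℝ) ≤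
    ((SB_Fin g H).ncard : ℝ)
  calc δ₁ / (3 * N3 * (2 * K) ^ e) * ((Fam0 (2 * g + 1) H).ncard : ℝ) ≤
      δ₁ / (3 * N3 * (2 * K) ^ e) * (N3 * (2 * K * H₁) ^ e) := by
        gcongr
        exact hU2.trans (by gcongr)
    _ = δ₁ * (H₁ : ℝ) ^ e / 3 := by
        rw [mul_pow (2 * (K : ℝ)) (H₁ : ℝ) e]
        have hZ : 0 < (2 * (K : ℝ)) ^ e := by positivity
        obtain ⟨Z, hZ'⟩ : ∃ Z : ℝ, Z = (2 * (K : ℝ)) ^ e := ⟨_, rfl⟩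
        rw [← hZ'] at hZ ⊢
        field_simp
    _ ≤ ((SB_Fin g H).ncard : ℝ) := by linarith

end Pool.Agent.Helper54.HQ
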