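import Pool.Agent.Helper54.HQ.StF

/-!
# HQ, module Fs: scaling
-/

set_option autoImplicit false

namespace Pool.Agent.Helper54.HQ

open Polynomial Finset Filter Topology Matrix IsDedekindDomain

lemma irr_Fs (p : ℚ[X]) (s : ℚ) (hs : s ≠ 0) (h : Irreducible p) :
    Irreducible (p.scaleRoots s) := by
  constructor
  · rw [isUnit_iff_degree_eq_zero, degree_scaleRoots, ← isUnit_iff_degree_eq_zero]
    exact h.not_isUnit
  · intro a b hab
    have h1 : p = a.scaleRoots s⁻¹ * b.scaleRoots s⁻¹ := by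
      rw [← mul_scaleRoots_of_noZeroDivisors, ← hab, ← scaleRoots_mul, mul_inv_cancel₀ hs,
        scaleRoots_one]
    have h2 := h.isUnit_or_isUnit h1
    rwa [isUnit_iff_degree_eq_zero, isUnit_iff_degree_eq_zero, degree_scaleRoots,
      degree_scaleRoots, ← isUnit_iff_degree_eq_zero, ← isUnit_iff_degree_eq_zero] at h2

theorem hFs : StFs := by
  intro N H D hD
  refine ⟨?_, ?_, ?_⟩
  · intro f hf
    obtain ⟨hm, hN, hc⟩ := hf
    refine ⟨⟨(monic_scaleRoots_iff _).2 hm, by rw [natDegree_scaleRoots, hN], fun i hi => ?_⟩,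
      fun m hmd => ?_, fun hirr => ?_⟩
    · rw [coeff_scaleRoots, hN, abs_mul, abs_pow, Nat.abs_cast, Nat.cast_mul, mul_pow]
      exact mul_le_mul_of_nonneg_right (hc i hi) (by positivity)
    · rw [coeff_scaleRoots]
      exact hmd.mul_right _
    · have h1 : fK (f.scaleRoots (D : ℤ)) = (fK f).scaleRoots (Int.castRingHom ℚ (D : ℤ)) := by
        refine map_scaleRoots f (D : ℤ) (Int.castRingHom ℚ) ?_
        rw [hm.leadingCoeff, map_one]
        exact one_ne_zero
      rw [h1]
      refine irr_Fs _ _ ?_ hirr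
      rw [eq_intCast, Int.cast_natCast]
      exact_mod_cast (by omega : D ≠ 0)
  · intro f hf f' hf' h
    ext i
    have h1 := congrArg (fun p => p.coeff i) h
    simp only [coeff_scaleRoots] at h1
    rw [hf.2.1, hf'.2.1] at h1
    have hD0 : (D : ℤ) ≠ 0 := by exact_mod_cast (by omega : D ≠ 0)
    exact mul_right_cancel₀ (pow_ne_zero _ hD0) h1
  · intro H' hH f hf
    obtain ⟨hm, hN, hc⟩ := hf
    refine ⟨hm, hN, fun i hi => (hc i hi).trans ?_⟩
    exact pow_le_pow_left₀ (by positivity) (by exact_mod_cast hH) _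

end Pool.Agent.Helper54.HQ
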