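import Pool.Agent.Helper54.HQ.DefsU
import Pool.Agent.Helper3.HY.StUU

/-!
# HQ: counting pairs of matrices (statements)

`N = 2 g + 1`, `n₂ = (g + 1) (2 g + 1)` is the number of pairs `i ≤ j`, `Q = |k|`.  The combinatorial
functions `nu`, `rho2`, `exc`, `Adm` and the statements `HY.StUb`, `HY.StUc`, `HY.StUe1`, `HY.StUg`,
`HY.StUi1`, `HY.StUi2` of `Helper3/HY/StUU.lean` (all proved) are reused.
-/

set_option autoImplicit false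

namespace Pool.Agent.Helper54.HQ

open Polynomial Finset Filter Topology Matrix IsDedekindDomain
open Pool.Agent.Helper3.HY (co tau Ix nu TType IType rho2 exc Adm Gm)
open Pool.Agent.Helper3

/-- The unipotent matrices of the type `m`. -/
def Uni (g : ℕ) (m : Fin g → ℕ) : Set (Matrix (Ix g) (Ix g) ℤ) :=
  {u | (∀ i, u i i = 1) ∧ ∀ i j, i ≠ j → u i j = 0 ∨
    (i < j ∧ |((u i j : ℤ) : ℝ)| ≤ (2 : ℝ) ^ (nu g m j - nu g m i))}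

/-- The exponent of the number of unipotent matrices. -/
def ups (g : ℕ) (m : Fin g → ℕ) : ℕ :=
  ∑ p : Ix g × Ix g, if p.1 < p.2 then (nu g m p.2 - nu g m p.1).toNat else 0

/-- The exponent of the number of Gram matrices. -/
def sB (g : ℕ) (m : Fin g → ℕ) : ℕ :=
  ∑ p : Ix g × Ix g, if p.1 ≤ p.2 then (nu g m p.1 + nu g m p.2).toNat else 0

/-- The action of `u` on pairs. -/
def act {g : ℕ} (u : Matrix (Ix g) (Ix g) ℤ) (p : Pr g) : Pr g := (uᵀ * p.1 * u, uᵀ * p.2 * u)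

/-- The pairs in the box which are good at `T`. -/
def PB (g : ℕ) (C H : ℝ) (m : Fin g → ℕ) (T : Finset Prm) : Set (Pr g) :=
  {p | InBox g C H m p ∧ LocT T p}

/-- The pairs in the box with vanishing top left blocks. -/
def PD (g : ℕ) (C H : ℝ) (m : Fin g → ℕ) : Set (Pr g) := {p | InBox g C H m p ∧ TL p}

/-- Ua (many unipotent matrices).  `ν` is monotone (`HY.nu_mono`).  For `i < j` choose `u_ij` among the
`2 ^ (ν_j - ν_i)` integers `0 ≤ x < 2 ^ (ν_j - ν_i)`; `u_ii = 1`, `u_ij = 0` for `i > j`.  The number of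
choices is `2 ^ ups`. -/
def StUa : Prop :=
  ∀ (g : ℕ) (m : Fin g → ℕ), Antitone m →
    ∃ s : Finset (Matrix (Ix g) (Ix g) ℤ), (∀ u ∈ s, u ∈ Uni g m) ∧ 2 ^ ups g m ≤ s.card

/-- Ub (exponents).  `ν_(rev i) = - ν_i`.  `ups = ∑_i ν_i (2 i - 2 g) = ∑_a 4 (g - a) m_a`;
`sB = ∑_(i<j) (ν_i+ν_j)_+ + ∑_i (2 ν_i)_+ = rho2 + 2 ∑ m_a` (by `HY.StUb`, proved: `HY.hUb`), and
`rho2 = ∑_a (2 g - 1 - 2 a) m_a`. -/
def StUb : Prop :=
  ∀ (g : ℕ) (m : Fin g → ℕ), Antitone m → ups g m = sB g m + rho2 g m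

/-- Ud (stability).  `(uᵀ b u)_ij = ∑_kl u_ki b_kl u_lj`, `|u_ki| ≤ 2^(ν_i-ν_k)` (also for `k = i`; `0` for
`k > i`), so every term is at most `C 2^(ν_i+ν_j)` (resp. `C H 2^(ν_i+ν_j)`) and there are `N²` terms.
`det u = 1` (upper triangular).  `det (x B' - A') = det(uᵀ (x B - A) u) = det (x B - A)`.  `LocT`: replace
`w` by `w'_j = ∑_i ū_ij w_i`.  `TL`: `u` is upper triangular. -/
def StUd : Prop :=
  ∀ (g : ℕ) (C H : ℝ) (m : Fin g → ℕ), 0 ≤ C → 0 ≤ H → ∀ (T : Finset Prm) (p : Pr g),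
    ∀ u ∈ Uni g m, (InBox g C H m p → InBox g ((2 * g + 1) ^ 2 * C) H m (act u p)) ∧
      (LocT T p → LocT T (act u p)) ∧ (TL p → TL (act u p)) ∧
      ∀ f : ℤ[X], IsChi p f → IsChi (act u p) f

/-- Ue (free orbits).  `h = u1 u2⁻¹` (over `ℤ`, `det = 1`): `hᵀ B h = B`, `hᵀ A h = A`.  Over `ℚ`, `B` is
invertible, `X = B⁻¹ A`; `charpoly X = det (x - B⁻¹ A) = f` is irreducible.  `hᵀ B = B h⁻¹` gives
`B X = A = hᵀ B X h = B h⁻¹ X h`, so `h X = X h` and by `HY.StUe1` (proved: `HY.hUe1`) `h = p(X)`.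
`Xᵀ B = Aᵀ = A = B X`, so `hᵀ B = B h` and `B h² = B`, `h² = 1`; `(h - 1)(h + 1) = 0` in the field `ℚ[X]`,
`u1 = ± u2`; compare the diagonal entries (`1`).  Compare `HY/M_Ue.lean`. -/
def StUe : Prop :=
  ∀ (g : ℕ), 1 ≤ g → ∀ (m : Fin g → ℕ) (p : Pr g) (f : ℤ[X]) (u₁ u₂ : Matrix (Ix g) (Ix g) ℤ),
    p.1.IsSymm → p.2.IsSymm → IsUnit p.1.det → IsChi p f → Irreducible (fK f) →
    u₁ ∈ Uni g m → u₂ ∈ Uni g m → act u₁ p = act u₂ p → u₁ = u₂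

/-- Uq (uniqueness of the characteristic polynomial).  `C (det B) * f = C (det B) * f'` and
`det B = ± 1`. -/
def StUq : Prop :=
  ∀ (g : ℕ) (p : Pr g) (f f' : ℤ[X]), IsUnit p.1.det → IsChi p f → IsChi p f' → f = f'

/-- Uf (number of pairs in the box).  A symmetric matrix is determined by the entries with `i ≤ j`.
The number of integers `x` with `|x| ≤ C y`, `y > 0`, is at most `2 C y + 1 ≤ (2 C + 1) max(1, y)`.  For `B`: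
`y = 2^(ν_i+ν_j)`, `∏_(i≤j) max(1, y) = 2 ^ sB`.  For `A`: `y = H 2^(ν_i+ν_j) ≤ 2^(d+1+ν_i+ν_j)`,
`d = log₂ H`, and `∑_(i≤j) (d+1+ν_i+ν_j)_+ = (d+1) n₂ + exc g d m` because `x_+ = x + (-x)_+` and
`∑_(i≤j) (ν_i+ν_j) = (N+1) ∑ ν_i = 0`. -/
def StUf : Prop :=
  ∀ (g : ℕ) (C : ℝ) (H : ℕ) (m : Fin g → ℕ), 0 ≤ C → 1 ≤ H →
    {p : Pr g | InBox g C H m p}.Finite ∧
    ({p : Pr g | InBox g C H m p}.ncard : ℝ) ≤
      (2 * C + 1) ^ (2 * ((g + 1) * (2 * g + 1))) *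
        2 ^ (sB g m + (Nat.log 2 H + 1) * ((g + 1) * (2 * g + 1)) + exc g (Nat.log 2 H) m)

/-- Uw (number of tuples with a given Gram matrix).  `W` nondegenerate of dimension `N` over a finite
field `k` of odd order.  (1) For a symmetric `B` with `det B ≠ 0` there are an invertible `S` and `δ ≠ 0`
with `Sᵀ (δ B) S = Gm` (induction with `HY.StUg1` (proved: `HY.hUg1`): split off `g` hyperbolic planes, the
last entry is `c`, `δ = c⁻¹` and rescale the planes).  (2) `w ↦ (j ↦ ∑_i S_ij w_i)` is an injective map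
from the tuples with Gram matrix `B` for the form `b` to the tuples with Gram matrix `Gm` for `δ b`; use
`HY.StUg` (proved: `HY.hUg`). -/
def StUw : Prop :=
  ∀ (k : Type) [Field k] [Fintype k], (2 : k) ≠ 0 → ∀ (g : ℕ) (W : Type) [AddCommGroup W]
    [Module k W] [FiniteDimensional k W] (b : LinearMap.BilinForm k W), (∀ x y, b x y = b y x) →
    (∀ x, (∀ y, b x y = 0) → x = 0) → Module.finrank k W = 2 * g + 1 →
    ∀ B : Matrix (Ix g) (Ix g) k, B.det ≠ 0 →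
    {w : Ix g → W | ∀ i j, b (w i) (w j) = B i j}.ncard ≤
      2 * Fintype.card k ^ (g * (2 * g + 1))

/-- Ui (the local count).  For fixed `h` in `TType` the matrices `A` with `(B, A)` coming from `h` are
parametrised by the tuples `w` with Gram matrix `B` (at most `2 Q ^ (g (2g+1))`, Uw for the form
`tau (x y)`, nondegenerate by `HY.StUi1`), and the four `β` with `β² = 1` (`HY.StUi2`) give the same `A`:
`w ↦ β w`, `β w = β' w` implies `β = β'` since `w` is a basis.  So `4 #{A} ≤ 2 Q ^ (g (2g+1))` for every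
`h`; sum over `h`.  Compare `HY/M_Ui3.lean`, `HY/M_Ui.lean`. -/
def StUi : Prop :=
  ∀ (k : Type) [Field k] [Fintype k], (2 : k) ≠ 0 → ∀ (g : ℕ), 1 ≤ g →
    ∀ B : Matrix (Ix g) (Ix g) k, B.det ≠ 0 →
    2 * {A : Matrix (Ix g) (Ix g) k | (B, A) ∈ LocPair k g (TType k g)}.ncard ≤
      (TType k g).ncard * Fintype.card k ^ (g * (2 * g + 1))

/-- Ueq (equidistribution in boxes).  `M = ∏_(P ∈ T) P`.  By the Chinese remainder theorem the tuples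
`x` with the given reductions lie in `∏ #A_P` classes modulo `M`, and a class contains at most
`∏_i (2 X_i / M + 1)` tuples with `|x_i| ≤ X_i`. -/
def StUeq : Prop :=
  ∀ (ι : Type) [Fintype ι] (T : Finset Prm) (X : ι → ℝ) (A : ∀ P : Prm, Set (ι → kp P)),
    (∀ i, 0 ≤ X i) →
    {x : ι → ℤ | (∀ i, |((x i : ℤ) : ℝ)| ≤ X i) ∧ ∀ P ∈ T, (fun i => red P (x i)) ∈ A P}.Finite ∧
    ({x : ι → ℤ | (∀ i, |((x i : ℤ) : ℝ)| ≤ X i) ∧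
      ∀ P ∈ T, (fun i => red P (x i)) ∈ A P}.ncard : ℝ) ≤
      (∏ i, (2 * X i / ∏ P ∈ T, ((P : ℕ) : ℝ) + 1)) * ∏ P ∈ T, ((A P).ncard : ℝ)

/-- Uh (main region).  `M = ∏ P`.  For every `B` (at most `(2C+1)^(n₂) 2^(sB)` of them, as in Uf) count the
`A` by Ueq with `ι = {(i, j) : i ≤ j}`, `X_ij = C H 2^(ν_i+ν_j)`, `A_P` = the upper triangles of the
matrices `Ā` with `(B̄, Ā) ∈ LocPair` (symmetric), `#A_P ≤ #TType P^(g(2g+1)) / 2` (Ui; `det B̄ ≠ 0`).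
Since `|ν_i| ≤ m_0` we have `H 2^(ν_i+ν_j) ≥ M`, so
`2 X_ij / M + 1 ≤ (2 C + 1) H 2^(ν_i+ν_j) / M`, and `∏_(i≤j) 2^(ν_i+ν_j) = 1`;
`P^(g(2g+1)) / P^(n₂) = P^(-(2g+1))`. -/
def StUh : Prop :=
  ∀ (g : ℕ), 1 ≤ g → ∀ (C : ℝ) (H : ℕ) (m : Fin g → ℕ), 0 ≤ C → Antitone m →
    ∀ T : Finset Prm, (∀ P ∈ T, (P : ℕ) ≠ 2) →
    (∀ i : Fin g, (∏ P ∈ T, (P : ℕ)) * 2 ^ (2 * m i) ≤ H) →
    ((PB g C H m T).ncard : ℝ) ≤ (2 * C + 1) ^ (2 * ((g + 1) * (2 * g + 1))) * 2 ^ sB g m *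
      (H : ℝ) ^ ((g + 1) * (2 * g + 1)) * ((1 / 2) ^ T.card * ∏ P ∈ T, dens g P)

/-- Uj (orbits).  `W` is a set of pairs in the box which is mapped by all `u ∈ Uni` into `W'` (finite).
Choose for every `f` a pair `p_f ∈ W` with `IsChi p_f f`; the map `(f, u) ↦ act u p_f` is injective by Ud
(`IsChi`), Uq and Ue, with values in `W'`; there are at least `2 ^ ups` matrices `u` (Ua). -/
def StUj : Prop :=
  ∀ (g : ℕ), 1 ≤ g → ∀ (m : Fin g → ℕ), Antitone m → ∀ (W W' : Set (Pr g)), W'.Finite →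
    (∀ p ∈ W, p.1.IsSymm ∧ p.2.IsSymm ∧ IsUnit p.1.det) →
    (∀ p ∈ W, ∀ u ∈ Uni g m, act u p ∈ W') →
    {f : ℤ[X] | Irreducible (fK f) ∧ ∃ p ∈ W, IsChi p f}.Finite ∧
    {f : ℤ[X] | Irreducible (fK f) ∧ ∃ p ∈ W, IsChi p f}.ncard * 2 ^ ups g m ≤ W'.ncard

/-- Uk (one type in the main region).  Uj with `W = PB g C`, `W' = PB g (N² C)` (Ud), Uh and Ub. -/
def StUk : Prop :=
  ∀ (g : ℕ), 1 ≤ g → ∀ C : ℝ, 0 ≤ C → ∃ K : ℝ, 0 < K ∧ ∀ (H : ℕ) (m : Fin g → ℕ), Antitone m →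
    ∀ T : Finset Prm, (∀ P ∈ T, (P : ℕ) ≠ 2) →
    (∀ i : Fin g, (∏ P ∈ T, (P : ℕ)) * 2 ^ (2 * m i) ≤ H) → (BadM g C H m T).Finite ∧
    ((BadM g C H m T).ncard : ℝ) * 2 ^ rho2 g m ≤
      K * (H : ℝ) ^ ((g + 1) * (2 * g + 1)) * ((1 / 2) ^ T.card * ∏ P ∈ T, dens g P)

/-- Ul (one type in general).  `d = log₂ H`, `2 ^ d ≤ H`.  Uj (with `PB ⊆ box`, Ud), Uf and Ub give
`#BadM 2^(rho2) ≤ K₁ H^(n₂) 2^(exc g d m)`.  Every term of `exc` grows by at most `κ` if `d + κ` is replaced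
by `d`: `exc g d m ≤ exc g (d+κ) m + κ n₂`, and `HY.StUc` (proved: `HY.hUc`):
`exc g (d+κ) m + min ((d+κ+1)/2) m_0 ≤ rho2`. -/
def StUl : Prop :=
  ∀ (g : ℕ), 1 ≤ g → ∀ (C : ℝ) (κ : ℕ), 0 ≤ C → ∃ K : ℝ, 0 < K ∧ ∀ (H : ℕ), 1 ≤ H →
    ∀ (m : Fin g → ℕ), Adm g (Nat.log 2 H + κ) m → ∀ (T : Finset Prm) (i₀ : Fin g), (i₀ : ℕ) = 0 →
    (BadM g C H m T).Finite ∧
    ((BadM g C H m T).ncard : ℝ) * 2 ^ min ((Nat.log 2 H + κ + 1) / 2) (m i₀) ≤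
      K * (H : ℝ) ^ ((g + 1) * (2 * g + 1))

/-- Um (the bad set).  `BadSet = ⋃_(m admissible) BadM`.  `d = log₂ H`; admissible `m` satisfy
`m_i ≤ g (d + κ)`: at most `(g (d+κ) + 1)^g` of them.  Main `m`: `M 2^(2 m_0) ≤ H` (`M = ∏ P`): Uk,
`rho2 ≥ ∑ m_i`, `∑_m 2^(-∑ m_i) ≤ 2^g`.  The other `m`: `2 m_0 > log₂ (H / M)`, Ul:
`min ((d+κ+1)/2) m_0 ≥ (d - log₂ M - 2)/2`, total `≤ (g(d+κ)+1)^g K 2^(-(d - log₂ M - 2)/2) H^(n₂)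
≤ ε H^(n₂)` for large `H`.  Compare `HY/M_Um.lean`. -/
def StU : Prop :=
  ∀ (g : ℕ), 1 ≤ g → ∀ (C : ℝ) (κ : ℕ), 0 ≤ C →
    ∃ C₀ : ℝ, 0 < C₀ ∧ ∀ T : Finset Prm, (∀ P ∈ T, (P : ℕ) ≠ 2) → ∀ ε : ℝ, 0 < ε →
      ∀ᶠ H : ℕ in atTop, (BadSet g C κ H T).Finite ∧
        ((BadSet g C κ H T).ncard : ℝ) ≤
          (C₀ * ((1 / 2) ^ T.card * ∏ P ∈ T, dens g P) + ε) * (H : ℝ) ^ ((g + 1) * (2 * g + 1))

/-! ### The deep cusp -/

/-- The exponent of the number of matrices `A` with vanishing top left block. -/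
def sD (g d : ℕ) (m : Fin g → ℕ) : ℕ :=
  ∑ p : Ix g × Ix g, if p.1 ≤ p.2 ∧ ¬ ((p.1 : ℕ) < g ∧ (p.2 : ℕ) < g) then
    ((d : ℤ) + nu g m p.1 + nu g m p.2).toNat else 0

/-- Un (inequality in the deep cusp), `d` arbitrary, `m ∈ DAdm g d`.  Use `x_+ = x + (-x)_+` and
`∑_(i≤j) (d+ν_i+ν_j) = d n₂`, `∑_(i≤j<g) (d - m_i - m_j) = d g(g+1)/2 - (g+1) ∑ m`: so
`sD = d n₂ - d g(g+1)/2 + (g+1) ∑ m + ∑_(i<g≤j) (- d - ν_i - ν_j)_+`.  With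
`rho2 = ∑_i (2g-1-2i) m_i` and `∑_(i<k<g) (m_i - m_k) = ∑_i (g-1-2i) m_i` the claim is
`∑_(i<g) (m_i - d)_+ + ∑_(i<k<g) (m_i - m_k - d)_+ ≤ ∑_(i<k<g) (m_i - m_k)` (for `j = 2g - k` the term is
`(m_i - m_k - d)_+`, zero unless `i < k`).  Put `m_g = 0`; for `i < k ≤ g` the step condition
`m_(k-1) ≤ m_k + d` gives `(m_i - m_k - d)_+ ≤ m_i - m_(k-1)`; sum over `k = i+1..g`. -/
def StUn : Prop :=
  ∀ (g d : ℕ) (m : Fin g → ℕ), DAdm g d m →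
    (sD g d m : ℤ) - rho2 g m ≤
      d * ((g + 1) * (2 * g + 1)) - (d * (g * (g + 1) / 2 : ℕ) - ∑ i, (m i : ℤ))

/-- Uo (number of pairs in the deep cusp).  As Uf; the entries of `A` with `i, j < g` vanish, for the
others use `H 2^(ν_i+ν_j) ≤ 2^(d'+ν_i+ν_j)` with `d' = log₂ H + κ`, `κ ≥ 1`. -/
def StUo : Prop :=
  ∀ (g : ℕ) (C : ℝ) (H κ : ℕ) (m : Fin g → ℕ), 0 ≤ C → 1 ≤ H → 1 ≤ κ →
    ((PD g C H m).ncard : ℝ) ≤ (2 * C + 1) ^ (2 * ((g + 1) * (2 * g + 1))) *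
      2 ^ (sB g m + sD g (Nat.log 2 H + κ) m)

/-- Up (the deep cusp).  `d' = log₂ H + κ'`, `κ' = κ + 1` (`DAdm` is monotone in `d`).  For every `m`: Uj
(Ud), Uo, Ub, Un: `#DeepM ≤ K 2^(d' n₂ - μ) ≤ K' H^(n₂) 2^(-μ)` with `μ = d' g(g+1)/2 - ∑ m_i`.  Put
`x_i = (g - i) d' - m_i ≥ 0` (`DAdm`), `∑ x_i = μ`: there are at most `(k+1)^g` types with `μ = k`.  The
condition `M 2^(∑ m) ≤ C H^(g(g+1)/2)`, `H < 2^(d'+1)`, gives `2^μ ≥ M / C'`.  So the total is at most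
`K' H^(n₂) ∑_(k : 2^k ≥ M/C') (k+1)^g 2^(-k) ≤ K'' H^(n₂) / √M`
(`(k+1)^g 2^(-k) ≤ K₃ 2^(-k/2) 2^(-k/4)`). -/
def StDeep : Prop :=
  ∀ (g : ℕ), 1 ≤ g → ∀ (C : ℝ) (κ : ℕ), 0 ≤ C →
    ∃ C₁ : ℝ, 0 < C₁ ∧ ∀ M : ℕ, 1 ≤ M → ∀ H : ℕ, 1 ≤ H → (DeepSet g C κ H M).Finite ∧
      ((DeepSet g C κ H M).ncard : ℝ) ≤ C₁ / √M * (H : ℝ) ^ ((g + 1) * (2 * g + 1))

end Pool.Agent.Helper54.HQ
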