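import Pool.Agent.Helper54.HQ.M_Ha1

/-!
# HQ, module Ha: the Hasse invariant does not depend on the orthogonal basis
-/

set_option autoImplicit false

namespace Pool.Agent.Helper54.HQ

open Finset

section hasse

variable {K : Type} [Field K] {s : K → K → ZMod 2}

/-- Splitting off the first coordinate. -/
lemma hasse_succ_Ha (h : IsSym K s) {n : ℕ} (a : Fin (n + 1) → K) (ha : ∀ i, a i ≠ 0) :
    hasse s a = s (a 0) (∏ j : Fin n, a j.succ) + hasse s (fun j : Fin n => a j.succ) := by
  rw [h.prod_right_Ha1 (ha 0) Finset.univ (fun j : Fin n => a j.succ) fun i _ => ha _]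
  unfold hasse
  rw [Fintype.sum_prod_type, Fin.sum_univ_succ, Fin.sum_univ_succ]
  simp only [lt_self_iff_false, if_false, zero_add, Fin.succ_pos, if_true]
  congr 1
  rw [Fintype.sum_prod_type]
  refine Finset.sum_congr rfl fun i _ => ?_
  rw [Fin.sum_univ_succ]
  simp only [Fin.not_lt_zero, if_false, zero_add, Fin.succ_lt_succ_iff]

/-- Squares do not matter. -/
lemma hasse_sq_Ha (h : IsSym K s) {n : ℕ} (a b t : Fin n → K) (ha : ∀ i, a i ≠ 0)
    (ht : ∀ i, t i ≠ 0) (hb : ∀ i, b i = a i * t i ^ 2) : hasse s b = hasse s a := by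
  unfold hasse
  refine Finset.sum_congr rfl fun p _ => ?_
  rw [hb, hb, h.sq_left_Ha1 (ha _) (mul_ne_zero (ha _) (pow_ne_zero 2 (ht _))) (ht _),
    h.sq_right_Ha1 (ha _) (ha _) (ht _)]

/-- Permutations do not matter. -/
lemma hasse_perm_Ha (h : IsSym K s) {n : ℕ} (a : Fin n → K) (σ : Equiv.Perm (Fin n)) :
    hasse s (fun i => a (σ i)) = hasse s a := by
  have key : ∀ b : Fin n → K, hasse s b =
      ∑ z ∈ (Finset.univ : Finset (Sym2 (Fin n))).filter (fun z => ¬ z.IsDiag),
        Sym2.lift ⟨fun i j => s (b i) (b j), fun i j => h.symm _ _⟩ z := by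
    intro b
    unfold hasse
    rw [← Finset.sum_filter]
    refine Finset.sum_bij (fun p _ => s(p.1, p.2)) ?_ ?_ ?_ ?_
    · intro p hp
      have hp' := (Finset.mem_filter.1 hp).2
      rw [Finset.mem_filter]
      exact ⟨Finset.mem_univ _, by rw [Sym2.mk_isDiag_iff]; exact hp'.ne⟩
    · intro p hp q hq hpq
      have hp' := (Finset.mem_filter.1 hp).2
      have hq' := (Finset.mem_filter.1 hq).2
      rw [Sym2.eq_iff] at hpq
      rcases hpq with ⟨h1, h2⟩ | ⟨h1, h2⟩
      · exact Prod.ext h1 h2
      · rw [h1, h2] at hp'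
        exact absurd hp' (not_lt.2 hq'.le)
    · intro z hz
      induction z using Sym2.ind with
      | _ i j =>
        have hz' := (Finset.mem_filter.1 hz).2
        rw [Sym2.mk_isDiag_iff] at hz'
        rcases lt_or_gt_of_ne hz' with hij | hij
        · exact ⟨(i, j), Finset.mem_filter.2 ⟨Finset.mem_univ _, hij⟩, rfl⟩
        · exact ⟨(j, i), Finset.mem_filter.2 ⟨Finset.mem_univ _, hij⟩, Sym2.eq_swap⟩
    · intro p hp
      rfl
  rw [key, key]
  refine Finset.sum_bij (fun z _ => z.map σ) ?_ ?_ ?_ ?_
  · intro z hz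
    rw [Finset.mem_filter] at hz ⊢
    refine ⟨Finset.mem_univ _, ?_⟩
    intro hd
    apply hz.2
    induction z using Sym2.ind with
    | _ i j =>
      rw [Sym2.map_mk, Sym2.mk_isDiag_iff] at hd
      rw [Sym2.mk_isDiag_iff]
      exact σ.injective hd
  · intro z hz w hw hzw
    exact Sym2.map.injective σ.injective hzw
  · intro z hz
    refine ⟨z.map σ.symm, ?_, ?_⟩
    · rw [Finset.mem_filter] at hz ⊢
      refine ⟨Finset.mem_univ _, ?_⟩
      intro hd
      apply hz.2
      induction z using Sym2.ind with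
      | _ i j =>
        rw [Sym2.map_mk, Sym2.mk_isDiag_iff] at hd
        rw [Sym2.mk_isDiag_iff]
        exact σ.symm.injective hd
    · rw [Sym2.map_map]
      have : (σ : Fin n → Fin n) ∘ σ.symm = id := by funext x; simp
      rw [this, Sym2.map_id, id]
  · intro z hz
    induction z using Sym2.ind with
    | _ i j => rfl

/-- The change of the first two coordinates. -/
lemma hasse_two_Ha (h : IsSym K s) {n : ℕ} (a b : Fin (n + 2) → K) (ha : ∀ i, a i ≠ 0)
    (hb : ∀ i, b i ≠ 0) (ht : ∀ j : Fin n, b j.succ.succ = a j.succ.succ)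
    (h01 : s (a 0) (a 1) = s (b 0) (b 1)) {c : K} (hc : c ≠ 0) (hp : b 0 * b 1 = a 0 * a 1 * c ^ 2) :
    hasse s b = hasse s a := by
  have key : ∀ a : Fin (n + 2) → K, (∀ i, a i ≠ 0) → hasse s a = s (a 0) (a 1) +
      s (a 0 * a 1) (∏ j : Fin n, a j.succ.succ) + hasse s (fun j : Fin n => a j.succ.succ) := by
    intro a ha
    have hpr : (∏ j : Fin n, a j.succ.succ) ≠ 0 := Finset.prod_ne_zero_iff.2 fun i _ => ha _
    rw [hasse_succ_Ha h a ha, hasse_succ_Ha h (fun j : Fin (n + 1) => a j.succ) fun i => ha _,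
      Fin.prod_univ_succ, h.mul_right_Ha1 (ha 0) (ha _) hpr, h.mul _ _ _ (ha 0) (ha 1) hpr]
    simp only [Fin.succ_zero_eq_one]
    ring
  have hpr : (∏ j : Fin n, a j.succ.succ) ≠ 0 := Finset.prod_ne_zero_iff.2 fun i _ => ha _
  rw [key a ha, key b hb, h01, hp]
  simp only [ht]
  rw [h.sq_left_Ha1 (mul_ne_zero (ha 0) (ha 1)) hpr hc]

end hasse

section forms

variable {K : Type} [Field K] {V : Type} [AddCommGroup V] [Module K V]

/-- Orthogonal families with nonzero norms. -/
structure OF_Ha (B : LinearMap.BilinForm K V) {n : ℕ} (e : Fin n → V) : Prop where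
  orth : ∀ i j, i ≠ j → B (e i) (e j) = 0
  ne : ∀ i, B (e i) (e i) ≠ 0

variable {B : LinearMap.BilinForm K V}

lemma OF_Ha.expand {n : ℕ} {e : Fin n → V} (he : OF_Ha B e) {x : V}
    (hx : x ∈ Submodule.span K (Set.range e)) : x = ∑ j, (B x (e j) / B (e j) (e j)) • e j := by
  obtain ⟨c, rfl⟩ := (Submodule.mem_span_range_iff_exists_fun K).1 hx
  refine Finset.sum_congr rfl fun j _ => ?_
  have h1 : B (∑ i, c i • e i) (e j) = c j * B (e j) (e j) := by
    rw [map_sum, LinearMap.sum_apply, Finset.sum_eq_single j]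
    · rw [map_smul, LinearMap.smul_apply, smul_eq_mul]
    · intro i _ hij
      rw [map_smul, LinearMap.smul_apply, he.orth i j hij, smul_zero]
    · intro hj; exact absurd (Finset.mem_univ j) hj
  rw [h1, mul_div_cancel_right₀ _ (he.ne j)]

lemma OF_Ha.norm_eq (hB : ∀ x y, B x y = B y x) {n : ℕ} {e : Fin n → V} (he : OF_Ha B e) {x : V}
    (hx : x ∈ Submodule.span K (Set.range e)) :
    B x x = ∑ j, B x (e j) ^ 2 / B (e j) (e j) := by
  have h1 : B x x = B (∑ j, (B x (e j) / B (e j) (e j)) • e j) x := by
    rw [← he.expand hx]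
  rw [h1, map_sum, LinearMap.sum_apply]
  refine Finset.sum_congr rfl fun j _ => ?_
  rw [map_smul, LinearMap.smul_apply, smul_eq_mul, hB (e j) x]
  ring

lemma OF_Ha.disc {n : ℕ} {e f : Fin n → V} (he : OF_Ha B e) (hf : OF_Ha B f)
    (hsp : Submodule.span K (Set.range e) = Submodule.span K (Set.range f)) :
    ∃ d : K, d ≠ 0 ∧ ∏ i, B (e i) (e i) = (∏ i, B (f i) (f i)) * d ^ 2 := by
  classical
  let P : Matrix (Fin n) (Fin n) K := fun i j => B (e i) (f j) / B (f j) (f j)
  have hP : ∀ i, e i = ∑ j, P i j • f j := fun i =>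
    hf.expand (hsp ▸ Submodule.subset_span ⟨i, rfl⟩)
  have hmat : Matrix.diagonal (fun i => B (e i) (e i)) =
      P * Matrix.diagonal (fun i => B (f i) (f i)) * P.transpose := by
    ext i k
    have h1 : Matrix.diagonal (fun i => B (e i) (e i)) i k = B (e i) (e k) := by
      by_cases hik : i = k
      · subst hik; rw [Matrix.diagonal_apply_eq]
      · rw [Matrix.diagonal_apply_ne _ hik, he.orth i k hik]
    rw [h1, Matrix.mul_apply]
    have h2 : B (e i) (e k) = B (∑ j, P i j • f j) (e k) := by rw [← hP i]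
    rw [h2, map_sum, LinearMap.sum_apply]
    refine Finset.sum_congr rfl fun j _ => ?_
    rw [map_smul, LinearMap.smul_apply, smul_eq_mul, Matrix.mul_diagonal, Matrix.transpose_apply]
    have h3 : B (f j) (e k) = B (f j) (f j) * P k j := by
      have h4 : B (f j) (e k) = B (f j) (∑ l, P k l • f l) := by rw [← hP k]
      rw [h4, map_sum, Finset.sum_eq_single j]
      · rw [map_smul, smul_eq_mul, mul_comm]
      · intro l _ hl
        rw [map_smul, hf.orth j l (Ne.symm hl), smul_zero]
      · intro hj; exact absurd (Finset.mem_univ j) hj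
    rw [h3]; ring
  have hdet := congrArg Matrix.det hmat
  rw [Matrix.det_mul, Matrix.det_mul, Matrix.det_transpose, Matrix.det_diagonal,
    Matrix.det_diagonal] at hdet
  refine ⟨P.det, ?_, by rw [hdet]; ring⟩
  intro h0
  rw [h0, zero_mul, zero_mul] at hdet
  exact (Finset.prod_ne_zero_iff.2 fun i _ => he.ne i) hdet

lemma OF_Ha.perm {n : ℕ} {e : Fin n → V} (he : OF_Ha B e) (σ : Equiv.Perm (Fin n)) :
    OF_Ha B (fun i => e (σ i)) :=
  ⟨fun _ _ hij => he.orth _ _ fun h => hij (σ.injective h), fun _ => he.ne _⟩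

lemma span_perm_Ha {n : ℕ} (e : Fin n → V) (σ : Equiv.Perm (Fin n)) :
    Submodule.span K (Set.range fun i => e (σ i)) = Submodule.span K (Set.range e) := by
  congr 1
  exact σ.surjective.range_comp e

lemma OF_Ha.tail {n : ℕ} {e : Fin (n + 1) → V} (he : OF_Ha B e) :
    OF_Ha B (fun j : Fin n => e j.succ) :=
  ⟨fun _ _ hij => he.orth _ _ fun h => hij (Fin.succ_injective _ h), fun _ => he.ne _⟩

lemma OF_Ha.tail_span {n : ℕ} {e f : Fin (n + 1) → V} (he : OF_Ha B e) (hf : OF_Ha B f)
    (h0 : e 0 = f 0) (hsp : Submodule.span K (Set.range e) ≤ Submodule.span K (Set.range f)) :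
    Submodule.span K (Set.range fun j : Fin n => e j.succ) ≤
      Submodule.span K (Set.range fun j : Fin n => f j.succ) := by
  rw [Submodule.span_le]
  rintro _ ⟨j, rfl⟩
  have h1 := hf.expand (hsp (Submodule.subset_span ⟨j.succ, rfl⟩))
  rw [Fin.sum_univ_succ, ← h0, he.orth _ _ (Fin.succ_ne_zero j), zero_div, zero_smul, zero_add] at h1
  change e j.succ ∈ _
  rw [h1]
  exact Submodule.sum_mem _ fun i _ => Submodule.smul_mem _ _ (Submodule.subset_span ⟨i, rfl⟩)

/-- A permutation which moves two given indices to `0, 1`. -/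
lemma perm_two_Ha {n : ℕ} (i k : Fin (n + 2)) (hik : i ≠ k) :
    ∃ σ : Equiv.Perm (Fin (n + 2)), σ 0 = i ∧ σ 1 = k := by
  refine ⟨Equiv.swap 0 i * Equiv.swap 1 (Equiv.swap 0 i k), ?_, ?_⟩
  · rw [Equiv.Perm.mul_apply]
    have h1 : Equiv.swap (1 : Fin (n + 2)) (Equiv.swap 0 i k) 0 = 0 := by
      refine Equiv.swap_apply_of_ne_of_ne (by simp) ?_
      intro h
      apply hik
      have := congrArg (Equiv.swap (0 : Fin (n + 2)) i) h
      rwa [Equiv.swap_apply_left, Equiv.swap_apply_self] at this
    rw [h1, Equiv.swap_apply_left]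
  · rw [Equiv.Perm.mul_apply, Equiv.swap_apply_left, Equiv.swap_apply_self]

/-- Scaling. -/
lemma scale_Ha {s : K → K → ZMod 2} (h : IsSym K s) {n : ℕ} {e : Fin n → V} (he : OF_Ha B e)
    (t : Fin n → K) (ht : ∀ i, t i ≠ 0) :
    OF_Ha B (fun i => t i • e i) ∧
      Submodule.span K (Set.range fun i => t i • e i) = Submodule.span K (Set.range e) ∧
      hasse s (fun i => B (t i • e i) (t i • e i)) = hasse s (fun i => B (e i) (e i)) := by
  have hn : ∀ i, B (t i • e i) (t i • e i) = B (e i) (e i) * t i ^ 2 := by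
    intro i
    simp only [map_smul, LinearMap.smul_apply, smul_eq_mul]; ring
  refine ⟨⟨?_, ?_⟩, ?_, ?_⟩
  · intro i j hij
    simp only [map_smul, LinearMap.smul_apply, he.orth i j hij, smul_zero]
  · intro i
    rw [hn]
    exact mul_ne_zero (he.ne i) (pow_ne_zero 2 (ht i))
  · apply le_antisymm
    · rw [Submodule.span_le]
      rintro _ ⟨j, rfl⟩
      exact Submodule.smul_mem _ _ (Submodule.subset_span ⟨j, rfl⟩)
    · rw [Submodule.span_le]
      rintro _ ⟨j, rfl⟩
      have : e j = (t j)⁻¹ • (t j • e j) := by rw [smul_smul, inv_mul_cancel₀ (ht j), one_smul]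
      rw [this]
      exact Submodule.smul_mem _ _ (Submodule.subset_span ⟨j, rfl⟩)
  · exact hasse_sq_Ha h _ _ t he.ne ht hn

/-- The change of the first two vectors. -/
lemma two_Ha (h1 : StHa1) {s : K → K → ZMod 2} (h : IsSym K s) (hB : ∀ x y, B x y = B y x) {n : ℕ}
    {e : Fin (n + 2) → V} (he : OF_Ha B e) (x y c : K) (hc : c ≠ 0)
    (hcx : c = B (e 0) (e 0) * x ^ 2 + B (e 1) (e 1) * y ^ 2) (e' : Fin (n + 2) → V)
    (he0 : e' 0 = x • e 0 + y • e 1)
    (he1 : e' 1 = (B (e 1) (e 1) * y) • e 0 - (B (e 0) (e 0) * x) • e 1)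
    (he2 : ∀ j : Fin n, e' j.succ.succ = e j.succ.succ) :
    OF_Ha B e' ∧ Submodule.span K (Set.range e') = Submodule.span K (Set.range e) ∧
      hasse s (fun i => B (e' i) (e' i)) = hasse s (fun i => B (e i) (e i)) := by
  have h01 : B (e 0) (e 1) = 0 := he.orth 0 1 (by simp)
  have h10 : B (e 1) (e 0) = 0 := he.orth 1 0 (by simp)
  have n0 : B (e' 0) (e' 0) = c := by
    rw [he0, hcx]
    simp only [map_add, map_smul, LinearMap.add_apply, LinearMap.smul_apply, smul_eq_mul, h01, h10]
    ring
  have n1 : B (e' 1) (e' 1) = B (e 0) (e 0) * B (e 1) (e 1) * c := by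
    rw [he1, hcx]
    simp only [map_sub, map_smul, LinearMap.sub_apply, LinearMap.smul_apply, smul_eq_mul, h01, h10]
    ring
  have o01 : B (e' 0) (e' 1) = 0 := by
    rw [he0, he1]
    simp only [map_add, map_sub, map_smul, LinearMap.add_apply, LinearMap.smul_apply, smul_eq_mul,
      h01, h10]
    ring
  have o0 : ∀ j : Fin n, B (e' 0) (e' j.succ.succ) = 0 := by
    intro j
    have a0 : B (e 0) (e j.succ.succ) = 0 := he.orth _ _ (Fin.succ_ne_zero _).symm
    have a1 : B (e 1) (e j.succ.succ) = 0 := he.orth _ _ (by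
      rw [← Fin.succ_zero_eq_one]
      exact fun hh => (Fin.succ_ne_zero j) (Fin.succ_injective _ hh).symm)
    rw [he0, he2]
    simp only [map_add, map_smul, LinearMap.add_apply, LinearMap.smul_apply, a0, a1, smul_zero,
      add_zero]
  have o1 : ∀ j : Fin n, B (e' 1) (e' j.succ.succ) = 0 := by
    intro j
    have a0 : B (e 0) (e j.succ.succ) = 0 := he.orth _ _ (Fin.succ_ne_zero _).symm
    have a1 : B (e 1) (e j.succ.succ) = 0 := he.orth _ _ (by
      rw [← Fin.succ_zero_eq_one]
      exact fun hh => (Fin.succ_ne_zero j) (Fin.succ_injective _ hh).symm)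
    rw [he1, he2]
    simp only [map_sub, map_smul, LinearMap.sub_apply, LinearMap.smul_apply, a0, a1, smul_zero,
      sub_zero]
  have hcase : ∀ P : Fin (n + 2) → Prop, P 0 → P 1 → (∀ j : Fin n, P j.succ.succ) → ∀ i, P i := by
    intro P p0 p1 p2 i
    refine Fin.cases p0 (fun i => ?_) i
    refine Fin.cases p1 (fun i => p2 i) i
  have hOF : OF_Ha B e' := by
    refine ⟨?_, ?_⟩
    · have key : ∀ i j, i < j → B (e' i) (e' j) = 0 := by
        intro i
        refine hcase (fun i => ∀ j, i < j → B (e' i) (e' j) = 0) ?_ ?_ ?_ i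
        · intro j
          refine hcase (fun j => 0 < j → B (e' 0) (e' j) = 0) ?_ ?_ ?_ j
          · intro hh; exact absurd hh (lt_irrefl _)
          · intro _; exact o01
          · intro j _; exact o0 j
        · intro j
          refine hcase (fun j => 1 < j → B (e' 1) (e' j) = 0) ?_ ?_ ?_ j
          · intro hh; exact absurd hh (Fin.not_lt_zero _)
          · intro hh; exact absurd hh (lt_irrefl _)
          · intro j _; exact o1 j
        · intro i j
          refine hcase (fun j => i.succ.succ < j → B (e' i.succ.succ) (e' j) = 0) ?_ ?_ ?_ j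
          · intro hh; exact absurd hh (Fin.not_lt_zero _)
          · intro hh
            rw [← Fin.succ_zero_eq_one, Fin.succ_lt_succ_iff] at hh
            exact absurd hh (Fin.not_lt_zero _)
          · intro j hh
            rw [he2, he2]
            exact he.orth _ _ hh.ne
      intro i j hij
      rcases lt_or_gt_of_ne hij with hh | hh
      · exact key i j hh
      · rw [hB]; exact key j i hh
    · refine hcase _ ?_ ?_ ?_
      · rw [n0]; exact hc
      · rw [n1]; exact mul_ne_zero (mul_ne_zero (he.ne 0) (he.ne 1)) hc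
      · intro j; rw [he2]; exact he.ne _
  refine ⟨hOF, ?_, ?_⟩
  · apply le_antisymm
    · rw [Submodule.span_le]
      rintro _ ⟨j, rfl⟩
      refine hcase (fun j => e' j ∈ Submodule.span K (Set.range e)) ?_ ?_ ?_ j
      · rw [he0]
        exact Submodule.add_mem _ (Submodule.smul_mem _ _ (Submodule.subset_span ⟨0, rfl⟩))
          (Submodule.smul_mem _ _ (Submodule.subset_span ⟨1, rfl⟩))
      · rw [he1]
        exact Submodule.sub_mem _ (Submodule.smul_mem _ _ (Submodule.subset_span ⟨0, rfl⟩))
          (Submodule.smul_mem _ _ (Submodule.subset_span ⟨1, rfl⟩))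
      · intro j
        rw [he2]
        exact Submodule.subset_span ⟨_, rfl⟩
    · rw [Submodule.span_le]
      rintro _ ⟨j, rfl⟩
      refine hcase (fun j => e j ∈ Submodule.span K (Set.range e')) ?_ ?_ ?_ j
      · have e0 : e 0 = (B (e 0) (e 0) * x / c) • e' 0 + (y / c) • e' 1 := by
          have hcc : (B (e 0) (e 0) * x / c) * x + (y / c) * (B (e 1) (e 1) * y) = 1 := by
            rw [show (B (e 0) (e 0) * x / c) * x + (y / c) * (B (e 1) (e 1) * y) =
              (B (e 0) (e 0) * x ^ 2 + B (e 1) (e 1) * y ^ 2) / c by field_simp, ← hcx,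
              div_self hc]
          have hdd : (B (e 0) (e 0) * x / c) * y - (y / c) * (B (e 0) (e 0) * x) = 0 := by ring
          rw [he0, he1]
          calc e 0 = ((B (e 0) (e 0) * x / c) * x + (y / c) * (B (e 1) (e 1) * y)) • e 0 +
                ((B (e 0) (e 0) * x / c) * y - (y / c) * (B (e 0) (e 0) * x)) • e 1 := by
                rw [hcc, hdd, one_smul, zero_smul, add_zero]
            _ = _ := by module
        rw [e0]
        exact Submodule.add_mem _ (Submodule.smul_mem _ _ (Submodule.subset_span ⟨0, rfl⟩))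
          (Submodule.smul_mem _ _ (Submodule.subset_span ⟨1, rfl⟩))
      · have e1 : e 1 = (B (e 1) (e 1) * y / c) • e' 0 - (x / c) • e' 1 := by
          have hcc : (B (e 1) (e 1) * y / c) * y + (x / c) * (B (e 0) (e 0) * x) = 1 := by
            rw [show (B (e 1) (e 1) * y / c) * y + (x / c) * (B (e 0) (e 0) * x) =
              (B (e 0) (e 0) * x ^ 2 + B (e 1) (e 1) * y ^ 2) / c by field_simp; ring, ← hcx,
              div_self hc]
          have hdd : (B (e 1) (e 1) * y / c) * x - (x / c) * (B (e 1) (e 1) * y) = 0 := by ring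
          rw [he0, he1]
          calc e 1 = ((B (e 1) (e 1) * y / c) * y + (x / c) * (B (e 0) (e 0) * x)) • e 1 +
                ((B (e 1) (e 1) * y / c) * x - (x / c) * (B (e 1) (e 1) * y)) • e 0 := by
                rw [hcc, hdd, one_smul, zero_smul, add_zero]
            _ = _ := by module
        rw [e1]
        exact Submodule.sub_mem _ (Submodule.smul_mem _ _ (Submodule.subset_span ⟨0, rfl⟩))
          (Submodule.smul_mem _ _ (Submodule.subset_span ⟨1, rfl⟩))
      · intro j
        rw [← he2]
        exact Submodule.subset_span ⟨_, rfl⟩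
  · refine hasse_two_Ha h _ _ he.ne hOF.ne ?_ ?_ hc ?_
    · intro j; simp only [he2]
    · refine h1 K s h _ _ _ _ x y c (he.ne 0) (he.ne 1) (hOF.ne 0) (hOF.ne 1) hc ?_ ?_
      · rw [n0, hcx]
      · rw [n0, n1]; ring
    · rw [n0, n1]; ring

lemma card_perm_Ha {n : ℕ} (p : Fin n → Prop) [DecidablePred p] (σ : Equiv.Perm (Fin n)) :
    (Finset.univ.filter fun j => p (σ j)).card = (Finset.univ.filter p).card := by
  rw [Finset.card_filter, Finset.card_filter]
  exact Equiv.sum_comp σ (fun j => if p j then 1 else 0)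

/-- An orthogonal basis which starts with `v`. -/
lemma chain_Ha (h1 : StHa1) {s : K → K → ZMod 2} (h : IsSym K s) (h2 : (2 : K) ≠ 0)
    (hB : ∀ x y, B x y = B y x) : ∀ (r n : ℕ) (e : Fin (n + 1) → V), OF_Ha B e →
    ∀ v ∈ Submodule.span K (Set.range e), B v v ≠ 0 →
    (∀ S : Finset (Fin (n + 1)), (∀ j, j ∈ S ↔ B v (e j) ≠ 0) → S.card ≤ r) →
    ∃ e' : Fin (n + 1) → V, OF_Ha B e' ∧ e' 0 = v ∧
      Submodule.span K (Set.range e') = Submodule.span K (Set.range e) ∧
      hasse s (fun i => B (e' i) (e' i)) = hasse s (fun i => B (e i) (e i)) := by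
  classical
  intro r
  induction r with
  | zero =>
    intro n e he v hv hvv hS
    exfalso
    have hS0 := hS (Finset.univ.filter fun j => B v (e j) ≠ 0) fun j => by simp
    have hS1 := Finset.card_eq_zero.1 (Nat.le_zero.1 hS0)
    apply hvv
    rw [he.norm_eq hB hv]
    refine Finset.sum_eq_zero fun j _ => ?_
    have : B v (e j) = 0 := by
      by_contra hne
      have : j ∈ (Finset.univ.filter fun j => B v (e j) ≠ 0) := by simp [hne]
      rw [hS1] at this
      exact absurd this (Finset.notMem_empty _)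
    rw [this]
    simp
  | succ r ih =>
    intro n e he v hv hvv hS
    have hSf := hS (Finset.univ.filter fun j => B v (e j) ≠ 0) fun j => by simp
    by_cases hcard : (Finset.univ.filter fun j => B v (e j) ≠ 0).card ≤ 1
    · -- `v` is a multiple of some `e i`
      have hex : ∃ i, B v (e i) ≠ 0 := by
        by_contra hcon
        push Not at hcon
        apply hvv
        rw [he.norm_eq hB hv]
        exact Finset.sum_eq_zero fun j _ => by rw [hcon j]; simp
      obtain ⟨i, hi⟩ := hex
      have huniq : ∀ j, j ≠ i → B v (e j) = 0 := by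
        intro j hj
        by_contra hne
        have := Finset.card_le_one.1 hcard j (by simp [hne]) i (by simp [hi])
        exact hj this
      have hve : v = (B v (e i) / B (e i) (e i)) • e i := by
        conv_lhs => rw [he.expand hv]
        rw [Finset.sum_eq_single i]
        · intro j _ hj
          rw [huniq j hj, zero_div, zero_smul]
        · intro hh; exact absurd (Finset.mem_univ i) hh
      have hsc := scale_Ha h (he.perm (Equiv.swap 0 i))
        (fun j => if j = 0 then B v (e i) / B (e i) (e i) else 1) (by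
          intro j
          by_cases hj : j = 0
          · rw [if_pos hj]; exact div_ne_zero hi (he.ne i)
          · rw [if_neg hj]; exact one_ne_zero)
      refine ⟨_, hsc.1, ?_, ?_, ?_⟩
      · simp only [if_true, Equiv.swap_apply_left]
        exact hve.symm
      · rw [hsc.2.1]
        exact span_perm_Ha e _
      · rw [hsc.2.2]
        exact hasse_perm_Ha h (fun i => B (e i) (e i)) _
    · rw [not_le] at hcard
      -- a good pair
      have hpair : ∃ i k, i ≠ k ∧ B v (e i) ≠ 0 ∧ B v (e k) ≠ 0 ∧
          B v (e i) ^ 2 / B (e i) (e i) + B v (e k) ^ 2 / B (e k) (e k) ≠ 0 := by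
        by_contra hcon
        push Not at hcon
        obtain ⟨i, hi, k, hk, hik⟩ := Finset.one_lt_card.1 hcard
        rw [Finset.mem_filter] at hi hk
        have hik0 := hcon i k hik hi.2 hk.2
        -- no third index
        have hno : ∀ j, j ≠ i → j ≠ k → B v (e j) = 0 := by
          intro j hji hjk
          by_contra hne
          have h3 := hcon j i hji hne hi.2
          have h4 := hcon j k hjk hne hk.2
          have h5 : 2 * (B v (e j) ^ 2 / B (e j) (e j)) = 0 := by
            linear_combination h3 + h4 - hik0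
          rcases mul_eq_zero.1 h5 with h6 | h6
          · exact h2 h6
          · exact (div_ne_zero (pow_ne_zero 2 hne) (he.ne j)) h6
        apply hvv
        rw [he.norm_eq hB hv, ← Finset.sum_subset (Finset.subset_univ {i, k}),
          Finset.sum_pair hik, hik0]
        intro j _ hj
        rw [Finset.mem_insert, Finset.mem_singleton, not_or] at hj
        rw [hno j hj.1 hj.2]
        simp
      obtain ⟨i, k, hik, hi, hk, hc⟩ := hpair
      -- `n ≥ 1`
      cases n with
      | zero => exact absurd (Fin.ext (by omega)) hik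
      | succ n =>
        obtain ⟨σ, hσ0, hσ1⟩ := perm_two_Ha i k hik
        have he1 := he.perm σ
        set e1 : Fin (n + 2) → V := fun j => e (σ j) with he1def
        have e10 : e1 0 = e i := by rw [he1def]; simp only [hσ0]
        have e11 : e1 1 = e k := by rw [he1def]; simp only [hσ1]
        set x : K := B v (e1 0) / B (e1 0) (e1 0) with hx
        set y : K := B v (e1 1) / B (e1 1) (e1 1) with hy
        set e2 : Fin (n + 2) → V := Fin.cons (x • e1 0 + y • e1 1)
          (Fin.cons ((B (e1 1) (e1 1) * y) • e1 0 - (B (e1 0) (e1 0) * x) • e1 1)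
            (fun j : Fin n => e1 j.succ.succ)) with he2def
        have e20 : e2 0 = x • e1 0 + y • e1 1 := rfl
        have e21 : e2 1 = (B (e1 1) (e1 1) * y) • e1 0 - (B (e1 0) (e1 0) * x) • e1 1 := rfl
        have e22 : ∀ j : Fin n, e2 j.succ.succ = e1 j.succ.succ := fun j => rfl
        have n0 := he1.ne 0
        have n1 := he1.ne 1
        have hc' : B (e1 0) (e1 0) * x ^ 2 + B (e1 1) (e1 1) * y ^ 2 ≠ 0 := by
          have : B (e1 0) (e1 0) * x ^ 2 + B (e1 1) (e1 1) * y ^ 2 =
              B v (e i) ^ 2 / B (e i) (e i) + B v (e k) ^ 2 / B (e k) (e k) := by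
            rw [hx, hy, ← e10, ← e11]
            field_simp
          rw [this]; exact hc
        obtain ⟨hOF, hsp, hh⟩ := two_Ha h1 h hB he1 x y _ hc' rfl e2 e20 e21 e22
        have hsp1 : Submodule.span K (Set.range e1) = Submodule.span K (Set.range e) :=
          span_perm_Ha e σ
        have hv2 : v ∈ Submodule.span K (Set.range e2) := by rw [hsp, hsp1]; exact hv
        obtain ⟨e', ho, h0, hs', hha⟩ := ih (n + 1) e2 hOF v hv2 hvv (by
          intro S hSS
          have hsub : S ⊆ (Finset.univ.filter fun j => B v (e1 j) ≠ 0).erase 1 := by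
            intro j hj
            have hj' := (hSS j).1 hj
            rw [Finset.mem_erase, Finset.mem_filter]
            revert hj'
            refine Fin.cases ?_ (fun j => ?_) j
            · intro _
              refine ⟨by simp, Finset.mem_univ _, ?_⟩
              rw [e10]; exact hi
            · refine Fin.cases ?_ (fun j => ?_) j
              · intro hj'
                exfalso
                apply hj'
                change B v (e2 1) = 0
                rw [e21, map_sub, map_smul, map_smul, smul_eq_mul, smul_eq_mul, hx, hy]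
                field_simp
                ring
              · intro hj'
                refine ⟨?_, Finset.mem_univ _, ?_⟩
                · rw [← Fin.succ_zero_eq_one]
                  exact fun hh => (Fin.succ_ne_zero j) (Fin.succ_injective _ hh)
                · rw [← e22]; exact hj'
          have h1mem : (1 : Fin (n + 2)) ∈ (Finset.univ.filter fun j => B v (e1 j) ≠ 0) := by
            rw [Finset.mem_filter]
            exact ⟨Finset.mem_univ _, by rw [e11]; exact hk⟩
          have hcc := Finset.card_le_card hsub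
          rw [Finset.card_erase_of_mem h1mem] at hcc
          have hce : (Finset.univ.filter fun j => B v (e1 j) ≠ 0).card =
              (Finset.univ.filter fun j => B v (e j) ≠ 0).card :=
            card_perm_Ha (fun j => B v (e j) ≠ 0) σ
          omega)
        refine ⟨e', ho, h0, ?_, ?_⟩
        · rw [hs', hsp, hsp1]
        · rw [hha, hh]
          exact hasse_perm_Ha h (fun i => B (e i) (e i)) σ

/-- Invariance. -/
lemma inv_Ha (h1 : StHa1) {s : K → K → ZMod 2} (h : IsSym K s) (h2 : (2 : K) ≠ 0)
    (hB : ∀ x y, B x y = B y x) : ∀ (n : ℕ) (e f : Fin n → V), OF_Ha B e → OF_Ha B f →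
    Submodule.span K (Set.range e) = Submodule.span K (Set.range f) →
    hasse s (fun i => B (e i) (e i)) = hasse s (fun i => B (f i) (f i)) := by
  intro n
  induction n with
  | zero =>
    intro e f _ _ _
    unfold hasse
    rw [Finset.univ_eq_empty, Finset.sum_empty, Finset.sum_empty]
  | succ n ih =>
    intro e f he hf hsp
    obtain ⟨e', ho, h0, hs', hha⟩ := chain_Ha h1 h h2 hB (n + 1) n e he (f 0)
      (hsp ▸ Submodule.subset_span ⟨0, rfl⟩) (hf.ne 0) (by
        intro S _
        exact (Finset.card_le_univ S).trans (by rw [Fintype.card_fin]))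
    have hspt : Submodule.span K (Set.range fun j : Fin n => e' j.succ) =
        Submodule.span K (Set.range fun j : Fin n => f j.succ) :=
      le_antisymm (ho.tail_span hf h0 (by rw [hs', hsp]))
        (hf.tail_span ho h0.symm (by rw [hs', hsp]))
    have hih := ih _ _ ho.tail hf.tail hspt
    obtain ⟨d, hd, hdisc⟩ := ho.tail.disc hf.tail hspt
    have hne : ∏ j : Fin n, B (f j.succ) (f j.succ) ≠ 0 :=
      Finset.prod_ne_zero_iff.2 fun i _ => hf.ne _
    rw [← hha, hasse_succ_Ha h _ ho.ne, hasse_succ_Ha h _ hf.ne, hih, h0, hdisc,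
      h.sq_right_Ha1 (hf.ne 0) hne hd]

end forms

theorem hHa : StHa := by
  intro h1 K _ s hs h2 V _ _ B hB n e f he hf hen hfn
  exact inv_Ha h1 hs h2 hB n e f ⟨he, hen⟩ ⟨hf, hfn⟩ (by rw [e.span_eq, f.span_eq])

end Pool.Agent.Helper54.HQ
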