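import Pool.Agent.Helper54.HQ.StI

/-!
# HQ, module Ha1: symbols and binary forms
-/

set_option autoImplicit false

namespace Pool.Agent.Helper54.HQ

section sym

variable {K : Type} [Field K] {s : K → K → ZMod 2}

lemma IsSym.mul_right_Ha1 (h : IsSym K s) {a b c : K} (ha : a ≠ 0) (hb : b ≠ 0) (hc : c ≠ 0) :
    s a (b * c) = s a b + s a c := by
  rw [h.symm a (b * c), h.mul b c a hb hc ha, h.symm b a, h.symm c a]

lemma IsSym.sq_left_Ha1 (h : IsSym K s) {a b t : K} (ha : a ≠ 0) (hb : b ≠ 0) (ht : t ≠ 0) :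
    s (a * t ^ 2) b = s a b := by
  rw [h.mul a (t ^ 2) b ha (pow_ne_zero 2 ht) hb, sq, h.mul t t b ht ht hb,
    CharTwo.add_self_eq_zero, add_zero]

lemma IsSym.sq_right_Ha1 (h : IsSym K s) {a b t : K} (ha : a ≠ 0) (hb : b ≠ 0) (ht : t ≠ 0) :
    s a (b * t ^ 2) = s a b := by
  rw [h.symm a, h.sq_left_Ha1 hb ha ht, h.symm b a]

lemma IsSym.one_left_Ha1 (h : IsSym K s) {b : K} (hb : b ≠ 0) : s 1 b = 0 := by
  have h1 := h.mul 1 1 b one_ne_zero one_ne_zero hb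
  rwa [mul_one, CharTwo.add_self_eq_zero] at h1

lemma IsSym.one_right_Ha1 (h : IsSym K s) {b : K} (hb : b ≠ 0) : s b 1 = 0 := by
  rw [h.symm, h.one_left_Ha1 hb]

lemma IsSym.prod_right_Ha1 (h : IsSym K s) {a : K} (ha : a ≠ 0) {ι : Type} (S : Finset ι) (b : ι → K)
    (hb : ∀ i ∈ S, b i ≠ 0) : s a (∏ i ∈ S, b i) = ∑ i ∈ S, s a (b i) := by
  classical
  induction S using Finset.induction_on with
  | empty => rw [Finset.prod_empty, Finset.sum_empty, h.one_right_Ha1 ha]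
  | insert j S hj ih =>
    rw [Finset.prod_insert hj, Finset.sum_insert hj,
      h.mul_right_Ha1 ha (hb j (Finset.mem_insert_self _ _))
        (Finset.prod_ne_zero_iff.2 fun i hi => hb i (Finset.mem_insert_of_mem hi)),
      ih fun i hi => hb i (Finset.mem_insert_of_mem hi)]

end sym

theorem hHa1 : StHa1 := by
  intro K _ s hs a₁ a₂ b₁ b₂ x y c ha₁ ha₂ hb₁ hb₂ hc h1 h2
  by_cases hy : y = 0
  · subst hy
    have hx : x ≠ 0 := by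
      rintro rfl
      apply hb₁; rw [h1]; ring
    have e1 : b₁ = a₁ * x ^ 2 := by rw [h1]; ring
    have e2 : b₂ = a₂ * (c / x) ^ 2 := by
      rw [e1] at h2
      have h3 : a₁ * x ^ 2 * b₂ = a₁ * x ^ 2 * (a₂ * (c / x) ^ 2) := by
        rw [h2]; field_simp
      exact mul_left_cancel₀ (mul_ne_zero ha₁ (pow_ne_zero 2 hx)) h3
    rw [e1, e2, hs.sq_left_Ha1 ha₁ (by rw [← e2]; exact hb₂) hx,
      hs.sq_right_Ha1 ha₁ ha₂ (div_ne_zero hc hx)]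
  by_cases hx : x = 0
  · subst hx
    have e1 : b₁ = a₂ * y ^ 2 := by rw [h1]; ring
    have e2 : b₂ = a₁ * (c / y) ^ 2 := by
      rw [e1] at h2
      have h3 : a₂ * y ^ 2 * b₂ = a₂ * y ^ 2 * (a₁ * (c / y) ^ 2) := by
        rw [h2]; field_simp
      exact mul_left_cancel₀ (mul_ne_zero ha₂ (pow_ne_zero 2 hy)) h3
    rw [e1, e2, hs.sq_left_Ha1 ha₂ (by rw [← e2]; exact hb₂) hy,
      hs.sq_right_Ha1 ha₂ ha₁ (div_ne_zero hc hy), hs.symm]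
  have hA : s (a₁ * b₁ * (x / b₁) ^ 2) (a₂ * b₁ * (y / b₁) ^ 2) = 0 := by
    refine hs.stein _ _ ?_ ?_ ?_
    · exact mul_ne_zero (mul_ne_zero ha₁ hb₁) (pow_ne_zero 2 (div_ne_zero hx hb₁))
    · exact mul_ne_zero (mul_ne_zero ha₂ hb₁) (pow_ne_zero 2 (div_ne_zero hy hb₁))
    · have h3 : (a₁ * b₁ * (x / b₁) ^ 2) + (a₂ * b₁ * (y / b₁) ^ 2) =
          (a₁ * x ^ 2 + a₂ * y ^ 2) / b₁ := by field_simp
      rw [h3, ← h1, div_self hb₁]
  rw [hs.sq_left_Ha1 (mul_ne_zero ha₁ hb₁)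
      (mul_ne_zero (mul_ne_zero ha₂ hb₁) (pow_ne_zero 2 (div_ne_zero hy hb₁))) (div_ne_zero hx hb₁),
    hs.sq_right_Ha1 (mul_ne_zero ha₁ hb₁) (mul_ne_zero ha₂ hb₁) (div_ne_zero hy hb₁),
    hs.mul a₁ b₁ _ ha₁ hb₁ (mul_ne_zero ha₂ hb₁), hs.mul_right_Ha1 ha₁ ha₂ hb₁] at hA
  have h4 : s b₁ (a₁ * (a₂ * b₁)) = s b₁ b₂ := by
    have e : a₁ * (a₂ * b₁) = b₂ * (b₁ / c) ^ 2 := by
      have h5 : a₁ * (a₂ * b₁) * c ^ 2 = b₂ * (b₁ / c) ^ 2 * c ^ 2 := by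
        rw [div_pow, mul_assoc b₂, div_mul_cancel₀ _ (pow_ne_zero 2 hc)]
        linear_combination (-b₁) * h2
      exact mul_right_cancel₀ (pow_ne_zero 2 hc) h5
    rw [e, hs.sq_right_Ha1 hb₁ hb₂ (div_ne_zero hb₁ hc)]
  rw [hs.mul_right_Ha1 hb₁ ha₁ (mul_ne_zero ha₂ hb₁), hs.symm b₁ a₁] at h4
  have h5 : s a₁ a₂ + s b₁ b₂ = 0 := by
    rw [← h4]
    linear_combination hA
  have h6 := eq_neg_of_add_eq_zero_left h5
  rw [h6, CharTwo.neg_eq]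

end Pool.Agent.Helper54.HQ
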