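import Pool.Agent.Helper54.HQ.StI

/-!
# HQ, module Hc: the Hilbert symbol for odd `p` is a symbol
-/

set_option autoImplicit false

namespace Pool.Agent.Helper54.HQ

open Polynomial Finset Filter Topology Matrix IsDedekindDomain

theorem lg_one_Hc {κ : Type} [CommRing κ] : lg (1 : κ) = 0 := by
  unfold lg
  exact if_pos ⟨1, (one_mul 1).symm⟩

theorem lg_mul_Hc (p : ℕ) [Fact p.Prime] {a b : ZMod p} (ha : a ≠ 0) (hb : b ≠ 0) :
    lg (a * b) = lg a + lg b := by
  have h : quadraticChar (ZMod p) (a * b) = quadraticChar (ZMod p) a * quadraticChar (ZMod p) b :=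
    map_mul _ _ _
  have key : ∀ c : ZMod p, c ≠ 0 → (quadraticChar (ZMod p) c = 1 ∧ lg c = 0) ∨
      (quadraticChar (ZMod p) c = -1 ∧ lg c = 1) := by
    intro c hc
    by_cases hs : IsSquare c
    · exact Or.inl ⟨(quadraticChar_one_iff_isSquare hc).2 hs, by unfold lg; exact if_pos hs⟩
    · exact Or.inr ⟨quadraticChar_neg_one_iff_not_isSquare.2 hs, by unfold lg; exact if_neg hs⟩
  rcases key a ha with ⟨h1, h2⟩ | ⟨h1, h2⟩ <;> rcases key b hb with ⟨h3, h4⟩ | ⟨h3, h4⟩ <;>
    rcases key (a * b) (mul_ne_zero ha hb) with ⟨h5, h6⟩ | ⟨h5, h6⟩ <;>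
    rw [h1, h3, h5] at h <;> rw [h2, h4, h6] <;> first | rfl | (exfalso; revert h; decide)

theorem norm_val_Hc (p : ℕ) [Fact p.Prime] {x : ℚ_[p]} (hx : x ≠ 0) :
    (0 < x.valuation → ‖x‖ < 1) ∧ (x.valuation < 0 → 1 < ‖x‖) ∧ (x.valuation = 0 → ‖x‖ = 1) := by
  have hp : (1 : ℝ) < (p : ℝ) := by exact_mod_cast (Fact.out : p.Prime).one_lt
  rw [Padic.norm_eq_zpow_neg_valuation hx]
  refine ⟨fun h => zpow_lt_one_of_neg₀ hp (by omega), fun h => one_lt_zpow₀ hp (by omega),
    fun h => ?_⟩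
  rw [h, neg_zero, zpow_zero]

theorem val_of_norm_Hc (p : ℕ) [Fact p.Prime] {x : ℚ_[p]} (hx : x ≠ 0) (h : ‖x‖ = 1) :
    x.valuation = 0 := by
  obtain ⟨h1, h2, -⟩ := norm_val_Hc p hx
  rcases lt_trichotomy x.valuation 0 with hv | hv | hv
  · exact absurd (h2 hv) (by rw [h]; exact lt_irrefl _)
  · exact hv
  · exact absurd (h1 hv) (by rw [h]; exact lt_irrefl _)

theorem toZMod_eq_zero_Hc (p : ℕ) [Fact p.Prime] {x : ℤ_[p]} (h : ‖x‖ < 1) :
    PadicInt.toZMod x = 0 := by
  have h1 : x ∈ RingHom.ker (PadicInt.toZMod : ℤ_[p] →+* ZMod p) := by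
    rw [PadicInt.ker_toZMod, IsLocalRing.mem_maximalIdeal]
    exact PadicInt.mem_nonunits.2 h
  exact h1

/-- the first argument has positive valuation -/
theorem stein_pos_Hc (h : StHc0) (p : ℕ) [Fact p.Prime] {a b : ℚ_[p]} (ha : a ≠ 0)
    (hb : b ≠ 0) (hab : a + b = 1) (hv : 0 < a.valuation) : hs p a b = 0 := by
  obtain ⟨-, -, h3⟩ := h p
  have hn : ‖a‖ < 1 := (norm_val_Hc p ha).1 hv
  have hb' : b = 1 + -a := by rw [← hab]; ring
  have hb1 : ‖b‖ = 1 := by
    have h1 : ‖(1 : ℚ_[p])‖ ≠ ‖-a‖ := by rw [norm_one, norm_neg]; exact hn.ne'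
    rw [hb', Padic.add_eq_max_of_ne h1, norm_one, norm_neg]
    exact max_eq_left hn.le
  have hvb := val_of_norm_Hc p hb hb1
  have hub := h3 b hb hvb
  have h4 : PadicInt.toZMod (ur p b - 1) = 0 := by
    refine toZMod_eq_zero_Hc p ?_
    rw [PadicInt.norm_def]
    push_cast
    rw [hub, hb']
    have : (1 + -a - 1 : ℚ_[p]) = -a := by ring
    rw [this, norm_neg]
    exact hn
  have h5 : PadicInt.toZMod (ur p b) = 1 := by
    rw [map_sub, map_one, sub_eq_zero] at h4
    exact h4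
  unfold hs
  rw [h5, lg_one_Hc]
  have h6 : v2 p b = 0 := by unfold v2; rw [hvb]; rfl
  rw [h6]
  ring

theorem hs_symm_Hc (p : ℕ) [Fact p.Prime] (a b : ℚ_[p]) : hs p a b = hs p b a := by
  unfold hs
  ring

theorem hHc (h : StHc0) : StHc := by
  intro p _ hp2
  obtain ⟨h1, h2, h3⟩ := h p
  have hunit : ∀ x : ℚ_[p], x ≠ 0 → PadicInt.toZMod (ur p x) ≠ 0 := fun x hx =>
    ((h1 x hx).1.map (PadicInt.toZMod : ℤ_[p] →+* ZMod p)).ne_zero
  have hl : ∀ x y : ℚ_[p], x ≠ 0 → y ≠ 0 → lg (PadicInt.toZMod (ur p (x * y))) =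
      lg (PadicInt.toZMod (ur p x)) + lg (PadicInt.toZMod (ur p y)) := by
    intro x y hx hy
    rw [(h2 x y hx hy).1, map_mul]
    exact lg_mul_Hc p (hunit x hx) (hunit y hy)
  refine ⟨?_, fun a b => hs_symm_Hc p a b, ?_⟩
  · intro a b c ha hb hc
    unfold hs
    rw [hl a b ha hb, (h2 a b ha hb).2]
    ring
  · intro a b ha hb hab
    rcases lt_or_ge 0 a.valuation with hva | hva
    · exact stein_pos_Hc h p ha hb hab hva
    rcases lt_or_ge 0 b.valuation with hvb | hvb
    · rw [hs_symm_Hc]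
      exact stein_pos_Hc h p hb ha (by rw [add_comm]; exact hab) hvb
    obtain ⟨-, na, na'⟩ := norm_val_Hc p ha
    obtain ⟨-, nb, nb'⟩ := norm_val_Hc p hb
    by_cases hv : a.valuation = b.valuation
    · rcases hva.lt_or_eq with hva' | hva'
      · -- both negative and equal
        have ea := (h1 a ha).2
        have eb := (h1 b hb).2
        obtain ⟨n, hn⟩ : ∃ n : ℕ, a.valuation = -(n : ℤ) := ⟨a.valuation.natAbs, by omega⟩
        have hn0 : n ≠ 0 := by omega
        have hp0 : (p : ℚ_[p]) ≠ 0 := by exact_mod_cast (Fact.out : p.Prime).ne_zero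
        have hsum : ((ur p a + ur p b : ℤ_[p]) : ℚ_[p]) = (p : ℚ_[p]) ^ n := by
          have e1 : (p : ℚ_[p]) ^ (-(n : ℤ)) * ((ur p a : ℚ_[p]) + (ur p b : ℚ_[p])) = 1 := by
            rw [mul_add, ← hn]
            nth_rewrite 2 [hv]
            rw [← ea, ← eb, hab]
          rw [_root_.zpow_neg, zpow_natCast] at e1
          rw [PadicInt.coe_add]
          have hpn : (p : ℚ_[p]) ^ n ≠ 0 := pow_ne_zero _ hp0
          field_simp at e1
          exact e1
        have hsum' : ur p a + ur p b = (p : ℤ_[p]) ^ n := by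
          apply PadicInt.ext
          rw [hsum, PadicInt.coe_pow, PadicInt.coe_natCast]
        have hz : PadicInt.toZMod (ur p b) = -1 * PadicInt.toZMod (ur p a) := by
          have e2 := congrArg (PadicInt.toZMod : ℤ_[p] →+* ZMod p) hsum'
          rw [map_add, map_pow, map_natCast, ZMod.natCast_self, zero_pow hn0] at e2
          linear_combination e2
        have hm1 : (-1 : ZMod p) ≠ 0 := neg_ne_zero.2 one_ne_zero
        unfold hs
        rw [hz, lg_mul_Hc p hm1 (hunit a ha)]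
        have hv2 : v2 p b = v2 p a := by unfold v2; rw [hv]
        rw [hv2]
        have key : ∀ n x y : ZMod 2, n * n * x + n * y + n * (x + y) = 0 := by decide
        exact key _ _ _
      · -- both zero
        unfold hs v2
        rw [← hv, hva']
        simp
    · exfalso
      have hne : ‖a‖ ≠ ‖b‖ := by
        rw [Padic.norm_eq_zpow_neg_valuation ha, Padic.norm_eq_zpow_neg_valuation hb]
        intro he
        have hp1 : (1 : ℝ) < (p : ℝ) := by exact_mod_cast (Fact.out : p.Prime).one_lt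
        have := zpow_right_injective₀ (by linarith) hp1.ne' he
        omega
      have h5 := Padic.add_eq_max_of_ne hne
      rw [hab, norm_one] at h5
      rcases lt_or_gt_of_ne hv with hlt | hlt
      · have := na (by omega)
        have h6 := le_max_left ‖a‖ ‖b‖
        linarith
      · have := nb (by omega)
        have h6 := le_max_right ‖a‖ ‖b‖
        linarith

end Pool.Agent.Helper54.HQ
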