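import Pool.Agent.Helper54.HQ.StI

/-!
# HQ module Hd: the Hilbert symbol at 2
-/

set_option autoImplicit false

namespace Pool.Agent.Helper54.HQ

theorem isUnit_cases_Hd {u : ZMod 8} (hu : IsUnit u) : u = 1 ∨ u = 3 ∨ u = 5 ∨ u = 7 := by
  obtain ⟨v, hv⟩ := hu.exists_right_inv
  revert u v
  decide

theorem e4_mul_Hd {u v : ZMod 8} (hu : IsUnit u) (hv : IsUnit v) : e4 (u * v) = e4 u + e4 v := by
  rcases isUnit_cases_Hd hu with rfl | rfl | rfl | rfl <;>
    rcases isUnit_cases_Hd hv with rfl | rfl | rfl | rfl <;> decide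

theorem e8_mul_Hd {u v : ZMod 8} (hu : IsUnit u) (hv : IsUnit v) : e8 (u * v) = e8 u + e8 v := by
  rcases isUnit_cases_Hd hu with rfl | rfl | rfl | rfl <;>
    rcases isUnit_cases_Hd hv with rfl | rfl | rfl | rfl <;> decide

/-- The possible values of `(2 ^ n, n)`. -/
def S_Hd : Finset (ZMod 8 × ZMod 2) := {(1, 0), (2, 1), (4, 0), (0, 0), (0, 1)}

/-- The units. -/
def U_Hd : Finset (ZMod 8) := {1, 3, 5, 7}

set_option maxHeartbeats 4000000 in
theorem finA_Hd : ∀ u ∈ U_Hd, ∀ w ∈ U_Hd, ∀ y ∈ S_Hd, ∀ z ∈ S_Hd, u + y.1 * w = z.1 →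
    e4 u * e4 w + z.2 * e8 w + (y.2 + z.2) * e8 u = 0 := by
  decide +kernel

set_option maxHeartbeats 4000000 in
theorem finB_Hd : ∀ u ∈ U_Hd, ∀ w ∈ U_Hd, ∀ x ∈ S_Hd, ∀ y ∈ S_Hd, x.1 * u + y.1 * w = 1 →
    e4 u * e4 w + x.2 * e8 w + y.2 * e8 u = 0 := by
  decide +kernel

theorem mem_S_Hd (n : ℕ) : ((2 : ZMod 8) ^ n, (n : ZMod 2)) ∈ S_Hd := by
  rcases Nat.lt_or_ge n 3 with h | h
  · have : n = 0 ∨ n = 1 ∨ n = 2 := by omega
    rcases this with rfl | rfl | rfl <;> decide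
  · have h8 : (2 : ZMod 8) ^ n = 0 := by
      obtain ⟨m, rfl⟩ := Nat.exists_eq_add_of_le h
      rw [pow_add, show (2 : ZMod 8) ^ 3 = 0 by decide, zero_mul]
    rw [h8]
    generalize (n : ZMod 2) = t
    revert t
    decide

theorem mem_U_Hd {u : ZMod 8} (hu : IsUnit u) : u ∈ U_Hd := by
  rcases isUnit_cases_Hd hu with rfl | rfl | rfl | rfl <;> decide

/-- The finite computation. -/
theorem fin_Hd {u w : ZMod 8} (hu : IsUnit u) (hw : IsUnit w) (a b c : ℕ)
    (h0 : a = 0 ∨ b = 0 ∨ c = 0) (h : 2 ^ a * u + 2 ^ b * w = 2 ^ c) :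
    e4 u * e4 w + ((a : ZMod 2) + c) * e8 w + ((b : ZMod 2) + c) * e8 u = 0 := by
  rcases h0 with rfl | rfl | rfl
  · have := finA_Hd u (mem_U_Hd hu) w (mem_U_Hd hw) _ (mem_S_Hd b) _ (mem_S_Hd c)
      (by rw [← h, pow_zero, one_mul])
    rw [Nat.cast_zero, zero_add]
    exact this
  · have := finA_Hd w (mem_U_Hd hw) u (mem_U_Hd hu) _ (mem_S_Hd a) _ (mem_S_Hd c)
      (by rw [← h, pow_zero, one_mul, add_comm])
    rw [Nat.cast_zero, zero_add]
    linear_combination this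
  · have := finB_Hd u (mem_U_Hd hu) w (mem_U_Hd hw) _ (mem_S_Hd a) _ (mem_S_Hd b)
      (by rw [h, pow_zero])
    rw [Nat.cast_zero, add_zero, add_zero]
    exact this

theorem hHd (h : StHc0) : StHd := by
  obtain ⟨h1, h2, h3⟩ := h 2
  have hunit : ∀ x : ℚ_[2], x ≠ 0 → IsUnit (u8 x) := fun x hx => by
    unfold u8
    exact (h1 x hx).1.map _
  have hmul : ∀ x y : ℚ_[2], x ≠ 0 → y ≠ 0 → u8 (x * y) = u8 x * u8 y := fun x y hx hy => by
    unfold u8
    rw [(h2 x y hx hy).1, map_mul]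
  refine ⟨⟨?_, ?_, ?_⟩, ?_⟩
  · intro a b c ha hb hc
    unfold hs2
    rw [hmul a b ha hb, (h2 a b ha hb).2, e4_mul_Hd (hunit a ha) (hunit b hb),
      e8_mul_Hd (hunit a ha) (hunit b hb)]
    ring
  · intro a b
    unfold hs2
    ring
  · intro x y hx hy hxy
    obtain ⟨-, ex⟩ := h1 x hx
    obtain ⟨-, ey⟩ := h1 y hy
    set n := x.valuation with hn
    set m := y.valuation with hm
    -- the exponents
    obtain ⟨c, a, b, hca, hcb, h0⟩ : ∃ c a b : ℕ, (a : ℤ) = n + c ∧ (b : ℤ) = m + c ∧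
        (a = 0 ∨ b = 0 ∨ c = 0) := by
      refine ⟨(max 0 (max (-n) (-m))).toNat, (n + max 0 (max (-n) (-m))).toNat,
        (m + max 0 (max (-n) (-m))).toNat, ?_, ?_, ?_⟩ <;> omega
    have e1 : (2 : ℚ_[2]) ^ a * (ur 2 x : ℚ_[2]) + 2 ^ b * (ur 2 y : ℚ_[2]) = 2 ^ c := by
      have k1 : (2 : ℚ_[2]) ^ a = 2 ^ n * 2 ^ c := by
        rw [← zpow_natCast, hca, zpow_add₀ two_ne_zero, zpow_natCast]
      have k2 : (2 : ℚ_[2]) ^ b = 2 ^ m * 2 ^ c := by
        rw [← zpow_natCast, hcb, zpow_add₀ two_ne_zero, zpow_natCast]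
      have ex' : x = (2 : ℚ_[2]) ^ n * (ur 2 x : ℚ_[2]) := by
        have := ex
        push_cast at this
        exact this
      have ey' : y = (2 : ℚ_[2]) ^ m * (ur 2 y : ℚ_[2]) := by
        have := ey
        push_cast at this
        exact this
      rw [k1, k2]
      calc (2 : ℚ_[2]) ^ n * 2 ^ c * (ur 2 x : ℚ_[2]) + 2 ^ m * 2 ^ c * (ur 2 y : ℚ_[2])
          = 2 ^ c * (2 ^ n * (ur 2 x : ℚ_[2]) + 2 ^ m * (ur 2 y : ℚ_[2])) := by ring
        _ = 2 ^ c := by rw [← ex', ← ey', hxy, mul_one]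
    have e2 : (2 : ℤ_[2]) ^ a * ur 2 x + 2 ^ b * ur 2 y = 2 ^ c := by
      apply Subtype.coe_injective
      push_cast
      exact e1
    have e3 : (2 : ZMod 8) ^ a * u8 x + 2 ^ b * u8 y = 2 ^ c := by
      have := congrArg (PadicInt.toZModPow (p := 2) 3) e2
      rw [map_add, map_mul, map_mul, map_pow, map_pow, map_pow, map_ofNat] at this
      exact this
    have e4' := fin_Hd (hunit x hx) (hunit y hy) a b c h0 e3
    have ha : ((a : ZMod 2) + c) = v2 2 x := by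
      have : ((a : ℤ) : ZMod 2) = ((n + c : ℤ) : ZMod 2) := by rw [hca]
      push_cast at this
      rw [this]
      unfold v2
      rw [← hn, add_assoc, CharTwo.add_self_eq_zero, add_zero]
    have hb : ((b : ZMod 2) + c) = v2 2 y := by
      have : ((b : ℤ) : ZMod 2) = ((m + c : ℤ) : ZMod 2) := by rw [hcb]
      push_cast at this
      rw [this]
      unfold v2
      rw [← hm, add_assoc, CharTwo.add_self_eq_zero, add_zero]
    rw [ha, hb] at e4'
    exact e4'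
  · have hv : (-1 : ℚ_[2]).valuation = 0 := by
      have : (((-1 : ℤ)) : ℚ_[2]).valuation = 0 := by
        rw [Padic.valuation_intCast]
        simp [padicValInt]
      simpa using this
    have h4 := h3 (-1) (by norm_num) hv
    have h5 : ur 2 (-1) = -1 := by
      refine Subtype.ext ?_
      refine h4.trans ?_
      push_cast
      rfl
    have h6 : u8 (-1) = 7 := by
      unfold u8
      rw [h5, map_neg, map_one]
      decide
    have h7 : v2 2 (-1) = 0 := by unfold v2; rw [hv]; rfl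
    unfold hs2
    rw [h6, h7]
    decide

end Pool.Agent.Helper54.HQ
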