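import Pool.Agent.Helper54.HQ.StI

/-!
# HQ module He: the real Hilbert symbol
-/

set_option autoImplicit false

namespace Pool.Agent.Helper54.HQ

theorem hHe : StHe := by
  refine ⟨⟨?_, ?_, ?_⟩, ?_⟩
  · intro a b c ha hb hc
    unfold hsR
    rcases lt_or_gt_of_ne ha with h1 | h1 <;> rcases lt_or_gt_of_ne hb with h2 | h2
    · have h3 : ¬ a * b < 0 := not_lt.2 (mul_pos_of_neg_of_neg h1 h2).le
      by_cases h4 : c < 0
      · simp only [h1, h2, h3, h4, and_true, if_true, if_false]
        decide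
      · simp [h4]
    · have h3 : a * b < 0 := mul_neg_of_neg_of_pos h1 h2
      simp [h1, h3, not_lt.2 h2.le]
    · have h3 : a * b < 0 := mul_neg_of_pos_of_neg h1 h2
      simp [h2, h3, not_lt.2 h1.le]
    · have h3 : ¬ a * b < 0 := not_lt.2 (mul_pos h1 h2).le
      simp [h3, not_lt.2 h1.le, not_lt.2 h2.le]
  · intro a b
    unfold hsR
    simp only [and_comm]
  · intro a b _ _ hab
    unfold hsR
    rw [if_neg]
    rintro ⟨h1, h2⟩
    linarith
  · unfold hsR
    rw [if_pos]
    constructor <;> norm_num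

end Pool.Agent.Helper54.HQ
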