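import Pool.Agent.Helper54.HQ.StI
import Mathlib.NumberTheory.LegendreSymbol.QuadraticReciprocity

/-!
# HQ, module Hf: the product formula for Hilbert symbols
-/

set_option autoImplicit false

namespace Pool.Agent.Helper54.HQ

open Polynomial Finset Filter Topology Matrix IsDedekindDomain

/-! ### local computations -/

section loc

variable (p : ℕ) [Fact p.Prime]

lemma v2_int_Hf {m : ℤ} (hm : ¬ (p : ℤ) ∣ m) : v2 p (m : ℚ_[p]) = 0 := by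
  rw [v2, Padic.valuation_intCast, padicValInt.eq_zero_of_not_dvd hm]
  simp

lemma ur_int_Hf (h0 : StHc0) {m : ℤ} (hm : ¬ (p : ℤ) ∣ m) : ur p (m : ℚ_[p]) = (m : ℤ_[p]) := by
  have hne : (m : ℚ_[p]) ≠ 0 := by
    intro h
    have h1 : m = 0 := by exact_mod_cast h
    exact hm (by rw [h1]; exact dvd_zero _)
  apply Subtype.ext
  have h1 := (h0 p).2.2 (m : ℚ_[p]) hne (by
    rw [Padic.valuation_intCast, padicValInt.eq_zero_of_not_dvd hm]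
    rfl)
  rw [h1, PadicInt.coe_intCast]

lemma v2_p_Hf : v2 p (p : ℚ_[p]) = 1 := by
  rw [v2, Padic.valuation_p]
  simp

lemma ur_p_Hf (h0 : StHc0) : ur p (p : ℚ_[p]) = 1 := by
  have hp : (p : ℚ_[p]) ≠ 0 := by exact_mod_cast (Fact.out : p.Prime).ne_zero
  have h1 := ((h0 p).1 (p : ℚ_[p]) hp).2
  rw [Padic.valuation_p, zpow_one] at h1
  apply Subtype.ext
  have h2 : (p : ℚ_[p]) * (ur p (p : ℚ_[p]) : ℚ_[p]) = p * 1 := by rw [← h1, mul_one]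
  exact mul_left_cancel₀ hp h2

lemma lg_one_Hf : lg (1 : ZMod p) = 0 := by
  rw [lg, if_pos ⟨1, by simp⟩]

lemma hs_unit_Hf {m n : ℤ} (hm : ¬ (p : ℤ) ∣ m) (hn : ¬ (p : ℤ) ∣ n) :
    hs p (m : ℚ_[p]) (n : ℚ_[p]) = 0 := by
  rw [hs, v2_int_Hf p hm, v2_int_Hf p hn]
  simp

lemma hs_p_unit_Hf (h0 : StHc0) {n : ℤ} (hn : ¬ (p : ℤ) ∣ n) :
    hs p (p : ℚ_[p]) (n : ℚ_[p]) = lg (n : ZMod p) := by
  rw [hs, v2_p_Hf, v2_int_Hf p hn, ur_int_Hf p h0 hn, map_intCast]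
  simp

lemma hs_p_p_Hf (h0 : StHc0) : hs p (p : ℚ_[p]) (p : ℚ_[p]) = lg (-1 : ZMod p) := by
  rw [hs, v2_p_Hf, ur_p_Hf p h0, map_one, lg_one_Hf]
  simp

end loc

lemma u8_int_Hf (h0 : StHc0) {m : ℤ} (hm : ¬ (2 : ℤ) ∣ m) : u8 (m : ℚ_[2]) = (m : ZMod 8) := by
  rw [u8, ur_int_Hf 2 h0 (by exact_mod_cast hm)]
  exact map_intCast (PadicInt.toZModPow (p := 2) 3) m

lemma u8_two_Hf (h0 : StHc0) : u8 (2 : ℚ_[2]) = 1 := by
  have h1 := ur_p_Hf 2 h0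
  have h2 : ((2 : ℕ) : ℚ_[2]) = 2 := by norm_num
  rw [h2] at h1
  rw [u8, h1]
  exact map_one (PadicInt.toZModPow (p := 2) 3)

lemma hs2_int_Hf (h0 : StHc0) {m n : ℤ} (hm : ¬ (2 : ℤ) ∣ m) (hn : ¬ (2 : ℤ) ∣ n) :
    hs2 (m : ℚ_[2]) (n : ℚ_[2]) = e4 (m : ZMod 8) * e4 (n : ZMod 8) := by
  rw [hs2, u8_int_Hf h0 hm, u8_int_Hf h0 hn, v2_int_Hf 2 (by exact_mod_cast hm),
    v2_int_Hf 2 (by exact_mod_cast hn)]
  simp

lemma v2_two_Hf : v2 2 (2 : ℚ_[2]) = 1 := by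
  have h1 := v2_p_Hf 2
  have h2 : ((2 : ℕ) : ℚ_[2]) = 2 := by norm_num
  rwa [h2] at h1

lemma e4_one_Hf : e4 1 = 0 := by decide

lemma e8_one_Hf : e8 1 = 0 := by decide

lemma hs2_two_int_Hf (h0 : StHc0) {n : ℤ} (hn : ¬ (2 : ℤ) ∣ n) :
    hs2 (2 : ℚ_[2]) (n : ℚ_[2]) = e8 (n : ZMod 8) := by
  rw [hs2, u8_int_Hf h0 hn, u8_two_Hf h0, v2_two_Hf, v2_int_Hf 2 (by exact_mod_cast hn), e4_one_Hf]
  simp

lemma hs2_two_two_Hf (h0 : StHc0) : hs2 (2 : ℚ_[2]) (2 : ℚ_[2]) = 0 := by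
  rw [hs2, u8_two_Hf h0, e4_one_Hf, e8_one_Hf]
  simp

/-! ### residues modulo 8 -/

lemma e4_nat_Hf (n : ℕ) (hn : n % 2 = 1) : e4 (n : ZMod 8) = if n % 4 = 1 then 0 else 1 := by
  rw [← ZMod.natCast_mod]
  have h : n % 8 = 1 ∨ n % 8 = 3 ∨ n % 8 = 5 ∨ n % 8 = 7 := by omega
  rcases h with h | h | h | h <;> rw [h]
  · rw [if_pos (by omega)]; decide
  · rw [if_neg (by omega)]; decide
  · rw [if_pos (by omega)]; decide
  · rw [if_neg (by omega)]; decide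

lemma e8_nat_Hf (n : ℕ) (hn : n % 2 = 1) :
    e8 (n : ZMod 8) = if n % 8 = 1 ∨ n % 8 = 7 then 0 else 1 := by
  rw [← ZMod.natCast_mod]
  have h : n % 8 = 1 ∨ n % 8 = 3 ∨ n % 8 = 5 ∨ n % 8 = 7 := by omega
  rcases h with h | h | h | h <;> rw [h]
  · rw [if_pos (by omega)]; decide
  · rw [if_neg (by omega)]; decide
  · rw [if_neg (by omega)]; decide
  · rw [if_pos (by omega)]; decide

lemma lg_neg_one_Hf (p : ℕ) [Fact p.Prime] (hp : p ≠ 2) : lg (-1 : ZMod p) = e4 (p : ZMod 8) := by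
  have h2 : p % 2 = 1 := (Nat.Prime.eq_two_or_odd (Fact.out : p.Prime)).resolve_left hp
  rw [e4_nat_Hf p h2, lg]
  by_cases h : p % 4 = 1
  · rw [if_pos h, if_pos (ZMod.exists_sq_eq_neg_one_iff.2 (by omega))]
  · rw [if_neg h, if_neg]
    intro h3
    exact (ZMod.exists_sq_eq_neg_one_iff.1 h3) (by omega)

lemma lg_two_Hf (p : ℕ) [Fact p.Prime] (hp : p ≠ 2) : lg (2 : ZMod p) = e8 (p : ZMod 8) := by
  have h2 : p % 2 = 1 := (Nat.Prime.eq_two_or_odd (Fact.out : p.Prime)).resolve_left hp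
  rw [e8_nat_Hf p h2, lg]
  by_cases h : p % 8 = 1 ∨ p % 8 = 7
  · rw [if_pos h, if_pos ((ZMod.exists_sq_eq_two_iff hp).2 h)]
  · rw [if_neg h, if_neg]
    intro h3
    exact h ((ZMod.exists_sq_eq_two_iff hp).1 h3)

lemma lg_qr_Hf (p q : ℕ) [Fact p.Prime] [Fact q.Prime] (hp : p ≠ 2) (hq : q ≠ 2) (hpq : p ≠ q) :
    lg (q : ZMod p) + lg (p : ZMod q) + e4 (p : ZMod 8) * e4 (q : ZMod 8) = 0 := by
  have hp2 : p % 2 = 1 := (Nat.Prime.eq_two_or_odd (Fact.out : p.Prime)).resolve_left hp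
  have hq2 : q % 2 = 1 := (Nat.Prime.eq_two_or_odd (Fact.out : q.Prime)).resolve_left hq
  have h11 : (1 : ZMod 2) + 1 = 0 := by decide
  rw [e4_nat_Hf p hp2, e4_nat_Hf q hq2]
  by_cases h1 : p % 4 = 1
  · rw [if_pos h1, zero_mul, add_zero]
    have h3 := ZMod.exists_sq_eq_prime_iff_of_mod_four_eq_one (p := p) (q := q) h1 hq
    by_cases h4 : IsSquare (q : ZMod p)
    · rw [lg, lg, if_pos h4, if_pos (h3.1 h4), add_zero]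
    · rw [lg, lg, if_neg h4, if_neg (fun h5 => h4 (h3.2 h5)), h11]
  · rw [if_neg h1, one_mul]
    by_cases h2 : q % 4 = 1
    · rw [if_pos h2, add_zero]
      have h3 := ZMod.exists_sq_eq_prime_iff_of_mod_four_eq_one (p := q) (q := p) h2 hp
      by_cases h4 : IsSquare (q : ZMod p)
      · rw [lg, lg, if_pos h4, if_pos (h3.2 h4), add_zero]
      · rw [lg, lg, if_neg h4, if_neg (fun h5 => h4 (h3.1 h5)), h11]
    · rw [if_neg h2]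
      have h3 := ZMod.exists_sq_eq_prime_iff_of_mod_four_eq_three (p := p) (q := q)
        (by omega) (by omega) hpq
      by_cases h4 : IsSquare (q : ZMod p)
      · rw [lg, lg, if_pos h4, if_neg (h3.1 h4), zero_add, h11]
      · have h5 : IsSquare (p : ZMod q) := by
          by_contra h5
          exact h4 (h3.2 h5)
        rw [lg, lg, if_neg h4, if_pos h5, add_zero, h11]

/-! ### the sum of the symbols -/

/-- the sum of the symbols -/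
noncomputable def Phi_Hf (S : Finset Prm) (a b : ℚ) : ZMod 2 :=
  ∑ P ∈ S, hs (P : ℕ) (a : ℚ_[(P : ℕ)]) (b : ℚ_[(P : ℕ)]) + hs2 (a : ℚ_[2]) (b : ℚ_[2]) +
    hsR (a : ℝ) (b : ℝ)

lemma Phi_mul_Hf (hc : StHc) (hd : StHd) (he : StHe) (S : Finset Prm)
    (hS : ∀ P ∈ S, (P : ℕ) ≠ 2) {a b c : ℚ} (ha : a ≠ 0) (hb : b ≠ 0) (hc0 : c ≠ 0) :
    Phi_Hf S (a * b) c = Phi_Hf S a c + Phi_Hf S b c := by
  unfold Phi_Hf
  have h1 : ∑ P ∈ S, hs (P : ℕ) ((a * b : ℚ) : ℚ_[(P : ℕ)]) (c : ℚ_[(P : ℕ)]) =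
      ∑ P ∈ S, hs (P : ℕ) (a : ℚ_[(P : ℕ)]) (c : ℚ_[(P : ℕ)]) +
        ∑ P ∈ S, hs (P : ℕ) (b : ℚ_[(P : ℕ)]) (c : ℚ_[(P : ℕ)]) := by
    rw [← sum_add_distrib]
    refine sum_congr rfl fun P hP => ?_
    rw [Rat.cast_mul]
    exact (hc (P : ℕ) (hS P hP)).mul _ _ _ (Rat.cast_ne_zero.2 ha) (Rat.cast_ne_zero.2 hb)
      (Rat.cast_ne_zero.2 hc0)
  rw [h1, Rat.cast_mul, Rat.cast_mul, hd.1.mul _ _ _ (Rat.cast_ne_zero.2 ha)
    (Rat.cast_ne_zero.2 hb) (Rat.cast_ne_zero.2 hc0), he.1.mul _ _ _ (Rat.cast_ne_zero.2 ha)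
    (Rat.cast_ne_zero.2 hb) (Rat.cast_ne_zero.2 hc0)]
  abel

lemma Phi_symm_Hf (hc : StHc) (hd : StHd) (he : StHe) (S : Finset Prm)
    (hS : ∀ P ∈ S, (P : ℕ) ≠ 2) (a b : ℚ) : Phi_Hf S a b = Phi_Hf S b a := by
  unfold Phi_Hf
  rw [sum_congr rfl fun P hP => (hc (P : ℕ) (hS P hP)).symm (a : ℚ_[(P : ℕ)]) (b : ℚ_[(P : ℕ)]),
    hd.1.symm, he.1.symm]

/-! ### generators -/

lemma ind_nat_Hf (S : Finset Prm) (χ : ℚ → ZMod 2)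
    (hmul : ∀ a b : ℚ, a ≠ 0 → b ≠ 0 → χ (a * b) = χ a + χ b)
    (h2 : χ 2 = 0) (hS : ∀ P ∈ S, χ (((P : ℕ) : ℤ) : ℚ) = 0) :
    ∀ n : ℕ, n ≠ 0 → (∀ P : Prm, (P : ℕ) ≠ 2 → (P : ℕ) ∣ n → P ∈ S) → χ n = 0 := by
  intro n
  induction n using Nat.strong_induction_on with
  | _ n ih =>
  intro hn hP
  by_cases h1 : n = 1
  · have h3 := hmul 1 1 one_ne_zero one_ne_zero
    rw [one_mul] at h3
    rw [h1, Nat.cast_one]
    have h4 : χ 1 + 0 = χ 1 + χ 1 := by rw [add_zero]; exact h3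
    exact (add_left_cancel h4).symm
  · set q := n.minFac with hq
    have hqp : q.Prime := Nat.minFac_prime h1
    obtain ⟨m, hm⟩ := Nat.minFac_dvd n
    have hm0 : m ≠ 0 := fun h => hn (by rw [hm, h, mul_zero])
    have hmn : m < n := by
      have h3 : 2 ≤ q := hqp.two_le
      have h4 : 0 < m := Nat.pos_of_ne_zero hm0
      rw [← hq] at hm
      nlinarith
    rw [hm, Nat.cast_mul, hmul _ _ (by exact_mod_cast hqp.ne_zero) (by exact_mod_cast hm0),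
      ih m hmn hm0 (fun P hP2 hPm => hP P hP2 (hPm.trans (by rw [hm]; exact Dvd.intro_left _ rfl))),
      add_zero]
    by_cases hq2 : q = 2
    · rw [← hq, hq2]
      exact_mod_cast h2
    · have h3 := hS ⟨q, hqp⟩ (hP ⟨q, hqp⟩ hq2 (Nat.minFac_dvd n))
      exact_mod_cast h3

lemma ind_Hf (S : Finset Prm) (χ : ℚ → ZMod 2)
    (hmul : ∀ a b : ℚ, a ≠ 0 → b ≠ 0 → χ (a * b) = χ a + χ b)
    (h1 : χ (-1) = 0) (h2 : χ 2 = 0) (hS : ∀ P ∈ S, χ (((P : ℕ) : ℤ) : ℚ) = 0) (a : ℚ)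
    (ha : a ≠ 0) (haS : ∀ P : Prm, (P : ℕ) ≠ 2 → padicValRat (P : ℕ) a ≠ 0 → P ∈ S) :
    χ a = 0 := by
  have hdd : ∀ x : ZMod 2, x + x = 0 := by decide
  have hden : (a.den : ℚ) ≠ 0 := by exact_mod_cast a.den_ne_zero
  have hnum : a.num ≠ 0 := Rat.num_ne_zero.2 ha
  -- `a * den ^ 2 = num * den`
  have h3 : χ a = χ ((a.num.natAbs * a.den : ℕ) : ℚ) := by
    have h4 : χ (a * (a.den * a.den)) = χ a := by
      rw [hmul _ _ ha (mul_ne_zero hden hden), hmul _ _ hden hden, hdd, add_zero]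
    have h5 : a * (a.den * a.den) = (a.num : ℚ) * a.den := by
      rw [← mul_assoc, Rat.mul_den_eq_num]
    rw [← h4, h5, Nat.cast_mul]
    rcases Int.natAbs_eq a.num with h6 | h6
    · have h7 : (a.num : ℚ) = (a.num.natAbs : ℚ) :=
        (congrArg (Int.cast : ℤ → ℚ) h6).trans (Int.cast_natCast _)
      rw [h7]
    · have h7 : (a.num : ℚ) = (-1) * (a.num.natAbs : ℚ) := by
        rw [neg_one_mul]
        refine (congrArg (Int.cast : ℤ → ℚ) h6).trans ?_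
        rw [Int.cast_neg, Int.cast_natCast]
      have h8 : (a.num.natAbs : ℚ) ≠ 0 := Nat.cast_ne_zero.2 (Int.natAbs_ne_zero.2 hnum)
      rw [h7, mul_assoc, hmul _ _ (by norm_num) (mul_ne_zero h8 hden), h1, zero_add]
  rw [h3]
  refine ind_nat_Hf S χ hmul h2 hS _ (mul_ne_zero (Int.natAbs_ne_zero.2 hnum) a.den_ne_zero) ?_
  intro P hP2 hPd
  refine haS P hP2 ?_
  have hcop : a.num.natAbs.Coprime a.den := a.reduced
  rw [padicValRat]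
  rcases (Nat.Prime.dvd_mul P.2).1 hPd with h4 | h4
  · have h5 : ¬ (P : ℕ) ∣ a.den := fun h5 => by
      have := Nat.dvd_gcd h4 h5
      rw [hcop] at this
      exact P.2.one_lt.ne' (Nat.dvd_one.1 this)
    rw [padicValNat.eq_zero_of_not_dvd h5, padicValInt]
    have h6 : padicValNat (P : ℕ) a.num.natAbs ≠ 0 := by
      have := (dvd_iff_padicValNat_ne_zero (p := (P : ℕ)) (Int.natAbs_ne_zero.2 hnum)).1 h4
      exact this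
    simpa using h6
  · have h5 : ¬ (P : ℕ) ∣ a.num.natAbs := fun h5 => by
      have := Nat.dvd_gcd h5 h4
      rw [hcop] at this
      exact P.2.one_lt.ne' (Nat.dvd_one.1 this)
    rw [padicValInt, padicValNat.eq_zero_of_not_dvd h5]
    have h6 : padicValNat (P : ℕ) a.den ≠ 0 :=
      (dvd_iff_padicValNat_ne_zero (p := (P : ℕ)) a.den_ne_zero).1 h4
    simpa using h6

/-! ### the generators -/

section gens

variable (h0 : StHc0) (hc : StHc) (hd : StHd) (he : StHe) (S : Finset Prm)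
  (hS : ∀ P ∈ S, (P : ℕ) ≠ 2)

lemma ndvd_neg_one_Hf (P : ℕ) (hP : P.Prime) : ¬ (P : ℤ) ∣ (-1 : ℤ) := by
  intro h
  rw [dvd_neg] at h
  exact hP.one_lt.ne' (by exact_mod_cast Int.eq_one_of_dvd_one (by positivity) h)

lemma ndvd_two_Hf (P : ℕ) (hP : P.Prime) (h2 : P ≠ 2) : ¬ (P : ℤ) ∣ (2 : ℤ) := by
  intro h
  have h3 : P ∣ 2 := by exact_mod_cast h
  exact h2 ((Nat.prime_dvd_prime_iff_eq hP Nat.prime_two).1 h3)

lemma ndvd_prime_Hf (P Q : ℕ) (hP : P.Prime) (hQ : Q.Prime) (h : P ≠ Q) : ¬ (P : ℤ) ∣ (Q : ℤ) := by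
  intro h1
  have h3 : P ∣ Q := by exact_mod_cast h1
  exact h ((Nat.prime_dvd_prime_iff_eq hP hQ).1 h3)

lemma ndvd_two_prime_Hf (P : ℕ) (hP : P.Prime) (h : P ≠ 2) : ¬ (2 : ℤ) ∣ (P : ℤ) := by
  have := ndvd_prime_Hf 2 P Nat.prime_two hP (Ne.symm h)
  exact_mod_cast this

include h0 hS

lemma neg_neg_Hf : Phi_Hf S (-1) (-1) = 0 := by
  unfold Phi_Hf
  have h1 : ∑ P ∈ S, hs (P : ℕ) ((-1 : ℚ) : ℚ_[(P : ℕ)]) ((-1 : ℚ) : ℚ_[(P : ℕ)]) = 0 := by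
    refine sum_eq_zero fun P _ => ?_
    have h2 := hs_unit_Hf (P : ℕ) (ndvd_neg_one_Hf P P.2) (ndvd_neg_one_Hf P P.2)
    have h3 : ((-1 : ℚ) : ℚ_[(P : ℕ)]) = ((-1 : ℤ) : ℚ_[(P : ℕ)]) := by push_cast; rfl
    rw [h3]
    exact h2
  have h3 : ((-1 : ℚ) : ℚ_[2]) = ((-1 : ℤ) : ℚ_[2]) := by push_cast; rfl
  rw [h1, h3, hs2_int_Hf h0 (by decide) (by decide), hsR, if_pos (by norm_num)]
  decide

lemma neg_two_Hf : Phi_Hf S (-1) 2 = 0 := by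
  unfold Phi_Hf
  have h1 : ∑ P ∈ S, hs (P : ℕ) ((-1 : ℚ) : ℚ_[(P : ℕ)]) ((2 : ℚ) : ℚ_[(P : ℕ)]) = 0 := by
    refine sum_eq_zero fun P hP => ?_
    have h2 := hs_unit_Hf (P : ℕ) (ndvd_neg_one_Hf P P.2) (ndvd_two_Hf P P.2 (hS P hP))
    have h3 : ((-1 : ℚ) : ℚ_[(P : ℕ)]) = ((-1 : ℤ) : ℚ_[(P : ℕ)]) := by push_cast; rfl
    have h4 : ((2 : ℚ) : ℚ_[(P : ℕ)]) = ((2 : ℤ) : ℚ_[(P : ℕ)]) := by push_cast; rfl
    rw [h3, h4]
    exact h2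
  have h3 : ((-1 : ℚ) : ℚ_[2]) = ((-1 : ℤ) : ℚ_[2]) := by push_cast; rfl
  have h4 : ((2 : ℚ) : ℚ_[2]) = 2 := by push_cast; rfl
  rw [h1, h3, h4, hs2, u8_int_Hf h0 (by decide), u8_two_Hf h0, v2_two_Hf,
    v2_int_Hf 2 (by decide), hsR, if_neg (by norm_num)]
  decide

lemma two_two_Hf : Phi_Hf S 2 2 = 0 := by
  unfold Phi_Hf
  have h1 : ∑ P ∈ S, hs (P : ℕ) ((2 : ℚ) : ℚ_[(P : ℕ)]) ((2 : ℚ) : ℚ_[(P : ℕ)]) = 0 := by
    refine sum_eq_zero fun P hP => ?_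
    have h2 := hs_unit_Hf (P : ℕ) (ndvd_two_Hf P P.2 (hS P hP)) (ndvd_two_Hf P P.2 (hS P hP))
    have h4 : ((2 : ℚ) : ℚ_[(P : ℕ)]) = ((2 : ℤ) : ℚ_[(P : ℕ)]) := by push_cast; rfl
    rw [h4]
    exact h2
  have h4 : ((2 : ℚ) : ℚ_[2]) = 2 := by push_cast; rfl
  rw [h1, h4, hs2_two_two_Hf h0, hsR, if_neg (by norm_num)]
  decide

lemma prime_int_Hf (Q : Prm) (hQ : Q ∈ S) (n : ℤ) (hn : ∀ P ∈ S, ¬ ((P : ℕ) : ℤ) ∣ n) :
    ∑ P ∈ S, hs (P : ℕ) (((((Q : ℕ) : ℤ) : ℚ)) : ℚ_[(P : ℕ)]) ((n : ℚ) : ℚ_[(P : ℕ)]) =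
      lg (n : ZMod (Q : ℕ)) := by
  rw [sum_eq_single_of_mem Q hQ]
  · rw [← hs_p_unit_Hf (Q : ℕ) h0 (hn Q hQ)]
    push_cast
    rfl
  · intro P hP hPQ
    have h1 := hs_unit_Hf (P : ℕ) (ndvd_prime_Hf P Q P.2 Q.2 fun h => hPQ (Subtype.ext h))
      (hn P hP)
    rw [Rat.cast_intCast, Rat.cast_intCast]
    exact h1

lemma prime_neg_Hf (Q : Prm) (hQ : Q ∈ S) : Phi_Hf S (((Q : ℕ) : ℤ) : ℚ) (-1) = 0 := by
  have h1 := prime_int_Hf h0 S hS Q hQ (-1) fun P _ => ndvd_neg_one_Hf P P.2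
  have hdd : ∀ x : ZMod 2, x + x = 0 := by decide
  unfold Phi_Hf
  have h3 : (-1 : ℚ) = ((-1 : ℤ) : ℚ) := by norm_num
  rw [h3, h1, Rat.cast_intCast, Rat.cast_intCast,
    hs2_int_Hf h0 (ndvd_two_prime_Hf Q Q.2 (hS Q hQ)) (by decide), hsR, if_neg (by
      rintro ⟨h4, -⟩
      have : (0 : ℝ) ≤ ((((Q : ℕ) : ℤ) : ℚ) : ℝ) := by push_cast; positivity
      linarith)]
  have h5 : e4 ((-1 : ℤ) : ZMod 8) = 1 := by decide
  rw [h5, mul_one, add_zero]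
  have h6 := lg_neg_one_Hf (Q : ℕ) (hS Q hQ)
  have h7 : (((-1 : ℤ)) : ZMod (Q : ℕ)) = -1 := by push_cast; rfl
  have h8 : ((((Q : ℕ) : ℤ)) : ZMod 8) = ((Q : ℕ) : ZMod 8) := by push_cast; rfl
  rw [h7, h6, h8, hdd]

lemma prime_two_Hf (Q : Prm) (hQ : Q ∈ S) (hd : StHd) : Phi_Hf S (((Q : ℕ) : ℤ) : ℚ) 2 = 0 := by
  have h1 := prime_int_Hf h0 S hS Q hQ 2 fun P hP => ndvd_two_Hf P P.2 (hS P hP)
  have hdd : ∀ x : ZMod 2, x + x = 0 := by decide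
  unfold Phi_Hf
  have h3 : (2 : ℚ) = ((2 : ℤ) : ℚ) := by norm_num
  have h4 : (((2 : ℤ) : ℚ) : ℚ_[2]) = 2 := by push_cast; rfl
  rw [h3, h1, Rat.cast_intCast, h4, hd.1.symm,
    hs2_two_int_Hf h0 (ndvd_two_prime_Hf Q Q.2 (hS Q hQ)), hsR, if_neg (by
      rintro ⟨h4, -⟩
      have : (0 : ℝ) ≤ ((((Q : ℕ) : ℤ) : ℚ) : ℝ) := by push_cast; positivity
      linarith), add_zero]
  have h6 := lg_two_Hf (Q : ℕ) (hS Q hQ)
  have h7 : (((2 : ℤ)) : ZMod (Q : ℕ)) = 2 := by push_cast; rfl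
  have h8 : ((((Q : ℕ) : ℤ)) : ZMod 8) = ((Q : ℕ) : ZMod 8) := by push_cast; rfl
  rw [h7, h6, h8, hdd]

lemma prime_prime_Hf (P Q : Prm) (hP : P ∈ S) (hQ : Q ∈ S) (hc : StHc) :
    Phi_Hf S (((P : ℕ) : ℤ) : ℚ) (((Q : ℕ) : ℤ) : ℚ) = 0 := by
  have hdd : ∀ x : ZMod 2, x + x = 0 := by decide
  have hR : hsR (((((P : ℕ) : ℤ) : ℚ)) : ℝ) (((((Q : ℕ) : ℤ) : ℚ)) : ℝ) = 0 := by
    rw [hsR, if_neg]
    rintro ⟨h4, -⟩
    have : (0 : ℝ) ≤ ((((P : ℕ) : ℤ) : ℚ) : ℝ) := by push_cast; positivity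
    linarith
  have h2 : hs2 (((((P : ℕ) : ℤ) : ℚ)) : ℚ_[2]) (((((Q : ℕ) : ℤ) : ℚ)) : ℚ_[2]) =
      e4 ((P : ℕ) : ZMod 8) * e4 ((Q : ℕ) : ZMod 8) := by
    rw [Rat.cast_intCast, Rat.cast_intCast, hs2_int_Hf h0 (ndvd_two_prime_Hf P P.2 (hS P hP))
      (ndvd_two_prime_Hf Q Q.2 (hS Q hQ))]
    push_cast
    rfl
  unfold Phi_Hf
  rw [hR, h2, add_zero]
  by_cases hPQ : P = Q
  · subst hPQ
    rw [sum_eq_single_of_mem P hP]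
    · have h3 := hs_p_p_Hf (P : ℕ) h0
      have h4 : (((((P : ℕ) : ℤ) : ℚ)) : ℚ_[(P : ℕ)]) = ((P : ℕ) : ℚ_[(P : ℕ)]) := by
        push_cast; rfl
      rw [h4, h3, lg_neg_one_Hf (P : ℕ) (hS P hP)]
      have h5 : ∀ x : ZMod 2, x + x * x = 0 := by decide
      exact h5 _
    · intro R hR hRP
      rw [Rat.cast_intCast]
      have h5 : (R : ℕ) ≠ (P : ℕ) := fun h => hRP (Subtype.ext h)
      exact hs_unit_Hf (R : ℕ) (ndvd_prime_Hf R P R.2 P.2 h5) (ndvd_prime_Hf R P R.2 P.2 h5)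
  · have hne : (P : ℕ) ≠ (Q : ℕ) := fun h => hPQ (Subtype.ext h)
    rw [sum_eq_add_of_mem P Q hP hQ hPQ]
    · have h3 : hs (P : ℕ) (((((P : ℕ) : ℤ) : ℚ)) : ℚ_[(P : ℕ)])
          (((((Q : ℕ) : ℤ) : ℚ)) : ℚ_[(P : ℕ)]) = lg ((Q : ℕ) : ZMod (P : ℕ)) := by
        have h4 := hs_p_unit_Hf (P : ℕ) h0 (ndvd_prime_Hf P Q P.2 Q.2 hne)
        have h5 : (((((P : ℕ) : ℤ) : ℚ)) : ℚ_[(P : ℕ)]) = ((P : ℕ) : ℚ_[(P : ℕ)]) := by
          push_cast; rfl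
        rw [h5, Rat.cast_intCast, h4]
        push_cast
        rfl
      have h3' : hs (Q : ℕ) (((((P : ℕ) : ℤ) : ℚ)) : ℚ_[(Q : ℕ)])
          (((((Q : ℕ) : ℤ) : ℚ)) : ℚ_[(Q : ℕ)]) = lg ((P : ℕ) : ZMod (Q : ℕ)) := by
        have h4 := hs_p_unit_Hf (Q : ℕ) h0 (ndvd_prime_Hf Q P Q.2 P.2 hne.symm)
        have h5 : (((((Q : ℕ) : ℤ) : ℚ)) : ℚ_[(Q : ℕ)]) = ((Q : ℕ) : ℚ_[(Q : ℕ)]) := by
          push_cast; rfl
        rw [h5, Rat.cast_intCast, (hc (Q : ℕ) (hS Q hQ)).symm, h4]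
        push_cast
        rfl
      rw [h3, h3']
      exact lg_qr_Hf (P : ℕ) (Q : ℕ) (hS P hP) (hS Q hQ) hne
    · rintro R hR ⟨h4, h5⟩
      rw [Rat.cast_intCast, Rat.cast_intCast]
      exact hs_unit_Hf (R : ℕ) (ndvd_prime_Hf R P R.2 P.2 fun h => h4 (Subtype.ext h))
        (ndvd_prime_Hf R Q R.2 Q.2 fun h => h5 (Subtype.ext h))

end gens

theorem hHf (h0 : StHc0) (hc : StHc) (hd : StHd) (he : StHe) : StHf := by
  intro a b ha hb S hS hab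
  change Phi_Hf S a b = 0
  have hmul1 : ∀ c : ℚ, c ≠ 0 → ∀ x y : ℚ, x ≠ 0 → y ≠ 0 →
      Phi_Hf S (x * y) c = Phi_Hf S x c + Phi_Hf S y c :=
    fun c hc0 x y hx hy => Phi_mul_Hf hc hd he S hS hx hy hc0
  have hsym := Phi_symm_Hf hc hd he S hS
  have haS : ∀ P : Prm, (P : ℕ) ≠ 2 → padicValRat (P : ℕ) a ≠ 0 → P ∈ S :=
    fun P hP h => hab P hP (Or.inl h)
  have hbS : ∀ P : Prm, (P : ℕ) ≠ 2 → padicValRat (P : ℕ) b ≠ 0 → P ∈ S :=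
    fun P hP h => hab P hP (Or.inr h)
  -- the generators against `b`
  have key : ∀ x : ℚ, x ≠ 0 → Phi_Hf S (-1) x = 0 → Phi_Hf S 2 x = 0 →
      (∀ P ∈ S, Phi_Hf S (((P : ℕ) : ℤ) : ℚ) x = 0) → Phi_Hf S a x = 0 := by
    intro x hx h1 h2 h3
    exact ind_Hf S (fun y => Phi_Hf S y x) (hmul1 x hx) h1 h2 h3 a ha haS
  have hP0 : ∀ P : Prm, (((P : ℕ) : ℤ) : ℚ) ≠ 0 := by
    intro P
    exact_mod_cast P.2.ne_zero
  have k1 : Phi_Hf S a (-1) = 0 := key (-1) (by norm_num) (neg_neg_Hf h0 S hS)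
    ((hsym _ _).trans (neg_two_Hf h0 S hS)) (fun P hP => prime_neg_Hf h0 S hS P hP)
  have k2 : Phi_Hf S a 2 = 0 := key 2 (by norm_num) (neg_two_Hf h0 S hS) (two_two_Hf h0 S hS)
    (fun P hP => prime_two_Hf h0 S hS P hP hd)
  have k3 : ∀ Q ∈ S, Phi_Hf S a (((Q : ℕ) : ℤ) : ℚ) = 0 := fun Q hQ =>
    key _ (hP0 Q) ((hsym _ _).trans (prime_neg_Hf h0 S hS Q hQ))
      ((hsym _ _).trans (prime_two_Hf h0 S hS Q hQ hd))
      (fun P hP => prime_prime_Hf h0 S hS P Q hP hQ hc)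
  rw [hsym]
  exact ind_Hf S (fun y => Phi_Hf S y a) (hmul1 a ha) ((hsym _ _).trans k1) ((hsym _ _).trans k2)
    (fun P hP => (hsym _ _).trans (k3 P hP)) b hb hbS

end Pool.Agent.Helper54.HQ
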