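import Pool.Agent.Helper54.HQ.StI

set_option autoImplicit false

namespace Pool.Agent.Helper54.HQ

open Polynomial Finset Filter Topology Matrix

namespace Hg0

variable {O : Type} [CommRing O]

/-- step 1: move a unit value into the corner -/
theorem corner [IsLocalRing O] (h2 : IsUnit (2 : O)) {n : ℕ} (G : Matrix (Fin (n + 1)) (Fin (n + 1)) O)
    (hs : G.IsSymm) (hG : IsUnit G.det) :
    ∃ P : Matrix (Fin (n + 1)) (Fin (n + 1)) O, IsUnit P.det ∧ IsUnit ((Pᵀ * G * P) 0 0) := by
  classical
  -- the value of a permuted matrix
  have hval : ∀ (T : Matrix (Fin (n + 1)) (Fin (n + 1)) O) (i : Fin (n + 1)), IsUnit T.det →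
      IsUnit (∑ k, ∑ l, T k i * G k l * T l i) →
      ∃ P : Matrix (Fin (n + 1)) (Fin (n + 1)) O, IsUnit P.det ∧ IsUnit ((Pᵀ * G * P) 0 0) := by
    intro T i hT hu
    refine ⟨T.submatrix id (Equiv.swap 0 i), ?_, ?_⟩
    · rw [Matrix.det_permute']
      refine IsUnit.mul ?_ hT
      have : IsUnit ((Equiv.Perm.sign (Equiv.swap (0 : Fin (n + 1)) i) : ℤˣ) : ℤ) := Units.isUnit _
      exact this.map (Int.castRingHom O)
    · convert hu using 1
      rw [Matrix.mul_apply]
      simp only [Matrix.mul_apply, Matrix.transpose_apply, Matrix.submatrix_apply, id,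
        Equiv.swap_apply_left, Finset.sum_mul]
      rw [Finset.sum_comm]
  have hex : ∃ i j, IsUnit (G i j) := by
    by_contra hcon
    push Not at hcon
    have hm : G.det ∈ IsLocalRing.maximalIdeal O := by
      rw [Matrix.det_apply]
      refine Ideal.sum_mem _ fun σ _ => ?_
      rw [Units.smul_def, zsmul_eq_mul]
      refine Ideal.mul_mem_left _ _ ?_
      rw [Fin.prod_univ_succ]
      exact Ideal.mul_mem_right _ _ (hcon _ _)
    exact hm hG
  obtain ⟨i, j, hij⟩ := hex
  by_cases hii : IsUnit (G i i)
  · refine hval 1 i (by rw [Matrix.det_one]; exact isUnit_one) ?_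
    convert hii using 1
    rw [Finset.sum_eq_single i, Finset.sum_eq_single i]
    · simp
    · intro l _ hl
      rw [Matrix.one_apply_ne hl]; simp
    · simp
    · intro k _ hk
      refine Finset.sum_eq_zero fun l _ => ?_
      rw [Matrix.one_apply_ne hk]; simp
    · simp
  · by_cases hjj : IsUnit (G j j)
    · refine hval 1 j (by rw [Matrix.det_one]; exact isUnit_one) ?_
      convert hjj using 1
      rw [Finset.sum_eq_single j, Finset.sum_eq_single j]
      · simp
      · intro l _ hl
        rw [Matrix.one_apply_ne hl]; simp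
      · simp
      · intro k _ hk
        refine Finset.sum_eq_zero fun l _ => ?_
        rw [Matrix.one_apply_ne hk]; simp
      · simp
    · have hne : j ≠ i := by
        rintro rfl
        exact hii hij
      refine hval (Matrix.transvection j i 1) i ?_ ?_
      · rw [Matrix.det_transvection_of_ne _ _ hne]; exact isUnit_one
      · have hcol : ∀ k, (Matrix.transvection j i (1 : O)) k i =
            (if k = i then 1 else 0) + (if k = j then 1 else 0) := by
          intro k
          rw [Matrix.transvection, Matrix.add_apply, Matrix.one_apply, Matrix.single_apply]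
          congr 1
          by_cases hk : k = j
          · simp [hk]
          · rw [if_neg hk, if_neg]; rintro ⟨h, -⟩; exact hk h.symm
        have hsum : ∑ k, ∑ l, (Matrix.transvection j i (1 : O)) k i * G k l *
            (Matrix.transvection j i (1 : O)) l i = G i i + 2 * G i j + G j j := by
          have hji : G j i = G i j := congrFun (congrFun hs i) j
          have hin : ∀ k, ∑ l, (Matrix.transvection j i (1 : O)) k i * G k l *
              (Matrix.transvection j i (1 : O)) l i =
              (Matrix.transvection j i (1 : O)) k i * (G k i + G k j) := by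
            intro k
            simp only [hcol, mul_add, mul_ite, mul_one, mul_zero, Finset.sum_add_distrib,
              Finset.sum_ite_eq', Finset.mem_univ, if_true]
          simp only [hin]
          simp only [hcol, add_mul, ite_mul, one_mul, zero_mul, Finset.sum_add_distrib,
            Finset.sum_ite_eq', Finset.mem_univ, if_true]
          rw [hji]
          ring
        rw [hsum]
        have hu : IsUnit (2 * G i j) := h2.mul hij
        by_contra hcon
        have h1 : G i i + G j j ∈ IsLocalRing.maximalIdeal O :=
          Ideal.add_mem _ hii hjj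
        have h3 : 2 * G i j ∈ IsLocalRing.maximalIdeal O := by
          have : 2 * G i j = (G i i + 2 * G i j + G j j) - (G i i + G j j) := by ring
          rw [this]
          exact Ideal.sub_mem _ hcon h1
        exact h3 hu

theorem main [IsLocalRing O] (h2 : IsUnit (2 : O)) : ∀ (n : ℕ) (G : Matrix (Fin n) (Fin n) O),
    G.IsSymm → IsUnit G.det → ∃ (Q : Matrix (Fin n) (Fin n) O) (a : Fin n → O), IsUnit Q.det ∧
      (∀ i, IsUnit (a i)) ∧ Qᵀ * G * Q = Matrix.diagonal a := by
  intro n
  induction n with
  | zero =>
    intro G _ _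
    refine ⟨1, fun _ => 1, by simp, fun i => i.elim0, ?_⟩
    ext i
    exact i.elim0
  | succ n ih =>
    intro G0 hs0 hG0
    obtain ⟨P, hP, hc⟩ := corner h2 G0 hs0 hG0
    set G := Pᵀ * G0 * P with hGdef
    have hs : G.IsSymm := by
      rw [Matrix.IsSymm, hGdef, Matrix.transpose_mul, Matrix.transpose_mul, Matrix.transpose_transpose,
        hs0, Matrix.mul_assoc]
    have hG : IsUnit G.det := by
      rw [hGdef, Matrix.det_mul, Matrix.det_mul, Matrix.det_transpose]
      exact (hP.mul hG0).mul hP
    let e : Fin (n + 1) ≃ Fin n ⊕ Unit := (finSuccEquiv n).trans (Equiv.optionEquivSumPUnit _)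
    have e0 : e.symm (Sum.inr ()) = 0 := by
      rw [Equiv.symm_apply_eq]
      simp [e]
    obtain ⟨u, hu⟩ := hc
    let G' : Matrix (Fin n ⊕ Unit) (Fin n ⊕ Unit) O := G.submatrix e.symm e.symm
    let A := G'.toBlocks₁₁
    let b : Fin n → O := fun i => G' (Sum.inl i) (Sum.inr ())
    let v : O := ((u⁻¹ : Oˣ) : O)
    have huv : (u : O) * v = 1 := u.mul_inv
    let S : Matrix (Fin n) (Fin n) O := A - Matrix.of fun i j => b i * v * b j
    let B : Matrix (Fin n) Unit O := Matrix.of fun i _ => b i
    let C : Matrix Unit (Fin n) O := Matrix.of fun _ j => b j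
    let D : Matrix Unit Unit O := Matrix.of fun _ _ => (u : O)
    have hG' : G' = Matrix.fromBlocks A B C D := by
      rw [← Matrix.fromBlocks_toBlocks G']
      have hsG' : G'.IsSymm := hs.submatrix _
      congr 1
      · ext i j
        show G' (Sum.inr ()) (Sum.inl j) = G' (Sum.inl j) (Sum.inr ())
        exact congrFun (congrFun hsG' (Sum.inl j)) (Sum.inr ())
      · ext i j
        show G (e.symm (Sum.inr ())) (e.symm (Sum.inr ())) = u
        rw [e0, hu]
    let L : Matrix (Fin n ⊕ Unit) (Fin n ⊕ Unit) O :=
      Matrix.fromBlocks 1 0 (Matrix.of fun _ j => -(v * b j)) 1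
    have hL : Lᵀ * G' * L = Matrix.fromBlocks S 0 0 D := by
      rw [hG']
      simp only [L, Matrix.fromBlocks_transpose, Matrix.fromBlocks_multiply, Matrix.transpose_one,
        Matrix.transpose_zero, Matrix.one_mul, Matrix.zero_mul, zero_add, Matrix.mul_one,
        Matrix.mul_zero]
      congr 1
      · ext i j
        simp [S, B, C, D, Matrix.mul_apply, Matrix.add_apply]
        linear_combination (b i * v * b j) * huv
      · ext i j
        simp [B, D, Matrix.mul_apply]
        linear_combination (-b i) * huv
      · ext i j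
        simp [C, D, Matrix.mul_apply]
        linear_combination (-b j) * huv
    have hdetL : L.det = 1 := by
      simp only [L]
      rw [Matrix.det_fromBlocks_zero₁₂]
      simp
    have hSs : S.IsSymm := by
      ext i j
      have hsG' : G'.IsSymm := hs.submatrix _
      have h1 : G' (Sum.inl j) (Sum.inl i) = G' (Sum.inl i) (Sum.inl j) :=
        congrFun (congrFun hsG' (Sum.inl i)) (Sum.inl j)
      show G' (Sum.inl j) (Sum.inl i) - b j * v * b i = G' (Sum.inl i) (Sum.inl j) - b i * v * b j
      rw [h1]
      ring
    have hSd : IsUnit S.det := by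
      have h1 : (Lᵀ * G' * L).det = S.det * u := by
        rw [hL, Matrix.det_fromBlocks_zero₁₂]
        congr 1
        simp [D]
      rw [Matrix.det_mul, Matrix.det_mul, Matrix.det_transpose, hdetL, one_mul, mul_one,
        Matrix.det_submatrix_equiv_self] at h1
      exact isUnit_of_mul_isUnit_left (h1 ▸ hG)
    obtain ⟨Q1, a1, hQ1, ha1, hQ⟩ := ih S hSs hSd
    let M : Matrix (Fin n ⊕ Unit) (Fin n ⊕ Unit) O := L * Matrix.fromBlocks Q1 0 0 1
    have hM : Mᵀ * G' * M = Matrix.diagonal (Sum.elim a1 fun _ => (u : O)) := by
      have : Mᵀ * G' * M = (Matrix.fromBlocks Q1 0 0 1)ᵀ * (Lᵀ * G' * L) *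
          Matrix.fromBlocks Q1 0 0 1 := by
        simp only [M, Matrix.transpose_mul, Matrix.mul_assoc]
      rw [this, hL]
      simp only [Matrix.fromBlocks_transpose, Matrix.fromBlocks_multiply, Matrix.transpose_one,
        Matrix.transpose_zero, Matrix.one_mul, Matrix.zero_mul, zero_add, Matrix.mul_one,
        Matrix.mul_zero, add_zero, hQ]
      rw [← Matrix.fromBlocks_diagonal]
      congr 1
    refine ⟨P * M.submatrix e e, fun i => (Sum.elim a1 fun _ => (u : O)) (e i), ?_, ?_, ?_⟩
    · rw [Matrix.det_mul, Matrix.det_submatrix_equiv_self]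
      refine hP.mul ?_
      simp only [M]
      rw [Matrix.det_mul, hdetL, one_mul, Matrix.det_fromBlocks_zero₁₂]
      simpa using hQ1
    · intro i
      show IsUnit ((Sum.elim a1 fun _ => (u : O)) (e i))
      rcases e i with j | j
      · exact ha1 j
      · exact u.isUnit
    · have h1 : (P * M.submatrix e e)ᵀ * G0 * (P * M.submatrix e e) =
          (M.submatrix e e)ᵀ * G * M.submatrix e e := by
        rw [hGdef, Matrix.transpose_mul]
        simp only [Matrix.mul_assoc]
      rw [h1]
      have h3 : G = G'.submatrix e e := by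
        simp [G', Matrix.submatrix_submatrix]
      rw [h3, Matrix.transpose_submatrix, Matrix.submatrix_mul_equiv, Matrix.submatrix_mul_equiv, hM]
      ext i j
      simp [Matrix.diagonal_apply]

end Hg0

theorem hHg0 : StHg0 := by
  intro O _ _ h2 n G hs hG
  exact Hg0.main h2 n G hs hG

end Pool.Agent.Helper54.HQ
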