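import Pool.Agent.Helper54.HQ.StI
import Pool.Agent.Helper54.HQ.Base

/-!
# HQ module Hg1: approximation, making `z` a unit at `P`
-/

set_option autoImplicit false

namespace Pool.Agent.Helper54.HQ

open Polynomial Finset Filter Topology Matrix IsDedekindDomain

/-- denominators -/
theorem denom_Hg1 {f : ℤ[X]} (x : LL f) : ∃ m : ℤ, m ≠ 0 ∧ InR ((m : LL f) * x) := by
  obtain ⟨p, rfl⟩ := AdjoinRoot.mk_surjective x
  obtain ⟨b, hb⟩ := IsLocalization.integerNormalization_map_to_map (nonZeroDivisors ℤ) p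
  refine ⟨(b : ℤ), nonZeroDivisors.ne_zero b.2,
    AdjoinRoot.mk f (IsLocalization.integerNormalization (nonZeroDivisors ℤ) p), ?_⟩
  rw [algebraMap_mk]
  have h1 : (IsLocalization.integerNormalization (nonZeroDivisors ℤ) p).map (Int.castRingHom ℚ) =
      (b : ℤ) • p := hb
  rw [h1, map_zsmul, zsmul_eq_mul]

section

variable {f : ℤ[X]} [Fact (Irreducible (fK f))] [IsDedekindDomain (RR f)]
  [IsFractionRing (RR f) (LL f)]

theorem val_le_Hg1 (v : HeightOneSpectrum (RR f)) {x : LL f} (hx : InR x) :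
    v.valuation (LL f) x ≤ 1 := by
  obtain ⟨r, rfl⟩ := hx
  exact v.valuation_le_one r

theorem inR_int_Hg1 (m : ℤ) : InR (f := f) (m : LL f) := ⟨(m : RR f), (algebraMap_intCast m).symm⟩

/-- integrality at `P` -/
theorem int_Hg1 (P : Prm) (x : LL f)
    (hx : ∀ v : HeightOneSpectrum (RR f), Over P v → v.valuation (LL f) x ≤ 1) :
    ∃ c : ℤ, ¬ pz P ∣ c ∧ InR ((c : LL f) * x) := by
  obtain ⟨m, hm0, hm⟩ := denom_Hg1 x
  obtain ⟨c, hc, hnd⟩ := (FiniteMultiplicity.of_not_isUnit (pz_prime P).not_unit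
    hm0).exists_eq_pow_mul_and_not_dvd
  refine ⟨c, hnd, ?_⟩
  have hall : ∀ v : HeightOneSpectrum (RR f), v.valuation (LL f) ((c : LL f) * x) ≤ 1 := by
    intro v
    by_cases hv : Over P v
    · rw [map_mul]
      exact mul_le_one' (val_le_Hg1 v (inR_int_Hg1 c)) (hx v hv)
    · have h1 := val_le_Hg1 v hm
      have h2 : v.valuation (LL f) ((pz P : ℤ) : LL f) = 1 := by
        have h3 := (v.valuation_eq_one_iff_notMem (K := LL f)
          (r := Int.castRingHom (RR f) (pz P))).2 hv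
        rw [algebraMap_castRingHom] at h3
        exact h3
      rw [hc, Int.cast_mul, Int.cast_pow, mul_assoc, map_mul, map_pow, h2, one_pow,
        one_mul] at h1
      exact h1
  obtain ⟨r, hr⟩ := HeightOneSpectrum.mem_integers_of_valuation_le_one (R := RR f) (LL f)
    ((c : LL f) * x) hall
  exact ⟨r, hr.symm⟩

theorem finite_Hg1 (P : Prm) (hP : Int.castRingHom (RR f) (pz P) ≠ 0) :
    {v : HeightOneSpectrum (RR f) | Over P v}.Finite := by
  refine (Ideal.finite_factors (R := RR f) (I := Ideal.span {Int.castRingHom (RR f) (pz P)})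
    ?_).subset ?_
  · rw [Ne, Ideal.zero_eq_bot, Ideal.span_singleton_eq_bot]
    exact hP
  · intro v hv
    exact Ideal.dvd_span_singleton.2 hv

open WithZero in
/-- half of an even valuation -/
theorem half_Hg1 (v : HeightOneSpectrum (RR f)) {x : RR f} (hx : x ≠ 0)
    (hev : EvenAt v (algebraMap (RR f) (LL f) x)) :
    ∃ (n : ℕ) (t : RR f), v.intValuation t = exp (-(n : ℤ)) ∧
      v.intValuation x = exp (-(n : ℤ)) * exp (-(n : ℤ)) := by
  obtain ⟨s, hs⟩ := hev
  rw [v.valuation_of_algebraMap] at hs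
  have hx0 : v.intValuation x ≠ 0 := v.intValuation_ne_zero x hx
  have hs0 : s ≠ 0 := by
    rintro rfl
    rw [mul_zero] at hs
    exact hx0 hs
  have hx1 : v.intValuation x ≤ 1 := v.intValuation_le_one x
  obtain ⟨k, hk⟩ : ∃ k : ℤ, s = exp k := ⟨log s, (exp_log hs0).symm⟩
  have hk0 : k ≤ 0 := by
    rw [hs, hk, ← exp_add, ← exp_zero, exp_le_exp] at hx1
    omega
  obtain ⟨n, hn⟩ : ∃ n : ℕ, k = -(n : ℤ) := ⟨k.natAbs, by omega⟩
  obtain ⟨π, hπ⟩ := v.intValuation_exists_uniformizer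
  refine ⟨n, π ^ n, ?_, ?_⟩
  · rw [map_pow, hπ, ← WithZero.exp_nsmul]
    congr 1
    simp
  · rw [hs, hk, hn]

open WithZero in
/-- an element with given valuations above `P` -/
theorem sqrt_Hg1 (P : Prm) (hP : Int.castRingHom (RR f) (pz P) ≠ 0) {x : RR f} (hx : x ≠ 0)
    (hev : ∀ v : HeightOneSpectrum (RR f), Over P v → EvenAt v (algebraMap (RR f) (LL f) x)) :
    ∃ t : RR f, t ≠ 0 ∧ ∀ v : HeightOneSpectrum (RR f), Over P v →
      v.intValuation x = v.intValuation t * v.intValuation t := by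
  classical
  have hfin := finite_Hg1 (f := f) P hP
  have hh : ∀ v : HeightOneSpectrum (RR f), ∃ (n : ℕ) (t : RR f), Over P v →
      v.intValuation t = exp (-(n : ℤ)) ∧
      v.intValuation x = exp (-(n : ℤ)) * exp (-(n : ℤ)) := by
    intro v
    by_cases hv : Over P v
    · obtain ⟨n, t, h1, h2⟩ := half_Hg1 v hx (hev v hv)
      exact ⟨n, t, fun _ => ⟨h1, h2⟩⟩
    · exact ⟨0, 0, fun h => absurd h hv⟩
  choose n t₀ ht₀ using hh
  obtain ⟨t, ht⟩ := IsDedekindDomain.exists_forall_sub_mem_ideal (R := RR f) (s := hfin.toFinset)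
    (fun v => v.asIdeal) (fun v => n v + 1) (fun v _ => v.prime)
    (fun v _ v' _ hne h => hne (HeightOneSpectrum.ext h)) (fun v => t₀ v)
  have hval : ∀ v : HeightOneSpectrum (RR f), Over P v → v.intValuation t = exp (-(n v : ℤ)) := by
    intro v hv
    have h1 : t - t₀ v ∈ v.asIdeal ^ (n v + 1) := ht v (hfin.mem_toFinset.2 hv)
    rw [← v.intValuation_le_pow_iff_mem] at h1
    have h2 : v.intValuation (t - t₀ v) < v.intValuation (t₀ v) := by
      rw [(ht₀ v hv).1]
      refine h1.trans_lt ?_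
      rw [exp_lt_exp]
      push_cast
      omega
    have h3 := Valuation.map_add_eq_of_lt_left _ h2
    rw [add_sub_cancel] at h3
    rw [h3, (ht₀ v hv).1]
  by_cases hne : ∃ v : HeightOneSpectrum (RR f), Over P v
  · refine ⟨t, ?_, fun v hv => ?_⟩
    · rintro rfl
      obtain ⟨v, hv⟩ := hne
      have h1 := hval v hv
      rw [map_zero] at h1
      exact exp_ne_zero h1.symm
    · rw [hval v hv, (ht₀ v hv).2]
  · exact ⟨1, one_ne_zero, fun v hv => absurd ⟨v, hv⟩ hne⟩

end

/-- **Hg1** (approximation). -/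
theorem hHg1 : StHg1 := by
  intro f hf _ _ _ P z hz hev
  have hchar : CharZero (LL f) :=
    charZero_of_injective_algebraMap (algebraMap ℚ (LL f)).injective
  have hinj : Function.Injective (algebraMap (RR f) (LL f)) := IsFractionRing.injective _ _
  have hP : Int.castRingHom (RR f) (pz P) ≠ 0 := by
    intro h
    have h1 := congrArg (algebraMap (RR f) (LL f)) h
    rw [algebraMap_castRingHom, map_zero, eq_intCast, Int.cast_eq_zero] at h1
    exact pz_ne_zero P h1
  obtain ⟨m, hm0, r, hr⟩ := denom_Hg1 z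
  have hm : (m : LL f) ≠ 0 := Int.cast_ne_zero.2 hm0
  have hax : algebraMap (RR f) (LL f) (r * (m : RR f)) = z * (m : LL f) ^ 2 := by
    rw [map_mul, ← hr, algebraMap_intCast]
    ring
  have hx0 : r * (m : RR f) ≠ 0 := by
    intro h
    rw [h, map_zero] at hax
    exact mul_ne_zero hz (pow_ne_zero 2 hm) hax.symm
  have hev' : ∀ v : HeightOneSpectrum (RR f), Over P v →
      EvenAt v (algebraMap (RR f) (LL f) (r * (m : RR f))) := by
    intro v hv
    obtain ⟨s, hs⟩ := hev v hv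
    refine ⟨s * v.valuation (LL f) (m : LL f), ?_⟩
    rw [hax, map_mul, map_pow, hs]
    rw [pow_two, mul_mul_mul_comm]
  obtain ⟨t, ht0, ht⟩ := sqrt_Hg1 P hP hx0 hev'
  have hat : algebraMap (RR f) (LL f) t ≠ 0 := fun h => ht0 (hinj (by rw [h, map_zero]))
  set at' : LL f := algebraMap (RR f) (LL f) t with hatdef
  have hv1 : ∀ v : HeightOneSpectrum (RR f), Over P v →
      v.valuation (LL f) (z * ((m : LL f) / at') ^ 2) = 1 := by
    intro v hv
    have h1 : z * ((m : LL f) / at') ^ 2 = algebraMap (RR f) (LL f) (r * (m : RR f)) / at' ^ 2 := by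
      rw [hax, div_pow, mul_div_assoc]
    rw [h1, map_div₀, map_pow, hatdef, v.valuation_of_algebraMap, v.valuation_of_algebraMap,
      ht v hv, pow_two]
    exact div_self (mul_ne_zero (v.intValuation_ne_zero t ht0) (v.intValuation_ne_zero t ht0))
  have hne : z * ((m : LL f) / at') ^ 2 ≠ 0 := mul_ne_zero hz (pow_ne_zero 2 (div_ne_zero hm hat))
  obtain ⟨c, hc, hc'⟩ := int_Hg1 P (z * ((m : LL f) / at') ^ 2) (fun v hv => (hv1 v hv).le)
  obtain ⟨d, hd, hd'⟩ := int_Hg1 P (z * ((m : LL f) / at') ^ 2)⁻¹ (fun v hv => by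
    rw [map_inv₀, hv1 v hv, inv_one])
  exact ⟨(m : LL f) / at', (z * ((m : LL f) / at') ^ 2)⁻¹, c, d, div_ne_zero hm hat,
    mul_inv_cancel₀ hne, hc, hd, hc', hd'⟩

end Pool.Agent.Helper54.HQ
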