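import Pool.Agent.Helper54.HQ.StI
import Pool.Agent.Helper54.HQ.Base
import Pool.Agent.Helper54.HQ.M_Q3
import Pool.Agent.Helper54.HL.M_NMB
import Pool.Agent.Helper54.HL.M_NR
import Mathlib.NumberTheory.Padics.RingHoms

/-!
# HQ module Hh: the primes of `T`
-/

set_option autoImplicit false

namespace Pool.Agent.Helper54.HQ

open Polynomial Finset Filter Topology Matrix IsDedekindDomain
open Pool.Agent.Helper3.HY (co tau Ix nu TType IType baseChange descentGroup IsPointValue IsTwPoint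
  twGroup co_mk)
open Pool.Agent.Helper54.HL (tk IrrInt IrrBig Nr Rep RepA RepB pr pr_mk IsTwIrr LinePt RootLift
  unit_of_rho_LC)
open Pool.Agent.Helper54.HL

/-- the residue map is unique -/
theorem rho_Hh {P : Prm} {i : ℤ →+* ℤ_[(P : ℕ)]} {ρ : ℤ_[(P : ℕ)] →+* kp P}
    (h : LD P i (algebraMap ℚ ℚ_[(P : ℕ)]) ρ) (x : ℤ_[(P : ℕ)]) : ρ x = PadicInt.toZMod x := by
  obtain ⟨a, ha⟩ := h.dense x 1
  rw [pow_one] at ha
  have h1 : ρ (x - i a) = 0 := (h.ker _).2 ha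
  have h2 : (PadicInt.toZMod : ℤ_[(P : ℕ)] →+* ZMod (P : ℕ)) (x - i a) = 0 := by
    rw [← RingHom.mem_ker, PadicInt.ker_toZMod, PadicInt.maximalIdeal_eq_span_p,
      Ideal.mem_span_singleton]
    rwa [eq_intCast i (pz P), Int.cast_natCast] at ha
  rw [map_sub, h.rho, sub_eq_zero] at h1
  rw [map_sub, sub_eq_zero, eq_intCast i a, map_intCast] at h2
  rw [h1, h2, eq_intCast]

theorem coe_zero_Hh {p : ℕ} [Fact p.Prime] {c : ℤ_[p]} (h : (c : ℚ_[p]) = 0) : c = 0 :=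
  Subtype.ext h

theorem lg_one_Hh {κ : Type} [CommRing κ] {x : κ} (h : IsSquare x) : lg x = 0 := by
  unfold lg
  rw [if_pos h]

theorem lg_mul_Hh {p : ℕ} [Fact p.Prime] (hp : p ≠ 2) {x y : ZMod p} (hx : x ≠ 0) (hy : y ≠ 0) :
    lg (x * y) = lg x + lg y := by
  classical
  unfold lg
  by_cases h1 : IsSquare x
  · have h2 : IsSquare (x * y) ↔ IsSquare y := by
      rw [mul_comm]
      exact H94.isSquare_mul_iff hx h1
    rw [if_pos h1, zero_add]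
    by_cases h3 : IsSquare y
    · rw [if_pos h3, if_pos (h2.2 h3)]
    · rw [if_neg h3, if_neg (fun h => h3 (h2.1 h))]
  · by_cases h3 : IsSquare y
    · rw [if_pos h3, add_zero, if_neg h1,
        if_neg (fun h => h1 ((H94.isSquare_mul_iff hy h3).1 h))]
    · have hc : ringChar (ZMod p) ≠ 2 := by rw [ZMod.ringChar_zmod_n]; exact hp
      have h4 : quadraticChar (ZMod p) x = -1 := (quadraticChar_neg_one_iff_not_isSquare).2 h1
      have h5 : quadraticChar (ZMod p) y = -1 := (quadraticChar_neg_one_iff_not_isSquare).2 h3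
      have h6 : IsSquare (x * y) := by
        rw [← quadraticChar_one_iff_isSquare (mul_ne_zero hx hy), map_mul, h4, h5]
        norm_num
      rw [if_neg h1, if_neg h3, if_pos h6]
      decide

theorem val_unit_Hh {p : ℕ} [Fact p.Prime] {c : ℤ_[p]} (hc : IsUnit c) :
    (c : ℚ_[p]).valuation = 0 := by
  have h1 : ‖(c : ℚ_[p])‖ = 1 := by
    have := PadicInt.isUnit_iff.1 hc
    rwa [PadicInt.norm_def] at this
  have h2 : (c : ℚ_[p]) ≠ 0 := by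
    intro h
    rw [h, norm_zero] at h1
    exact zero_ne_one h1
  rw [Padic.norm_eq_zpow_neg_valuation h2] at h1
  have hp : (1 : ℝ) < p := by exact_mod_cast (Fact.out : p.Prime).one_lt
  have h3 := (zpow_eq_one_iff_right₀ (by linarith) hp.ne').1 h1
  omega

/-- base change of the top coordinate -/
theorem tau_bc_Hh {k k' : Type} [Field k] [Field k'] (j : k →+* k') {h : k[X]} (hm : h.Monic)
    (x : AdjoinRoot h) : tau (hm.map j) (baseChange j h x) = j (tau hm x) := by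
  obtain ⟨p, rfl⟩ := AdjoinRoot.mk_surjective x
  rw [Q3.bc_mk]
  unfold tau
  rw [co_mk, co_mk, ← map_modByMonic _ hm, coeff_map, hm.natDegree_map]

/-- the bilinear form -/
noncomputable def bil_Hh {k : Type} [Field k] {h : k[X]} (hm : h.Monic) (z : AdjoinRoot h) :
    LinearMap.BilinForm k (AdjoinRoot h) :=
  LinearMap.mk₂ k (fun x y => tau hm (z * x * y))
    (by intro a b c; rw [mul_add, add_mul, map_add])
    (by intro c a b; rw [mul_smul_comm, smul_mul_assoc, map_smul])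
    (by intro a b c; rw [mul_add, map_add])
    (by intro c a b; rw [mul_smul_comm, map_smul])

theorem bil_apply_Hh {k : Type} [Field k] {h : k[X]} (hm : h.Monic) (z x y : AdjoinRoot h) :
    bil_Hh hm z x y = tau hm (z * x * y) := rfl

/-- the discriminant of an orthogonal basis of the base change -/
theorem disc_Hh (hCg : StCg) {g : ℕ} {f : ℤ[X]} (hm : f.Monic) (hN : f.natDegree = 2 * g + 1)
    (k : Type) [Field k] (j : ℚ →+* k) (z : LL f) (hz : IsSquare (Algebra.norm ℚ z))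
    (e : Module.Basis (Ix g) k (AdjoinRoot ((fK f).map j))) (a : Ix g → k)
    (he : IsOrth ((hm.map (Int.castRingHom ℚ)).map j) (baseChange j (fK f) z) e a) :
    ∃ c : k, c ≠ 0 ∧ ∏ i, a i = (-1) ^ g * c ^ 2 := by
  obtain ⟨b, hb, hbd⟩ := hCg g f hm hN z
  obtain ⟨r, hr⟩ := hz
  have hmh : ((fK f).map j).Monic := (hm.map (Int.castRingHom ℚ)).map j
  have hdim : (AdjoinRoot.powerBasis' hmh).dim = 2 * g + 1 := by
    rw [AdjoinRoot.powerBasis'_dim, (hm.map (Int.castRingHom ℚ)).natDegree_map, hm.natDegree_map,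
      hN]
  obtain ⟨pb, hpb⟩ : ∃ pb : Module.Basis (Ix g) k (AdjoinRoot ((fK f).map j)),
      ∀ i, pb i = AdjoinRoot.root ((fK f).map j) ^ (i : ℕ) := by
    refine ⟨(AdjoinRoot.powerBasis' hmh).basis.reindex (finCongr hdim), fun i => ?_⟩
    rw [Module.Basis.reindex_apply, PowerBasis.coe_basis, AdjoinRoot.powerBasis'_gen]
    rfl
  have h1 := LinearMap.BilinForm.toMatrix_mul_basis_toMatrix pb e
    (bil_Hh hmh (baseChange j (fK f) z))
  have h2 : LinearMap.BilinForm.toMatrix e (bil_Hh hmh (baseChange j (fK f) z)) =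
      Matrix.diagonal a := by
    ext i i'
    rw [LinearMap.BilinForm.toMatrix_apply, bil_apply_Hh]
    by_cases hii : i = i'
    · subst hii
      rw [Matrix.diagonal_apply_eq, he.norm]
    · rw [Matrix.diagonal_apply_ne _ hii, he.orth i i' hii]
  have h3 : LinearMap.BilinForm.toMatrix pb (bil_Hh hmh (baseChange j (fK f) z)) =
      (Matrix.of fun i i' => Bf hm z (b i) (b i')).map j := by
    ext i i'
    rw [LinearMap.BilinForm.toMatrix_apply, bil_apply_Hh, Matrix.map_apply, Matrix.of_apply,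
      Bf_apply, ← tau_bc_Hh j, map_mul (baseChange j (fK f)), map_mul (baseChange j (fK f)), hb, hb,
      hpb, hpb, map_pow (baseChange j (fK f)), map_pow (baseChange j (fK f))]
    have h4 : baseChange j (fK f) (th f) = AdjoinRoot.root ((fK f).map j) := by
      have := Q3.bc_mk j (fK f) Polynomial.X
      rw [Polynomial.map_X, AdjoinRoot.mk_X, AdjoinRoot.mk_X] at this
      exact this
    rw [h4]
  have h4 : ((Matrix.of fun i i' => Bf hm z (b i) (b i')).map j).det =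
      j ((Matrix.of fun i i' => Bf hm z (b i) (b i')).det) := (j.map_det _).symm
  have h5 := congrArg Matrix.det h1
  rw [h2, h3, Matrix.det_mul, Matrix.det_mul, Matrix.det_transpose, h4, hbd, hr,
    Matrix.det_diagonal] at h5
  refine ⟨(pb.toMatrix e).det * j r, ?_, ?_⟩
  · intro h0
    have h6 : ∏ i, a i = 0 := by
      rw [← h5]
      simp only [map_mul, map_pow, map_neg, map_one]
      linear_combination ((-1) ^ g * ((pb.toMatrix e).det * j r)) * h0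
    exact Finset.prod_ne_zero_iff.2 (fun i _ => he.ne i) h6
  · rw [← h5]
    simp only [map_mul, map_pow, map_neg, map_one]
    ring

theorem hHh (h1 : StLD) (h2 : HL.StFA) (h3 : StCM) (h4 : HL.StNM) (h5 : HL.StRB) (h6 : HL.StFS)
    (h7 : HL.StRA) (h8 : StQP) (h9 : StHh1) (h10 : StHh2) (h11 : StHh3) (h12 : StCg)
    (h13 : StHc0) : StHh := by
  intro g hg f hm hN _ _ _ P hP2 hT q hq
  obtain ⟨aP, p, hpm, hpirr, hpdeg, hfp⟩ := hT
  obtain ⟨i, ρ, hLD, hRL, -⟩ := h1 P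
  have hpa : p.eval aP ≠ 0 := by
    intro h0
    have h11 : p.natDegree = 1 := natDegree_eq_of_degree_eq_some
      (degree_eq_one_of_irreducible_of_root hpirr (x := aP) h0)
    rw [hpdeg] at h11
    omega
  obtain ⟨θ, g₂, hg₂, hθ, hf₀, hg₂ρ⟩ := h2 ℤ_[(P : ℕ)] (kp P) ρ hLD.surj hRL (f.map i) aP p
    (hm.map i) hpm hpa (by rw [hLD.map_red, hfp])
  subst hg₂ρ
  have hirr : Irreducible (g₂.map ρ) := hpirr
  obtain ⟨k, hk⟩ : ∃ k : Type, k = ℚ_[(P : ℕ)] := ⟨_, rfl⟩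
  have hπ : Irreducible (i (pz P)) := hLD.unif
  have hsurj := hLD.surj
  have hker := hLD.ker
  have hfin : Finite (kp P) := inferInstance
  have h2κ : (2 : kp P) ≠ 0 := two_ne_zero_kp hP2
  set π := i (pz P) with hπdef
  set j := algebraMap ℚ ℚ_[(P : ℕ)] with hj
  set θ₀ : ℚ_[(P : ℕ)] := algebraMap ℤ_[(P : ℕ)] ℚ_[(P : ℕ)] θ with hθ₀
  set G : ℚ_[(P : ℕ)][X] := tk ℚ_[(P : ℕ)] g₂ with hG
  have hGm : G.Monic := hg₂.map _
  have hdeg₂ : g₂.natDegree = 2 * g := by rw [← hg₂.natDegree_map ρ, hpdeg]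
  have hGdeg : G.natDegree = 2 * g := by rw [hG, tk, hg₂.natDegree_map, hdeg₂]
  have hgθ : IsUnit (g₂.eval θ) := by
    apply unit_of_rho_LC hπ hker
    have h20 : (g₂.map ρ).eval (ρ θ) ≠ 0 := by rw [hθ]; exact hpa
    rwa [eval_map, eval₂_hom] at h20
  have hGeval : G.eval θ₀ = ((g₂.eval θ : ℤ_[(P : ℕ)]) : ℚ_[(P : ℕ)]) := by
    rw [hG, tk, eval_map, hθ₀, eval₂_hom]
    rfl
  have hG0 : G.eval θ₀ ≠ 0 := by
    rw [hGeval]
    intro h0
    have h20 : (g₂.eval θ : ℤ_[(P : ℕ)]) = 0 := coe_zero_Hh h0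
    rw [h20] at hgθ
    exact not_isUnit_zero hgθ
  have hh : (fK f).map j = (X - C θ₀) * G := by
    rw [hLD.map, hf₀, tk, Polynomial.map_mul, Polynomial.map_sub, map_X, map_C]
  have hd1 : X - C θ₀ ∣ (fK f).map j := by rw [hh]; exact dvd_mul_right _ _
  have hd2 : G ∣ (fK f).map j := by rw [hh]; exact dvd_mul_left _ _
  have hhm : ((fK f).map j).Monic := (hm.map (Int.castRingHom ℚ)).map j
  have hA2 := h7 ℤ_[(P : ℕ)] ℚ_[(P : ℕ)] (kp P) π ρ hπ hsurj hker g₂ hg₂ hirr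
  have hB2 := h5 ℤ_[(P : ℕ)] ℚ_[(P : ℕ)] (kp P) π ρ hπ hsurj hker g₂ hg₂ hirr
  have : Fact (Irreducible (tk ℚ_[(P : ℕ)] g₂)) := ⟨hA2.irr⟩
  have : Fact (Irreducible G) := ⟨hA2.irr⟩
  have : Fact (Irreducible (g₂.map ρ)) := ⟨hirr⟩
  have : Fact (Irreducible (X - C θ₀)) := ⟨irreducible_X_sub_C _⟩
  obtain ⟨c01, c02, c03⟩ := h13 (P : ℕ)
  have hredsurj : Function.Surjective (red P) := red_surj P
  obtain ⟨H0, hH0⟩ := Polynomial.map_surjective (red P) hredsurj (g₂.map ρ)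
  have hH0q : AdjoinRoot.mk f H0 ∈ q.asIdeal :=
    h8 g hg f hm P aP (g₂.map ρ) hfp hpm hirr hpdeg q hq H0 hH0
  have hur : ∀ c : ℤ_[(P : ℕ)], IsUnit c → ur (P : ℕ) (c : ℚ_[(P : ℕ)]) = c := by
    intro c hc
    have hc0 : (c : ℚ_[(P : ℕ)]) ≠ 0 := by
      intro h0
      have h20 : c = 0 := coe_zero_Hh h0
      rw [h20] at hc
      exact not_isUnit_zero hc
    have h20 := c03 _ hc0 (val_unit_Hh hc)
    exact Subtype.ext h20
  refine ⟨lg (PadicInt.toZMod (g₂.eval θ)), ?_⟩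
  intro z hz hzN hom
  let ev1 : LL f →+* AdjoinRoot (X - C θ₀) := (pr hd1).comp (baseChange j (fK f))
  let ev2 : LL f →+* AdjoinRoot (tk ℚ_[(P : ℕ)] g₂) := (pr hd2).comp (baseChange j (fK f))
  have hev1 : ∀ x : LL f, ev1 x = pr hd1 (baseChange j (fK f) x) := fun x => rfl
  have hev2 : ∀ x : LL f, ev2 x = pr hd2 (baseChange j (fK f) x) := fun x => rfl
  obtain ⟨e2, s2, hs2⟩ := hA2.ex (ev2 z) ((map_ne_zero ev2).2 hz)
  obtain ⟨c2, hc2, hc2'⟩ := hB2.norm _ _ _ hs2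
  -- the value at the root
  obtain ⟨z₁, hz₁⟩ : ∃ z₁ : ℚ_[(P : ℕ)], pr hd1 (baseChange j (fK f) z) =
      algebraMap ℚ_[(P : ℕ)] _ z₁ := by
    obtain ⟨pz', hpz⟩ := AdjoinRoot.mk_surjective (baseChange j (fK f) z)
    refine ⟨pz'.eval θ₀, ?_⟩
    rw [← hpz, pr_mk, AdjoinRoot.algebraMap_eq, ← AdjoinRoot.mk_C, AdjoinRoot.mk_eq_mk]
    exact X_sub_C_dvd_sub_C_eval
  have hz₁0 : z₁ ≠ 0 := by
    rintro rfl
    rw [map_zero] at hz₁
    exact (map_ne_zero ev1).2 hz hz₁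
  -- the parity of the valuation
  obtain ⟨hval, hep⟩ := h3 f hm P ℤ_[(P : ℕ)] ℚ_[(P : ℕ)] i j ρ hP2 hLD g₂ hg₂ hirr
    (by rw [hf₀]; exact dvd_mul_left _ _) hd2 H0 hH0 q hq.1 hH0q z e2 s2 hs2
  have he2 : ¬ Even e2 := by
    intro h20
    have h21 : EvenAt q z := by
      change IsSquare _
      rw [hval]
      exact Q3.isSquare_exp h20.neg
    rw [om, if_pos h21] at hom
    exact zero_ne_one hom
  -- norms
  have hfin2 : FiniteDimensional (kp P) (AdjoinRoot (g₂.map ρ)) := hpm.finite_adjoinRoot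
  have hc20 : ρ c2 ≠ 0 := by rw [hc2]; exact Algebra.norm_ne_zero_iff.2 hs2.1
  have hc2u : IsUnit c2 := unit_of_rho_LC hπ hker hc20
  have hNZ : IsSquare (z₁ * (algebraMap ℤ_[(P : ℕ)] ℚ_[(P : ℕ)] π ^ (e2 * (2 * g : ℕ)) *
      algebraMap ℤ_[(P : ℕ)] ℚ_[(P : ℕ)] c2)) := by
    obtain ⟨pz', hpz⟩ := AdjoinRoot.mk_surjective z
    have h20 : IsSquare (Algebra.norm ℚ_[(P : ℕ)] (baseChange j (fK f) z)) := by
      have hNB := (hNMB hNR).2.1
      rw [← hpz, Q3.bc_mk, ← hNB ℚ ℚ_[(P : ℕ)] j (fK f) pz' (hm.map _), hpz]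
      exact hzN.map j
    have h21 : ∀ h' : ℚ_[(P : ℕ)][X], h' = (X - C θ₀) * G → ∀ (d1 : X - C θ₀ ∣ h')
        (d2 : G ∣ h') (x : AdjoinRoot h'), Algebra.norm ℚ_[(P : ℕ)] x =
          Algebra.norm ℚ_[(P : ℕ)] (pr d1 x) * Algebra.norm ℚ_[(P : ℕ)] (pr d2 x) := by
      rintro _ rfl d1 d2 x
      obtain ⟨px, rfl⟩ := AdjoinRoot.mk_surjective x
      rw [h4 ℚ_[(P : ℕ)] _ _ px (monic_X_sub_C _) hGm, pr_mk, pr_mk]
    rw [h21 _ hh hd1 hd2, hz₁, Algebra.norm_algebraMap] at h20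
    have h22 : Module.finrank ℚ_[(P : ℕ)] (AdjoinRoot (X - C θ₀)) = 1 := by
      rw [(AdjoinRoot.powerBasis' (monic_X_sub_C θ₀)).finrank, AdjoinRoot.powerBasis'_dim,
        natDegree_X_sub_C]
    rw [h22, pow_one] at h20
    have h23 : Algebra.norm ℚ_[(P : ℕ)] (pr hd2 (baseChange j (fK f) z)) =
        algebraMap ℤ_[(P : ℕ)] ℚ_[(P : ℕ)] π ^ (e2 * (2 * g : ℕ)) *
          algebraMap ℤ_[(P : ℕ)] ℚ_[(P : ℕ)] c2 := by
      rw [← hdeg₂]
      exact hc2'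
    rwa [h23] at h20
  have hπ0 : algebraMap ℤ_[(P : ℕ)] ℚ_[(P : ℕ)] π ≠ 0 := H94.am_ne hπ
  have hc2k : ((c2 : ℤ_[(P : ℕ)]) : ℚ_[(P : ℕ)]) ≠ 0 := by
    intro h0
    have h20 : c2 = 0 := coe_zero_Hh h0
    rw [h20] at hc2u
    exact not_isUnit_zero hc2u
  have hzc : ∃ y : ℚ_[(P : ℕ)], z₁ * (c2 : ℚ_[(P : ℕ)]) = y * y := by
    obtain ⟨y, hy⟩ := hNZ
    refine ⟨y * (algebraMap ℤ_[(P : ℕ)] ℚ_[(P : ℕ)] π ^ (e2 * g))⁻¹, ?_⟩
    have h20 : algebraMap ℤ_[(P : ℕ)] ℚ_[(P : ℕ)] π ^ (e2 * (2 * g : ℕ)) =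
        algebraMap ℤ_[(P : ℕ)] ℚ_[(P : ℕ)] π ^ (e2 * g) *
          algebraMap ℤ_[(P : ℕ)] ℚ_[(P : ℕ)] π ^ (e2 * g) := by
      rw [← zpow_add₀ hπ0]
      congr 1
      push_cast
      ring
    rw [h20] at hy
    have h21 : algebraMap ℤ_[(P : ℕ)] ℚ_[(P : ℕ)] π ^ (e2 * g) ≠ 0 := zpow_ne_zero _ hπ0
    have h22 : (c2 : ℚ_[(P : ℕ)]) = algebraMap ℤ_[(P : ℕ)] ℚ_[(P : ℕ)] c2 := rfl
    rw [h22]
    field_simp
    linear_combination hy
  obtain ⟨y, hy⟩ := hzc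
  have hy0 : y ≠ 0 := by
    rintro rfl
    rw [mul_zero] at hy
    rcases mul_eq_zero.1 hy with h20 | h20
    · exact hz₁0 h20
    · exact hc2k h20
  obtain ⟨u1, v1⟩ := c02 z₁ (c2 : ℚ_[(P : ℕ)]) hz₁0 hc2k
  obtain ⟨u2, v2'⟩ := c02 y y hy0 hy0
  rw [hy] at u1 v1
  rw [hur c2 hc2u] at u1
  have hv2c : ∀ c : ℤ_[(P : ℕ)], IsUnit c → v2 (P : ℕ) (c : ℚ_[(P : ℕ)]) = 0 := by
    intro c hc
    rw [v2, val_unit_Hh hc]
    rfl
  have hv2z : v2 (P : ℕ) z₁ = 0 := by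
    rw [v2', hv2c c2 hc2u, add_zero, CharTwo.add_self_eq_zero] at v1
    exact v1.symm
  have hz1u : IsUnit (ur (P : ℕ) z₁) := (c01 z₁ hz₁0).1
  have hz1n : (PadicInt.toZMod (ur (P : ℕ) z₁) : ZMod (P : ℕ)) ≠ 0 :=
    (hz1u.map (PadicInt.toZMod : ℤ_[(P : ℕ)] →+* ZMod (P : ℕ))).ne_zero
  have hc2n : (PadicInt.toZMod c2 : ZMod (P : ℕ)) ≠ 0 :=
    (hc2u.map (PadicInt.toZMod : ℤ_[(P : ℕ)] →+* ZMod (P : ℕ))).ne_zero
  have hgn : (PadicInt.toZMod (g₂.eval θ) : ZMod (P : ℕ)) ≠ 0 :=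
    (hgθ.map (PadicInt.toZMod : ℤ_[(P : ℕ)] →+* ZMod (P : ℕ))).ne_zero
  have hlg : lg (PadicInt.toZMod (ur (P : ℕ) z₁)) = lg (PadicInt.toZMod c2) := by
    have h20 := congrArg (PadicInt.toZMod : ℤ_[(P : ℕ)] →+* ZMod (P : ℕ)) (u1.symm.trans u2)
    rw [map_mul, map_mul] at h20
    have h21 : lg ((PadicInt.toZMod (ur (P : ℕ) z₁) : ZMod (P : ℕ)) * PadicInt.toZMod c2) = 0 :=
      lg_one_Hh ⟨_, h20⟩
    rw [lg_mul_Hh hP2 hz1n hc2n] at h21
    exact CharTwo.add_eq_zero.1 h21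
  have hepz : lg (PadicInt.toZMod c2 : ZMod (P : ℕ)) = ep P q z := by
    have h20 : IsSquare (PadicInt.toZMod c2 : ZMod (P : ℕ)) ↔ IsSquare s2 := by
      rw [← rho_Hh hLD, hc2]
      exact (h6 (kp P) h2κ _ hpm hirr).1 s2
    rw [← h20] at hep
    by_cases h21 : IsSquare (PadicInt.toZMod c2 : ZMod (P : ℕ))
    · rw [hep.2 h21]
      exact lg_one_Hh h21
    · have h22 : ep P q z ≠ 0 := fun h => h21 (hep.1 h)
      have h23 : ∀ t : ZMod 2, t ≠ 0 → t = 1 := by decide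
      rw [h23 _ h22]
      unfold lg
      rw [if_neg h21]
  -- the orthogonal basis of the unramified factor
  have hlin := hA2.int (X - C θ) (by
    rw [Ne, AdjoinRoot.mk_eq_zero]
    intro h12'
    have h13' := natDegree_le_of_dvd h12' (by
      rw [Polynomial.map_sub, map_X, map_C]; exact X_sub_C_ne_zero _)
    rw [hpdeg, Polynomial.map_sub, map_X, map_C, natDegree_X_sub_C] at h13'
    omega)
  have hw := hA2.mul _ _ _ _ _ _ hs2 hlin
  rw [add_zero] at hw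
  have hw' : AdjoinRoot.mk (tk ℚ_[(P : ℕ)] g₂) (tk ℚ_[(P : ℕ)] (X - C θ)) =
      AdjoinRoot.root G - algebraMap ℚ_[(P : ℕ)] _ θ₀ := by
    have h20 : tk ℚ_[(P : ℕ)] (X - C θ) = X - C θ₀ := by
      rw [tk, Polynomial.map_sub, map_X, map_C]
    rw [h20, map_sub, AdjoinRoot.mk_X, AdjoinRoot.mk_C]
    rfl
  rw [hw'] at hw
  obtain ⟨b₂, u, huu, hb₂⟩ := h10 ℤ_[(P : ℕ)] ℚ_[(P : ℕ)] (kp P) π ρ hπ hsurj hker h2κ g₂ hGm hg₂
    hirr _ _ _ hw (2 * g) hdeg₂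
  obtain ⟨e, he⟩ := h9 ℚ_[(P : ℕ)] g hg θ₀ G hGm hGdeg hG0 ((fK f).map j) hhm hd1 hd2 hh
    (baseChange j (fK f) z) z₁ hz₁ hz₁0 b₂ _ hb₂
  refine ⟨e, _, he, ?_⟩
  have hπk : algebraMap ℤ_[(P : ℕ)] ℚ_[(P : ℕ)] π = ((P : ℕ) : ℚ_[(P : ℕ)]) := by
    rw [hπdef, hLD.comp, eq_intCast, Int.cast_natCast, map_natCast]
  obtain ⟨c, hc0, hc⟩ := disc_Hh h12 hm hN ℚ_[(P : ℕ)] j z hzN e _ he
  have hi₀ : 2 * g < 2 * g + 1 := by omega
  rw [h11 (P : ℕ) hP2 g hg _ he.ne ?_ ?_ ⟨c, hc0, hc⟩ ⟨2 * g, hi₀⟩ rfl]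
  · have h20 : ¬ ((⟨2 * g, hi₀⟩ : Ix g) : ℕ) < 2 * g := by simp
    rw [dif_neg h20, (c02 z₁ _ hz₁0 hG0).1, hGeval, hur _ hgθ, map_mul,
      lg_mul_Hh hP2 hz1n hgn, hlg, hepz]
  · intro i' hi'
    have hui : ((u ⟨i', hi'⟩ : ℤ_[(P : ℕ)]) : ℚ_[(P : ℕ)]) ≠ 0 := by
      intro h0
      have h20 : u ⟨i', hi'⟩ = 0 := coe_zero_Hh h0
      have h21 := huu ⟨i', hi'⟩
      rw [h20] at h21
      exact not_isUnit_zero h21
    have hPk : ((P : ℕ) : ℚ_[(P : ℕ)]) ≠ 0 := by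
      rw [← hπk]
      exact hπ0
    rw [dif_pos hi', hπk]
    change v2 (P : ℕ) (((P : ℕ) : ℚ_[(P : ℕ)]) ^ e2 * ((u ⟨i', hi'⟩ : ℤ_[(P : ℕ)]) : ℚ_[(P : ℕ)])) = 1
    rw [(c02 _ _ (zpow_ne_zero _ hPk) hui).2, hv2c _ (huu _), add_zero, v2, Padic.valuation_zpow,
      Padic.valuation_p, mul_one]
    have h22 : Odd e2 := Int.not_even_iff_odd.1 he2
    obtain ⟨m, rfl⟩ := h22
    push_cast
    have h23 : (2 : ZMod 2) = 0 := rfl
    rw [h23, zero_mul, zero_add]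
  · intro i' hi'
    have h20 : ¬ (i' : ℕ) < 2 * g := by omega
    rw [dif_neg h20, (c02 z₁ _ hz₁0 hG0).2, hv2z, hGeval, hv2c _ hgθ, add_zero]

end Pool.Agent.Helper54.HQ
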