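import Pool.Agent.Helper54.HQ.StI
import Pool.Agent.Helper54.HQ.Base

/-!
# HQ module Hh1 (splitting off a simple root)
-/

set_option autoImplicit false

namespace Pool.Agent.Helper54.HQ

open Polynomial Finset Filter Topology Matrix IsDedekindDomain
open Pool.Agent.Helper3.HY (co tau Ix nu TType IType baseChange descentGroup IsPointValue IsTwPoint
  twGroup co_mk)
open Pool.Agent.Helper54.HL (tk IrrInt IrrBig Nr Rep RepA RepB pr pr_mk IsTwIrr LinePt RootLift)

section

variable {k : Type} [Field k]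

private theorem tauA_Hh1 {g : ℕ} (hg : 1 ≤ g) {θ₀ : k} {g₂ h : k[X]} (hg₂ : g₂.Monic)
    (hdeg : g₂.natDegree = 2 * g) (hh : h.Monic) (he : h = (X - C θ₀) * g₂) (W : k[X]) :
    tau hh (AdjoinRoot.mk h ((X - C θ₀) * W)) = tau hg₂ (AdjoinRoot.mk g₂ W) := by
  have hdh : h.natDegree = 2 * g + 1 := by
    rw [he, (monic_X_sub_C θ₀).natDegree_mul hg₂, natDegree_X_sub_C, hdeg, add_comm]
  have hR : (W %ₘ g₂).degree < g₂.degree := degree_modByMonic_lt W hg₂
  have hmod : ((X - C θ₀) * W) %ₘ h = (X - C θ₀) * (W %ₘ g₂) := by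
    refine (div_modByMonic_unique (W /ₘ g₂) ((X - C θ₀) * (W %ₘ g₂)) hh ⟨?_, ?_⟩).2
    · have h1 := modByMonic_add_div W g₂
      calc (X - C θ₀) * (W %ₘ g₂) + h * (W /ₘ g₂)
          = (X - C θ₀) * (W %ₘ g₂ + g₂ * (W /ₘ g₂)) := by rw [he]; ring
        _ = (X - C θ₀) * W := by rw [h1]
    · rw [degree_mul, he, degree_mul]
      have h2 : (X - C θ₀).degree = 1 := degree_X_sub_C θ₀
      rw [h2]
      exact (WithBot.add_lt_add_iff_left (by decide)).2 hR
  have h0 : (W %ₘ g₂).coeff (2 * g) = 0 := by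
    apply coeff_eq_zero_of_degree_lt
    rw [degree_eq_natDegree hg₂.ne_zero, hdeg] at hR
    exact hR
  obtain ⟨m, hm⟩ : ∃ m, 2 * g = m + 1 := ⟨2 * g - 1, by omega⟩
  rw [tau, tau, co_mk, co_mk, hmod, hdh, hdeg, Nat.add_sub_cancel, sub_mul, coeff_sub, coeff_C_mul,
    h0, mul_zero, sub_zero, hm, coeff_X_mul, Nat.add_sub_cancel]

private theorem tauB_Hh1 {g : ℕ} {θ₀ : k} {g₂ h : k[X]} (hg₂ : g₂.Monic)
    (hdeg : g₂.natDegree = 2 * g) (hh : h.Monic) (he : h = (X - C θ₀) * g₂) (c : k) :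
    tau hh (AdjoinRoot.mk h (C c * g₂)) = c := by
  have hdh : h.natDegree = 2 * g + 1 := by
    rw [he, (monic_X_sub_C θ₀).natDegree_mul hg₂, natDegree_X_sub_C, hdeg, add_comm]
  have hmod : (C c * g₂) %ₘ h = C c * g₂ := by
    rw [modByMonic_eq_self_iff hh]
    by_cases hc : c = 0
    · rw [hc, C_0, zero_mul, degree_zero]
      exact Ne.bot_lt (fun h0 => hh.ne_zero (degree_eq_bot.1 h0))
    · rw [degree_C_mul hc, degree_eq_natDegree hg₂.ne_zero, degree_eq_natDegree hh.ne_zero, hdeg, hdh]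
      exact_mod_cast Nat.lt_succ_self _
  rw [tau, co_mk, hmod, hdh, Nat.add_sub_cancel, coeff_C_mul, ← hdeg, hg₂.coeff_natDegree, mul_one]

end

theorem hHh1 : StHh1 := by
  intro k _ g hg θ₀ g₂ hg₂ hdeg hev h hh hd₁ hd₂ he z z₁ hz hz₁ e₂ a₂ horth
  classical
  have hdh : h.natDegree = 2 * g + 1 := by
    rw [he, (monic_X_sub_C θ₀).natDegree_mul hg₂, natDegree_X_sub_C, hdeg, add_comm]
  obtain ⟨Z, rfl⟩ := AdjoinRoot.mk_surjective z
  have hF : ∀ i, ∃ F : k[X], AdjoinRoot.mk g₂ F = e₂ i := fun i => AdjoinRoot.mk_surjective (e₂ i)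
  choose F hF using hF
  rw [pr_mk] at hz
  have hz' : X - C θ₀ ∣ Z - C z₁ := by
    rw [← AdjoinRoot.mk_eq_mk, hz]
    rfl
  set c : k := z₁ * g₂.eval θ₀ with hc
  have hc0 : c ≠ 0 := mul_ne_zero hz₁ hev
  -- the three computations
  have hLL : ∀ i j, tau hh (AdjoinRoot.mk h Z * AdjoinRoot.mk h ((X - C θ₀) * F i) *
      AdjoinRoot.mk h ((X - C θ₀) * F j)) =
      tau hg₂ (pr hd₂ (AdjoinRoot.mk h Z) * (AdjoinRoot.root g₂ - algebraMap k _ θ₀) * e₂ i *
        e₂ j) := by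
    intro i j
    have h1 : AdjoinRoot.mk h Z * AdjoinRoot.mk h ((X - C θ₀) * F i) *
        AdjoinRoot.mk h ((X - C θ₀) * F j) =
        AdjoinRoot.mk h ((X - C θ₀) * (Z * (X - C θ₀) * F i * F j)) := by
      rw [← map_mul, ← map_mul]
      congr 1
      ring
    rw [h1, tauA_Hh1 hg hg₂ hdeg hh he, map_mul (AdjoinRoot.mk g₂), map_mul (AdjoinRoot.mk g₂),
      map_mul (AdjoinRoot.mk g₂), hF, hF, pr_mk, map_sub (AdjoinRoot.mk g₂),
      AdjoinRoot.mk_X, AdjoinRoot.mk_C, AdjoinRoot.algebraMap_eq]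
  have hLe : ∀ i, AdjoinRoot.mk h Z * AdjoinRoot.mk h ((X - C θ₀) * F i) *
      AdjoinRoot.mk h g₂ = 0 := by
    intro i
    rw [← map_mul, ← map_mul, AdjoinRoot.mk_eq_zero]
    exact ⟨Z * F i, by rw [he]; ring⟩
  have heL : ∀ i, AdjoinRoot.mk h Z * AdjoinRoot.mk h g₂ *
      AdjoinRoot.mk h ((X - C θ₀) * F i) = 0 := by
    intro i
    rw [← map_mul, ← map_mul, AdjoinRoot.mk_eq_zero]
    exact ⟨Z * F i, by rw [he]; ring⟩
  have hee : tau hh (AdjoinRoot.mk h Z * AdjoinRoot.mk h g₂ * AdjoinRoot.mk h g₂) = c := by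
    have h1 : AdjoinRoot.mk h Z * AdjoinRoot.mk h g₂ * AdjoinRoot.mk h g₂ =
        AdjoinRoot.mk h (C c * g₂) := by
      rw [← map_mul, ← map_mul, AdjoinRoot.mk_eq_mk]
      have h2 : X - C θ₀ ∣ Z * g₂ - C c := by
        have h3 : Z * g₂ - C c = (Z - C z₁) * g₂ + C z₁ * (g₂ - C (g₂.eval θ₀)) := by
          rw [hc, C_mul]
          ring
        rw [h3]
        exact dvd_add (hz'.mul_right _) ((X_sub_C_dvd_sub_C_eval).mul_left _)
      obtain ⟨w, hw⟩ := h2
      exact ⟨w, by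
        calc Z * g₂ * g₂ - C c * g₂ = (Z * g₂ - C c) * g₂ := by ring
          _ = h * w := by rw [hw, he]; ring⟩
    rw [h1, tauB_Hh1 hg₂ hdeg hh he]
  set v : Ix g → AdjoinRoot h := fun i =>
    if hi : (i : ℕ) < 2 * g then AdjoinRoot.mk h ((X - C θ₀) * F ⟨i, hi⟩) else AdjoinRoot.mk h g₂
    with hv
  set a : Ix g → k := fun i => if hi : (i : ℕ) < 2 * g then a₂ ⟨i, hi⟩ else c with ha
  have hvo : ∀ i j, i ≠ j → tau hh (AdjoinRoot.mk h Z * v i * v j) = 0 := by
    intro i j hij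
    by_cases hi : (i : ℕ) < 2 * g
    · by_cases hj : (j : ℕ) < 2 * g
      · simp only [hv, dif_pos hi, dif_pos hj]
        rw [hLL]
        refine horth.orth _ _ fun h1 => hij ?_
        ext
        simpa using h1
      · simp only [hv, dif_pos hi, dif_neg hj]
        rw [hLe, map_zero]
    · by_cases hj : (j : ℕ) < 2 * g
      · simp only [hv, dif_neg hi, dif_pos hj]
        rw [heL, map_zero]
      · exfalso
        apply hij
        ext
        omega
  have hvn : ∀ i, tau hh (AdjoinRoot.mk h Z * v i * v i) = a i := by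
    intro i
    by_cases hi : (i : ℕ) < 2 * g
    · simp only [hv, ha, dif_pos hi]
      rw [hLL]
      exact horth.norm _
    · simp only [hv, ha, dif_neg hi]
      exact hee
  have ha0 : ∀ i, a i ≠ 0 := by
    intro i
    by_cases hi : (i : ℕ) < 2 * g
    · simp only [ha, dif_pos hi]
      exact horth.ne _
    · simp only [ha, dif_neg hi]
      exact hc0
  have hli : LinearIndependent k v := by
    rw [Fintype.linearIndependent_iff]
    intro t ht j
    have h1 : tau hh (AdjoinRoot.mk h Z * v j * ∑ i, t i • v i) = t j * a j := by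
      rw [Finset.mul_sum, map_sum, Finset.sum_eq_single j]
      · rw [mul_smul_comm, map_smul, hvn, smul_eq_mul]
      · intro i _ hij
        rw [mul_smul_comm, map_smul, hvo j i hij.symm, smul_zero]
      · intro h2
        exact absurd (Finset.mem_univ _) h2
    rw [ht, mul_zero, map_zero] at h1
    exact (mul_eq_zero.1 h1.symm).resolve_right (ha0 j)
  have hcard : Fintype.card (Ix g) = Module.finrank k (AdjoinRoot h) := by
    rw [(AdjoinRoot.powerBasis' hh).finrank, AdjoinRoot.powerBasis'_dim, hdh]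
    simp
  refine ⟨basisOfLinearIndependentOfCardEqFinrank hli hcard, ?_, ?_, ?_⟩
  · intro i j hij
    rw [coe_basisOfLinearIndependentOfCardEqFinrank]
    exact hvo i j hij
  · intro i
    rw [coe_basisOfLinearIndependentOfCardEqFinrank]
    exact hvn i
  · exact ha0

end Pool.Agent.Helper54.HQ
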