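import Pool.Agent.Helper54.HQ.StI
import Pool.Agent.Helper3.HY.M_Ui1

/-!
# HQ, module Hh2: the unramified factor
-/

set_option autoImplicit false

namespace Pool.Agent.Helper54.HQ

open Polynomial Finset Matrix
open Pool.Agent.Helper3.HY (co tau)
open Pool.Agent.Helper54.HL (tk Rep)

private lemma tau_map_Hh2 {A B : Type} [CommRing A] [CommRing B] [Nontrivial B] (φ : A →+* B)
    {g₀ : A[X]} (hm : g₀.Monic) (hm' : (g₀.map φ).Monic) (q : A[X]) :
    φ (tau hm (AdjoinRoot.mk g₀ q)) = tau hm' (AdjoinRoot.mk (g₀.map φ) (q.map φ)) := by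
  rw [tau, tau, Helper3.HY.co_mk, Helper3.HY.co_mk, ← map_modByMonic φ hm, coeff_map,
    hm.natDegree_map φ]

/-- the column polynomial -/
private noncomputable def cp_Hh2 {A : Type} [CommRing A] {n : ℕ} (v : Fin n → A) : A[X] :=
  ∑ l : Fin n, C (v l) * X ^ (l : ℕ)

private lemma tau_cp_Hh2 {A : Type} [CommRing A] {g₀ : A[X]} (hm : g₀.Monic) {n : ℕ} (p : A[X])
    (G : Matrix (Fin n) (Fin n) A)
    (hG : ∀ i j, G i j = tau hm (AdjoinRoot.mk g₀ (p * X ^ (i : ℕ) * X ^ (j : ℕ))))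
    (v w : Fin n → A) :
    tau hm (AdjoinRoot.mk g₀ (p * cp_Hh2 v * cp_Hh2 w)) = v ⬝ᵥ (G *ᵥ w) := by
  have h1 : AdjoinRoot.mk g₀ (p * cp_Hh2 v * cp_Hh2 w) =
      ∑ l : Fin n, ∑ l' : Fin n, (v l * w l') •
        AdjoinRoot.mk g₀ (p * X ^ (l : ℕ) * X ^ (l' : ℕ)) := by
    rw [cp_Hh2, cp_Hh2, mul_assoc, sum_mul_sum, mul_sum, map_sum]
    refine sum_congr rfl fun l _ => ?_
    rw [mul_sum, map_sum]
    refine sum_congr rfl fun l' _ => ?_
    rw [Algebra.smul_def, AdjoinRoot.algebraMap_eq, ← AdjoinRoot.mk_C, ← map_mul, C_mul]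
    congr 1
    ring
  rw [h1, map_sum, dotProduct]
  refine sum_congr rfl fun l _ => ?_
  rw [map_sum, mulVec, dotProduct, mul_sum]
  refine sum_congr rfl fun l' _ => ?_
  rw [map_smul, hG, smul_eq_mul]
  ring

theorem hHh2 (h : StHg0) : StHh2 := by
  classical
  intro O k κ _ _ _ _ _ _ _ π ρ hπ hρs hρ h2 g₀ hg hg₀ hirr w e s hRep n hn
  obtain ⟨hs, p, hps, hw⟩ := hRep
  have hgρ : (g₀.map ρ).Monic := hg₀.map ρ
  have hn1 : (g₀.map ρ).natDegree = n := by rw [hg₀.natDegree_map ρ, hn]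
  have hnpos : 1 ≤ n := by rw [← hn1]; exact hirr.natDegree_pos
  haveI : Fact (Irreducible (g₀.map ρ)) := ⟨hirr⟩
  let G : Matrix (Fin n) (Fin n) O := fun i j =>
    tau hg₀ (AdjoinRoot.mk g₀ (p * X ^ (i : ℕ) * X ^ (j : ℕ)))
  have hG : ∀ i j, G i j = tau hg₀ (AdjoinRoot.mk g₀ (p * X ^ (i : ℕ) * X ^ (j : ℕ))) :=
    fun _ _ => rfl
  have hsymm : G.IsSymm := by
    ext i j
    rw [Matrix.transpose_apply, hG, hG]
    congr 2
    ring
  have hunit : ∀ c : O, ρ c ≠ 0 → IsUnit c := by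
    intro c hc
    by_contra hcu
    apply hc
    rw [hρ]
    have h1 : c ∈ IsLocalRing.maximalIdeal O := hcu
    rw [hπ.maximalIdeal_eq, Ideal.mem_span_singleton] at h1
    exact h1
  have hdet : IsUnit G.det := by
    apply hunit
    rw [RingHom.map_det]
    intro h0
    obtain ⟨v, hv0, hv⟩ := Matrix.exists_mulVec_eq_zero_iff.2 h0
    apply hv0
    -- the Gram matrix over `κ`
    have hGρ : ∀ i j, (ρ.mapMatrix G) i j =
        tau hgρ (AdjoinRoot.mk (g₀.map ρ) (p.map ρ * X ^ (i : ℕ) * X ^ (j : ℕ))) := by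
      intro i j
      rw [RingHom.mapMatrix_apply, Matrix.map_apply, hG, tau_map_Hh2 ρ hg₀ hgρ]
      simp only [Polynomial.map_mul, Polynomial.map_pow, Polynomial.map_X]
    have hz : AdjoinRoot.mk (g₀.map ρ) (p.map ρ * cp_Hh2 v) = 0 := by
      refine Helper3.HY.hUi1 κ (g₀.map ρ) hgρ (by omega) _ fun y => ?_
      obtain ⟨q, rfl⟩ := AdjoinRoot.mk_surjective y
      have e1 : AdjoinRoot.mk (g₀.map ρ) q = AdjoinRoot.mk (g₀.map ρ) (q %ₘ (g₀.map ρ)) := by
        rw [AdjoinRoot.mk_eq_mk]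
        exact ⟨q /ₘ (g₀.map ρ), by rw [sub_eq_iff_eq_add, add_comm, modByMonic_add_div q]⟩
      have hdeg : (q %ₘ (g₀.map ρ)).natDegree < n := by
        rw [← hn1]
        exact natDegree_modByMonic_lt q hgρ (by
          intro h1
          rw [h1, natDegree_one] at hn1
          omega)
      have e2 : q %ₘ (g₀.map ρ) = cp_Hh2 (fun l : Fin n => (q %ₘ (g₀.map ρ)).coeff l) := by
        rw [cp_Hh2]
        conv_lhs => rw [(q %ₘ (g₀.map ρ)).as_sum_range_C_mul_X_pow' hdeg]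
        rw [Finset.sum_range]
      rw [e1, e2, ← map_mul]
      have e3 : p.map ρ * cp_Hh2 v * cp_Hh2 (fun l : Fin n => (q %ₘ (g₀.map ρ)).coeff l) =
          p.map ρ * cp_Hh2 (fun l : Fin n => (q %ₘ (g₀.map ρ)).coeff l) * cp_Hh2 v := by ring
      rw [e3, tau_cp_Hh2 hgρ (p.map ρ) _ hGρ, hv, dotProduct_zero]
    rw [map_mul, hps, mul_eq_zero] at hz
    have hz2 := hz.resolve_left hs
    rw [AdjoinRoot.mk_eq_zero] at hz2
    have hdlt : (cp_Hh2 v).degree < (g₀.map ρ).degree := by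
      rw [degree_eq_natDegree hgρ.ne_zero, hn1, cp_Hh2]
      refine lt_of_le_of_lt (degree_sum_le _ _) ?_
      rw [Finset.sup_lt_iff (by exact_mod_cast WithBot.bot_lt_coe n)]
      intro l _
      refine lt_of_le_of_lt (degree_C_mul_X_pow_le _ _) ?_
      exact_mod_cast l.2
    have hcp : cp_Hh2 v = 0 := eq_zero_of_dvd_of_degree_lt hz2 hdlt
    funext l
    have h3 := congrArg (fun P => P.coeff (l : ℕ)) hcp
    simp only [cp_Hh2, finset_sum_coeff, coeff_C_mul, coeff_X_pow, coeff_zero] at h3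
    rw [Finset.sum_eq_single l] at h3
    · simpa using h3
    · intro b _ hb
      rw [if_neg (fun hh => hb (Fin.ext hh.symm)), mul_zero]
    · intro hh; exact absurd (Finset.mem_univ l) hh
  have h2O : IsUnit (2 : O) := by
    apply hunit
    rw [map_ofNat]
    exact h2
  obtain ⟨Q, a, -, ha, hQ⟩ := h O h2O n G hsymm hdet
  let B : Fin n → AdjoinRoot (tk k g₀) := fun j =>
    AdjoinRoot.mk (tk k g₀) (tk k (cp_Hh2 (fun l => Q l j)))
  have hπ0 : algebraMap O k π ≠ 0 := by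
    rw [Ne, IsFractionRing.to_map_eq_zero_iff]
    exact hπ.ne_zero
  have hB : ∀ i j, tau hg (w * B i * B j) =
      if i = j then algebraMap O k π ^ e * algebraMap O k (a i) else 0 := by
    intro i j
    have e1 : w * B i * B j = (algebraMap O k π ^ e) • AdjoinRoot.mk (tk k g₀)
        (tk k (p * cp_Hh2 (fun l => Q l i) * cp_Hh2 (fun l => Q l j))) := by
      rw [hw, ← map_mul, ← map_mul, Algebra.smul_def, AdjoinRoot.algebraMap_eq,
        ← AdjoinRoot.mk_C, ← map_mul]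
      congr 1
      simp only [tk, Polynomial.map_mul]
      ring
    rw [e1, map_smul, smul_eq_mul]
    have e2 : algebraMap O k (tau hg₀ (AdjoinRoot.mk g₀
        (p * cp_Hh2 (fun l => Q l i) * cp_Hh2 (fun l => Q l j)))) =
        tau hg (AdjoinRoot.mk (tk k g₀) (tk k
          (p * cp_Hh2 (fun l => Q l i) * cp_Hh2 (fun l => Q l j)))) :=
      tau_map_Hh2 (algebraMap O k) hg₀ hg _
    rw [← e2, tau_cp_Hh2 hg₀ p G hG]
    have e3 : (fun l => Q l i) ⬝ᵥ (G *ᵥ fun l => Q l j) = (Qᵀ * G * Q) i j := by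
      rw [Matrix.mul_assoc, Matrix.mul_apply']
      rfl
    rw [e3, hQ, Matrix.diagonal_apply]
    split_ifs with hij
    · rfl
    · rw [map_zero, mul_zero]
  have hne : ∀ i, algebraMap O k π ^ e * algebraMap O k (a i) ≠ 0 := by
    intro i
    refine mul_ne_zero (zpow_ne_zero _ hπ0) ?_
    rw [Ne, IsFractionRing.to_map_eq_zero_iff]
    exact (ha i).ne_zero
  have hli : LinearIndependent k B := by
    rw [Fintype.linearIndependent_iff]
    intro c hc i
    have h1 : tau hg (w * B i * ∑ j, c j • B j) = 0 := by rw [hc, mul_zero, map_zero]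
    rw [mul_sum, map_sum, Finset.sum_eq_single i] at h1
    · rw [mul_smul_comm, map_smul, hB, if_pos rfl, smul_eq_mul, mul_eq_zero] at h1
      exact h1.resolve_right (hne i)
    · intro j _ hj
      rw [mul_smul_comm, map_smul, hB, if_neg (fun hh => hj hh.symm), smul_zero]
    · intro hh; exact absurd (Finset.mem_univ i) hh
  have hfr : Module.finrank k (AdjoinRoot (tk k g₀)) = n := by
    rw [(AdjoinRoot.powerBasis' hg).finrank, AdjoinRoot.powerBasis'_dim, hg₀.natDegree_map, hn]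
  haveI : Nonempty (Fin n) := ⟨⟨0, hnpos⟩⟩
  let b := basisOfLinearIndependentOfCardEqFinrank hli (by rw [Fintype.card_fin, hfr])
  have hb : ∀ i, b i = B i := fun i => by
    rw [coe_basisOfLinearIndependentOfCardEqFinrank]
  refine ⟨b, a, ha, ?_, ?_, hne⟩
  · intro i j hij
    rw [hb, hb, hB, if_neg hij]
  · intro i
    rw [hb, hB, if_pos rfl]

end Pool.Agent.Helper54.HQ
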