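import Pool.Agent.Helper54.HQ.StI
import Pool.Agent.Helper54.HQ.Base

set_option autoImplicit false

namespace Pool.Agent.Helper54.HQ

open Polynomial Finset Filter Topology Matrix IsDedekindDomain
open Pool.Agent.Helper3.HY (co tau Ix nu TType IType baseChange descentGroup IsPointValue IsTwPoint
  twGroup co_mk)

theorem baseChange_mk_Hk {k k' : Type} [Field k] [Field k'] (j : k →+* k') (h p : k[X]) :
    baseChange j h (AdjoinRoot.mk h p) = AdjoinRoot.mk (h.map j) (p.map j) := by
  rw [baseChange, AdjoinRoot.map, AdjoinRoot.lift_mk, ← AdjoinRoot.aeval_eq, Polynomial.aeval_def,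
    Polynomial.eval₂_map]
  rfl

theorem tau_baseChange_Hk {k k' : Type} [Field k] [Field k'] (j : k →+* k') {h : k[X]}
    (hm : h.Monic) (x : AdjoinRoot h) :
    tau (hm.map j) (baseChange j h x) = j (tau hm x) := by
  obtain ⟨p, rfl⟩ := AdjoinRoot.mk_surjective x
  rw [baseChange_mk_Hk]
  unfold tau
  rw [co_mk, co_mk, ← Polynomial.map_modByMonic j hm, Polynomial.coeff_map, hm.natDegree_map]

theorem hHk : StHk := by
  intro K K' _ _ i h hm z n e a ho
  have hm' := hm.map i
  let w : Fin n → AdjoinRoot (h.map i) := fun j => baseChange i h (e j)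
  have hw : ∀ j l, tau hm' (baseChange i h z * w j * w l) = i (tau hm (z * e j * e l)) := by
    intro j l
    rw [← tau_baseChange_Hk i hm, map_mul (baseChange i h), map_mul (baseChange i h)]
  have hli : LinearIndependent K' w := by
    rw [Fintype.linearIndependent_iff]
    intro c hc l
    have h1 : tau hm' (baseChange i h z * (∑ j, c j • w j) * w l) = 0 := by
      rw [hc]; simp
    rw [Finset.mul_sum, Finset.sum_mul, map_sum, Finset.sum_eq_single l] at h1
    · rw [mul_smul_comm, smul_mul_assoc, map_smul, hw, ho.norm, smul_eq_mul] at h1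
      exact (mul_eq_zero.1 h1).resolve_right ((map_ne_zero i).2 (ho.ne l))
    · intro j _ hj
      rw [mul_smul_comm, smul_mul_assoc, map_smul, hw, ho.orth j l hj, map_zero, smul_zero]
    · simp
  have hcard : Fintype.card (Fin n) = Module.finrank K' (AdjoinRoot (h.map i)) := by
    rw [← Module.finrank_eq_card_basis e, (AdjoinRoot.powerBasis' hm).finrank,
      (AdjoinRoot.powerBasis' hm').finrank, AdjoinRoot.powerBasis'_dim, AdjoinRoot.powerBasis'_dim,
      hm.natDegree_map]
  by_cases hn : Nonempty (Fin n)
  · refine ⟨basisOfLinearIndependentOfCardEqFinrank hli hcard, ?_, ?_, ?_⟩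
    · intro j l hjl
      rw [coe_basisOfLinearIndependentOfCardEqFinrank, hw, ho.orth j l hjl, map_zero]
    · intro j
      rw [coe_basisOfLinearIndependentOfCardEqFinrank, hw, ho.norm]
    · intro j
      exact (map_ne_zero i).2 (ho.ne j)
  · have hn0 : IsEmpty (Fin n) := not_nonempty_iff.1 hn
    have : Module.finrank K' (AdjoinRoot (h.map i)) = 0 := by
      rw [← hcard]; exact Fintype.card_eq_zero
    have hfin : Module.Finite K' (AdjoinRoot (h.map i)) :=
      Module.Finite.of_basis (AdjoinRoot.powerBasis' hm').basis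
    have hsub : Subsingleton (AdjoinRoot (h.map i)) := Module.finrank_zero_iff.1 this
    exact ⟨Module.Basis.empty _, fun j => hn0.elim j, fun j => hn0.elim j, fun j => hn0.elim j⟩

end Pool.Agent.Helper54.HQ
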