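import Pool.Agent.Helper54.HQ.StI
import Pool.Agent.Helper54.HQ.Base

set_option autoImplicit false

namespace Pool.Agent.Helper54.HQ

open Polynomial Finset Filter Topology Matrix IsDedekindDomain
open Pool.Agent.Helper3.HY (co tau Ix nu TType IType baseChange descentGroup IsPointValue IsTwPoint
  twGroup co_mk)

theorem hHl (hCg : StCg) : StHl := by
  intro g f hm hdeg _ z hz hsq
  obtain ⟨b, -, hdet⟩ := hCg g f hm hdeg z
  have hsymm : LinearMap.IsSymm (Bf hm z) := ⟨fun x y => by
    rw [RingHom.id_apply, Bf_apply, Bf_apply, mul_assoc, mul_comm x y, ← mul_assoc]⟩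
  have hfr : Module.finrank ℚ (LL f) = 2 * g + 1 := by
    rw [Module.finrank_eq_card_basis b, Fintype.card_fin]
  have hfin : Module.Finite ℚ (LL f) := Module.Finite.of_basis b
  have h2 : Invertible (2 : ℚ) := invertibleOfNonzero two_ne_zero
  obtain ⟨v0, hv0⟩ := LinearMap.BilinForm.exists_orthogonal_basis hsymm
  let v : Module.Basis (Ix g) ℚ (LL f) := v0.reindex (finCongr hfr)
  have hv : ∀ i j, i ≠ j → Bf hm z (v i) (v j) = 0 := by
    intro i j hij
    simp only [v, Module.Basis.reindex_apply]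
    exact hv0 (fun h => hij ((finCongr hfr).symm.injective h))
  let a : Ix g → ℚ := fun i => Bf hm z (v i) (v i)
  have hMb : LinearMap.BilinForm.toMatrix b (Bf hm z) =
      Matrix.of fun i j => Bf hm z (b i) (b j) := by
    ext i j
    rw [LinearMap.BilinForm.toMatrix_apply, Matrix.of_apply]
  have hMv : LinearMap.BilinForm.toMatrix v (Bf hm z) = Matrix.diagonal a := by
    ext i j
    rw [LinearMap.BilinForm.toMatrix_apply, Matrix.diagonal_apply]
    split_ifs with h
    · subst h; rfl
    · exact hv i j h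
  have hprod : ∏ i, a i = (b.toMatrix v).det ^ 2 * ((-1) ^ g * Algebra.norm ℚ z) := by
    rw [← Matrix.det_diagonal, ← hMv, ← LinearMap.BilinForm.toMatrix_mul_basis_toMatrix b v,
      Matrix.det_mul, Matrix.det_mul, Matrix.det_transpose, hMb, hdet]
    have key : ∀ D M : ℚ, D * M * D = D ^ 2 * M := fun D M => by ring
    exact key _ _
  obtain ⟨s, hs⟩ := hsq
  have hnz : Algebra.norm ℚ z ≠ 0 := Algebra.norm_ne_zero_iff.2 hz
  have hs0 : s ≠ 0 := by
    rintro rfl
    exact hnz (by rw [hs]; ring)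
  have hP : (b.toMatrix v).det ≠ 0 := by
    have h1 : b.toMatrix v * v.toMatrix b = 1 := b.toMatrix_mul_toMatrix_flip v
    intro h0
    have h3 := congrArg Matrix.det h1
    rw [Matrix.det_mul, h0, zero_mul, Matrix.det_one] at h3
    exact zero_ne_one h3
  have hpc : ∏ i, a i = (-1) ^ g * ((b.toMatrix v).det * s) ^ 2 := by
    rw [hprod, hs]; ring
  have hc0 : (b.toMatrix v).det * s ≠ 0 := mul_ne_zero hP hs0
  refine ⟨v, a, (b.toMatrix v).det * s, ⟨fun i j hij => hv i j hij, fun i => rfl, ?_⟩, hc0, hpc⟩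
  intro i
  have h1 : ∏ i, a i ≠ 0 := by
    rw [hpc]
    exact mul_ne_zero (pow_ne_zero _ (by norm_num)) (pow_ne_zero _ hc0)
  exact Finset.prod_ne_zero_iff.1 h1 i (Finset.mem_univ i)

end Pool.Agent.Helper54.HQ
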