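import Pool.Agent.Helper54.HQ.StI
import Pool.Agent.Helper54.HQ.Base

/-!
# HQ, module Hm: the quadratic relation (assembly)
-/

set_option autoImplicit false

namespace Pool.Agent.Helper54.HQ

open Polynomial Finset Filter Topology Matrix IsDedekindDomain
open Pool.Agent.Helper3.HY (co tau Ix nu TType IType baseChange descentGroup IsPointValue IsTwPoint
  twGroup)

/-- the form `τ(z x y)` -/
private noncomputable def bf_Hm {K : Type} [Field K] {h : K[X]} (hm : h.Monic)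
    (z : AdjoinRoot h) : LinearMap.BilinForm K (AdjoinRoot h) :=
  LinearMap.mk₂ K (fun x y => tau hm (z * x * y))
    (by intro a b c; rw [mul_add, add_mul, map_add])
    (by intro c a b; rw [mul_smul_comm, smul_mul_assoc, map_smul])
    (by intro a b c; rw [mul_add, map_add])
    (by intro c a b; rw [mul_smul_comm, map_smul])

private theorem bf_apply_Hm {K : Type} [Field K] {h : K[X]} (hm : h.Monic)
    (z x y : AdjoinRoot h) : bf_Hm hm z x y = tau hm (z * x * y) := rfl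

private theorem bf_symm_Hm {K : Type} [Field K] {h : K[X]} (hm : h.Monic)
    (z x y : AdjoinRoot h) : bf_Hm hm z x y = bf_Hm hm z y x := by
  rw [bf_apply_Hm, bf_apply_Hm, mul_assoc, mul_comm x y, ← mul_assoc]

private theorem hasse_eq_Hm (h1 : StHa1) (h2 : StHa) {K : Type} [Field K]
    {s : K → K → ZMod 2} (hs : IsSym K s) (h20 : (2 : K) ≠ 0) {h : K[X]} (hm : h.Monic)
    (z : AdjoinRoot h) {n : ℕ} {e e' : Module.Basis (Fin n) K (AdjoinRoot h)}
    {a a' : Fin n → K} (he : IsOrth hm z e a) (he' : IsOrth hm z e' a') :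
    hasse s a = hasse s a' := by
  have h3 := h2 h1 K s hs h20 (AdjoinRoot h) (bf_Hm hm z) (bf_symm_Hm hm z) n e e'
    he.orth he'.orth (fun i => by rw [bf_apply_Hm, he.norm]; exact he.ne i)
    (fun i => by rw [bf_apply_Hm, he'.norm]; exact he'.ne i)
  have e1 : (fun i => bf_Hm hm z (e i) (e i)) = a := funext fun i => he.norm i
  have e2 : (fun i => bf_Hm hm z (e' i) (e' i)) = a' := funext fun i => he'.norm i
  rwa [e1, e2] at h3

private theorem hasse_split_Hm (h3 : StHb) {K : Type} [Field K]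
    {s : K → K → ZMod 2} (hs : IsSym K s) (h20 : (2 : K) ≠ 0) {h : K[X]} (hm : h.Monic)
    (z : AdjoinRoot h) {g : ℕ} {e : Module.Basis (Ix g) K (AdjoinRoot h)}
    {a : Ix g → K} (he : IsOrth hm z e a) {c : K} (hc : c ≠ 0)
    (hac : ∏ i, a i = (-1) ^ g * c ^ 2)
    (hX : ∃ X : Submodule K (AdjoinRoot h), Module.finrank K X = g ∧
      ∀ x ∈ X, ∀ y ∈ X, tau hm (z * x * y) = 0) :
    hasse s a = (g.choose 2 : ZMod 2) * s (-1) (-1) := by
  have e1 : (fun i => bf_Hm hm z (e i) (e i)) = a := funext fun i => he.norm i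
  have h4 := h3 K s hs h20 (AdjoinRoot h) (bf_Hm hm z) (bf_symm_Hm hm z) g e
    he.orth (fun i => by rw [bf_apply_Hm, he.norm]; exact he.ne i)
    ⟨c, hc, by rw [← hac]; exact Finset.prod_congr rfl fun i _ => he.norm i⟩ hX
  rwa [e1] at h4

private theorem v2_unit_Hm (p : ℕ) [hp : Fact p.Prime] {x : ℚ_[p]} (hx : ‖x‖ = 1) :
    v2 p x = 0 := by
  have hx0 : x ≠ 0 := by
    intro h
    rw [h, norm_zero] at hx
    exact zero_ne_one hx
  have h1 := Padic.norm_eq_zpow_neg_valuation hx0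
  rw [hx] at h1
  have hp1 : (1 : ℝ) < p := by exact_mod_cast hp.out.one_lt
  have h2 : x.valuation = 0 := by
    have h3 := (zpow_eq_one_iff_right₀ (by positivity : (0 : ℝ) ≤ p) (ne_of_gt hp1)).1 h1.symm
    omega
  unfold v2
  rw [h2]
  rfl

private theorem hs_unit_Hm (p : ℕ) [hp : Fact p.Prime] {x y : ℚ_[p]} (hx : ‖x‖ = 1)
    (hy : ‖y‖ = 1) : hs p x y = 0 := by
  unfold hs
  rw [v2_unit_Hm p hx, v2_unit_Hm p hy]
  ring

private theorem hasse_unit_Hm (p : ℕ) [hp : Fact p.Prime] {n : ℕ} {a : Fin n → ℚ_[p]}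
    (ha : ∀ i, ‖a i‖ = 1) : hasse (hs p) a = 0 := by
  unfold hasse
  refine Finset.sum_eq_zero fun x _ => ?_
  split_ifs
  · exact hs_unit_Hm p (ha _) (ha _)
  · rfl

private theorem over_unique_Hm {f : ℤ[X]} [Fact (Irreducible (fK f))]
    [IsDedekindDomain (RR f)] [IsFractionRing (RR f) (LL f)] {P P' : Prm}
    {v : HeightOneSpectrum (RR f)} (h : Over P v) (h' : Over P' v) : P = P' := by
  by_contra hne
  have hcop : IsCoprime (pz P) (pz P') := by
    rw [Int.isCoprime_iff_gcd_eq_one]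
    have h1 : Nat.Coprime (P : ℕ) (P' : ℕ) :=
      (Nat.coprime_primes P.2 P'.2).2 fun h => hne (Subtype.ext h)
    simpa [pz] using h1
  obtain ⟨u, w, huw⟩ := hcop
  have h2 : Int.castRingHom (RR f) 1 ∈ v.asIdeal := by
    rw [← huw, map_add, map_mul, map_mul]
    exact v.asIdeal.add_mem (v.asIdeal.mul_mem_left _ h) (v.asIdeal.mul_mem_left _ h')
  rw [map_one] at h2
  exact v.isPrime.ne_top ((Ideal.eq_top_iff_one _).2 h2)

private theorem val_zero_Hm (P : Prm) {x : ℚ}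
    (hP : ¬ (P : ℕ) ∣ x.num.natAbs * x.den) : padicValRat (P : ℕ) x = 0 := by
  have h1 : ¬ (P : ℕ) ∣ x.num.natAbs := fun h => hP (h.mul_right _)
  have h2 : ¬ (P : ℕ) ∣ x.den := fun h => hP (h.mul_left _)
  rw [padicValRat, padicValInt, padicValNat.eq_zero_of_not_dvd h1,
    padicValNat.eq_zero_of_not_dvd h2]
  simp

open Classical in
/-- the set of primes -/
private noncomputable def S_Hm (T : Finset Prm) {n : ℕ} (a : Fin n → ℚ) : Finset Prm :=
  T ∪ ((univ.biUnion fun i => ((a i).num.natAbs * (a i).den).primeFactors).subtype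
    Nat.Prime).filter (fun P => (P : ℕ) ≠ 2)

private theorem subset_S_Hm (T : Finset Prm) {n : ℕ} (a : Fin n → ℚ) : T ⊆ S_Hm T a :=
  Finset.subset_union_left

private theorem odd_S_Hm {T : Finset Prm} {n : ℕ} (a : Fin n → ℚ)
    (hT : ∀ P ∈ T, (P : ℕ) ≠ 2) : ∀ P ∈ S_Hm T a, (P : ℕ) ≠ 2 := by
  intro P hP
  unfold S_Hm at hP
  rcases Finset.mem_union.1 hP with h | h
  · exact hT P h
  · exact (Finset.mem_filter.1 h).2

private theorem mem_S_Hm {T : Finset Prm} {n : ℕ} {a : Fin n → ℚ} (ha : ∀ i, a i ≠ 0)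
    {P : Prm} (hP : (P : ℕ) ≠ 2) {i : Fin n} (h : padicValRat (P : ℕ) (a i) ≠ 0) :
    P ∈ S_Hm T a := by
  unfold S_Hm
  refine Finset.mem_union_right _ (Finset.mem_filter.2 ⟨Finset.mem_subtype.2
    (Finset.mem_biUnion.2 ⟨i, Finset.mem_univ _, ?_⟩), hP⟩)
  rw [Nat.mem_primeFactors]
  refine ⟨P.2, ?_, ?_⟩
  · by_contra hd
    exact h (val_zero_Hm P hd)
  · exact mul_ne_zero (Int.natAbs_ne_zero.2 (Rat.num_ne_zero.2 (ha i))) (Rat.den_ne_zero _)

private theorem prod_formula_Hm (h7 : StHf) {T : Finset Prm} {n : ℕ} {a : Fin n → ℚ}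
    (ha : ∀ i, a i ≠ 0) (hT : ∀ P ∈ T, (P : ℕ) ≠ 2) :
    ∑ P ∈ S_Hm T a, hasse (hs (P : ℕ)) (fun i => (a i : ℚ_[(P : ℕ)])) +
      hasse hs2 (fun i => (a i : ℚ_[2])) + hasse hsR (fun i => (a i : ℝ)) = 0 := by
  unfold hasse
  rw [Finset.sum_comm, ← Finset.sum_add_distrib, ← Finset.sum_add_distrib]
  refine Finset.sum_eq_zero fun x _ => ?_
  by_cases hx : x.1 < x.2
  · simp only [if_pos hx]
    refine h7 (a x.1) (a x.2) (ha _) (ha _) (S_Hm T a) (odd_S_Hm a hT) ?_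
    intro P hP hor
    rcases hor with h | h
    · exact mem_S_Hm ha hP h
    · exact mem_S_Hm ha hP h
  · simp only [if_neg hx, Finset.sum_const_zero, add_zero]

private theorem bc_orth_Hm (h12 : StHk) {K' : Type} [Field K'] (j : ℚ →+* K') {f : ℤ[X]}
    (hm : f.Monic) {g : ℕ} {z : LL f} {e : Module.Basis (Ix g) ℚ (LL f)} {a : Ix g → ℚ}
    (hO : IsOrth (hm.map (Int.castRingHom ℚ)) z e a) :
    ∃ e' : Module.Basis (Ix g) K' (AdjoinRoot ((fK f).map j)),
      IsOrth ((hm.map (Int.castRingHom ℚ)).map j) (baseChange j (fK f) z) e'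
        (fun i => j (a i)) :=
  h12 ℚ K' j (fK f) (hm.map (Int.castRingHom ℚ)) z _ e a hO

private theorem split_Hm (h3 : StHb) (h12 : StHk) {K' : Type} [Field K'] (j : ℚ →+* K')
    {s : K' → K' → ZMod 2} (hs : IsSym K' s) (h20 : (2 : K') ≠ 0) (h11 : s (-1) (-1) = 1)
    {f : ℤ[X]} (hm : f.Monic) {g : ℕ} {z : LL f} {e : Module.Basis (Ix g) ℚ (LL f)}
    {a : Ix g → ℚ} (hO : IsOrth (hm.map (Int.castRingHom ℚ)) z e a) {c : ℚ} (hc : c ≠ 0)
    (hprod : ∏ i, a i = (-1) ^ g * c ^ 2)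
    (hX : ∃ X : Submodule K' (AdjoinRoot ((fK f).map j)), Module.finrank K' X = g ∧
      ∀ x ∈ X, ∀ y ∈ X, tau ((hm.map (Int.castRingHom ℚ)).map j)
        (baseChange j (fK f) z * x * y) = 0) :
    hasse s (fun i => j (a i)) = (g.choose 2 : ZMod 2) := by
  obtain ⟨e', he'⟩ := bc_orth_Hm h12 j hm hO
  rw [hasse_split_Hm h3 hs h20 _ _ he' (c := j c) ((map_ne_zero j).2 hc)
    (by rw [← map_prod, hprod, map_mul, map_pow, map_pow, map_neg, map_one]) hX, h11, mul_one]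

private theorem loc_Hm (h1 : StHa1) (h2 : StHa) (h12 : StHk) {K' : Type} [Field K']
    (j : ℚ →+* K') {s : K' → K' → ZMod 2} (hs : IsSym K' s) (h20 : (2 : K') ≠ 0)
    {f : ℤ[X]} (hm : f.Monic) {g : ℕ} {z : LL f} {e : Module.Basis (Ix g) ℚ (LL f)}
    {a : Ix g → ℚ} (hO : IsOrth (hm.map (Int.castRingHom ℚ)) z e a)
    {e' : Module.Basis (Ix g) K' (AdjoinRoot ((fK f).map j))} {a' : Ix g → K'}
    (hO' : IsOrth ((hm.map (Int.castRingHom ℚ)).map j) (baseChange j (fK f) z) e' a') :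
    hasse s (fun i => j (a i)) = hasse s a' := by
  obtain ⟨e'', he''⟩ := bc_orth_Hm h12 j hm hO
  exact hasse_eq_Hm h1 h2 hs h20 _ _ he'' hO'

private theorem two_Hm (h10 : StHi) {f : ℤ[X]} (hm : f.Monic) {g : ℕ}
    (hirr : Irreducible (fK f)) (hdeg : f.natDegree = 2 * g + 1) (z : (LL f)ˣ) (hz : At2 z) :
    ∃ X : Submodule ℚ_[2] (AdjoinRoot ((fK f).map (algebraMap ℚ ℚ_[2]))),
      Module.finrank ℚ_[2] X = g ∧ ∀ x ∈ X, ∀ y ∈ X,
        tau ((hm.map (Int.castRingHom ℚ)).map (algebraMap ℚ ℚ_[2]))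
        (baseChange (algebraMap ℚ ℚ_[2]) (fK f) (z : LL f) * x * y) = 0 := by
  have h1 : ((fK f).map (algebraMap ℚ ℚ_[2])).natDegree = 2 * g + 1 := by
    rw [natDegree_map, natDegree_fK hm, hdeg]
  unfold At2 at hz
  obtain ⟨X, hX1, hX2⟩ := h10 ℚ_[2] two_ne_zero g ((fK f).map (algebraMap ℚ ℚ_[2]))
    ((hm.map (Int.castRingHom ℚ)).map (algebraMap ℚ ℚ_[2])) hirr.separable.map h1 _ hz
  refine ⟨X, hX1, fun x hx y hy => ?_⟩
  have h3 := hX2 x hx y hy
  rw [Units.coe_map] at h3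
  exact h3

theorem hHm (h1 : StHa1) (h2 : StHa) (h3 : StHb) (h4 : StHc) (h5 : StHd) (h6 : StHe)
    (h7 : StHf) (h8 : StHg) (h9 : StHh) (h10 : StHi) (h11 : StHj) (h12 : StHk) (h13 : StHl)
    (h14 : StQ3) (_h15 : StDe1) : StHm := by
  classical
  intro g H hg hH f hf _ _ _ T hT q hq
  have hirr : Irreducible (fK f) := Fact.out
  have hm : f.Monic := hf.1
  have hdeg : f.natDegree = 2 * g + 1 := hf.2.1
  have hcP : ∀ P : Prm, ∃ cP : ZMod 2, P ∈ T → ∀ z : LL f, z ≠ 0 →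
      IsSquare (Algebra.norm ℚ z) → om (q P) z = 1 →
      ∃ (e : Module.Basis (Ix g) ℚ_[(P : ℕ)]
        (AdjoinRoot ((fK f).map (algebraMap ℚ ℚ_[(P : ℕ)])))) (a : Ix g → ℚ_[(P : ℕ)]),
      IsOrth ((hm.map (Int.castRingHom ℚ)).map (algebraMap ℚ ℚ_[(P : ℕ)]))
        (baseChange (algebraMap ℚ ℚ_[(P : ℕ)]) (fK f) z) e a ∧
      hasse (hs (P : ℕ)) a = ep P (q P) z + cP := by
    intro P
    by_cases hP : P ∈ T
    · obtain ⟨cP, hc⟩ := h9 g hg f hm hdeg P (hT P hP).1 (hT P hP).2 (q P) (hq P hP)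
      exact ⟨cP, fun _ => hc⟩
    · exact ⟨0, fun h => absurd h hP⟩
  choose c hc using hcP
  refine ⟨c, ?_⟩
  intro z hsq hev hAt2
  have hz : (z : LL f) ≠ 0 := z.ne_zero
  obtain ⟨e, a, c0, hO, hc0, hprod⟩ := h13 g f hm hdeg (z : LL f) hz hsq
  have hpf := prod_formula_Hm h7 (T := T) hO.ne fun P hP => (hT P hP).1
  have h2Q : ∀ (p : ℕ) [Fact p.Prime], (2 : ℚ_[p]) ≠ 0 := fun p _ => two_ne_zero
  have hcast : ∀ (K' : Type) [Field K'] [Algebra ℚ K'],
      (fun i => ((a i : ℚ) : K')) = fun i => algebraMap ℚ K' (a i) :=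
    fun K' _ _ => funext fun i => (eq_ratCast _ _).symm
  have hcg : ((g.choose 2 : ZMod 2)) + (g.choose 2 : ZMod 2) = 0 := CharTwo.add_self_eq_zero _
  have hA : hasse hs2 (fun i => (a i : ℚ_[2])) = (g.choose 2 : ZMod 2) := by
    rw [hcast ℚ_[2]]
    exact split_Hm h3 h12 _ h5.1 (h2Q 2) h5.2 hm hO hc0 hprod
      (two_Hm h10 hm hirr hdeg z hAt2)
  have hB : hasse hsR (fun i => (a i : ℝ)) = (g.choose 2 : ZMod 2) := by
    rw [hcast ℝ]
    exact split_Hm h3 h12 _ h6.1 two_ne_zero h6.2 hm hO hc0 hprod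
      (h11 g H hg hH f hf ((hm.map (Int.castRingHom ℚ)).map (algebraMap ℚ ℝ)) hirr _)
  rw [hA, hB, add_assoc, hcg, add_zero] at hpf
  -- the odd primes
  have hC : ∀ P ∈ S_Hm T a, hasse (hs (P : ℕ)) (fun i => (a i : ℚ_[(P : ℕ)])) =
      if P ∈ T then om (q P) (z : LL f) * (ep P (q P) (z : LL f) + c P) else 0 := by
    intro P hPS
    have hP2 : (P : ℕ) ≠ 2 := odd_S_Hm a (fun P hP => (hT P hP).1) P hPS
    rw [hcast ℚ_[(P : ℕ)]]
    have hunit : (∀ v, Over P v → EvenAt v (z : LL f)) →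
        hasse (hs (P : ℕ)) (fun i => algebraMap ℚ ℚ_[(P : ℕ)] (a i)) = 0 := by
      intro hv
      obtain ⟨e'', a'', hO'', hn⟩ := h8 g hg f hm hdeg P (z : LL f) hP2 hz hv
      rw [loc_Hm h1 h2 h12 _ (h4 (P : ℕ) hP2) (h2Q (P : ℕ)) hm hO hO'']
      exact hasse_unit_Hm (P : ℕ) hn
    by_cases hPT : P ∈ T
    · rw [if_pos hPT]
      by_cases hE : EvenAt (q P) (z : LL f)
      · have hom : om (q P) (z : LL f) = 0 := by
          unfold om
          rw [if_pos hE]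
        rw [hom, zero_mul]
        refine hunit fun v hv => ?_
        by_cases hvq : v = q P
        · rw [hvq]; exact hE
        · exact (h14 g hg f hm P hP2 (hT P hPT).2 (q P) (hq P hPT) (z : LL f) hz hsq).1 v hv hvq
      · have hom : om (q P) (z : LL f) = 1 := by
          unfold om
          rw [if_neg hE]
        obtain ⟨e'', a'', hO'', hh⟩ := hc P hPT (z : LL f) hz hsq hom
        rw [hom, one_mul, ← hh]
        exact loc_Hm h1 h2 h12 _ (h4 (P : ℕ) hP2) (h2Q (P : ℕ)) hm hO hO''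
    · rw [if_neg hPT]
      refine hunit fun v hv => hev v fun P' hP' hvq => hPT ?_
      have h21 : Over P' v := by rw [hvq]; exact (hq P' hP').1
      rw [over_unique_Hm hv h21]
      exact hP'
  rw [Finset.sum_congr rfl hC, ← Finset.sum_filter, Finset.filter_mem_eq_inter,
    Finset.inter_eq_right.2 (subset_S_Hm T a)] at hpf
  exact hpf

end Pool.Agent.Helper54.HQ
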