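import Pool.Agent.Helper54.HQ.Base
import Pool.Agent.Helper54.HL.St
import Pool.Agent.Helper54.HL.M_I1

/-!
# HQ module I1: the places where `f` is irreducible (evenness)
-/

set_option autoImplicit false
set_option linter.unusedSectionVars false

namespace Pool.Agent.Helper54.HQ

open Polynomial IsDedekindDomain
open Pool.Agent.Helper3.HY (co tau Ix nu TType IType baseChange descentGroup IsPointValue IsTwPoint
  twGroup co_mk sum_co ext_co co_eq_zero)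
open Pool.Agent.Helper54.HL (tk IrrInt IrrBig Nr Rep RepA RepB pr pr_mk IsTwIrr LinePt RootLift
  exists_unit_I1 unit_uniq_I1)

/-- The `ℚ`-algebra structure of `L` as a quotient ring. -/
@[reducible] private noncomputable def algQ_I1 (f : ℤ[X]) : Algebra ℚ (LL f) := inferInstance

/-- The norm, with the generic `ℚ`-algebra structure of a field of characteristic zero. -/
private theorem norm_I1 (f : ℤ[X]) [Fact (Irreducible (fK f))] (z : LL f) :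
    Algebra.norm ℚ z = @Algebra.norm ℚ (LL f) _ _ (algQ_I1 f) z := by
  have h : (DivisionRing.toRatAlgebra : Algebra ℚ (LL f)) = algQ_I1 f := Subsingleton.elim _ _
  rw [h]

theorem hI1 (h1 : HL.StRA) (h2 : HL.StRB) (h3 : StCV) (h4 : StLD) (h5 : HL.StNB) : StI1 := by
  intro g hg f hf _ _ _ P hI z hz hzN
  obtain ⟨i, ρ, hLD, hroot, -⟩ := h4 P
  obtain ⟨hIm, hIi, hId⟩ := hI
  have hinj : Function.Injective (algebraMap ℤ_[(P : ℕ)] ℚ_[(P : ℕ)]) :=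
    IsFractionRing.injective _ _
  have hirr : Irreducible ((f.map i).map ρ) := by rw [hLD.map_red]; exact hIi
  have hg₀ : (f.map i).Monic := hf.map i
  have hgdeg : (f.map i).natDegree = 2 * g + 1 := by
    rw [hf.natDegree_map, ← hId, hf.natDegree_map]
  have hd : tk ℚ_[(P : ℕ)] (f.map i) ∣ (fK f).map (algebraMap ℚ ℚ_[(P : ℕ)]) := by
    rw [hLD.map f]
  have hRA := h1 ℤ_[(P : ℕ)] ℚ_[(P : ℕ)] (kp P) (i (pz P)) ρ hLD.unif hLD.surj hLD.ker
    (f.map i) hg₀ hirr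
  have hRB := h2 ℤ_[(P : ℕ)] ℚ_[(P : ℕ)] (kp P) (i (pz P)) ρ hLD.unif hLD.surj hLD.ker
    (f.map i) hg₀ hirr
  have _ : Fact (Irreducible (tk ℚ_[(P : ℕ)] (f.map i))) := ⟨hRA.irr⟩
  have _ : Fact (Irreducible ((f.map i).map ρ)) := ⟨hirr⟩
  have hπ0 : algebraMap ℤ_[(P : ℕ)] ℚ_[(P : ℕ)] (i (pz P)) ≠ 0 := by
    rw [Ne, ← map_zero (algebraMap ℤ_[(P : ℕ)] ℚ_[(P : ℕ)]), hinj.eq_iff]
    exact hLD.unif.ne_zero
  set j := algebraMap ℚ ℚ_[(P : ℕ)] with hj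
  -- the element
  have hw0 : pr hd (baseChange j (fK f) z) ≠ 0 :=
    (_root_.map_ne_zero ((pr hd).comp (baseChange j (fK f)))).2 hz
  obtain ⟨e, s, hs⟩ := hRA.ex _ hw0
  -- the norm
  have hnorm : Algebra.norm ℚ_[(P : ℕ)] (pr hd (baseChange j (fK f) z)) =
      j (Algebra.norm ℚ z) := by
    obtain ⟨p, rfl⟩ := AdjoinRoot.mk_surjective z
    have h9 := h5 ℚ ℚ_[(P : ℕ)] j (fK f) p (hf.map _)
    rw [norm_I1]
    refine Eq.trans ?_ h9.symm
    have h8 : baseChange j (fK f) (AdjoinRoot.mk (fK f) p) =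
        AdjoinRoot.mk ((fK f).map j) (p.map j) := by
      rw [baseChange, AdjoinRoot.map, AdjoinRoot.lift_mk, ← Polynomial.eval₂_map,
        ← AdjoinRoot.aeval_eq, Polynomial.aeval_def]
      rfl
    rw [h8, pr_mk, hLD.map f]
  obtain ⟨c, hc1, hc2⟩ := hRB.norm _ _ _ hs
  have hsN : Algebra.norm (kp P) s ≠ 0 := by
    rw [Ne, Algebra.norm_eq_zero_iff_of_basis (AdjoinRoot.powerBasis hirr.ne_zero).basis]
    exact hs.1
  have hcπ : ¬ i (pz P) ∣ c := by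
    rw [← hLD.ker, hc1]
    exact hsN
  obtain ⟨y, hy⟩ := hzN
  have hjy : algebraMap ℤ_[(P : ℕ)] ℚ_[(P : ℕ)] (i (pz P)) ^ (e * (f.map i).natDegree) *
      algebraMap ℤ_[(P : ℕ)] ℚ_[(P : ℕ)] c = j y * j y := by
    rw [← hc2, hnorm, hy, map_mul]
  have hy0 : j y ≠ 0 := by
    intro h0
    rw [h0, mul_zero] at hjy
    rcases mul_eq_zero.1 hjy with h8 | h8
    · exact zpow_ne_zero _ hπ0 h8
    · rw [← map_zero (algebraMap ℤ_[(P : ℕ)] ℚ_[(P : ℕ)]), hinj.eq_iff] at h8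
      exact hcπ (h8 ▸ dvd_zero _)
  obtain ⟨a, u, hu⟩ := exists_unit_I1 (O := ℤ_[(P : ℕ)]) hLD.unif hy0
  have hjy2 : algebraMap ℤ_[(P : ℕ)] ℚ_[(P : ℕ)] (i (pz P)) ^ (e * (f.map i).natDegree) *
      algebraMap ℤ_[(P : ℕ)] ℚ_[(P : ℕ)] c =
      algebraMap ℤ_[(P : ℕ)] ℚ_[(P : ℕ)] (i (pz P)) ^ (a + a) *
        algebraMap ℤ_[(P : ℕ)] ℚ_[(P : ℕ)] ((u : ℤ_[(P : ℕ)]) * u) := by
    rw [hjy, hu, zpow_add₀ hπ0, map_mul]
    ring
  obtain ⟨he, hcu⟩ := unit_uniq_I1 hLD.unif hcπ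
    (fun h => hLD.unif.not_isUnit (isUnit_of_dvd_unit h (u.isUnit.mul u.isUnit))) hjy2
  have heven : Even e := by
    rw [hgdeg] at he
    push_cast at he
    have h8 : Even (e * (2 * (g : ℤ) + 1)) := ⟨a, he⟩
    rw [Int.even_mul] at h8
    rcases h8 with h8 | h8
    · exact h8
    · exact absurd h8 (by rw [Int.not_even_iff_odd]; exact ⟨g, rfl⟩)
  intro q hq
  have h8 := h3 f hf P ℤ_[(P : ℕ)] ℚ_[(P : ℕ)] i j ρ hLD (f.map i) hg₀ hirr dvd_rfl hd f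
    (hLD.map_red f).symm q hq (by rw [AdjoinRoot.mk_self]; exact q.asIdeal.zero_mem) z e s hs
  unfold EvenAt
  rw [h8]
  obtain ⟨m, hm⟩ := heven
  exact ⟨WithZero.exp (-m), by rw [← WithZero.exp_add]; congr 1; omega⟩

end Pool.Agent.Helper54.HQ
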