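import Pool.Agent.Helper54.HQ.Base
import Pool.Agent.Helper54.HL.St

/-!
# HY, local part: module IN, the induction over the descent group
-/

set_option autoImplicit false

namespace Pool.Agent.Helper54.HQ

open Polynomial IsDedekindDomain
open Pool.Agent.Helper3.HY (co tau Ix nu TType IType baseChange descentGroup IsPointValue IsTwPoint
  twGroup co_mk sum_co ext_co co_eq_zero)
open Pool.Agent.Helper54.HL (tk IrrInt IrrBig Nr Rep RepA RepB pr pr_mk IsTwIrr LinePt RootLift)

theorem nr_one_IN {O k : Type} [CommRing O] [Field k] [Algebra O k] (π : O) (h : k[X]) :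
    Nr π (1 : AdjoinRoot h) :=
  ⟨0, by simp⟩

theorem hIN (h1 : HL.StGE) (h2 : HL.StNG) (h3 : StDE) (h4 : StNO) : StIN := by
  intro f hf _ P O k _ _ _ _ _ _ i j ρ hLD D hD Cl hN hsq hgen z hz
  have hmap := hLD.map f
  obtain ⟨g1, g2, -⟩ := h2 O k (i (pz P)) hLD.unif (f.map i) (hf.map i) ((fK f).map j) hmap
  -- the group
  let G : Subgroup (AdjoinRoot ((fK f).map j))ˣ :=
    { carrier := {y | ∃ z ∈ Cl, Nr (i (pz P)) (baseChange j (fK f) (z : LL f) *
        ((y⁻¹ : (AdjoinRoot ((fK f).map j))ˣ) : AdjoinRoot ((fK f).map j)))}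
      one_mem' := ⟨1, Cl.one_mem, by
        rw [inv_one, Units.val_one, Units.val_one, map_one, mul_one]
        exact nr_one_IN _ _⟩
      mul_mem' := by
        rintro y y' ⟨z, hz, hy⟩ ⟨z', hz', hy'⟩
        refine ⟨z * z', Cl.mul_mem hz hz', ?_⟩
        have := g1 _ _ hy hy'
        rw [mul_inv, Units.val_mul, Units.val_mul, map_mul]
        have e : ∀ a b c d : AdjoinRoot ((fK f).map j), a * b * (c * d) = a * c * (b * d) := by
          intro a b c d; ring
        rw [e]
        exact this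
      inv_mem' := by
        rintro y ⟨z, hz, hy⟩
        refine ⟨z⁻¹, Cl.inv_mem hz, ?_⟩
        obtain ⟨w', hw, hw'⟩ := g2 _ hy
        have e1 : baseChange j (fK f) (z : LL f) * baseChange j (fK f) ((z⁻¹ : (LL f)ˣ) : LL f) =
            1 := by
          rw [← map_mul, Units.mul_inv, map_one]
        have e2 : ((y⁻¹ : (AdjoinRoot ((fK f).map j))ˣ) : AdjoinRoot ((fK f).map j)) *
            (y : AdjoinRoot ((fK f).map j)) = 1 := Units.inv_mul y
        have e3 : w' = baseChange j (fK f) ((z⁻¹ : (LL f)ˣ) : LL f) *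
            (y : AdjoinRoot ((fK f).map j)) := by
          calc w' = (baseChange j (fK f) (z : LL f) *
                baseChange j (fK f) ((z⁻¹ : (LL f)ˣ) : LL f)) *
                (((y⁻¹ : (AdjoinRoot ((fK f).map j))ˣ) : AdjoinRoot ((fK f).map j)) *
                (y : AdjoinRoot ((fK f).map j))) * w' := by rw [e1, e2, one_mul, one_mul]
            _ = (baseChange j (fK f) (z : LL f) *
                ((y⁻¹ : (AdjoinRoot ((fK f).map j))ˣ) : AdjoinRoot ((fK f).map j)) * w') *
                (baseChange j (fK f) ((z⁻¹ : (LL f)ˣ) : LL f) *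
                (y : AdjoinRoot ((fK f).map j))) := by ring
            _ = _ := by rw [hw, one_mul]
        rw [inv_inv, ← e3]
        exact hw' }
  have hG : twGroup ((fK f).map j) D ≤ G := by
    refine h1 k ((fK f).map j) D hD G ?_ ?_
    · intro y hy
      exact hgen (y : AdjoinRoot ((fK f).map j))
        ((y⁻¹ : (AdjoinRoot ((fK f).map j))ˣ) : AdjoinRoot ((fK f).map j)) (Units.mul_inv y) hy
    · intro y
      obtain ⟨z, hz0, hz⟩ := h3 f hf P O k i j ρ hLD (y : AdjoinRoot ((fK f).map j))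
        ((y⁻¹ : (AdjoinRoot ((fK f).map j))ˣ) : AdjoinRoot ((fK f).map j)) (Units.mul_inv y)
      refine ⟨(Units.mk0 z hz0) ^ 2, hsq _, ?_⟩
      have := g1 _ _ hz hz
      rw [Units.val_pow_eq_pow_val, Units.val_mk0, map_pow, ← inv_pow, Units.val_pow_eq_pow_val]
      have e : ∀ a b : AdjoinRoot ((fK f).map j), a ^ 2 * b ^ 2 = a * b * (a * b) := by
        intro a b; ring
      rw [e]
      exact this
  obtain ⟨z₁, hz₁, hw⟩ := hG hz
  have hw2 : Nr (i (pz P)) (baseChange j (fK f) ((z₁ * z⁻¹ : (LL f)ˣ) : LL f)) := by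
    have e : baseChange j (fK f) ((z₁ * z⁻¹ : (LL f)ˣ) : LL f) =
        baseChange j (fK f) (z₁ : LL f) *
        (((Units.map (baseChange j (fK f) : LL f →* _) z)⁻¹ :
          (AdjoinRoot ((fK f).map j))ˣ) : AdjoinRoot ((fK f).map j)) := by
      rw [Units.val_mul, map_mul, ← map_inv]
      rfl
    rw [e]
    exact hw
  have hw3 := hN _ ((h4 f hf P O k i j ρ hLD _).2 hw2)
  have : z = (z₁ * z⁻¹)⁻¹ * z₁ := by
    rw [mul_inv, inv_inv, mul_comm, ← mul_assoc, mul_inv_cancel, one_mul]
  rw [this]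
  exact Cl.mul_mem (Cl.inv_mem hw3) hz₁

end Pool.Agent.Helper54.HQ
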