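import Pool.Agent.Helper54.HQ.StI

/-!
# HQ module Iso: polarisation
-/

set_option autoImplicit false

namespace Pool.Agent.Helper54.HQ

open Polynomial Finset IsDedekindDomain
open Pool.Agent.Helper3.HY (co tau Ix nu TType IType baseChange descentGroup IsPointValue IsTwPoint
  twGroup)

theorem hIso (h1 : StHm) (h2 : StHom) : StIso := by
  intro g H hg hH f hf _ _ _ T hT q hq z w hzn hwn hz hw hz2 hw2
  obtain ⟨c, hc⟩ := h1 g H hg hH f hf T hT q hq
  have hzw := hc (z * w) (by rw [Units.val_mul, map_mul]; exact hzn.mul hwn)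
    (by
      intro v hv
      have a := hz v hv
      have b := hw v hv
      unfold EvenAt at a b ⊢
      rw [Units.val_mul, map_mul]
      exact a.mul b)
    (by
      unfold At2 at hz2 hw2 ⊢
      rw [map_mul]
      exact mul_mem hz2 hw2)
  have e1 := hc z hzn hz hz2
  have e2 := hc w hwn hw hw2
  have key : ∑ P ∈ T, (om (q P) (z : LL f) * ep P (q P) (w : LL f) +
        om (q P) (w : LL f) * ep P (q P) (z : LL f)) =
      ∑ P ∈ T, om (q P) ((z * w : (LL f)ˣ) : LL f) *
          (ep P (q P) ((z * w : (LL f)ˣ) : LL f) + c P) -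
        ∑ P ∈ T, om (q P) (z : LL f) * (ep P (q P) (z : LL f) + c P) -
        ∑ P ∈ T, om (q P) (w : LL f) * (ep P (q P) (w : LL f) + c P) := by
    rw [← Finset.sum_sub_distrib, ← Finset.sum_sub_distrib]
    refine Finset.sum_congr rfl fun P hP => ?_
    obtain ⟨k1, k2⟩ := h2 g hg f hf.1 P (hT P hP).1 (hT P hP).2 (q P) (hq P hP) z w z.ne_zero
      w.ne_zero
    rw [Units.val_mul, k1, k2]
    ring
  rw [key, hzw, e1, e2]
  ring

end Pool.Agent.Helper54.HQ
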