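import Pool.Agent.Helper54.HQ.Base
import Pool.Agent.Helper54.HL.St
import Mathlib.NumberTheory.Padics.RingHoms
import Mathlib.NumberTheory.Padics.ProperSpace

/-!
# HQ: local data at a prime (module LD)
-/

set_option autoImplicit false

namespace Pool.Agent.Helper54.HQ

open Polynomial IsDedekindDomain
open Pool.Agent.Helper54.HL (tk IrrInt IrrBig Nr Rep RepA RepB pr pr_mk IsTwIrr LinePt RootLift)

private lemma norm_le_one_LD (p : ℕ) [Fact p.Prime] (x : ℚ_[p]) :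
    ‖x‖ ≤ 1 ↔ ∃ c : ℤ_[p], algebraMap ℤ_[p] ℚ_[p] c = x := by
  constructor
  · intro h
    exact ⟨⟨x, h⟩, rfl⟩
  · rintro ⟨c, rfl⟩
    exact c.2

private lemma ker_LD (p : ℕ) [Fact p.Prime] (c : ℤ_[p]) :
    PadicInt.toZMod c = 0 ↔ (((p : ℕ) : ℤ) : ℤ_[p]) ∣ c := by
  rw [← RingHom.mem_ker, PadicInt.ker_toZMod, PadicInt.maximalIdeal_eq_span_p,
    Ideal.mem_span_singleton, Int.cast_natCast]

private lemma local_LD (P : Prm) :
    LD P (Int.castRingHom ℤ_[(P : ℕ)]) (algebraMap ℚ ℚ_[(P : ℕ)])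
      (PadicInt.toZMod : ℤ_[(P : ℕ)] →+* ZMod (P : ℕ)) where
  comp := by
    intro a
    rw [eq_intCast, eq_intCast, map_intCast, map_intCast]
  unif := by
    rw [eq_intCast, Int.cast_natCast]
    exact PadicInt.irreducible_p
  rho := by
    intro a
    rw [eq_intCast, eq_intCast, map_intCast]
  ker := by
    intro c
    rw [eq_intCast]
    exact ker_LD (P : ℕ) c
  dense := by
    intro c n
    refine ⟨(PadicInt.appr c n : ℤ), ?_⟩
    rw [eq_intCast, eq_intCast, Int.cast_natCast, Int.cast_natCast,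
      ← Ideal.mem_span_singleton]
    exact PadicInt.appr_spec n c

theorem hLD (h1 : HL.StLDI) (h2 : HL.StLDP) (h3 : HL.StLDR) : StLD := by
  intro P
  have hLD := local_LD P
  have hO := norm_le_one_LD (P : ℕ)
  refine ⟨Int.castRingHom ℤ_[(P : ℕ)], PadicInt.toZMod, hLD, ?_, ?_⟩
  · exact h3 ℤ_[(P : ℕ)] ℚ_[(P : ℕ)] (kp P) hO _ hLD.unif PadicInt.toZMod hLD.surj hLD.ker
  · intro U hU hirr
    rcases h1 ℤ_[(P : ℕ)] ℚ_[(P : ℕ)] hO _ hLD.unif U hU hirr with ⟨U₀, hU₀, rfl⟩ | h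
    · left
      obtain ⟨ψ, n, hψ⟩ := h2 ℤ_[(P : ℕ)] ℚ_[(P : ℕ)] (kp P) hO _ hLD.unif PadicInt.toZMod
        hLD.surj hLD.ker U₀ hU₀ hirr
      exact ⟨U₀, hU₀, rfl, ψ, n, hψ⟩
    · exact Or.inr h

end Pool.Agent.Helper54.HQ
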