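import Pool.Agent.Helper54.HQ.StR

/-!
# HQ: Me, the real matrix of the canonical metric
-/

set_option autoImplicit false

namespace Pool.Agent.Helper54.HQ

open Polynomial Finset Filter Topology Matrix IsDedekindDomain
open Pool.Agent.Helper3.HY (co tau Ix nu TType IType rho2 exc Adm Gm)
open Pool.Agent.Helper3

private lemma aeval_conj_Me (f : ℤ[X]) (ρ : ℂ) :
    aeval ((starRingEnd ℂ) ρ) f = (starRingEnd ℂ) (aeval ρ f) := by
  rw [aeval_def, aeval_def, Polynomial.hom_eval₂]
  congr 1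
  exact (RingHom.ext_int _ _)

private lemma mem_rts_Me {f : ℤ[X]} (hm : f.Monic) (ρ : ℂ) : ρ ∈ rts f ↔ aeval ρ f = 0 := by
  have h0 : f.map (Int.castRingHom ℂ) ≠ 0 := (hm.map _).ne_zero
  rw [rts, Multiset.mem_toFinset, mem_roots h0, IsRoot, eval_map, aeval_def]
  rfl

private lemma conj_mem_rts_Me {f : ℤ[X]} (hm : f.Monic) {ρ : ℂ} (h : ρ ∈ rts f) :
    (starRingEnd ℂ) ρ ∈ rts f := by
  rw [mem_rts_Me hm] at h ⊢
  rw [aeval_conj_Me, h, map_zero]

private lemma sum_rts_conj_Me {f : ℤ[X]} (hm : f.Monic) (F : ℂ → ℂ) :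
    ∑ ρ ∈ rts f, F ((starRingEnd ℂ) ρ) = ∑ ρ ∈ rts f, F ρ := by
  refine Finset.sum_nbij' (fun ρ => (starRingEnd ℂ) ρ) (fun ρ => (starRingEnd ℂ) ρ)
    (fun ρ h => conj_mem_rts_Me hm h) (fun ρ h => conj_mem_rts_Me hm h)
    (fun ρ _ => Complex.conj_conj ρ) (fun ρ _ => Complex.conj_conj ρ) (fun ρ _ => rfl)

theorem hMe (h1 : StMa) (h2 : StMb) : StMe := by
  classical
  intro g f hm hdeg hirr z hz e hdet
  have hN : 1 ≤ f.natDegree := by omega
  obtain ⟨hlin, hmul, hth, hroot, hconj⟩ := h1 f hm hN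
  obtain ⟨hcard, hder, htau⟩ := h2 f hm hN hirr.separable
  have hc : Fintype.card (Ix g) = Fintype.card (rts f) := by
    rw [Fintype.card_fin, Fintype.card_coe, hcard, hdeg]
  let σ : Ix g ≃ rts f := Fintype.equivOfCardEq hc
  set R : Ix g → ℂ := fun k => (σ k : ℂ) with hR
  have hRm : ∀ k, R k ∈ rts f := fun k => (σ k).2
  have hsumC : ∀ F : ℂ → ℂ, ∑ ρ ∈ rts f, F ρ = ∑ k, F (R k) := by
    intro F
    rw [← Finset.sum_coe_sort (rts f) F]
    exact (Equiv.sum_comp σ (fun ρ : rts f => F ρ)).symm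
  have hsumR : ∀ F : ℂ → ℝ, ∑ ρ ∈ rts f, F ρ = ∑ k, F (R k) := by
    intro F
    rw [← Finset.sum_coe_sort (rts f) F]
    exact (Equiv.sum_comp σ (fun ρ : rts f => F ρ)).symm
  set V : Matrix (Ix g) (Ix g) ℂ := Matrix.of fun k i => evc hm (R k) (e i) with hV
  set wt : ℂ → ℝ := fun ρ => ‖evc hm ρ z‖ / ‖aeval ρ (derivative f)‖ with hwt
  set w : Ix g → ℝ := fun k => wt (R k) with hw
  set S : Matrix (Ix g) (Ix g) ℝ :=
    Matrix.of fun i j => ∑ k, w k * ((starRingEnd ℂ) (V k i) * V k j).re with hS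
  -- the Gram matrix
  set B : Matrix (Ix g) (Ix g) ℚ := Matrix.of fun i j => Bf hm z (e i) (e j) with hB
  have hBV : B.map (algebraMap ℚ ℂ) = Vᵀ * Matrix.diagonal
      (fun k => evc hm (R k) z / aeval (R k) (derivative f)) * V := by
    ext i j
    rw [Matrix.map_apply, Matrix.mul_apply]
    have h3 : (algebraMap ℚ ℂ) (B i j) =
        ((tau (hm.map (Int.castRingHom ℚ)) (z * e i * e j) : ℚ) : ℂ) := rfl
    rw [h3, htau, hsumC]
    apply Finset.sum_congr rfl
    intro k _
    rw [Matrix.mul_diagonal, Matrix.transpose_apply, hmul _ (hRm k), hmul _ (hRm k)]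
    simp only [hV, Matrix.of_apply]
    ring
  have hdetB : (algebraMap ℚ ℂ) B.det = V.det * (∏ k, (evc hm (R k) z /
      aeval (R k) (derivative f))) * V.det := by
    have h3 := congrArg Matrix.det hBV
    rw [Matrix.det_mul, Matrix.det_mul, Matrix.det_diagonal, Matrix.det_transpose] at h3
    rw [← h3, RingHom.map_det]
    rfl
  have hnorm : ‖V.det‖ * (∏ k, w k) * ‖V.det‖ = 1 := by
    have h3 := congrArg norm hdetB
    rw [norm_mul, norm_mul, norm_prod] at h3
    have h4 : ‖(algebraMap ℚ ℂ) B.det‖ = 1 := by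
      have h5 : (algebraMap ℚ ℂ) B.det = ((B.det : ℚ) : ℂ) := rfl
      rw [h5, Complex.norm_ratCast]
      have h6 : |B.det| = 1 := hdet
      exact_mod_cast h6
    rw [h4] at h3
    rw [h3]
    congr 2
    apply Finset.prod_congr rfl
    intro k _
    rw [norm_div]
  have hVdet : V.det ≠ 0 := by
    intro h
    rw [h, norm_zero] at hnorm
    simp at hnorm
  have hw0 : ∀ k, 0 ≤ w k := fun k => by positivity
  have hwpos : ∀ k, 0 < w k := by
    intro k
    refine lt_of_le_of_ne (hw0 k) ?_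
    intro h
    have h3 : ∏ k, w k = 0 := Finset.prod_eq_zero (Finset.mem_univ k) h.symm
    rw [h3] at hnorm
    simp at hnorm
  -- the real form
  have hq : ∀ x : Ix g → ℝ, x ⬝ᵥ S *ᵥ x = ∑ k, w k * ‖∑ i, (x i : ℂ) * V k i‖ ^ 2 := by
    intro x
    have h3 : ∀ k, ‖∑ i, (x i : ℂ) * V k i‖ ^ 2 =
        ∑ i, ∑ j, x i * x j * ((starRingEnd ℂ) (V k i) * V k j).re := by
      intro k
      rw [← Complex.normSq_eq_norm_sq, ← Complex.ofReal_re (Complex.normSq _),
        Complex.normSq_eq_conj_mul_self, map_sum, Finset.sum_mul_sum, Complex.re_sum]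
      apply Finset.sum_congr rfl
      intro i _
      rw [Complex.re_sum]
      apply Finset.sum_congr rfl
      intro j _
      rw [map_mul, Complex.conj_ofReal,
        show (x i : ℂ) * (starRingEnd ℂ) (V k i) * ((x j : ℂ) * V k j) =
          ((x i * x j : ℝ) : ℂ) * ((starRingEnd ℂ) (V k i) * V k j) by push_cast; ring,
        Complex.re_ofReal_mul]
    simp only [h3]
    have h4 : ∑ k, w k * ∑ i, ∑ j, x i * x j * ((starRingEnd ℂ) (V k i) * V k j).re =
        ∑ i, ∑ j, ∑ k, w k * (x i * x j * ((starRingEnd ℂ) (V k i) * V k j).re) := by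
      simp only [Finset.mul_sum]
      rw [Finset.sum_comm]
      apply Finset.sum_congr rfl
      intro i _
      rw [Finset.sum_comm]
    rw [h4, dotProduct]
    apply Finset.sum_congr rfl
    intro i _
    rw [Matrix.mulVec, dotProduct, Finset.mul_sum]
    apply Finset.sum_congr rfl
    intro j _
    simp only [hS, Matrix.of_apply]
    rw [Finset.sum_mul, Finset.mul_sum]
    apply Finset.sum_congr rfl
    intro k _
    ring
  -- symmetry
  have hSsymm : S.IsHermitian := by
    ext i j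
    simp only [Matrix.conjTranspose_apply, hS, Matrix.of_apply, star_trivial]
    apply Finset.sum_congr rfl
    intro k _
    congr 1
    rw [← Complex.conj_re ((starRingEnd ℂ) (V k j) * V k i), map_mul, Complex.conj_conj,
      mul_comm]
  have hpos : S.PosDef := by
    refine Matrix.PosDef.of_dotProduct_mulVec_pos hSsymm ?_
    intro x hx
    rw [star_trivial, hq]
    have hne : (V *ᵥ fun i => (x i : ℂ)) ≠ 0 := by
      intro h
      have h3 := Matrix.eq_zero_of_mulVec_eq_zero hVdet h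
      apply hx
      ext i
      have := congrFun h3 i
      simpa using this
    obtain ⟨k, hk⟩ := Function.ne_iff.1 hne
    apply Finset.sum_pos'
    · intro k _
      have := hw0 k
      positivity
    · refine ⟨k, Finset.mem_univ k, ?_⟩
      have h3 : ∑ i, (x i : ℂ) * V k i = (V *ᵥ fun i => (x i : ℂ)) k := by
        rw [Matrix.mulVec, dotProduct]
        apply Finset.sum_congr rfl
        intro i _
        ring
      rw [h3]
      have h4 : 0 < ‖(V *ᵥ fun i => (x i : ℂ)) k‖ := norm_pos_iff.2 hk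
      have := hwpos k
      positivity
  -- the determinant
  have hSV : S.map (algebraMap ℝ ℂ) = Vᴴ * Matrix.diagonal (fun k => (w k : ℂ)) * V := by
    ext i j
    rw [Matrix.map_apply, Matrix.mul_apply]
    set F : ℂ → ℂ := fun ρ => (starRingEnd ℂ) (evc hm ρ (e i)) * (wt ρ : ℂ) * evc hm ρ (e j)
      with hF
    have h3 : ∑ k, (Vᴴ * Matrix.diagonal (fun k => (w k : ℂ))) i k * V k j =
        ∑ ρ ∈ rts f, F ρ := by
      rw [hsumC]
      apply Finset.sum_congr rfl
      intro k _
      rw [Matrix.mul_diagonal, Matrix.conjTranspose_apply]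
      rfl
    rw [h3]
    have h4 : (starRingEnd ℂ) (∑ ρ ∈ rts f, F ρ) = ∑ ρ ∈ rts f, F ρ := by
      rw [map_sum, ← sum_rts_conj_Me hm F]
      apply Finset.sum_congr rfl
      intro ρ _
      simp only [hF, hwt]
      rw [hconj, hconj, hconj, aeval_conj_Me, RCLike.norm_conj, RCLike.norm_conj, map_mul,
        map_mul, Complex.conj_ofReal]
    have h5 : (algebraMap ℝ ℂ) (S i j) = (((∑ ρ ∈ rts f, F ρ).re : ℝ) : ℂ) := by
      change ((S i j : ℝ) : ℂ) = _
      congr 1
      rw [hsumC, Complex.re_sum]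
      simp only [hS, Matrix.of_apply]
      apply Finset.sum_congr rfl
      intro k _
      rw [hF]
      simp only
      rw [show (starRingEnd ℂ) (evc hm (R k) (e i)) * (wt (R k) : ℂ) * evc hm (R k) (e j) =
        (wt (R k) : ℂ) * ((starRingEnd ℂ) (evc hm (R k) (e i)) * evc hm (R k) (e j)) by ring,
        Complex.re_ofReal_mul]
      rfl
    rw [h5]
    exact Complex.conj_eq_iff_re.1 h4
  have hdetS : S.det = 1 := by
    have h3 := congrArg Matrix.det hSV
    rw [Matrix.det_mul, Matrix.det_mul, Matrix.det_diagonal, Matrix.det_conjTranspose] at h3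
    have h4 : (S.map (algebraMap ℝ ℂ)).det = ((S.det : ℝ) : ℂ) := by
      have := (RingHom.map_det (algebraMap ℝ ℂ) S).symm
      exact this
    rw [h4] at h3
    have h5 : (star V.det * ∏ k, (w k : ℂ)) * V.det =
        ((‖V.det‖ * (∏ k, w k) * ‖V.det‖ : ℝ) : ℂ) := by
      push_cast
      have h6 : star V.det * V.det = ((‖V.det‖ : ℝ) : ℂ) ^ 2 := by
        have := Complex.conj_mul' V.det
        exact this
      calc (star V.det * ∏ k, (w k : ℂ)) * V.det = (star V.det * V.det) * ∏ k, (w k : ℂ) := by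
            ring
        _ = _ := by rw [h6]; ring
    rw [h5, hnorm] at h3
    exact_mod_cast h3
  refine ⟨S, hpos, hdetS, ?_⟩
  intro x
  rw [qS, hq]
  have hev : ∀ ρ : ℂ, evc hm ρ (∑ i, (x i : ℚ) • e i) = ∑ i, (x i : ℂ) * evc hm ρ (e i) := by
    intro ρ
    have h3 : ∀ s : Finset (Ix g), evc hm ρ (∑ i ∈ s, (x i : ℚ) • e i) =
        ∑ i ∈ s, (x i : ℂ) * evc hm ρ (e i) := by
      intro s
      induction s using Finset.induction_on with
      | empty =>
        rw [Finset.sum_empty, Finset.sum_empty]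
        have := (hlin ρ 0 0 0).2
        simpa using this
      | insert a s ha ih =>
        rw [Finset.sum_insert ha, Finset.sum_insert ha, (hlin ρ _ _ 0).1, ih, (hlin ρ _ 0 _).2]
        push_cast
        rfl
    exact h3 _
  rw [met, hsumR]
  apply Finset.sum_congr rfl
  intro k _
  rw [hev]
  simp only [hw, hwt, hV, Matrix.of_apply]
  push_cast
  ring

end Pool.Agent.Helper54.HQ
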