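import Pool.Agent.Helper54.HQ.StR
import Pool.Agent.Helper54.HQ.Base

/-!
# HQ: Mf, algebra of integral structures
-/

set_option autoImplicit false

namespace Pool.Agent.Helper54.HQ

open Polynomial Finset Filter Topology Matrix IsDedekindDomain
open Pool.Agent.Helper3.HY (co tau Ix nu TType IType rho2 exc Adm Gm co_mk)
open Pool.Agent.Helper3

theorem hMf : StMf := by
  classical
  intro g f hm hdeg hirr z e B T hI
  obtain ⟨hgram, hunit, hmat⟩ := hI
  have hmK : (fK f).Monic := hm.map _
  have hsym : ∀ i j, B i j = B j i := by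
    intro i j
    have h1 : ((B i j : ℤ) : ℚ) = ((B j i : ℤ) : ℚ) := by
      rw [← hgram, ← hgram, Bf_apply, Bf_apply, mul_right_comm]
    exact_mod_cast h1
  have hBsymm : B.IsSymm := by
    ext i j
    exact hsym j i
  have hBT : ∀ i j, Bf hm z (th f * e i) (e j) = (((B * T) i j : ℤ) : ℚ) := by
    intro i j
    have h1 : Bf hm z (th f * e i) (e j) = Bf hm z (e i) (th f * e j) := by
      rw [Bf_apply, Bf_apply]
      congr 1
      ring
    rw [h1, hmat, map_sum, Matrix.mul_apply]
    push_cast
    apply Finset.sum_congr rfl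
    intro k _
    rw [map_smul, hgram, smul_eq_mul]
    ring
  have hBTsymm : (B * T).IsSymm := by
    ext i j
    have h1 : (((B * T) j i : ℤ) : ℚ) = (((B * T) i j : ℤ) : ℚ) := by
      rw [← hBT, ← hBT, Bf_apply, Bf_apply]
      congr 1
      ring
    exact_mod_cast h1
  -- the characteristic polynomial
  have hTmat : T.map (Int.castRingHom ℚ) =
      LinearMap.toMatrix e e (LinearMap.mulLeft ℚ (th f)) := by
    ext i j
    rw [LinearMap.toMatrix_apply, LinearMap.mulLeft_apply, hmat, map_sum, Finsupp.finsetSum_apply]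
    simp [Finsupp.single_apply]
  have hchar : T.charpoly = f := by
    apply Polynomial.map_injective (Int.castRingHom ℚ) Int.cast_injective
    have hfin : Module.Finite ℚ (AdjoinRoot (fK f)) := Module.Finite.of_basis e
    rw [← Matrix.charpoly_map, hTmat, LinearMap.charpoly_toMatrix]
    set pb := AdjoinRoot.powerBasis hirr.ne_zero with hpb
    have h1 := charpoly_leftMulMatrix pb
    rw [hpb, AdjoinRoot.powerBasis_gen] at h1
    rw [AdjoinRoot.minpoly_root hirr.ne_zero, hmK.leadingCoeff, inv_one, C_1, mul_one] at h1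
    rw [Algebra.leftMulMatrix_apply, LinearMap.charpoly_toMatrix] at h1
    exact h1
  refine ⟨hBsymm, hBTsymm, hchar, ?_, hBT⟩
  rw [IsChi]
  have h1 : ((X : ℤ[X]) • (B, B * T).1.map (C : ℤ → ℤ[X]) - (B, B * T).2.map (C : ℤ → ℤ[X])) =
      B.map (C : ℤ → ℤ[X]) * T.charmatrix := by
    rw [Matrix.charmatrix, mul_sub, Matrix.map_mul]
    congr 1
    rw [Matrix.scalar_apply, ← Matrix.smul_one_eq_diagonal, Matrix.mul_smul, mul_one]
  rw [h1, Matrix.det_mul, ← Matrix.charpoly, hchar]
  congr 1
  exact (RingHom.map_det (C : ℤ →+* ℤ[X]) B)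

end Pool.Agent.Helper54.HQ
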