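import Pool.Agent.Helper54.HQ.StR
import Pool.Agent.Helper54.HQ.Base

/-!
# HQ: Mg, change of basis
-/

set_option autoImplicit false

namespace Pool.Agent.Helper54.HQ

open Polynomial Finset Filter Topology Matrix IsDedekindDomain
open Pool.Agent.Helper3.HY (co tau Ix nu TType IType rho2 exc Adm Gm co_mk)
open Pool.Agent.Helper3

theorem hMg : StMg := by
  classical
  intro g f hm hdeg hirr z e B T U hI hU
  obtain ⟨hgram, hunit, hmat⟩ := hI
  set UQ : Matrix (Ix g) (Ix g) ℚ := U.map (Int.castRingHom ℚ) with hUQ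
  have hUQdet : IsUnit UQ.det := by
    have h1 : UQ.det = Int.castRingHom ℚ U.det := by
      rw [RingHom.map_det]
      rfl
    rw [h1]
    exact hU.map _
  set e' : Module.Basis (Ix g) ℚ (LL f) := e.map (Matrix.toLinearEquiv e UQ hUQdet) with he'
  have he'j : ∀ j, e' j = ∑ i, ((U i j : ℤ) : ℚ) • e i := by
    intro j
    rw [he', Module.Basis.map_apply, Matrix.toLinearEquiv_apply, Matrix.toLin_self]
    rfl
  set T' : Matrix (Ix g) (Ix g) ℤ := U⁻¹ * T * U with hT'
  have hUT : U * T' = T * U := by
    rw [hT', ← mul_assoc, ← mul_assoc, Matrix.mul_nonsing_inv U hU, one_mul]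
  refine ⟨e', T', ⟨?_, ?_, ?_⟩, he'j, ?_⟩
  · intro i j
    rw [he'j, he'j, map_sum]
    have h1 : (((Uᵀ * B * U) i j : ℤ) : ℚ) =
        ∑ l, ∑ k, ((U k i : ℤ) : ℚ) * ((B k l : ℤ) : ℚ) * ((U l j : ℤ) : ℚ) := by
      rw [Matrix.mul_apply]
      push_cast
      apply Finset.sum_congr rfl
      intro l _
      rw [Matrix.mul_apply]
      push_cast
      rw [Finset.sum_mul]
      rfl
    rw [h1]
    apply Finset.sum_congr rfl
    intro l _
    rw [map_smul, map_sum, LinearMap.sum_apply, Finset.smul_sum]
    apply Finset.sum_congr rfl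
    intro k _
    rw [map_smul, LinearMap.smul_apply, hgram, smul_eq_mul, smul_eq_mul]
    ring
  · rw [Matrix.det_mul, Matrix.det_mul, Matrix.det_transpose]
    exact (hU.mul hunit).mul hU
  · intro j
    rw [he'j, Finset.mul_sum]
    have h1 : ∀ k, ∑ i, (((U k i : ℤ) : ℚ) * ((T' i j : ℤ) : ℚ)) =
        ∑ i, (((T k i : ℤ) : ℚ) * ((U i j : ℤ) : ℚ)) := by
      intro k
      have h2 := congrFun (congrFun hUT k) j
      rw [Matrix.mul_apply, Matrix.mul_apply] at h2
      exact_mod_cast h2
    calc ∑ i, th f * (((U i j : ℤ) : ℚ) • e i)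
        = ∑ i, ∑ k, ((((T k i : ℤ) : ℚ) * ((U i j : ℤ) : ℚ)) • e k) := by
          apply Finset.sum_congr rfl
          intro i _
          rw [mul_smul_comm, hmat, Finset.smul_sum]
          apply Finset.sum_congr rfl
          intro k _
          rw [smul_smul, mul_comm]
      _ = ∑ k, (∑ i, (((T k i : ℤ) : ℚ) * ((U i j : ℤ) : ℚ))) • e k := by
          rw [Finset.sum_comm]
          apply Finset.sum_congr rfl
          intro k _
          rw [Finset.sum_smul]
      _ = ∑ k, (∑ i, (((U k i : ℤ) : ℚ) * ((T' i j : ℤ) : ℚ))) • e k := by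
          apply Finset.sum_congr rfl
          intro k _
          rw [h1]
      _ = ∑ i, ((T' i j : ℤ) : ℚ) • e' i := by
          simp only [Finset.sum_smul]
          rw [Finset.sum_comm]
          apply Finset.sum_congr rfl
          intro i _
          rw [he'j, Finset.smul_sum]
          apply Finset.sum_congr rfl
          intro k _
          rw [smul_smul, mul_comm]
  · rw [mul_assoc (Uᵀ * B) U T', hUT]
    simp only [mul_assoc]

end Pool.Agent.Helper54.HQ
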