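import Pool.Agent.Helper54.HQ.StR
import Pool.Agent.Helper54.HQ.Base

/-!
# HQ module Mh: the pair of an integral structure (assembly)
-/

set_option autoImplicit false

namespace Pool.Agent.Helper54.HQ

open Polynomial Finset Filter Topology Matrix IsDedekindDomain
open Pool.Agent.Helper3.HY (co tau Ix nu TType IType rho2 exc Adm Gm)

/-- The form on integral combinations of the basis. -/
private theorem form_Mh {g : ℕ} {f : ℤ[X]} (hm : f.Monic) (z : LL f)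
    (e : Module.Basis (Ix g) ℚ (LL f)) (B T : Matrix (Ix g) (Ix g) ℤ) (hI : IsInt hm z e B T)
    (x y : Ix g → ℤ) :
    Bf hm z (∑ i, (x i : ℚ) • e i) (∑ j, (y j : ℚ) • e j) = ((x ⬝ᵥ B *ᵥ y : ℤ) : ℚ) := by
  have h1 : ∀ j, Bf hm z (∑ i, (x i : ℚ) • e i) ((y j : ℚ) • e j) =
      ∑ i, (x i : ℚ) * ((B i j : ℚ) * (y j : ℚ)) := by
    intro j
    rw [LinearMap.map_smul, LinearMap.map_sum₂, smul_eq_mul, Finset.mul_sum]
    refine Finset.sum_congr rfl fun i _ => ?_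
    rw [LinearMap.map_smul₂, hI.gram, smul_eq_mul]
    ring
  rw [map_sum, Finset.sum_congr rfl fun j _ => h1 j, Finset.sum_comm]
  simp only [dotProduct, mulVec]
  push_cast
  refine Finset.sum_congr rfl fun i _ => ?_
  rw [Finset.mul_sum]

/-- The coordinates of `θ x`. -/
private theorem coord_Mh {g : ℕ} {f : ℤ[X]} (hm : f.Monic) (z : LL f)
    (e : Module.Basis (Ix g) ℚ (LL f)) (B T : Matrix (Ix g) (Ix g) ℤ) (hI : IsInt hm z e B T)
    (x : Ix g → ℤ) :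
    ∑ i, (((T *ᵥ x) i : ℤ) : ℚ) • e i = th f * ∑ i, (x i : ℚ) • e i := by
  rw [Finset.mul_sum]
  simp only [mul_smul_comm, hI.mat]
  simp only [Finset.smul_sum, smul_smul]
  rw [Finset.sum_comm]
  refine Finset.sum_congr rfl fun i _ => ?_
  rw [← Finset.sum_smul]
  congr 1
  simp only [mulVec, dotProduct]
  push_cast
  refine Finset.sum_congr rfl fun j _ => ?_
  ring

theorem hMh (h1 : StMd) (h2 : StMe) (h3 : StMf) (h4 : StMg) (h5 : StRh) : StMh := by
  intro g hg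
  obtain ⟨C, κ, hC, hRh⟩ := h5 g hg
  refine ⟨C, κ, hC, ?_⟩
  intro H hH f hf hm hirr z hz e B T hI
  have hdeg : f.natDegree = 2 * g + 1 := hf.2.1
  have hsep : (fK f).Separable := hirr.separable
  obtain ⟨hBs, hBTs, hchar, -, -⟩ := h3 g f hm hdeg hirr z e B T hI
  have hdet : |(Matrix.of fun i j => Bf hm z (e i) (e j)).det| = 1 := by
    have h6 : (Matrix.of fun i j => Bf hm z (e i) (e j)) = B.map (Int.castRingHom ℚ) := by
      ext i j
      rw [Matrix.of_apply, hI.gram, Matrix.map_apply, eq_intCast]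
    have h7 : (B.map (Int.castRingHom ℚ)).det = ((B.det : ℤ) : ℚ) := by
      have := (RingHom.map_det (Int.castRingHom ℚ) B).symm
      rw [RingHom.mapMatrix_apply] at this
      rw [this, eq_intCast]
    rw [h6, h7]
    rcases Int.isUnit_iff.1 hI.unit with h8 | h8 <;> rw [h8] <;> simp
  obtain ⟨S, hS, hS1, hSm⟩ := h2 g f hm hdeg hirr z hz e hdet
  obtain ⟨hd1, hd2⟩ := h1 (2 * g + 1) H (by omega) f hf hm hsep z
  have hc1 : ∀ x y : Ix g → ℤ, (((x ⬝ᵥ B *ᵥ y : ℤ)) : ℝ) ^ 2 ≤ qS S x * qS S y := by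
    intro x y
    rw [hSm, hSm]
    have h6 := hd1 (∑ i, (x i : ℚ) • e i) (∑ j, (y j : ℚ) • e j)
    rw [form_Mh hm z e B T hI] at h6
    have h7 : (((x ⬝ᵥ B *ᵥ y : ℤ) : ℚ) : ℝ) = ((x ⬝ᵥ B *ᵥ y : ℤ) : ℝ) := by norm_cast
    rw [h7] at h6
    exact h6
  have hc2 : ∀ x : Ix g → ℤ, qS S (T *ᵥ x) ≤ (2 * (H : ℝ)) ^ 2 * qS S x := by
    intro x
    rw [hSm, hSm, coord_Mh hm z e B T hI]
    exact hd2 _
  have hTi : Irreducible (T.charpoly.map (Int.castRingHom ℚ)) := by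
    rw [hchar]; exact hirr
  obtain ⟨U, m, hU, hDA, hBox, hcol, hcusp⟩ :=
    hRh H hH S B T hS hS1 hBs hI.unit hBTs hTi hc1 hc2
  obtain ⟨e', T', hI', he', hBT⟩ := h4 g f hm hdeg hirr z e B T U hI hU
  refine ⟨U, e', Uᵀ * B * U, T', m, hU, he', hI', hDA, ?_, ?_, ?_⟩
  · rw [hBT]; exact hBox
  · intro j
    have h6 := hcol j
    rw [hSm] at h6
    rw [he' j]
    exact h6
  · rw [hBT]; exact hcusp

end Pool.Agent.Helper54.HQ
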