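import Pool.Agent.Helper54.HQ.Base

/-! # HQ module OV: the order in `O[x] / f₀` and the valuation at `q` -/

set_option autoImplicit false

namespace Pool.Agent.Helper54.HQ

open Polynomial IsDedekindDomain
open Pool.Agent.Helper3.HY (baseChange)
open Pool.Agent.Helper54.HL (tk IrrInt IrrBig Nr Rep RepA RepB pr pr_mk IsTwIrr LinePt RootLift)

section OV

variable {f : ℤ[X]} {P : Prm} {O : Type} [CommRing O]

theorem red_eq_zero_OV (p : ℤ[X]) (h : p.map (red P) = 0) : ∃ b : ℤ[X], p = C (pz P) * b := by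
  have h1 : C (pz P) ∣ p := by
    rw [C_dvd_iff_dvd_coeff]
    intro i
    have h2 : (p.map (red P)).coeff i = 0 := by rw [h, coeff_zero]
    rw [coeff_map] at h2
    exact red_eq_zero.1 h2
  exact h1

theorem red_surj_OV (c : (kp P)[X]) : ∃ b : ℤ[X], b.map (red P) = c :=
  Polynomial.map_surjective (red P) (red_surj P) c

theorem mk_C_OV (a : ℤ) : AdjoinRoot.mk f (C a) = Int.castRingHom (RR f) a := by
  rw [AdjoinRoot.mk_C, of_eq_castRingHom]

/-- The map from `R` to `O[x] / f₀`. -/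
noncomputable def phi_OV (i : ℤ →+* O) (f : ℤ[X]) : RR f →+* AdjoinRoot (f.map i) :=
  AdjoinRoot.map i f (f.map i) dvd_rfl

theorem phi_mk_OV (i : ℤ →+* O) (p : ℤ[X]) :
    phi_OV i f (AdjoinRoot.mk f p) = AdjoinRoot.mk (f.map i) (p.map i) := by
  rw [phi_OV, AdjoinRoot.map, AdjoinRoot.lift_mk, ← Polynomial.eval₂_map,
    ← AdjoinRoot.aeval_eq, Polynomial.aeval_def]
  rfl

theorem phi_C_OV (i : ℤ →+* O) (a : ℤ) :
    phi_OV i f (Int.castRingHom (RR f) a) = algebraMap O (AdjoinRoot (f.map i)) (i a) := by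
  rw [← mk_C_OV, phi_mk_OV, Polynomial.map_C]
  rfl

variable {k : Type} [Field k] [Algebra O k] {i : ℤ →+* O} {j : ℚ →+* k}
  {ρ : O →+* kp P}

theorem rho_eq_zero_OV (hL : LD P i j ρ) (p : O[X]) (h : p.map ρ = 0) :
    ∃ b : O[X], p = C (i (pz P)) * b := by
  have h1 : C (i (pz P)) ∣ p := by
    rw [C_dvd_iff_dvd_coeff]
    intro l
    have h2 : (p.map ρ).coeff l = 0 := by rw [h, coeff_zero]
    rw [coeff_map] at h2
    exact (hL.ker _).1 h2
  exact h1

theorem i_inj_OV (hL : LD P i j ρ) : Function.Injective i := by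
  intro a b hab
  have h1 : j (Int.castRingHom ℚ a) = j (Int.castRingHom ℚ b) := by
    rw [← hL.comp, ← hL.comp, hab]
  exact Int.cast_injective (α := ℚ) (by simpa using j.injective h1)

/-- `1 - π b` is a unit. -/
theorem unit_OV [IsDomain O] [IsDiscreteValuationRing O] (hf : f.Monic) {π : O}
    (hπ : Irreducible π) (b : AdjoinRoot (f.map i)) :
    IsUnit (1 - algebraMap O (AdjoinRoot (f.map i)) π * b) := by
  have hfin : Module.Finite O (AdjoinRoot (f.map i)) := (hf.map i).finite_adjoinRoot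
  by_contra hu
  obtain ⟨M, hM, hmem⟩ := exists_max_ideal_of_mem_nonunits hu
  have h1 : (M.comap (algebraMap O (AdjoinRoot (f.map i)))).IsMaximal :=
    Ideal.isMaximal_comap_of_isIntegral_of_isMaximal M
  have h2 : π ∈ M.comap (algebraMap O (AdjoinRoot (f.map i))) := by
    rw [IsLocalRing.eq_maximalIdeal h1]
    exact (IsLocalRing.mem_maximalIdeal _).2 hπ.not_isUnit
  refine hM.ne_top ((Ideal.eq_top_iff_one _).2 ?_)
  have h3 := add_mem hmem (M.mul_mem_right b (Ideal.mem_comap.1 h2))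
  rwa [sub_add_cancel] at h3

/-- An ideal which is not contained in a prime above `P` contains an element which becomes a unit. -/
theorem exists_unit_OV [IsDomain O] [IsDiscreteValuationRing O] [IsDomain (RR f)] (hf : f.Monic)
    (hL : LD P i j ρ) (hP0 : Int.castRingHom (RR f) (pz P) ≠ 0) (J : Ideal (RR f))
    (hJ : ∀ q : HeightOneSpectrum (RR f), Over P q → ¬ J ≤ q.asIdeal) :
    ∃ c ∈ J, IsUnit (phi_OV i f c) := by
  have h1 : J ⊔ Ideal.span {Int.castRingHom (RR f) (pz P)} = ⊤ := by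
    by_contra hne
    obtain ⟨M, hM, hle⟩ := Ideal.exists_le_maximal _ hne
    have hPM : Int.castRingHom (RR f) (pz P) ∈ M :=
      hle (Ideal.mem_sup_right (Ideal.mem_span_singleton_self _))
    have hbot : M ≠ ⊥ := by
      rintro rfl
      exact hP0 (Ideal.mem_bot.1 hPM)
    exact hJ ⟨M, hM.isPrime, hbot⟩ hPM (le_sup_left.trans hle)
  have h2 : (1 : RR f) ∈ J ⊔ Ideal.span {Int.castRingHom (RR f) (pz P)} := by
    rw [h1]; exact Submodule.mem_top
  obtain ⟨c, hc, y, hy, hcy⟩ := Submodule.mem_sup.1 h2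
  obtain ⟨b, rfl⟩ := Ideal.mem_span_singleton.1 hy
  refine ⟨c, hc, ?_⟩
  rw [← eq_sub_iff_add_eq] at hcy
  rw [hcy, map_sub, map_one, map_mul, phi_C_OV]
  exact unit_OV hf hL.unif _

/-- Nonzero elements of `R` are nonzerodivisors in `O[x] / f₀`. -/
theorem nzd_OV [IsDomain O] [IsDomain (RR f)] (hf : f.Monic) (hL : LD P i j ρ) (x : RR f)
    (hx : x ≠ 0) : phi_OV i f x ∈ nonZeroDivisors (AdjoinRoot (f.map i)) := by
  have hfin : Module.Finite ℤ (RR f) := hf.finite_adjoinRoot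
  have hfree : Module.Free O (AdjoinRoot (f.map i)) := (hf.map i).free_adjoinRoot
  have h1 : (Ideal.span {x}).comap (algebraMap ℤ (RR f)) ≠ ⊥ :=
    Ideal.comap_ne_bot_of_integral_mem hx (Ideal.mem_span_singleton_self x)
      (Algebra.IsIntegral.isIntegral x)
  obtain ⟨a, ha, ha0⟩ := Submodule.exists_mem_ne_zero_of_ne_bot h1
  obtain ⟨y, hy⟩ := Ideal.mem_span_singleton.1 (Ideal.mem_comap.1 ha)
  rw [RingHom.ext_int (algebraMap ℤ (RR f)) (Int.castRingHom (RR f))] at hy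
  rw [mem_nonZeroDivisors_iff_right]
  intro w hw
  have h2 : i a • w = 0 := by
    rw [Algebra.smul_def, ← phi_C_OV, hy, map_mul, mul_comm (phi_OV i f x), mul_assoc,
      mul_comm (phi_OV i f x), hw, mul_zero]
  rcases smul_eq_zero.1 h2 with h3 | h3
  · exact absurd (i_inj_OV hL (h3.trans (map_zero i).symm)) ha0
  · exact h3

/-- The image of `R` is dense. -/
theorem dense_OV (hL : LD P i j ρ) (y : AdjoinRoot (f.map i)) :
    ∃ (r : RR f) (b : AdjoinRoot (f.map i)),
      y = phi_OV i f r + algebraMap O (AdjoinRoot (f.map i)) (i (pz P)) * b := by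
  obtain ⟨p, rfl⟩ := AdjoinRoot.mk_surjective y
  obtain ⟨p', hp'⟩ := red_surj_OV (P := P) (p.map ρ)
  obtain ⟨b, hb⟩ := rho_eq_zero_OV hL (p - p'.map i) (by
    rw [Polynomial.map_sub, hL.map_red, hp', sub_self])
  refine ⟨AdjoinRoot.mk f p', AdjoinRoot.mk _ b, ?_⟩
  rw [phi_mk_OV]
  change _ = _ + AdjoinRoot.mk (f.map i) (C (i (pz P))) * AdjoinRoot.mk (f.map i) b
  rw [← map_mul, ← hb, ← map_add, add_sub_cancel]

/-- `R / P` injects. -/
theorem inj_OV (hL : LD P i j ρ) (x : RR f) (b : AdjoinRoot (f.map i))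
    (h : phi_OV i f x = algebraMap O (AdjoinRoot (f.map i)) (i (pz P)) * b) :
    ∃ y : RR f, x = Int.castRingHom (RR f) (pz P) * y := by
  obtain ⟨p, rfl⟩ := AdjoinRoot.mk_surjective x
  obtain ⟨b', rfl⟩ := AdjoinRoot.mk_surjective b
  have h' : AdjoinRoot.mk (f.map i) (p.map i) =
      AdjoinRoot.mk (f.map i) (C (i (pz P))) * AdjoinRoot.mk (f.map i) b' := by
    rw [← phi_mk_OV]; exact h
  rw [← map_mul, AdjoinRoot.mk_eq_mk] at h'
  have h1 := Polynomial.map_dvd ρ h'
  rw [Polynomial.map_sub, Polynomial.map_mul, Polynomial.map_C, (hL.ker _).2 dvd_rfl, C_0,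
    zero_mul, sub_zero, hL.map_red, hL.map_red] at h1
  obtain ⟨c, hc⟩ := h1
  obtain ⟨c', hc'⟩ := red_surj_OV (P := P) c
  obtain ⟨b2, hb2⟩ := red_eq_zero_OV (P := P) (p - f * c') (by
    rw [Polynomial.map_sub, Polynomial.map_mul, hc', hc, sub_self])
  refine ⟨AdjoinRoot.mk f b2, ?_⟩
  rw [← mk_C_OV, ← map_mul, ← hb2, AdjoinRoot.mk_eq_mk, sub_sub_cancel]
  exact dvd_mul_right _ _

end OV

theorem hOV : StOV := by
  intro f hf _ _ _ P O k _ _ _ _ _ _ i j ρ hL q hq p hz hz'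
  set z : RR f := AdjoinRoot.mk f p with hzdef
  have hinj2 : Function.Injective (algebraMap (RR f) (LL f)) := IsFractionRing.injective _ _
  have hP0 : Int.castRingHom (RR f) (pz P) ≠ 0 := by
    intro h0
    have h1 : Int.castRingHom (LL f) (pz P) = 0 := by
      rw [← algebraMap_castRingHom, h0, map_zero]
    rw [← of_eq_castRingHom', map_eq_zero, eq_intCast, Int.cast_eq_zero] at h1
    exact pz_ne_zero P h1
  set P' : RR f := Int.castRingHom (RR f) (pz P) with hP'
  -- coprime part of `P'`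
  obtain ⟨e, he⟩ : ∃ n : ℕ, q.intValuation P' = WithZero.exp (-(n : ℤ)) :=
    ⟨_, q.intValuation_eq_exp_neg_multiplicity hP0⟩
  have hcof : ∀ (x : RR f) (n : ℕ), q.intValuation x = WithZero.exp (-(n : ℤ)) →
      ∃ J : Ideal (RR f), Ideal.span {x} = q.asIdeal ^ n * J ∧ ¬ J ≤ q.asIdeal := by
    intro x n hn
    obtain ⟨J, hJ⟩ : q.asIdeal ^ n ∣ Ideal.span {x} := (q.intValuation_le_pow_iff_dvd x n).1 hn.le
    refine ⟨J, hJ, fun hle => ?_⟩
    have h1 : x ∈ q.asIdeal ^ (n + 1) := by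
      rw [pow_succ, ← Ideal.span_singleton_le_iff_mem, hJ]
      exact Ideal.mul_mono_right hle
    rw [← q.intValuation_le_pow_iff_mem, hn, WithZero.exp_le_exp] at h1
    push_cast at h1
    omega
  obtain ⟨Q', hQ', hQ'q⟩ := hcof P' e he
  -- the uniformizer
  obtain ⟨t, ht⟩ := q.intValuation_exists_uniformizer
  have hsup : q.asIdeal ^ 2 ⊔ Q' = ⊤ := by
    have h1 : q.asIdeal ⊔ Q' = ⊤ := q.isMaximal.out.2 _ (left_lt_sup.2 hQ'q)
    exact Ideal.isCoprime_iff_sup_eq.1 ((Ideal.isCoprime_iff_sup_eq.2 h1).pow_left)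
  have h1mem : (1 : RR f) ∈ q.asIdeal ^ 2 ⊔ Q' := by rw [hsup]; exact Submodule.mem_top
  obtain ⟨a, ha, b, hb, hab⟩ := Submodule.mem_sup.1 h1mem
  have ht1 : t ∈ q.asIdeal := by
    rw [← pow_one q.asIdeal, ← q.intValuation_le_pow_iff_mem, ht]
    exact le_of_eq rfl
  have ht2 : t ∉ q.asIdeal ^ 2 := by
    rw [← q.intValuation_le_pow_iff_mem, ht, WithZero.exp_le_exp]
    omega
  set w : RR f := a + t * b with hw
  have hw1 : w ∈ q.asIdeal := add_mem (Ideal.pow_le_self two_ne_zero ha)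
    (Ideal.mul_mem_right _ _ ht1)
  have hw2 : w ∉ q.asIdeal ^ 2 := by
    intro h
    refine ht2 ?_
    have h2 : t = w - (1 - t) * a := by
      rw [hw]; linear_combination (-t) * hab
    rw [h2]
    exact sub_mem h (Ideal.mul_mem_left _ _ ha)
  have hw0 : w ≠ 0 := fun h => hw2 (h ▸ zero_mem _)
  have hvw : q.intValuation w = WithZero.exp (-((1 : ℕ) : ℤ)) := by
    have h1 := q.intValuation_eq_exp_neg_multiplicity hw0
    have h2 : q.intValuation w ≤ WithZero.exp (-((1 : ℕ) : ℤ)) := by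
      rw [q.intValuation_le_pow_iff_mem, pow_one]; exact hw1
    have h3 : ¬ q.intValuation w ≤ WithZero.exp (-((2 : ℕ) : ℤ)) := by
      rw [q.intValuation_le_pow_iff_mem]; exact hw2
    rw [h1, WithZero.exp_le_exp] at h2 h3
    rw [h1]
    congr 1
    push_cast at h2 h3 ⊢
    omega
  have hw3 : ∀ q' : HeightOneSpectrum (RR f), Over P q' → q' ≠ q → w ∉ q'.asIdeal := by
    intro q' hq' hne h
    have h1 : q.asIdeal ^ e * Q' ≤ q'.asIdeal := by
      rw [← hQ', Ideal.span_singleton_le_iff_mem]; exact hq'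
    rcases (q'.isPrime.mul_le).1 h1 with h2 | h2
    · have h3 : q.asIdeal ≤ q'.asIdeal := q'.isPrime.le_of_pow_le h2
      exact hne (HeightOneSpectrum.ext (q.isMaximal.eq_of_le q'.isPrime.ne_top h3).symm)
    · have h3 : b ∈ q'.asIdeal := h2 hb
      refine q'.isPrime.ne_top ((Ideal.eq_top_iff_one _).2 ?_)
      rw [← hab]
      refine add_mem ?_ h3
      have h4 : a = w - t * b := by rw [hw]; ring
      rw [h4]
      exact sub_mem h (Ideal.mul_mem_left _ _ h3)
  obtain ⟨J', hJ', hJ'q⟩ := hcof w 1 hvw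
  rw [pow_one] at hJ'
  obtain ⟨c, hc, hcu⟩ := exists_unit_OV hf hL hP0 J' (by
    intro q' hq' hle
    by_cases hne : q' = q
    · exact hJ'q (hne ▸ hle)
    · refine hw3 q' hq' hne ?_
      rw [← Ideal.span_singleton_le_iff_mem, hJ']
      exact Ideal.mul_le_right.trans hle)
  -- the ideal of `w` is maximal
  have hqM : ∀ x ∈ q.asIdeal, phi_OV i f x ∈ Ideal.span {phi_OV i f w} := by
    intro x hx
    have h1 : x * c ∈ Ideal.span {w} := by rw [hJ']; exact Ideal.mul_mem_mul hx hc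
    obtain ⟨y, hy⟩ := Ideal.mem_span_singleton.1 h1
    rw [← Ideal.mul_unit_mem_iff_mem _ hcu, ← map_mul, hy, map_mul]
    exact Ideal.mul_mem_right _ _ (Ideal.mem_span_singleton_self _)
  have hπM : algebraMap O (AdjoinRoot (f.map i)) (i (pz P)) ∈ Ideal.span {phi_OV i f w} := by
    rw [← phi_C_OV]; exact hqM _ hq
  have h1M : (1 : AdjoinRoot (f.map i)) ∉ Ideal.span {phi_OV i f w} := by
    intro h
    obtain ⟨y, hy⟩ := Ideal.mem_span_singleton.1 h
    obtain ⟨r, b', hrb⟩ := dense_OV hL y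
    obtain ⟨y', hy'⟩ := inj_OV hL (1 - w * r) (b' * phi_OV i f w) (by
      rw [map_sub, map_one, map_mul, hy, hrb]; ring)
    refine q.isPrime.ne_top ((Ideal.eq_top_iff_one _).2 ?_)
    rw [sub_eq_iff_eq_add.1 hy']
    exact add_mem (Ideal.mul_mem_right _ _ hq) (Ideal.mul_mem_right _ _ hw1)
  have hmax : (Ideal.span {phi_OV i f w}).IsMaximal := by
    rw [Ideal.isMaximal_iff]
    refine ⟨h1M, ?_⟩
    intro I x hI hx hxI
    obtain ⟨r, b', hrb⟩ := dense_OV hL x
    have hr : r ∉ q.asIdeal := by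
      intro hr
      refine hx ?_
      rw [hrb]
      exact add_mem (hqM r hr) (Ideal.mul_mem_right _ _ hπM)
    obtain ⟨y, s, hs, hys⟩ := q.isMaximal.exists_inv hr
    have h2 : (1 : AdjoinRoot (f.map i)) = phi_OV i f y *
        (x - algebraMap O (AdjoinRoot (f.map i)) (i (pz P)) * b') + phi_OV i f s := by
      rw [hrb, add_sub_cancel_right, ← map_mul, ← map_add, hys, map_one]
    rw [h2]
    exact add_mem (Ideal.mul_mem_left _ _ (sub_mem hxI (Ideal.mul_mem_right _ _ (hI hπM))))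
      (hI (hqM s hs))
  have hord : Ring.ord (AdjoinRoot (f.map i)) (phi_OV i f w) = 1 := by
    rw [Ring.ord, Module.length_eq_one_iff, isSimpleModule_iff_isCoatom]
    exact hmax.out
  -- the element `z`
  obtain ⟨m, hm⟩ : ∃ n : ℕ, q.intValuation z = WithZero.exp (-(n : ℤ)) :=
    ⟨_, q.intValuation_eq_exp_neg_multiplicity hz⟩
  obtain ⟨J, hJ, hJq⟩ := hcof z m hm
  obtain ⟨d, hd, hdu⟩ := exists_unit_OV hf hL hP0 J (by
    intro q' hq' hle
    by_cases hne : q' = q
    · exact hJq (hne ▸ hle)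
    · refine hz' q' hq' hne ?_
      rw [← Ideal.span_singleton_le_iff_mem, hJ]
      exact Ideal.mul_le_right.trans hle)
  have hzq : z ∈ q.asIdeal ^ m := (q.intValuation_le_pow_iff_mem z m).1 hm.le
  obtain ⟨y1, hy1⟩ : w ^ m ∣ z * c ^ m := by
    rw [← Ideal.mem_span_singleton, ← Ideal.span_singleton_pow, hJ', mul_pow]
    exact Ideal.mul_mem_mul hzq (Ideal.pow_mem_pow hc m)
  obtain ⟨y2, hy2⟩ : z ∣ w ^ m * d := by
    rw [← Ideal.mem_span_singleton, hJ]
    exact Ideal.mul_mem_mul (Ideal.pow_mem_pow hw1 m) hd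
  have hspan : Ideal.span {phi_OV i f z} = Ideal.span {phi_OV i f w ^ m} := by
    refine le_antisymm ?_ ?_
    · rw [Ideal.span_singleton_le_iff_mem, ← Ideal.mul_unit_mem_iff_mem _ (hcu.pow m),
        show phi_OV i f z * phi_OV i f c ^ m = phi_OV i f w ^ m * phi_OV i f y1 by
          rw [← map_pow, ← map_mul, hy1, map_mul, map_pow]]
      exact Ideal.mul_mem_right _ _ (Ideal.mem_span_singleton_self _)
    · rw [Ideal.span_singleton_le_iff_mem, ← Ideal.mul_unit_mem_iff_mem _ hdu, ← map_pow,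
        ← map_mul, hy2, map_mul]
      exact Ideal.mul_mem_right _ _ (Ideal.mem_span_singleton_self _)
  refine ⟨m, ?_, ?_⟩
  · rw [← phi_mk_OV, ← hzdef, Ring.ord, hspan]
    change Ring.ord (AdjoinRoot (f.map i)) (phi_OV i f w ^ m) = m
    rw [Ring.ord_pow (nzd_OV hf hL w hw0), hord, nsmul_one]
  · rw [HeightOneSpectrum.valuation_of_algebraMap, hm]

end Pool.Agent.Helper54.HQ
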