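import Pool.Agent.Helper54.HQ.StF

/-!
# HQ, module Pol: one good polynomial has a twist with trivial Selmer group
-/

set_option autoImplicit false

namespace Pool.Agent.Helper54.HQ

open Polynomial Finset Filter Topology Matrix IsDedekindDomain
open Pool.Agent.Helper3.HY (co tau Ix nu TType IType baseChange descentGroup IsPointValue IsTwPoint
  twGroup)

theorem hPol (h1 : StDe1) (h2 : StDe2) (h3 : StDe3) (h4 : StDe4) (h5 : StCk) (h6 : StWb)
    (h7 : StTw) : StPol := by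
  intro g hg
  obtain ⟨C, κ, hC, hCk⟩ := h5 g hg
  refine ⟨C, κ, hC, fun H hH T hT f hf hbad => ?_⟩
  obtain ⟨hreg, hdvd, hirr2, hTT, hws⟩ := hf
  have hm := hreg.1
  have hdeg := hreg.2.1
  obtain ⟨hirr, -⟩ := h1 f hm hirr2
  have i1 : Fact (Irreducible (fK f)) := ⟨hirr⟩
  have i2 : IsFractionRing (RR f) (LL f) := h2 f hm hirr
  have i3 : IsDedekindDomain (RR f) := h3 f hm (by omega) hirr (h4 f hm hws)
  refine ⟨hirr, ?_⟩
  obtain ⟨R, hR, hz⟩ := h7 g H hg hH T hT f ⟨hreg, hdvd, hirr2, hTT, hws⟩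
    (fun α hα hn hv hl => by
      by_contra hsq
      exact hbad (hCk H hH f (h6 g H hg f hreg).1 T hTT α hα hn hv hl hsq))
  exact ⟨R, hR, hz⟩

end Pool.Agent.Helper54.HQ
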