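import Pool.Agent.Helper54.HQ.StF

/-!
# HQ: Pos (positive proportion, all `c_1` divisible by `N`)
-/

set_option autoImplicit false

namespace Pool.Agent.Helper54.HQ

open Polynomial Finset Filter Topology Matrix IsDedekindDomain

private theorem reg_fam_Pos {g H : ℕ} {f : ℤ[X]} (h : f ∈ Reg g H) : f ∈ Fam (2 * g + 1) H := by
  obtain ⟨hm, hd, h1, h2, h3⟩ := h
  refine ⟨hm, hd, fun i hi => ?_⟩
  rcases Nat.eq_zero_or_pos i with h0 | h0
  · subst h0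
    have hH : (0 : ℤ) ≤ (H : ℤ) ^ (2 * g + 1) := by positivity
    rw [Nat.sub_zero, abs_le]
    exact ⟨h2, by linarith⟩
  · rcases Nat.lt_or_ge (2 * g) i with h4 | h4
    · have h5 : i = 2 * g + 1 := by omega
      subst h5
      have h6 : f.coeff (2 * g + 1) = 1 := by
        rw [← hd]
        exact hm.coeff_natDegree
      rw [h6]
      simp
    · have h5 := h1 i h0 h4
      have h6 : (1 : ℤ) ≤ 2 ^ (2 * g + 5) := one_le_pow₀ (by norm_num)
      nlinarith [abs_nonneg (f.coeff i)]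

theorem hPos (h1 : StPol) (h2 : StGood) (h3 : StFs) (h4 : StTa) : StPos := by
  intro g hg
  obtain ⟨C, κ, hC, hpol⟩ := h1 g hg
  obtain ⟨T, δ, hT, hδ, hev⟩ := h2 g hg C κ hC
  obtain ⟨D, hDdef⟩ : ∃ D : ℕ, D = ∏ P ∈ T, (P : ℕ) := ⟨_, rfl⟩
  have hD : 1 ≤ D := by
    rw [hDdef]
    exact Nat.one_le_iff_ne_zero.2 (Finset.prod_ne_zero_iff.2 fun P _ => P.2.ne_zero)
  obtain ⟨n, hn⟩ : ∃ n : ℕ, n = (g + 1) * (2 * g + 1) := ⟨_, rfl⟩
  rw [← hn] at hev ⊢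
  refine ⟨δ / (2 ^ T.card * (2 * (D : ℝ)) ^ n), by positivity, ?_⟩
  have htend : Tendsto (fun H : ℕ => H / D) atTop atTop :=
    Nat.tendsto_div_const_atTop (by omega)
  filter_upwards [htend.eventually hev, htend.eventually (eventually_ge_atTop 1)] with H hH hH1
  obtain ⟨hfin, hcard⟩ := hH
  have hHD : H / D * D ≤ H := Nat.div_mul_le_self H D
  have hHD2 : H ≤ 2 * D * (H / D) := by
    have h5 : H < D * (H / D + 1) := Nat.lt_mul_div_succ H (by omega)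
    nlinarith
  have hSfin : {f | f ∈ Fam (2 * g + 1) H ∧ ((2 * g + 1 : ℕ) : ℤ) ∣ f.coeff (2 * g) ∧
        Irreducible (fK f) ∧ Triv f}.Finite :=
    (h4 (2 * g + 1) H (by omega)).1.subset fun f hf => hf.1
  -- the choice of the subset
  have hch : ∀ f : ℤ[X], ∃ R : Finset Prm, f ∈ {f | f ∈ Good g (H / D) T ∧
      f ∉ BadSet g C κ (H / D) T} → R ⊆ T ∧ Irreducible (fK f) ∧
        Triv (f.scaleRoots (∏ P ∈ R, pz P)) := by
    intro f
    by_cases hf : f ∈ {f | f ∈ Good g (H / D) T ∧ f ∉ BadSet g C κ (H / D) T}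
    · obtain ⟨hi, R, hR, ht⟩ := hpol (H / D) hH1 T hT f hf.1 hf.2
      exact ⟨R, fun _ => ⟨hR, hi, ht⟩⟩
    · exact ⟨∅, fun h => absurd h hf⟩
  choose R hR using hch
  have hcast : ∀ S : Finset Prm, (∏ P ∈ S, pz P) = ((∏ P ∈ S, (P : ℕ) : ℕ) : ℤ) := by
    intro S
    push_cast
    rfl
  have hmain : hfin.toFinset.card ≤ (T.powerset ×ˢ hSfin.toFinset).card := by
    refine Finset.card_le_card_of_injOn (fun f => (R f, f.scaleRoots (∏ P ∈ R f, pz P))) ?_ ?_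
    · intro f hf
      have hf' : f ∈ {f | f ∈ Good g (H / D) T ∧ f ∉ BadSet g C κ (H / D) T} := by
        simpa using hf
      obtain ⟨hRT, hirr, htriv⟩ := hR f hf'
      have hfam := reg_fam_Pos hf'.1.1
      have hpos : 1 ≤ ∏ P ∈ R f, (P : ℕ) :=
        Nat.one_le_iff_ne_zero.2 (Finset.prod_ne_zero_iff.2 fun P _ => P.2.ne_zero)
      have hle : ∏ P ∈ R f, (P : ℕ) ≤ D := by
        rw [hDdef]
        exact Finset.prod_le_prod_of_subset_of_one_le' hRT fun P _ _ => P.2.one_lt.le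
      obtain ⟨hs1, -, hs3⟩ := h3 (2 * g + 1) (H / D) (∏ P ∈ R f, (P : ℕ)) hpos
      obtain ⟨a1, a2, a3⟩ := hs1 f hfam
      have hle2 : H / D * ∏ P ∈ R f, (P : ℕ) ≤ H := (Nat.mul_le_mul_left _ hle).trans hHD
      have hmono := (h3 (2 * g + 1) (H / D * ∏ P ∈ R f, (P : ℕ)) 1 le_rfl).2.2 H hle2
      simp only [Finset.coe_product, Set.mem_prod, Finset.mem_coe, Finset.mem_powerset,
        Set.Finite.mem_toFinset, Set.mem_setOf_eq]
      rw [hcast] at htriv ⊢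
      exact ⟨hRT, hmono a1, a2 _ hf'.1.2.1, a3 hirr, htriv⟩
    · intro f hf f' hf' hff
      have e1 : f ∈ {f | f ∈ Good g (H / D) T ∧ f ∉ BadSet g C κ (H / D) T} := by
        simpa using hf
      have e2 : f' ∈ {f | f ∈ Good g (H / D) T ∧ f ∉ BadSet g C κ (H / D) T} := by
        simpa using hf'
      simp only [Prod.mk.injEq] at hff
      obtain ⟨b1, b2⟩ := hff
      rw [← b1, hcast] at b2
      have hpos : 1 ≤ ∏ P ∈ R f, (P : ℕ) :=
        Nat.one_le_iff_ne_zero.2 (Finset.prod_ne_zero_iff.2 fun P _ => P.2.ne_zero)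
      exact (h3 (2 * g + 1) (H / D) (∏ P ∈ R f, (P : ℕ)) hpos).2.1 f (reg_fam_Pos e1.1.1) f'
        (reg_fam_Pos e2.1.1) b2
  rw [Finset.card_product, Finset.card_powerset, ← Set.ncard_eq_toFinset_card _ hfin,
    ← Set.ncard_eq_toFinset_card _ hSfin] at hmain
  have hmain2 : δ * ((H / D : ℕ) : ℝ) ^ n ≤ 2 ^ T.card *
      ({f | f ∈ Fam (2 * g + 1) H ∧ ((2 * g + 1 : ℕ) : ℤ) ∣ f.coeff (2 * g) ∧
        Irreducible (fK f) ∧ Triv f}.ncard : ℝ) := by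
    refine hcard.trans ?_
    exact_mod_cast hmain
  have hH2 : (H : ℝ) ^ n ≤ (2 * (D : ℝ)) ^ n * ((H / D : ℕ) : ℝ) ^ n := by
    rw [← mul_pow]
    refine pow_le_pow_left₀ (by positivity) ?_ n
    exact_mod_cast hHD2
  rw [div_mul_eq_mul_div, div_le_iff₀ (by positivity)]
  calc δ * (H : ℝ) ^ n ≤ δ * ((2 * (D : ℝ)) ^ n * ((H / D : ℕ) : ℝ) ^ n) :=
        mul_le_mul_of_nonneg_left hH2 hδ.le
    _ = (2 * (D : ℝ)) ^ n * (δ * ((H / D : ℕ) : ℝ) ^ n) := by ring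
    _ ≤ (2 * (D : ℝ)) ^ n * (2 ^ T.card *
      ({f | f ∈ Fam (2 * g + 1) H ∧ ((2 * g + 1 : ℕ) : ℤ) ∣ f.coeff (2 * g) ∧
        Irreducible (fK f) ∧ Triv f}.ncard : ℝ)) :=
        mul_le_mul_of_nonneg_left hmain2 (by positivity)
    _ = _ := by ring

end Pool.Agent.Helper54.HQ
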