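import Pool.Agent.Helper54.HQ.Base
import Pool.Agent.Helper54.HL.St

/-!
# HQ, module QP: the prime `q` contains `p(θ)` (port of `HL/M_QP.lean`)
-/

set_option autoImplicit false

namespace Pool.Agent.Helper54.HQ

open Polynomial IsDedekindDomain
open Pool.Agent.Helper3.HY (co tau Ix nu TType IType baseChange descentGroup IsPointValue IsTwPoint
  twGroup co_mk sum_co ext_co co_eq_zero)

private theorem lift_QP (P : Prm) {a b : ℤ[X]}
    (h : a.map (red P) = b.map (red P)) : ∃ c, a = b + C (pz P) * c := by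
  have h1 : C (pz P) ∣ a - b := by
    rw [Polynomial.C_dvd_iff_dvd_coeff]
    intro i
    have h2 := congrArg (fun r => r.coeff i) h
    simp only [coeff_map] at h2
    rw [coeff_sub, ← red_eq_zero, map_sub, h2, sub_self]
  obtain ⟨c, hc⟩ := h1
  exact ⟨c, by rw [← hc]; ring⟩

private theorem surj_QP (P : Prm) (r : (kp P)[X]) : ∃ s : ℤ[X], s.map (red P) = r :=
  Polynomial.map_surjective (red P) (red_surj P) r

private theorem over_QP {f : ℤ[X]} [IsDedekindDomain (RR f)] {P : Prm}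
    {q : HeightOneSpectrum (RR f)} (hq : Over P q) (c : ℤ[X]) :
    AdjoinRoot.mk f (C (pz P) * c) ∈ q.asIdeal := by
  rw [map_mul, AdjoinRoot.mk_C, of_eq_castRingHom]
  exact Ideal.mul_mem_right _ _ hq

private theorem mem_congr_QP {f : ℤ[X]} [IsDedekindDomain (RR f)] {P : Prm}
    {q : HeightOneSpectrum (RR f)} (hq : Over P q) {a b : ℤ[X]}
    (h : a.map (red P) = b.map (red P)) (hb : AdjoinRoot.mk f b ∈ q.asIdeal) :
    AdjoinRoot.mk f a ∈ q.asIdeal := by
  obtain ⟨c, rfl⟩ := lift_QP P h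
  rw [map_add]
  exact Ideal.add_mem _ hb (over_QP hq c)

theorem hQP : StQP := by
  intro g hg f hf _ _ _ P a p hfac hpm hpi hpd q hq p₀ hp₀
  obtain ⟨hov, p₁, hp1m, hp1i, hp1d, hp1q⟩ := hq
  obtain ⟨a₀, ha₀⟩ := red_surj P a
  -- the product of θ - a₀ and p₀(θ) lies in q
  have h1 : AdjoinRoot.mk f ((X - C a₀) * p₀) ∈ q.asIdeal := by
    refine mem_congr_QP hov (b := f) ?_ ?_
    · rw [Polynomial.map_mul, Polynomial.map_sub, map_X, map_C, hp₀, hfac, ha₀]
    · rw [AdjoinRoot.mk_self]; exact Ideal.zero_mem _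
  rw [map_mul] at h1
  rcases q.isPrime.mem_or_mem h1 with h2 | h2
  · exfalso
    -- `p₁ mod P` is divisible by `X - a`
    have h3 : ¬ (X - C a) ∣ p₁.map (red P) := by
      rintro ⟨c, hc⟩
      have h4 : IsUnit c := (hp1i.isUnit_or_isUnit hc).resolve_left (not_isUnit_X_sub_C a)
      have h5 := hp1d
      rw [hc, natDegree_mul (X_sub_C_ne_zero a) h4.ne_zero, natDegree_X_sub_C,
        natDegree_eq_zero_of_isUnit h4] at h5
      omega
    have h4 : IsCoprime (X - C a) (p₁.map (red P)) :=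
      ((irreducible_X_sub_C a).isCoprime_or_dvd _).resolve_right h3
    obtain ⟨u, w, huw⟩ := h4
    obtain ⟨u₀, rfl⟩ := surj_QP P u
    obtain ⟨w₀, rfl⟩ := surj_QP P w
    have h5 : (1 : ℤ[X]).map (red P) = (u₀ * (X - C a₀) + w₀ * p₁).map (red P) := by
      rw [Polynomial.map_one, Polynomial.map_add, Polynomial.map_mul, Polynomial.map_mul,
        Polynomial.map_sub, map_X, map_C, ha₀, huw]
    have h6 : AdjoinRoot.mk f (1 : ℤ[X]) ∈ q.asIdeal := by
      refine mem_congr_QP hov h5 ?_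
      rw [map_add, map_mul, map_mul]
      exact Ideal.add_mem _ (Ideal.mul_mem_left _ _ h2) (Ideal.mul_mem_left _ _ hp1q)
    rw [map_one] at h6
    exact q.isPrime.ne_top ((Ideal.eq_top_iff_one _).2 h6)
  · exact h2

end Pool.Agent.Helper54.HQ
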