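import Pool.Agent.Helper54.HQ.StR

/-!
# HQ module Ra: the shortest vector
-/

set_option autoImplicit false

namespace Pool.Agent.Helper54.HQ

open Matrix

private lemma exists_lower_Ra (n : ℕ) (S : Matrix (Fin (n + 1)) (Fin (n + 1)) ℝ)
    (hS : S.PosDef) : ∃ ε : ℝ, 0 < ε ∧ ∀ x : Fin (n + 1) → ℝ, ε * ‖x‖ ^ 2 ≤ x ⬝ᵥ S *ᵥ x := by
  have hc : Continuous fun x : Fin (n + 1) → ℝ => x ⬝ᵥ S *ᵥ x := by
    unfold Matrix.mulVec dotProduct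
    fun_prop
  have hne : (Metric.sphere (0 : Fin (n + 1) → ℝ) 1).Nonempty :=
    NormedSpace.sphere_nonempty.2 zero_le_one
  obtain ⟨x₀, hx₀, hmin⟩ := (isCompact_sphere (0 : Fin (n + 1) → ℝ) 1).exists_isMinOn hne
    hc.continuousOn
  have hx0 : x₀ ≠ 0 := by
    intro h
    rw [h, mem_sphere_zero_iff_norm, norm_zero] at hx₀
    exact zero_ne_one hx₀
  refine ⟨x₀ ⬝ᵥ S *ᵥ x₀, ?_, fun x => ?_⟩
  · have := hS.dotProduct_mulVec_pos hx0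
    simpa using this
  · by_cases hx : x = 0
    · simp [hx]
    · have hn : 0 < ‖x‖ := norm_pos_iff.2 hx
      have hm : ‖x‖⁻¹ • x ∈ Metric.sphere (0 : Fin (n + 1) → ℝ) 1 := by
        rw [mem_sphere_zero_iff_norm, norm_smul, norm_inv, norm_norm, inv_mul_cancel₀ hn.ne']
      have h1 := hmin hm
      have h2 : (‖x‖⁻¹ • x) ⬝ᵥ S *ᵥ (‖x‖⁻¹ • x) = ‖x‖⁻¹ * (‖x‖⁻¹ * (x ⬝ᵥ S *ᵥ x)) := by
        rw [Matrix.mulVec_smul, smul_dotProduct, dotProduct_smul, smul_eq_mul, smul_eq_mul]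
      have h1' : x₀ ⬝ᵥ S *ᵥ x₀ ≤ ‖x‖⁻¹ * (‖x‖⁻¹ * (x ⬝ᵥ S *ᵥ x)) := by
        rw [← h2]
        exact h1
      calc x₀ ⬝ᵥ S *ᵥ x₀ * ‖x‖ ^ 2 ≤ ‖x‖⁻¹ * (‖x‖⁻¹ * (x ⬝ᵥ S *ᵥ x)) * ‖x‖ ^ 2 :=
            mul_le_mul_of_nonneg_right h1' (sq_nonneg _)
        _ = x ⬝ᵥ S *ᵥ x := by field_simp

theorem hRa : StRa := by
  intro n S hS
  obtain ⟨ε, hε, hb⟩ := exists_lower_Ra n S hS
  set y₀ : Fin (n + 1) → ℤ := fun _ => 1 with hy₀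
  have hy0 : y₀ ≠ 0 := fun h => one_ne_zero (congrFun h 0)
  set T : Set (Fin (n + 1) → ℤ) := {y | y ≠ 0 ∧ qS S y ≤ qS S y₀} with hT
  have hfin : T.Finite := by
    obtain ⟨N, hN⟩ := exists_nat_ge (Real.sqrt (qS S y₀ / ε))
    refine (Set.finite_Icc (fun _ => -(N : ℤ)) (fun _ => (N : ℤ))).subset fun y hy => ?_
    have h1 := (hb fun i => (y i : ℝ)).trans hy.2
    have h2 : ‖(fun i => (y i : ℝ) : Fin (n + 1) → ℝ)‖ ^ 2 ≤ qS S y₀ / ε := by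
      rw [le_div_iff₀ hε]
      linarith
    have h3 : ‖(fun i => (y i : ℝ) : Fin (n + 1) → ℝ)‖ ≤ N :=
      (Real.le_sqrt_of_sq_le h2).trans hN
    have h4 : ∀ i, |y i| ≤ (N : ℤ) := by
      intro i
      have := (norm_le_pi_norm (fun i => (y i : ℝ) : Fin (n + 1) → ℝ) i).trans h3
      rw [Real.norm_eq_abs, ← Int.cast_abs] at this
      exact_mod_cast this
    exact ⟨fun i => (abs_le.1 (h4 i)).1, fun i => (abs_le.1 (h4 i)).2⟩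
  obtain ⟨x, hx, hmin⟩ := Set.exists_min_image T (qS S) hfin ⟨y₀, hy0, le_rfl⟩
  refine ⟨x, hx.1, fun y hy => ?_⟩
  by_cases h : qS S y ≤ qS S y₀
  · exact hmin y ⟨hy, h⟩
  · exact hx.2.trans (not_le.1 h).le

end Pool.Agent.Helper54.HQ
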