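import Pool.Agent.Helper54.HQ.StR

/-!
# HQ module Rb (primitive vectors)
-/

set_option autoImplicit false

namespace Pool.Agent.Helper54.HQ

open Module

theorem hRb : StRb := by
  intro n x hx
  classical
  have hx0 : x ≠ 0 := by
    rintro rfl
    have := hx 0 0 (by simp)
    exact not_isUnit_zero this
  obtain ⟨k, snf⟩ := Submodule.smithNormalForm (Pi.basisFun ℤ (Fin (n + 1))) (Submodule.span ℤ {x})
  -- the submodule is nonzero
  have hk : Nonempty (Fin k) := by
    by_contra h
    rw [not_nonempty_iff] at h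
    have h1 : (⟨x, Submodule.mem_span_singleton_self x⟩ : Submodule.span ℤ {x}) = 0 := by
      have h2 := snf.bN.sum_repr ⟨x, Submodule.mem_span_singleton_self x⟩
      rw [← h2]
      exact Finset.sum_of_isEmpty _
    exact hx0 (by simpa using congrArg Subtype.val h1)
  obtain ⟨i⟩ := hk
  set j₀ := snf.f i with hj₀
  -- the chosen vector is a multiple of `x`
  obtain ⟨t, ht⟩ := Submodule.mem_span_singleton.1 (snf.bN i).2
  have ht0 : t ≠ 0 := by
    rintro rfl
    rw [zero_smul] at ht
    exact snf.bN.ne_zero i (Subtype.ext ht.symm)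
  have hrepr : ∀ j, j ≠ j₀ → snf.bM.repr x j = 0 := by
    intro j hj
    have h1 : snf.bM.repr (t • x) j = 0 := by
      rw [ht, snf.snf i, map_smul, Finsupp.smul_apply, Basis.repr_self,
        Finsupp.single_eq_of_ne hj, smul_zero]
    rw [map_smul, Finsupp.smul_apply, smul_eq_mul] at h1
    exact (mul_eq_zero.1 h1).resolve_left ht0
  have hxe : x = snf.bM.repr x j₀ • snf.bM j₀ := by
    conv_lhs => rw [← snf.bM.sum_repr x]
    rw [Finset.sum_eq_single j₀]
    · intro j _ hj
      rw [hrepr j hj, zero_smul]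
    · intro h
      exact absurd (Finset.mem_univ _) h
  obtain ⟨e, he⟩ := hx _ _ hxe
  set b : Basis (Fin (n + 1)) ℤ (Fin (n + 1) → ℤ) :=
    (snf.bM.reindex (Equiv.swap 0 j₀)).unitsSMul (fun l => if l = 0 then e else 1) with hb
  have hb0 : b 0 = x := by
    rw [hb, Basis.unitsSMul_apply, if_pos rfl, Basis.reindex_apply, Equiv.symm_swap,
      Equiv.swap_apply_left, Units.smul_def, he]
    exact hxe.symm
  refine ⟨(Pi.basisFun ℤ (Fin (n + 1))).toMatrix b, ?_, fun i => ?_⟩
  · rw [← Basis.det_apply]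
    exact (Pi.basisFun ℤ (Fin (n + 1))).isUnit_det b
  · rw [Basis.toMatrix_apply, hb0, Pi.basisFun_repr]

end Pool.Agent.Helper54.HQ
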