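import Pool.Agent.Helper54.HQ.StR

/-!
# HQ module Rc: reduced bases exist
-/

set_option autoImplicit false

namespace Pool.Agent.Helper54.HQ

open Polynomial Finset Filter Topology Matrix IsDedekindDomain

/-- the matrix `(c, r; 0, A)` -/
def blk_Rc {R : Type} [Zero R] {n : ℕ} (c : R) (r : Fin n → R) (A : Matrix (Fin n) (Fin n) R) :
    Matrix (Fin (n + 1)) (Fin (n + 1)) R :=
  Matrix.of (Fin.cons (Fin.cons c r) fun i => Fin.cons 0 (A i))

section
variable {R : Type} [Zero R] {n : ℕ} (c : R) (r : Fin n → R) (A : Matrix (Fin n) (Fin n) R)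

@[simp] theorem blk00_Rc : blk_Rc c r A 0 0 = c := rfl
@[simp] theorem blk01_Rc (j : Fin n) : blk_Rc c r A 0 j.succ = r j := rfl
@[simp] theorem blk10_Rc (i : Fin n) : blk_Rc c r A i.succ 0 = 0 := rfl
@[simp] theorem blk11_Rc (i j : Fin n) : blk_Rc c r A i.succ j.succ = A i j := rfl

end

theorem blk_det_Rc {n : ℕ} (r : Fin n → ℤ) (A : Matrix (Fin n) (Fin n) ℤ) :
    (blk_Rc 1 r A).det = A.det := by
  rw [Matrix.det_succ_column_zero, Fin.sum_univ_succ]
  simp only [blk00_Rc, blk10_Rc, Fin.val_zero, pow_zero, one_mul, mul_zero, zero_mul,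
    Finset.sum_const_zero, add_zero]
  congr 1

theorem blk_mul_Rc {n : ℕ} (r r' : Fin n → ℝ) (A A' : Matrix (Fin n) (Fin n) ℝ) :
    blk_Rc 1 r A * blk_Rc 1 r' A' = blk_Rc 1 (r' + r ᵥ* A') (A * A') := by
  ext i j
  rw [Matrix.mul_apply, Fin.sum_univ_succ]
  refine Fin.cases ?_ (fun i' => ?_) i <;> refine Fin.cases ?_ (fun j' => ?_) j
  · simp
  · simp [Matrix.vecMul, dotProduct]
  · simp
  · simp [Matrix.mul_apply]

theorem blk_toR_Rc {n : ℕ} (r : Fin n → ℤ) (A : Matrix (Fin n) (Fin n) ℤ) :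
    toR (blk_Rc 1 r A) = blk_Rc 1 (fun j => (r j : ℝ)) (toR A) := by
  ext i j
  refine Fin.cases ?_ (fun i' => ?_) i <;> refine Fin.cases ?_ (fun j' => ?_) j <;> simp [toR]

/-- the form in a block basis -/
theorem blk_form_Rc {n : ℕ} (s : ℝ) (v : Fin n → ℝ) (A B : Matrix (Fin n) (Fin n) ℝ) :
    (blk_Rc 1 v A)ᵀ * blk_Rc s 0 B * blk_Rc 1 v A =
      Matrix.of (Fin.cons (Fin.cons s fun k => s * v k)
        fun j => Fin.cons (s * v j) fun k => s * v j * v k + (Aᵀ * B * A) j k) := by
  ext i j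
  rw [Matrix.mul_apply, Fin.sum_univ_succ]
  simp only [Matrix.mul_apply, Fin.sum_univ_succ]
  refine Fin.cases ?_ (fun i' => ?_) i <;> refine Fin.cases ?_ (fun j' => ?_) j
  · simp [Matrix.of_apply, Matrix.transpose_apply]
  · simp [Matrix.of_apply, Matrix.transpose_apply]
  · simp [Matrix.of_apply, Matrix.transpose_apply, mul_comm]
  · simp [Matrix.of_apply, Matrix.transpose_apply, mul_comm]

theorem diag_Rc {n : ℕ} (U S : Matrix (Fin n) (Fin n) ℝ) (j : Fin n) :
    (Uᵀ * S * U) j j = (fun i => U i j) ⬝ᵥ S *ᵥ fun i => U i j := by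
  rw [Matrix.mul_assoc, Matrix.mul_apply]
  rfl

theorem qS_diag_Rc {n : ℕ} (S : Matrix (Fin n) (Fin n) ℝ) (U : Matrix (Fin n) (Fin n) ℤ)
    (j : Fin n) : ((toR U)ᵀ * S * toR U) j j = qS S fun i => U i j := by
  rw [diag_Rc]
  rfl

theorem toR_mul_Rc {n : ℕ} (U V : Matrix (Fin n) (Fin n) ℤ) : toR (U * V) = toR U * toR V :=
  Matrix.map_mul (f := Int.castRingHom ℝ)

theorem toR_det_Rc {n : ℕ} (U : Matrix (Fin n) (Fin n) ℤ) : (toR U).det = (U.det : ℝ) :=
  ((Int.castRingHom ℝ).map_det U).symm

theorem toR_unit_Rc {n : ℕ} {U : Matrix (Fin n) (Fin n) ℤ} (h : IsUnit U.det) :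
    IsUnit (toR U) := by
  rw [Matrix.isUnit_iff_isUnit_det, toR_det_Rc]
  exact h.map (Int.castRingHom ℝ)

/-- the Schur complement is positive definite -/
theorem schur_Rc {n : ℕ} {S₁ : Matrix (Fin (n + 1)) (Fin (n + 1)) ℝ} (hS : S₁.PosDef) (s : ℝ)
    (t : Fin n → ℝ) (S' : Matrix (Fin n) (Fin n) ℝ)
    (h : S₁ = (blk_Rc 1 t 1)ᵀ * blk_Rc s 0 S' * blk_Rc 1 t 1) (hS' : S'.IsSymm) : S'.PosDef := by
  refine PosDef.of_dotProduct_mulVec_pos ?_ fun x hx => ?_
  · rw [Matrix.IsHermitian, Matrix.conjTranspose_eq_transpose_of_trivial]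
    exact hS'
  · have hy : (Fin.cons (-(t ⬝ᵥ x)) x : Fin (n + 1) → ℝ) ≠ 0 := by
      intro h0
      refine hx (funext fun i => ?_)
      have := congrFun h0 i.succ
      simpa using this
    have h1 := hS.dotProduct_mulVec_pos hy
    have hT : blk_Rc 1 t 1 *ᵥ (Fin.cons (-(t ⬝ᵥ x)) x : Fin (n + 1) → ℝ) = Fin.cons 0 x := by
      funext i
      simp only [mulVec, dotProduct, Fin.sum_univ_succ]
      refine Fin.cases ?_ (fun i' => ?_) i
      · simp
      · simp [Matrix.one_apply]
    have hD : blk_Rc s 0 S' *ᵥ (Fin.cons 0 x : Fin (n + 1) → ℝ) = Fin.cons 0 (S' *ᵥ x) := by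
      funext i
      simp only [mulVec, dotProduct, Fin.sum_univ_succ]
      refine Fin.cases ?_ (fun i' => ?_) i
      · simp
      · simp [mulVec, dotProduct]
    rw [h, ← mulVec_mulVec, ← mulVec_mulVec, hT, hD, star_trivial, dotProduct_mulVec,
      vecMul_transpose, hT] at h1
    simp only [dotProduct, Fin.sum_univ_succ, Fin.cons_zero, Fin.cons_succ, mul_zero, zero_add] at h1
    simpa [dotProduct] using h1

theorem hRc (h1 : StRa) (h2 : StRb) : StRc := by
  intro n
  induction n with
  | zero =>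
    intro S hS
    exact ⟨1, 1, fun _ => 1, by simp, fun i => i.elim0, fun i => i.elim0, fun i => i.elim0,
      fun i => i.elim0, fun i => i.elim0, by ext i; exact i.elim0⟩
  | succ n ih =>
    intro S hS
    obtain ⟨x, hx0, hx⟩ := h1 n S hS
    have hpos : ∀ y : Fin (n + 1) → ℤ, y ≠ 0 → 0 < qS S y := by
      intro y hy
      have h3 := hS.dotProduct_mulVec_pos (x := fun i => (y i : ℝ)) (by
        intro h0
        refine hy (funext fun i => ?_)
        have := congrFun h0 i
        simpa using this)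
      rw [star_trivial] at h3
      exact h3
    have hprim : ∀ (d : ℤ) (y : Fin (n + 1) → ℤ), x = d • y → IsUnit d := by
      intro d y hd
      have hy : y ≠ 0 := by
        rintro rfl
        rw [smul_zero] at hd
        exact hx0 hd
      have h3 : qS S x = (d : ℝ) ^ 2 * qS S y := by
        have h4 : (fun i => ((x i : ℤ) : ℝ)) = (d : ℝ) • fun i => (y i : ℝ) := by
          funext i
          rw [hd]
          simp
        unfold qS
        rw [h4, mulVec_smul, dotProduct_smul, smul_dotProduct, smul_eq_mul, smul_eq_mul]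
        ring
      have h4 := hx y hy
      have h5 := hpos y hy
      have h6 : (d : ℝ) ^ 2 ≤ 1 := by
        by_contra h7
        rw [not_le] at h7
        nlinarith
      have h7 : d ^ 2 ≤ 1 := by exact_mod_cast h6
      have hd0 : d ≠ 0 := by
        rintro rfl
        rw [zero_smul] at hd
        exact hx0 hd
      rw [Int.isUnit_iff]
      have h8 : |d| ≤ 1 := by
        rw [← abs_one, ← sq_le_sq]
        simpa using h7
      have h9 := abs_le.1 h8
      omega
    obtain ⟨U₁, hU₁, hU₁x⟩ := h2 n x hprim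
    obtain ⟨S₁, hS₁⟩ : ∃ S₁, S₁ = (toR U₁)ᵀ * S * toR U₁ := ⟨_, rfl⟩
    have hinj : Function.Injective (toR U₁).mulVec := mulVec_injective_of_isUnit (toR_unit_Rc hU₁)
    have hp₁ : S₁.PosDef := by
      have h3 := hS.conjTranspose_mul_mul_same hinj
      rw [Matrix.conjTranspose_eq_transpose_of_trivial] at h3
      rwa [hS₁]
    have hsym : ∀ i j, S₁ i j = S₁ j i := by
      intro i j
      have h3 := hp₁.isHermitian
      rw [Matrix.IsHermitian, Matrix.conjTranspose_eq_transpose_of_trivial] at h3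
      conv_rhs => rw [← h3]
      rfl
    obtain ⟨s, hs⟩ : ∃ s, s = S₁ 0 0 := ⟨_, rfl⟩
    have hsx : s = qS S x := by
      rw [hs, hS₁, qS_diag_Rc]
      congr 1
      exact funext hU₁x
    have hs0 : 0 < s := hsx ▸ hpos x hx0
    obtain ⟨t, ht⟩ : ∃ t : Fin n → ℝ, t = fun j => S₁ 0 j.succ / s := ⟨_, rfl⟩
    have hst : ∀ j, s * t j = S₁ 0 j.succ := by
      intro j
      rw [ht]
      field_simp
    obtain ⟨S', hS'⟩ : ∃ S' : Matrix (Fin n) (Fin n) ℝ,
        S' = Matrix.of fun j k => S₁ j.succ k.succ - s * t j * t k := ⟨_, rfl⟩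
    have hS₁eq : S₁ = (blk_Rc 1 t 1)ᵀ * blk_Rc s 0 S' * blk_Rc 1 t 1 := by
      rw [blk_form_Rc]
      ext i j
      refine Fin.cases ?_ (fun i' => ?_) i <;> refine Fin.cases ?_ (fun j' => ?_) j
      · simp [hs]
      · simp [hst]
      · simp [hst, hsym i'.succ 0]
      · simp [hS']
    have hsymm : S'.IsSymm := by
      ext j k
      rw [hS']
      simp only [Matrix.transpose_apply, Matrix.of_apply]
      rw [hsym]
      ring
    obtain ⟨U', M', a', h'⟩ := ih S' (schur_Rc hp₁ s t S' hS₁eq hsymm)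
    obtain ⟨q, hq⟩ : ∃ q : Fin n → ℝ, q = t ᵥ* toR U' := ⟨_, rfl⟩
    obtain ⟨U₂, hU₂⟩ : ∃ U₂, U₂ = blk_Rc 1 (fun j => -round (q j)) U' := ⟨_, rfl⟩
    obtain ⟨v, hv⟩ : ∃ v : Fin n → ℝ, v = fun j => q j - round (q j) := ⟨_, rfl⟩
    have hT : blk_Rc 1 t 1 * toR U₂ = blk_Rc 1 v (toR U') := by
      rw [hU₂, blk_toR_Rc, blk_mul_Rc, Matrix.one_mul, ← hq, hv]
      congr 1
      funext j
      simp only [Pi.add_apply, Int.cast_neg]
      ring
    have hUdet : IsUnit (U₁ * U₂).det := by
      rw [Matrix.det_mul, hU₂, blk_det_Rc]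
      exact hU₁.mul h'.unit
    have hdiag : Matrix.diagonal (fun i => (Fin.cons (Real.sqrt s) a' : Fin (n + 1) → ℝ) i ^ 2) =
        blk_Rc s 0 (Matrix.diagonal fun i => a' i ^ 2) := by
      ext i j
      refine Fin.cases ?_ (fun i' => ?_) i <;> refine Fin.cases ?_ (fun j' => ?_) j
      · simp [Real.sq_sqrt hs0.le]
      · simp [(Fin.succ_ne_zero _).symm]
      · simp [Fin.succ_ne_zero]
      · simp [Matrix.diagonal_apply]
    have heq : (toR (U₁ * U₂))ᵀ * S * toR (U₁ * U₂) =
        (blk_Rc 1 v M')ᵀ * Matrix.diagonal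
          (fun i => (Fin.cons (Real.sqrt s) a' : Fin (n + 1) → ℝ) i ^ 2) * blk_Rc 1 v M' := by
      rw [hdiag, blk_form_Rc, ← h'.eq, ← blk_form_Rc, ← hT, toR_mul_Rc]
      rw [show (toR U₁ * toR U₂)ᵀ * S * (toR U₁ * toR U₂) = (toR U₂)ᵀ * S₁ * toR U₂ by
        rw [hS₁, Matrix.transpose_mul]
        simp only [Matrix.mul_assoc]]
      conv_lhs => rw [hS₁eq]
      rw [Matrix.transpose_mul]
      simp only [Matrix.mul_assoc]
    refine ⟨U₁ * U₂, blk_Rc 1 v M', Fin.cons (Real.sqrt s) a', hUdet, ?_, ?_, ?_, ?_, ?_, heq⟩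
    · exact fun i => Fin.cases rfl (fun i' => h'.diag i') i
    · intro i j hij
      induction i using Fin.cases with
      | zero => exact absurd hij (Fin.not_lt_zero j)
      | succ i' =>
        induction j using Fin.cases with
        | zero => rfl
        | succ j' => exact h'.low i' j' (Fin.succ_lt_succ_iff.1 hij)
    · intro i j hij
      induction j using Fin.cases with
      | zero => exact absurd hij (Fin.not_lt_zero i)
      | succ j' =>
        induction i using Fin.cases with
        | zero =>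
          rw [blk01_Rc, hv]
          exact abs_sub_round _
        | succ i' => exact h'.small i' j' (Fin.succ_lt_succ_iff.1 hij)
    · exact fun i => Fin.cases (Real.sqrt_pos.2 hs0) (fun i' => h'.pos i') i
    · intro i j hij
      induction j using Fin.cases with
      | zero => simp at hij
      | succ j' =>
        induction i using Fin.cases with
        | zero =>
          have hj' : (j' : ℕ) = 0 := by simpa using hij.symm
          simp only [Fin.cons_zero, Fin.cons_succ]
          rw [Real.sq_sqrt hs0.le]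
          have h3 : (fun i => (U₁ * U₂) i j'.succ) ≠ 0 := by
            intro h0
            have h4 : (U₁ * U₂).det = 0 :=
              Matrix.det_eq_zero_of_column_eq_zero j'.succ fun i => congrFun h0 i
            rw [h4] at hUdet
            exact not_isUnit_zero hUdet
          have h4 := hx _ h3
          rw [← hsx, ← qS_diag_Rc, heq, hdiag, blk_form_Rc] at h4
          simp only [Matrix.of_apply, Fin.cons_succ] at h4
          have h5 : (M'ᵀ * Matrix.diagonal (fun i => a' i ^ 2) * M') j' j' = a' j' ^ 2 := by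
            rw [Matrix.mul_assoc, Matrix.mul_apply, Finset.sum_eq_single j']
            · rw [Matrix.diagonal_mul, Matrix.transpose_apply, h'.diag]
              ring
            · intro l _ hl
              have hl0 : j' < l := by
                rw [Fin.lt_def, hj']
                refine Nat.pos_of_ne_zero fun h0 => hl (Fin.ext ?_)
                rw [h0, hj']
              rw [Matrix.transpose_apply, h'.low l j' hl0, zero_mul]
            · intro h0
              exact absurd (Finset.mem_univ _) h0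
          rw [h5] at h4
          have h6 : |v j'| ≤ 1 / 2 := by
            rw [hv]
            exact abs_sub_round _
          have h7 := abs_le.1 h6
          nlinarith [mul_nonneg hs0.le (mul_nonneg (by linarith [h7.2] : (0 : ℝ) ≤ 1 / 2 - v j')
            (by linarith [h7.1] : (0 : ℝ) ≤ 1 / 2 + v j')), sq_nonneg (a' j')]
        | succ i' => exact h'.step i' j' (by simpa using hij)

end Pool.Agent.Helper54.HQ
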