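import Pool.Agent.Helper54.HQ.StR

/-!
# HQ module Rd: reduced bases are almost orthogonal
-/

set_option autoImplicit false

namespace Pool.Agent.Helper54.HQ

open Polynomial Finset Filter Topology Matrix IsDedekindDomain

/-- the form in a reduced basis -/
theorem form_Rd {n : ℕ} {S : Matrix (Fin n) (Fin n) ℝ} {U : Matrix (Fin n) (Fin n) ℤ}
    {M : Matrix (Fin n) (Fin n) ℝ} {a : Fin n → ℝ} (h : IsRed S U M a) (x : Fin n → ℤ) :
    qS S (U *ᵥ x) = ∑ l, a l ^ 2 * ((M *ᵥ fun i => (x i : ℝ)) l) ^ 2 := by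
  have h1 : (fun i => (((U *ᵥ x) i : ℤ) : ℝ)) = toR U *ᵥ fun i => (x i : ℝ) := by
    funext i
    simp [mulVec, dotProduct]
  unfold qS
  rw [h1]
  have h2 : (toR U *ᵥ fun i => (x i : ℝ)) ⬝ᵥ S *ᵥ (toR U *ᵥ fun i => (x i : ℝ)) =
      (fun i => (x i : ℝ)) ⬝ᵥ ((toR U)ᵀ * S * toR U) *ᵥ fun i => (x i : ℝ) := by
    rw [← mulVec_mulVec, ← mulVec_mulVec, dotProduct_mulVec _ (toR U)ᵀ, vecMul_transpose]
  rw [h2, h.eq, ← mulVec_mulVec, ← mulVec_mulVec, dotProduct_mulVec _ Mᵀ, vecMul_transpose]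
  unfold dotProduct
  refine Finset.sum_congr rfl fun l _ => ?_
  rw [mulVec_diagonal]
  ring

theorem step_Rd {n : ℕ} {S : Matrix (Fin n) (Fin n) ℝ} {U : Matrix (Fin n) (Fin n) ℤ}
    {M : Matrix (Fin n) (Fin n) ℝ} {a : Fin n → ℝ} (h : IsRed S U M a) (d : ℕ) :
    ∀ i j : Fin n, (i : ℕ) + d = j → a i ^ 2 ≤ 2 ^ d * a j ^ 2 := by
  induction d with
  | zero =>
    intro i j hij
    have : i = j := Fin.ext (by simpa using hij)
    rw [this, pow_zero, one_mul]
  | succ d ih =>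
    intro i j hij
    have hlt : (i : ℕ) + d < n := by have := j.2; omega
    have h1 := ih i ⟨(i : ℕ) + d, hlt⟩ rfl
    have h2 := h.step ⟨(i : ℕ) + d, hlt⟩ j (by simp only; omega)
    calc a i ^ 2 ≤ 2 ^ d * a ⟨(i : ℕ) + d, hlt⟩ ^ 2 := h1
      _ ≤ 2 ^ d * (2 * a j ^ 2) := by
        exact mul_le_mul_of_nonneg_left h2 (by positivity)
      _ = 2 ^ (d + 1) * a j ^ 2 := by ring

theorem hRd : StRd := by
  intro n S U M a h
  have hA : ∀ i j : Fin n, i ≤ j → a i ^ 2 ≤ 2 ^ ((j : ℕ) - i) * a j ^ 2 := by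
    intro i j hij
    exact step_Rd h _ i j (by have := Fin.le_def.1 hij; omega)
  have hA' : ∀ i j : Fin n, i ≤ j → a i ^ 2 ≤ 2 ^ n * a j ^ 2 := by
    intro i j hij
    refine (hA i j hij).trans (mul_le_mul_of_nonneg_right ?_ (sq_nonneg _))
    exact pow_le_pow_right₀ one_le_two (by have := j.2; omega)
  refine ⟨hA', ?_, ?_, ?_⟩
  · intro j
    have h1 : (fun i => U i j) = U *ᵥ (Pi.single j 1) := by
      rw [mulVec_single_one]
      rfl
    rw [h1, form_Rd h]
    have h2 : (fun i => (((Pi.single j 1 : Fin n → ℤ) i : ℤ) : ℝ)) = Pi.single j 1 := by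
      funext i
      by_cases hij : i = j
      · subst hij
        simp
      · simp [Pi.single_eq_of_ne hij]
    rw [h2, mulVec_single_one]
    have h3 : ∀ l : Fin n, a l ^ 2 * (M.col j l) ^ 2 ≤ 2 ^ (n - 1 - (l : ℕ)) * a j ^ 2 := by
      intro l
      rw [Matrix.col_apply]
      rcases lt_trichotomy l j with hl | hl | hl
      · have h4 : M l j ^ 2 ≤ 1 := by
          have := h.small l j hl
          rw [sq_le_one_iff_abs_le_one]
          linarith
        have h5 := hA l j hl.le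
        have h6 : (2 : ℝ) ^ ((j : ℕ) - l) ≤ 2 ^ (n - 1 - (l : ℕ)) :=
          pow_le_pow_right₀ one_le_two (by have := j.2; omega)
        calc a l ^ 2 * M l j ^ 2 ≤ a l ^ 2 * 1 := mul_le_mul_of_nonneg_left h4 (sq_nonneg _)
          _ = a l ^ 2 := mul_one _
          _ ≤ _ := h5
          _ ≤ _ := mul_le_mul_of_nonneg_right h6 (sq_nonneg _)
      · subst hl
        rw [h.diag, one_pow, mul_one]
        have : (1 : ℝ) ≤ 2 ^ (n - 1 - (l : ℕ)) := one_le_pow₀ one_le_two
        nlinarith [sq_nonneg (a l)]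
      · rw [h.low l j hl]
        simp only [ne_eq, OfNat.ofNat_ne_zero, not_false_eq_true, zero_pow, mul_zero]
        positivity
    have h4 : ∑ l : Fin n, (2 : ℝ) ^ (n - 1 - (l : ℕ)) ≤ 2 ^ n := by
      rw [Fin.sum_univ_eq_sum_range (fun l => (2 : ℝ) ^ (n - 1 - l)) n,
        Finset.sum_range_reflect (fun l => (2 : ℝ) ^ l) n]
      have h5 : ∀ m : ℕ, ∑ l ∈ range m, (2 : ℝ) ^ l = 2 ^ m - 1 := by
        intro m
        induction m with
        | zero => simp
        | succ m ih => rw [Finset.sum_range_succ, ih, pow_succ]; ring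
      rw [h5]
      linarith
    calc ∑ l, a l ^ 2 * (M.col j l) ^ 2 ≤ ∑ l : Fin n, 2 ^ (n - 1 - (l : ℕ)) * a j ^ 2 :=
          Finset.sum_le_sum fun l _ => h3 l
      _ = (∑ l : Fin n, (2 : ℝ) ^ (n - 1 - (l : ℕ))) * a j ^ 2 := by rw [Finset.sum_mul]
      _ ≤ 2 ^ n * a j ^ 2 := mul_le_mul_of_nonneg_right h4 (sq_nonneg _)
  · intro x k hk
    obtain ⟨l, hl, hmax⟩ := Finset.exists_max_image (univ.filter fun l => x l ≠ 0) id
      ⟨k, by simpa using hk⟩
    simp only [Finset.mem_filter, Finset.mem_univ, true_and, id] at hl hmax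
    have h1 : (M *ᵥ fun i => (x i : ℝ)) l = x l := by
      change ∑ j, M l j * (x j : ℝ) = x l
      rw [Finset.sum_eq_single l]
      · rw [h.diag, one_mul]
      · intro j _ hj
        rcases lt_or_gt_of_ne hj with h2 | h2
        · rw [h.low l j h2, zero_mul]
        · by_cases h3 : x j = 0
          · rw [h3, Int.cast_zero, mul_zero]
          · exact absurd (hmax j h3) (not_le.2 h2)
      · intro h0
        exact absurd (Finset.mem_univ _) h0
    have h2 : a l ^ 2 ≤ qS S (U *ᵥ x) := by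
      rw [form_Rd h]
      have h3 : a l ^ 2 * ((M *ᵥ fun i => (x i : ℝ)) l) ^ 2 ≤
          ∑ l, a l ^ 2 * ((M *ᵥ fun i => (x i : ℝ)) l) ^ 2 :=
        Finset.single_le_sum (f := fun l => a l ^ 2 * ((M *ᵥ fun i => (x i : ℝ)) l) ^ 2)
          (fun i _ => by positivity) (Finset.mem_univ l)
      refine le_trans ?_ h3
      rw [h1]
      have h4 : (1 : ℝ) ≤ (x l : ℝ) ^ 2 := by
        have : (1 : ℤ) ≤ x l ^ 2 := by
          have := sq_nonneg (x l)
          have h5 : x l ^ 2 ≠ 0 := pow_ne_zero 2 hl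
          omega
        exact_mod_cast this
      nlinarith [sq_nonneg (a l)]
    calc a k ^ 2 ≤ 2 ^ n * a l ^ 2 := hA' k l (hmax k hk)
      _ ≤ 2 ^ n * qS S (U *ᵥ x) := mul_le_mul_of_nonneg_left h2 (by positivity)
  · have hM : M.det = 1 := by
      rw [Matrix.det_of_isUpperTriangular (fun i j hij => h.low i j hij)]
      exact Finset.prod_eq_one fun i _ => h.diag i
    have h1 := congrArg Matrix.det h.eq
    rw [Matrix.det_mul, Matrix.det_mul, Matrix.det_mul, Matrix.det_mul, Matrix.det_transpose,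
      Matrix.det_transpose, hM, Matrix.det_diagonal, one_mul, mul_one] at h1
    rw [← h1]
    have h2 : (toR U).det = (U.det : ℝ) := ((Int.castRingHom ℝ).map_det U).symm
    rw [h2]
    rcases Int.isUnit_iff.1 h.unit with h3 | h3 <;> rw [h3] <;> simp

end Pool.Agent.Helper54.HQ
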