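import Pool.Agent.Helper54.HQ.StR

/-!
# HQ, module Re: duality of the reduced basis
-/

set_option autoImplicit false

namespace Pool.Agent.Helper54.HQ

open Polynomial Finset Matrix

/-- A matrix with a large block of zeros has determinant zero. -/
private lemma det_zero_Re {n : ℕ} (B : Matrix (Fin n) (Fin n) ℤ) (i : Fin n)
    (h : ∀ k l : Fin n, k ≤ i → l ≤ Fin.rev i → B k l = 0) : B.det = 0 := by
  rw [Matrix.det_apply]
  refine Finset.sum_eq_zero fun σ _ => ?_
  have hex : ∃ l : Fin n, l ≤ Fin.rev i ∧ σ l ≤ i := by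
    by_contra hcon
    push Not at hcon
    have hsub : (Finset.Iic (Fin.rev i)).image σ ⊆ Finset.Ioi i := by
      intro k hk
      obtain ⟨l, hl, rfl⟩ := Finset.mem_image.1 hk
      exact Finset.mem_Ioi.2 (hcon l (Finset.mem_Iic.1 hl))
    have hcard := Finset.card_le_card hsub
    rw [Finset.card_image_of_injective _ σ.injective, Fin.card_Iic, Fin.card_Ioi, Fin.val_rev] at hcard
    have := i.2
    omega
  obtain ⟨l, hl, hk⟩ := hex
  have h0 : ∏ j, B (σ j) j = 0 := Finset.prod_eq_zero (Finset.mem_univ l) (h _ _ hk hl)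
  rw [h0, smul_zero]

theorem hRe (h : StRd) : StRe := by
  intro n S U M a hred hS B hB hbd
  obtain ⟨h1, h2, -, h4⟩ := h n S U M a hred
  rw [hS] at h4
  have hpos : ∀ i, 0 < a i ^ 2 := fun i => pow_pos (hred.pos i) 2
  have hentry : ∀ k l, (Uᵀ * B * U) k l = (fun i => U i k) ⬝ᵥ B *ᵥ (fun i => U i l) := by
    intro k l
    rw [Matrix.mul_assoc, Matrix.mul_apply']
    congr 1
  have hbe : ∀ k l, (((Uᵀ * B * U) k l : ℤ) : ℝ) ^ 2 ≤ 2 ^ (2 * n) * (a k ^ 2 * a l ^ 2) := by
    intro k l
    rw [hentry]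
    refine (hbd _ _).trans ?_
    have e : (2 : ℝ) ^ (2 * n) * (a k ^ 2 * a l ^ 2) = (2 ^ n * a k ^ 2) * (2 ^ n * a l ^ 2) := by
      rw [two_mul, pow_add]; ring
    rw [e]
    by_cases hq : 0 ≤ qS S (fun i => U i l)
    · exact mul_le_mul (h2 k) (h2 l) hq (by positivity)
    · have h0 := hbd (fun i => U i l) (fun i => U i l)
      have h3 : 0 ≤ qS S (fun i => U i k) ∨ qS S (fun i => U i k) < 0 := le_or_gt _ _
      rcases h3 with h3 | h3
      · refine le_trans (mul_nonpos_of_nonneg_of_nonpos h3 (not_le.1 hq).le) (by positivity)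
      · -- both negative: impossible since a quadratic form value is a sum of squares
        exfalso
        have h5 : qS S (fun i => U i k) = ∑ i, a i ^ 2 * M i k ^ 2 := by
          have h6 : ((toR U)ᵀ * S * toR U) k k = (Mᵀ * Matrix.diagonal (fun i => a i ^ 2) * M) k k := by
            rw [hred.eq]
          have h7 : ((toR U)ᵀ * S * toR U) k k = qS S (fun i => U i k) := by
            rw [Matrix.mul_assoc, Matrix.mul_apply', qS]
            congr 1
          rw [← h7, h6, Matrix.mul_apply]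
          refine Finset.sum_congr rfl fun i _ => ?_
          rw [Matrix.mul_diagonal, Matrix.transpose_apply]
          ring
        rw [h5] at h3
        exact absurd h3 (not_lt.2 (Finset.sum_nonneg fun i _ => by positivity))
  have hlow : ∀ i, 1 ≤ 2 ^ (4 * n) * (a i ^ 2 * a (Fin.rev i) ^ 2) := by
    intro i
    by_contra hcon
    rw [not_le] at hcon
    have hdet : (Uᵀ * B * U).det = 0 := by
      refine det_zero_Re _ i fun k l hk hl => ?_
      have h3 : (((Uᵀ * B * U) k l : ℤ) : ℝ) ^ 2 < 1 := by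
        refine (hbe k l).trans_lt (lt_of_le_of_lt ?_ hcon)
        have e : (2 : ℝ) ^ (4 * n) * (a i ^ 2 * a (Fin.rev i) ^ 2) =
            2 ^ (2 * n) * ((2 ^ n * a i ^ 2) * (2 ^ n * a (Fin.rev i) ^ 2)) := by
          rw [show 4 * n = 2 * n + n + n by ring, pow_add, pow_add]; ring
        rw [e]
        refine mul_le_mul_of_nonneg_left ?_ (by positivity)
        exact mul_le_mul (h1 k i hk) (h1 l _ hl) (hpos l).le (by positivity)
      have h5 : ((Uᵀ * B * U) k l) ^ 2 < 1 := by exact_mod_cast h3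
      have h6 : ((Uᵀ * B * U) k l) ^ 2 = 0 := le_antisymm (by omega) (sq_nonneg _)
      exact pow_eq_zero_iff (two_ne_zero) |>.1 h6
    rw [Matrix.det_mul, Matrix.det_mul, Matrix.det_transpose] at hdet
    have hu : IsUnit (U.det * B.det * U.det) := (hred.unit.mul hB).mul hred.unit
    rw [hdet] at hu
    exact not_isUnit_zero hu
  intro i
  refine ⟨hlow i, ?_⟩
  have hprod : ∏ j, (a j ^ 2 * a (Fin.rev j) ^ 2) = 1 := by
    rw [Finset.prod_mul_distrib, h4, one_mul, ← h4]
    exact Equiv.prod_comp Fin.revPerm (fun j => a j ^ 2)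
  have hsplit := Finset.mul_prod_erase Finset.univ (fun j => a j ^ 2 * a (Fin.rev j) ^ 2)
    (Finset.mem_univ i)
  rw [hprod] at hsplit
  have hrest : ((1 : ℝ) / 2 ^ (4 * n)) ^ (n - 1) ≤
      ∏ j ∈ Finset.univ.erase i, (a j ^ 2 * a (Fin.rev j) ^ 2) := by
    have hc : (Finset.univ.erase i).card = n - 1 := by
      rw [Finset.card_erase_of_mem (Finset.mem_univ i), Finset.card_univ, Fintype.card_fin]
    rw [← hc, ← Finset.prod_const]
    refine Finset.prod_le_prod (fun _ _ => by positivity) fun j _ => ?_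
    rw [div_le_iff₀ (by positivity), mul_comm]
    exact hlow j
  have hx : 0 < a i ^ 2 * a (Fin.rev i) ^ 2 := mul_pos (hpos i) (hpos _)
  have h5 : (a i ^ 2 * a (Fin.rev i) ^ 2) * ((1 : ℝ) / 2 ^ (4 * n)) ^ (n - 1) ≤ 1 := by
    calc _ ≤ (a i ^ 2 * a (Fin.rev i) ^ 2) *
        ∏ j ∈ Finset.univ.erase i, (a j ^ 2 * a (Fin.rev j) ^ 2) :=
          mul_le_mul_of_nonneg_left hrest hx.le
      _ = 1 := hsplit
  rw [one_div, inv_pow, ← div_eq_mul_inv, div_le_one (by positivity)] at h5
  refine h5.trans ?_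
  rw [← pow_mul]
  refine pow_le_pow_right₀ (by norm_num) ?_
  have : n - 1 ≤ n := Nat.sub_le _ _
  nlinarith [Nat.zero_le n]

end Pool.Agent.Helper54.HQ
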