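import Pool.Agent.Helper54.HQ.StR

/-!
# HQ, module Rf: steps of the reduced basis
-/

set_option autoImplicit false

namespace Pool.Agent.Helper54.HQ

open Polynomial Finset Matrix

private lemma charmatrix_block_Rf {n : ℕ} (T : Matrix (Fin n) (Fin n) ℤ) (p : Fin n → Prop)
    [DecidablePred p] :
    (charmatrix T).toSquareBlockProp p = charmatrix (T.toSquareBlockProp p) := by
  ext1 i j
  by_cases hij : i = j
  · subst hij
    rw [charmatrix_apply_eq]
    simp [toSquareBlockProp_def, charmatrix_apply_eq]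
  · rw [charmatrix_apply_ne _ _ _ hij]
    have : (i : Fin n) ≠ j := fun h => hij (Subtype.ext h)
    simp [toSquareBlockProp_def, charmatrix_apply_ne _ _ _ this]

private lemma red_Rf {n : ℕ} (T : Matrix (Fin n) (Fin n) ℤ) (i j : Fin n) (hij : (i : ℕ) + 1 = j)
    (h : ∀ l k : Fin n, i < l → k ≤ i → T l k = 0)
    (hirr : Irreducible (T.charpoly.map (Int.castRingHom ℚ))) : False := by
  have h1 : T.charpoly = (T.toSquareBlockProp (fun k => k ≤ i)).charpoly *
      (T.toSquareBlockProp (fun k => ¬ k ≤ i)).charpoly := by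
    rw [Matrix.charpoly, Matrix.twoBlockTriangular_det (charmatrix T) (fun k => k ≤ i),
      charmatrix_block_Rf, charmatrix_block_Rf]
    · rfl
    · intro l hl k hk
      have hlk : l ≠ k := fun h0 => hl (h0 ▸ hk)
      rw [charmatrix_apply_ne _ _ _ hlk, h l k (not_le.1 hl) hk, map_zero, neg_zero]
  rw [h1, Polynomial.map_mul] at hirr
  rcases hirr.isUnit_or_isUnit rfl with hu | hu
  · have h3 : ((T.toSquareBlockProp (fun k => k ≤ i)).charpoly.map (Int.castRingHom ℚ)).natDegree =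
        Fintype.card {k // k ≤ i} := by
      rw [(Matrix.charpoly_monic _).natDegree_map, Matrix.charpoly_natDegree_eq_dim]
    have h4 := Polynomial.natDegree_eq_zero_of_isUnit hu
    rw [h3] at h4
    have h5 := Fintype.card_eq_zero_iff.1 h4
    exact h5.false ⟨i, le_rfl⟩
  · have h3 : ((T.toSquareBlockProp (fun k => ¬ k ≤ i)).charpoly.map (Int.castRingHom ℚ)).natDegree =
        Fintype.card {k // ¬ k ≤ i} := by
      rw [(Matrix.charpoly_monic _).natDegree_map, Matrix.charpoly_natDegree_eq_dim]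
    have h4 := Polynomial.natDegree_eq_zero_of_isUnit hu
    rw [h3] at h4
    have h5 := Fintype.card_eq_zero_iff.1 h4
    refine h5.false ⟨j, ?_⟩
    rw [not_le, Fin.lt_def]
    omega

theorem hRf (h : StRd) : StRf := by
  intro n S U M a hred H hH T hirr hT i j hij
  obtain ⟨h1, h2, h3, -⟩ := h n S U M a hred
  by_contra hcon
  rw [not_le] at hcon
  have hUu : IsUnit U := (Matrix.isUnit_iff_isUnit_det U).2 hred.unit
  obtain ⟨V, hV⟩ := hUu
  have hUV : U * (V⁻¹ : (Matrix (Fin n) (Fin n) ℤ)ˣ).val = 1 := by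
    rw [← hV]; exact V.mul_inv
  have hch : ((V⁻¹ : (Matrix (Fin n) (Fin n) ℤ)ˣ).val * T * V.val).charpoly = T.charpoly :=
    by rw [Matrix.coe_units_inv]; exact Matrix.charpoly_units_conj' V T
  refine red_Rf ((V⁻¹ : (Matrix (Fin n) (Fin n) ℤ)ˣ).val * T * V.val) i j hij ?_ (by rwa [hch])
  intro l k hl hk
  by_contra hne
  rw [hV] at hne
  -- the `k`-th column of `T'`
  have hcol : (fun r => ((V⁻¹ : (Matrix (Fin n) (Fin n) ℤ)ˣ).val * T * U) r k) =
      (V⁻¹ : (Matrix (Fin n) (Fin n) ℤ)ˣ).val *ᵥ (T *ᵥ (fun r => U r k)) := by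
    funext r
    rw [Matrix.mulVec_mulVec, Matrix.mul_apply']
    rfl
  have hUT : U *ᵥ (fun r => ((V⁻¹ : (Matrix (Fin n) (Fin n) ℤ)ˣ).val * T * U) r k) =
      T *ᵥ (fun r => U r k) := by
    rw [hcol, Matrix.mulVec_mulVec, hUV, Matrix.one_mulVec]
  have h5 := h3 (fun r => ((V⁻¹ : (Matrix (Fin n) (Fin n) ℤ)ˣ).val * T * U) r k) l hne
  rw [hUT] at h5
  have h6 := hT (fun r => U r k)
  have h7 := h2 k
  have h8 := h1 k i hk
  have hjl : j ≤ l := by
    rw [Fin.lt_def] at hl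
    rw [Fin.le_def]
    omega
  have h9 := h1 j l hjl
  have hH2 : 0 ≤ (2 * H) ^ 2 := sq_nonneg _
  have hP : (0 : ℝ) < 2 ^ n := by positivity
  refine absurd hcon (not_lt.2 ?_)
  calc a j ^ 2 ≤ 2 ^ n * a l ^ 2 := h9
    _ ≤ 2 ^ n * (2 ^ n * qS S (T *ᵥ fun r => U r k)) := mul_le_mul_of_nonneg_left h5 hP.le
    _ ≤ 2 ^ n * (2 ^ n * ((2 * H) ^ 2 * (2 ^ n * (2 ^ n * a i ^ 2)))) := by
        refine mul_le_mul_of_nonneg_left (mul_le_mul_of_nonneg_left (h6.trans ?_) hP.le) hP.le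
        refine mul_le_mul_of_nonneg_left (h7.trans ?_) hH2
        exact mul_le_mul_of_nonneg_left h8 hP.le
    _ = 2 ^ (4 * n + 2) * H ^ 2 * a i ^ 2 := by
        rw [show 4 * n + 2 = n + n + n + n + 2 by ring, pow_add, pow_add, pow_add, pow_add]; ring

end Pool.Agent.Helper54.HQ
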