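import Pool.Agent.Helper54.HQ.StR

/-!
# HQ: Rh (the pair of a reduced basis)
-/

set_option autoImplicit false

namespace Pool.Agent.Helper54.HQ

open Polynomial Finset Filter Topology Matrix IsDedekindDomain
open Pool.Agent.Helper3.HY (co tau Ix nu TType IType rho2 exc Adm Gm)
open Pool.Agent.Helper3

private lemma qS_nonneg_Rh {n : ℕ} {S : Matrix (Fin n) (Fin n) ℝ} (hS : S.PosDef)
    (x : Fin n → ℤ) : 0 ≤ qS S x := by
  have h := hS.posSemidef.dotProduct_mulVec_nonneg (fun i => (x i : ℝ))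
  rw [star_trivial] at h
  exact h

private lemma entry_Rh {n : ℕ} (U B : Matrix (Fin n) (Fin n) ℤ) (i j : Fin n) :
    (Uᵀ * B * U) i j = (fun k => U k i) ⬝ᵥ B *ᵥ (fun k => U k j) := by
  rw [Matrix.mul_assoc]
  rfl

private lemma entry2_Rh {n : ℕ} (U B T : Matrix (Fin n) (Fin n) ℤ) (i j : Fin n) :
    (Uᵀ * (B * T) * U) i j = (fun k => U k i) ⬝ᵥ B *ᵥ (T *ᵥ (fun k => U k j)) := by
  rw [entry_Rh, Matrix.mulVec_mulVec]

private lemma symm_Rh {n : ℕ} (U B : Matrix (Fin n) (Fin n) ℤ) (hB : B.IsSymm) :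
    (Uᵀ * B * U).IsSymm := by
  unfold Matrix.IsSymm
  rw [Matrix.transpose_mul, Matrix.transpose_mul, Matrix.transpose_transpose, hB.eq,
    Matrix.mul_assoc]

/-- exponents below `g` -/
private lemma nu_lt_Rh {g : ℕ} (m : Fin g → ℕ) (i : Ix g) (h : (i : ℕ) < g) :
    nu g m i = -(m ⟨i, h⟩ : ℤ) := by
  unfold nu
  rw [dif_pos h]

private lemma nu_mid_Rh {g : ℕ} (m : Fin g → ℕ) (i : Ix g) (h : (i : ℕ) = g) :
    nu g m i = 0 := by
  unfold nu
  rw [dif_neg (by omega), dif_neg (by omega)]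

private lemma zpow_pos_Rh (k : ℤ) : (0 : ℝ) < (2 : ℝ) ^ k := zpow_pos two_pos k

/-- The integral entries which are small vanish. -/
private lemma zero_Rh {z : ℤ} (h : |(z : ℝ)| < 1) : z = 0 := by
  have h1 : |z| < 1 := by exact_mod_cast h
  exact Int.abs_lt_one_iff.1 h1

theorem hRh (h1 : StRc) (h2 : StRd) (h3 : StRe) (h4 : StRf) (h5 : StRg) : StRh := by
  intro g hg
  obtain ⟨K, hK1, hK⟩ := h5 g (1 / 2 ^ (4 * (2 * g + 1))) (2 ^ (4 * (2 * g + 1) ^ 2)) (by positivity)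
  obtain ⟨κ, hκ⟩ := pow_unbounded_of_one_lt (K ^ 2 * 2 ^ (2 * (2 * g + 1) + 2)) (one_lt_two (α := ℝ))
  have hK0 : 0 < K := by linarith
  have hK2 : 1 ≤ K ^ 2 := one_le_pow₀ hK1
  set n : ℕ := 2 * g + 1 with hn
  have hC1 : (1 : ℝ) ≤ 2 ^ (n + 1) * K ^ 2 := by
    have : (1 : ℝ) ≤ 2 ^ (n + 1) := one_le_pow₀ (by norm_num)
    nlinarith
  have hCκ : 2 ^ (n + 1) * K ^ 2 ≤ (2 : ℝ) ^ κ := by
    have : (2 : ℝ) ^ (n + 1) ≤ 2 ^ (2 * n + 2) := pow_le_pow_right₀ (by norm_num) (by omega)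
    nlinarith
  refine ⟨2 ^ (n + 1) * K ^ 2, κ, hC1, ?_⟩
  intro H hH S B T hS hdet hBs hBu hAs hirr hBS hTS
  have hH1 : (1 : ℝ) ≤ H := by exact_mod_cast hH
  have hHlog : (H : ℝ) < 2 ^ (Nat.log 2 H + 1) := by
    exact_mod_cast Nat.lt_pow_succ_log_self (by norm_num) H
  obtain ⟨U, M, a, hred⟩ := h1 n S hS
  obtain ⟨d1, d2, -, -⟩ := h2 n S U M a hred
  have e1 := h3 n S U M a hred hdet B hBu hBS
  have f1 := h4 n S U M a hred H (by linarith) T hirr hTS
  have hapos := hred.pos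
  obtain ⟨m, hm, hmK⟩ := hK a hapos d1 (by
    intro i
    refine ⟨?_, (e1 i).2⟩
    rw [div_le_iff₀ (by positivity)]
    have := (e1 i).1
    linarith)
  -- the entries
  have key : ∀ i j, a i * a j ≤ K ^ 2 * (2 : ℝ) ^ (nu g m i + nu g m j) := by
    intro i j
    rw [zpow_add₀ (by norm_num)]
    have hi := (hmK i).2
    have hj := (hmK j).2
    have pi := hapos i
    have pj := hapos j
    have := mul_le_mul hi hj pj.le (by have := zpow_pos_Rh (nu g m i); positivity)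
    calc a i * a j ≤ K * 2 ^ nu g m i * (K * 2 ^ nu g m j) := this
      _ = _ := by ring
  have hq : ∀ j, qS S (fun i => U i j) ≤ 2 ^ n * a j ^ 2 := d2
  have hq0 : ∀ x, 0 ≤ qS S x := qS_nonneg_Rh hS
  have bB : ∀ i j, |(((Uᵀ * B * U) i j : ℤ) : ℝ)| ≤ 2 ^ n * (a i * a j) := by
    intro i j
    rw [entry_Rh]
    have h := hBS (fun k => U k i) (fun k => U k j)
    have h' : qS S (fun k => U k i) * qS S (fun k => U k j) ≤ (2 ^ n * a i ^ 2) * (2 ^ n * a j ^ 2) :=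
      mul_le_mul (hq i) (hq j) (hq0 _) (by positivity)
    apply abs_le_of_sq_le_sq
    · calc _ ≤ _ := h
        _ ≤ _ := h'
        _ = _ := by ring
    · have := hapos i
      have := hapos j
      positivity
  have bA : ∀ i j, |(((Uᵀ * (B * T) * U) i j : ℤ) : ℝ)| ≤ 2 * H * 2 ^ n * (a i * a j) := by
    intro i j
    rw [entry2_Rh]
    have h := hBS (fun k => U k i) (T *ᵥ fun k => U k j)
    have h2 := hTS (fun k => U k j)
    have h3 : qS S (T *ᵥ fun k => U k j) ≤ (2 * (H : ℝ)) ^ 2 * (2 ^ n * a j ^ 2) :=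
      h2.trans (mul_le_mul_of_nonneg_left (hq j) (by positivity))
    have h' : qS S (fun k => U k i) * qS S (T *ᵥ fun k => U k j) ≤
        (2 ^ n * a i ^ 2) * ((2 * (H : ℝ)) ^ 2 * (2 ^ n * a j ^ 2)) :=
      mul_le_mul (hq i) h3 (hq0 _) (by positivity)
    apply abs_le_of_sq_le_sq
    · calc _ ≤ _ := h
        _ ≤ _ := h'
        _ = _ := by ring
    · have := hapos i
      have := hapos j
      positivity
  have cB : ∀ i j, |(((Uᵀ * B * U) i j : ℤ) : ℝ)| ≤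
      2 ^ (n + 1) * K ^ 2 * (2 : ℝ) ^ (nu g m i + nu g m j) := by
    intro i j
    have hp := zpow_pos_Rh (nu g m i + nu g m j)
    calc _ ≤ _ := bB i j
      _ ≤ 2 ^ n * (K ^ 2 * (2 : ℝ) ^ (nu g m i + nu g m j)) :=
        mul_le_mul_of_nonneg_left (key i j) (by positivity)
      _ ≤ 2 ^ (n + 1) * (K ^ 2 * (2 : ℝ) ^ (nu g m i + nu g m j)) :=
        mul_le_mul_of_nonneg_right (pow_le_pow_right₀ (by norm_num) (by omega)) (by positivity)
      _ = _ := by ring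
  have cA : ∀ i j, |(((Uᵀ * (B * T) * U) i j : ℤ) : ℝ)| ≤
      2 ^ (n + 1) * K ^ 2 * (H : ℝ) * (2 : ℝ) ^ (nu g m i + nu g m j) := by
    intro i j
    calc _ ≤ _ := bA i j
      _ ≤ 2 * H * 2 ^ n * (K ^ 2 * (2 : ℝ) ^ (nu g m i + nu g m j)) :=
        mul_le_mul_of_nonneg_left (key i j) (by positivity)
      _ = _ := by ring
  have hUu : IsUnit U.det := hred.unit
  -- the steps
  have step : ∀ i j : Ix g, (i : ℕ) + 1 = j → nu g m j ≤ nu g m i + (Nat.log 2 H + κ : ℕ) := by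
    intro i j hij
    have hf := f1 i j hij
    have pi := hapos i
    have pj := hapos j
    have h' : a j ≤ 2 ^ (2 * n + 1) * H * a i := by
      have : |a j| ≤ 2 ^ (2 * n + 1) * H * a i := by
        apply abs_le_of_sq_le_sq
        · calc a j ^ 2 ≤ _ := hf
            _ = _ := by ring
        · positivity
      exact (le_abs_self _).trans this
    have h'' : (2 : ℝ) ^ nu g m j < 2 ^ (nu g m i + (Nat.log 2 H + κ : ℕ)) := by
      rw [zpow_add₀ (by norm_num), zpow_natCast, pow_add]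
      have hp := zpow_pos_Rh (nu g m i)
      calc (2 : ℝ) ^ nu g m j ≤ K * a j := (hmK j).1
        _ ≤ K * (2 ^ (2 * n + 1) * H * a i) := mul_le_mul_of_nonneg_left h' hK0.le
        _ ≤ K * (2 ^ (2 * n + 1) * H * (K * 2 ^ nu g m i)) :=
          mul_le_mul_of_nonneg_left (mul_le_mul_of_nonneg_left (hmK i).2 (by positivity)) hK0.le
        _ = K ^ 2 * 2 ^ (2 * n + 1) * 2 ^ nu g m i * H := by ring
        _ ≤ K ^ 2 * 2 ^ (2 * n + 1) * 2 ^ nu g m i * 2 ^ (Nat.log 2 H + 1) :=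
          mul_le_mul_of_nonneg_left hHlog.le (by positivity)
        _ = 2 ^ nu g m i * (2 ^ Nat.log 2 H * (K ^ 2 * 2 ^ (2 * n + 2))) := by ring
        _ < 2 ^ nu g m i * (2 ^ Nat.log 2 H * 2 ^ κ) :=
          mul_lt_mul_of_pos_left (mul_lt_mul_of_pos_left hκ (by positivity)) hp
    exact ((zpow_lt_zpow_iff_right₀ (by norm_num)).1 h'').le
  have stepm : ∀ i j : Fin g, (i : ℕ) + 1 = j → m i ≤ m j + (Nat.log 2 H + κ) := by
    intro i j hij
    have h := step ⟨i, by omega⟩ ⟨j, by omega⟩ hij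
    rw [nu_lt_Rh m ⟨i, by omega⟩ i.2, nu_lt_Rh m ⟨j, by omega⟩ j.2] at h
    simp only [Fin.eta] at h
    omega
  have lastm : ∀ i : Fin g, (i : ℕ) + 1 = g → m i ≤ Nat.log 2 H + κ := by
    intro i hi
    have h := step ⟨i, by omega⟩ ⟨g, by omega⟩ hi
    rw [nu_lt_Rh m ⟨i, by omega⟩ i.2, nu_mid_Rh m ⟨g, by omega⟩ rfl] at h
    simp only [Fin.eta] at h
    omega
  refine ⟨U, m, hUu, ⟨hm, lastm, stepm⟩, ⟨symm_Rh U B hBs, symm_Rh U (B * T) hAs, ?_, cB, cA⟩,
    ?_, ?_⟩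
  · change IsUnit (Uᵀ * B * U).det
    rw [Matrix.det_mul, Matrix.det_mul, Matrix.det_transpose]
    exact (hUu.mul hBu).mul hUu
  · intro j
    have hp := zpow_pos_Rh (nu g m j)
    have pj := hapos j
    calc qS S (fun i => U i j) ≤ 2 ^ n * a j ^ 2 := hq j
      _ ≤ 2 ^ n * (K * 2 ^ nu g m j) ^ 2 := by
        apply mul_le_mul_of_nonneg_left _ (by positivity)
        exact pow_le_pow_left₀ pj.le (hmK j).2 2
      _ = (2 ^ n * K ^ 2) * (2 ^ nu g m j) ^ 2 := by ring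
      _ ≤ (2 ^ (n + 1) * K ^ 2) ^ 2 * (2 ^ nu g m j) ^ 2 := by
        apply mul_le_mul_of_nonneg_right _ (by positivity)
        have h1 : (2 : ℝ) ^ n * K ^ 2 ≤ 2 ^ (n + 1) * K ^ 2 :=
          mul_le_mul_of_nonneg_right (pow_le_pow_right₀ (by norm_num) (by omega)) (by positivity)
        nlinarith
      _ = _ := by ring
  · by_cases hcase : ∀ i : Fin g, (i : ℕ) + 1 = g → 2 * m i ≤ Nat.log 2 H + κ
    · exact Or.inl ⟨hm, hcase, stepm⟩
    · right
      push Not at hcase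
      obtain ⟨l, hl, hlm⟩ := hcase
      have small : ∀ i j : Ix g, (i : ℕ) < g → (j : ℕ) < g →
          2 ^ (n + 1) * K ^ 2 * (H : ℝ) * (2 : ℝ) ^ (nu g m i + nu g m j) < 1 := by
        intro i j hi hj
        have hi' : nu g m i ≤ -(m l : ℤ) := by
          rw [nu_lt_Rh m i hi]
          have := hm (show (⟨i, hi⟩ : Fin g) ≤ l by rw [Fin.le_def]; simp only; omega)
          omega
        have hj' : nu g m j ≤ -(m l : ℤ) := by
          rw [nu_lt_Rh m j hj]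
          have := hm (show (⟨j, hj⟩ : Fin g) ≤ l by rw [Fin.le_def]; simp only; omega)
          omega
        have hsum : nu g m i + nu g m j ≤ -((Nat.log 2 H + 1 + κ : ℕ) : ℤ) := by omega
        have hle : (2 : ℝ) ^ (nu g m i + nu g m j) ≤ 2 ^ (-((Nat.log 2 H + 1 + κ : ℕ) : ℤ)) :=
          zpow_le_zpow_right₀ (by norm_num) hsum
        rw [_root_.zpow_neg, zpow_natCast] at hle
        have hP : (0 : ℝ) < 2 ^ (Nat.log 2 H + 1 + κ) := by positivity
        calc 2 ^ (n + 1) * K ^ 2 * (H : ℝ) * (2 : ℝ) ^ (nu g m i + nu g m j)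
            ≤ 2 ^ (n + 1) * K ^ 2 * (H : ℝ) * (2 ^ (Nat.log 2 H + 1 + κ))⁻¹ :=
              mul_le_mul_of_nonneg_left hle (by positivity)
          _ < 1 := by
            rw [← div_eq_mul_inv, div_lt_one hP]
            calc 2 ^ (n + 1) * K ^ 2 * (H : ℝ) ≤ 2 ^ κ * H :=
                  mul_le_mul_of_nonneg_right hCκ (by positivity)
              _ < 2 ^ κ * 2 ^ (Nat.log 2 H + 1) := mul_lt_mul_of_pos_left hHlog (by positivity)
              _ = 2 ^ (Nat.log 2 H + 1 + κ) := by rw [pow_add 2 (Nat.log 2 H + 1) κ, mul_comm]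
      intro i j hi hj
      have hs := small i j hi hj
      refine ⟨zero_Rh ?_, zero_Rh ?_⟩
      · refine lt_of_le_of_lt (cB i j) (lt_of_le_of_lt ?_ hs)
        have hp := zpow_pos_Rh (nu g m i + nu g m j)
        apply mul_le_mul_of_nonneg_right _ hp.le
        nlinarith
      · exact lt_of_le_of_lt (cA i j) hs

end Pool.Agent.Helper54.HQ
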