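import Pool.Agent.Helper54.HQ.StS

/-!
# HQ, module Sa: lower equidistribution in boxes
-/

set_option autoImplicit false

namespace Pool.Agent.Helper54.HQ

open Finset

theorem hSa : StSa := by
  intro N ι _ _ q hq hcop A l r n hn
  have hq' : ∀ i, NeZero (q i) := fun i => ⟨(hq i).ne'⟩
  set Q := ∏ i, q i with hQdef
  have hQ : 0 < Q := Finset.prod_pos fun i _ => hq i
  have : NeZero Q := ⟨hQ.ne'⟩
  have hc : Pairwise (Function.onFun Nat.Coprime q) := fun i j hij => hcop i j hij
  set e : ZMod Q ≃+* (∀ i, ZMod (q i)) := ZMod.prodEquivPi q hc with he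
  have hQZ : (Q : ℤ) = ∏ i, (q i : ℤ) := by rw [hQdef]; push_cast; rfl
  have hQZ0 : (0 : ℤ) < Q := by exact_mod_cast hQ
  -- the map
  let z : (∀ i, Fin N → ZMod (q i)) → Fin N → ZMod Q := fun a j => e.symm fun i => a i j
  let Φ : (∀ i, Fin N → ZMod (q i)) × (Fin N → ℕ) → Fin N → ℤ := fun x j =>
    l j + ((z x.1 j - (l j : ZMod Q)).val : ℤ) + (x.2 j : ℤ) * Q
  have hcast : ∀ x j, ((Φ x j : ℤ) : ZMod Q) = z x.1 j := by
    intro x j
    show ((l j + ((z x.1 j - (l j : ZMod Q)).val : ℤ) + (x.2 j : ℤ) * Q : ℤ) : ZMod Q) = _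
    push_cast
    rw [ZMod.natCast_self, mul_zero, add_zero, ZMod.natCast_zmod_val]
    ring
  have hcast2 : ∀ x j i, ((Φ x j : ℤ) : ZMod (q i)) = x.1 i j := by
    intro x j i
    have h1 : e ((Φ x j : ℤ) : ZMod Q) = fun i => x.1 i j := by
      rw [hcast]
      exact e.apply_symm_apply _
    rw [map_intCast] at h1
    have h2 := congrFun h1 i
    rwa [Pi.intCast_apply] at h2
  set P : Finset ((∀ i, Fin N → ZMod (q i)) × (Fin N → ℕ)) :=
    (Fintype.piFinset A) ×ˢ (Fintype.piFinset fun j => range (n j)) with hP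
  have hcard : P.card = (∏ i, (A i).card) * ∏ j, n j := by
    rw [hP, Finset.card_product, Fintype.card_piFinset, Fintype.card_piFinset]
    simp
  rw [← hcard, ← Set.ncard_coe_finset]
  refine Set.ncard_le_ncard_of_injOn Φ ?_ ?_ ?_
  · intro x hx
    rw [Finset.mem_coe, hP, Finset.mem_product, Fintype.mem_piFinset, Fintype.mem_piFinset] at hx
    refine ⟨fun j => ?_, fun i => ?_⟩
    · have h1 := ZMod.val_lt (z x.1 j - (l j : ZMod Q))
      have h2 := Finset.mem_range.1 (hx.2 j)
      have h3 := hn j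
      rw [← hQZ] at h3
      have h1' : ((z x.1 j - (l j : ZMod Q)).val : ℤ) < Q := by exact_mod_cast h1
      have h0' : (0 : ℤ) ≤ ((z x.1 j - (l j : ZMod Q)).val : ℤ) := by positivity
      have h2' : (x.2 j : ℤ) + 1 ≤ n j := by exact_mod_cast h2
      have h2'' : (0 : ℤ) ≤ x.2 j := by positivity
      show l j ≤ l j + ((z x.1 j - (l j : ZMod Q)).val : ℤ) + (x.2 j : ℤ) * Q ∧
        l j + ((z x.1 j - (l j : ZMod Q)).val : ℤ) + (x.2 j : ℤ) * Q ≤ r j
      constructor
      · nlinarith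
      · nlinarith
    · have : (fun j => ((Φ x j : ℤ) : ZMod (q i))) = x.1 i := by
        funext j
        exact hcast2 x j i
      rw [this]
      exact hx.1 i
  · intro x _ y _ hxy
    have h1 : x.1 = y.1 := by
      funext i j
      rw [← hcast2 x j i, ← hcast2 y j i, hxy]
    have h2 : x.2 = y.2 := by
      funext j
      have h3 := congrFun hxy j
      have h4 : l j + ((z x.1 j - (l j : ZMod Q)).val : ℤ) + (x.2 j : ℤ) * Q =
        l j + ((z y.1 j - (l j : ZMod Q)).val : ℤ) + (y.2 j : ℤ) * Q := h3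
      rw [h1] at h4
      have h5 : (x.2 j : ℤ) * Q = (y.2 j : ℤ) * Q := by linarith
      have h6 := mul_right_cancel₀ hQZ0.ne' h5
      exact_mod_cast h6
    exact Prod.ext h1 h2
  · apply Set.Finite.subset (Finset.finite_toSet (Fintype.piFinset fun j => Icc (l j) (r j)))
    intro c hc
    rw [Finset.mem_coe, Fintype.mem_piFinset]
    intro j
    rw [Finset.mem_Icc]
    exact hc.1 j

end Pool.Agent.Helper54.HQ
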