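import Pool.Agent.Helper54.HQ.StS

/-!
# HQ, module Sd: the special class modulo `2 N ^ 2`
-/

set_option autoImplicit false

namespace Pool.Agent.Helper54.HQ

open Polynomial Finset

private lemma irr_Sd (N : ℕ) (hN : N ≠ 0) : ∃ h : (ZMod 2)[X], h.Monic ∧ Irreducible h ∧
    h.natDegree = N := by
  haveI : Fact (Nat.Prime 2) := ⟨Nat.prime_two⟩
  obtain ⟨α, hα⟩ := Field.exists_primitive_element (ZMod 2) (GaloisField 2 N)
  have hint : IsIntegral (ZMod 2) α := IsIntegral.of_finite (ZMod 2) α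
  refine ⟨minpoly (ZMod 2) α, minpoly.monic hint, minpoly.irreducible hint, ?_⟩
  have h1 := IntermediateField.adjoin.finrank hint
  rw [hα, IntermediateField.finrank_top', GaloisField.finrank 2 hN] at h1
  exact h1.symm

private lemma rad_Sd (N p : ℕ) (hp : p.Prime) (hpN : p ∈ N.primeFactors) :
    p ∣ ∏ q ∈ N.primeFactors, q ∧ ¬ p ^ 2 ∣ ∏ q ∈ N.primeFactors, q := by
  refine ⟨Finset.dvd_prod_of_mem _ hpN, fun h => ?_⟩
  rw [← Finset.mul_prod_erase _ _ hpN, sq] at h
  have h1 := Nat.dvd_of_mul_dvd_mul_left hp.pos h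
  rw [hp.prime.dvd_finset_prod_iff] at h1
  obtain ⟨q, hq, hpq⟩ := h1
  rw [Finset.mem_erase] at hq
  have hq2 := (Nat.mem_primeFactors.1 hq.2).1
  exact hq.1 ((Nat.prime_dvd_prime_iff_eq hp hq2).1 hpq).symm

private lemma eval_Sd {N : ℕ} (c : Fin N → ℤ) (s : ℤ) :
    (mkP c).eval s = s ^ N + ∑ j : Fin N, c j * s ^ (j : ℕ) := by
  rw [mkP, eval_add, eval_pow, eval_X, eval_finset_sum]
  simp only [eval_mul, eval_C, eval_pow, eval_X]

theorem hSd (h : StSp) : StSd := by
  intro g hg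
  obtain ⟨hS1, hS2, hS3⟩ := h
  set N : ℕ := 2 * g + 1 with hN
  obtain ⟨f₂, hf₂m, hf₂i, hf₂d⟩ := irr_Sd N (by omega)
  set r : ℕ := ∏ q ∈ N.primeFactors, q with hr
  let b : Fin N → ℤ := fun j => if (j : ℕ) = 0 then (r : ℤ) else 0
  let e : Fin N → ℤ := fun j => ((f₂.coeff (j : ℕ)).val : ℤ)
  let a₀ : Fin N → ℤ := fun j => b j + (N : ℤ) ^ 2 * (e j - b j)
  refine ⟨fun j => (a₀ j : ZMod (2 * N ^ 2)), fun c hc => ?_⟩
  have hdvd : ∀ j, (2 * (N : ℤ) ^ 2) ∣ c j - a₀ j := by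
    intro j
    have h1 := congrFun hc j
    rw [eq_comm, ZMod.intCast_eq_intCast_iff_dvd_sub] at h1
    push_cast at h1
    exact h1
  have hbN : ∀ j, (N : ℤ) ^ 2 ∣ c j - b j := by
    intro j
    have h1 : (N : ℤ) ^ 2 ∣ c j - a₀ j := (Dvd.intro_left _ rfl).trans (hdvd j)
    have h2 : c j - b j = (c j - a₀ j) + (N : ℤ) ^ 2 * (e j - b j) := by
      simp only [a₀]; ring
    rw [h2]
    exact dvd_add h1 (Dvd.intro _ rfl)
  have he2 : ∀ j, (2 : ℤ) ∣ c j - e j := by
    intro j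
    have h1 : (2 : ℤ) ∣ c j - a₀ j := (Dvd.intro _ rfl).trans (hdvd j)
    have h2 : c j - e j = (c j - a₀ j) + ((N : ℤ) ^ 2 - 1) * (e j - b j) := by
      simp only [a₀]; ring
    have h3 : (2 : ℤ) ∣ (N : ℤ) ^ 2 - 1 := by
      refine ⟨2 * (g : ℤ) ^ 2 + 2 * g, ?_⟩
      rw [hN]; push_cast; ring
    rw [h2]
    exact dvd_add h1 (h3.mul_right _)
  have hmap2 : (mkP c).map (Int.castRingHom (ZMod 2)) = f₂ := by
    rw [hS3, hS2 (ZMod 2) N f₂ hf₂m hf₂d]
    congr 1
    funext j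
    have h1 : ((c j : ℤ) : ZMod 2) = ((e j : ℤ) : ZMod 2) := by
      rw [eq_comm, ZMod.intCast_eq_intCast_iff_dvd_sub]
      exact_mod_cast he2 j
    rw [eq_intCast, h1]
    simp only [e]
    rw [Int.cast_natCast, ZMod.natCast_val, ZMod.cast_id]
  obtain ⟨-, -, hcoeff⟩ := hS1 ℤ N c
  refine ⟨?_, ?_, ?_⟩
  · have h1 := hcoeff ⟨2 * g, by omega⟩
    dsimp only at h1
    rw [h1]
    have h2 := hbN ⟨2 * g, by omega⟩
    have h3 : b ⟨2 * g, by omega⟩ = 0 := by
      simp only [b]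
      rw [if_neg (by omega)]
    rw [h3, sub_zero] at h2
    refine Dvd.dvd.trans ?_ h2
    rw [sq]
    exact Dvd.intro _ rfl
  · rw [hmap2]; exact hf₂i
  intro p hp hpN
  haveI : Fact p.Prime := ⟨hp⟩
  rcases (Nat.Prime.dvd_mul hp).1 hpN with hp2 | hpN
  · have hp2' : p = 2 := (Nat.prime_dvd_prime_iff_eq hp Nat.prime_two).1 hp2
    subst hp2'
    refine ⟨?_, ?_⟩
    · rintro ⟨s, hs, -⟩
      have h1 : (2 : ℤ) ∣ (mkP c).eval s := by
        refine Dvd.dvd.trans ?_ hs
        rw [sq]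
        exact Dvd.intro _ rfl
      have h2 : f₂.IsRoot (Int.castRingHom (ZMod 2) s) := by
        rw [IsRoot.def, ← hmap2, eval_map_apply]
        rw [eq_intCast, ZMod.intCast_zmod_eq_zero_iff_dvd]
        exact_mod_cast h1
      have h3 := degree_eq_one_of_irreducible_of_root hf₂i h2
      rw [degree_eq_natDegree hf₂m.ne_zero, hf₂d] at h3
      have h4 : N = 1 := by exact_mod_cast h3
      omega
    · rintro ⟨φ, -, hφ, -, hφ2⟩
      rw [hmap2, sq] at hφ2
      exact hφ.not_isUnit (hf₂i.squarefree _ hφ2)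
  · have hpf : p ∈ N.primeFactors := Nat.mem_primeFactors.2 ⟨hp, hpN, by omega⟩
    obtain ⟨hr1, hr2⟩ := rad_Sd N p hp hpf
    have hpN' : (p : ℤ) ∣ (N : ℤ) := by exact_mod_cast hpN
    have hp2N : (p : ℤ) ^ 2 ∣ (N : ℤ) ^ 2 := pow_dvd_pow_of_dvd hpN' 2
    have hcp : ∀ j, (p : ℤ) ∣ c j := by
      intro j
      have h1 : (p : ℤ) ∣ c j - b j := by
        refine Dvd.dvd.trans ?_ (hp2N.trans (hbN j))
        rw [sq]
        exact Dvd.intro _ rfl
      have h2 : (p : ℤ) ∣ b j := by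
        simp only [b]
        split_ifs
        · exact_mod_cast hr1
        · exact dvd_zero _
      have h3 : c j = (c j - b j) + b j := by ring
      rw [h3]
      exact dvd_add h1 h2
    have hmap : (mkP c).map (Int.castRingHom (ZMod p)) = X ^ N := by
      rw [hS3, mkP]
      have h1 : ∀ j : Fin N, C ((Int.castRingHom (ZMod p)) (c j)) * X ^ (j : ℕ) =
          (0 : (ZMod p)[X]) := by
        intro j
        have h2 : (Int.castRingHom (ZMod p)) (c j) = 0 := by
          rw [eq_intCast, ZMod.intCast_zmod_eq_zero_iff_dvd]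
          exact hcp j
        rw [h2, C_0, zero_mul]
      rw [Finset.sum_eq_zero fun j _ => h1 j, add_zero]
    refine ⟨?_, ?_⟩
    · rintro ⟨s, hs, -⟩
      have hs1 : (p : ℤ) ∣ s := by
        have h1 : (p : ℤ) ∣ (mkP c).eval s := by
          refine Dvd.dvd.trans ?_ hs
          rw [sq]
          exact Dvd.intro _ rfl
        rw [eval_Sd] at h1
        have h2 : (p : ℤ) ∣ ∑ j : Fin N, c j * s ^ (j : ℕ) :=
          Finset.dvd_sum fun j _ => (hcp j).mul_right _
        have h3 := (dvd_add_left h2).1 h1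
        exact (Nat.prime_iff_prime_int.1 hp).dvd_of_dvd_pow h3
      have hs2 : (p : ℤ) ^ 2 ∣ s ^ N := by
        have h1 : s ^ 2 ∣ s ^ N := pow_dvd_pow s (by omega)
        exact (pow_dvd_pow_of_dvd hs1 2).trans h1
      rw [eval_Sd] at hs
      have h4 := (dvd_add_right hs2).1 hs
      have h5 : ∀ j : Fin N, (p : ℤ) ^ 2 ∣ c j * s ^ (j : ℕ) - b j := by
        intro j
        by_cases hj : (j : ℕ) = 0
        · rw [hj, pow_zero, mul_one]
          exact hp2N.trans (hbN j)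
        · have h6 : b j = 0 := by simp only [b]; rw [if_neg hj]
          have h7 := hp2N.trans (hbN j)
          rw [h6, sub_zero] at h7
          rw [h6, sub_zero]
          exact h7.mul_right _
      have h6 : (p : ℤ) ^ 2 ∣ ∑ j : Fin N, b j := by
        have h7 : (p : ℤ) ^ 2 ∣ ∑ j : Fin N, (c j * s ^ (j : ℕ) - b j) :=
          Finset.dvd_sum fun j _ => h5 j
        rw [Finset.sum_sub_distrib] at h7
        have h8 : ∑ j : Fin N, b j = ∑ j : Fin N, c j * s ^ (j : ℕ) -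
            (∑ j : Fin N, c j * s ^ (j : ℕ) - ∑ j : Fin N, b j) := by ring
        rw [h8]
        exact dvd_sub h4 h7
      have h9 : ∑ j : Fin N, b j = (r : ℤ) := by
        rw [Finset.sum_eq_single (⟨0, by omega⟩ : Fin N)]
        · simp only [b, if_true]
        · intro j _ hj
          simp only [b]
          rw [if_neg]
          intro hj0
          exact hj (Fin.ext hj0)
        · intro hh; exact absurd (Finset.mem_univ _) hh
      rw [h9] at h6
      exact hr2 (by exact_mod_cast h6)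
    · rintro ⟨φ, hφm, hφ, hφd, hφ2⟩
      rw [hmap] at hφ2
      have h1 : φ ∣ X ^ N := by
        refine Dvd.dvd.trans ?_ hφ2
        rw [sq]
        exact Dvd.intro _ rfl
      have h2 : φ ∣ X := hφ.prime.dvd_of_dvd_pow h1
      have h3 := natDegree_le_of_dvd h2 X_ne_zero
      rw [natDegree_X] at h3
      omega

end Pool.Agent.Helper54.HQ
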