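import Pool.Agent.Helper54.HQ.StS

/-!
# HQ, module Se: the product
-/

set_option autoImplicit false

namespace Pool.Agent.Helper54.HQ

open Finset

private lemma low_Se (S : Finset ℕ) : ∀ K : ℕ, 1 ≤ K → (∀ x ∈ S, 3 ≤ x ∧ x % 2 = 1 ∧ x ≤ K) →
    ((K : ℝ) + 2) / (3 * K) ≤ ∏ p ∈ S, (1 - 3 / (p : ℝ) ^ 2) := by
  induction S using Finset.induction_on_max with
  | empty =>
    intro K hK _
    have hK' : (1 : ℝ) ≤ K := by exact_mod_cast hK
    rw [Finset.prod_empty, div_le_one (by positivity)]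
    linarith
  | insert a s hs ih =>
    intro K hK h
    have ha := h a (Finset.mem_insert_self _ _)
    obtain ⟨b, rfl⟩ : ∃ b, a = b + 2 := ⟨a - 2, by omega⟩
    have h1 := ih b (by omega) (fun x hx => ⟨(h x (Finset.mem_insert_of_mem hx)).1,
      (h x (Finset.mem_insert_of_mem hx)).2.1, by
      have := hs x hx
      have h2 := (h x (Finset.mem_insert_of_mem hx)).2.1
      omega⟩)
    rw [Finset.prod_insert (fun hmem => lt_irrefl _ (hs _ hmem))]
    have hb : (1 : ℝ) ≤ b := by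
      have : 1 ≤ b := by omega
      exact_mod_cast this
    have hM2 : ((b : ℝ) + 2) ≤ K := by exact_mod_cast ha.2.2
    have hM0 : (0 : ℝ) < K := by linarith
    push_cast
    have h2 : (0 : ℝ) ≤ 1 - 4 / ((b : ℝ) + 2) ^ 2 := by
      rw [sub_nonneg, div_le_one (by positivity)]
      nlinarith
    have h3 : 1 - 4 / ((b : ℝ) + 2) ^ 2 ≤ 1 - 3 / ((b : ℝ) + 2) ^ 2 := by
      have : 3 / ((b : ℝ) + 2) ^ 2 ≤ 4 / ((b : ℝ) + 2) ^ 2 := by
        apply div_le_div_of_nonneg_right (by norm_num) (by positivity)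
      linarith
    have h4 : (0 : ℝ) ≤ ((b : ℝ) + 2) / (3 * b) := by positivity
    calc ((K : ℝ) + 2) / (3 * K) ≤ ((b : ℝ) + 4) / (3 * (b + 2)) := by
          rw [div_le_div_iff₀ (by positivity) (by positivity)]
          nlinarith
      _ = (1 - 4 / ((b : ℝ) + 2) ^ 2) * (((b : ℝ) + 2) / (3 * b)) := by
          have : (b : ℝ) ≠ 0 := by positivity
          field_simp
          ring
      _ ≤ (1 - 3 / ((b : ℝ) + 2) ^ 2) * (((b : ℝ) + 2) / (3 * b)) :=
          mul_le_mul_of_nonneg_right h3 h4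
      _ ≤ _ := mul_le_mul_of_nonneg_left h1 (h2.trans h3)

theorem hSe : StSe := by
  intro S hS
  have h := low_Se S (S.sup id + 1) (by omega) (fun x hx => ⟨(hS x hx).1, (hS x hx).2, by
    have := Finset.le_sup (f := id) hx
    simp only [id] at this
    omega⟩)
  refine le_trans ?_ h
  rw [div_le_div_iff₀ (by norm_num) (by positivity)]
  push_cast
  linarith

end Pool.Agent.Helper54.HQ
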