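import Pool.Agent.Helper54.HQ.StS

/-!
# HQ module St: the classes at the primes of `T`
-/

set_option autoImplicit false

namespace Pool.Agent.Helper54.HQ

open Polynomial Finset Filter Topology Matrix
open Pool.Agent.Helper3.HY (co tau Ix nu TType IType rho2 exc Adm)

private theorem noRoot_St {k : Type} [Field k] {g : ℕ} (hg : 1 ≤ g) {p : k[X]}
    (hi : Irreducible p) (hd : p.natDegree = 2 * g) (r : k) : p.eval r ≠ 0 := by
  intro h
  have h1 : X - C r ∣ p := dvd_iff_isRoot.2 h
  obtain ⟨q, hq⟩ := h1
  rcases hi.isUnit_or_isUnit hq with h2 | h2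
  · have := natDegree_eq_zero_of_isUnit h2
    rw [natDegree_X_sub_C] at this
    exact one_ne_zero this
  · have h3 := natDegree_eq_zero_of_isUnit h2
    have hq0 : q ≠ 0 := h2.ne_zero
    have h4 : p.natDegree = 1 + q.natDegree := by
      rw [hq, natDegree_mul (X_sub_C_ne_zero r) hq0, natDegree_X_sub_C]
    omega

theorem hSt (h : StSp) : StSt := by
  intro g hg P
  classical
  obtain ⟨h1, h2, h3⟩ := h
  refine ⟨Finset.univ.filter (fun a : Fin (2 * g + 1) → kp P => mkP a ∈ TType (kp P) g), ?_, ?_⟩
  · have hinj : Function.Injective (mkP : (Fin (2 * g + 1) → kp P) → (kp P)[X]) := by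
      intro a b hab
      funext i
      rw [← (h1 (kp P) (2 * g + 1) a).2.2 i, hab, (h1 (kp P) (2 * g + 1) b).2.2 i]
    have himg : TType (kp P) g = mkP '' ((Finset.univ.filter
        (fun a : Fin (2 * g + 1) → kp P => mkP a ∈ TType (kp P) g) :
          Finset (Fin (2 * g + 1) → kp P)) : Set (Fin (2 * g + 1) → kp P)) := by
      ext f
      constructor
      · intro hf
        have hf' := hf
        obtain ⟨a, p, hpm, hpi, hpd, rfl⟩ := hf'
        have hm : ((X - C a) * p).Monic := (monic_X_sub_C a).mul hpm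
        have hd : ((X - C a) * p).natDegree = 2 * g + 1 := by
          rw [(monic_X_sub_C a).natDegree_mul hpm, natDegree_X_sub_C, hpd]; ring
        refine ⟨_, ?_, (h2 (kp P) (2 * g + 1) _ hm hd).symm⟩
        simp only [Finset.coe_filter, Finset.mem_univ, true_and, Set.mem_setOf_eq]
        rw [← h2 (kp P) (2 * g + 1) _ hm hd]
        exact hf
      · rintro ⟨a, ha, rfl⟩
        simpa using ha
    conv_rhs => rw [himg]
    rw [Set.ncard_image_of_injective _ hinj, Set.ncard_coe_finset]
  · intro c hc
    rw [Finset.mem_filter] at hc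
    have hmap : (mkP c).map (red P) = mkP (fun j => (c j : kp P)) := by
      rw [h3]
      rfl
    have hT : (mkP c).map (red P) ∈ TType (kp P) g := by rw [hmap]; exact hc.2
    refine ⟨hT, ?_, ?_⟩
    · rintro ⟨r, hr1, hr2⟩
      obtain ⟨a, p, hpm, hpi, hpd, hf⟩ := hT
      have e1 : ((mkP c).map (red P)).eval (r : kp P) = 0 := by
        have h5 := Polynomial.eval_intCast_map (red P) (mkP c) r
        rw [h5]
        rw [eq_intCast, ZMod.intCast_zmod_eq_zero_iff_dvd]
        exact (Dvd.intro_left _ (by ring : ((P : ℕ) : ℤ) * ((P : ℕ) : ℤ) = ((P : ℕ) : ℤ) ^ 2)).trans hr1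
      have e2 : (((mkP c).map (red P)).derivative).eval (r : kp P) = 0 := by
        rw [derivative_map]
        have h5 := Polynomial.eval_intCast_map (red P) (derivative (mkP c)) r
        rw [h5]
        rw [eq_intCast, ZMod.intCast_zmod_eq_zero_iff_dvd]
        exact hr2
      rw [hf] at e1 e2
      rw [eval_mul, eval_sub, eval_X, eval_C] at e1
      rcases mul_eq_zero.1 e1 with h5 | h5
      · rw [derivative_mul, derivative_sub, derivative_X, derivative_C, sub_zero, one_mul,
          eval_add, eval_mul, eval_sub, eval_X, eval_C, h5, zero_mul, add_zero] at e2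
        exact noRoot_St hg hpi hpd _ e2
      · exact noRoot_St hg hpi hpd _ h5
    · rintro ⟨φ, hφm, hφi, hφd, hφ⟩
      obtain ⟨a, p, hpm, hpi, hpd, hf⟩ := hT
      have hf' : (mkP c).map (Int.castRingHom (ZMod (P : ℕ))) = (X - C a) * p := hf
      rw [hf'] at hφ
      have hcop : IsCoprime φ (X - C a) := by
        rcases hφi.isCoprime_or_dvd (X - C a) with h5 | h5
        · exact h5
        · exfalso
          have h6 := natDegree_le_of_dvd h5 (X_sub_C_ne_zero a)
          rw [natDegree_X_sub_C] at h6
          omega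
      have hd : φ ^ 2 ∣ p := (hcop.pow_left).dvd_of_dvd_mul_left hφ
      obtain ⟨q, hq⟩ := hd
      have hq' : p = φ * (φ * q) := by rw [hq]; ring
      rcases hpi.isUnit_or_isUnit hq' with h5 | h5
      · exact hφi.not_isUnit h5
      · exact hφi.not_isUnit (isUnit_of_mul_isUnit_left h5)

end Pool.Agent.Helper54.HQ
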