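import Pool.Agent.Helper54.HQ.StS

/-!
# HQ, module Sw: Weak, local count modulo `p ^ 2`
-/

set_option autoImplicit false

namespace Pool.Agent.Helper54.HQ

open Polynomial Finset

private lemma diff_Sw {R : Type} [CommRing R] {M : ℕ} (c c' : Fin (M + 2) → R)
    (h : ∀ j : Fin (M + 2), 2 ≤ (j : ℕ) → c j = c' j) :
    mkP c = mkP c' + C (c 0 - c' 0) + C (c 1 - c' 1) * X := by
  unfold mkP
  rw [Fin.sum_univ_succ, Fin.sum_univ_succ, Fin.sum_univ_succ (n := M + 1),
    Fin.sum_univ_succ (n := M)]
  have : ∑ i : Fin M, C (c i.succ.succ) * X ^ ((i.succ.succ : Fin (M + 2)) : ℕ) =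
      ∑ i : Fin M, C (c' i.succ.succ) * X ^ ((i.succ.succ : Fin (M + 2)) : ℕ) := by
    refine Finset.sum_congr rfl fun i _ => ?_
    rw [h i.succ.succ (by simp)]
  rw [this]
  have h1 : (Fin.succ 0 : Fin (M + 2)) = 1 := rfl
  rw [h1]
  simp only [C_sub, Fin.val_zero, pow_zero, mul_one, Fin.val_one, pow_one]
  ring

private lemma red_Sw (f : ℤ[X]) (p : ℕ) (hp : 0 < p) (r : ℤ) (h1 : (p : ℤ) ^ 2 ∣ f.eval r)
    (h2 : (p : ℤ) ∣ f.derivative.eval r) : ∃ s : ℕ, s < p ∧ (p : ℤ) ^ 2 ∣ f.eval (s : ℤ) ∧
      (p : ℤ) ∣ f.derivative.eval (s : ℤ) := by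
  have hp0 : (0 : ℤ) < p := by exact_mod_cast hp
  have hr0 : 0 ≤ r % p := Int.emod_nonneg _ hp0.ne'
  have hr1 : r % p < p := Int.emod_lt_of_pos _ hp0
  obtain ⟨s, hs⟩ := Int.eq_ofNat_of_zero_le hr0
  have hsr : (s : ℤ) = r + (p : ℤ) * (-(r / p)) := by
    have := Int.emod_add_mul_ediv r p
    rw [← hs]
    linarith
  refine ⟨s, by rw [hs] at hr1; exact_mod_cast hr1, ?_, ?_⟩
  · obtain ⟨k, h3⟩ := binomExpansion f r ((p : ℤ) * (-(r / p)))
    rw [hsr, h3]
    apply dvd_add (dvd_add h1 _)
    · rw [mul_pow]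
      exact ((dvd_mul_right _ _).mul_left _)
    · obtain ⟨k, hk⟩ := h2
      rw [hk]
      exact ⟨k * (-(r / p)), by ring⟩
  · have h3 := sub_dvd_eval_sub (s : ℤ) r f.derivative
    have h4 : (p : ℤ) ∣ (s : ℤ) - r := ⟨-(r / p), by rw [hsr]; ring⟩
    have h5 := h4.trans h3
    have h6 := dvd_add h5 h2
    rwa [sub_add_cancel] at h6

theorem hSw (h : StSp) : StSw := by
  intro N p hN hp
  have hp' : Fact p.Prime := ⟨hp⟩
  have hp2 : NeZero (p ^ 2) := ⟨(pow_pos hp.pos 2).ne'⟩
  obtain ⟨M, rfl⟩ : ∃ M, N = M + 2 := ⟨N - 2, by omega⟩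
  classical
  set π : ZMod (p ^ 2) →+* ZMod p := ZMod.castHom (dvd_pow_self p two_ne_zero) (ZMod p) with hπ
  set Wr : ℕ → Finset (Fin (M + 2) → ZMod (p ^ 2)) := fun r =>
    Finset.univ.filter fun c => (mkP c).eval (r : ZMod (p ^ 2)) = 0 ∧
      π ((mkP c).derivative.eval (r : ZMod (p ^ 2))) = 0 with hWr
  refine ⟨(range p).biUnion Wr, ?_, ?_⟩
  · have h1 : ∀ r ∈ range p, (Wr r).card ≤ p ^ (2 * M + 1) := by
      intro r _
      set T : Fin (M + 2) → Finset (ZMod (p ^ 2)) := Fin.cons {0}
        (Fin.cons ((range p).image fun k : ℕ => (k : ZMod (p ^ 2))) fun _ => Finset.univ) with hT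
      set Φ : (Fin (M + 2) → ZMod (p ^ 2)) → Fin (M + 2) → ZMod (p ^ 2) := fun c =>
        Fin.cons 0 (Fin.cons (((c 1).val / p : ℕ) : ZMod (p ^ 2)) fun j => c j.succ.succ) with hΦ
      have hcard : (Fintype.piFinset T).card ≤ p ^ (2 * M + 1) := by
        rw [Fintype.card_piFinset, Fin.prod_univ_succ, Fin.prod_univ_succ, hT]
        simp only [Fin.cons_zero, Fin.cons_succ, Finset.card_singleton, one_mul,
          Finset.card_univ, ZMod.card, Finset.prod_const, Fintype.card_fin]
        calc ((range p).image fun k : ℕ => (k : ZMod (p ^ 2))).card * (p ^ 2) ^ M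
            ≤ p * (p ^ 2) ^ M := by
              apply Nat.mul_le_mul_right
              exact Finset.card_image_le.trans (by simp)
          _ = p ^ (2 * M + 1) := by rw [← pow_mul, pow_succ, mul_comm]
      refine le_trans ?_ hcard
      apply Finset.card_le_card_of_injOn Φ
      · intro c _
        rw [Finset.mem_coe, Fintype.mem_piFinset]
        intro j
        refine Fin.cases ?_ (fun j => ?_) j
        · rw [hT, hΦ]
          simp
        · refine Fin.cases ?_ (fun j => ?_) j
          · rw [hT, hΦ]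
            simp only [Fin.cons_succ, Fin.cons_zero]
            rw [Finset.mem_image]
            refine ⟨(c 1).val / p, Finset.mem_range.2 ?_, rfl⟩
            have := ZMod.val_lt (c 1)
            rw [Nat.div_lt_iff_lt_mul hp.pos, ← sq]
            exact this
          · rw [hT, hΦ]
            simp
      · intro c hc c' hc' heq
        rw [Finset.mem_coe, hWr, Finset.mem_filter] at hc hc'
        have e1 : (((c 1).val / p : ℕ) : ZMod (p ^ 2)) = (((c' 1).val / p : ℕ) : ZMod (p ^ 2)) := by
          have := congrFun heq 1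
          simpa [hΦ] using this
        have e2 : ∀ j : Fin (M + 2), 2 ≤ (j : ℕ) → c j = c' j := by
          intro j hj
          obtain ⟨i, rfl⟩ : ∃ i : Fin M, j = i.succ.succ := by
            refine ⟨⟨(j : ℕ) - 2, by have := j.2; omega⟩, ?_⟩
            ext
            simp
            omega
          have := congrFun heq i.succ.succ
          simpa [hΦ] using this
        have e3 : (c 1).val / p = (c' 1).val / p := by
          have h3 := congrArg ZMod.val e1
          have h4 : ∀ x : ZMod (p ^ 2), x.val / p < p ^ 2 := fun x =>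
            (Nat.div_le_self _ _).trans_lt (ZMod.val_lt x)
          rwa [ZMod.val_natCast_of_lt (h4 _), ZMod.val_natCast_of_lt (h4 _)] at h3
        have hd := diff_Sw c c' e2
        have e4 : π (c 1) = π (c' 1) := by
          have h3 := hc.2.2
          rw [hd, derivative_add, derivative_add, derivative_C, derivative_C_mul, derivative_X,
            mul_one, add_zero, eval_add, eval_C, map_add, hc'.2.2, zero_add, map_sub,
            sub_eq_zero] at h3
          exact h3
        have e5 : (c 1).val % p = (c' 1).val % p := by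
          have h3 : ((ZMod.castHom (dvd_pow_self p two_ne_zero) (ZMod p)) (c 1)).val =
            ((ZMod.castHom (dvd_pow_self p two_ne_zero) (ZMod p)) (c' 1)).val :=
            congrArg ZMod.val e4
          rw [ZMod.castHom_apply, ZMod.castHom_apply, ZMod.cast_eq_val, ZMod.cast_eq_val,
            ZMod.val_natCast, ZMod.val_natCast] at h3
          exact h3
        have e6 : c 1 = c' 1 := by
          apply ZMod.val_injective
          rw [← Nat.div_add_mod (c 1).val p, ← Nat.div_add_mod (c' 1).val p, e3, e5]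
        have e7 : c 0 = c' 0 := by
          have h3 := hc.2.1
          rw [hd, e6, sub_self, C_0, zero_mul, add_zero, eval_add, eval_C, hc'.2.1, zero_add,
            sub_eq_zero] at h3
          exact h3
        funext j
        refine Fin.cases e7 (fun j => ?_) j
        refine Fin.cases e6 (fun j => ?_) j
        exact e2 _ (by simp)
    calc ((range p).biUnion Wr).card ≤ ∑ r ∈ range p, (Wr r).card := Finset.card_biUnion_le
      _ ≤ ∑ _r ∈ range p, p ^ (2 * M + 1) := Finset.sum_le_sum h1
      _ = p ^ (2 * (M + 2) - 2) := by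
          rw [Finset.sum_const, Finset.card_range, smul_eq_mul, ← pow_succ']
          congr 1
  · rintro c ⟨r, h1, h2⟩
    obtain ⟨s, hs, h3, h4⟩ := red_Sw (mkP c) p hp.pos r h1 h2
    rw [Finset.mem_biUnion]
    refine ⟨s, Finset.mem_range.2 hs, ?_⟩
    rw [hWr, Finset.mem_filter]
    have h5 : mkP (fun j => ((c j : ℤ) : ZMod (p ^ 2))) =
        (mkP c).map (Int.castRingHom (ZMod (p ^ 2))) := by
      rw [h.2.2 ℤ (ZMod (p ^ 2)) (Int.castRingHom (ZMod (p ^ 2))) (M + 2) c]
      simp only [eq_intCast]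
    refine ⟨Finset.mem_univ _, ?_, ?_⟩
    · rw [h5, show ((s : ℕ) : ZMod (p ^ 2)) = (Int.castRingHom (ZMod (p ^ 2))) (s : ℤ) by simp,
        eval_map, eval₂_hom, eq_intCast, ZMod.intCast_zmod_eq_zero_iff_dvd]
      exact_mod_cast h3
    · rw [h5, derivative_map,
        show ((s : ℕ) : ZMod (p ^ 2)) = (Int.castRingHom (ZMod (p ^ 2))) (s : ℤ) by simp,
        eval_map, eval₂_hom, eq_intCast, map_intCast, ZMod.intCast_zmod_eq_zero_iff_dvd]
      exact h4

end Pool.Agent.Helper54.HQ
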