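import Pool.Agent.Helper54.HQ.StS

/-!
# HQ: Ta (Strong for small primes)
-/

set_option autoImplicit false

namespace Pool.Agent.Helper54.HQ

open Polynomial Finset Filter Topology Matrix
open Pool.Agent.Helper3.HY (co tau Ix nu TType IType rho2 exc Adm)

private lemma count_Ta {p : ℕ} (hp : 0 < p) (w : ZMod p) (M : ℕ) (hM : 1 ≤ M) (hpM : p ≤ M) :
    (((Icc (-(M : ℤ)) M).filter (fun x : ℤ => (x : ZMod p) = w)).card : ℝ) ≤ 4 * M / p := by
  haveI : NeZero p := ⟨hp.ne'⟩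
  have hp0 : (0 : ℝ) < p := by exact_mod_cast hp
  have h1 : (Icc (-(M : ℤ)) M).filter (fun x : ℤ => (x : ZMod p) = w) =
      (Ioc (-(M : ℤ) - 1) M).filter (fun x : ℤ => x ≡ (w.val : ℤ) [ZMOD (p : ℤ)]) := by
    ext x
    simp only [Finset.mem_filter, Finset.mem_Icc, Finset.mem_Ioc]
    rw [← ZMod.intCast_eq_intCast_iff]
    have : ((w.val : ℤ) : ZMod p) = w := by
      rw [Int.cast_natCast, ZMod.natCast_val, ZMod.cast_id', id]
    rw [this]
    constructor <;> rintro ⟨h, h2⟩ <;> exact ⟨by omega, h2⟩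
  have h2 := Int.Ioc_filter_modEq_card (-(M : ℤ) - 1) M (r := (p : ℤ)) (by exact_mod_cast hp) (w.val : ℤ)
  rw [← h1] at h2
  set c := ((Icc (-(M : ℤ)) M).filter (fun x : ℤ => (x : ZMod p) = w)).card with hc
  have hp0' : (0 : ℚ) < p := by exact_mod_cast hp
  have h3 : (c : ℚ) ≤ (2 * M + 1) / p + 1 := by
    have h4 : (c : ℤ) ≤ max (⌊((M : ℤ) - (w.val : ℤ) : ℚ) / ((p : ℤ) : ℚ)⌋ -
        ⌊((-(M : ℤ) - 1 : ℤ) - (w.val : ℤ) : ℚ) / ((p : ℤ) : ℚ)⌋) 0 := by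
      rw [h2]
    rcases le_max_iff.1 h4 with h5 | h5
    · have h6 : (c : ℚ) ≤ (⌊((M : ℤ) - (w.val : ℤ) : ℚ) / ((p : ℤ) : ℚ)⌋ : ℚ) -
        (⌊((-(M : ℤ) - 1 : ℤ) - (w.val : ℤ) : ℚ) / ((p : ℤ) : ℚ)⌋ : ℚ) := by exact_mod_cast h5
      have h7 := Int.floor_le (((M : ℤ) - (w.val : ℤ) : ℚ) / ((p : ℤ) : ℚ))
      have h8 := (Int.sub_one_lt_floor (((-(M : ℤ) - 1 : ℤ) - (w.val : ℤ) : ℚ) / ((p : ℤ) : ℚ))).le
      have h9 : ((M : ℤ) - (w.val : ℤ) : ℚ) / ((p : ℤ) : ℚ) -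
          (((-(M : ℤ) - 1 : ℤ) - (w.val : ℤ) : ℚ) / ((p : ℤ) : ℚ) - 1) = (2 * M + 1) / p + 1 := by
        push_cast
        field_simp
        ring
      linarith
    · have : (c : ℚ) ≤ 0 := by exact_mod_cast h5
      have : (0 : ℚ) ≤ (2 * M + 1) / p + 1 := by positivity
      linarith
  have h4 : (c : ℝ) ≤ (2 * M + 1) / p + 1 := by
    have h5 : (((c : ℚ) : ℚ) : ℝ) ≤ (((2 * M + 1) / p + 1 : ℚ) : ℝ) := Rat.cast_le.2 h3
    push_cast at h5
    exact h5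
  refine h4.trans ?_
  have h5 : (p : ℝ) ≤ M := by exact_mod_cast hpM
  have h6 : (1 : ℝ) ≤ M := by exact_mod_cast hM
  rw [div_add_one hp0.ne', div_le_div_iff_of_pos_right hp0]
  linarith

private lemma sum_Ta (N : ℕ) : ∑ i ∈ range N, (N - i) = N * (N + 1) / 2 := by
  have h : 2 * ∑ i ∈ range N, (N - i) = N * (N + 1) := by
    induction N with
    | zero => simp
    | succ n ih =>
      rw [Finset.sum_range_succ', mul_add]
      simp only [Nat.add_sub_add_right, Nat.sub_zero]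
      rw [ih]
      ring
  omega

/-- the box -/
private noncomputable def box_Ta (N H : ℕ) : Finset (Fin N → ℤ) :=
  Fintype.piFinset fun i : Fin N => Icc (-((H ^ (N - (i : ℕ)) : ℕ) : ℤ)) ((H ^ (N - (i : ℕ)) : ℕ) : ℤ)

private lemma mem_box_Ta {N H : ℕ} {f : ℤ[X]} (hf : f ∈ Fam N H) :
    (fun i : Fin N => f.coeff i) ∈ box_Ta N H := by
  unfold box_Ta
  rw [Fintype.mem_piFinset]
  intro i
  have := abs_le.1 (hf.2.2 i i.2.le)
  rw [Finset.mem_Icc]
  push_cast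
  exact this

theorem hTa (h1 : StSp) (h2 : StSs) : StTa := by
  intro N H hN
  have hinj : Set.InjOn (fun f : ℤ[X] => fun i : Fin N => f.coeff i) (Fam N H) := by
    intro f hf f' hf' he
    rw [h1.2.1 ℤ N f hf.1 hf.2.1, h1.2.1 ℤ N f' hf'.1 hf'.2.1]
    have he' : (fun i : Fin N => f.coeff i) = fun i : Fin N => f'.coeff i := he
    rw [he']
  refine ⟨Set.Finite.of_injOn (fun f hf => Finset.mem_coe.2 (mem_box_Ta hf)) hinj
    (Finset.finite_toSet _), ?_⟩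
  intro p hp hpH
  obtain ⟨W, hW, hWs⟩ := h2 N p hN hp
  have hp0 : (0 : ℝ) < p := by exact_mod_cast hp.pos
  set F : (Fin N → ZMod p) → Finset (Fin N → ℤ) := fun w =>
    Fintype.piFinset fun i : Fin N =>
      (Icc (-((H ^ (N - (i : ℕ)) : ℕ) : ℤ)) ((H ^ (N - (i : ℕ)) : ℕ) : ℤ)).filter
        (fun x : ℤ => (x : ZMod p) = w i) with hF
  have hmaps : ∀ f ∈ {f | f ∈ Fam N H ∧ Strong p f}, (fun i : Fin N => f.coeff i) ∈
      ((W.biUnion F : Finset (Fin N → ℤ)) : Set (Fin N → ℤ)) := by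
    rintro f ⟨hf, hs⟩
    rw [Finset.mem_coe, Finset.mem_biUnion]
    refine ⟨fun j => ((f.coeff j : ℤ) : ZMod p), hWs (fun i : Fin N => f.coeff i) ?_, ?_⟩
    · rw [← h1.2.1 ℤ N f hf.1 hf.2.1]
      exact hs
    · rw [hF, Fintype.mem_piFinset]
      intro i
      rw [Finset.mem_filter]
      have := Fintype.mem_piFinset.1 (mem_box_Ta hf) i
      exact ⟨this, rfl⟩
  have h3 := Set.ncard_le_ncard_of_injOn (s := {f | f ∈ Fam N H ∧ Strong p f}) _ hmaps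
    (hinj.mono fun f hf => hf.1) (Finset.finite_toSet _)
  rw [Set.ncard_coe_finset] at h3
  have h4 : ∀ w, ((F w).card : ℝ) ≤ 4 ^ N * (H : ℝ) ^ (N * (N + 1) / 2) / (p : ℝ) ^ N := by
    intro w
    rw [hF, Fintype.card_piFinset]
    push_cast
    calc _ ≤ ∏ i : Fin N, (4 * ((H ^ (N - (i : ℕ)) : ℕ) : ℝ) / p) := by
          refine Finset.prod_le_prod (fun i _ => Nat.cast_nonneg _) fun i _ => ?_
          have hH1 : 1 ≤ H := hp.one_lt.le.trans hpH
          have := count_Ta hp.pos (w i) (H ^ (N - (i : ℕ))) (Nat.one_le_pow _ _ hH1)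
            (hpH.trans (Nat.le_self_pow (by omega) H))
          push_cast at this ⊢
          exact this
      _ = 4 ^ N * (H : ℝ) ^ (N * (N + 1) / 2) / (p : ℝ) ^ N := by
          rw [Finset.prod_div_distrib, Finset.prod_mul_distrib]
          push_cast
          rw [Finset.prod_pow_eq_pow_sum, Finset.prod_const, Finset.prod_const, Finset.card_univ,
            Fintype.card_fin, Fin.sum_univ_eq_sum_range (fun i => N - i) N, sum_Ta]
  calc (({f | f ∈ Fam N H ∧ Strong p f}.ncard : ℕ) : ℝ) ≤ ((W.biUnion F).card : ℝ) := by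
        exact_mod_cast h3
    _ ≤ ∑ w ∈ W, ((F w).card : ℝ) := by exact_mod_cast Finset.card_biUnion_le
    _ ≤ ∑ w ∈ W, 4 ^ N * (H : ℝ) ^ (N * (N + 1) / 2) / (p : ℝ) ^ N :=
        Finset.sum_le_sum fun w _ => h4 w
    _ = (W.card : ℝ) * (4 ^ N * (H : ℝ) ^ (N * (N + 1) / 2) / (p : ℝ) ^ N) := by
        rw [Finset.sum_const, nsmul_eq_mul]
    _ ≤ (2 * (p : ℝ) ^ (N - 2)) * (4 ^ N * (H : ℝ) ^ (N * (N + 1) / 2) / (p : ℝ) ^ N) := by
        apply mul_le_mul_of_nonneg_right _ (by positivity)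
        exact_mod_cast hW
    _ = 2 * 4 ^ N * (H : ℝ) ^ (N * (N + 1) / 2) / (p : ℝ) ^ 2 := by
        have : (p : ℝ) ^ N = (p : ℝ) ^ (N - 2) * (p : ℝ) ^ 2 := by
          rw [← pow_add]
          congr 1
          omega
        rw [this]
        field_simp

end Pool.Agent.Helper54.HQ
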