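import Pool.Agent.Helper54.HQ.StS

/-!
# HQ: module S-Tc (critical values and resultants)
-/

set_option autoImplicit false

namespace Pool.Agent.Helper54.HQ

open Polynomial

lemma critP_map_Tc {R S : Type} [CommRing R] [CommRing S] (φ : R →+* S) (N : ℕ) (f : R[X]) :
    critP N (f.map φ) = (critP N f).map φ := by
  unfold critP
  have h1 : ((f.map φ).derivative.map (C : S →+* S[X])) =
      (f.derivative.map (C : R →+* R[X])).map (mapRingHom φ) := by
    rw [derivative_map, Polynomial.map_map, Polynomial.map_map]
    congr 1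
    ext a
    simp
  have h2 : ((f.map φ).map (C : S →+* S[X]) - C X) =
      (f.map (C : R →+* R[X]) - C X).map (mapRingHom φ) := by
    rw [Polynomial.map_sub, Polynomial.map_map, Polynomial.map_map, map_C, coe_mapRingHom, map_X]
    congr 2
    ext a
    simp
  rw [h1, h2, resultant_map_map, coe_mapRingHom]

lemma critD_map_Tc {R S : Type} [CommRing R] [CommRing S] (φ : R →+* S) (N : ℕ) (f : R[X]) :
    critD N (f.map φ) = φ (critD N f) := by
  unfold critD
  rw [critP_map_Tc, derivative_map, resultant_map_map]

lemma critP_eq_Tc {K : Type} [Field K] [IsAlgClosed K] {N : ℕ} (hN : 3 ≤ N) (hK : (N : K) ≠ 0)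
    {f : K[X]} (hm : f.Monic) (hd : f.natDegree = N) :
    critP N f = C ((N : K) ^ N) *
      (f.derivative.roots.map (fun ξ => C (f.eval ξ) - X)).prod := by
  have hlc : f.derivative.coeff (N - 1) = N := by
    rw [coeff_derivative, Nat.sub_add_cancel (by omega), ← hd, hm.coeff_natDegree, one_mul, hd]
    rw [Nat.cast_sub (by omega)]
    push_cast
    ring
  have hdd : f.derivative.natDegree = N - 1 := by
    apply le_antisymm
    · exact (natDegree_derivative_le f).trans (by omega)
    · apply le_natDegree_of_ne_zero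
      rw [hlc]
      exact hK
  have hl : f.derivative.leadingCoeff = N := by
    rw [leadingCoeff, hdd, hlc]
  have hinj : Function.Injective (C : K →+* K[X]) := C_injective
  have hs : (f.derivative.map (C : K →+* K[X])).Splits :=
    (IsAlgClosed.splits f.derivative).map _
  have hnd : (f.derivative.map (C : K →+* K[X])).natDegree = N - 1 := by
    rw [natDegree_map_eq_of_injective hinj, hdd]
  have hnd2 : (f.map (C : K →+* K[X]) - C X).natDegree ≤ N := by
    apply (natDegree_sub_le _ _).trans
    rw [natDegree_map_eq_of_injective hinj, natDegree_C, hd]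
    simp
  have h := resultant_eq_prod_eval (f.derivative.map (C : K →+* K[X]))
    (f.map (C : K →+* K[X]) - C X) N hnd2 hs
  rw [hnd] at h
  unfold critP
  rw [h, leadingCoeff_map_of_injective hinj, hl]
  have hr : (f.derivative.map (C : K →+* K[X])).roots = f.derivative.roots.map C := by
    exact (IsAlgClosed.splits f.derivative).roots_map C
  rw [hr, Multiset.map_map, map_pow]
  congr 2
  apply Multiset.map_congr rfl
  intro ξ _
  simp [eval_map, eval₂_at_apply]


lemma natDegree_der_Tc {K : Type} [Field K] {N : ℕ} (hN : 3 ≤ N) (hK : (N : K) ≠ 0)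
    {f : K[X]} (hm : f.Monic) (hd : f.natDegree = N) : f.derivative.natDegree = N - 1 := by
  have hlc : f.derivative.coeff (N - 1) = N := by
    rw [coeff_derivative, Nat.sub_add_cancel (by omega), ← hd, hm.coeff_natDegree, one_mul, hd]
    rw [Nat.cast_sub (by omega)]
    push_cast
    ring
  apply le_antisymm
  · exact (natDegree_derivative_le f).trans (by omega)
  · apply le_natDegree_of_ne_zero
    rw [hlc]
    exact hK

/-- the critical polynomial has the critical values as roots -/
lemma critP_roots_Tc {K : Type} [Field K] [IsAlgClosed K] {N : ℕ} (hN : 3 ≤ N) (hK : (N : K) ≠ 0)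
    {f : K[X]} (hm : f.Monic) (hd : f.natDegree = N) :
    critP N f ≠ 0 ∧ (critP N f).roots = f.derivative.roots.map (fun ξ => f.eval ξ) ∧
      (critP N f).natDegree = N - 1 := by
  have h0 := critP_eq_Tc hN hK hm hd
  have h1 : (f.derivative.roots.map (fun ξ => C (f.eval ξ) - X)).prod =
      C ((-1) ^ (Multiset.card f.derivative.roots)) *
        ((f.derivative.roots.map (fun ξ => f.eval ξ)).map (fun v => X - C v)).prod := by
    rw [Multiset.map_map]
    have h2 : ∀ s : Multiset K, (s.map (fun ξ => C (f.eval ξ) - X)).prod =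
        C ((-1) ^ (Multiset.card s)) *
        (s.map ((fun v => X - C v) ∘ fun ξ => f.eval ξ)).prod := by
      intro s
      induction s using Multiset.induction with
      | empty => simp
      | cons a s ih =>
        rw [Multiset.map_cons, Multiset.prod_cons, ih, Multiset.map_cons, Multiset.prod_cons,
          Multiset.card_cons, pow_succ]
        simp only [Function.comp_apply, map_mul, map_neg, map_one, map_pow]
        ring
    exact h2 _
  rw [h1, ← mul_assoc, ← C_mul] at h0
  have hc : (N : K) ^ N * (-1) ^ (Multiset.card f.derivative.roots) ≠ 0 := by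
    apply mul_ne_zero (pow_ne_zero _ hK)
    exact pow_ne_zero _ (by simp)
  have hmon := monic_multisetProd_X_sub_C (f.derivative.roots.map (fun ξ => f.eval ξ))
  rw [h0]
  refine ⟨?_, ?_, ?_⟩
  · apply mul_ne_zero
    · rwa [Ne, C_eq_zero]
    · exact hmon.ne_zero
  · rw [roots_C_mul _ hc, roots_multiset_prod_X_sub_C]
  · rw [natDegree_C_mul hc, natDegree_multiset_prod_X_sub_C_eq_card, Multiset.card_map,
      ← (IsAlgClosed.splits f.derivative).natDegree_eq_card_roots, natDegree_der_Tc hN hK hm hd]

lemma critD_iff_Tc {K : Type} [Field K] [IsAlgClosed K] {N : ℕ} (hN : 3 ≤ N) (hK : (N : K) ≠ 0)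
    {f : K[X]} (hm : f.Monic) (hd : f.natDegree = N) :
    critD N f ≠ 0 ↔ (f.derivative.roots.map (fun ξ => f.eval ξ)).Nodup := by
  classical
  obtain ⟨h1, h2, h3⟩ := critP_roots_Tc hN hK hm hd
  have hs : (critP N f).Splits := IsAlgClosed.splits _
  have hnd : (critP N f).derivative.natDegree ≤ N - 2 :=
    (natDegree_derivative_le _).trans (by omega)
  have h := resultant_eq_prod_eval (critP N f) (critP N f).derivative (N - 2) hnd hs
  rw [h3] at h
  unfold critD
  rw [h, ← h2, mul_ne_zero_iff, Multiset.nodup_iff_count_le_one]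
  have hl : (critP N f).leadingCoeff ^ (N - 2) ≠ 0 :=
    pow_ne_zero _ (leadingCoeff_ne_zero.mpr h1)
  constructor
  · rintro ⟨-, h4⟩ v
    rw [count_roots]
    by_contra h5
    rw [not_le, one_lt_rootMultiplicity_iff_isRoot h1] at h5
    apply h4
    apply Multiset.prod_eq_zero
    rw [Multiset.mem_map]
    exact ⟨v, (mem_roots h1).mpr h5.1, h5.2⟩
  · intro h4
    refine ⟨hl, ?_⟩
    intro h5
    rw [Multiset.prod_eq_zero_iff, Multiset.mem_map] at h5
    obtain ⟨v, hv, hv2⟩ := h5
    have h6 := h4 v
    rw [count_roots] at h6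
    have h7 := (one_lt_rootMultiplicity_iff_isRoot h1 (t := v)).mpr
      ⟨(mem_roots h1).mp hv, hv2⟩
    omega

theorem hTc : StTc := by
  refine ⟨fun R S _ _ φ N f => critD_map_Tc φ N f, ?_⟩
  intro K _ _ N hN hK f hm hd
  have hiff := critD_iff_Tc hN hK hm hd
  have hd0 : f.derivative ≠ 0 := by
    intro h0
    have h1 := natDegree_der_Tc hN hK hm hd
    rw [h0, natDegree_zero] at h1
    omega
  constructor
  · rintro ⟨x, y, hxy, hx, hy, hf⟩
    by_contra h0
    have h1 := hiff.mp h0
    exact hxy (Multiset.inj_on_of_nodup_map h1 x ((mem_roots hd0).mpr hx) y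
      ((mem_roots hd0).mpr hy) hf)
  · intro hsep hinj
    apply hiff.mpr
    apply Multiset.Nodup.map_on
    · intro x hx y hy hxy
      exact hinj x y ((mem_roots hd0).mp hx) ((mem_roots hd0).mp hy) hxy
    · exact nodup_roots hsep

end Pool.Agent.Helper54.HQ
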