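import Pool.Agent.Helper54.HQ.StS

/-!
# HQ: elimination of the constant coefficient
-/

set_option autoImplicit false

namespace Pool.Agent.Helper54.HQ

open Polynomial Finset Filter Topology Matrix

/-- The general polynomial without constant coefficient. -/
private noncomputable def gen_Td (N : ℕ) : (MvPolynomial (Fin (N - 1)) ℤ)[X] :=
  mkP (fun i : Fin N => if h : 0 < (i : ℕ) then
    MvPolynomial.X (⟨(i : ℕ) - 1, by have := i.2; omega⟩ : Fin (N - 1)) else 0)

private theorem mkP_erase_Td {R : Type} [CommRing R] {N : ℕ} (i₀ : Fin N) (hi₀ : (i₀ : ℕ) = 0)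
    (c : Fin N → R) :
    mkP c = mkP (fun i : Fin N => if 0 < (i : ℕ) then c i else 0) + C (c i₀) := by
  unfold mkP
  rw [add_assoc]
  congr 1
  rw [← Finset.add_sum_erase _ _ (Finset.mem_univ i₀),
    ← Finset.add_sum_erase (Finset.univ : Finset (Fin N)) _ (Finset.mem_univ i₀)]
  beta_reduce
  rw [if_neg (by omega), hi₀]
  simp only [map_zero, zero_add, pow_zero, mul_one]
  rw [add_comm]
  congr 1
  apply Finset.sum_congr rfl
  intro i hi
  have hne : i ≠ i₀ := (Finset.mem_erase.1 hi).1
  rw [if_pos]
  by_contra h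
  apply hne
  apply Fin.ext
  omega

theorem hTd (h1 : StSp) (h2 : StTc) : StTd := by
  intro N hN
  obtain ⟨sp1, sp2, sp3⟩ := h1
  obtain ⟨tc1, tc2⟩ := h2
  have h0N : 0 < N := by omega
  refine ⟨critD N (gen_Td N), ?_, ?_⟩
  · intro hD
    -- evaluation at X ^ N - N X
    have hev := tc1 _ _ ((Int.castRingHom ℂ).comp (MvPolynomial.eval
      (fun i : Fin (N - 1) => if (i : ℕ) = 0 then -(N : ℤ) else 0))) N (gen_Td N)
    rw [hD, map_zero] at hev
    unfold gen_Td at hev
    rw [sp3] at hev
    have hf : (mkP fun i : Fin N => ((Int.castRingHom ℂ).comp (MvPolynomial.eval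
        (fun i : Fin (N - 1) => if (i : ℕ) = 0 then -(N : ℤ) else 0)))
        (if h : 0 < (i : ℕ) then
          MvPolynomial.X (⟨(i : ℕ) - 1, by have := i.2; omega⟩ : Fin (N - 1)) else 0)) =
        (X ^ N - C (N : ℂ) * X : ℂ[X]) := by
      unfold mkP
      rw [sub_eq_add_neg]
      congr 1
      rw [Finset.sum_eq_single (⟨1, by omega⟩ : Fin N)]
      · beta_reduce
        rw [dif_pos (show 0 < ((⟨1, by omega⟩ : Fin N) : ℕ) from Nat.one_pos)]
        simp
      · intro i _ hi
        beta_reduce
        by_cases h : 0 < (i : ℕ)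
        · rw [dif_pos h]
          have h3 : ¬ ((i : ℕ) - 1 = 0) := by
            intro h4
            apply hi
            apply Fin.ext
            change (i : ℕ) = 1
            omega
          simp [h3]
        · rw [dif_neg h]
          simp
      · intro h
        exact absurd (Finset.mem_univ _) h
    rw [hf] at hev
    have hNC : (N : ℂ) ≠ 0 := Nat.cast_ne_zero.2 (by omega)
    have hder : derivative (X ^ N - C (N : ℂ) * X : ℂ[X]) =
        C (N : ℂ) * (X ^ (N - 1) - 1) := by
      rw [derivative_sub, derivative_X_pow, derivative_C_mul, derivative_X]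
      ring
    have hmon : (X ^ N - C (N : ℂ) * X : ℂ[X]).Monic := by
      have := sp1 ℂ N
      rw [← hf]
      exact (this _).1
    have hdeg : (X ^ N - C (N : ℂ) * X : ℂ[X]).natDegree = N := by
      have := sp1 ℂ N
      rw [← hf]
      exact (this _).2.1
    refine (tc2 ℂ N hN hNC _ hmon hdeg).2 ?_ ?_ hev
    · rw [hder]
      refine Separable.unit_mul ?_ ?_
      · exact isUnit_C.2 (isUnit_iff_ne_zero.2 hNC)
      · rw [X_pow_sub_one_separable_iff]
        exact Nat.cast_ne_zero.2 (by omega)
    · intro x y hx hy hxy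
      rw [hder] at hx hy
      have hroot : ∀ z : ℂ, (C (N : ℂ) * (X ^ (N - 1) - 1) : ℂ[X]).IsRoot z → z ^ (N - 1) = 1 := by
        intro z hz
        rw [IsRoot.def, eval_mul, eval_C, eval_sub, eval_pow, eval_X, eval_one] at hz
        rcases mul_eq_zero.1 hz with h | h
        · exact absurd h hNC
        · exact sub_eq_zero.1 h
      have hval : ∀ z : ℂ, z ^ (N - 1) = 1 →
          (X ^ N - C (N : ℂ) * X : ℂ[X]).eval z = (1 - (N : ℂ)) * z := by
        intro z hz
        rw [eval_sub, eval_pow, eval_X, eval_mul, eval_C, eval_X]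
        have : z ^ N = z := by
          conv_lhs => rw [show N = N - 1 + 1 by omega]
          rw [pow_succ, hz, one_mul]
        rw [this]
        ring
      rw [hval x (hroot x hx), hval y (hroot y hy)] at hxy
      refine mul_left_cancel₀ ?_ hxy
      intro h
      have h3 : (N : ℂ) = 1 := (sub_eq_zero.1 h).symm
      have h4 : N = 1 := by exact_mod_cast h3
      omega
  · intro p hp hpN c hst
    have : Fact p.Prime := ⟨hp⟩
    obtain ⟨φ, hφm, hφi, hφd, hdvd⟩ := hst
    let K := AlgebraicClosure (ZMod p)
    have : CharP K p := inferInstance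
    have hNK : (N : K) ≠ 0 := by
      intro h
      rw [CharP.cast_eq_zero_iff K p] at h
      exact absurd (Nat.le_of_dvd h0N h) (by omega)
    -- two different roots of φ
    have hsep : φ.Separable := PerfectField.separable_of_irreducible hφi
    have hcard := card_rootSet_eq_natDegree (K := K) hsep (IsAlgClosed.splits _)
    obtain ⟨⟨x, hx⟩, ⟨y, hy⟩, hxy⟩ : ∃ x y : φ.rootSet K, x ≠ y := by
      have : 1 < Fintype.card (φ.rootSet K) := by omega
      exact Fintype.exists_pair_of_one_lt_card this
    have hxy' : x ≠ y := fun h => hxy (Subtype.ext h)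
    have hφ0 : φ ≠ 0 := hφm.ne_zero
    rw [mem_rootSet_of_ne hφ0] at hx hy
    -- the polynomial over K
    set fK' : K[X] := (mkP c).map (Int.castRingHom K) with hfK
    have hfK2 : fK' = ((mkP c).map (Int.castRingHom (ZMod p))).map (algebraMap (ZMod p) K) := by
      rw [Polynomial.map_map, hfK]
      exact congrArg (fun φ => (mkP c).map φ) (RingHom.ext_int _ _)
    have hdvdK : (φ.map (algebraMap (ZMod p) K)) ^ 2 ∣ fK' := by
      rw [hfK2, ← Polynomial.map_pow]
      exact Polynomial.map_dvd _ hdvd
    have hr : ∀ z : K, aeval z φ = 0 → fK'.eval z = 0 ∧ (derivative fK').eval z = 0 := by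
      intro z hz
      obtain ⟨h, hh⟩ := hdvdK
      have h3 : (φ.map (algebraMap (ZMod p) K)).eval z = 0 := by
        rw [eval_map_algebraMap]
        exact hz
      constructor
      · rw [hh, eval_mul, eval_pow, h3]
        simp
      · rw [hh, derivative_mul, derivative_pow, eval_add, eval_mul, eval_mul, eval_mul, eval_mul,
          eval_pow, eval_pow, h3]
        simp
    obtain ⟨hx1, hx2⟩ := hr x hx
    obtain ⟨hy1, hy2⟩ := hr y hy
    let i₀ : Fin N := ⟨0, h0N⟩
    have hera := mkP_erase_Td i₀ rfl c
    set f0 : ℤ[X] := mkP (fun i : Fin N => if 0 < (i : ℕ) then c i else 0) with hf0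
    have hK0 : fK' = f0.map (Int.castRingHom K) + C ((c i₀ : ℤ) : K) := by
      rw [hfK, hera, Polynomial.map_add, map_C, eq_intCast]
    have hD : critD N (f0.map (Int.castRingHom K)) = 0 := by
      have hmon : (f0.map (Int.castRingHom K)).Monic := (sp1 ℤ N _).1.map _
      have hdeg : (f0.map (Int.castRingHom K)).natDegree = N := by
        rw [(sp1 ℤ N _).1.natDegree_map]
        exact (sp1 ℤ N _).2.1
      refine (tc2 K N hN hNK _ hmon hdeg).1 ⟨x, y, hxy', ?_, ?_, ?_⟩
      · rw [hK0, derivative_add, derivative_C, add_zero] at hx2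
        exact hx2
      · rw [hK0, derivative_add, derivative_C, add_zero] at hy2
        exact hy2
      · rw [hK0, eval_add, eval_C] at hx1 hy1
        rw [eq_neg_of_add_eq_zero_left hx1, eq_neg_of_add_eq_zero_left hy1]
    rw [tc1] at hD
    rw [← CharP.intCast_eq_zero_iff K p]
    have hgen : (gen_Td N).map (MvPolynomial.eval
        (fun i : Fin (N - 1) => c ⟨(i : ℕ) + 1, by omega⟩)) = f0 := by
      unfold gen_Td
      rw [sp3, hf0]
      congr 1
      funext i
      by_cases h : 0 < (i : ℕ)
      · rw [dif_pos h, if_pos h, MvPolynomial.eval_X]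
        congr 1
        apply Fin.ext
        change (i : ℕ) - 1 + 1 = i
        omega
      · rw [dif_neg h, if_neg h, map_zero]
    rw [← tc1, hgen]
    exact hD

end Pool.Agent.Helper54.HQ
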