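import Pool.Agent.Helper54.HQ.StS

/-!
# HQ, module Te: zeros of a polynomial in a box
-/

set_option autoImplicit false

namespace Pool.Agent.Helper54.HQ

open Finset

private lemma pw_Te (H : ℝ) (n : ℕ) : ∏ i : Fin n, H ^ (n - (i : ℕ)) = H ^ (n * (n + 1) / 2) := by
  induction n with
  | zero => simp
  | succ n ih =>
    rw [Fin.prod_univ_succ]
    have h1 : ∏ i : Fin n, H ^ (n + 1 - ((i.succ : Fin (n + 1)) : ℕ)) =
        ∏ i : Fin n, H ^ (n - (i : ℕ)) := by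
      refine Finset.prod_congr rfl fun i _ => ?_
      rw [Fin.val_succ, Nat.add_sub_add_right]
    rw [h1, ih, Fin.val_zero, Nat.sub_zero, ← pow_add]
    congr 1
    have : (n + 1) * (n + 1 + 1) = n * (n + 1) + (n + 1) * 2 := by ring
    rw [this, Nat.add_mul_div_right _ _ (by norm_num)]
    ring

theorem hTe : StTe := by
  intro N hN D hD
  classical
  obtain ⟨M, rfl⟩ : ∃ M, N = M + 1 := ⟨N - 1, by omega⟩
  change MvPolynomial (Fin M) ℤ at D
  set d : ℕ := ∑ i, D.degreeOf i with hd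
  refine ⟨3 ^ (M + 1) * (d + 1), by positivity, ?_⟩
  intro H hH
  have hHZ : (1 : ℤ) ≤ H := by exact_mod_cast hH
  have hHR : (1 : ℝ) ≤ H := by exact_mod_cast hH
  set S : Fin M → Finset ℤ := fun i => Icc (-(H : ℤ) ^ (M - (i : ℕ))) ((H : ℤ) ^ (M - (i : ℕ)))
    with hS
  have hcS : ∀ n : ℕ, ((Icc (-(H : ℤ) ^ n) ((H : ℤ) ^ n)).card : ℝ) = 2 * (H : ℝ) ^ n + 1 := by
    intro n
    have h1 : ((Icc (-(H : ℤ) ^ n) ((H : ℤ) ^ n)).card : ℤ) = 2 * (H : ℤ) ^ n + 1 := by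
      have h2 : (0 : ℤ) ≤ (H : ℤ) ^ n := by positivity
      rw [Int.card_Icc, Int.toNat_of_nonneg (by omega)]
      ring
    exact_mod_cast h1
  set Z : Finset (Fin M → ℤ) := (Fintype.piFinset S).filter fun x => MvPolynomial.eval x D = 0
    with hZ
  have hSZ := MvPolynomial.schwartz_zippel_sum_degreeOf hD S
  have hSZ' : ((Z.card : ℕ) : ℝ) / ∏ i, ((S i).card : ℝ) ≤
      ∑ i, (D.degreeOf i : ℝ) / ((S i).card : ℝ) := by
    have h1 := (NNRat.cast_le (K := ℝ)).2 hSZ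
    push_cast at h1
    exact h1
  have hSpos : ∀ i, (H : ℝ) ≤ (S i).card := by
    intro i
    rw [hS, hcS]
    have h1 : (H : ℝ) ^ 1 ≤ (H : ℝ) ^ (M - (i : ℕ)) :=
      pow_le_pow_right₀ hHR (by have := i.2; omega)
    rw [pow_one] at h1
    have h2 : (0 : ℝ) ≤ (H : ℝ) ^ (M - (i : ℕ)) := by positivity
    linarith
  have hprod : (0 : ℝ) < ∏ i, ((S i).card : ℝ) :=
    Finset.prod_pos fun i _ => lt_of_lt_of_le (by linarith) (hSpos i)
  have hZH : (Z.card : ℝ) * H ≤ d * ∏ i, ((S i).card : ℝ) := by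
    rw [div_le_iff₀ hprod] at hSZ'
    have h1 : (∑ i, (D.degreeOf i : ℝ) / ((S i).card : ℝ)) * H ≤ d := by
      rw [Finset.sum_mul, hd]
      push_cast
      refine Finset.sum_le_sum fun i _ => ?_
      have hpos : (0 : ℝ) < (S i).card := lt_of_lt_of_le (by linarith) (hSpos i)
      rw [div_mul_eq_mul_div, div_le_iff₀ hpos]
      exact mul_le_mul_of_nonneg_left (hSpos i) (by positivity)
    calc (Z.card : ℝ) * H ≤ ((∑ i, (D.degreeOf i : ℝ) / ((S i).card : ℝ)) *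
          ∏ i, ((S i).card : ℝ)) * H := mul_le_mul_of_nonneg_right hSZ' (by linarith)
      _ = ((∑ i, (D.degreeOf i : ℝ) / ((S i).card : ℝ)) * H) * ∏ i, ((S i).card : ℝ) := by ring
      _ ≤ d * ∏ i, ((S i).card : ℝ) := mul_le_mul_of_nonneg_right h1 hprod.le
  set P : Finset (ℤ × (Fin M → ℤ)) :=
    Icc (-(H : ℤ) ^ (M + 1)) ((H : ℤ) ^ (M + 1)) ×ˢ Z with hP
  have hncard : {c : Fin (M + 1) → ℤ | (∀ i, |c i| ≤ (H : ℤ) ^ (M + 1 - (i : ℕ))) ∧
      MvPolynomial.eval (fun i : Fin M => c ⟨(i : ℕ) + 1, by omega⟩) D = 0}.ncard ≤ P.card := by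
    rw [← Set.ncard_coe_finset P]
    refine Set.ncard_le_ncard_of_injOn (fun c => (c 0, fun i : Fin M => c i.succ)) ?_ ?_ ?_
    · intro c hc
      rw [Finset.mem_coe, hP, Finset.mem_product]
      constructor
      · have h1 := hc.1 0
        rw [Fin.val_zero, Nat.sub_zero, abs_le] at h1
        rw [Finset.mem_Icc]
        exact h1
      · rw [hZ, Finset.mem_filter, Fintype.mem_piFinset]
        refine ⟨fun i => ?_, hc.2⟩
        have h1 := hc.1 i.succ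
        rw [Fin.val_succ, Nat.add_sub_add_right, abs_le] at h1
        rw [hS, Finset.mem_Icc]
        exact h1
    · intro c _ c' _ h
      have h1 := (Prod.ext_iff.1 h).1
      have h2 := (Prod.ext_iff.1 h).2
      funext j
      refine Fin.cases h1 (fun j => ?_) j
      exact congrFun h2 j
    · exact P.finite_toSet
  have hPc : (P.card : ℝ) = (2 * (H : ℝ) ^ (M + 1) + 1) * Z.card := by
    rw [hP, Finset.card_product]
    push_cast
    rw [hcS]
  have h3 : ∀ n : ℕ, 2 * (H : ℝ) ^ n + 1 ≤ 3 * (H : ℝ) ^ n := by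
    intro n
    have := one_le_pow₀ hHR (n := n)
    linarith
  have hfin : (2 * (H : ℝ) ^ (M + 1) + 1) * ∏ i, ((S i).card : ℝ) ≤
      3 ^ (M + 1) * (H : ℝ) ^ ((M + 1) * (M + 1 + 1) / 2) := by
    have h4 : (2 * (H : ℝ) ^ (M + 1) + 1) * ∏ i, ((S i).card : ℝ) =
        ∏ i : Fin (M + 1), (2 * (H : ℝ) ^ (M + 1 - (i : ℕ)) + 1) := by
      rw [Fin.prod_univ_succ]
      congr 1
      refine Finset.prod_congr rfl fun i _ => ?_
      rw [hS, hcS, Fin.val_succ, Nat.add_sub_add_right]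
    rw [h4, ← pw_Te]
    calc ∏ i : Fin (M + 1), (2 * (H : ℝ) ^ (M + 1 - (i : ℕ)) + 1)
        ≤ ∏ i : Fin (M + 1), (3 * (H : ℝ) ^ (M + 1 - (i : ℕ))) :=
          Finset.prod_le_prod (fun i _ => by positivity) fun i _ => h3 _
      _ = 3 ^ (M + 1) * ∏ i : Fin (M + 1), (H : ℝ) ^ (M + 1 - (i : ℕ)) := by
          rw [Finset.prod_mul_distrib, Finset.prod_const, Finset.card_univ, Fintype.card_fin]
  have hnr : (({c : Fin (M + 1) → ℤ | (∀ i, |c i| ≤ (H : ℤ) ^ (M + 1 - (i : ℕ))) ∧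
      MvPolynomial.eval (fun i : Fin M => c ⟨(i : ℕ) + 1, by omega⟩) D = 0}.ncard : ℕ) : ℝ) ≤
      P.card := by exact_mod_cast hncard
  calc (({c : Fin (M + 1) → ℤ | (∀ i, |c i| ≤ (H : ℤ) ^ (M + 1 - (i : ℕ))) ∧
      MvPolynomial.eval (fun i : Fin M => c ⟨(i : ℕ) + 1, by omega⟩) D = 0}.ncard : ℕ) : ℝ) * H
      ≤ P.card * H := mul_le_mul_of_nonneg_right hnr (by linarith)
    _ = (2 * (H : ℝ) ^ (M + 1) + 1) * (Z.card * H) := by rw [hPc]; ring
    _ ≤ (2 * (H : ℝ) ^ (M + 1) + 1) * (d * ∏ i, ((S i).card : ℝ)) :=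
        mul_le_mul_of_nonneg_left hZH (by positivity)
    _ = d * ((2 * (H : ℝ) ^ (M + 1) + 1) * ∏ i, ((S i).card : ℝ)) := by ring
    _ ≤ d * (3 ^ (M + 1) * (H : ℝ) ^ ((M + 1) * (M + 1 + 1) / 2)) :=
        mul_le_mul_of_nonneg_left hfin (by positivity)
    _ ≤ (d + 1) * (3 ^ (M + 1) * (H : ℝ) ^ ((M + 1) * (M + 1 + 1) / 2)) := by
        apply mul_le_mul_of_nonneg_right _ (by positivity)
        linarith
    _ = 3 ^ (M + 1) * (d + 1) * (H : ℝ) ^ ((M + 1) * (M + 1 + 1) / 2) := by ring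

end Pool.Agent.Helper54.HQ
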