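import Pool.Agent.Helper54.HQ.StS

/-!
# HQ: Tf (few residues of the constant coefficient)
-/

set_option autoImplicit false

namespace Pool.Agent.Helper54.HQ

open Polynomial Finset Filter Topology Matrix

/-- Changing only the constant coefficient of `mkP`. -/
private lemma mkP_sub_Tf {N : ℕ} (hN : 0 < N) (c c' : Fin N → ℤ)
    (h : ∀ i : Fin N, (i : ℕ) ≠ 0 → c i = c' i) :
    mkP c = mkP c' + C (c ⟨0, hN⟩ - c' ⟨0, hN⟩) := by
  have h1 : ∑ i : Fin N, C (c i) * X ^ (i : ℕ) - ∑ i : Fin N, C (c' i) * (X : ℤ[X]) ^ (i : ℕ) =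
      C (c ⟨0, hN⟩ - c' ⟨0, hN⟩) := by
    rw [← Finset.sum_sub_distrib]
    rw [Finset.sum_eq_single (⟨0, hN⟩ : Fin N)]
    · simp
    · intro b _ hb
      have hb' : (b : ℕ) ≠ 0 := by
        intro h0
        apply hb
        apply Fin.ext
        exact h0
      rw [h b hb', sub_self]
    · intro h0
      exact absurd (Finset.mem_univ _) h0
  unfold mkP
  rw [← h1]
  ring

/-- Tf. -/
theorem hTf (h : StSp) : StTf := by
  classical
  intro N p hN hp hNp c'
  haveI : Fact p.Prime := ⟨hp⟩
  have hN0 : 0 < N := by omega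
  obtain ⟨hs1, -, -⟩ := h
  set K := AlgebraicClosure (ZMod p) with hK
  set F : (ZMod p)[X] := (mkP c').map (Int.castRingHom (ZMod p)) with hF
  set G : (ZMod p)[X] := derivative F with hG
  have hNz : (N : ZMod p) ≠ 0 := by
    intro h0
    rw [ZMod.natCast_eq_zero_iff] at h0
    exact absurd (Nat.le_of_dvd hN0 h0) (by omega)
  have hm : (mkP c').Monic := (hs1 ℤ N c').1
  have hd : (mkP c').natDegree = N := (hs1 ℤ N c').2.1
  have hFm : F.Monic := hm.map _
  have hFd : F.natDegree = N := by rw [hF, hm.natDegree_map, hd]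
  have hGc : G.coeff (N - 1) = N := by
    rw [hG, coeff_derivative]
    have h1 : N - 1 + 1 = N := by omega
    rw [h1]
    have h2 : F.coeff N = 1 := by
      have := hFm.coeff_natDegree
      rwa [hFd] at this
    rw [h2, one_mul]
    have h3 : (((N - 1 : ℕ) : ZMod p) + 1) = ((N - 1 + 1 : ℕ) : ZMod p) := by push_cast; rfl
    rw [h3, h1]
  have hG0 : G ≠ 0 := by
    intro h0
    rw [h0, coeff_zero] at hGc
    exact hNz hGc.symm
  have hGd : G.natDegree ≤ N - 1 := by
    have := natDegree_derivative_le F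
    rwa [hFd] at this
  set R : Finset K := (G.aroots K).toFinset.image
    (fun ξ => algebraMap (ZMod p) K (c' ⟨0, hN0⟩ : ZMod p) - aeval ξ F) with hR
  have hRc : R.card ≤ N - 1 := by
    refine (Finset.card_image_le).trans ?_
    refine (Multiset.toFinset_card_le _).trans ?_
    refine (card_roots' _).trans ?_
    exact (natDegree_map_le).trans hGd
  refine ⟨Finset.univ.filter (fun e : ZMod p => algebraMap (ZMod p) K e ∈ R), ?_, ?_⟩
  · refine le_trans ?_ hRc
    refine Finset.card_le_card_of_injOn (fun e => algebraMap (ZMod p) K e) ?_ ?_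
    · intro e he
      exact (Finset.mem_filter.1 he).2
    · intro a _ b _ hab
      exact (algebraMap (ZMod p) K).injective hab
  · intro c hc hst i₀ hi₀
    have hi : i₀ = ⟨0, hN0⟩ := Fin.ext hi₀
    subst hi
    obtain ⟨φ, hφm, hφi, hφd, q, hq⟩ := hst
    have hφ0 : φ.degree ≠ 0 := by
      intro h0
      have := natDegree_eq_of_degree_eq_some (n := 0) (by simpa using h0)
      omega
    obtain ⟨ξ, hξ⟩ := IsAlgClosed.exists_aeval_eq_zero K φ hφ0
    have hfc : (mkP c).map (Int.castRingHom (ZMod p)) =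
        F + C ((c ⟨0, hN0⟩ : ZMod p) - (c' ⟨0, hN0⟩ : ZMod p)) := by
      rw [mkP_sub_Tf hN0 c c' hc, Polynomial.map_add, map_C, ← hF]
      simp
    have he1 : aeval ξ ((mkP c).map (Int.castRingHom (ZMod p))) = 0 := by
      rw [hq, map_mul, map_pow, hξ]
      simp
    have he2 : aeval ξ (derivative ((mkP c).map (Int.castRingHom (ZMod p)))) = 0 := by
      rw [hq, derivative_mul, derivative_pow]
      simp [hξ]
    have he3 : aeval ξ G = 0 := by
      rw [hfc, derivative_add, derivative_C, add_zero] at he2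
      exact he2
    rw [hfc, map_add, aeval_C, map_sub] at he1
    rw [Finset.mem_filter]
    refine ⟨Finset.mem_univ _, ?_⟩
    rw [hR, Finset.mem_image]
    refine ⟨ξ, ?_, ?_⟩
    · rw [Multiset.mem_toFinset, mem_aroots]
      exact ⟨hG0, he3⟩
    · linear_combination (-1 : K) * he1

end Pool.Agent.Helper54.HQ
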