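import Pool.Agent.Helper54.HQ.StF

/-!
# HQ: module Tl (translation of the Selmer set)
-/

set_option autoImplicit false

namespace Pool.Agent.Helper54.HQ

open Polynomial Finset Filter Topology Matrix IsDedekindDomain
open Pool.Agent.Helper3.HY (co tau Ix nu TType IType baseChange descentGroup IsPointValue IsTwPoint
  twGroup)

section Tl

variable {k : Type} [Field k]

/-- The translation `θ_h ↦ θ_h' + c` on `k[θ]`. -/
private noncomputable def sh_Tl (h h' : k[X]) (c : k) (e : h' = h.comp (X + C c)) :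
    AdjoinRoot h →+* AdjoinRoot h' :=
  AdjoinRoot.lift (AdjoinRoot.of h') (AdjoinRoot.mk h' (X + C c)) (by
    have h1 : (AdjoinRoot.of h') = (AdjoinRoot.mk h').comp C := rfl
    rw [h1, ← hom_eval₂]
    change AdjoinRoot.mk h' (h.comp (X + C c)) = 0
    rw [← e]
    exact AdjoinRoot.mk_self)

private theorem sh_mk_Tl (h h' : k[X]) (c : k) (e : h' = h.comp (X + C c)) (p : k[X]) :
    sh_Tl h h' c e (AdjoinRoot.mk h p) = AdjoinRoot.mk h' (p.comp (X + C c)) := by
  unfold sh_Tl
  rw [AdjoinRoot.lift_mk]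
  have h1 : (AdjoinRoot.of h') = (AdjoinRoot.mk h').comp C := rfl
  rw [h1, ← hom_eval₂]
  rfl

private theorem comp_inv_Tl (p : k[X]) (c : k) :
    (p.comp (X + C c)).comp (X + C (-c)) = p := by
  rw [comp_assoc]
  have : (X + C c).comp (X + C (-c)) = (X : k[X]) := by
    rw [add_comp, X_comp, C_comp, add_assoc, ← C_add, neg_add_cancel, C_0, add_zero]
  rw [this, comp_X]

private theorem symm_Tl {h h' : k[X]} {c : k} (e : h' = h.comp (X + C c)) :
    h = h'.comp (X + C (-c)) := by
  rw [e, comp_inv_Tl]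

private theorem sh_sh_Tl (h h' : k[X]) (c : k) (e : h' = h.comp (X + C c)) (z : AdjoinRoot h) :
    sh_Tl h' h (-c) (symm_Tl e) (sh_Tl h h' c e z) = z := by
  obtain ⟨p, rfl⟩ := AdjoinRoot.mk_surjective z
  rw [sh_mk_Tl, sh_mk_Tl, comp_inv_Tl]

private theorem sh_sh'_Tl (h h' : k[X]) (c : k) (e : h' = h.comp (X + C c)) (z : AdjoinRoot h') :
    sh_Tl h h' c e (sh_Tl h' h (-c) (symm_Tl e) z) = z := by
  obtain ⟨p, rfl⟩ := AdjoinRoot.mk_surjective z
  rw [sh_mk_Tl, sh_mk_Tl]
  have := comp_inv_Tl p (-c)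
  rw [neg_neg] at this
  rw [this]

/-- The translation as an isomorphism of algebras. -/
private noncomputable def eq_Tl (h h' : k[X]) (c : k) (e : h' = h.comp (X + C c)) :
    AdjoinRoot h ≃ₐ[k] AdjoinRoot h' :=
  AlgEquiv.ofRingEquiv (f := RingEquiv.ofRingHom (sh_Tl h h' c e) (sh_Tl h' h (-c) (symm_Tl e))
    (RingHom.ext (sh_sh'_Tl h h' c e)) (RingHom.ext (sh_sh_Tl h h' c e))) (by
      intro x
      change sh_Tl h h' c e (AdjoinRoot.mk h (C x)) = AdjoinRoot.mk h' (C x)
      rw [sh_mk_Tl, C_comp])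

private theorem desc_Tl (h h' : k[X]) (c : k) (e : h' = h.comp (X + C c)) (w : (AdjoinRoot h')ˣ)
    (hw : w ∈ descentGroup h') :
    Units.map (sh_Tl h' h (-c) (symm_Tl e) : AdjoinRoot h' →* AdjoinRoot h) w ∈
      descentGroup h := by
  have key : descentGroup h' ≤ (descentGroup h).comap
      (Units.map (sh_Tl h' h (-c) (symm_Tl e) : AdjoinRoot h' →* AdjoinRoot h)) := by
    unfold descentGroup
    rw [Subgroup.closure_le]
    rintro z (hz | ⟨y, rfl⟩)
    · obtain ⟨U, V, hU, hco, hdvd, hz⟩ := hz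
      apply Subgroup.subset_closure
      left
      have hdeg : (X + C (-c) : k[X]).natDegree = 1 := natDegree_X_add_C _
      refine ⟨U.comp (X + C (-c)), V.comp (X + C (-c)), ?_, ?_, ?_, ?_⟩
      · exact hU.comp (monic_X_add_C _) (by rw [hdeg]; exact one_ne_zero)
      · have := hco.map (compRingHom (X + C (-c)))
        rw [coe_compRingHom_apply, coe_compRingHom_apply, ← symm_Tl e] at this
        exact this
      · have := map_dvd (compRingHom (X + C (-c))) hdvd
        rw [map_sub, map_pow, coe_compRingHom_apply, coe_compRingHom_apply,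
          coe_compRingHom_apply, ← symm_Tl e] at this
        exact this
      · rw [Units.coe_map, MonoidHom.coe_coe, hz, sh_mk_Tl, mul_comp, natDegree_comp, hdeg,
          mul_one]
        congr 2
        rw [← C_1, ← C_neg, ← C_pow, C_comp]
    · apply Subgroup.subset_closure
      right
      exact ⟨Units.map (sh_Tl h' h (-c) (symm_Tl e) : AdjoinRoot h' →* AdjoinRoot h) y, by
        simp only [map_pow]⟩
  exact key hw

private theorem base_Tl {k' : Type} [Field k'] (i : k →+* k') (h h' : k[X]) (c : k)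
    (e : h' = h.comp (X + C c)) (e' : h'.map i = (h.map i).comp (X + C (i c)))
    (z : AdjoinRoot h') :
    sh_Tl (h'.map i) (h.map i) (-(i c)) (symm_Tl e') (baseChange i h' z) =
      baseChange i h (sh_Tl h' h (-c) (symm_Tl e) z) := by
  obtain ⟨p, rfl⟩ := AdjoinRoot.mk_surjective z
  have hb : ∀ (g : k[X]) (q : k[X]), baseChange i g (AdjoinRoot.mk g q) =
      AdjoinRoot.mk (g.map i) (q.map i) := by
    intro g q
    unfold baseChange AdjoinRoot.map
    rw [AdjoinRoot.lift_mk]
    rw [show ((AdjoinRoot.of (g.map i)).comp i) = ((AdjoinRoot.mk (g.map i)).comp C).comp i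
      from rfl, RingHom.comp_assoc, show AdjoinRoot.root (g.map i) =
      AdjoinRoot.mk (g.map i) X from rfl, ← hom_eval₂]
    rfl
  rw [hb, sh_mk_Tl, sh_mk_Tl, hb, map_comp]
  simp

end Tl

/-- Tl (translation). -/
theorem hTl : StTl := by
  intro f a _
  have e : fK (f.comp (X + C a)) = (fK f).comp (X + C (Int.castRingHom ℚ a)) := by
    rw [fK, fK, map_comp, Polynomial.map_add, map_X, map_C]
  constructor
  · intro hT z hn hloc
    set z' : (LL f)ˣ := Units.map (sh_Tl (fK (f.comp (X + C a))) (fK f)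
      (-(Int.castRingHom ℚ a)) (symm_Tl e) : LL (f.comp (X + C a)) →* LL f) z with hz'
    have h1 : IsSquare (Algebra.norm ℚ (z' : LL f)) := by
      have := Algebra.norm_eq_of_algEquiv (eq_Tl (fK f) (fK (f.comp (X + C a)))
        (Int.castRingHom ℚ a) e).symm (z : LL (f.comp (X + C a)))
      change IsSquare (Algebra.norm ℚ ((eq_Tl (fK f) (fK (f.comp (X + C a)))
        (Int.castRingHom ℚ a) e).symm (z : LL (f.comp (X + C a)))))
      rw [this]
      exact hn
    have h2 := hT z' h1 ?_
    · obtain ⟨y, hy⟩ := h2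
      refine ⟨Units.map (sh_Tl (fK f) (fK (f.comp (X + C a)))
        (Int.castRingHom ℚ a) e : LL f →* LL (f.comp (X + C a))) y, ?_⟩
      rw [← map_mul, ← hy]
      ext
      exact (sh_sh'_Tl _ _ _ e _).symm
    · intro p hp
      have e' : (fK (f.comp (X + C a))).map (algebraMap ℚ ℚ_[p]) =
          ((fK f).map (algebraMap ℚ ℚ_[p])).comp
            (X + C (algebraMap ℚ ℚ_[p] (Int.castRingHom ℚ a))) := by
        rw [e, map_comp, Polynomial.map_add, map_X, map_C]
      have h3 := desc_Tl _ _ _ e' _ (hloc p)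
      have h4 : Units.map (sh_Tl ((fK (f.comp (X + C a))).map (algebraMap ℚ ℚ_[p]))
          ((fK f).map (algebraMap ℚ ℚ_[p])) (-(algebraMap ℚ ℚ_[p] (Int.castRingHom ℚ a)))
          (symm_Tl e') : AdjoinRoot ((fK (f.comp (X + C a))).map (algebraMap ℚ ℚ_[p])) →*
            AdjoinRoot ((fK f).map (algebraMap ℚ ℚ_[p])))
          (Units.map (baseChange (algebraMap ℚ ℚ_[p]) (fK (f.comp (X + C a))) :
            LL (f.comp (X + C a)) →*
              AdjoinRoot ((fK (f.comp (X + C a))).map (algebraMap ℚ ℚ_[p]))) z) =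
          Units.map (baseChange (algebraMap ℚ ℚ_[p]) (fK f) : LL f →*
            AdjoinRoot ((fK f).map (algebraMap ℚ ℚ_[p]))) z' := by
        ext
        exact base_Tl (algebraMap ℚ ℚ_[p]) _ _ _ e e' _
      rw [← h4]
      exact h3
  · intro hirr
    rw [e]
    have := (MulEquiv.irreducible_iff (algEquivAevalXAddC (Int.castRingHom ℚ a))
      (x := fK f)).2 hirr
    rw [algEquivAevalXAddC_apply] at this
    exact this

end Pool.Agent.Helper54.HQ
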