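import Pool.Agent.Helper54.HQ.StF

/-!
# HQ, module Tm: translation and coefficients
-/

set_option autoImplicit false

namespace Pool.Agent.Helper54.HQ

open Polynomial Finset Filter Topology Matrix IsDedekindDomain

lemma coeff_Tm (f : ℤ[X]) (a : ℤ) {n N : ℕ} (h : f.natDegree = N) (hn : n ≤ N) :
    (f.comp (X + C a)).coeff n =
      ∑ m ∈ range (N + 1 - n), ((m + n).choose n : ℤ) * f.coeff (m + n) * a ^ m := by
  have h1 : (hasseDeriv n f).natDegree < N + 1 - n := by
    have := natDegree_hasseDeriv_le f n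
    omega
  rw [← taylor_apply, taylor_coeff, eval_eq_sum_range' h1]
  refine sum_congr rfl fun m _ => ?_
  rw [hasseDeriv_coeff]

theorem hTm : StTm := by
  intro g H hg f hf a ha
  obtain ⟨hm, hN, hc⟩ := hf
  have hH0 : (0 : ℤ) ≤ H := by positivity
  -- the size of `a`
  have ha1 : |a| ≤ H := by
    have h1 := hc (2 * g) (by omega)
    have e1 : 2 * g + 1 - 2 * g = 1 := by omega
    rw [ha, abs_mul, abs_neg, e1, pow_one, Nat.abs_cast] at h1
    have h2 : (1 : ℤ) * |a| ≤ ((2 * g + 1 : ℕ) : ℤ) * |a| :=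
      mul_le_mul_of_nonneg_right (by push_cast; omega) (abs_nonneg a)
    linarith
  have hdeg : (f.comp (X + C a)).natDegree = 2 * g + 1 := by
    rw [natDegree_comp, natDegree_X_add_C, mul_one, hN]
  have hmon : (f.comp (X + C a)).Monic := hm.comp_X_add_C a
  have hcN : f.coeff (2 * g + 1) = 1 := by
    rw [← hN]
    exact hm.coeff_natDegree
  refine ⟨⟨⟨hmon, hdeg, fun i hi => ?_⟩, ?_⟩, ha1⟩
  · rcases Nat.eq_or_lt_of_le hi with h0 | h0
    · subst h0
      have : (f.comp (X + C a)).coeff (2 * g + 1) = 1 := by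
        conv_lhs => rw [← hdeg]
        exact hmon.coeff_natDegree
      rw [this, Nat.sub_self, pow_zero, abs_one]
    · rw [coeff_Tm f a hN hi]
      have h1 : |∑ m ∈ range (2 * g + 1 + 1 - i),
          ((m + i).choose i : ℤ) * f.coeff (m + i) * a ^ m| ≤
          ∑ m ∈ range (2 * g + 1 + 1 - i), ((m + i).choose i : ℤ) * (H : ℤ) ^ (2 * g + 1 - i) := by
        refine (abs_sum_le_sum_abs _ _).trans (sum_le_sum fun m hm' => ?_)
        rw [mem_range] at hm'
        rw [abs_mul, abs_mul, Nat.abs_cast, abs_pow, mul_assoc]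
        refine mul_le_mul_of_nonneg_left ?_ (by positivity)
        have h2 := hc (m + i) (by omega)
        have h3 : |a| ^ m ≤ (H : ℤ) ^ m := pow_le_pow_left₀ (abs_nonneg a) ha1 m
        calc |f.coeff (m + i)| * |a| ^ m ≤ (H : ℤ) ^ (2 * g + 1 - (m + i)) * (H : ℤ) ^ m :=
              mul_le_mul h2 h3 (by positivity) (by positivity)
          _ = (H : ℤ) ^ (2 * g + 1 - i) := by
              rw [← pow_add]
              congr 1
              omega
      refine h1.trans ?_
      rw [← sum_mul]
      have h2 : (∑ m ∈ range (2 * g + 1 + 1 - i), ((m + i).choose i : ℤ)) ≤ 4 ^ (g + 1) := by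
        have e1 : ∑ m ∈ range (2 * g + 1 + 1 - i), (m + i).choose i =
            (2 * g + 2).choose (i + 1) := by
          have h3 := Nat.sum_range_add_choose (2 * g + 1 - i) i
          have e2 : 2 * g + 1 - i + 1 = 2 * g + 1 + 1 - i := by omega
          have e3 : 2 * g + 1 - i + i + 1 = 2 * g + 2 := by omega
          rw [e2, e3] at h3
          exact h3
        have h4 : (2 * g + 2).choose (i + 1) ≤ 2 ^ (2 * g + 2) := Nat.choose_le_two_pow _ _
        have e4 : (2 : ℕ) ^ (2 * g + 2) = 4 ^ (g + 1) := by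
          rw [show 2 * g + 2 = 2 * (g + 1) by ring, pow_mul]
          norm_num
        rw [e4] at h4
        rw [← e1] at h4
        exact_mod_cast h4
      have h5 : (4 : ℤ) ^ (g + 1) ≤ (4 ^ (g + 1)) ^ (2 * g + 1 - i) := by
        refine le_self_pow₀ ?_ (by omega)
        exact one_le_pow₀ (by norm_num)
      calc (∑ m ∈ range (2 * g + 1 + 1 - i), ((m + i).choose i : ℤ)) * (H : ℤ) ^ (2 * g + 1 - i)
          ≤ (4 ^ (g + 1)) ^ (2 * g + 1 - i) * (H : ℤ) ^ (2 * g + 1 - i) :=
            mul_le_mul_of_nonneg_right (h2.trans h5) (by positivity)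
        _ = _ := by
            rw [← mul_pow]
            push_cast
            rfl
  · have e1 : 2 * g + 1 - 1 = 2 * g := by omega
    rw [e1, coeff_Tm f a hN (by omega)]
    have e2 : 2 * g + 1 + 1 - 2 * g = 2 := by omega
    rw [e2, sum_range_succ, sum_range_one, zero_add, Nat.choose_self, ha, add_comm 1 (2 * g), hcN,
      Nat.choose_succ_self_right]
    push_cast
    ring

end Pool.Agent.Helper54.HQ
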