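import Pool.Agent.Helper54.HQ.Base
import Pool.Agent.Helper54.HL.St

/-!
# HY, local part: transport of the Selmer set of the twist
-/

set_option autoImplicit false

namespace Pool.Agent.Helper54.HQ

open Polynomial IsDedekindDomain
open Pool.Agent.Helper3.HY (co tau Ix nu TType IType baseChange descentGroup IsPointValue IsTwPoint
  twGroup co_mk sum_co ext_co co_eq_zero)
open Pool.Agent.Helper54.HL (tk IrrInt IrrBig Nr Rep RepA RepB pr pr_mk IsTwIrr LinePt RootLift)

section aux_Trans

variable {k k' : Type} [Field k] [Field k']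

theorem baseChange_root_Trans (i : k →+* k') (h : k[X]) :
    baseChange i h (AdjoinRoot.root h) = AdjoinRoot.root (h.map i) := by
  rw [baseChange, AdjoinRoot.map_root]

theorem baseChange_of_Trans (i : k →+* k') (h : k[X]) (c : k) :
    baseChange i h (AdjoinRoot.of h c) = AdjoinRoot.of (h.map i) (i c) := by
  rw [baseChange, AdjoinRoot.map_of]

theorem comm_Trans (i : k →+* k') (h h' : k[X]) (D : k)
    (φ : AdjoinRoot h' ≃ₐ[k] AdjoinRoot h)
    (hφ : φ (AdjoinRoot.root h') = algebraMap k (AdjoinRoot h) D * AdjoinRoot.root h)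
    (ψ : AdjoinRoot (h'.map i) ≃ₐ[k'] AdjoinRoot (h.map i))
    (hψ : ψ (AdjoinRoot.root (h'.map i)) =
      algebraMap k' (AdjoinRoot (h.map i)) (i D) * AdjoinRoot.root (h.map i))
    (x : AdjoinRoot h') : ψ (baseChange i h' x) = baseChange i h (φ x) := by
  have h1 : ((ψ : AdjoinRoot (h'.map i) →+* AdjoinRoot (h.map i)).comp (baseChange i h')) =
      (baseChange i h).comp (φ : AdjoinRoot h' →+* AdjoinRoot h) := by
    refine AdjoinRoot.ringHom_ext ?_ ?_
    · ext c
      show ψ (baseChange i h' (AdjoinRoot.of h' c)) = baseChange i h (φ (AdjoinRoot.of h' c))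
      rw [baseChange_of_Trans]
      have h2 : φ (AdjoinRoot.of h' c) = AdjoinRoot.of h c := φ.commutes c
      have h3 : ψ (AdjoinRoot.of (h'.map i) (i c)) = AdjoinRoot.of (h.map i) (i c) :=
        ψ.commutes (i c)
      rw [h2, h3, baseChange_of_Trans]
    · show ψ (baseChange i h' (AdjoinRoot.root h')) = baseChange i h (φ (AdjoinRoot.root h'))
      rw [baseChange_root_Trans, hψ, hφ, map_mul, baseChange_root_Trans]
      congr 1
      exact (baseChange_of_Trans i h D).symm
  exact RingHom.congr_fun h1 x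

theorem group_Trans (h : k[X]) (D : k) (h' : k[X]) (ψ : AdjoinRoot h' ≃ₐ[k] AdjoinRoot h)
    (hψ : ∀ z, IsPointValue h' z → IsTwPoint h D (ψ z)) (z : (AdjoinRoot h')ˣ)
    (hz : z ∈ descentGroup h') :
    Units.map ((ψ : AdjoinRoot h' →+* AdjoinRoot h) : AdjoinRoot h' →* AdjoinRoot h) z ∈
      twGroup h D := by
  have h1 : descentGroup h' ≤ (twGroup h D).comap
      (Units.map ((ψ : AdjoinRoot h' →+* AdjoinRoot h) : AdjoinRoot h' →* AdjoinRoot h)) := by
    rw [descentGroup, Subgroup.closure_le]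
    rintro w (hw | ⟨u, rfl⟩)
    · refine Subgroup.subset_closure (Or.inl ?_)
      exact hψ _ hw
    · refine Subgroup.subset_closure (Or.inr ?_)
      exact ⟨Units.map ((ψ : AdjoinRoot h' →+* AdjoinRoot h) : AdjoinRoot h' →* AdjoinRoot h) u,
        (map_pow _ u 2).symm⟩
  exact h1 hz

end aux_Trans

theorem hTrans (h : HL.StTR) : StTrans := by
  intro g f D hf hdeg hD H
  set D' : ℚ := Int.castRingHom ℚ D with hD'
  have hD0 : D' ≠ 0 := by
    rw [hD', Ne, eq_intCast, Int.cast_eq_zero]; exact hD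
  have hs : fK (f.scaleRoots D) = (fK f).scaleRoots D' := by
    rw [fK, Polynomial.map_scaleRoots]
    rw [hf.leadingCoeff, map_one]; exact one_ne_zero
  suffices key : ∀ h' : ℚ[X], h' = (fK f).scaleRoots D' → ∀ z : (AdjoinRoot h')ˣ,
      IsSquare (Algebra.norm ℚ (z : AdjoinRoot h')) → (∀ (p : ℕ) [Fact p.Prime],
        Units.map (baseChange (algebraMap ℚ ℚ_[p]) h' : AdjoinRoot h' →* _) z ∈
          descentGroup (h'.map (algebraMap ℚ ℚ_[p]))) → IsSquare z from key _ hs
  rintro h' rfl z hz1 hz2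
  have hfm : (fK f).Monic := hf.map _
  have hfd : (fK f).natDegree = 2 * g + 1 := by rw [hf.natDegree_map, hdeg]
  obtain ⟨φ, hφ, -⟩ := h ℚ (fK f) D' hD0
  set Φ : (AdjoinRoot ((fK f).scaleRoots D'))ˣ →* (LL f)ˣ :=
    Units.map ((φ : AdjoinRoot ((fK f).scaleRoots D') →+* LL f) :
      AdjoinRoot ((fK f).scaleRoots D') →* LL f) with hΦ
  have h1 : IsSquare (Φ z) := by
    refine H _ ?_ fun p _ => ?_
    · have h2 : Algebra.norm ℚ (φ (z : AdjoinRoot ((fK f).scaleRoots D'))) =
          Algebra.norm ℚ (z : AdjoinRoot ((fK f).scaleRoots D')) :=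
        Algebra.norm_eq_of_algEquiv φ _
      have h3 : ((Φ z : (LL f)ˣ) : LL f) = φ (z : AdjoinRoot ((fK f).scaleRoots D')) := rfl
      rw [h3, h2]
      exact hz1
    · set j : ℚ →+* ℚ_[p] := algebraMap ℚ ℚ_[p] with hj
      have hjD : j D' ≠ 0 := by rw [Ne, map_eq_zero]; exact hD0
      have hsv : ((fK f).scaleRoots D').map j = ((fK f).map j).scaleRoots (j D') := by
        rw [Polynomial.map_scaleRoots]
        rw [hfm.leadingCoeff, map_one]; exact one_ne_zero
      have hv' := h ℚ_[p] ((fK f).map j) (j D') hjD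
      rw [← hsv] at hv'
      obtain ⟨ψ, hψ, hψ'⟩ := hv'
      have h4 := group_Trans ((fK f).map j) (j D') (((fK f).scaleRoots D').map j) ψ
        (fun z hz => hψ' g (hfm.map j) (by rw [hfm.natDegree_map, hfd]) z hz) _ (hz2 p)
      have h5 : Units.map ((ψ : AdjoinRoot (((fK f).scaleRoots D').map j) →+*
            AdjoinRoot ((fK f).map j)) : AdjoinRoot (((fK f).scaleRoots D').map j) →*
            AdjoinRoot ((fK f).map j))
          (Units.map (baseChange j ((fK f).scaleRoots D') :
            AdjoinRoot ((fK f).scaleRoots D') →* _) z) =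
          Units.map (baseChange j (fK f) : LL f →* _) (Φ z) := by
        refine Units.ext ?_
        exact comm_Trans j (fK f) ((fK f).scaleRoots D') D' φ hφ ψ hψ z
      show Units.map (baseChange j (fK f) : LL f →* _) (Φ z) ∈ twGroup ((fK f).map j) (j D')
      rw [← h5]
      exact h4
  obtain ⟨u, hu⟩ := h1
  refine ⟨Units.map ((φ.symm : LL f →+* AdjoinRoot ((fK f).scaleRoots D')) :
      LL f →* AdjoinRoot ((fK f).scaleRoots D')) u, ?_⟩
  rw [← map_mul, ← hu]
  refine Units.ext ?_
  exact (φ.symm_apply_apply (z : AdjoinRoot ((fK f).scaleRoots D'))).symm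

end Pool.Agent.Helper54.HQ
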