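import Pool.Agent.Helper54.HQ.StI
import Pool.Agent.Helper54.HQ.Base
import Pool.Agent.Helper3.HY.Tw

/-!
# HQ: Tw, the twist with trivial Selmer group
-/

set_option autoImplicit false

namespace Pool.Agent.Helper54.HQ

open Polynomial Finset Filter Topology Matrix IsDedekindDomain
open Pool.Agent.Helper3.HY (co tau Ix nu TType IType baseChange descentGroup IsPointValue IsTwPoint
  twGroup coord_lemma)
open Pool.Agent.Helper54.HL (tk IrrInt IrrBig Nr Rep RepA RepB pr pr_mk IsTwIrr LinePt RootLift)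

private lemma prm_eq_Tw {P Q : Prm} (h : pz P ∣ pz Q) : P = Q := by
  have h1 : (P : ℕ) ∣ (Q : ℕ) := by exact_mod_cast h
  exact Subtype.ext ((Nat.prime_dvd_prime_iff_eq P.2 Q.2).1 h1)

open Classical in
theorem hTw (h1 : StTrans) (h2 : StOver) (h3 : StQ) (_h4 : StHom) (h5 : StQ3) (h6 : StI1)
    (h7 : StEven) (h8 : StLine) (h9 : StIso) (h10 : StTwo) : StTw := by
  intro g H hg hH T hT8 f hf _ _ _ htriv
  obtain ⟨hreg, hdvd5, hirr2, hT, hp⟩ := hf
  have hm : f.Monic := hreg.1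
  have hdeg : f.natDegree = 2 * g + 1 := hreg.2.1
  have hT2 : ∀ P ∈ T, (P : ℕ) ≠ 2 := by
    intro P hP h
    have := hT8 P hP
    rw [h] at this
    omega
  have hqex : ∀ P : Prm, ∃ q : HeightOneSpectrum (RR f), P ∈ T → IsQ g P q := by
    intro P
    by_cases hP : P ∈ T
    · obtain ⟨q, hq⟩ := h3 g hg f hm P (hT P hP)
      exact ⟨q, fun _ => hq⟩
    · exact ⟨(h2 f hm).1.some, fun h => absurd h hP⟩
  choose q hq using hqex
  have hηex : ∀ P : Prm, ∃ η : ZMod 2, P ∈ T → ∀ D : ℤ, ¬ pz P ∣ D →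
      ∀ z : (LL f)ˣ, TwAt f (pz P * D) (P : ℕ) z →
      (om (q P) (z : LL f) = 0 ∧ ep P (q P) (z : LL f) = 0) ∨
        (om (q P) (z : LL f) = 1 ∧ ep P (q P) (z : LL f) = η) := by
    intro P
    by_cases hP : P ∈ T
    · obtain ⟨η, hη⟩ := h8 g hg f hm hdeg P (hT2 P hP) (hT P hP) (q P) (hq P hP)
      exact ⟨η, fun _ => hη⟩
    · exact ⟨0, fun h => absurd h hP⟩
  choose η hη using hηex
  let X : Set (T → ZMod 2 × ZMod 2) := {x | ∃ z : (LL f)ˣ,
    IsSquare (Algebra.norm ℚ (z : LL f)) ∧ (∀ v, (∀ P ∈ T, v ≠ q P) → EvenAt v (z : LL f)) ∧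
    At2 z ∧ ∀ P : T, x P = (om (q P) (z : LL f), ep P.1 (q P) (z : LL f))}
  have hXiso : ∀ x ∈ X, ∀ y ∈ X, ∑ i, ((x i).1 * (y i).2 + (y i).1 * (x i).2) = 0 := by
    rintro x ⟨z, hzN, hze, hz2, hzx⟩ y ⟨w, hwN, hwe, hw2, hwy⟩
    have := h9 g H hg hH f hreg T (fun P hP => ⟨hT2 P hP, hT P hP⟩) q hq z w hzN hwN hze hwe hz2
      hw2
    rw [← this, ← sum_coe_sort T]
    exact sum_congr rfl fun P _ => by rw [hzx P, hwy P]
  obtain ⟨R₀, hR₀⟩ := coord_lemma X hXiso fun P => η P.1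
  set R : Finset Prm := R₀.map (Function.Embedding.subtype _) with hR
  have hRT : R ⊆ T := by
    intro P hP
    obtain ⟨Q, -, rfl⟩ := Finset.mem_map.1 hP
    exact Q.2
  have hmemR : ∀ P : T, P.1 ∈ R ↔ P ∈ R₀ := by
    intro P
    rw [hR, Finset.mem_map]
    constructor
    · rintro ⟨Q, hQ1, hQ2⟩
      have : Q = P := Subtype.ext hQ2
      rwa [← this]
    · intro h; exact ⟨P, h, rfl⟩
  refine ⟨R, hRT, ?_⟩
  set D : ℤ := ∏ P ∈ R, pz P with hD
  have hD0 : D ≠ 0 := prod_ne_zero_iff.2 fun P _ => pz_ne_zero P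
  have hD8 : D % 8 = 1 := by
    have key : ∀ S : Finset Prm, S ⊆ T → (∏ P ∈ S, pz P) % 8 = 1 := by
      intro S
      induction S using Finset.induction_on with
      | empty => intro _; simp
      | insert a s ha ih =>
        intro hs
        rw [prod_insert ha, Int.mul_emod, ih fun P hP => hs (mem_insert_of_mem hP)]
        have h3 : pz a % 8 = 1 := by
          have := hT8 a (hs (mem_insert_self a s))
          have h4 : (((a : ℕ) % 8 : ℕ) : ℤ) = 1 := by rw [this]; rfl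
          push_cast at h4
          exact h4
        rw [h3]
        norm_num
    exact key R hRT
  refine h1 g f D hm hdeg hD0 fun z hzN hzv => ?_
  have hz0 : (z : LL f) ≠ 0 := z.ne_zero
  have hz2 : At2 z := h10 f D hm hD8 z (hzv 2)
  -- divisibility of D
  have hnd : ∀ P : Prm, P ∉ R → ¬ pz P ∣ D := by
    intro P hP h
    obtain ⟨Q, hQ1, hQ2⟩ := (pz_prime P).exists_mem_finset_dvd h
    exact hP (prm_eq_Tw hQ2 ▸ hQ1)
  have hsplit : ∀ P ∈ R, ∃ D' : ℤ, D = pz P * D' ∧ ¬ pz P ∣ D' := by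
    intro P hP
    refine ⟨∏ Q ∈ R.erase P, pz Q, ?_, ?_⟩
    · rw [hD, mul_prod_erase R (fun Q => pz Q) hP]
    · intro h
      obtain ⟨Q, hQ1, hQ2⟩ := (pz_prime P).exists_mem_finset_dvd h
      exact (mem_erase.1 hQ1).1 (prm_eq_Tw hQ2).symm
  -- evenness away from the q P
  have heven : ∀ v, (∀ P ∈ T, v ≠ q P) → EvenAt v (z : LL f) := by
    intro v hv
    obtain ⟨P, hP⟩ := (h2 f hm).2 v
    by_cases h1 : P ∈ T
    · exact (h5 g hg f hm P (hT2 P h1) (hT P h1) (q P) (hq P h1) z hz0 hzN).1 v hP (hv P h1)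
    by_cases h3 : (P : ℕ) = 2
    · obtain rfl : P = ⟨2, Nat.prime_two⟩ := Subtype.ext h3
      refine h6 g hg f hm ⟨2, Nat.prime_two⟩ ⟨hm.map _, hirr2, ?_⟩ z hz0 hzN v hP
      rw [hm.natDegree_map, hdeg]
    · exact h7 g hg f hm hdeg P D h3 (hnd P fun h => h1 (hRT h)) z (hzv P) v hP
  have hx0 := hR₀ (fun P => (om (q P) (z : LL f), ep P.1 (q P) (z : LL f)))
    ⟨z, hzN, heven, hz2, fun P => rfl⟩
    (by
      intro P hP
      have := h7 g hg f hm hdeg P.1 D (hT2 P P.2) (hnd P.1 (fun h => hP ((hmemR P).1 h))) z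
        (hzv P.1) (q P) (hq P P.2).1
      simp only [om, if_pos this])
    (by
      intro P hP
      obtain ⟨D', hD', hD''⟩ := hsplit P.1 ((hmemR P).2 hP)
      have hz' := hzv (P.1 : ℕ)
      rw [hD'] at hz'
      rcases hη P P.2 D' hD'' z hz' with h | h
      · left; exact Prod.ext h.1 h.2
      · right; exact Prod.ext h.1 h.2)
  have hx0' : ∀ P (hP : P ∈ T), om (q P) (z : LL f) = 0 ∧ ep P (q P) (z : LL f) = 0 := by
    intro P hP
    have := congrFun hx0 ⟨P, hP⟩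
    exact ⟨congrArg Prod.fst this, congrArg Prod.snd this⟩
  have hsq : IsSquare (z : LL f) := by
    refine htriv z hz0 hzN (fun v => ?_) (fun P hP => ?_)
    · by_cases h : ∀ P ∈ T, v ≠ q P
      · exact heven v h
      · push Not at h
        obtain ⟨P, hP, rfl⟩ := h
        by_contra hne
        have := (hx0' P hP).1
        rw [om, if_neg hne] at this
        exact one_ne_zero this
    · exact (h5 g hg f hm P (hT2 P hP) (hT P hP) (q P) (hq P hP) z hz0 hzN).2 (hx0' P hP).1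
        (hx0' P hP).2
  obtain ⟨y, hy⟩ := hsq
  have hy0 : y ≠ 0 := by rintro rfl; exact hz0 (by rw [hy, mul_zero])
  exact ⟨Units.mk0 y hy0, Units.ext (by rw [Units.val_mul, Units.val_mk0]; exact hy)⟩

end Pool.Agent.Helper54.HQ
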