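import Pool.Agent.Helper54.HQ.StI

/-!
# HQ module Two: the twist at 2
-/

set_option autoImplicit false

namespace Pool.Agent.Helper54.HQ

open Polynomial Finset IsDedekindDomain
open Pool.Agent.Helper3.HY (co tau Ix nu TType IType baseChange descentGroup IsPointValue IsTwPoint
  twGroup)

theorem exists_sqrt_Two (D : ℤ) (hD : D % 8 = 1) : ∃ s : ℚ_[2], s ≠ 0 ∧ s ^ 2 = (D : ℚ_[2]) := by
  have hD0 : D ≠ 0 := by rintro rfl; norm_num at hD
  obtain ⟨k, hk⟩ : (8 : ℤ) ∣ 1 - D := by omega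
  have h2 : ‖(2 : ℤ_[2])‖ = 1 / 2 := by
    have := PadicInt.norm_p (p := 2)
    simpa using this
  obtain ⟨z, hz, -⟩ := hensels_lemma (p := 2) (F := (X ^ 2 - C (D : ℤ_[2]) : ℤ_[2][X]))
    (a := (1 : ℤ_[2])) (by
      have e1 : aeval (1 : ℤ_[2]) (X ^ 2 - C (D : ℤ_[2]) : ℤ_[2][X]) = 2 * 2 * 2 * (k : ℤ_[2]) := by
        simp only [map_sub, map_pow, aeval_X, aeval_C]
        have : ((1 - D : ℤ) : ℤ_[2]) = ((8 * k : ℤ) : ℤ_[2]) := by rw [hk]
        push_cast at this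
        rw [one_pow, show algebraMap ℤ_[2] ℤ_[2] (D : ℤ_[2]) = (D : ℤ_[2]) from rfl, this]
        norm_num
      have e2 : aeval (1 : ℤ_[2]) (derivative (X ^ 2 - C (D : ℤ_[2]) : ℤ_[2][X])) = 2 := by
        simp
        norm_num
      rw [e1, e2, norm_mul, norm_mul, norm_mul, h2]
      have := PadicInt.norm_le_one (k : ℤ_[2])
      nlinarith)
  have hz' : z ^ 2 = (D : ℤ_[2]) := by
    simp only [map_sub, map_pow, aeval_X, aeval_C] at hz
    exact sub_eq_zero.1 hz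
  have h3 : (z : ℚ_[2]) ^ 2 = (D : ℚ_[2]) := by
    have := congrArg (fun t : ℤ_[2] => (t : ℚ_[2])) hz'
    simpa using this
  refine ⟨z, ?_, h3⟩
  intro h0
  rw [h0] at h3
  have : (D : ℚ_[2]) ≠ 0 := by exact_mod_cast hD0
  exact this (by rw [← h3]; norm_num)

theorem twGroup_le_Two {k : Type} [Field k] (h : k[X]) (D s : k) (hs : s ≠ 0) (hD : s ^ 2 = D) :
    twGroup h D ≤ descentGroup h := by
  have hD0 : D ≠ 0 := by rw [← hD]; exact pow_ne_zero _ hs
  unfold twGroup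
  rw [Subgroup.closure_le]
  rintro z (hz | hz)
  · obtain ⟨U, V, hU, hc, hd, hz⟩ := hz
    set m := U.natDegree with hm
    let w : (AdjoinRoot h)ˣ := Units.map (AdjoinRoot.of h : k →* AdjoinRoot h)
      (Units.mk0 (s ^ m) (pow_ne_zero _ hs))
    have hw : (w : AdjoinRoot h) = AdjoinRoot.of h (s ^ m) := rfl
    have hw' : ((w⁻¹ : (AdjoinRoot h)ˣ) : AdjoinRoot h) = AdjoinRoot.of h ((s ^ m)⁻¹) := by
      rw [Units.inv_eq_of_mul_eq_one_right]
      rw [hw, ← map_mul, mul_inv_cancel₀ (pow_ne_zero _ hs), map_one]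
    have e : z = (z * (w⁻¹) ^ 2) * w ^ 2 := by
      rw [mul_assoc, ← mul_pow, inv_mul_cancel, one_pow, mul_one]
    rw [SetLike.mem_coe, e]
    refine mul_mem (Subgroup.subset_closure (Or.inl ?_)) (Subgroup.subset_closure (Or.inr ⟨w, rfl⟩))
    refine ⟨U, C s⁻¹ * V, hU, hc, ?_, ?_⟩
    · have : h - (C s⁻¹ * V) ^ 2 = C D⁻¹ * (C D * h - V ^ 2) := by
        rw [mul_sub, ← mul_assoc, ← C_mul, inv_mul_cancel₀ hD0, C_1, one_mul, mul_pow, ← C_pow,
          inv_pow, hD]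
      rw [this]
      exact hd.mul_left _
    · rw [Units.val_mul, Units.val_pow_eq_pow_val, hw', hz, ← hm, ← AdjoinRoot.mk_C,
        ← map_pow (AdjoinRoot.mk h), ← map_mul (AdjoinRoot.mk h)]
      congr 1
      rw [← C_pow, ← C_pow]
      have e3 : (-D) ^ m * ((s ^ m)⁻¹ ^ 2) = (-1) ^ m := by
        rw [neg_pow, ← hD, mul_assoc, ← inv_pow, ← pow_mul, ← pow_mul, mul_comm m 2,
          ← mul_pow, mul_inv_cancel₀ hs, one_pow, mul_one]
      calc C ((-D) ^ m) * U * C ((s ^ m)⁻¹ ^ 2) = C ((-D) ^ m * ((s ^ m)⁻¹ ^ 2)) * U := by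
            rw [C_mul]; ring
        _ = (-1) ^ m * U := by rw [e3, C_pow, C_neg, C_1]
  · exact Subgroup.subset_closure (Or.inr hz)

theorem hTwo : StTwo := by
  intro f D _ hD z hz
  obtain ⟨s, hs, hsD⟩ := exists_sqrt_Two D hD
  unfold TwAt at hz
  unfold At2
  refine twGroup_le_Two _ _ s hs ?_ hz
  rw [hsD, eq_intCast, map_intCast]

end Pool.Agent.Helper54.HQ
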