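import Pool.Agent.Helper54.HQ.Base
import Pool.Agent.Helper54.HL.St

/-!
# HQ, module UQ: a prime over `P` is determined by an irreducible factor of `f` modulo `P`
-/

set_option autoImplicit false

namespace Pool.Agent.Helper54.HQ

open Polynomial IsDedekindDomain
open Pool.Agent.Helper3.HY (co tau Ix nu TType IType baseChange descentGroup IsPointValue IsTwPoint
  twGroup co_mk sum_co ext_co co_eq_zero)
open Pool.Agent.Helper54.HL (tk IrrInt IrrBig Nr Rep RepA RepB pr pr_mk IsTwIrr LinePt RootLift)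

theorem lift_UQ (P : Prm) {a b : ℤ[X]}
    (h : a.map (red P) = b.map (red P)) : ∃ c, a = b + C (pz P) * c := by
  have h1 : C (pz P) ∣ a - b := by
    rw [Polynomial.C_dvd_iff_dvd_coeff]
    intro i
    have h2 := congrArg (fun r => r.coeff i) h
    simp only [coeff_map] at h2
    rw [coeff_sub]
    rw [← red_eq_zero (P := P), map_sub, sub_eq_zero]
    exact h2
  obtain ⟨c, hc⟩ := h1
  exact ⟨c, by rw [← hc]; ring⟩

theorem surj_UQ (P : Prm) (r : (kp P)[X]) :
    ∃ s : ℤ[X], s.map (red P) = r :=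
  Polynomial.map_surjective (red P) (red_surj P) r

theorem over_UQ {f : ℤ[X]} [IsDedekindDomain (RR f)] {P : Prm}
    {q : HeightOneSpectrum (RR f)} (hq : Over P q) (c : ℤ[X]) :
    AdjoinRoot.mk f (C (pz P) * c) ∈ q.asIdeal := by
  rw [map_mul]
  exact Ideal.mul_mem_right _ _ hq

theorem mem_congr_UQ {f : ℤ[X]} [IsDedekindDomain (RR f)] {P : Prm}
    {q : HeightOneSpectrum (RR f)} (hq : Over P q) {a b : ℤ[X]}
    (h : a.map (red P) = b.map (red P)) (hb : AdjoinRoot.mk f b ∈ q.asIdeal) :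
    AdjoinRoot.mk f a ∈ q.asIdeal := by
  obtain ⟨c, rfl⟩ := lift_UQ P h
  rw [map_add]
  exact Ideal.add_mem _ hb (over_UQ hq c)

theorem hUQ : StUQ := by
  intro f hf _ _ _ P q q' hq hq' p p' hirr hpp' hp hp'
  have hp2 : AdjoinRoot.mk f p ∈ q'.asIdeal := mem_congr_UQ hq' hpp'.symm hp'
  have hle : q.asIdeal ≤ q'.asIdeal := by
    intro x hx
    obtain ⟨r, rfl⟩ := AdjoinRoot.mk_surjective x
    rcases hirr.isCoprime_or_dvd (r.map (red P)) with ⟨u, w, huw⟩ | ⟨c, hc⟩
    · exfalso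
      obtain ⟨u₀, rfl⟩ := surj_UQ P u
      obtain ⟨w₀, rfl⟩ := surj_UQ P w
      have h1 : (1 : ℤ[X]).map (red P) = (u₀ * p + w₀ * r).map (red P) := by
        rw [Polynomial.map_one, Polynomial.map_add, Polynomial.map_mul, Polynomial.map_mul, huw]
      have h2 : AdjoinRoot.mk f (1 : ℤ[X]) ∈ q.asIdeal := by
        refine mem_congr_UQ hq h1 ?_
        rw [map_add, map_mul, map_mul]
        exact Ideal.add_mem _ (Ideal.mul_mem_left _ _ hp) (Ideal.mul_mem_left _ _ hx)
      rw [map_one] at h2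
      exact q.isPrime.ne_top ((Ideal.eq_top_iff_one _).2 h2)
    · obtain ⟨c₀, rfl⟩ := surj_UQ P c
      refine mem_congr_UQ hq' (b := p * c₀) ?_ ?_
      · rw [hc, Polynomial.map_mul]
      · rw [map_mul]
        exact Ideal.mul_mem_right _ _ hp2
  exact HeightOneSpectrum.ext (q.isMaximal.eq_of_le q'.isPrime.ne_top hle)

end Pool.Agent.Helper54.HQ
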