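import Pool.Agent.Helper54.HQ.StU
import Pool.Agent.Helper3.HY.BaseU

/-!
# HQ: module Ua (many unipotent matrices)
-/

set_option autoImplicit false

namespace Pool.Agent.Helper54.HQ

open Finset Matrix
open Pool.Agent.Helper3.HY (Ix nu)

namespace MUa

/-- Pairs `i < j`. -/
abbrev PP (g : ℕ) : Type := {p : Ix g × Ix g // p.1 < p.2}

/-- The exponent at a pair. -/
def ex (g : ℕ) (m : Fin g → ℕ) (p : Ix g × Ix g) : ℕ := (nu g m p.2 - nu g m p.1).toNat

/-- The parameters. -/
abbrev Par (g : ℕ) (m : Fin g → ℕ) : Type := ∀ p : PP g, Fin (2 ^ ex g m p.1)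

/-- The matrix. -/
def mat {g : ℕ} {m : Fin g → ℕ} (x : Par g m) : Matrix (Ix g) (Ix g) ℤ :=
  fun i j => if h : i < j then ((x ⟨(i, j), h⟩ : ℕ) : ℤ) else if i = j then 1 else 0

lemma mat_inj {g : ℕ} {m : Fin g → ℕ} : Function.Injective (mat (g := g) (m := m)) := by
  intro x y h
  funext p
  obtain ⟨⟨i, j⟩, hp⟩ := p
  have h1 := congrFun (congrFun h i) j
  have hp' : i < j := hp
  simp only [mat, dif_pos hp'] at h1
  exact Fin.ext (by exact_mod_cast h1)

lemma mat_mem {g : ℕ} {m : Fin g → ℕ} (hm : Antitone m) (x : Par g m) : mat x ∈ Uni g m := by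
  refine ⟨fun i => ?_, fun i j hij => ?_⟩
  · simp [mat]
  · by_cases h : i < j
    · right
      refine ⟨h, ?_⟩
      simp only [mat, dif_pos h]
      have h1 : nu g m i ≤ nu g m j := Pool.Agent.Helper3.HY.nu_mono hm h.le
      have h2 : ((ex g m (i, j) : ℕ) : ℤ) = nu g m j - nu g m i := by
        simp only [ex]
        exact Int.toNat_of_nonneg (by linarith)
      rw [← h2, zpow_natCast]
      have h3 : (x ⟨(i, j), h⟩ : ℕ) < 2 ^ ex g m (i, j) := (x ⟨(i, j), h⟩).2
      have h4 : ((x ⟨(i, j), h⟩ : ℕ) : ℝ) ≤ 2 ^ ex g m (i, j) := by exact_mod_cast h3.le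
      rw [Int.cast_natCast, abs_of_nonneg (Nat.cast_nonneg _)]
      exact h4
    · left
      simp [mat, h, hij]

end MUa

open MUa in
theorem hUa : StUa := by
  classical
  intro g m hm
  refine ⟨Finset.univ.image (mat (g := g) (m := m)), ?_, ?_⟩
  · intro u hu
    obtain ⟨x, -, rfl⟩ := Finset.mem_image.1 hu
    exact mat_mem hm x
  · rw [Finset.card_image_of_injective _ mat_inj, Finset.card_univ, Fintype.card_pi]
    simp only [Fintype.card_fin]
    rw [Finset.prod_pow_eq_pow_sum]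
    refine le_of_eq ?_
    congr 1
    rw [ups, ← Finset.sum_filter]
    rw [Finset.sum_subtype (Finset.univ.filter fun p : Ix g × Ix g => p.1 < p.2)
      (p := fun p => p.1 < p.2) (by simp)]
    rfl

end Pool.Agent.Helper54.HQ
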