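import Pool.Agent.Helper54.HQ.StU
import Pool.Agent.Helper3.HY.M_Ub

/-!
# HQ, module Ub: exponents
-/

set_option autoImplicit false

namespace Pool.Agent.Helper54.HQ

open Polynomial Finset Filter Topology Matrix IsDedekindDomain
open Pool.Agent.Helper3.HY (co tau Ix nu TType IType rho2 exc Adm Gm)
open Pool.Agent.Helper3

theorem sum_Ub {g : ℕ} (m : Fin g → ℕ) (c : ℕ → ℤ) (hc : ∀ n, n < g → c n = 0) :
    (∑ j : Ix g, c j.1 * nu g m j) = ∑ i : Fin g, c (2 * g - i.1) * (m i : ℤ) := by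
  set H : ℕ → ℤ := fun n => if h : n < g then c (2 * g - n) * (m ⟨n, h⟩ : ℤ) else 0 with hH
  have h1 : (∑ j : Ix g, c j.1 * nu g m j) = ∑ j : Ix g, H j.1 := by
    rw [← Equiv.sum_comp Fin.revPerm]
    refine sum_congr rfl fun j _ => ?_
    rw [Fin.revPerm_apply, HY.Ub.nu_rev, Fin.val_rev]
    have hj := j.2
    have e1 : 2 * g + 1 - (j.1 + 1) = 2 * g - j.1 := by omega
    rw [e1]
    simp only [hH]
    by_cases h : j.1 < g
    · rw [dif_pos h]
      unfold nu
      rw [dif_pos h, neg_neg]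
    · rw [dif_neg h]
      by_cases h2 : j.1 = g
      · unfold nu
        rw [dif_neg h, dif_neg (by omega), neg_zero, mul_zero]
      · rw [hc _ (by omega), zero_mul]
  have h2 : (∑ i : Fin g, c (2 * g - i.1) * (m i : ℤ)) = ∑ i : Fin g, H i.1 := by
    refine sum_congr rfl fun i _ => ?_
    simp only [hH]
    rw [dif_pos i.2]
  rw [h1, h2, Fin.sum_univ_eq_sum_range (fun n => H n) (2 * g + 1),
    Fin.sum_univ_eq_sum_range (fun n => H n) g]
  refine (sum_subset ?_ ?_).symm
  · intro x hx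
    rw [mem_range] at hx ⊢
    omega
  · intro x _ hx
    rw [mem_range] at hx
    simp only [hH]
    rw [dif_neg hx]

theorem ups_Ub {g : ℕ} {m : Fin g → ℕ} (hm : Antitone m) :
    ((ups g m : ℕ) : ℤ) = ∑ j : Ix g, ((j.1 : ℤ) * 2 - 2 * g) * nu g m j := by
  have h1 : ((ups g m : ℕ) : ℤ) =
      ∑ j : Ix g, ∑ i : Ix g, ((if i < j then nu g m j else 0) - (if i < j then nu g m i else 0)) := by
    unfold ups
    rw [Nat.cast_sum, Fintype.sum_prod_type_right]
    refine sum_congr rfl fun j _ => sum_congr rfl fun i _ => ?_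
    simp only
    by_cases h : i < j
    · rw [if_pos h, if_pos h, if_pos h, Int.toNat_of_nonneg]
      have := HY.Ub.nu_mono hm h.le
      linarith
    · rw [if_neg h, if_neg h, if_neg h]
      rfl
  have h2 : (∑ j : Ix g, ∑ i : Ix g, (if i < j then nu g m j else 0)) =
      ∑ j : Ix g, (j.1 : ℤ) * nu g m j := by
    refine sum_congr rfl fun j _ => ?_
    rw [← sum_filter, sum_const, nsmul_eq_mul]
    congr 2
    have : (univ.filter fun i : Ix g => i < j) = Iio j := by
      ext i
      simp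
    rw [this, Fin.card_Iio]
  have h3 : (∑ j : Ix g, ∑ i : Ix g, (if i < j then nu g m i else 0)) =
      ∑ i : Ix g, (2 * (g : ℤ) - i.1) * nu g m i := by
    rw [sum_comm]
    refine sum_congr rfl fun i _ => ?_
    rw [← sum_filter, sum_const, nsmul_eq_mul]
    congr 1
    have : (univ.filter fun j : Ix g => i < j) = Ioi i := by
      ext i
      simp
    rw [this, Fin.card_Ioi]
    have hi := i.2
    push_cast
    omega
  rw [h1]
  simp only [sum_sub_distrib]
  rw [h2, h3, ← sum_sub_distrib]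
  exact sum_congr rfl fun i _ => by ring

theorem hUb : StUb := by
  intro g m hm
  have h1 := ups_Ub hm
  -- ups
  have h2 : (∑ j : Ix g, ((j.1 : ℤ) * 2 - 2 * g) * nu g m j) =
      2 * ∑ j : Ix g, ((2 * (j.1 - g) : ℕ) : ℤ) * nu g m j := by
    have e1 : (∑ j : Ix g, ((2 * (g - j.1) : ℕ) : ℤ) * nu g m j) =
        -∑ j : Ix g, ((2 * (j.1 - g) : ℕ) : ℤ) * nu g m j := by
      rw [← Equiv.sum_comp Fin.revPerm, ← sum_neg_distrib]
      refine sum_congr rfl fun j _ => ?_
      rw [Fin.revPerm_apply, HY.Ub.nu_rev, Fin.val_rev, mul_neg]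
      congr 3
      have hj := j.2
      omega
    have e2 : (∑ j : Ix g, ((j.1 : ℤ) * 2 - 2 * g) * nu g m j) =
        (∑ j : Ix g, ((2 * (j.1 - g) : ℕ) : ℤ) * nu g m j) -
          ∑ j : Ix g, ((2 * (g - j.1) : ℕ) : ℤ) * nu g m j := by
      rw [← sum_sub_distrib]
      refine sum_congr rfl fun j _ => ?_
      rw [← sub_mul]
      congr 1
      omega
    rw [e2, e1]
    ring
  rw [h2, sum_Ub m (fun n => ((2 * (n - g) : ℕ) : ℤ)) (fun n hn => by
    have : n - g = 0 := by omega
    rw [this]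
    rfl)] at h1
  -- sB
  have h3 : ((sB g m : ℕ) : ℤ) = (rho2 g m : ℕ) + ∑ i : Ix g, ((2 * nu g m i).toNat : ℤ) := by
    have e1 : sB g m = (∑ p : Ix g × Ix g, if p.1 < p.2 then (nu g m p.1 + nu g m p.2).toNat else 0) +
        ∑ p : Ix g × Ix g, if p.1 = p.2 then (nu g m p.1 + nu g m p.2).toNat else 0 := by
      unfold sB
      rw [← sum_add_distrib]
      refine sum_congr rfl fun p _ => ?_
      rcases lt_trichotomy p.1 p.2 with h | h | h
      · rw [if_pos h.le, if_pos h, if_neg h.ne, add_zero]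
      · rw [if_pos h.le, if_neg (by rw [h]; exact lt_irrefl _), if_pos h, zero_add]
      · rw [if_neg (not_le.2 h), if_neg (not_lt.2 h.le), if_neg h.ne']
    rw [e1, ← HY.hUb g m hm]
    push_cast
    congr 1
    rw [Fintype.sum_prod_type]
    refine sum_congr rfl fun i _ => ?_
    simp only
    rw [Finset.sum_ite_eq]
    simp only [mem_univ, if_true]
    rw [two_mul]
  have h4 : (∑ i : Ix g, ((2 * nu g m i).toNat : ℤ)) =
      ∑ i : Ix g, (if g < i.1 then (2 : ℤ) else 0) * nu g m i := by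
    refine sum_congr rfl fun i _ => ?_
    have hi := i.2
    unfold nu
    rcases lt_trichotomy i.1 g with h | h | h
    · rw [dif_pos h, if_neg (by omega), zero_mul, Int.toNat_of_nonpos]
      · rfl
      · have : (0 : ℤ) ≤ (m ⟨i.1, h⟩ : ℤ) := by positivity
        linarith
    · rw [dif_neg (by omega), dif_neg (by omega), if_neg (by omega)]
      rfl
    · rw [dif_neg (by omega), dif_pos h, if_pos h, Int.toNat_of_nonneg (by positivity)]
  rw [h4, sum_Ub m (fun n => if g < n then (2 : ℤ) else 0) (fun n hn => by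
    rw [if_neg (by omega)])] at h3
  have h5 : ((rho2 g m : ℕ) : ℤ) =
      ∑ i : Fin g, ((2 * g - 1 - 2 * (i : ℕ) : ℕ) : ℤ) * (m i : ℤ) := by
    unfold rho2
    rw [Nat.cast_sum]
    exact sum_congr rfl fun i _ => by rw [Nat.cast_mul]
  have h6 : ((ups g m : ℕ) : ℤ) = ((sB g m + rho2 g m : ℕ) : ℤ) := by
    rw [Nat.cast_add, h1, h3, h5, mul_sum, ← sum_add_distrib, ← sum_add_distrib]
    refine sum_congr rfl fun i _ => ?_
    have hi := i.2
    rw [if_pos (by omega), ← add_mul, ← add_mul, ← mul_assoc]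
    congr 1
    have a1 : 2 * g - i.1 - g = g - i.1 := by omega
    rw [a1]
    push_cast
    omega
  exact_mod_cast h6

end Pool.Agent.Helper54.HQ
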