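import Pool.Agent.Helper54.HQ.StU

/-!
# HQ module Ud (stability under the unipotent matrices)
-/

set_option autoImplicit false

namespace Pool.Agent.Helper54.HQ

open Polynomial Finset Filter Topology Matrix IsDedekindDomain
open Pool.Agent.Helper3.HY (co tau Ix nu TType IType rho2 exc Adm Gm)

theorem det_Ud {g : ℕ} {m : Fin g → ℕ} {u : Matrix (Ix g) (Ix g) ℤ} (hu : u ∈ Uni g m) :
    u.det = 1 := by
  have h1 : u.BlockTriangular id := by
    intro i j hij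
    change j < i at hij
    rcases hu.2 i j hij.ne' with h | h
    · exact h
    · exact absurd h.1 (not_lt.2 hij.le)
  rw [Matrix.det_of_isUpperTriangular h1]
  exact Finset.prod_eq_one fun i _ => hu.1 i

theorem tri_Ud {g : ℕ} {m : Fin g → ℕ} {u : Matrix (Ix g) (Ix g) ℤ} (hu : u ∈ Uni g m)
    {k i : Ix g} (h : i < k) : u k i = 0 := by
  rcases hu.2 k i h.ne' with h' | h'
  · exact h'
  · exact absurd h'.1 (not_lt.2 h.le)

theorem bound_Ud {g : ℕ} {m : Fin g → ℕ} {u : Matrix (Ix g) (Ix g) ℤ} (hu : u ∈ Uni g m)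
    (k i : Ix g) : |((u k i : ℤ) : ℝ)| ≤ (2 : ℝ) ^ (nu g m i - nu g m k) := by
  by_cases hki : k = i
  · subst hki
    rw [hu.1, sub_self, zpow_zero]
    norm_num
  · rcases hu.2 k i hki with h' | h'
    · rw [h', Int.cast_zero, abs_zero]
      positivity
    · exact h'.2

theorem entry_Ud {R : Type} [CommRing R] {n : ℕ} (u M : Matrix (Fin n) (Fin n) R) (i j : Fin n) :
    (uᵀ * M * u) i j = ∑ k, ∑ l, u k i * M k l * u l j := by
  rw [Matrix.mul_apply]
  simp_rw [Matrix.mul_apply, Matrix.transpose_apply, Finset.sum_mul]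
  exact Finset.sum_comm

theorem conj_bound_Ud {g : ℕ} {m : Fin g → ℕ} {u : Matrix (Ix g) (Ix g) ℤ} (hu : u ∈ Uni g m)
    {M : Matrix (Ix g) (Ix g) ℤ} {c : ℝ} (hc : 0 ≤ c)
    (hM : ∀ i j, |((M i j : ℤ) : ℝ)| ≤ c * (2 : ℝ) ^ (nu g m i + nu g m j)) (i j : Ix g) :
    |(((uᵀ * M * u) i j : ℤ) : ℝ)| ≤ (2 * g + 1) ^ 2 * c * (2 : ℝ) ^ (nu g m i + nu g m j) := by
  rw [entry_Ud]
  push_cast
  have h1 : ∀ k l : Ix g, |((u k i : ℤ) : ℝ) * ((M k l : ℤ) : ℝ) * ((u l j : ℤ) : ℝ)| ≤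
      c * (2 : ℝ) ^ (nu g m i + nu g m j) := by
    intro k l
    rw [abs_mul, abs_mul]
    have h2 : |((u k i : ℤ) : ℝ)| * |((M k l : ℤ) : ℝ)| * |((u l j : ℤ) : ℝ)| ≤
        (2 : ℝ) ^ (nu g m i - nu g m k) * (c * (2 : ℝ) ^ (nu g m k + nu g m l)) *
          (2 : ℝ) ^ (nu g m j - nu g m l) := by
      gcongr
      · exact bound_Ud hu k i
      · exact hM k l
      · exact bound_Ud hu l j
    refine h2.trans (le_of_eq ?_)
    have h3 : (2 : ℝ) ^ (nu g m i + nu g m j) = (2 : ℝ) ^ (nu g m i - nu g m k) *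
        (2 : ℝ) ^ (nu g m k + nu g m l) * (2 : ℝ) ^ (nu g m j - nu g m l) := by
      rw [← zpow_add₀ (by norm_num : (2 : ℝ) ≠ 0), ← zpow_add₀ (by norm_num : (2 : ℝ) ≠ 0)]
      congr 1
      ring
    rw [h3]
    ring
  calc |∑ k, ∑ l, ((u k i : ℤ) : ℝ) * ((M k l : ℤ) : ℝ) * ((u l j : ℤ) : ℝ)|
      ≤ ∑ k : Ix g, |∑ l, ((u k i : ℤ) : ℝ) * ((M k l : ℤ) : ℝ) * ((u l j : ℤ) : ℝ)| :=
        Finset.abs_sum_le_sum_abs _ _
    _ ≤ ∑ k : Ix g, ∑ l : Ix g, c * (2 : ℝ) ^ (nu g m i + nu g m j) :=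
        Finset.sum_le_sum fun k _ => (Finset.abs_sum_le_sum_abs _ _).trans
          (Finset.sum_le_sum fun l _ => h1 k l)
    _ = (2 * g + 1) ^ 2 * c * (2 : ℝ) ^ (nu g m i + nu g m j) := by
        rw [Finset.sum_const, Finset.sum_const, Finset.card_univ, Fintype.card_fin, nsmul_eq_mul,
          nsmul_eq_mul]
        push_cast
        ring

theorem symm_Ud {n : ℕ} {M u : Matrix (Fin n) (Fin n) ℤ} (h : M.IsSymm) :
    (uᵀ * M * u).IsSymm := by
  unfold Matrix.IsSymm at h ⊢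
  rw [Matrix.transpose_mul, Matrix.transpose_mul, Matrix.transpose_transpose, h, Matrix.mul_assoc]

theorem tl_Ud {g : ℕ} {m : Fin g → ℕ} {u : Matrix (Ix g) (Ix g) ℤ} (hu : u ∈ Uni g m)
    {M : Matrix (Ix g) (Ix g) ℤ} (hM : ∀ i j : Ix g, (i : ℕ) < g → (j : ℕ) < g → M i j = 0)
    (i j : Ix g) (hi : (i : ℕ) < g) (hj : (j : ℕ) < g) : (uᵀ * M * u) i j = 0 := by
  rw [entry_Ud]
  refine Finset.sum_eq_zero fun k _ => Finset.sum_eq_zero fun l _ => ?_
  rcases lt_or_ge i k with h | h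
  · rw [tri_Ud hu h, zero_mul, zero_mul]
  rcases lt_or_ge j l with h' | h'
  · rw [tri_Ud hu h', mul_zero]
  · rw [hM k l (lt_of_le_of_lt h hi) (lt_of_le_of_lt h' hj), mul_zero, zero_mul]

theorem loc_Ud {k : Type} [Field k] {g : ℕ} {S : Set k[X]}
    {B A U : Matrix (Ix g) (Ix g) k} (h : (B, A) ∈ LocPair k g S) :
    (Uᵀ * B * U, Uᵀ * A * U) ∈ LocPair k g S := by
  obtain ⟨q, hq, hm, hqd, w, hw, hwb⟩ := h
  refine ⟨q, hq, hm, hqd, fun j => ∑ i, U i j • w i, fun i j => ?_, fun i j => ?_⟩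
  · have h1 : tau hm ((∑ k, U k i • w k) * ∑ l, U l j • w l) =
        ∑ k, ∑ l, U k i * B k l * U l j := by
      rw [sum_mul_sum, map_sum]
      refine sum_congr rfl fun k _ => ?_
      rw [map_sum]
      refine sum_congr rfl fun l _ => ?_
      rw [smul_mul_smul_comm, map_smul, hw, smul_eq_mul]
      ring
    rw [h1]
    exact (entry_Ud U B i j).symm
  · have h1 : tau hm (AdjoinRoot.root q * (∑ k, U k i • w k) * ∑ l, U l j • w l) =
        ∑ k, ∑ l, U k i * A k l * U l j := by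
      rw [mul_assoc, sum_mul_sum, mul_sum, map_sum]
      refine sum_congr rfl fun k _ => ?_
      rw [mul_sum, map_sum]
      refine sum_congr rfl fun l _ => ?_
      rw [smul_mul_smul_comm, mul_smul_comm, ← mul_assoc, map_smul, hwb, smul_eq_mul]
      ring
    rw [h1]
    exact (entry_Ud U A i j).symm

theorem hUd : StUd := by
  intro g C₀ H m hC hH T p u hu
  refine ⟨fun h => ⟨symm_Ud h.symB, symm_Ud h.symA, ?_, fun i j => ?_, fun i j => ?_⟩,
    fun h P hP => ?_, fun h i j hi hj => ⟨?_, ?_⟩, fun f hf => ?_⟩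
  · change IsUnit (uᵀ * p.1 * u).det
    rw [Matrix.det_mul, Matrix.det_mul, Matrix.det_transpose, det_Ud hu, one_mul, mul_one]
    exact h.det
  · exact conj_bound_Ud hu hC h.bB i j
  · have := conj_bound_Ud hu (mul_nonneg hC hH) h.bA i j
    rwa [← mul_assoc] at this
  · have h1 := loc_Ud (U := u.map (red P)) (h P hP)
    have h2 : ∀ M : Matrix (Ix g) (Ix g) ℤ, (uᵀ * M * u).map (red P) =
        (u.map (red P))ᵀ * M.map (red P) * u.map (red P) := by
      intro M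
      rw [Matrix.map_mul, Matrix.map_mul, Matrix.transpose_map]
    have h3 : redP P (act u p) = ((u.map (red P))ᵀ * p.1.map (red P) * u.map (red P),
        (u.map (red P))ᵀ * p.2.map (red P) * u.map (red P)) := by
      unfold redP act
      rw [h2, h2]
    rw [h3]
    exact h1
  · exact tl_Ud hu (fun i j hi hj => (h i j hi hj).1) i j hi hj
  · exact tl_Ud hu (fun i j hi hj => (h i j hi hj).2) i j hi hj
  · unfold IsChi at hf ⊢
    have h1 : (act u p).1.det = p.1.det := by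
      change (uᵀ * p.1 * u).det = _
      rw [Matrix.det_mul, Matrix.det_mul, Matrix.det_transpose, det_Ud hu, one_mul, mul_one]
    have hmap : ∀ M : Matrix (Ix g) (Ix g) ℤ, (uᵀ * M * u).map (C : ℤ → ℤ[X]) =
        (u.map (C : ℤ → ℤ[X]))ᵀ * M.map (C : ℤ → ℤ[X]) * u.map (C : ℤ → ℤ[X]) := by
      intro M
      have e := Matrix.map_mul (L := uᵀ * M) (M := u) (f := (C : ℤ →+* ℤ[X]))
      have e' := Matrix.map_mul (L := uᵀ) (M := M) (f := (C : ℤ →+* ℤ[X]))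
      change (uᵀ * M * u).map (C : ℤ →+* ℤ[X]) = _
      rw [e, e', Matrix.transpose_map]
    have hdu : (u.map (C : ℤ → ℤ[X])).det = 1 := by
      have e := (RingHom.map_det (C : ℤ →+* ℤ[X]) u).symm
      change (u.map (C : ℤ →+* ℤ[X])).det = 1
      rw [show u.map (C : ℤ →+* ℤ[X]) = (C : ℤ →+* ℤ[X]).mapMatrix u from rfl, e, det_Ud hu,
        map_one]
    have h2 : (X : ℤ[X]) • (act u p).1.map (C : ℤ → ℤ[X]) - (act u p).2.map (C : ℤ → ℤ[X]) =
        (u.map (C : ℤ → ℤ[X]))ᵀ * ((X : ℤ[X]) • p.1.map (C : ℤ → ℤ[X]) -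
          p.2.map (C : ℤ → ℤ[X])) * u.map (C : ℤ → ℤ[X]) := by
      change (X : ℤ[X]) • (uᵀ * p.1 * u).map (C : ℤ → ℤ[X]) - (uᵀ * p.2 * u).map (C : ℤ → ℤ[X]) = _
      rw [hmap, hmap, Matrix.mul_sub, Matrix.sub_mul, Matrix.mul_smul, Matrix.smul_mul]
    rw [h1, h2, Matrix.det_mul, Matrix.det_mul, Matrix.det_transpose, hdu, one_mul, mul_one]
    exact hf

end Pool.Agent.Helper54.HQ
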