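import Pool.Agent.Helper54.HQ.StU
import Pool.Agent.Helper3.HY.M_Ue1

/-!
# HQ module Ue (free orbits)
-/

set_option autoImplicit false

namespace Pool.Agent.Helper54.HQ

open Polynomial Finset Filter Topology Matrix IsDedekindDomain
open Pool.Agent.Helper3.HY (co tau Ix nu TType IType rho2 exc Adm Gm)
open Pool.Agent.Helper3

/-- over a field, an isometry of `B` and `A` is `1` or `-1` -/
private theorem pm_one_Ue {K : Type} [Field K] {g : ℕ} {B A h : Matrix (Ix g) (Ix g) K}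
    (hB : Bᵀ = B) (hA : Aᵀ = A) (hdet : IsUnit B.det) (hirr : Irreducible (B⁻¹ * A).charpoly)
    (hBh : hᵀ * B * h = B) (hAh : hᵀ * A * h = A) : h = 1 ∨ h = -1 := by
  have hiB : B⁻¹ * B = 1 := Matrix.nonsing_inv_mul B hdet
  have hBi : B * B⁻¹ = 1 := Matrix.mul_nonsing_inv B hdet
  have hinv : (B⁻¹ * hᵀ * B) * h = 1 := by
    calc (B⁻¹ * hᵀ * B) * h = B⁻¹ * (hᵀ * B * h) := by simp only [Matrix.mul_assoc]
      _ = 1 := by rw [hBh, hiB]
  have hinv' : h * (B⁻¹ * hᵀ * B) = 1 := mul_eq_one_comm.1 hinv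
  set X := B⁻¹ * A with hX
  have hXh : X * h = h * X := by
    calc X * h = (h * (B⁻¹ * hᵀ * B)) * (B⁻¹ * A * h) := by rw [hinv', Matrix.one_mul]
      _ = h * (B⁻¹ * (hᵀ * (B * B⁻¹) * A * h)) := by simp only [Matrix.mul_assoc]
      _ = h * (B⁻¹ * (hᵀ * A * h)) := by rw [hBi, Matrix.mul_one]
      _ = h * X := by rw [hAh]
  obtain ⟨p, hp⟩ := HY.hUe1 K (2 * g + 1) X h hirr hXh
  have hXB : Xᵀ * B = B * X := by
    rw [hX, Matrix.transpose_mul, hA, Matrix.transpose_nonsing_inv, hB, Matrix.mul_assoc, hiB,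
      Matrix.mul_one, ← Matrix.mul_assoc, hBi, Matrix.one_mul]
  have hpow : ∀ k : ℕ, (X ^ k)ᵀ * B = B * X ^ k := by
    intro k
    induction k with
    | zero => rw [pow_zero, Matrix.transpose_one, Matrix.one_mul, Matrix.mul_one]
    | succ k ih =>
      rw [pow_succ, Matrix.transpose_mul, Matrix.mul_assoc, ih, ← Matrix.mul_assoc, hXB,
        Matrix.mul_assoc, ← pow_succ', ← pow_succ]
  have hae : ∀ r : K[X], (aeval X r)ᵀ * B = B * aeval X r := by
    intro r
    induction r using Polynomial.induction_on' with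
    | add p q hp hq => rw [map_add, Matrix.transpose_add, add_mul, mul_add, hp, hq]
    | monomial k a =>
      rw [aeval_monomial, Algebra.algebraMap_eq_smul_one, smul_mul_assoc, one_mul,
        Matrix.transpose_smul, Matrix.smul_mul, hpow, Matrix.mul_smul]
  have hhB : hᵀ * B = B * h := by rw [hp]; exact hae p
  have hsq : h * h = 1 := by
    have h1 : B * h * h = B := by rw [← hhB]; exact hBh
    calc h * h = B⁻¹ * (B * h * h) := by
          rw [← Matrix.mul_assoc, ← Matrix.mul_assoc, hiB, Matrix.one_mul]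
      _ = 1 := by rw [h1, hiB]
  have hmin : minpoly K X = X.charpoly := by
    have h1 : minpoly K X ∣ X.charpoly := Matrix.minpoly_dvd_charpoly X
    have hint : IsIntegral K X := Matrix.isIntegral X
    refine eq_of_monic_of_associated (minpoly.monic hint) (Matrix.charpoly_monic X) ?_
    exact ((hirr.dvd_iff.1 h1).resolve_left (minpoly.not_isUnit K X)).symm
  have hprime : Prime (minpoly K X) := by
    rw [hmin]
    exact hirr.prime
  have hdvd : minpoly K X ∣ (p - 1) * (p + 1) := by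
    apply minpoly.dvd
    rw [map_mul, map_sub, map_add, map_one, ← hp]
    rw [sub_mul, mul_add, one_mul, hsq, mul_one]
    abel
  rcases hprime.dvd_or_dvd hdvd with h1 | h1
  · left
    have h2 := (minpoly.dvd_iff).1 h1
    rw [map_sub, map_one, ← hp] at h2
    exact sub_eq_zero.1 h2
  · right
    have h2 := (minpoly.dvd_iff).1 h1
    rw [map_add, map_one, ← hp] at h2
    exact eq_neg_of_add_eq_zero_left h2

/-- the characteristic polynomial over `ℚ` -/
private theorem chi_Ue {g : ℕ} {p : Pr g} {f : ℤ[X]} (hdet : IsUnit p.1.det) (h : IsChi p f) :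
    ((p.1.map (Int.castRingHom ℚ))⁻¹ * p.2.map (Int.castRingHom ℚ)).charpoly = fK f := by
  set B := p.1.map (Int.castRingHom ℚ) with hB
  set A := p.2.map (Int.castRingHom ℚ) with hA
  have hd : B.det = Int.castRingHom ℚ p.1.det := by
    rw [hB, ← RingHom.mapMatrix_apply, ← RingHom.map_det]
  have hu : IsUnit B.det := by
    rw [hd]
    exact hdet.map _
  have hBi : B * B⁻¹ = 1 := Matrix.mul_nonsing_inv B hu
  have h1 := congrArg (Polynomial.map (Int.castRingHom ℚ)) h
  rw [Polynomial.map_mul, map_C] at h1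
  have h2 : Polynomial.map (Int.castRingHom ℚ)
      ((X : ℤ[X]) • p.1.map (C : ℤ → ℤ[X]) - p.2.map (C : ℤ → ℤ[X])).det =
      ((X : ℚ[X]) • B.map (C : ℚ → ℚ[X]) - A.map (C : ℚ → ℚ[X])).det := by
    rw [← Polynomial.coe_mapRingHom, RingHom.map_det]
    congr 1
    ext i j
    simp [hB, hA, Matrix.map_apply, Matrix.sub_apply, Matrix.smul_apply]
  rw [h2] at h1
  have h3 : (X : ℚ[X]) • B.map (C : ℚ → ℚ[X]) - A.map (C : ℚ → ℚ[X]) =
      B.map (C : ℚ → ℚ[X]) * (B⁻¹ * A).charmatrix := by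
    have e1 : A.map (C : ℚ → ℚ[X]) = B.map (C : ℚ → ℚ[X]) * (B⁻¹ * A).map (C : ℚ → ℚ[X]) := by
      have e2 : (B * (B⁻¹ * A)).map (C : ℚ →+* ℚ[X]) =
          B.map (C : ℚ →+* ℚ[X]) * (B⁻¹ * A).map (C : ℚ →+* ℚ[X]) := Matrix.map_mul
      rw [← e2, ← Matrix.mul_assoc, hBi, Matrix.one_mul]
    unfold Matrix.charmatrix
    rw [Matrix.mul_sub]
    congr 1
    rw [Matrix.scalar_apply, ← Matrix.smul_eq_mul_diagonal]
  rw [h3, Matrix.det_mul] at h1
  have h4 : (B.map (C : ℚ → ℚ[X])).det = C (Int.castRingHom ℚ p.1.det) := by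
    have e1 : (B.map (C : ℚ → ℚ[X])).det = C B.det := by
      have := RingHom.map_det (C : ℚ →+* ℚ[X]) B
      rw [this]
      rfl
    rw [e1, hd]
  rw [h4] at h1
  have h5 : (C (Int.castRingHom ℚ p.1.det) : ℚ[X]) ≠ 0 := by
    rw [← hd]
    exact C_ne_zero.2 hu.ne_zero
  exact (mul_left_cancel₀ h5 h1).symm

private theorem det_Ue {g : ℕ} {m : Fin g → ℕ} {u : Matrix (Ix g) (Ix g) ℤ} (hu : u ∈ Uni g m) :
    u.det = 1 := by
  rw [Matrix.det_of_isUpperTriangular]
  · exact Finset.prod_eq_one fun i _ => hu.1 i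
  · intro i j hij
    have hij' : j < i := hij
    rcases hu.2 i j hij'.ne' with h | h
    · exact h
    · exact absurd h.1 hij'.asymm

theorem hUe : StUe := by
  intro g hg m p f u₁ u₂ hsB hsA hdet hchi hirr hu₁ hu₂ heq
  have hd2 : IsUnit u₂.det := by rw [det_Ue hu₂]; exact isUnit_one
  have hB : u₁ᵀ * p.1 * u₁ = u₂ᵀ * p.1 * u₂ := congrArg Prod.fst heq
  have hA : u₁ᵀ * p.2 * u₁ = u₂ᵀ * p.2 * u₂ := congrArg Prod.snd heq
  set k := u₂⁻¹ with hk
  have hi : k * u₂ = 1 := Matrix.nonsing_inv_mul u₂ hd2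
  have hi' : u₂ * k = 1 := Matrix.mul_nonsing_inv u₂ hd2
  have hkt : kᵀ * u₂ᵀ = 1 := by rw [← Matrix.transpose_mul, hi', Matrix.transpose_one]
  set h := u₁ * k with hh
  have key : ∀ M : Matrix (Ix g) (Ix g) ℤ, u₁ᵀ * M * u₁ = u₂ᵀ * M * u₂ → hᵀ * M * h = M := by
    intro M hM
    calc hᵀ * M * h = kᵀ * (u₁ᵀ * M * u₁) * k := by
          rw [hh, Matrix.transpose_mul]; simp only [Matrix.mul_assoc]
      _ = kᵀ * (u₂ᵀ * M * u₂) * k := by rw [hM]
      _ = (kᵀ * u₂ᵀ) * M * (u₂ * k) := by simp only [Matrix.mul_assoc]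
      _ = M := by rw [hkt, hi', Matrix.one_mul, Matrix.mul_one]
  set φ : ℤ →+* ℚ := Int.castRingHom ℚ with hφ
  have hinj : Function.Injective φ := Int.cast_injective
  have hmapK : ∀ M : Matrix (Ix g) (Ix g) ℤ, hᵀ * M * h = M →
      (h.map φ)ᵀ * M.map φ * h.map φ = M.map φ := by
    intro M hM
    have h1 := congrArg (fun M : Matrix (Ix g) (Ix g) ℤ => M.map φ) hM
    simp only [Matrix.map_mul] at h1
    exact h1
  have hdetK : IsUnit (p.1.map φ).det := by
    rw [← RingHom.mapMatrix_apply, ← RingHom.map_det]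
    exact hdet.map _
  have hBt : (p.1.map φ)ᵀ = p.1.map φ := by
    rw [← Matrix.transpose_map, hsB.eq]
  have hAt : (p.2.map φ)ᵀ = p.2.map φ := by
    rw [← Matrix.transpose_map, hsA.eq]
  rcases pm_one_Ue hBt hAt hdetK (by rw [chi_Ue hdet hchi]; exact hirr) (hmapK _ (key _ hB))
    (hmapK _ (key _ hA)) with h1 | h1
  · have h3 : h = 1 := by
      apply Matrix.map_injective hinj
      change h.map φ = (1 : Matrix (Ix g) (Ix g) ℤ).map φ
      rw [h1, Matrix.map_one φ (map_zero φ) (map_one φ)]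
    calc u₁ = u₁ * (k * u₂) := by rw [hi, Matrix.mul_one]
      _ = h * u₂ := by rw [hh, Matrix.mul_assoc u₁ k u₂]
      _ = u₂ := by rw [h3, Matrix.one_mul]
  · exfalso
    have h3 : h = -1 := by
      apply Matrix.map_injective hinj
      change h.map φ = (-1 : Matrix (Ix g) (Ix g) ℤ).map φ
      rw [h1]
      ext i j
      simp [Matrix.one_apply, Matrix.map_apply]
    have h4 : u₁ = -u₂ := by
      calc u₁ = u₁ * (k * u₂) := by rw [hi, Matrix.mul_one]
        _ = h * u₂ := by rw [hh, Matrix.mul_assoc u₁ k u₂]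
        _ = -u₂ := by rw [h3, Matrix.neg_mul, Matrix.one_mul]
    have h5 := congrFun (congrFun h4 0) 0
    rw [Matrix.neg_apply, hu₁.1 0, hu₂.1 0] at h5
    omega

end Pool.Agent.Helper54.HQ
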