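import Pool.Agent.Helper54.HQ.StU
import Pool.Agent.Helper3.HY.M_Ui1
import Pool.Agent.Helper3.HY.M_Ui2

/-! # HQ: module Ui (the local count) -/

set_option autoImplicit false

namespace Pool.Agent.Helper54.HQ

open Polynomial Finset Filter Topology Matrix IsDedekindDomain
open Pool.Agent.Helper3.HY (co tau Ix nu TType IType rho2 exc Adm Gm)
open Pool.Agent.Helper3

/-- the matrices which belong to one polynomial -/
def Am_Ui (k : Type) [Field k] (g : ℕ) (B : Matrix (Ix g) (Ix g) k) (h : k[X]) :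
    Set (Matrix (Ix g) (Ix g) k) :=
  {A | ∃ hm : h.Monic, h.natDegree = 2 * g + 1 ∧ ∃ w : Ix g → AdjoinRoot h,
    (∀ i j, tau hm (w i * w j) = B i j) ∧
      ∀ i j, tau hm (AdjoinRoot.root h * w i * w j) = A i j}

theorem finite_deg_Ui (k : Type) [Field k] [Fintype k] (n : ℕ) :
    {p : k[X] | p.natDegree ≤ n}.Finite := by
  refine Set.Finite.of_injOn (f := fun (p : k[X]) (i : Fin (n + 1)) => p.coeff i)
    (t := Set.univ) (fun _ _ => Set.mem_univ _) ?_ Set.finite_univ
  intro p hp q hq hpq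
  ext i
  by_cases hi : i < n + 1
  · exact congrFun hpq ⟨i, hi⟩
  · have hp' : p.natDegree ≤ n := hp
    have hq' : q.natDegree ≤ n := hq
    rw [coeff_eq_zero_of_natDegree_lt (by omega), coeff_eq_zero_of_natDegree_lt (by omega)]

theorem union_bound_Ui {k : Type} [Field k] [Fintype k] {g c N : ℕ}
    {B : Matrix (Ix g) (Ix g) k} {S : Set k[X]} (hS : S.Finite)
    (h : ∀ x ∈ S, c * (Am_Ui k g B x).ncard ≤ N) :
    c * {A : Matrix (Ix g) (Ix g) k | (B, A) ∈ LocPair k g S}.ncard ≤ S.ncard * N := by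
  classical
  have h1 : {A : Matrix (Ix g) (Ix g) k | (B, A) ∈ LocPair k g S} ⊆
      ⋃ x ∈ hS.toFinset, Am_Ui k g B x := by
    rintro b ⟨x, hx, hb⟩
    simp only [Set.mem_iUnion]
    exact ⟨x, hS.mem_toFinset.2 hx, hb⟩
  have h2 : {A : Matrix (Ix g) (Ix g) k | (B, A) ∈ LocPair k g S}.ncard ≤
      ∑ x ∈ hS.toFinset, (Am_Ui k g B x).ncard :=
    (Set.ncard_le_ncard h1 (Set.toFinite _)).trans (Finset.set_ncard_biUnion_le _ _)
  calc c * {A : Matrix (Ix g) (Ix g) k | (B, A) ∈ LocPair k g S}.ncard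
      ≤ c * ∑ x ∈ hS.toFinset, (Am_Ui k g B x).ncard := Nat.mul_le_mul_left c h2
    _ = ∑ x ∈ hS.toFinset, c * (Am_Ui k g B x).ncard := Finset.mul_sum _ _ _
    _ ≤ ∑ _x ∈ hS.toFinset, N := Finset.sum_le_sum fun x hx => h x (hS.mem_toFinset.1 hx)
    _ = S.ncard * N := by rw [Finset.sum_const, smul_eq_mul, Set.ncard_eq_toFinset_card S hS]

/-- the matrices from a given polynomial -/
theorem one_Ui (hUw : StUw) {k : Type} [Field k] [Fintype k] (h2 : (2 : k) ≠ 0) (g : ℕ)
    (G : Matrix (Ix g) (Ix g) k) (hG : G.det ≠ 0) (h : k[X]) (hm : h.Monic)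
    (hdeg : h.natDegree = 2 * g + 1) (s : Finset (AdjoinRoot h)) (hs : ∀ β ∈ s, β ^ 2 = 1) :
    (Am_Ui k g G h).ncard * s.card ≤ 2 * Fintype.card k ^ (g * (2 * g + 1)) := by
  have hfree : Module.Finite k (AdjoinRoot h) := hm.finite_adjoinRoot
  have hrank : Module.finrank k (AdjoinRoot h) = 2 * g + 1 := by
    exact (finrank_quotient_span_eq_natDegree' (f := h) hm).trans hdeg
  have hfin : Finite (AdjoinRoot h) := Module.finite_of_finite k
  let B : LinearMap.BilinForm k (AdjoinRoot h) :=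
    (LinearMap.mul k (AdjoinRoot h)).compr₂ (tau hm)
  have hB : ∀ x y, B x y = tau hm (x * y) := fun x y => rfl
  have hUg' := hUw k h2 g (AdjoinRoot h) B (fun x y => by rw [hB, hB, mul_comm])
    (fun x hx => HY.hUi1 k h hm (by omega) x hx) hrank G hG
  set T : Set (Ix g → AdjoinRoot h) := {w | ∀ i j, B (w i) (w j) = G i j} with hT
  set S : Set (Matrix (Ix g) (Ix g) k) := Am_Ui k g G h with hS
  have hTfin : T.Finite := Set.toFinite T
  have hspan : ∀ w ∈ T, ∀ z : AdjoinRoot h, (∀ i, z * w i = 0) → z = 0 := by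
    intro w hw z hz
    have hli : LinearIndependent k w := by
      rw [Fintype.linearIndependent_iff]
      intro c hc
      have h5 : c ᵥ* G = 0 := by
        ext j
        have h3 : B (∑ i, c i • w i) (w j) = 0 := by rw [hc, map_zero]; rfl
        rw [map_sum, LinearMap.sum_apply] at h3
        have h4 : ∀ i, (B (c i • w i)) (w j) = c i * G i j := by
          intro i
          rw [map_smul, LinearMap.smul_apply, hw i j, smul_eq_mul]
        rw [Finset.sum_congr rfl (fun i _ => h4 i)] at h3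
        exact h3
      exact congrFun (Matrix.eq_zero_of_vecMul_eq_zero hG h5)
    have htop : ⊤ ≤ Submodule.span k (Set.range w) := by
      rw [hli.span_eq_top_of_card_eq_finrank' (by rw [hrank]; simp)]
    have h1 : ∀ y ∈ Submodule.span k (Set.range w), z * y = 0 := by
      intro y hy
      induction hy using Submodule.span_induction with
      | mem x hx =>
        obtain ⟨i, rfl⟩ := hx
        exact hz i
      | zero => rw [mul_zero]
      | add x y _ _ hx hy => rw [mul_add, hx, hy, add_zero]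
      | smul c x _ hx => rw [mul_smul_comm, hx, smul_zero]
    have h3 := h1 1 (htop trivial)
    rwa [mul_one] at h3
  have hSch : ∀ b ∈ S, ∃ w : Ix g → AdjoinRoot h, w ∈ T ∧
      ∀ i j, tau hm (AdjoinRoot.root h * w i * w j) = b i j := by
    rintro b ⟨_, _, w, hw, hb⟩
    exact ⟨w, hw, hb⟩
  choose! W hWT hWb using hSch
  refine le_trans ?_ hUg'
  have h5 : S.ncard * s.card = (S ×ˢ (s : Set (AdjoinRoot h))).ncard := by
    rw [Set.ncard_prod, Set.ncard_coe_finset]
  rw [h5]
  refine Set.ncard_le_ncard_of_injOn (fun p : Matrix (Ix g) (Ix g) k × AdjoinRoot h =>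
    fun i => p.2 * W p.1 i) ?_ ?_ hTfin
  · rintro ⟨b, β⟩ ⟨hb, hβ⟩
    intro i j
    rw [hB]
    have h6 : β * W b i * (β * W b j) = β ^ 2 * (W b i * W b j) := by ring
    change tau hm (β * W b i * (β * W b j)) = _
    rw [h6, hs β hβ, one_mul]
    exact hWT b hb i j
  · rintro ⟨b, β⟩ ⟨hb, hβ⟩ ⟨b', β'⟩ ⟨hb', hβ'⟩ heq
    have heq' : ∀ i, β * W b i = β' * W b' i := fun i => congrFun heq i
    have h7 : ∀ (b : Matrix (Ix g) (Ix g) k) (β : AdjoinRoot h), b ∈ S → β ∈ s → ∀ i j,
        tau hm (AdjoinRoot.root h * (β * W b i) * (β * W b j)) = b i j := by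
      intro b β hb hβ i j
      have h8 : AdjoinRoot.root h * (β * W b i) * (β * W b j) =
          β ^ 2 * (AdjoinRoot.root h * W b i * W b j) := by ring
      rw [h8, hs β hβ, one_mul]
      exact hWb b hb i j
    have hbb : b = b' := by
      ext i j
      rw [← h7 b β hb hβ i j, ← h7 b' β' hb' hβ' i j, heq' i, heq' j]
    subst hbb
    have h9 : β - β' = 0 := by
      refine hspan (W b) (hWT b hb) _ fun i => ?_
      rw [sub_mul, heq' i, sub_self]
    rw [sub_eq_zero.1 h9]

theorem hUi (h : StUw) : StUi := by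
  intro k _ _ h2 g hg B hB
  have hT : ∀ h ∈ TType k g, h.Monic ∧ h.natDegree = 2 * g + 1 := by
    rintro h ⟨a, p, hp, hirr, hd, rfl⟩
    refine ⟨(monic_X_sub_C a).mul hp, ?_⟩
    rw [(monic_X_sub_C a).natDegree_mul hp, natDegree_X_sub_C, hd]
    ring
  have hfin : (TType k g).Finite :=
    (finite_deg_Ui k (2 * g + 1)).subset fun h hh => (hT h hh).2.le
  refine union_bound_Ui (c := 2) (N := Fintype.card k ^ (g * (2 * g + 1))) hfin ?_
  intro q hq
  obtain ⟨s, hs, hs1⟩ := (HY.hUi2 k h2 g hg q).2 hq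
  have h3 := one_Ui h h2 g B hB q (hT q hq).1 (hT q hq).2 s hs1
  rw [hs] at h3
  omega

end Pool.Agent.Helper54.HQ
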