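import Pool.Agent.Helper54.HQ.StU

/-!
# HQ module Uj: orbit count
-/

set_option autoImplicit false

namespace Pool.Agent.Helper54.HQ

open Polynomial Finset Filter Topology Matrix IsDedekindDomain
open Pool.Agent.Helper3.HY (co tau Ix nu TType IType rho2 exc Adm Gm)

theorem one_mem_Uni_Uj (g : ℕ) (m : Fin g → ℕ) : (1 : Matrix (Ix g) (Ix g) ℤ) ∈ Uni g m :=
  ⟨fun i => Matrix.one_apply_eq i, fun _ _ h => Or.inl (Matrix.one_apply_ne h)⟩

theorem act_one_Uj {g : ℕ} (p : Pr g) : act 1 p = p := by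
  unfold act
  rw [Matrix.transpose_one, Matrix.one_mul, Matrix.mul_one, Matrix.one_mul, Matrix.mul_one]

theorem det_Uj {g : ℕ} {m : Fin g → ℕ} {u : Matrix (Ix g) (Ix g) ℤ} (hu : u ∈ Uni g m) :
    u.det = 1 := by
  have h1 : u.BlockTriangular id := by
    intro i j hij
    change j < i at hij
    rcases hu.2 i j hij.ne' with h | h
    · exact h
    · exact absurd h.1 (not_lt.2 hij.le)
  rw [Matrix.det_of_isUpperTriangular h1]
  exact Finset.prod_eq_one fun i _ => hu.1 i

theorem hUj (h1 : StUa) (h2 : StUd) (h3 : StUe) (h4 : StUq) : StUj := by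
  intro g hg m hm W W' hW' hW hact
  have hWfin : W.Finite := hW'.subset fun p hp => by
    have := hact p hp 1 (one_mem_Uni_Uj g m)
    rwa [act_one_Uj] at this
  have hex : ∀ f : ℤ[X], f ∈ {f : ℤ[X] | Irreducible (fK f) ∧ ∃ p ∈ W, IsChi p f} →
      ∃ p : Pr g, p ∈ W ∧ IsChi p f := fun f hf => hf.2
  choose! b hb hbf using hex
  obtain ⟨s, hs, hcard⟩ := h1 g m hm
  refine ⟨?_, ?_⟩
  · refine Set.Finite.of_injOn (f := b) (fun f hf => hb f hf) ?_ hWfin
    intro f hf f' hf' he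
    exact h4 g (b f) f f' (hW _ (hb f hf)).2.2 (hbf f hf) (he ▸ hbf f' hf')
  · have hle : ({f : ℤ[X] | Irreducible (fK f) ∧ ∃ p ∈ W, IsChi p f} ×ˢ
        (s : Set (Matrix (Ix g) (Ix g) ℤ))).ncard ≤ W'.ncard := by
      refine Set.ncard_le_ncard_of_injOn (fun p => act p.2 (b p.1)) ?_ ?_ hW'
      · rintro ⟨f, u⟩ ⟨hf, hu⟩
        exact hact (b f) (hb f hf) u (hs u hu)
      · rintro ⟨f, u⟩ ⟨hf, hu⟩ ⟨f', u'⟩ ⟨hf', hu'⟩ he
        simp only at hf hu hf' hu' he
        have e1 := (h2 g 0 0 m le_rfl le_rfl ∅ (b f) u (hs u hu)).2.2.2 f (hbf f hf)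
        have e2 := (h2 g 0 0 m le_rfl le_rfl ∅ (b f') u' (hs u' hu')).2.2.2 f' (hbf f' hf')
        have e3 : f = f' := by
          refine h4 g (act u (b f)) f f' ?_ e1 (he ▸ e2)
          have hd := (hW _ (hb f hf)).2.2
          have hu2 : IsUnit (uᵀ * (b f).1 * u).det := by
            rw [Matrix.det_mul, Matrix.det_mul, Matrix.det_transpose, det_Uj (hs u hu), one_mul,
              mul_one]
            exact hd
          exact hu2
        subst e3
        have e4 := h3 g hg m (b f) f u u' (hW _ (hb f hf)).1 (hW _ (hb f hf)).2.1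
          (hW _ (hb f hf)).2.2 (hbf f hf) hf.1 (hs u hu) (hs u' hu') he
        rw [e4]
    rw [Set.ncard_prod, Set.ncard_coe_finset] at hle
    exact (Nat.mul_le_mul_left _ hcard).trans hle

end Pool.Agent.Helper54.HQ
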