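import Pool.Agent.Helper54.HQ.StU

/-!
# HQ, module Uk: one type in the main region
-/

set_option autoImplicit false

namespace Pool.Agent.Helper54.HQ

open Polynomial Finset Filter Topology Matrix IsDedekindDomain
open Pool.Agent.Helper3.HY (co tau Ix nu TType IType rho2 exc Adm Gm)

theorem hUk (h1 : StUj) (h2 : StUd) (h3 : StUh) (h4 : StUb) (h5 : StUf) : StUk := by
  intro g hg C hC
  have hC' : (0 : ℝ) ≤ (2 * g + 1) ^ 2 * C := by positivity
  refine ⟨(2 * ((2 * g + 1) ^ 2 * C) + 1) ^ (2 * ((g + 1) * (2 * g + 1))), by positivity, ?_⟩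
  intro H m hm T hT hH
  have hH1 : 1 ≤ H := by
    refine le_trans ?_ (hH ⟨0, hg⟩)
    refine Nat.succ_le_of_lt (Nat.mul_pos (Finset.prod_pos fun P _ => P.2.pos) (by positivity))
  have hsub : BadM g C H m T ⊆
      {f : ℤ[X] | Irreducible (fK f) ∧ ∃ p ∈ PB g C (H : ℝ) m T, IsChi p f} := by
    rintro f ⟨-, -, hf, p, hp, hl, hχ⟩
    exact ⟨hf, p, ⟨hp, hl⟩, hχ⟩
  have hfin : (PB g ((2 * g + 1) ^ 2 * C) (H : ℝ) m T).Finite :=
    (h5 g _ H m hC' hH1).1.subset fun p hp => hp.1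
  obtain ⟨h6, h7⟩ := h1 g hg m hm (PB g C (H : ℝ) m T) (PB g ((2 * g + 1) ^ 2 * C) (H : ℝ) m T) hfin
    (fun p hp => ⟨hp.1.symB, hp.1.symA, hp.1.det⟩) (fun p hp u hu => by
      obtain ⟨k1, k2, -, -⟩ := h2 g C (H : ℝ) m hC (Nat.cast_nonneg H) T p u hu
      exact ⟨k1 hp.1, k2 hp.2⟩)
  refine ⟨h6.subset hsub, ?_⟩
  have h8 := h3 g hg _ H m hC' hm T hT hH
  have h9 : ((BadM g C H m T).ncard : ℝ) * 2 ^ ups g m ≤
      ((PB g ((2 * g + 1) ^ 2 * C) (H : ℝ) m T).ncard : ℝ) := by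
    have h10 : (BadM g C H m T).ncard * 2 ^ ups g m ≤
        (PB g ((2 * g + 1) ^ 2 * C) (H : ℝ) m T).ncard :=
      (Nat.mul_le_mul_right _ (Set.ncard_le_ncard hsub h6)).trans h7
    exact_mod_cast h10
  have h11 := h9.trans h8
  rw [h4 g m hm, pow_add] at h11
  have hpos : (0 : ℝ) < 2 ^ sB g m := by positivity
  refine le_of_mul_le_mul_right ?_ hpos
  calc ((BadM g C H m T).ncard : ℝ) * 2 ^ rho2 g m * 2 ^ sB g m
      = ((BadM g C H m T).ncard : ℝ) * (2 ^ sB g m * 2 ^ rho2 g m) := by ring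
    _ ≤ _ := h11
    _ = _ := by ring

end Pool.Agent.Helper54.HQ
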