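import Pool.Agent.Helper54.HQ.StU
import Pool.Agent.Helper3.HY.M_Uc

/-!
# HQ, module Ul: one type in general
-/

set_option autoImplicit false

namespace Pool.Agent.Helper54.HQ

open Polynomial Finset Filter Topology Matrix IsDedekindDomain
open Pool.Agent.Helper3.HY (co tau Ix nu TType IType rho2 exc Adm Gm)
open Pool.Agent.Helper3

theorem exc_le_Ul (g d κ : ℕ) (m : Fin g → ℕ) :
    exc g d m ≤ exc g (d + κ) m + κ * (2 * g + 1) ^ 2 := by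
  have h1 : ∑ _p : Ix g × Ix g, κ = κ * (2 * g + 1) ^ 2 := by
    rw [Finset.sum_const, Finset.card_univ, Fintype.card_prod, Fintype.card_fin, smul_eq_mul,
      mul_comm, pow_two]
  rw [← h1, exc, exc, ← Finset.sum_add_distrib]
  refine Finset.sum_le_sum fun p _ => ?_
  split_ifs with h
  · push_cast
    omega
  · omega

theorem hUl (h1 : StUj) (h2 : StUd) (h3 : StUf) (h4 : StUb) : StUl := by
  intro g hg C κ hC
  obtain ⟨C', hC'⟩ : ∃ C' : ℝ, C' = (2 * (g : ℝ) + 1) ^ 2 * C := ⟨_, rfl⟩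
  have hC0 : 0 ≤ C' := by rw [hC']; positivity
  obtain ⟨n, hn⟩ : ∃ n : ℕ, n = (g + 1) * (2 * g + 1) := ⟨_, rfl⟩
  refine ⟨(2 * C' + 1) ^ (2 * n) * 2 ^ n * 2 ^ (κ * (2 * g + 1) ^ 2), by positivity, ?_⟩
  intro H hH m hm T i₀ hi₀
  obtain ⟨hfin, hcard⟩ := h3 g C' H m hC0 hH
  obtain ⟨hjf, hjc⟩ := h1 g hg m hm.1 {p : Pr g | InBox g C H m p} {p : Pr g | InBox g C' H m p}
    hfin (fun p hp => ⟨hp.symB, hp.symA, hp.det⟩) (fun p hp u hu => by
      have := (h2 g C H m hC (Nat.cast_nonneg H) T p u hu).1 hp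
      rw [← hC'] at this
      exact this)
  have hsub : BadM g C H m T ⊆
      {f : ℤ[X] | Irreducible (fK f) ∧ ∃ p ∈ {p : Pr g | InBox g C H m p}, IsChi p f} := by
    rintro f ⟨-, -, hirr, p, hp, -, hchi⟩
    exact ⟨hirr, p, hp, hchi⟩
  refine ⟨hjf.subset hsub, ?_⟩
  have hle : (BadM g C H m T).ncard ≤ _ := Set.ncard_le_ncard hsub hjf
  obtain ⟨X, hX⟩ : ∃ X : ℝ, X = ((BadM g C H m T).ncard : ℝ) := ⟨_, rfl⟩
  have hX0 : 0 ≤ X := by rw [hX]; exact Nat.cast_nonneg _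
  obtain ⟨K₀, hK₀⟩ : ∃ K₀ : ℝ, K₀ = (2 * C' + 1) ^ (2 * n) := ⟨_, rfl⟩
  have hK00 : 0 ≤ K₀ := by rw [hK₀]; positivity
  rw [← hX, ← hn, ← hK₀]
  rw [← hn, ← hK₀] at hcard
  obtain ⟨d, hd⟩ : ∃ d, d = Nat.log 2 H := ⟨_, rfl⟩
  rw [← hd] at hcard ⊢
  have hdH : ((2 : ℝ) ^ d) ≤ (H : ℝ) := by
    have := Nat.pow_log_le_self 2 (show H ≠ 0 by omega)
    rw [← hd] at this
    exact_mod_cast this
  -- the orbit count
  have e1 : X * 2 ^ ups g m ≤ K₀ * 2 ^ (sB g m + (d + 1) * n + exc g d m) := by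
    refine le_trans ?_ hcard
    have e2 : (BadM g C H m T).ncard * 2 ^ ups g m ≤ ({p : Pr g | InBox g C' H m p}).ncard :=
      (Nat.mul_le_mul_right _ hle).trans hjc
    rw [hX]
    exact_mod_cast e2
  rw [h4 g m hm.1] at e1
  have e2 : X * 2 ^ rho2 g m ≤ K₀ * 2 ^ n * (H : ℝ) ^ n * 2 ^ exc g d m := by
    have e3 : X * 2 ^ rho2 g m * 2 ^ sB g m ≤
        K₀ * 2 ^ n * ((2 : ℝ) ^ d) ^ n * 2 ^ exc g d m * 2 ^ sB g m := by
      calc X * 2 ^ rho2 g m * 2 ^ sB g m = X * 2 ^ (sB g m + rho2 g m) := by rw [pow_add]; ring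
        _ ≤ _ := e1
        _ = K₀ * 2 ^ n * ((2 : ℝ) ^ d) ^ n * 2 ^ exc g d m * 2 ^ sB g m := by
          rw [pow_add, pow_add, add_mul, pow_add, one_mul, pow_mul]; ring
    have e4 := le_of_mul_le_mul_right e3 (by positivity)
    refine e4.trans ?_
    refine mul_le_mul_of_nonneg_right ?_ (by positivity)
    refine mul_le_mul_of_nonneg_left ?_ (by positivity)
    exact pow_le_pow_left₀ (by positivity) hdH n
  -- the cusp inequality
  have h5 := HY.hUc g (d + κ) m (by rw [hd]; exact hm) i₀ hi₀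
  have h6 := exc_le_Ul g d κ m
  obtain ⟨a, ha⟩ : ∃ a, a = min ((d + κ + 1) / 2) (m i₀) := ⟨_, rfl⟩
  rw [← ha] at h5 ⊢
  refine le_of_mul_le_mul_right (a := (2 : ℝ) ^ exc g d m) ?_ (by positivity)
  calc X * 2 ^ a * 2 ^ exc g d m
      ≤ X * 2 ^ a * 2 ^ (exc g (d + κ) m + κ * (2 * g + 1) ^ 2) :=
        mul_le_mul_of_nonneg_left (pow_le_pow_right₀ (by norm_num) h6) (by positivity)
    _ = X * 2 ^ (exc g (d + κ) m + a) * 2 ^ (κ * (2 * g + 1) ^ 2) := by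
        rw [pow_add, pow_add]; ring
    _ ≤ X * 2 ^ rho2 g m * 2 ^ (κ * (2 * g + 1) ^ 2) := by
        refine mul_le_mul_of_nonneg_right ?_ (by positivity)
        exact mul_le_mul_of_nonneg_left (pow_le_pow_right₀ (by norm_num) h5) hX0
    _ ≤ K₀ * 2 ^ n * (H : ℝ) ^ n * 2 ^ exc g d m * 2 ^ (κ * (2 * g + 1) ^ 2) :=
        mul_le_mul_of_nonneg_right e2 (by positivity)
    _ = K₀ * 2 ^ n * 2 ^ (κ * (2 * g + 1) ^ 2) * (H : ℝ) ^ n * 2 ^ exc g d m := by ring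

end Pool.Agent.Helper54.HQ
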