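import Pool.Agent.Helper54.HQ.StU
import Pool.Agent.Helper3.HY.M_Um

/-!
# HQ: Um, the bad set (summation over the types)
-/

set_option autoImplicit false

namespace Pool.Agent.Helper54.HQ

open Polynomial Finset Filter Topology Matrix IsDedekindDomain
open Pool.Agent.Helper3.HY (co tau Ix nu TType IType rho2 exc Adm Gm)
open Pool.Agent.Helper3

theorem hUm (h1 : StUk) (h2 : StUl) : StU := by
  classical
  intro g hg C κ hC
  obtain ⟨K₁, hK₁, hUk⟩ := h1 g hg C hC
  obtain ⟨K₂, hK₂, hUl⟩ := h2 g hg C κ hC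
  refine ⟨K₁ * 2 ^ g, by positivity, ?_⟩
  intro T hT ε hε
  set M : ℕ := ∏ P ∈ T, (P : ℕ) with hM
  set X : ℝ := (1 / 2) ^ T.card * ∏ P ∈ T, dens g P with hX
  have hX0 : 0 ≤ X := by
    rw [hX]
    apply mul_nonneg (by positivity)
    apply Finset.prod_nonneg
    intro P _
    unfold dens
    positivity
  have hx0 : (0 : ℝ) ≤ 1 / 2 := by norm_num
  have hMs : M < 2 ^ M := Nat.lt_two_pow_self
  have hlog : Tendsto (fun H : ℕ => Nat.log 2 H + κ) atTop atTop := by
    rw [tendsto_atTop]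
    intro b
    filter_upwards [eventually_ge_atTop (2 ^ b)] with H hH
    exact (Nat.le_log_of_pow_le (by norm_num) hH).trans (Nat.le_add_right _ _)
  have hlim := ((HY.UmAux.lim_aux hx0 le_rfl g (M + κ) K₂ hK₂.le).comp hlog).eventually
    (gt_mem_nhds hε)
  filter_upwards [hlim, eventually_ge_atTop 1] with H hd hH1
  simp only [Function.comp] at hd
  have hsub' : Nat.log 2 H + κ + 1 - (M + κ) = Nat.log 2 H + 1 - M := by omega
  rw [hsub'] at hd
  set d : ℕ := Nat.log 2 H + κ with hdd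
  set W : ℝ := (H : ℝ) ^ ((g + 1) * (2 * g + 1)) with hW
  have hW0 : 0 < W := by
    have : (0 : ℝ) < H := by exact_mod_cast hH1
    positivity
  set A : Finset (Fin g → ℕ) :=
    (Fintype.piFinset fun _ : Fin g => Finset.range (g * d + 1)).filter (fun m => Adm g d m)
    with hA
  have hAmem : ∀ m, Adm g d m → m ∈ A := by
    intro m hm
    refine Finset.mem_filter.2 ⟨Fintype.mem_piFinset.2 fun i => ?_, hm⟩
    rw [Finset.mem_range]
    have := HY.UmAux.adm_le hm i
    omega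
  set i₀ : Fin g := ⟨0, by omega⟩ with hi₀
  have hsub : BadSet g C κ H T ⊆ ⋃ m ∈ A, BadM g C H m T := by
    rintro f ⟨m, hm, hb⟩
    rw [Set.mem_iUnion₂]
    exact ⟨m, hAmem m hm, hb⟩
  have hfin : (⋃ m ∈ A, BadM g C H m T).Finite := by
    apply Set.Finite.biUnion A.finite_toSet
    intro m hm
    exact (hUl H hH1 m (Finset.mem_filter.1 hm).2 T i₀ rfl).1
  refine ⟨hfin.subset hsub, ?_⟩
  have hcard1 : ((BadSet g C κ H T).ncard : ℝ) ≤ ∑ m ∈ A, ((BadM g C H m T).ncard : ℝ) := by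
    have h3 := (Set.ncard_le_ncard hsub hfin).trans
      (Finset.set_ncard_biUnion_le A fun m => BadM g C H m T)
    exact_mod_cast h3
  -- each type
  have heach : ∀ m ∈ A, ((BadM g C H m T).ncard : ℝ) ≤
      K₁ * W * X * (1 / 2) ^ (∑ i, m i) + K₂ * W * (1 / 2) ^ ((Nat.log 2 H + 1 - M) / 2) := by
    intro m hm
    have hadm : Adm g d m := (Finset.mem_filter.1 hm).2
    by_cases hmain : ∀ i : Fin g, M * 2 ^ (2 * m i) ≤ H
    · have h3 := (hUk H m hadm.1 T hT hmain).2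
      rw [← hW, ← hX] at h3
      have h4 : ((BadM g C H m T).ncard : ℝ) * 2 ^ (∑ i, m i) ≤ K₁ * W * X := by
        refine le_trans ?_ h3
        apply mul_le_mul_of_nonneg_left _ (Nat.cast_nonneg _)
        exact pow_le_pow_right₀ (by norm_num) (HY.UmAux.rho2_ge m)
      have h5 : ((BadM g C H m T).ncard : ℝ) ≤ K₁ * W * X * (1 / 2) ^ (∑ i, m i) := by
        rw [one_div, inv_pow, ← div_eq_mul_inv, le_div_iff₀ (by positivity)]
        exact h4
      have h6 : 0 ≤ K₂ * W * (1 / 2) ^ ((Nat.log 2 H + 1 - M) / 2) := by positivity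
      linarith
    · push Not at hmain
      obtain ⟨i, hi⟩ := hmain
      have h3 := (hUl H hH1 m hadm T i₀ rfl).2
      rw [← hW] at h3
      have h4 : m i ≤ m i₀ := hadm.1 (by
        rw [hi₀, Fin.le_def]
        exact Nat.zero_le _)
      have h7 : Nat.log 2 H < M + 2 * m i₀ := by
        apply Nat.log_lt_of_lt_pow (by omega)
        calc H < M * 2 ^ (2 * m i) := hi
          _ ≤ 2 ^ M * 2 ^ (2 * m i₀) := by
              apply Nat.mul_le_mul hMs.le
              exact Nat.pow_le_pow_right (by norm_num) (by omega)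
          _ = 2 ^ (M + 2 * m i₀) := by rw [pow_add]
      have h5 : (Nat.log 2 H + 1 - M) / 2 ≤ min ((Nat.log 2 H + κ + 1) / 2) (m i₀) := by
        rw [le_min_iff]
        constructor <;> omega
      have h6 : ((BadM g C H m T).ncard : ℝ) * 2 ^ ((Nat.log 2 H + 1 - M) / 2) ≤ K₂ * W := by
        refine le_trans ?_ h3
        apply mul_le_mul_of_nonneg_left _ (Nat.cast_nonneg _)
        exact pow_le_pow_right₀ (by norm_num) h5
      have h8 : ((BadM g C H m T).ncard : ℝ) ≤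
          K₂ * W * (1 / 2) ^ ((Nat.log 2 H + 1 - M) / 2) := by
        rw [one_div, inv_pow, ← div_eq_mul_inv, le_div_iff₀ (by positivity)]
        exact h6
      have h9 : 0 ≤ K₁ * W * X * (1 / 2) ^ (∑ i, m i) := by positivity
      linarith
  -- the sum
  have hsum1 : ∑ m ∈ A, (1 / 2 : ℝ) ^ (∑ i, m i) ≤ 2 ^ g := by
    refine le_trans ?_ (HY.UmAux.sum_types_le hx0 le_rfl g (g * d + 1))
    apply Finset.sum_le_sum_of_subset_of_nonneg (Finset.filter_subset _ _)
    intro m _ _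
    positivity
  have hAcard : (A.card : ℝ) ≤ ((g * d + 1 : ℕ) : ℝ) ^ g := by
    have h3 : A.card ≤ (g * d + 1) ^ g := by
      refine (Finset.card_filter_le _ _).trans ?_
      rw [Fintype.card_piFinset]
      simp
    exact_mod_cast h3
  refine (hcard1.trans (Finset.sum_le_sum heach)).trans ?_
  rw [Finset.sum_add_distrib, ← Finset.mul_sum, Finset.sum_const, nsmul_eq_mul]
  have h3 : K₁ * W * X * ∑ m ∈ A, (1 / 2 : ℝ) ^ (∑ i, m i) ≤ K₁ * W * X * 2 ^ g :=
    mul_le_mul_of_nonneg_left hsum1 (by positivity)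
  have h4 : (A.card : ℝ) * (K₂ * W * (1 / 2) ^ ((Nat.log 2 H + 1 - M) / 2)) ≤
      ((g * d + 1 : ℕ) : ℝ) ^ g * (K₂ * W * (1 / 2) ^ ((Nat.log 2 H + 1 - M) / 2)) :=
    mul_le_mul_of_nonneg_right hAcard (by positivity)
  have h5 : ((g * d + 1 : ℕ) : ℝ) ^ g * (K₂ * W * (1 / 2) ^ ((Nat.log 2 H + 1 - M) / 2)) ≤
      W * ε := by
    have h6 : ((g * d + 1 : ℕ) : ℝ) ^ g * (K₂ * W * (1 / 2) ^ ((Nat.log 2 H + 1 - M) / 2)) =
        W * (((g * d + 1 : ℕ) : ℝ) ^ g * K₂ * (1 / 2) ^ ((Nat.log 2 H + 1 - M) / 2)) := by ring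
    rw [h6]
    exact mul_le_mul_of_nonneg_left hd.le hW0.le
  have h6 : (K₁ * 2 ^ g * X + ε) * W = K₁ * W * X * 2 ^ g + W * ε := by ring
  rw [h6]
  linarith

end Pool.Agent.Helper54.HQ
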