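import Pool.Agent.Helper54.HQ.StU
import Pool.Agent.Helper3.HY.M_Uc

/-!
# HQ, module Un: the inequality in the deep cusp
-/

set_option autoImplicit false

namespace Pool.Agent.Helper54.HQ

open Finset
open Pool.Agent.Helper3.HY (Ix nu rho2)
open Pool.Agent.Helper3.HY.Uc (M M_lt M_g M_ge M_refl)

private lemma cnt1 (c : ℤ) (i g : ℕ) (h : i ≤ g) :
    ∑ k ∈ range g, (if i ≤ k then c else 0) = ((g : ℤ) - i) * c := by
  induction g, h using Nat.le_induction with
  | base =>
    rw [sum_eq_zero, sub_self, zero_mul]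
    intro k hk
    rw [if_neg (not_le.2 (mem_range.1 hk))]
  | succ n hn ih =>
    rw [sum_range_succ, ih, if_pos hn]
    push_cast
    ring

private lemma cnt2 (c : ℤ) (k g : ℕ) (h : k < g) :
    ∑ i ∈ range g, (if i ≤ k then c else 0) = ((k : ℤ) + 1) * c := by
  induction g, h using Nat.le_induction with
  | base =>
    rw [sum_congr rfl (g := fun _ => c), sum_const, card_range, nsmul_eq_mul]
    · push_cast; ring
    · intro i hi
      rw [if_pos (Nat.lt_succ_iff.1 (mem_range.1 hi))]
  | succ n hn ih =>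
    rw [sum_range_succ, ih, if_neg (by omega), add_zero]

private lemma sym_sum (n : ℕ) (x : ℕ → ℤ) (d : ℤ) :
    2 * ∑ a ∈ range n, ∑ b ∈ range n, (if b ≤ a then d + x a + x b else 0) =
      (n : ℤ) * (n + 1) * d + 2 * (n + 1) * ∑ a ∈ range n, x a := by
  have h1 : ∑ a ∈ range n, ∑ b ∈ range n, (if b ≤ a then d + x a + x b else 0) =
      ∑ a ∈ range n, ∑ b ∈ range n, (if a ≤ b then d + x a + x b else 0) := by
    rw [sum_comm]
    refine sum_congr rfl fun a _ => sum_congr rfl fun b _ => ?_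
    split_ifs <;> ring
  have h2 : 2 * ∑ a ∈ range n, ∑ b ∈ range n, (if b ≤ a then d + x a + x b else 0) =
      ∑ a ∈ range n, (∑ b ∈ range n, (d + x a + x b) + (d + 2 * x a)) := by
    rw [two_mul]
    nth_rewrite 2 [h1]
    rw [← sum_add_distrib]
    refine sum_congr rfl fun a ha => ?_
    rw [← sum_add_distrib]
    have h3 : ∀ b ∈ range n, ((if b ≤ a then d + x a + x b else 0) +
        (if a ≤ b then d + x a + x b else 0)) =
        (d + x a + x b) + (if a = b then d + x a + x b else 0) := by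
      intro b _
      rcases lt_trichotomy a b with h | h | h
      · rw [if_neg (by omega), if_pos h.le, if_neg (by omega)]; ring
      · rw [if_pos (by omega), if_pos (by omega), if_pos h]
      · rw [if_pos h.le, if_neg (by omega), if_neg (by omega)]
    rw [sum_congr rfl h3, sum_add_distrib, sum_ite_eq, if_pos ha]
    ring
  rw [h2, sum_add_distrib]
  simp only [sum_add_distrib, sum_const, card_range, nsmul_eq_mul, ← mul_sum]
  ring

private lemma sD_eq (g d : ℕ) (m : Fin g → ℕ) : ((sD g d m : ℕ) : ℤ) =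
    ∑ i ∈ range (2 * g + 1), ∑ j ∈ range (2 * g + 1),
      if i ≤ j ∧ ¬ (i < g ∧ j < g) then max 0 ((d : ℤ) - M g m i - M g m j) else 0 := by
  rw [Finset.sum_range, sD, Nat.cast_sum, Fintype.sum_prod_type]
  refine sum_congr rfl fun i _ => ?_
  rw [Finset.sum_range]
  refine sum_congr rfl fun j _ => ?_
  have h1 : M g m i.1 = -nu g m i := by unfold M; rw [dif_pos i.2]
  have h2 : M g m j.1 = -nu g m j := by unfold M; rw [dif_pos j.2]
  rw [h1, h2]
  by_cases hij : i ≤ j ∧ ¬ ((i : ℕ) < g ∧ (j : ℕ) < g)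
  · rw [if_pos hij, if_pos ⟨Fin.le_def.1 hij.1, hij.2⟩, Int.ofNat_toNat]
    dsimp only
    omega
  · rw [if_neg hij, if_neg (fun h => hij ⟨Fin.le_def.2 h.1, h.2⟩), Nat.cast_zero]

private lemma M_up {g : ℕ} (m : Fin g → ℕ) (t : ℕ) (ht : t ≤ g) :
    M g m (g + t) = -M g m (g - t) := by
  rcases Nat.eq_zero_or_pos t with h | h
  · subst h
    rw [add_zero, Nat.sub_zero, M_g, neg_zero]
  · have h1 : g + t = 2 * g - (g - t) := by omega
    rw [h1, M_refl m _ (by omega)]

/-- the rows `i < g` -/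
private lemma row_lo {g : ℕ} (d : ℕ) (m : Fin g → ℕ) (i : ℕ) (hi : i < g) :
    ∑ j ∈ range (2 * g + 1),
      (if i ≤ j ∧ ¬ (i < g ∧ j < g) then max 0 ((d : ℤ) - M g m i - M g m j) else 0) =
    ∑ k ∈ range (g + 1), max 0 ((d : ℤ) - M g m i + M g m k) := by
  have e1 : 2 * g + 1 = g + (g + 1) := by omega
  rw [e1, sum_range_add]
  have h1 : ∑ x ∈ range g, (if i ≤ x ∧ ¬ (i < g ∧ x < g) then
      max 0 ((d : ℤ) - M g m i - M g m x) else 0) = 0 := by
    refine sum_eq_zero fun x hx => ?_
    rw [if_neg]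
    rintro ⟨_, h2⟩
    exact h2 ⟨hi, mem_range.1 hx⟩
  rw [h1, zero_add, ← sum_range_reflect (fun k => max 0 ((d : ℤ) - M g m i + M g m k))]
  refine sum_congr rfl fun t ht => ?_
  have ht := mem_range.1 ht
  rw [if_pos ⟨by omega, by omega⟩, M_up m t (by omega)]
  have h2 : g + 1 - 1 - t = g - t := by omega
  rw [h2]
  congr 1
  ring

/-- the rows `g + s` -/
private lemma row_hi {g : ℕ} (d : ℕ) (m : Fin g → ℕ) (s : ℕ) (hs : s ≤ g) :
    ∑ j ∈ range (2 * g + 1),
      (if g + s ≤ j ∧ ¬ (g + s < g ∧ j < g) then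
        max 0 ((d : ℤ) - M g m (g + s) - M g m j) else 0) =
    ∑ b ∈ range (g + 1), (if b ≤ g - s then (d : ℤ) + M g m (g - s) + M g m b else 0) := by
  have e1 : 2 * g + 1 = g + (g + 1) := by omega
  rw [e1, sum_range_add]
  have h1 : ∑ x ∈ range g, (if g + s ≤ x ∧ ¬ (g + s < g ∧ x < g) then
      max 0 ((d : ℤ) - M g m (g + s) - M g m x) else 0) = 0 := by
    refine sum_eq_zero fun x hx => ?_
    have := mem_range.1 hx
    rw [if_neg]
    rintro ⟨h2, _⟩
    omega
  rw [h1, zero_add, ← sum_range_reflect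
    (fun b => if b ≤ g - s then (d : ℤ) + M g m (g - s) + M g m b else 0)]
  refine sum_congr rfl fun t ht => ?_
  have ht := mem_range.1 ht
  have h2 : g + 1 - 1 - t = g - t := by omega
  rw [h2]
  by_cases hst : s ≤ t
  · rw [if_pos ⟨by omega, by omega⟩, if_pos (by omega), M_up m t (by omega), M_up m s hs]
    have h3 : 0 ≤ M g m (g - s) := by
      have := M_ge m (g + s) (by omega)
      rw [M_up m s hs] at this
      omega
    have h4 : 0 ≤ M g m (g - t) := by
      have := M_ge m (g + t) (by omega)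
      rw [M_up m t (by omega)] at this
      omega
    rw [max_eq_right (by omega)]
    ring
  · rw [if_neg (by omega), if_neg (by omega)]

theorem hUn : StUn := by
  intro g d m hadm
  obtain ⟨hanti, hlast, hstep⟩ := hadm
  set x : ℕ → ℤ := M g m with hx
  have hxg : x g = 0 := M_g m
  have hxm : ∀ i : Fin g, x i = m i := fun i => M_lt m i i.2
  have hx_anti : ∀ i j : ℕ, i ≤ j → j ≤ g → x j ≤ x i := by
    intro i j hij hj
    rcases Nat.lt_or_ge j g with h | h
    · rw [hx, M_lt m j h, M_lt m i (by omega)]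
      exact_mod_cast hanti (by rw [Fin.le_def]; exact hij)
    · have hjg : j = g := by omega
      rw [hjg, hxg]
      rcases Nat.lt_or_ge i g with h2 | h2
      · rw [hx, M_lt m i h2]; exact Int.natCast_nonneg _
      · rw [show i = g by omega, hxg]
  have hx_step : ∀ k : ℕ, k < g → x k ≤ x (k + 1) + d := by
    intro k hk
    rcases Nat.lt_or_ge (k + 1) g with h | h
    · rw [hx, M_lt m k hk, M_lt m (k + 1) h]
      exact_mod_cast hstep ⟨k, hk⟩ ⟨k + 1, h⟩ rfl
    · have h1 : k + 1 = g := by omega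
      rw [h1, hxg, hx, M_lt m k hk]
      have := hlast ⟨k, hk⟩ h1
      simp only [zero_add]
      exact_mod_cast this
  -- the sums
  have hX : ∑ i : Fin g, (m i : ℤ) = ∑ i ∈ range g, x i := by
    rw [Finset.sum_range]
    exact sum_congr rfl fun i _ => (hxm i).symm
  have hR : ((rho2 g m : ℕ) : ℤ) = (2 * g - 1) * ∑ i ∈ range g, x i -
      2 * ∑ i ∈ range g, (i : ℤ) * x i := by
    rw [rho2, Nat.cast_sum, mul_sum, mul_sum, ← sum_sub_distrib, Finset.sum_range]
    refine sum_congr rfl fun i _ => ?_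
    rw [hxm i, Nat.cast_mul, Nat.sub_sub, Nat.cast_sub (by have := i.2; omega)]
    push_cast
    ring
  -- rows
  have hrow : ∀ i ∈ range g, ∑ k ∈ range (g + 1), max 0 ((d : ℤ) - x i + x k) ≤
      ∑ k ∈ range (g + 1), ((d : ℤ) - x i + x k) +
        ∑ k ∈ range g, (if i ≤ k then x i - x k else 0) := by
    intro i hi
    have hi := mem_range.1 hi
    have h1 : ∑ k ∈ range (g + 1), (if i < k then x i - x (k - 1) else 0) =
        ∑ k ∈ range g, (if i ≤ k then x i - x k else 0) := by
      rw [sum_range_succ', if_neg (by omega), add_zero]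
      refine sum_congr rfl fun k _ => ?_
      by_cases h : i ≤ k
      · rw [if_pos (by omega), if_pos h, Nat.add_sub_cancel]
      · rw [if_neg (by omega), if_neg h]
    rw [← h1, ← sum_add_distrib]
    refine sum_le_sum fun k hk => ?_
    have hk := mem_range.1 hk
    by_cases h : i < k
    · rw [if_pos h]
      have h2 := hx_step (k - 1) (by omega)
      rw [show k - 1 + 1 = k by omega] at h2
      have h3 := hx_anti i (k - 1) (by omega) (by omega)
      have h4 := hx_anti (k - 1) k (by omega) (by omega)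
      rcases le_total 0 ((d : ℤ) - x i + x k) with h5 | h5
      · rw [max_eq_right h5]; omega
      · rw [max_eq_left h5]; omega
    · rw [if_neg h, add_zero]
      have h3 := hx_anti k i (by omega) (by omega)
      rw [max_eq_right (by omega)]
  have hD : ∑ i ∈ range g, ∑ k ∈ range g, (if i ≤ k then x i - x k else 0) =
      (g - 1) * ∑ i ∈ range g, x i - 2 * ∑ i ∈ range g, (i : ℤ) * x i := by
    have h1 : ∑ i ∈ range g, ∑ k ∈ range g, (if i ≤ k then x i - x k else 0) =
        ∑ i ∈ range g, ∑ k ∈ range g, (if i ≤ k then x i else 0) -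
          ∑ i ∈ range g, ∑ k ∈ range g, (if i ≤ k then x k else 0) := by
      rw [← sum_sub_distrib]
      refine sum_congr rfl fun i _ => ?_
      rw [← sum_sub_distrib]
      refine sum_congr rfl fun k _ => ?_
      split_ifs <;> ring
    have h2 : ∑ i ∈ range g, ∑ k ∈ range g, (if i ≤ k then x i else 0) =
        ∑ i ∈ range g, ((g : ℤ) - i) * x i :=
      sum_congr rfl fun i hi => cnt1 _ _ _ (mem_range.1 hi).le
    have h3 : ∑ i ∈ range g, ∑ k ∈ range g, (if i ≤ k then x k else 0) =
        ∑ k ∈ range g, ((k : ℤ) + 1) * x k := by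
      rw [sum_comm]
      exact sum_congr rfl fun k hk => cnt2 _ _ _ (mem_range.1 hk)
    rw [h1, h2, h3, ← sum_sub_distrib, mul_sum, mul_sum, ← sum_sub_distrib]
    refine sum_congr rfl fun i _ => ?_
    ring
  have hlow : ∑ i ∈ range g, ∑ k ∈ range (g + 1), ((d : ℤ) - x i + x k) =
      g * (g + 1) * d - ∑ i ∈ range g, x i := by
    have h1 : ∑ k ∈ range (g + 1), x k = ∑ k ∈ range g, x k := by
      rw [sum_range_succ, hxg, add_zero]
    simp only [sum_add_distrib, sum_sub_distrib, sum_const, card_range, nsmul_eq_mul, h1,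
      ← mul_sum]
    push_cast
    ring
  have hhigh : 2 * ∑ s ∈ range (g + 1), ∑ b ∈ range (g + 1),
      (if b ≤ g - s then (d : ℤ) + x (g - s) + x b else 0) =
      (g + 1) * (g + 2) * d + 2 * (g + 2) * ∑ i ∈ range g, x i := by
    have h1 : ∑ s ∈ range (g + 1), ∑ b ∈ range (g + 1),
        (if b ≤ g - s then (d : ℤ) + x (g - s) + x b else 0) =
        ∑ a ∈ range (g + 1), ∑ b ∈ range (g + 1), (if b ≤ a then (d : ℤ) + x a + x b else 0) := by
      rw [← sum_range_reflect (fun a => ∑ b ∈ range (g + 1),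
        (if b ≤ a then (d : ℤ) + x a + x b else 0))]
      refine sum_congr rfl fun s _ => ?_
      have h2 : g + 1 - 1 - s = g - s := by omega
      rw [h2]
    have h3 : ∑ k ∈ range (g + 1), x k = ∑ k ∈ range g, x k := by
      rw [sum_range_succ, hxg, add_zero]
    rw [h1, sym_sum, h3]
    push_cast
    ring
  have hsD : ((sD g d m : ℕ) : ℤ) = ∑ i ∈ range g, ∑ k ∈ range (g + 1),
      max 0 ((d : ℤ) - x i + x k) + ∑ s ∈ range (g + 1), ∑ b ∈ range (g + 1),
      (if b ≤ g - s then (d : ℤ) + x (g - s) + x b else 0) := by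
    rw [sD_eq]
    nth_rewrite 1 [show 2 * g + 1 = g + (g + 1) by omega]
    rw [sum_range_add]
    congr 1
    · exact sum_congr rfl fun i hi => row_lo d m i (mem_range.1 hi)
    · exact sum_congr rfl fun s hs => row_hi d m s (Nat.lt_succ_iff.1 (mem_range.1 hs))
  have hle := sum_le_sum hrow
  rw [sum_add_distrib, hlow, hD] at hle
  have hpar : 2 * ((g * (g + 1) / 2 : ℕ) : ℤ) = g * (g + 1) := by
    have h1 : 2 * (g * (g + 1) / 2) = g * (g + 1) :=
      Nat.mul_div_cancel' (Nat.even_mul_succ_self g).two_dvd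
    exact_mod_cast h1
  rw [hX, hR, hsD]
  set X : ℤ := ∑ i ∈ range g, x i
  set Y : ℤ := ∑ i ∈ range g, (i : ℤ) * x i
  set S1 : ℤ := ∑ i ∈ range g, ∑ k ∈ range (g + 1), max 0 ((d : ℤ) - x i + x k)
  set S2 : ℤ := ∑ s ∈ range (g + 1), ∑ b ∈ range (g + 1),
      (if b ≤ g - s then (d : ℤ) + x (g - s) + x b else 0)
  set q : ℤ := ((g * (g + 1) / 2 : ℕ) : ℤ)
  have hq : (d : ℤ) * (2 * q) = d * (g * (g + 1)) := by rw [hpar]
  nlinarith [hle, hhigh, hq]

end Pool.Agent.Helper54.HQ
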