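import Pool.Agent.Helper54.HQ.M_Uf

/-!
# HQ, module Uo: the number of pairs in the deep cusp
-/

set_option autoImplicit false

namespace Pool.Agent.Helper54.HQ

open Polynomial Finset Filter Topology Matrix IsDedekindDomain
open Pool.Agent.Helper3.HY (co tau Ix nu TType IType rho2 exc Adm Gm)
open Pool.Agent.Helper3
open Pool.Agent.Helper3.HY.MUh (Up up up_inj card_Up)

theorem hUo : StUo := by
  intro g C H κ m hC hH hκ
  classical
  set d := Nat.log 2 H + κ with hd
  have hH2 : (H : ℝ) ≤ (2 : ℝ) ^ (d : ℤ) := by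
    have h1 : H < 2 ^ (Nat.log 2 H).succ := Nat.lt_pow_succ_log_self (by norm_num) H
    have h2 : (2 : ℕ) ^ (Nat.log 2 H).succ ≤ 2 ^ d :=
      Nat.pow_le_pow_right (by norm_num) (by omega)
    have h3 : (H : ℝ) ≤ ((2 ^ d : ℕ) : ℝ) := by exact_mod_cast (h1.le.trans h2)
    rw [zpow_natCast]
    push_cast at h3
    exact h3
  -- the exponents for the second matrix; a negative number if the entry vanishes
  set f : Up g → ℤ := fun i => if (i.1.1 : ℕ) < g ∧ (i.1.2 : ℕ) < g then 0 else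
    (d : ℤ) + nu g m i.1.1 + nu g m i.1.2 with hf
  have hsD : (∑ i : Up g, (f i).toNat) = sD g d m := by
    have h1 : ∀ i : Up g, (f i).toNat = (fun p : Ix g × Ix g =>
        if (p.1 : ℕ) < g ∧ (p.2 : ℕ) < g then 0 else
          ((d : ℤ) + nu g m p.1 + nu g m p.2).toNat) i.1 := by
      intro i
      simp only [hf]
      split_ifs <;> simp
    rw [sum_congr rfl fun i _ => h1 i, sum_Uf fun p : Ix g × Ix g =>
      if (p.1 : ℕ) < g ∧ (p.2 : ℕ) < g then 0 else ((d : ℤ) + nu g m p.1 + nu g m p.2).toNat]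
    unfold sD
    refine sum_congr rfl fun p _ => ?_
    by_cases h2 : p.1 ≤ p.2
    · by_cases h3 : (p.1 : ℕ) < g ∧ (p.2 : ℕ) < g
      · rw [if_pos h2, if_pos h3, if_neg (fun h => h.2 h3)]
      · rw [if_pos h2, if_neg h3, if_pos ⟨h2, h3⟩]
    · rw [if_neg h2, if_neg (fun h => h2 h.1)]
  have hsB : (∑ i : Up g, (nu g m i.1.1 + nu g m i.1.2).toNat) = sB g m := by
    rw [sum_Uf fun p : Ix g × Ix g => (nu g m p.1 + nu g m p.2).toNat]
    rfl
  have key := pair_Uf (g := g) C hC (fun i => C * (2 : ℝ) ^ (nu g m i.1.1 + nu g m i.1.2))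
    (fun i => if (i.1.1 : ℕ) < g ∧ (i.1.2 : ℕ) < g then 0 else
      C * H * (2 : ℝ) ^ (nu g m i.1.1 + nu g m i.1.2))
    (fun i => nu g m i.1.1 + nu g m i.1.2) f
    (fun i => by positivity)
    (fun i => by
      split_ifs
      · exact le_rfl
      · positivity)
    (fun i => le_rfl)
    (fun i => by
      simp only [hf]
      split_ifs with h
      · rw [zpow_zero, mul_one]
        exact hC
      · have h1 : (2 : ℝ) ^ ((d : ℤ) + nu g m i.1.1 + nu g m i.1.2) =
            (2 : ℝ) ^ (d : ℤ) * (2 : ℝ) ^ (nu g m i.1.1 + nu g m i.1.2) := by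
          rw [← zpow_add₀ (by norm_num)]
          congr 1
          ring
        rw [h1, mul_assoc]
        refine mul_le_mul_of_nonneg_left ?_ hC
        exact mul_le_mul_of_nonneg_right hH2 (by positivity))
    (PD g C H m)
    (fun p hp => ⟨⟨hp.1.symB, fun q => hp.1.bB _ _⟩, ⟨hp.1.symA, fun q => by
      split_ifs with h
      · rw [(hp.2 _ _ h.1 h.2).2]
        simp
      · exact hp.1.bA _ _⟩⟩)
  refine key.2.trans (le_of_eq ?_)
  rw [hsB, hsD]

end Pool.Agent.Helper54.HQ
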