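import Pool.Agent.Helper54.HQ.StU

/-!
# HQ: the deep cusp, summation (module Up)
-/

set_option autoImplicit false

namespace Pool.Agent.Helper54.HQ

open Polynomial Finset Filter Topology Matrix IsDedekindDomain
open Pool.Agent.Helper3.HY (co tau Ix nu TType IType rho2 exc Adm Gm)
open Pool.Agent.Helper3

private theorem DAdm_mono_Up {g d d' : ℕ} {m : Fin g → ℕ} (h : DAdm g d m) (hd : d ≤ d') :
    DAdm g d' m :=
  ⟨h.1, fun i hi => (h.2.1 i hi).trans hd, fun i j hij => (h.2.2 i j hij).trans (by omega)⟩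

private theorem DAdm_le_Up {g d : ℕ} {m : Fin g → ℕ} (h : DAdm g d m) :
    ∀ (k : ℕ) (i : Fin g), (i : ℕ) + k + 1 = g → m i ≤ (g - i) * d
  | 0, i, hi => by
      have h1 := h.2.1 i (by omega)
      have h2 : g - (i : ℕ) = 1 := by omega
      rw [h2, one_mul]
      exact h1
  | k + 1, i, hi => by
      have hj : (i : ℕ) + 1 < g := by omega
      have h1 := h.2.2 i ⟨i + 1, hj⟩ rfl
      have h2 := DAdm_le_Up h k ⟨i + 1, hj⟩ (by simp only; omega)
      simp only at h2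
      have h3 : g - (i : ℕ) = (g - (i + 1)) + 1 := by omega
      rw [h3, add_mul, one_mul]
      omega

private theorem sum_Up (g : ℕ) : ∑ i : Fin g, (g - (i : ℕ)) = g * (g + 1) / 2 := by
  rw [Fin.sum_univ_eq_sum_range (fun i => g - i) g]
  have key : ∀ g : ℕ, 2 * ∑ i ∈ range g, (g - i) = g * (g + 1) := by
    intro g
    induction g with
    | zero => simp
    | succ g ih =>
      rw [Finset.sum_range_succ', mul_add]
      have h1 : ∑ k ∈ range g, (g + 1 - (k + 1)) = ∑ k ∈ range g, (g - k) := by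
        apply Finset.sum_congr rfl
        intro k _
        omega
      rw [h1, ih]
      simp only [tsub_zero]
      ring
  rw [← key g]
  omega

private theorem one_Up (h1 : StUj) (h2 : StUd) (h3 : StUb) (h4 : StUn) (h5 : StUo) (h6 : StUf)
    (g : ℕ) (hg : 1 ≤ g) (C : ℝ) (hC : 0 ≤ C) (κ H : ℕ) (hκ : 1 ≤ κ) (hH : 1 ≤ H) (m : Fin g → ℕ)
    (hm : DAdm g (Nat.log 2 H + κ) m) (μ : ℕ)
    (hμ : μ + ∑ i, m i = (Nat.log 2 H + κ) * (g * (g + 1) / 2)) :
    (DeepM g C H m).Finite ∧ ((DeepM g C H m).ncard : ℝ) * 2 ^ μ ≤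
      (2 * ((2 * g + 1) ^ 2 * C) + 1) ^ (2 * ((g + 1) * (2 * g + 1))) *
        2 ^ ((Nat.log 2 H + κ) * ((g + 1) * (2 * g + 1))) := by
  have hC' : 0 ≤ (2 * (g : ℝ) + 1) ^ 2 * C := by positivity
  have hfin : (PD g ((2 * (g : ℝ) + 1) ^ 2 * C) H m).Finite :=
    (h6 g _ H m hC' hH).1.subset fun p hp => hp.1
  obtain ⟨h7, h8⟩ := h1 g hg m hm.1 (PD g C H m) (PD g ((2 * (g : ℝ) + 1) ^ 2 * C) H m) hfin
    (fun p hp => ⟨hp.1.symB, hp.1.symA, hp.1.det⟩) (fun p hp u hu => by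
      have h9 := h2 g C H m hC (by positivity) ∅ p u hu
      exact ⟨h9.1 hp.1, h9.2.2.1 hp.2⟩)
  have hsub : DeepM g C H m ⊆ {f : ℤ[X] | Irreducible (fK f) ∧ ∃ p ∈ PD g C H m, IsChi p f} := by
    rintro f ⟨_, _, hf3, p, hp1, hp2, hp3⟩
    exact ⟨hf3, p, ⟨hp1, hp2⟩, hp3⟩
  refine ⟨h7.subset hsub, ?_⟩
  have h10 := Set.ncard_le_ncard hsub h7
  have h11 := h5 g ((2 * (g : ℝ) + 1) ^ 2 * C) H κ m hC' hH hκ
  have h12 := h4 g (Nat.log 2 H + κ) m hm
  have h13 := h3 g m hm.1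
  have h14 : sD g (Nat.log 2 H + κ) m + μ ≤
      (Nat.log 2 H + κ) * ((g + 1) * (2 * g + 1)) + rho2 g m := by
    zify at hμ ⊢
    push_cast at h12
    linarith
  have h15 : ((DeepM g C H m).ncard : ℝ) * 2 ^ ups g m ≤
      (2 * ((2 * g + 1) ^ 2 * C) + 1) ^ (2 * ((g + 1) * (2 * g + 1))) *
        2 ^ (sB g m + sD g (Nat.log 2 H + κ) m) := by
    refine le_trans ?_ h11
    have h16 : (DeepM g C H m).ncard * 2 ^ ups g m ≤
        (PD g ((2 * (g : ℝ) + 1) ^ 2 * C) H m).ncard :=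
      (Nat.mul_le_mul_right _ h10).trans h8
    exact_mod_cast h16
  rw [h13, pow_add, pow_add, ← mul_assoc] at h15
  have hB : (0 : ℝ) < 2 ^ sB g m := by positivity
  have hR : (0 : ℝ) < 2 ^ rho2 g m := by positivity
  set K : ℝ := (2 * ((2 * g + 1) ^ 2 * C) + 1) ^ (2 * ((g + 1) * (2 * g + 1))) with hK
  have hK0 : 0 ≤ K := by rw [hK]; positivity
  have h17 : ((DeepM g C H m).ncard : ℝ) * 2 ^ rho2 g m ≤
      K * 2 ^ sD g (Nat.log 2 H + κ) m := by
    have : (((DeepM g C H m).ncard : ℝ) * 2 ^ rho2 g m) * 2 ^ sB g m ≤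
        (K * 2 ^ sD g (Nat.log 2 H + κ) m) * 2 ^ sB g m := by nlinarith [h15]
    exact le_of_mul_le_mul_right this hB
  have h18 : (((DeepM g C H m).ncard : ℝ) * 2 ^ μ) * 2 ^ rho2 g m ≤
      (K * 2 ^ ((Nat.log 2 H + κ) * ((g + 1) * (2 * g + 1)))) * 2 ^ rho2 g m := by
    calc (((DeepM g C H m).ncard : ℝ) * 2 ^ μ) * 2 ^ rho2 g m
        = (((DeepM g C H m).ncard : ℝ) * 2 ^ rho2 g m) * 2 ^ μ := by ring
      _ ≤ (K * 2 ^ sD g (Nat.log 2 H + κ) m) * 2 ^ μ := by gcongr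
      _ = K * 2 ^ (sD g (Nat.log 2 H + κ) m + μ) := by rw [pow_add]; ring
      _ ≤ K * 2 ^ ((Nat.log 2 H + κ) * ((g + 1) * (2 * g + 1)) + rho2 g m) := by
          gcongr
          norm_num
      _ = (K * 2 ^ ((Nat.log 2 H + κ) * ((g + 1) * (2 * g + 1)))) * 2 ^ rho2 g m := by
          rw [pow_add]; ring
  exact le_of_mul_le_mul_right h18 hR

/-- Up (the deep cusp). -/
theorem hUp (h1 : StUj) (h2 : StUd) (h3 : StUb) (h4 : StUn) (h5 : StUo) (h6 : StUf) :
    StDeep := by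
  classical
  intro g hg C κ hC
  set r : ℝ := 1 / √2 with hr
  have h2pos : (0 : ℝ) < √2 := by positivity
  have hr0 : 0 < r := by rw [hr]; positivity
  have hrr : r * r = 1 / 2 := by
    rw [hr]
    field_simp
    rw [Real.sq_sqrt (by norm_num)]
  have hr1 : r < 1 := by nlinarith
  set K : ℝ := (2 * ((2 * g + 1) ^ 2 * C) + 1) ^ (2 * ((g + 1) * (2 * g + 1))) with hK
  have hK0 : 0 ≤ K := by rw [hK]; positivity
  refine ⟨K * (2 ^ (κ + 1)) ^ ((g + 1) * (2 * g + 1)) * (√C * (1 / (1 - r)) ^ g) + 1, ?_, ?_⟩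
  · have : 0 ≤ 1 / (1 - r) := by
      apply div_nonneg zero_le_one
      linarith
    positivity
  intro M hM H hH
  set d : ℕ := Nat.log 2 H + (κ + 1) with hd
  set L : Fin g → ℕ := fun i => (g - (i : ℕ)) * d with hL
  set S : Finset (Fin g → ℕ) := (Fintype.piFinset fun i => range (L i + 1)).filter fun m =>
    DAdm g d m ∧ (M : ℝ) * 2 ^ (∑ i, m i) ≤ C * (H : ℝ) ^ (g * (g + 1) / 2) with hS
  have hle : ∀ m, DAdm g d m → ∀ i, m i ≤ L i := by
    intro m hm i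
    exact DAdm_le_Up hm (g - 1 - i) i (by have := i.2; omega)
  have hLs : ∑ i, L i = d * (g * (g + 1) / 2) := by
    rw [hL, ← Finset.sum_mul, sum_Up, mul_comm]
  have hsub : DeepSet g C κ H M ⊆ ⋃ m ∈ S, DeepM g C H m := by
    rintro f ⟨m, hm1, hm2, hm3⟩
    have hm1' : DAdm g d m := DAdm_mono_Up hm1 (by omega)
    rw [Set.mem_iUnion₂]
    refine ⟨m, ?_, hm3⟩
    rw [hS, Finset.mem_filter, Fintype.mem_piFinset]
    refine ⟨fun i => ?_, hm1', hm2⟩
    rw [Finset.mem_range]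
    have := hle m hm1' i
    omega
  -- one type
  have hone : ∀ m ∈ S, (DeepM g C H m).Finite ∧
      √(M : ℝ) * ((DeepM g C H m).ncard : ℝ) ≤
        K * 2 ^ (d * ((g + 1) * (2 * g + 1))) * √C * ∏ i, r ^ (L i - m i) := by
    intro m hm
    rw [hS, Finset.mem_filter, Fintype.mem_piFinset] at hm
    obtain ⟨hm0, hm1, hm2⟩ := hm
    have hmL := hle m hm1
    set μ : ℕ := ∑ i, (L i - m i) with hμ
    have hμs : μ + ∑ i, m i = d * (g * (g + 1) / 2) := by
      rw [← hLs, hμ, ← Finset.sum_add_distrib]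
      apply Finset.sum_congr rfl
      intro i _
      have := hmL i
      omega
    obtain ⟨h7, h8⟩ := one_Up h1 h2 h3 h4 h5 h6 g hg C hC (κ + 1) H (by omega) hH m hm1 μ hμs
    refine ⟨h7, ?_⟩
    rw [Finset.prod_pow_eq_pow_sum, ← hμ]
    -- `M ≤ C 2 ^ μ`
    have hHd : (H : ℝ) ≤ 2 ^ d := by
      have h9 : H < 2 ^ (Nat.log 2 H + 1) := Nat.lt_pow_succ_log_self (by norm_num) H
      have h10 : 2 ^ (Nat.log 2 H + 1) ≤ 2 ^ d := Nat.pow_le_pow_right (by norm_num) (by omega)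
      exact_mod_cast (h9.le.trans h10)
    have hMC : (M : ℝ) ≤ C * 2 ^ μ := by
      have h11 : (M : ℝ) * 2 ^ (∑ i, m i) ≤ (C * 2 ^ μ) * 2 ^ (∑ i, m i) := by
        calc (M : ℝ) * 2 ^ (∑ i, m i) ≤ C * (H : ℝ) ^ (g * (g + 1) / 2) := hm2
          _ ≤ C * (2 ^ d) ^ (g * (g + 1) / 2) := by gcongr
          _ = (C * 2 ^ μ) * 2 ^ (∑ i, m i) := by
              rw [mul_assoc, ← pow_add, hμs, pow_mul]
      exact le_of_mul_le_mul_right h11 (by positivity)
    have hs : √(M : ℝ) * r ^ μ ≤ √C := by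
      have h12 : √(M : ℝ) ≤ √C * (√2) ^ μ := by
        have h13 : √(C * 2 ^ μ) = √C * (√2) ^ μ := by
          rw [Real.sqrt_mul hC]
          congr 1
          rw [Real.sqrt_eq_iff_mul_self_eq (by positivity) (by positivity), ← mul_pow,
            Real.mul_self_sqrt (by norm_num)]
        rw [← h13]
        exact Real.sqrt_le_sqrt hMC
      have h14 : (√2 : ℝ) ^ μ * r ^ μ = 1 := by
        rw [← mul_pow, hr, mul_one_div_cancel h2pos.ne', one_pow]
      calc √(M : ℝ) * r ^ μ ≤ (√C * (√2) ^ μ) * r ^ μ := by gcongr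
        _ = √C * ((√2) ^ μ * r ^ μ) := by ring
        _ = √C := by rw [h14, mul_one]
    have h15 : (2 : ℝ) ^ μ * (r ^ μ * r ^ μ) = 1 := by
      rw [← mul_pow, hrr, ← mul_pow]
      norm_num
    have h16 : ((DeepM g C H m).ncard : ℝ) ≤
        K * 2 ^ (d * ((g + 1) * (2 * g + 1))) * (r ^ μ * r ^ μ) := by
      calc ((DeepM g C H m).ncard : ℝ)
          = (((DeepM g C H m).ncard : ℝ) * 2 ^ μ) * (r ^ μ * r ^ μ) := by
            rw [mul_assoc, h15, mul_one]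
        _ ≤ (K * 2 ^ (d * ((g + 1) * (2 * g + 1)))) * (r ^ μ * r ^ μ) := by gcongr
    calc √(M : ℝ) * ((DeepM g C H m).ncard : ℝ)
        ≤ √(M : ℝ) * (K * 2 ^ (d * ((g + 1) * (2 * g + 1))) * (r ^ μ * r ^ μ)) := by gcongr
      _ = (K * 2 ^ (d * ((g + 1) * (2 * g + 1)))) * (√(M : ℝ) * r ^ μ) * r ^ μ := by ring
      _ ≤ (K * 2 ^ (d * ((g + 1) * (2 * g + 1)))) * √C * r ^ μ := by gcongr
  have hfin : (⋃ m ∈ S, DeepM g C H m).Finite :=
    Set.Finite.biUnion S.finite_toSet fun m hm => (hone m hm).1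
  refine ⟨hfin.subset hsub, ?_⟩
  have hcard : ((DeepSet g C κ H M).ncard : ℝ) ≤ ∑ m ∈ S, ((DeepM g C H m).ncard : ℝ) := by
    have h17 := Set.ncard_le_ncard hsub hfin
    have h18 := Finset.set_ncard_biUnion_le S fun m => DeepM g C H m
    exact_mod_cast h17.trans h18
  have hgeo : ∀ n : ℕ, ∑ k ∈ range (n + 1), r ^ (n - k) ≤ 1 / (1 - r) := by
    intro n
    have h19 : ∑ k ∈ range (n + 1), r ^ (n - k) = ∑ k ∈ range (n + 1), r ^ k := by
      rw [← Finset.sum_range_reflect (fun k => r ^ k) (n + 1)]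
      apply Finset.sum_congr rfl
      intro k hk
      congr 1
    rw [h19, le_div_iff₀ (by linarith), geom_sum_mul_neg]
    have : 0 ≤ r ^ (n + 1) := by positivity
    linarith
  have hprod : ∑ m ∈ S, ∏ i, r ^ (L i - m i) ≤ (1 / (1 - r)) ^ g := by
    calc ∑ m ∈ S, ∏ i, r ^ (L i - m i)
        ≤ ∑ m ∈ Fintype.piFinset fun i => range (L i + 1), ∏ i, r ^ (L i - m i) := by
          apply Finset.sum_le_sum_of_subset_of_nonneg (Finset.filter_subset _ _)
          intro m _ _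
          positivity
      _ = ∏ i, ∑ k ∈ range (L i + 1), r ^ (L i - k) :=
          (Finset.prod_univ_sum (fun i => range (L i + 1)) (fun i k => r ^ (L i - k))).symm
      _ ≤ ∏ _i : Fin g, (1 / (1 - r)) := by
          apply Finset.prod_le_prod
          · intro i _
            positivity
          · intro i _
            exact hgeo (L i)
      _ = (1 / (1 - r)) ^ g := by simp
  have hMpos : 0 < √(M : ℝ) := by
    rw [Real.sqrt_pos]
    exact_mod_cast hM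
  have h2d : (2 : ℝ) ^ (d * ((g + 1) * (2 * g + 1))) ≤
      (2 ^ (κ + 1)) ^ ((g + 1) * (2 * g + 1)) * (H : ℝ) ^ ((g + 1) * (2 * g + 1)) := by
    rw [pow_mul, ← mul_pow]
    apply pow_le_pow_left₀ (by positivity)
    rw [hd, pow_add, mul_comm]
    have h20 : (2 : ℝ) ^ Nat.log 2 H ≤ H := by
      exact_mod_cast Nat.pow_log_le_self 2 (by omega)
    gcongr
  have hmain : √(M : ℝ) * ((DeepSet g C κ H M).ncard : ℝ) ≤
      K * (2 ^ (κ + 1)) ^ ((g + 1) * (2 * g + 1)) * (√C * (1 / (1 - r)) ^ g) *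
        (H : ℝ) ^ ((g + 1) * (2 * g + 1)) := by
    calc √(M : ℝ) * ((DeepSet g C κ H M).ncard : ℝ)
        ≤ √(M : ℝ) * ∑ m ∈ S, ((DeepM g C H m).ncard : ℝ) := by gcongr
      _ = ∑ m ∈ S, √(M : ℝ) * ((DeepM g C H m).ncard : ℝ) := by rw [Finset.mul_sum]
      _ ≤ ∑ m ∈ S, K * 2 ^ (d * ((g + 1) * (2 * g + 1))) * √C * ∏ i, r ^ (L i - m i) :=
          Finset.sum_le_sum fun m hm => (hone m hm).2
      _ = K * 2 ^ (d * ((g + 1) * (2 * g + 1))) * √C * ∑ m ∈ S, ∏ i, r ^ (L i - m i) := by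
          rw [Finset.mul_sum]
      _ ≤ K * 2 ^ (d * ((g + 1) * (2 * g + 1))) * √C * (1 / (1 - r)) ^ g := by gcongr
      _ ≤ K * ((2 ^ (κ + 1)) ^ ((g + 1) * (2 * g + 1)) * (H : ℝ) ^ ((g + 1) * (2 * g + 1))) *
            √C * (1 / (1 - r)) ^ g := by
          have : 0 ≤ 1 / (1 - r) := by
            apply div_nonneg zero_le_one
            linarith
          gcongr
      _ = _ := by ring
  rw [div_mul_eq_mul_div, le_div_iff₀ hMpos, mul_comm]
  refine hmain.trans ?_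
  have : 0 ≤ (H : ℝ) ^ ((g + 1) * (2 * g + 1)) := by positivity
  nlinarith

end Pool.Agent.Helper54.HQ
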