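import Pool.Agent.Helper54.HQ.StF

/-! HQ, module F-Up0: upper bound for the number of polynomials. -/

set_option autoImplicit false

namespace Pool.Agent.Helper54.HQ

open Polynomial Finset Filter Topology Matrix IsDedekindDomain

private theorem gauss_Up0 : ∀ n : ℕ, 2 * (∑ i ∈ range n, (n + 1 - i) + 1) = (n + 1) * (n + 2)
  | 0 => by simp
  | n + 1 => by
    have h := gauss_Up0 n
    rw [sum_range_succ']
    have e : ∑ i ∈ range n, (n + 1 + 1 - (i + 1)) = ∑ i ∈ range n, (n + 1 - i) :=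
      sum_congr rfl fun i _ => by omega
    rw [e]
    have : (n + 1 + 1) * (n + 1 + 2) = (n + 1) * (n + 2) + 2 * (n + 2) := by ring
    rw [this, ← h]
    omega

private theorem inj_Up0 (g H : ℕ) :
    Set.InjOn (fun f : ℤ[X] => fun i : Fin (2 * g) => f.coeff i) (Fam0 (2 * g + 1) H) := by
  rintro f ⟨⟨hf1, hf2, _⟩, hf3⟩ h ⟨⟨hh1, hh2, _⟩, hh3⟩ he
  have hf1' : f.coeff (2 * g + 1) = 1 := by
    have := hf1.coeff_natDegree
    rwa [hf2] at this
  have hh1' : h.coeff (2 * g + 1) = 1 := by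
    have := hh1.coeff_natDegree
    rwa [hh2] at this
  have hf3' : f.coeff (2 * g) = 0 := hf3
  have hh3' : h.coeff (2 * g) = 0 := hh3
  ext n
  rcases lt_trichotomy n (2 * g) with hn | hn | hn
  · exact congrFun he ⟨n, hn⟩
  · rw [hn, hf3', hh3']
  · rcases Nat.lt_or_ge (2 * g + 1) n with h1 | h1
    · rw [coeff_eq_zero_of_natDegree_lt (by omega), coeff_eq_zero_of_natDegree_lt (by omega)]
    · have : n = 2 * g + 1 := by omega
      rw [this, hf1', hh1']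

private noncomputable def box_Up0 (g H : ℕ) : Finset (Fin (2 * g) → ℤ) :=
  Fintype.piFinset fun i => Finset.Icc (-((H : ℤ) ^ (2 * g + 1 - (i : ℕ))))
    ((H : ℤ) ^ (2 * g + 1 - (i : ℕ)))

private theorem maps_Up0 (g H : ℕ) : ∀ f ∈ Fam0 (2 * g + 1) H,
    (fun i : Fin (2 * g) => f.coeff i) ∈ (box_Up0 g H : Set (Fin (2 * g) → ℤ)) := by
  rintro f ⟨⟨_, _, hf⟩, _⟩
  rw [Finset.mem_coe, box_Up0, Fintype.mem_piFinset]
  intro i
  rw [Finset.mem_Icc, ← abs_le]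
  exact hf i (by have := i.2; omega)

private theorem card_Up0 (g H : ℕ) (hH : 1 ≤ H) :
    (box_Up0 g H).card * H ≤ 3 ^ (2 * g) * H ^ ((g + 1) * (2 * g + 1)) := by
  rw [box_Up0, Fintype.card_piFinset]
  have h1 : ∀ i : Fin (2 * g), (Finset.Icc (-((H : ℤ) ^ (2 * g + 1 - (i : ℕ))))
      ((H : ℤ) ^ (2 * g + 1 - (i : ℕ)))).card ≤ 3 * H ^ (2 * g + 1 - (i : ℕ)) := by
    intro i
    rw [Int.card_Icc]
    have h2 : 1 ≤ H ^ (2 * g + 1 - (i : ℕ)) := Nat.one_le_pow _ _ hH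
    have h3 : ((H : ℤ) ^ (2 * g + 1 - (i : ℕ))) = ((H ^ (2 * g + 1 - (i : ℕ)) : ℕ) : ℤ) := by
      push_cast; rfl
    rw [h3]
    omega
  have h4 : ∑ i : Fin (2 * g), (2 * g + 1 - (i : ℕ)) + 1 = (g + 1) * (2 * g + 1) := by
    rw [Fin.sum_univ_eq_sum_range (fun i => 2 * g + 1 - i) (2 * g)]
    have := gauss_Up0 (2 * g)
    have e : (2 * g + 1) * (2 * g + 2) = 2 * ((g + 1) * (2 * g + 1)) := by ring
    rw [e] at this
    omega
  calc (∏ i : Fin (2 * g), (Finset.Icc (-((H : ℤ) ^ (2 * g + 1 - (i : ℕ))))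
      ((H : ℤ) ^ (2 * g + 1 - (i : ℕ)))).card) * H
      ≤ (∏ i : Fin (2 * g), (3 * H ^ (2 * g + 1 - (i : ℕ)))) * H :=
        Nat.mul_le_mul_right _ (Finset.prod_le_prod' fun i _ => h1 i)
    _ = 3 ^ (2 * g) * H ^ (∑ i : Fin (2 * g), (2 * g + 1 - (i : ℕ)) + 1) := by
        rw [Finset.prod_mul_distrib, Finset.prod_pow_eq_pow_sum, Finset.prod_const, Finset.card_univ,
          Fintype.card_fin, pow_succ, mul_assoc]
    _ = 3 ^ (2 * g) * H ^ ((g + 1) * (2 * g + 1)) := by rw [h4]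

theorem hUp0 : StUp0 := by
  intro g H _ hH
  have hfin : (box_Up0 g H : Set (Fin (2 * g) → ℤ)).Finite := Finset.finite_toSet _
  refine ⟨Set.Finite.of_injOn (maps_Up0 g H) (inj_Up0 g H) hfin, ?_⟩
  have h1 : (Fam0 (2 * g + 1) H).ncard ≤ (box_Up0 g H).card := by
    rw [← Set.ncard_coe_finset]
    exact Set.ncard_le_ncard_of_injOn _ (maps_Up0 g H) (inj_Up0 g H) hfin
  have h2 : (Fam0 (2 * g + 1) H).ncard * H ≤ 3 ^ (2 * g + 1) * H ^ ((g + 1) * (2 * g + 1)) := by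
    calc (Fam0 (2 * g + 1) H).ncard * H ≤ (box_Up0 g H).card * H := Nat.mul_le_mul_right _ h1
      _ ≤ 3 ^ (2 * g) * H ^ ((g + 1) * (2 * g + 1)) := card_Up0 g H hH
      _ ≤ 3 ^ (2 * g + 1) * H ^ ((g + 1) * (2 * g + 1)) :=
        Nat.mul_le_mul_right _ (Nat.pow_le_pow_right (by norm_num) (by omega))
  exact_mod_cast h2

end Pool.Agent.Helper54.HQ
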