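import Pool.Agent.Helper54.HQ.StC
import Pool.Agent.Helper54.HQ.Base

/-!
# HQ, module Wc: size of the powers of `θ`
-/

set_option autoImplicit false

namespace Pool.Agent.Helper54.HQ

open Polynomial Finset Filter Topology Matrix IsDedekindDomain
open Pool.Agent.Helper3.HY (co tau Ix nu TType IType rho2 exc Adm Gm)
open Pool.Agent.Helper3

theorem hWc (h1 : StMa) (_h2 : StMb) (h3 : StMc) (h4 : StWb) : StWc := by
  intro g H hg hH f hf hm k _
  obtain ⟨hfam, hder⟩ := h4 g H hg f hf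
  have hdeg : f.natDegree = 2 * g + 1 := hf.2.1
  obtain ⟨-, hmul, hth, -, -⟩ := h1 f hm (by omega)
  have hH0 : (0 : ℝ) < H := by exact_mod_cast hH
  have hpow : ∀ ρ ∈ rts f, ∀ k : ℕ, evc hm ρ (th f ^ k) = ρ ^ k := by
    intro ρ hρ k
    induction k with
    | zero => rw [pow_zero, pow_zero]; exact (hth ρ hρ).2
    | succ k ih => rw [pow_succ, hmul ρ hρ, ih, (hth ρ hρ).1, pow_succ]
  have hterm : ∀ ρ ∈ rts f, ‖evc hm ρ 1‖ * ‖evc hm ρ (th f ^ k)‖ ^ 2 /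
      ‖aeval ρ (derivative f)‖ ≤ 16 * (2 * (H : ℝ)) ^ (2 * k) / (H : ℝ) ^ (2 * g) := by
    intro ρ hρ
    have e1 := hder ρ hρ
    have e2 := h3 (2 * g + 1) H f hfam ρ hρ
    have e3 : 0 < (H : ℝ) ^ (2 * g) := by positivity
    have e4 : 0 < ‖aeval ρ (derivative f)‖ := lt_of_lt_of_le (by positivity) e1
    rw [(hth ρ hρ).2, hpow ρ hρ k, norm_one, one_mul, norm_pow, ← pow_mul, mul_comm k 2,
      div_le_div_iff₀ e4 e3]
    have e5 : ‖ρ‖ ^ (2 * k) ≤ (2 * (H : ℝ)) ^ (2 * k) :=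
      pow_le_pow_left₀ (norm_nonneg _) e2 _
    have e6 : 0 ≤ (2 * (H : ℝ)) ^ (2 * k) := by positivity
    have e7 : (H : ℝ) ^ (2 * g) ≤ 16 * ‖aeval ρ (derivative f)‖ := by linarith
    calc ‖ρ‖ ^ (2 * k) * (H : ℝ) ^ (2 * g)
        ≤ (2 * (H : ℝ)) ^ (2 * k) * (16 * ‖aeval ρ (derivative f)‖) :=
          mul_le_mul e5 e7 e3.le e6
      _ = 16 * (2 * (H : ℝ)) ^ (2 * k) * ‖aeval ρ (derivative f)‖ := by ring
  have hcard : ((rts f).card : ℝ) ≤ 2 * g + 1 := by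
    have e1 : (rts f).card ≤ 2 * g + 1 := by
      refine (Multiset.toFinset_card_le _).trans ?_
      refine (Polynomial.card_roots' _).trans ?_
      refine natDegree_map_le.trans ?_
      rw [hdeg]
    exact_mod_cast e1
  have e3 : 0 < (H : ℝ) ^ (2 * g) := by positivity
  have hsum : met hm 1 (th f ^ k) ≤
      (2 * g + 1) * (16 * (2 * (H : ℝ)) ^ (2 * k) / (H : ℝ) ^ (2 * g)) := by
    refine (Finset.sum_le_sum hterm).trans ?_
    rw [Finset.sum_const, nsmul_eq_mul]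
    exact mul_le_mul_of_nonneg_right hcard (by positivity)
  calc met hm 1 (th f ^ k) * (H : ℝ) ^ (2 * g)
      ≤ (2 * g + 1) * (16 * (2 * (H : ℝ)) ^ (2 * k) / (H : ℝ) ^ (2 * g)) *
        (H : ℝ) ^ (2 * g) := mul_le_mul_of_nonneg_right hsum e3.le
    _ = 16 * (2 * g + 1) * (2 * (H : ℝ)) ^ (2 * k) := by
        field_simp

end Pool.Agent.Helper54.HQ
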