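import Pool.Agent.Helper54.HQ.StC
import Pool.Agent.Helper54.HQ.Base

/-!
# HQ, module We: the inequality in the deep cusp
-/

set_option autoImplicit false

namespace Pool.Agent.Helper54.HQ

open Polynomial Finset Filter Topology Matrix IsDedekindDomain
open Pool.Agent.Helper3.HY (co tau Ix nu TType IType rho2 exc Adm Gm)
open Pool.Agent.Helper3

private theorem det_le_We {g : ℕ} (A : Matrix (Fin g) (Fin g) ℝ) (a b : Fin g → ℝ)
    (h : ∀ i j, |A i j| ≤ a i * b j) :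
    |A.det| ≤ (g.factorial : ℝ) * ((∏ i, a i) * ∏ j, b j) := by
  rw [Matrix.det_apply]
  refine (Finset.abs_sum_le_sum_abs _ _).trans ?_
  have h1 : ∀ σ : Equiv.Perm (Fin g), |Equiv.Perm.sign σ • ∏ i, A (σ i) i| ≤
      (∏ i, a i) * ∏ j, b j := by
    intro σ
    have e1 : |Equiv.Perm.sign σ • ∏ i, A (σ i) i| = ∏ i, |A (σ i) i| := by
      rw [← Finset.abs_prod]
      rcases Int.units_eq_one_or (Equiv.Perm.sign σ) with h2 | h2
      · rw [h2, one_smul]
      · rw [h2, Units.neg_smul, one_smul, abs_neg]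
    rw [e1]
    have e2 : ∏ i, |A (σ i) i| ≤ ∏ i, (a (σ i) * b i) :=
      Finset.prod_le_prod (fun i _ => abs_nonneg _) fun i _ => h (σ i) i
    refine e2.trans (le_of_eq ?_)
    rw [Finset.prod_mul_distrib]
    congr 1
    exact Equiv.prod_comp σ a
  refine (Finset.sum_le_sum fun σ _ => h1 σ).trans (le_of_eq ?_)
  rw [Finset.sum_const, Finset.card_univ, Fintype.card_perm, Fintype.card_fin, nsmul_eq_mul]

private theorem sum_We (g : ℕ) : ∑ j : Fin g, (g - (j : ℕ)) = g * (g + 1) / 2 := by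
  have h : ∀ n : ℕ, 2 * ∑ j : Fin n, (n - (j : ℕ)) = n * (n + 1) := by
    intro n
    induction n with
    | zero => simp
    | succ n ih =>
      rw [Fin.sum_univ_succ]
      have e1 : ∀ j : Fin n, n + 1 - ((Fin.succ j : Fin (n + 1)) : ℕ) = n - (j : ℕ) := by
        intro j
        rw [Fin.val_succ]
        omega
      simp only [e1, Fin.val_zero, Nat.sub_zero]
      rw [mul_add, ih]
      ring
  have h1 := h g
  omega

theorem hWe (h1 : StMd) (h2 : StWb) (h3 : StWc) : StWe := by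
  intro g hg C hC
  set K : ℝ := 4 * (2 * g + 1) * 2 ^ (2 * g) with hK
  have hK1 : 1 ≤ K := by
    have e1 : (1 : ℝ) ≤ 2 ^ (2 * g) := one_le_pow₀ (by norm_num)
    have e2 : (1 : ℝ) ≤ 4 * (2 * g + 1) := by
      have : (0 : ℝ) ≤ g := Nat.cast_nonneg g
      linarith
    rw [hK]
    calc (1 : ℝ) = 1 * 1 := by ring
      _ ≤ 4 * (2 * g + 1) * 2 ^ (2 * g) := mul_le_mul e2 e1 (by norm_num) (by linarith)
  have hf1 : (1 : ℝ) ≤ (g.factorial : ℝ) := by exact_mod_cast Nat.factorial_pos g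
  have hC0 : 0 ≤ C := by linarith
  have hK0 : 0 ≤ K := by linarith
  refine ⟨(g.factorial : ℝ) * (C ^ g * K ^ g), ?_, ?_⟩
  · have e1 : (1 : ℝ) ≤ C ^ g := one_le_pow₀ hC
    have e2 : (1 : ℝ) ≤ K ^ g := one_le_pow₀ hK1
    have e3 : (1 : ℝ) ≤ C ^ g * K ^ g := by
      calc (1 : ℝ) = 1 * 1 := by ring
        _ ≤ C ^ g * K ^ g := mul_le_mul e1 e2 (by norm_num) (by linarith)
    calc (1 : ℝ) = 1 * 1 := by ring
      _ ≤ _ := mul_le_mul hf1 e3 (by norm_num) (by linarith)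
  intro H hH f hfR hm hirr e' m hmet p hdet
  have hfF := (h2 g H hg f hfR).1
  have hsep : (fK f).Separable := hirr.separable
  obtain ⟨hcs, -⟩ := h1 (2 * g + 1) H (by omega) f hfF hm hsep 1
  have hHR : (1 : ℝ) ≤ H := by exact_mod_cast hH
  have hH0 : (0 : ℝ) < H := by linarith
  have hmet0 : ∀ x : LL f, 0 ≤ met hm 1 x := by
    intro x
    unfold met
    exact Finset.sum_nonneg fun ρ _ => by positivity
  -- the bound for the powers of theta
  have hb : ∀ j : Fin g, met hm 1 (th f ^ (2 * g - (j : ℕ))) ≤ (K * (H : ℝ) ^ (g - (j : ℕ))) ^ 2 := by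
    intro j
    have hj := j.2
    have e1 := h3 g H hg hH f hfR hm (2 * g - (j : ℕ)) (by omega)
    have hp : (0 : ℝ) < (H : ℝ) ^ (2 * g) := by positivity
    refine le_of_mul_le_mul_right (e1.trans ?_) hp
    have e2 : (2 * (H : ℝ)) ^ (2 * (2 * g - (j : ℕ))) =
        2 ^ (2 * (2 * g - (j : ℕ))) * ((H : ℝ) ^ (g - (j : ℕ))) ^ 2 * (H : ℝ) ^ (2 * g) := by
      rw [mul_pow, ← pow_mul, mul_assoc, ← pow_add]
      congr 2
      omega
    rw [e2, mul_pow, hK]
    have e3 : (2 : ℝ) ^ (2 * (2 * g - (j : ℕ))) ≤ (2 ^ (2 * g)) ^ 2 := by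
      rw [← pow_mul]
      exact pow_le_pow_right₀ (by norm_num) (by omega)
    have e4 : (16 : ℝ) * (2 * g + 1) ≤ (4 * (2 * g + 1)) ^ 2 := by
      have : (0 : ℝ) ≤ g := Nat.cast_nonneg g
      nlinarith
    have e5 : (16 : ℝ) * (2 * g + 1) * 2 ^ (2 * (2 * g - (j : ℕ))) ≤
        (4 * (2 * g + 1) * 2 ^ (2 * g)) ^ 2 := by
      rw [mul_pow]
      exact mul_le_mul e4 e3 (by positivity) (by positivity)
    calc (16 : ℝ) * (2 * g + 1) * (2 ^ (2 * (2 * g - (j : ℕ))) * ((H : ℝ) ^ (g - (j : ℕ))) ^ 2 *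
          (H : ℝ) ^ (2 * g))
        = 16 * (2 * g + 1) * 2 ^ (2 * (2 * g - (j : ℕ))) *
          (((H : ℝ) ^ (g - (j : ℕ))) ^ 2 * (H : ℝ) ^ (2 * g)) := by ring
      _ ≤ (4 * (2 * g + 1) * 2 ^ (2 * g)) ^ 2 *
          (((H : ℝ) ^ (g - (j : ℕ))) ^ 2 * (H : ℝ) ^ (2 * g)) :=
          mul_le_mul_of_nonneg_right e5 (by positivity)
      _ = _ := by ring
  -- the entries
  set a : Fin g → ℝ := fun i => C * (2 : ℝ) ^ (-(m i : ℤ)) with ha
  set b : Fin g → ℝ := fun j => K * (H : ℝ) ^ (g - (j : ℕ)) with hbd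
  have ha0 : ∀ i, 0 ≤ a i := fun i => by
    rw [ha]
    positivity
  have hb0 : ∀ i, 0 ≤ b i := fun i => by
    rw [hbd]
    positivity
  set P : Matrix (Fin g) (Fin g) ℚ :=
    Matrix.of fun i j : Fin g => Bf hm 1 (e' ⟨i, by omega⟩) (th f ^ (2 * g - (j : ℕ))) with hP
  have hent : ∀ i j, |(P.map (Rat.castHom ℝ)) i j| ≤ a i * b j := by
    intro i j
    have e1 := hcs (e' ⟨i, by omega⟩) (th f ^ (2 * g - (j : ℕ)))
    have e2 := hmet ⟨i, by omega⟩
    have e3 : nu g m ⟨i, by omega⟩ = -(m i : ℤ) := by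
      unfold nu
      rw [dif_pos (show ((⟨(i : ℕ), by omega⟩ : Ix g) : ℕ) < g from i.2)]
    rw [e3] at e2
    have e4 := mul_le_mul e2 (hb j) (hmet0 _) (by positivity)
    have e5 : ((P i j : ℚ) : ℝ) ^ 2 ≤ (a i * b j) ^ 2 := by
      refine e1.trans (e4.trans (le_of_eq ?_))
      exact (mul_pow (a i) (b j) 2).symm
    have e6 : (P.map (Rat.castHom ℝ)) i j = ((P i j : ℚ) : ℝ) := rfl
    rw [e6]
    exact abs_le_of_sq_le_sq e5 (mul_nonneg (ha0 i) (hb0 j))
  have hD := det_le_We (P.map (Rat.castHom ℝ)) a b hent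
  have e1 : |(P.map (Rat.castHom ℝ)).det| = p := by
    have e2 : (P.map (Rat.castHom ℝ)).det = ((P.det : ℚ) : ℝ) :=
      ((Rat.castHom ℝ).map_det P).symm
    rw [e2, ← Rat.cast_abs, hdet]
    exact Rat.cast_natCast p
  rw [e1] at hD
  have e2 : ∏ i, a i = C ^ g * ((2 : ℝ) ^ (∑ i, m i))⁻¹ := by
    rw [ha]
    simp only [Finset.prod_mul_distrib, Finset.prod_const, Finset.card_univ, Fintype.card_fin,
      _root_.zpow_neg, zpow_natCast, Finset.prod_inv_distrib, Finset.prod_pow_eq_pow_sum]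
  have e3 : ∏ j, b j = K ^ g * (H : ℝ) ^ (g * (g + 1) / 2) := by
    rw [hbd, ← sum_We g]
    simp only [Finset.prod_mul_distrib, Finset.prod_const, Finset.card_univ, Fintype.card_fin,
      Finset.prod_pow_eq_pow_sum]
  rw [e2, e3] at hD
  have hp2 : (0 : ℝ) < 2 ^ (∑ i, m i) := by positivity
  have e4 := mul_le_mul_of_nonneg_right hD hp2.le
  refine e4.trans (le_of_eq ?_)
  field_simp

end Pool.Agent.Helper54.HQ
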