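import Pool.Agent.Helper54.HQ.StC
import Pool.Agent.Helper54.HQ.Base

/-!
# HQ, module Wf: weakly divisible polynomials (assembly)
-/

set_option autoImplicit false

namespace Pool.Agent.Helper54.HQ

open Polynomial Finset Filter Topology Matrix IsDedekindDomain
open Pool.Agent.Helper3.HY (co tau Ix nu TType IType rho2 exc Adm Gm)

private theorem inBox_mono_Wf {g : ℕ} {C C' H : ℝ} {m : Fin g → ℕ} {p : Pr g} (hC : C ≤ C')
    (hH : 0 ≤ H) (h : InBox g C H m p) : InBox g C' H m p := by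
  refine ⟨h.symB, h.symA, h.det, fun i j => (h.bB i j).trans ?_, fun i j => (h.bA i j).trans ?_⟩
  · exact mul_le_mul_of_nonneg_right hC (by positivity)
  · exact mul_le_mul_of_nonneg_right (mul_le_mul_of_nonneg_right hC hH) (by positivity)

private theorem inR_comb_Wf {g : ℕ} {f : ℤ[X]} (c : LL f) (e : Ix g → LL f)
    (h : ∀ i, InR (c * e i)) (u : Ix g → ℤ) : InR (c * ∑ i, ((u i : ℤ) : ℚ) • e i) := by
  choose r hr using h
  refine ⟨∑ i, (u i : RR f) * r i, ?_⟩
  rw [Finset.mul_sum, map_sum]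
  refine Finset.sum_congr rfl fun i _ => ?_
  rw [map_mul, ← hr i, algebraMap_intCast, Algebra.smul_def, map_intCast]
  ring

private theorem nearOne_Wf (P : Prm) {f : ℤ[X]} : NearOne P ((1 : LL f) * 1 ^ 2) := by
  refine ⟨0, 1, fun h => (pz_prime P).not_isUnit (isUnit_of_dvd_one h), ?_⟩
  rw [map_zero]
  ring

private theorem ndvd_Wf {g : ℕ} (hg : 1 ≤ g) {f : ℤ[X]} {P : Prm} {p : ℕ} (hp : p.Prime)
    (hw : Weak p f) (hT : f.map (red P) ∈ TType (kp P) g) : ¬ pz P ∣ (p : ℤ) := by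
  intro hd
  have hPp : (P : ℕ) = p := by
    have h1 : (P : ℕ) ∣ p := by exact_mod_cast hd
    exact (Nat.prime_dvd_prime_iff_eq P.2 hp).1 h1
  obtain ⟨r, hr1, hr2⟩ := hw
  obtain ⟨a, q, hqm, hqi, hqd, hf⟩ := hT
  have e1 : (f.map (red P)).eval (red P r) = 0 := by
    rw [Polynomial.eval_map_apply, red_eq_zero]
    have : (p : ℤ) ∣ f.eval r := (Dvd.intro_left _ (by rw [pow_two])).trans hr1
    rw [← hPp] at this
    exact this
  have e2 : (f.map (red P)).derivative.eval (red P r) = 0 := by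
    rw [Polynomial.derivative_map, Polynomial.eval_map_apply, red_eq_zero]
    rw [← hPp] at hr2
    exact hr2
  have hq0 : q.eval (red P r) ≠ 0 := by
    intro h0
    have h1 : q.natDegree = 1 := Polynomial.natDegree_eq_of_degree_eq_some
      (Polynomial.degree_eq_one_of_irreducible_of_root hqi h0)
    omega
  rw [hf] at e1 e2
  rw [Polynomial.eval_mul, eval_sub, eval_X, eval_C] at e1
  have ha : red P r - a = 0 := (mul_eq_zero.1 e1).resolve_right hq0
  rw [derivative_mul, eval_add, eval_mul, eval_mul, eval_sub, eval_X, eval_C, ha, zero_mul,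
    add_zero, derivative_sub, derivative_X, derivative_C, sub_zero, eval_one, one_mul] at e2
  exact hq0 e2

theorem hWf (h1 : StWa) (h2 : StMh) (h3 : StWb) (h4 : StWd) (h5 : StWe) (h6 : StCj2)
    (h7 : StMf) : StWf := by
  intro g hg
  obtain ⟨C0, κ, hC0, hMh⟩ := h2 g hg
  obtain ⟨C', hC', hWe⟩ := h5 g hg C0 hC0
  refine ⟨max C0 C', κ, hC0.trans (le_max_left _ _), ?_⟩
  intro H hH f hf hirr T hT M p hp hp2 hMp hw
  have : Fact (Irreducible (fK f)) := ⟨hirr⟩
  have hm : f.Monic := hf.1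
  have hdeg : f.natDegree = 2 * g + 1 := hf.2.1
  obtain ⟨r, hr1, hr2⟩ := id hw
  obtain ⟨e, B, T0, hInt, hInR, hform⟩ := h1 g hg f hm hdeg p r hp hp2 hr1 hr2
  obtain ⟨U, e', B', T', m, hU, he', hInt', hDA, hBox, hmet, hor⟩ :=
    hMh H hH f (h3 g H hg f hf).1 hm hirr 1 one_ne_zero e B T0 hInt
  have hBox' : InBox g (max C0 C') H m (B', B' * T') :=
    inBox_mono_Wf (le_max_left _ _) (Nat.cast_nonneg _) hBox
  have hchi : IsChi (B', B' * T') f := (h7 g f hm hdeg hirr 1 e' B' T' hInt').2.2.2.1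
  rcases hor with hAdm | hTL
  · left
    refine ⟨m, hAdm, hm, hdeg, hirr, (B', B' * T'), hBox', ?_, hchi⟩
    intro P hP
    refine h6 g hg f hm hdeg P 1 1 one_ne_zero (nearOne_Wf P) e' B' T' hInt' ?_ _ (hT P hP)
    intro i
    refine ⟨(p : ℤ), ndvd_Wf hg hp hw (hT P hP), ?_⟩
    have h8 : ((p : ℤ) : LL f) * e' i * (1 : LL f)⁻¹ =
        (p : LL f) * ∑ j, ((U j i : ℤ) : ℚ) • e j := by
      rw [inv_one, mul_one, he' i, Int.cast_natCast]
    rw [h8]
    exact inR_comb_Wf _ _ hInR _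
  · right
    refine ⟨m, hDA, ?_, hm, hdeg, hirr, (B', B' * T'), hBox', hTL, hchi⟩
    have h9 := hWe H hH f hf hm hirr e' m hmet p
      (h4 g hg f hm hdeg p r e hform U e' B' T' hU he' hInt' hTL)
    have h10 : (M : ℝ) ≤ p := by exact_mod_cast hMp.le
    calc (M : ℝ) * 2 ^ (∑ i, m i) ≤ (p : ℝ) * 2 ^ (∑ i, m i) :=
          mul_le_mul_of_nonneg_right h10 (by positivity)
      _ ≤ C' * (H : ℝ) ^ (g * (g + 1) / 2) := h9
      _ ≤ max C0 C' * (H : ℝ) ^ (g * (g + 1) / 2) :=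
          mul_le_mul_of_nonneg_right (le_max_right _ _) (by positivity)

end Pool.Agent.Helper54.HQ
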