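import Pool.Agent.Helper54.HQ.StC

/-!
# HQ module Wg (monotonicity in the constants)
-/

set_option autoImplicit false

namespace Pool.Agent.Helper54.HQ

open Polynomial Finset Filter Topology Matrix IsDedekindDomain
open Pool.Agent.Helper3.HY (co tau Ix nu TType IType rho2 exc Adm Gm)
open Pool.Agent.Helper3

private theorem box_Wg {g : ℕ} {C C' H : ℝ} (hC' : C ≤ C') (hH : 0 ≤ H)
    {m : Fin g → ℕ} {p : Pr g} (h : InBox g C H m p) : InBox g C' H m p where
  symB := h.symB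
  symA := h.symA
  det := h.det
  bB i j := (h.bB i j).trans (by gcongr)
  bA i j := (h.bA i j).trans (by gcongr)

theorem hWg : StWg := by
  intro g C C' κ κ' H M T hC hC' hκ
  have hH : (0 : ℝ) ≤ (H : ℝ) := H.cast_nonneg
  constructor
  · rintro f ⟨m, hm, h1, h2, h3, p, hp, hT, hχ⟩
    refine ⟨m, ⟨hm.1, fun i hi => (hm.2.1 i hi).trans (by omega), fun i j hij =>
      (hm.2.2 i j hij).trans (by omega)⟩, h1, h2, h3, p, box_Wg hC' hH hp, hT, hχ⟩
  · rintro f ⟨m, hm, hM, h1, h2, h3, p, hp, hTL, hχ⟩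
    refine ⟨m, ⟨hm.1, fun i hi => (hm.2.1 i hi).trans (by omega), fun i j hij =>
      (hm.2.2 i j hij).trans (by omega)⟩, hM.trans (by gcongr), h1, h2, h3, p,
      box_Wg hC' hH hp, hTL, hχ⟩

end Pool.Agent.Helper54.HQ
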