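import Pool.Agent.Helper54.HQ.M_CM
import Pool.Agent.Helper54.HQ.M_CV
import Pool.Agent.Helper54.HQ.M_Cd
import Pool.Agent.Helper54.HQ.M_Ce
import Pool.Agent.Helper54.HQ.M_Cf
import Pool.Agent.Helper54.HQ.M_Cg
import Pool.Agent.Helper54.HQ.M_Ch1
import Pool.Agent.Helper54.HQ.M_Cj1
import Pool.Agent.Helper54.HQ.M_Cj2
import Pool.Agent.Helper54.HQ.M_Ck
import Pool.Agent.Helper54.HQ.M_DE
import Pool.Agent.Helper54.HQ.M_De1
import Pool.Agent.Helper54.HQ.M_De2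
import Pool.Agent.Helper54.HQ.M_De3
import Pool.Agent.Helper54.HQ.M_De4
import Pool.Agent.Helper54.HQ.M_Dn
import Pool.Agent.Helper54.HQ.M_EI
import Pool.Agent.Helper54.HQ.M_Even
import Pool.Agent.Helper54.HQ.M_Fin
import Pool.Agent.Helper54.HQ.M_Fs
import Pool.Agent.Helper54.HQ.M_Good
import Pool.Agent.Helper54.HQ.M_Ha
import Pool.Agent.Helper54.HQ.M_Ha1
import Pool.Agent.Helper54.HQ.M_Hb
import Pool.Agent.Helper54.HQ.M_Hc
import Pool.Agent.Helper54.HQ.M_Hc0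
import Pool.Agent.Helper54.HQ.M_Hd
import Pool.Agent.Helper54.HQ.M_He
import Pool.Agent.Helper54.HQ.M_Hf
import Pool.Agent.Helper54.HQ.M_Hg
import Pool.Agent.Helper54.HQ.M_Hg0
import Pool.Agent.Helper54.HQ.M_Hg1
import Pool.Agent.Helper54.HQ.M_Hh
import Pool.Agent.Helper54.HQ.M_Hh1
import Pool.Agent.Helper54.HQ.M_Hh2
import Pool.Agent.Helper54.HQ.M_Hh3
import Pool.Agent.Helper54.HQ.M_Hi
import Pool.Agent.Helper54.HQ.M_Hi1
import Pool.Agent.Helper54.HQ.M_Hi2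
import Pool.Agent.Helper54.HQ.M_Hi3
import Pool.Agent.Helper54.HQ.M_Hj
import Pool.Agent.Helper54.HQ.M_Hk
import Pool.Agent.Helper54.HQ.M_Hl
import Pool.Agent.Helper54.HQ.M_Hm
import Pool.Agent.Helper54.HQ.M_Hom
import Pool.Agent.Helper54.HQ.M_I1
import Pool.Agent.Helper54.HQ.M_IN
import Pool.Agent.Helper54.HQ.M_Iso
import Pool.Agent.Helper54.HQ.M_LD
import Pool.Agent.Helper54.HQ.M_Line
import Pool.Agent.Helper54.HQ.M_Ma
import Pool.Agent.Helper54.HQ.M_Mb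
import Pool.Agent.Helper54.HQ.M_Mc
import Pool.Agent.Helper54.HQ.M_Md
import Pool.Agent.Helper54.HQ.M_Me
import Pool.Agent.Helper54.HQ.M_Mf
import Pool.Agent.Helper54.HQ.M_Mg
import Pool.Agent.Helper54.HQ.M_Mh
import Pool.Agent.Helper54.HQ.M_NO
import Pool.Agent.Helper54.HQ.M_NV
import Pool.Agent.Helper54.HQ.M_OV
import Pool.Agent.Helper54.HQ.M_Over
import Pool.Agent.Helper54.HQ.M_Pol
import Pool.Agent.Helper54.HQ.M_Pos
import Pool.Agent.Helper54.HQ.M_Q3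
import Pool.Agent.Helper54.HQ.M_QP
import Pool.Agent.Helper54.HQ.M_Ra
import Pool.Agent.Helper54.HQ.M_Rb
import Pool.Agent.Helper54.HQ.M_Rc
import Pool.Agent.Helper54.HQ.M_Rd
import Pool.Agent.Helper54.HQ.M_Re
import Pool.Agent.Helper54.HQ.M_Rf
import Pool.Agent.Helper54.HQ.M_Rg
import Pool.Agent.Helper54.HQ.M_Rh
import Pool.Agent.Helper54.HQ.M_Sa
import Pool.Agent.Helper54.HQ.M_Sd
import Pool.Agent.Helper54.HQ.M_Se
import Pool.Agent.Helper54.HQ.M_Sieve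
import Pool.Agent.Helper54.HQ.M_Sl
import Pool.Agent.Helper54.HQ.M_Sp
import Pool.Agent.Helper54.HQ.M_Ss
import Pool.Agent.Helper54.HQ.M_St
import Pool.Agent.Helper54.HQ.M_Strong
import Pool.Agent.Helper54.HQ.M_Sw
import Pool.Agent.Helper54.HQ.M_Ta
import Pool.Agent.Helper54.HQ.M_Tb
import Pool.Agent.Helper54.HQ.M_Tc
import Pool.Agent.Helper54.HQ.M_Td
import Pool.Agent.Helper54.HQ.M_Te
import Pool.Agent.Helper54.HQ.M_Tf
import Pool.Agent.Helper54.HQ.M_Tg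
import Pool.Agent.Helper54.HQ.M_Tl
import Pool.Agent.Helper54.HQ.M_Tm
import Pool.Agent.Helper54.HQ.M_Trans
import Pool.Agent.Helper54.HQ.M_Tw
import Pool.Agent.Helper54.HQ.M_Two
import Pool.Agent.Helper54.HQ.M_UQ
import Pool.Agent.Helper54.HQ.M_Ua
import Pool.Agent.Helper54.HQ.M_Ub
import Pool.Agent.Helper54.HQ.M_Ud
import Pool.Agent.Helper54.HQ.M_Ue
import Pool.Agent.Helper54.HQ.M_Ueq
import Pool.Agent.Helper54.HQ.M_Uf
import Pool.Agent.Helper54.HQ.M_Uh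
import Pool.Agent.Helper54.HQ.M_Ui
import Pool.Agent.Helper54.HQ.M_Uj
import Pool.Agent.Helper54.HQ.M_Uk
import Pool.Agent.Helper54.HQ.M_Ul
import Pool.Agent.Helper54.HQ.M_Um
import Pool.Agent.Helper54.HQ.M_Un
import Pool.Agent.Helper54.HQ.M_Uo
import Pool.Agent.Helper54.HQ.M_Up
import Pool.Agent.Helper54.HQ.M_Up0
import Pool.Agent.Helper54.HQ.M_Uq
import Pool.Agent.Helper54.HQ.M_Uw
import Pool.Agent.Helper54.HQ.M_Wa
import Pool.Agent.Helper54.HQ.M_Wb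
import Pool.Agent.Helper54.HQ.M_Wc
import Pool.Agent.Helper54.HQ.M_Wd
import Pool.Agent.Helper54.HQ.M_We
import Pool.Agent.Helper54.HQ.M_Wf
import Pool.Agent.Helper54.HQ.M_Wg
import Pool.Agent.Helper54.HQ.Bridge
import Pool.Agent.Helper54.HL.All

/-!
# HQ: all modules together
-/

set_option autoImplicit false

namespace Pool.Agent.Helper54.HQ

open Pool.Agent.Helper54

theorem a_CV : StCV := hCV HL.hRA

theorem a_CM : StCM := hCM HL.hRA a_CV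

theorem a_Cd : StCd := hCd

theorem a_Ce : StCe := hCe

theorem a_Cf : StCf := hCf a_Cd

theorem a_Cg : StCg := hCg

theorem a_Ch1 : StCh1 := hCh1 a_Cg

theorem a_Cj1 : StCj1 := hCj1

theorem a_Cj2 : StCj2 := hCj2

theorem a_Ma : StMa := hMa

theorem a_Mb : StMb := hMb

theorem a_Mc : StMc := hMc

theorem a_Md : StMd := hMd a_Ma a_Mb a_Mc

theorem a_Me : StMe := hMe a_Ma a_Mb

theorem a_Mf : StMf := hMf

theorem a_Mg : StMg := hMg

theorem a_Ra : StRa := hRa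

theorem a_Rb : StRb := hRb

theorem a_Rc : StRc := hRc a_Ra a_Rb

theorem a_Rd : StRd := hRd

theorem a_Re : StRe := hRe a_Rd

theorem a_Rf : StRf := hRf a_Rd

theorem a_Rg : StRg := hRg

theorem a_Rh : StRh := hRh a_Rc a_Rd a_Re a_Rf a_Rg

theorem a_Mh : StMh := hMh a_Md a_Me a_Mf a_Mg a_Rh

theorem a_Ck : StCk := hCk a_Ce a_Cf a_Mh a_Mf a_Ch1 a_Cj1 a_Cj2

theorem a_DE : StDE := hDE HL.aNG

theorem a_De1 : StDe1 := hDe1

theorem a_De2 : StDe2 := hDe2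

theorem a_De3 : StDe3 := hDe3

theorem a_De4 : StDe4 := hDe4

theorem a_Dn : StDn := hDn

theorem a_OV : StOV := hOV

theorem a_UQ : StUQ := hUQ

theorem a_EI : StEI := hEI HL.aOP a_OV a_UQ HL.aNG

theorem a_LD : StLD := hLD HL.hLDI (HL.hLDP HL.aNB) HL.hLDR

theorem a_NO : StNO := hNO

theorem a_IN : StIN := hIN HL.hGE HL.aNG a_DE a_NO

theorem a_NV : StNV := hNV

theorem a_Even : StEven := hEven a_LD a_IN a_EI HL.aBG a_NV a_DE HL.aNG

theorem a_Wb : StWb := hWb a_Mc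

theorem a_Trans : StTrans := hTrans HL.hTR

theorem a_Over : StOver := (hOver).1

theorem a_Q : StQ := (hOver).2

theorem a_QP : StQP := hQP

theorem a_Hom : StHom := hHom HL.hRA a_CM a_LD HL.hFA a_QP

theorem a_Q3 : StQ3 := hQ3 HL.hRA HL.aRB a_CV a_CM a_LD HL.aNB HL.aNM HL.hFS a_NO HL.hFA a_QP a_UQ

theorem a_I1 : StI1 := hI1 HL.hRA HL.aRB a_CV a_LD HL.aNB

theorem a_Line : StLine :=
  hLine a_LD a_IN HL.aLP a_CM a_CV a_NV a_DE HL.aNG a_Hom HL.hFA a_QP HL.hRA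

theorem a_Ha1 : StHa1 := hHa1

theorem a_Ha : StHa := hHa

theorem a_Hb : StHb := hHb

theorem a_Hc0 : StHc0 := hHc0

theorem a_Hc : StHc := hHc a_Hc0

theorem a_Hd : StHd := hHd a_Hc0

theorem a_He : StHe := hHe

theorem a_Hf : StHf := hHf a_Hc0 a_Hc a_Hd a_He

theorem a_Hg0 : StHg0 := hHg0

theorem a_Hg1 : StHg1 := hHg1

theorem a_Hg : StHg := hHg a_Hg0 a_Hg1 a_Cg

theorem a_Hh1 : StHh1 := hHh1

theorem a_Hh2 : StHh2 := hHh2 a_Hg0

theorem a_Hh3 : StHh3 := hHh3 a_Hc0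

theorem a_Hh : StHh :=
  hHh a_LD HL.hFA a_CM HL.aNM HL.aRB HL.hFS HL.hRA a_QP a_Hh1 a_Hh2 a_Hh3 a_Cg a_Hc0

theorem a_Hi1 : StHi1 := hHi1

theorem a_Hi2 : StHi2 := hHi2

theorem a_Hi3 : StHi3 := hHi3

theorem a_Hi : StHi := hHi a_Hi1 a_Hi2 a_Hi3

theorem a_Hj : StHj := hHj

theorem a_Hk : StHk := hHk

theorem a_Hl : StHl := hHl a_Cg

theorem a_Hm : StHm :=
  hHm a_Ha1 a_Ha a_Hb a_Hc a_Hd a_He a_Hf a_Hg a_Hh a_Hi a_Hj a_Hk a_Hl a_Q3 a_De1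

theorem a_Iso : StIso := hIso a_Hm a_Hom

theorem a_Two : StTwo := hTwo

theorem a_Tw : StTw := hTw a_Trans a_Over a_Q a_Hom a_Q3 a_I1 a_Even a_Line a_Iso a_Two

theorem a_Pol : StPol := hPol a_De1 a_De2 a_De3 a_De4 a_Ck a_Wb a_Tw

theorem a_Sp : StSp := hSp

theorem a_Sa : StSa := hSa

theorem a_Sw : StSw := hSw a_Sp

theorem a_Ss : StSs := hSs a_Sp

theorem a_Sl : StSl := hSl a_Sw a_Ss

theorem a_Sd : StSd := hSd a_Sp

theorem a_Se : StSe := hSe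

theorem a_St : StSt := hSt a_Sp

theorem a_Sieve : StSieve := hSieve a_Sp a_Sa a_Sl a_Sd a_Se a_St

theorem a_Ua : StUa := hUa

theorem a_Ud : StUd := hUd

theorem a_Ue : StUe := hUe

theorem a_Uq : StUq := hUq

theorem a_Uj : StUj := hUj a_Ua a_Ud a_Ue a_Uq

theorem a_Ueq : StUeq := hUeq

theorem a_Uw : StUw := hUw

theorem a_Ui : StUi := hUi a_Uw

theorem a_Uh : StUh := hUh a_Ueq a_Ui

theorem a_Ub : StUb := hUb

theorem a_Uf : StUf := hUf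

theorem a_Uk : StUk := hUk a_Uj a_Ud a_Uh a_Ub a_Uf

theorem a_Ul : StUl := hUl a_Uj a_Ud a_Uf a_Ub

theorem a_U : StU := hUm a_Uk a_Ul

theorem a_Un : StUn := hUn

theorem a_Uo : StUo := hUo

theorem a_Deep : StDeep := hUp a_Uj a_Ud a_Ub a_Un a_Uo a_Uf

theorem a_Ta : StTa := hTa a_Sp a_Ss

theorem a_Tc : StTc := hTc

theorem a_Td : StTd := hTd a_Sp a_Tc

theorem a_Te : StTe := hTe

theorem a_Tf : StTf := hTf a_Sp

theorem a_Tg : StTg := hTg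

theorem a_Tb : StTb := hTb a_Sp a_Td a_Te a_Tf a_Tg

theorem a_Strong : StStrong := hStrong a_Ta a_Tb

theorem a_Wa : StWa := hWa a_Cg

theorem a_Wd : StWd := hWd a_Ch1 a_Mf

theorem a_Wc : StWc := hWc a_Ma a_Mb a_Mc a_Wb

theorem a_We : StWe := hWe a_Md a_Wb a_Wc

theorem a_Wf : StWf := hWf a_Wa a_Mh a_Wb a_Wd a_We a_Cj2 a_Mf

theorem a_Wg : StWg := hWg

theorem a_Good : StGood := hGood a_Sieve a_U a_Deep a_Strong a_Wf a_Wg a_Dn a_De1 a_Wb a_Ta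

theorem a_Fs : StFs := hFs

theorem a_Pos : StPos := hPos a_Pol a_Good a_Fs a_Ta

theorem a_Tl : StTl := hTl

theorem a_Tm : StTm := hTm

theorem a_Up0 : StUp0 := hUp0

theorem a_Fin : StFin := hFin a_Pos a_Tl a_Tm a_Up0

end Pool.Agent.Helper54.HQ
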