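import Pool.Agent.Helper54.HQ.StR

/-!
# HQ: from classes and from non-maximal orders to pairs of matrices (statements)
-/

set_option autoImplicit false

namespace Pool.Agent.Helper54.HQ

open Polynomial Finset Filter Topology Matrix IsDedekindDomain
open Pool.Agent.Helper3.HY (co tau Ix nu TType IType rho2 exc Adm Gm)
open Pool.Agent.Helper3

/-- `z` is the image of an element of `R`. -/
def InR {f : ℤ[X]} (z : LL f) : Prop := ∃ r : RR f, z = algebraMap (RR f) (LL f) r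

/-- An `R`-lattice `I` with `α I I ⊆ R` and selfdual: `(α z x ∈ R for all x ∈ I) → z ∈ I`. -/
structure IsIdl {f : ℤ[X]} (α : LL f) (I : Submodule ℤ (LL f)) : Prop where
  th : ∀ x ∈ I, th f * x ∈ I
  int : ∀ x ∈ I, ∀ y ∈ I, InR (α * x * y)
  dual : ∀ z, (∀ x ∈ I, InR (α * z * x)) → z ∈ I
  span : ∀ z : LL f, ∃ a : ℤ, a ≠ 0 ∧ a • z ∈ I

/-- Cd (`R` is selfdual for `tau`).  Translation of `HY.StCd` (proved in `HY/M_Cd.lean`): the coordinates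
of an element of `R` are integers; `tau (θ^j z) ∈ ℤ` for `j = 0, 1, ..` gives successively that
`z_(N-1), z_(N-2), ..` are integers. -/
def StCd : Prop :=
  ∀ (f : ℤ[X]) (hm : f.Monic), 1 ≤ f.natDegree →
    (∀ z : LL f, InR z → ∃ a : ℤ, tau (hm.map (Int.castRingHom ℚ)) z = a) ∧
    (∀ z : LL f, (∀ r : RR f, ∃ a : ℤ, tau (hm.map (Int.castRingHom ℚ))
      (z * algebraMap (RR f) (LL f) r) = a) → InR z)

/-- Ce (the ideal).  Translation of `HY.StCe` (`HY/M_Ce.lean`): in the group of fractional ideals of the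
Dedekind domain `R` the ideal `(α)⁻¹` is a square `J²`; `I = J`. -/
def StCe : Prop :=
  ∀ (f : ℤ[X]), f.Monic →
    ∀ [Fact (Irreducible (fK f))] [IsDedekindDomain (RR f)] [IsFractionRing (RR f) (LL f)]
      (α : LL f), α ≠ 0 → (∀ v, EvenAt v α) → ∃ I : Submodule ℤ (LL f), IsIdl α I

/-- Cf (the integral structure).  `I` is a finitely generated torsion free `ℤ`-module which spans `L`
(finitely generated: fix `y ∈ I` nonzero; `α y x ∈ R` for `x ∈ I`, so `I ≅ α y I ⊆ R`): it has a `ℤ`-basis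
`e` with `N` elements, a `ℚ`-basis of `L`.  The Gram matrix `B` is integral (`int`, Cd).  Unimodular: the
dual basis `e*` (`τ(α e*_i e_j) = δ_ij`) satisfies `τ(α e*_i x) ∈ ℤ` for `x ∈ I`, and `I` is stable under
`R = ℤ[θ]`, so `τ(α e*_i x r) ∈ ℤ`, `α e*_i x ∈ R` (Cd) and `e*_i ∈ I`; hence `B⁻¹` is integral. -/
def StCf : Prop :=
  ∀ (g : ℕ) (f : ℤ[X]) (hm : f.Monic), f.natDegree = 2 * g + 1 → ∀ [Fact (Irreducible (fK f))]
    (α : LL f), α ≠ 0 → ∀ I : Submodule ℤ (LL f), IsIdl α I →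
    ∃ (e : Module.Basis (Ix g) ℚ (LL f)) (B T : Matrix (Ix g) (Ix g) ℤ), IsInt hm α e B T ∧
      ∀ i, e i ∈ I

/-- Cg (discriminant).  Translation of `HY.StCg` (`HY/M_Cg.lean`). -/
def StCg : Prop :=
  ∀ (g : ℕ) (f : ℤ[X]) (hm : f.Monic), f.natDegree = 2 * g + 1 →
    ∀ α : LL f, ∃ b : Module.Basis (Ix g) ℚ (LL f), (∀ i, b i = th f ^ (i : ℕ)) ∧
      (Matrix.of fun i j => Bf hm α (b i) (b j)).det = (-1) ^ g * Algebra.norm ℚ α

/-- Ch1 (distinguished orbit).  Translation of `HY.StCh1` (`HY/M_Ch1.lean`, proof in its docstring in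
`HY/StC.lean`), with the additional conclusion: `v` is the vector of that proof,
`α v² = c ∈ ℚ`; `α` is a square, and `X = span(v, θ v, .., θ^(g-1) v)`. -/
def StCh1 : Prop :=
  ∀ (g : ℕ), 1 ≤ g → ∀ (f : ℤ[X]) (hm : f.Monic), f.natDegree = 2 * g + 1 →
    ∀ [Fact (Irreducible (fK f))] (α : LL f), α ≠ 0 → IsSquare (Algebra.norm ℚ α) →
    ∀ X : Submodule ℚ (LL f), Module.finrank ℚ X = g →
      (∀ x ∈ X, ∀ y ∈ X, Bf hm α x y = 0) → (∀ x ∈ X, ∀ y ∈ X, Bf hm α (th f * x) y = 0) →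
      IsSquare α ∧ ∃ (v : LL f) (c : ℚ), v ≠ 0 ∧ α * v ^ 2 = algebraMap ℚ (LL f) c ∧
        X = Submodule.span ℚ (Set.range fun i : Fin g => th f ^ (i : ℕ) * v)

/-- Cj1 (integrality at `P`).  `α β² = 1 + P r / a`; `(e/β)² = α e² (α β²)⁻¹ ∈ R_(P)`, and `R` is
integrally closed.  See the first half of the proof of `HY.StCj` (`HY/M_Cj.lean`). -/
def StCj1 : Prop :=
  ∀ (f : ℤ[X]), f.Monic →
    ∀ [Fact (Irreducible (fK f))] [IsDedekindDomain (RR f)] [IsFractionRing (RR f) (LL f)]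
      (P : Prm) (α β e : LL f), β ≠ 0 → NearOne P (α * β ^ 2) → InR (α * e ^ 2) →
      ∃ c : ℤ, ¬ pz P ∣ c ∧ InR ((c : LL f) * e * β⁻¹)

/-- Cj2 (local goodness).  `w_i = c_i⁻¹ (c_i e_i / β) mod P ∈ k_P[x]/f̄`; since `α β² ≡ 1`, the element
`w_i w_j` is the reduction of `α e_i e_j` (in the localisation at `P`), so `tau (w_i w_j)` is the reduction
of `τ(α e_i e_j) = b_ij`, and similarly with `θ`.  See the second half of the proof of `HY.StCj`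
(`HY/M_Cj.lean`).  `R` need not be a Dedekind domain. -/
def StCj2 : Prop :=
  ∀ (g : ℕ), 1 ≤ g → ∀ (f : ℤ[X]) (hm : f.Monic), f.natDegree = 2 * g + 1 →
    ∀ [Fact (Irreducible (fK f))] (P : Prm) (α β : LL f), β ≠ 0 → NearOne P (α * β ^ 2) →
    ∀ (e : Module.Basis (Ix g) ℚ (LL f)) (B T : Matrix (Ix g) (Ix g) ℤ), IsInt hm α e B T →
    (∀ i, ∃ c : ℤ, ¬ pz P ∣ c ∧ InR ((c : LL f) * e i * β⁻¹)) →
    ∀ S : Set (kp P)[X], f.map (red P) ∈ S → redP P (B, B * T) ∈ LocPair (kp P) g S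

/-- Ck (a class gives a pair).  Ce, Cf, Mh (`StMh`).  If `TL` holds then `X = span(e'_0, .., e'_(g-1))`
satisfies the hypotheses of Ch1 (`Bf` and `Bf (θ ..)` vanish, Mf), so `α` is a square: excluded; hence
`Adm`.  Local goodness: `e'_i ∈ I` (integral combinations of the `e_i`), `InR (α e'_i²)`, `LocSq` gives `β`;
Cj1, Cj2.  `IsChi`: Mf. -/
def StCk : Prop :=
  ∀ g : ℕ, 1 ≤ g → ∃ (C : ℝ) (κ : ℕ), 1 ≤ C ∧ ∀ H : ℕ, 1 ≤ H → ∀ f ∈ Fam (2 * g + 1) H,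
    ∀ [Fact (Irreducible (fK f))] [IsDedekindDomain (RR f)] [IsFractionRing (RR f) (LL f)]
      (T : Finset Prm), (∀ P ∈ T, f.map (red P) ∈ TType (kp P) g) →
    ∀ α : LL f, α ≠ 0 → IsSquare (Algebra.norm ℚ α) → (∀ v, EvenAt v α) →
      (∀ P ∈ T, LocSq P α) → ¬ IsSquare α → f ∈ BadSet g C κ H T

/-! ### Non-maximal orders -/

/-- Wa (the lattice of a weakly divisible polynomial; `p` an odd prime).  Put `θ' = θ - r`,
`f(x + r) = ∑ b_j x^j`, `b_N = 1`, `b_0 = f(r) ≡ 0 mod p²`, `b_1 = f'(r) ≡ 0 mod p`,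
`v = ∑_(j≥1) b_j θ'^(j-1)` (so `θ' v = - b_0`), `v' = v + p k` with `2 k + b_1/p ≡ 0 mod p`, and
`e = (p, θ', θ'^2, .., θ'^(N-2), v'/p)`.
`τ(θ'^j) = 0` for `j < N-1`, `1` for `j = N-1`; `τ(v) = τ(v') = 1`; `τ(v²) = τ(v ∑ b_j θ'^(j-1)) =
- b_0 ∑_(j≥2) b_j τ(θ'^(j-2)) + b_1 τ(v) = b_1` ; `τ(v'²) = b_1 + 2 p k ≡ 0 mod p²`; `τ(θ'^j v') =
- b_0 τ(θ'^(j-1)) + p k τ(θ'^j) ≡ 0 mod p` for `j ≥ 1`.  So all Gram entries are integers.  Determinant: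
`e` is obtained from the `ℤ`-basis `(1, θ', .., θ'^(N-2), v')` of `R` by a diagonal matrix of determinant
`1`, and that basis has Gram determinant `± 1` (Cg).  Stability: `θ' p = p θ'`; `θ' θ'^(N-2) =
p (v'/p) - b_(N-1) θ'^(N-2) - .. - b_2 θ' - ((b_1 + p k)/p) p`; `θ' (v'/p) = - (b_0/p²) p + k θ'`. -/
def StWa : Prop :=
  ∀ (g : ℕ), 1 ≤ g → ∀ (f : ℤ[X]) (hm : f.Monic), f.natDegree = 2 * g + 1 →
    ∀ (p : ℕ) (r : ℤ), p.Prime → p ≠ 2 → (p : ℤ) ^ 2 ∣ f.eval r →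
      (p : ℤ) ∣ f.derivative.eval r →
    ∃ (e : Module.Basis (Ix g) ℚ (LL f)) (B T : Matrix (Ix g) (Ix g) ℤ), IsInt hm 1 e B T ∧
      (∀ i, InR ((p : LL f) * e i)) ∧
      ∀ i : Ix g, (i : ℕ) < g → e i = (if (i : ℕ) = 0 then (p : LL f) else 1) *
        (th f - (r : LL f)) ^ (i : ℕ)

/-- Wb (the region).  For `f` in the region and a root `ρ`: `ρ^N = - c_N - ∑_(0<i<N) c_i ρ^(N-i)`,
`|ρ| ≤ 2H` (Mc), `|∑| ≤ H^N 2^N / 2^(N+4) = H^N / 16`, so `|ρ|^N ≥ 7 H^N / 16 ≥ H^N / 4` and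
`|ρ|^(N-1) ≥ H^(N-1) / 8`; `|f'(ρ)| ≥ N |ρ|^(N-1) - ∑ (N-i) |c_i| |ρ|^(N-i-1) ≥ N H^(N-1) (1/8 - 1/32)`. -/
def StWb : Prop :=
  ∀ (g H : ℕ), 1 ≤ g → ∀ f ∈ Reg g H, f ∈ Fam (2 * g + 1) H ∧
    ∀ ρ ∈ rts f, (H : ℝ) ^ (2 * g) / 16 ≤ ‖aeval ρ (derivative f)‖

/-- Wc (size of the powers of `θ`).  `met 1 (θ^k) = ∑ |ρ|^(2k) / |f'(ρ)| ≤ N (2H)^(2k) 16 / H^(2g)`. -/
def StWc : Prop :=
  ∀ (g H : ℕ), 1 ≤ g → 1 ≤ H → ∀ f ∈ Reg g H, ∀ (hm : f.Monic) (k : ℕ), k ≤ 2 * g →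
    met hm 1 (th f ^ k) * (H : ℝ) ^ (2 * g) ≤ 16 * (2 * g + 1) * (2 * (H : ℝ)) ^ (2 * k)

/-- Wd (distinguished lattices).  `e` from Wa, `e'_j = ∑_i U_ij e_i` with `det U = ± 1` and `TL`.  By Ch1
(`α = 1`) the space `X = span(e'_0, .., e'_(g-1))` is `span(v, θ v, .., θ^(g-1) v)` with `v² = c ∈ ℚ`; as
`[L : ℚ]` is odd, `c` is a square in `ℚ` (otherwise `ℚ(√c) ⊆ L` has degree 2) and `v ∈ ℚ`, so
`X = span(1, θ, .., θ^(g-1)) = span(e_0, .., e_(g-1))`.  Hence `U_ij = 0` for `i ≥ g > j`, and `det U = ± 1`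
is the product of the determinants of the blocks, so the block `U₁` (`i, j < g`) has determinant `± 1`.
The matrix `P_ij = τ(e'_i θ^(2g-j))` (`i, j < g`) is `U₁ᵀ P⁰`, `P⁰_ij = τ(e_i θ^(2g-j))`, lower triangular
with diagonal `(p, 1, .., 1)` (`(θ - r)^i θ^(2g-j)` has degree `2g + i - j`).  So `det P = ± p`. -/
def StWd : Prop :=
  ∀ (g : ℕ) (hg : 1 ≤ g) (f : ℤ[X]) (hm : f.Monic), f.natDegree = 2 * g + 1 →
    ∀ [Fact (Irreducible (fK f))] (p : ℕ) (r : ℤ) (e : Module.Basis (Ix g) ℚ (LL f)),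
    (∀ i : Ix g, (i : ℕ) < g → e i = (if (i : ℕ) = 0 then (p : LL f) else 1) *
        (th f - (r : LL f)) ^ (i : ℕ)) →
    ∀ (U : Matrix (Ix g) (Ix g) ℤ) (e' : Module.Basis (Ix g) ℚ (LL f))
      (B' T' : Matrix (Ix g) (Ix g) ℤ), IsUnit U.det →
      (∀ j, e' j = ∑ i, ((U i j : ℤ) : ℚ) • e i) → IsInt hm 1 e' B' T' → TL (B', B' * T') →
      |(Matrix.of fun i j : Fin g => Bf hm 1 (e' ⟨i, by omega⟩) (th f ^ (2 * g - (j : ℕ)))).det| = p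

/-- We (the inequality in the deep cusp).  `p = |det P| ≤ g! ∏_i (C 2^(ν_i)) ∏_j (K H^(g-j))` with
`|P_ij| ≤ √(met (e'_i) met (θ^(2g-j)))` (Md), Wc; `∑_(i<g) ν_i = - ∑ m_i`, `∑_(j<g) (g - j) = g(g+1)/2`. -/
def StWe : Prop :=
  ∀ (g : ℕ), 1 ≤ g → ∀ C : ℝ, 1 ≤ C → ∃ C' : ℝ, 1 ≤ C' ∧ ∀ H : ℕ, 1 ≤ H → ∀ f ∈ Reg g H,
    ∀ (hm : f.Monic), Irreducible (fK f) → ∀ (e' : Ix g → LL f) (m : Fin g → ℕ),
      (∀ j, met hm 1 (e' j) ≤ (C * (2 : ℝ) ^ nu g m j) ^ 2) → ∀ p : ℕ,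
      |(Matrix.of fun i j : Fin g => Bf hm 1 (e' ⟨i, by omega⟩) (th f ^ (2 * g - (j : ℕ)))).det|
        = p →
      (p : ℝ) * 2 ^ (∑ i, m i) ≤ C' * (H : ℝ) ^ (g * (g + 1) / 2)

/-- Wf (weakly divisible polynomials).  Wa, Mh with `z = 1`.  If `TL`: Wd, We give
`f ∈ DeepSet` (`M < p`, enlarge the constants).  Otherwise `Adm`, and `LocT`: for `P ∈ T` we have `P ≠ p`
(otherwise `f mod P`, which is squarefree, would have a double root), so Cj2 with `α = β = 1` and `c = p`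
(`e'_i` is an integral combination of the `e_i`). -/
def StWf : Prop :=
  ∀ g : ℕ, 1 ≤ g → ∃ (C : ℝ) (κ : ℕ), 1 ≤ C ∧ ∀ H : ℕ, 1 ≤ H → ∀ f ∈ Reg g H,
    Irreducible (fK f) → ∀ (T : Finset Prm), (∀ P ∈ T, f.map (red P) ∈ TType (kp P) g) →
    ∀ (M p : ℕ), p.Prime → p ≠ 2 → M < p → Weak p f →
      f ∈ BadSet g C κ H T ∪ DeepSet g C κ H M

/-- Wg (the constants).  `BadSet` and `DeepSet` are monotone in `C` and in `κ`. -/
def StWg : Prop :=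
  ∀ (g : ℕ) (C C' : ℝ) (κ κ' H M : ℕ) (T : Finset Prm), 0 ≤ C → C ≤ C' → κ ≤ κ' →
    BadSet g C κ H T ⊆ BadSet g C' κ' H T ∧ DeepSet g C κ H M ⊆ DeepSet g C' κ' H M

/-! ### Dedekind domains -/

/-- De1 (irreducibility): `f mod 2` is irreducible and `f` is monic
(`Monic.irreducible_of_irreducible_map`, Gauss); separable in characteristic 0. -/
def StDe1 : Prop :=
  ∀ (f : ℤ[X]), f.Monic → Irreducible (f.map (Int.castRingHom (ZMod 2))) →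
    Irreducible (fK f) ∧ (fK f).Separable

/-- De2.  Translation of `HY.StDe2` (`HY/M_De2.lean`). -/
def StDe2 : Prop := ∀ (f : ℤ[X]), f.Monic → Irreducible (fK f) → IsFractionRing (RR f) (LL f)

/-- De3.  Translation of `HY.StDe3` (`HY/M_De3.lean`): a maximal ideal of `ℤ[x]` containing the monic `f` is
generated by two elements `(p, φ)` (`p` prime, `φ` monic, irreducible modulo `p`). -/
def StDe3 : Prop :=
  ∀ (f : ℤ[X]), f.Monic → 1 ≤ f.natDegree → Irreducible (fK f) → Smooth f →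
    IsDedekindDomain (RR f)

/-- De4.  Let `f ∈ m²`, `m` maximal; `p ∈ m` prime (if `m ∩ ℤ = 0` the field `ℤ[x]/m` would contain `ℤ` and
be finitely generated as a ring: impossible; or: `f` monic is in `m`, so `ℤ[x]/m` is finite over `ℤ/(m∩ℤ)`,
which is then a field).  `m = (p, φ)` with `φ` monic and irreducible modulo `p`,
`f ∈ (p², p φ, φ²)`.  So `φ̄² ∣ f̄`: if `deg φ ≥ 2` then `Strong p f`.  If `φ = x - r`: evaluate at `r`:
`p² ∣ f(r)`; derivative: `f' ∈ (p, φ) `, `p ∣ f'(r)`: `Weak p f`. -/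
def StDe4 : Prop :=
  ∀ (f : ℤ[X]), f.Monic → (∀ p : ℕ, p.Prime → ¬ Weak p f ∧ ¬ Strong p f) → Smooth f

end Pool.Agent.Helper54.HQ
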