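import Pool.Agent.Helper54.HQ.DefsU

/-!
# HQ: reduction theory and the canonical metric (statements)
-/

set_option autoImplicit false

namespace Pool.Agent.Helper54.HQ

open Polynomial Finset Filter Topology Matrix IsDedekindDomain
open Pool.Agent.Helper3.HY (co tau Ix nu TType IType rho2 exc Adm Gm)
open Pool.Agent.Helper3

/-- The real matrix of an integral matrix. -/
abbrev toR {n : ℕ} (U : Matrix (Fin n) (Fin n) ℤ) : Matrix (Fin n) (Fin n) ℝ := U.map (Int.cast : ℤ → ℝ)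

/-- `U` is a reduced basis for the quadratic form `S`: `Uᵀ S U = Mᵀ diag(a²) M` with `M` upper
unitriangular, `|M_ij| ≤ 1/2`, `a_i² ≤ 2 a_(i+1)²`. -/
structure IsRed {n : ℕ} (S : Matrix (Fin n) (Fin n) ℝ) (U : Matrix (Fin n) (Fin n) ℤ)
    (M : Matrix (Fin n) (Fin n) ℝ) (a : Fin n → ℝ) : Prop where
  unit : IsUnit U.det
  diag : ∀ i, M i i = 1
  low : ∀ i j, j < i → M i j = 0
  small : ∀ i j, i < j → |M i j| ≤ 1 / 2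
  pos : ∀ i, 0 < a i
  step : ∀ i j : Fin n, (i : ℕ) + 1 = j → a i ^ 2 ≤ 2 * a j ^ 2
  eq : (toR U)ᵀ * S * toR U = Mᵀ * Matrix.diagonal (fun i => a i ^ 2) * M

/-- Ra (shortest vector).  `S` is positive definite, so there is `ε > 0` with `xᵀ S x ≥ ε ∑ x_i²` for real
`x` (compactness of the sphere, or `S = PᵀP` with `P` invertible); only finitely many integral vectors lie
below a given bound; take the minimum over the nonzero ones. -/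
def StRa : Prop :=
  ∀ (n : ℕ) (S : Matrix (Fin (n + 1)) (Fin (n + 1)) ℝ), S.PosDef →
    ∃ x : Fin (n + 1) → ℤ, x ≠ 0 ∧ ∀ y : Fin (n + 1) → ℤ, y ≠ 0 → qS S x ≤ qS S y

/-- Rb (primitive vectors).  A primitive integral vector is the first column of a matrix of
determinant `± 1`.  For example: among the matrices `V` of determinant `± 1` (products of elementary
matrices) choose one with `∑ |(V x)_i|` minimal (Euclid: if two entries are nonzero one of them can be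
made smaller), so `V x = ± d e_j`, `d = 1` by primitivity; after a signed permutation `V x = e_0`,
`U = V⁻¹`.  (Or: `ℤ^(n+1) / ℤ x` is torsion free, hence free.) -/
def StRb : Prop :=
  ∀ (n : ℕ) (x : Fin (n + 1) → ℤ), (∀ (d : ℤ) (y : Fin (n + 1) → ℤ), x = d • y → IsUnit d) →
    ∃ U : Matrix (Fin (n + 1)) (Fin (n + 1)) ℤ, IsUnit U.det ∧ ∀ i, U i 0 = x i

/-- Rc (reduced bases exist).  Induction on `n`.  `n = 0`: trivial.  Step `n + 1`: `x` from Ra is primitive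
(if `x = d y` then `qS S x = d² qS S y`), `U₁` from Rb, `S₁ = U₁ᵀ S U₁`, `s = S₁ 0 0 = qS S x > 0`,
`t_j = S₁ 0 (j+1) / s`, `S'_jk = S₁ (j+1) (k+1) - s t_j t_k` is positive definite (Schur complement:
`S₁(x₀, x') = s (x₀ + t·x')² + S'(x')`).  Induction: `U', M', a'` for `S'`.  Let `r_j` be an integer with
`|(t U')_j - r_j| ≤ 1/2` (`round`), `U = U₁ (1, -r; 0, U')`, `M = (1, t U' - r; 0, M')`,
`a_0 = √s`, `a_(j+1) = a'_j`.  Step condition at `0`: the second column `v` of `U` is nonzero and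
`s ≤ qS S v = s M_01² + a'_0² ≤ s/4 + a'_0²`. -/
def StRc : Prop :=
  ∀ (n : ℕ) (S : Matrix (Fin n) (Fin n) ℝ), S.PosDef →
    ∃ (U : Matrix (Fin n) (Fin n) ℤ) (M : Matrix (Fin n) (Fin n) ℝ) (a : Fin n → ℝ), IsRed S U M a

/-- Rd (reduced bases are almost orthogonal).  For `x` integral, `qS S (U x) = ∑_l a_l² ((M x)_l)²`,
`(M x)_l = x_l + ∑_(j>l) M_lj x_j`.  First: `a_i² ≤ 2^(j-i) a_j²` for `i ≤ j`.  Second:
`qS S (U e_j) = ∑_(i≤j) a_i² M_ij² ≤ a_j² (1 + ∑_(i<j) 2^(j-i) / 4) ≤ 2^n a_j²`.  Third: if `x_k ≠ 0` let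
`l ≥ k` be the last index with `x_l ≠ 0`: `(M x)_l = x_l`, so `a_k² ≤ 2^n a_l² ≤ 2^n qS S (U x)`.
Fourth: determinants (`det M = 1`). -/
def StRd : Prop :=
  ∀ (n : ℕ) (S : Matrix (Fin n) (Fin n) ℝ) (U : Matrix (Fin n) (Fin n) ℤ)
    (M : Matrix (Fin n) (Fin n) ℝ) (a : Fin n → ℝ), IsRed S U M a →
    (∀ i j, i ≤ j → a i ^ 2 ≤ 2 ^ n * a j ^ 2) ∧
    (∀ j, qS S (fun i => U i j) ≤ 2 ^ n * a j ^ 2) ∧
    (∀ (x : Fin n → ℤ) (k : Fin n), x k ≠ 0 → a k ^ 2 ≤ 2 ^ n * qS S (U *ᵥ x)) ∧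
    ∏ i, a i ^ 2 = S.det

/-- Re (duality).  `B` unimodular, `(xᵀ B y)² ≤ S(x) S(y)`.  With `B' = Uᵀ B U` (integral, `det = ± 1`):
`B'_kl² ≤ qS S (U e_k) qS S (U e_l) ≤ 4^n a_k² a_l²`.  Suppose `a_i² a_(rev i)² < 2^(-4n)`.  For `k ≤ i` and
`l ≤ rev i`: `a_k² a_l² ≤ 4^n a_i² a_(rev i)²`, so `B'_kl² < 1`, `B'_kl = 0`: the `i + 1` first rows of `B'`
have zeros in the first `n - i` columns, so they live in `i` columns and are dependent: `det B' = 0`,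
contradiction.  Upper bound: `∏_i a_i² a_(rev i)² = det(S)² = 1`, so
`a_i² a_(rev i)² ≤ 2^(4 n (n-1)) ≤ 2^(4 n²)`. -/
def StRe : Prop :=
  ∀ (n : ℕ) (S : Matrix (Fin n) (Fin n) ℝ) (U : Matrix (Fin n) (Fin n) ℤ)
    (M : Matrix (Fin n) (Fin n) ℝ) (a : Fin n → ℝ), IsRed S U M a → S.det = 1 →
    ∀ B : Matrix (Fin n) (Fin n) ℤ, IsUnit B.det →
    (∀ x y : Fin n → ℤ, (((x ⬝ᵥ B *ᵥ y : ℤ)) : ℝ) ^ 2 ≤ qS S x * qS S y) →
    ∀ i, 1 ≤ 2 ^ (4 * n) * (a i ^ 2 * a (Fin.rev i) ^ 2) ∧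
      a i ^ 2 * a (Fin.rev i) ^ 2 ≤ 2 ^ (4 * n ^ 2)

/-- Rf (steps).  `T` is an integral matrix with irreducible characteristic polynomial over `ℚ` and
`S(T x) ≤ (2H)² S(x)`.  Suppose `a_(k+1)² > 2^(4n+2) H² a_k²`, `k + 1 < n`.  `T' = U⁻¹ T U` is integral; for
`j ≤ k`: `S(U T' e_j) ≤ 4 H² 2^n a_j² ≤ 4 H² 4^n a_k²`; if `T'_lj ≠ 0` for some `l ≥ k + 1` then
`a_(k+1)² ≤ 2^n a_l² ≤ 4^n S(U T' e_j) ≤ 2^(4n+2) H² a_k²`, contradiction.  So `T'` is block upper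
triangular with a square block of size `k + 1`, `0 < k + 1 < n`, and `charpoly T = charpoly T'` is
reducible. -/
def StRf : Prop :=
  ∀ (n : ℕ) (S : Matrix (Fin n) (Fin n) ℝ) (U : Matrix (Fin n) (Fin n) ℤ)
    (M : Matrix (Fin n) (Fin n) ℝ) (a : Fin n → ℝ), IsRed S U M a → ∀ (H : ℝ), 0 ≤ H →
    ∀ T : Matrix (Fin n) (Fin n) ℤ, Irreducible (T.charpoly.map (Int.castRingHom ℚ)) →
    (∀ x : Fin n → ℤ, qS S (T *ᵥ x) ≤ (2 * H) ^ 2 * qS S x) →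
    ∀ i j : Fin n, (i : ℕ) + 1 = j → a j ^ 2 ≤ 2 ^ (4 * n + 2) * H ^ 2 * a i ^ 2

/-- Rg (the type).  `n = 2 g + 1`.  For `i < g` put `s_i = min(1, a_i, a_(i+1), .., a_(g-1))` (increasing
in `i`, `≤ 1`) and let `m_i` be the natural number with `2^(-m_i-1) < s_i ≤ 2^(-m_i)`; `m` is antitone.
`s_i ≤ a_i`; and `a_i ≤ K s_i` because `a_i² ≤ 2^n a_j²` for `i ≤ j` and `a_i² ≤ 2^n a_(rev i)² `,
`a_i² a_(rev i)² ≤ c₂` bound `a_i`.  So `a_i` and `2^(ν_i)` agree up to a constant for `i < g`; for `i = g`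
use `c₁ ≤ a_g⁴ ≤ c₂`, for `i > g` the product `a_i a_(rev i)` and `ν_(rev i) = - ν_i`. -/
def StRg : Prop :=
  ∀ (g : ℕ) (c₁ c₂ : ℝ), 0 < c₁ → ∃ K : ℝ, 1 ≤ K ∧ ∀ a : Ix g → ℝ, (∀ i, 0 < a i) →
    (∀ i j, i ≤ j → a i ^ 2 ≤ 2 ^ (2 * g + 1) * a j ^ 2) →
    (∀ i, c₁ ≤ a i ^ 2 * a (Fin.rev i) ^ 2 ∧ a i ^ 2 * a (Fin.rev i) ^ 2 ≤ c₂) →
    ∃ m : Fin g → ℕ, Antitone m ∧ ∀ i, (2 : ℝ) ^ nu g m i ≤ K * a i ∧ a i ≤ K * (2 : ℝ) ^ nu g m i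

/-- Rh (the pair of a reduced basis), `n = 2 g + 1`.  Rc, Rd, Re, Rf, Rg.  `B' = Uᵀ B U`,
`A' = Uᵀ (B T) U` symmetric; `|B'_ij| ≤ √(S(U e_i) S(U e_j)) ≤ 2^n a_i a_j ≤ 2^n K² 2^(ν_i+ν_j)`;
`A'_ij = (U e_i)ᵀ B (T U e_j)`, `|A'_ij| ≤ 2 H 2^n a_i a_j`.  Steps: `2^(ν_(i+1)-ν_i) ≤ K² a_(i+1)/a_i ≤
K² 2^(2n+1) H ≤ 2^(log₂ H + κ)` (`H < 2^(log₂ H + 1)`), for `i = g - 1` use `ν_g = 0`.  Dichotomy: if
`2 m_(g-1) > log₂ H + κ` then for `i, j < g`: `|B'_ij|, |A'_ij| ≤ 2 H C 2^(-2 m_(g-1)) < 1` for `κ` large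
(`H ≥ 1`, `ν_i ≤ ν_(g-1)`), so these entries vanish. -/
def StRh : Prop :=
  ∀ g : ℕ, 1 ≤ g → ∃ (C : ℝ) (κ : ℕ), 1 ≤ C ∧ ∀ H : ℕ, 1 ≤ H →
    ∀ (S : Matrix (Ix g) (Ix g) ℝ) (B T : Matrix (Ix g) (Ix g) ℤ), S.PosDef → S.det = 1 →
    B.IsSymm → IsUnit B.det → (B * T).IsSymm →
    Irreducible (T.charpoly.map (Int.castRingHom ℚ)) →
    (∀ x y : Ix g → ℤ, (((x ⬝ᵥ B *ᵥ y : ℤ)) : ℝ) ^ 2 ≤ qS S x * qS S y) →
    (∀ x : Ix g → ℤ, qS S (T *ᵥ x) ≤ (2 * (H : ℝ)) ^ 2 * qS S x) →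
    ∃ (U : Matrix (Ix g) (Ix g) ℤ) (m : Fin g → ℕ), IsUnit U.det ∧
      DAdm g (Nat.log 2 H + κ) m ∧ InBox g C H m (Uᵀ * B * U, Uᵀ * (B * T) * U) ∧
      (∀ j, qS S (fun i => U i j) ≤ (C * (2 : ℝ) ^ nu g m j) ^ 2) ∧
      (Adm g (Nat.log 2 H + κ) m ∨ TL (Uᵀ * B * U, Uᵀ * (B * T) * U))

/-! ### The canonical metric -/

/-- The complex roots of `f`. -/
noncomputable def rts (f : ℤ[X]) : Finset ℂ := (f.map (Int.castRingHom ℂ)).roots.toFinset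

/-- The value of `x = ∑ x_i θ^i` at `ρ`. -/
noncomputable def evc {f : ℤ[X]} (hm : f.Monic) (ρ : ℂ) (x : LL f) : ℂ :=
  ∑ i ∈ range f.natDegree, ((co (hm.map (Int.castRingHom ℚ)) i x : ℚ) : ℂ) * ρ ^ i

/-- `∑_ρ |z(ρ)| |x(ρ)|² / |f'(ρ)|`. -/
noncomputable def met {f : ℤ[X]} (hm : f.Monic) (z x : LL f) : ℝ :=
  ∑ ρ ∈ rts f, ‖evc hm ρ z‖ * ‖evc hm ρ x‖ ^ 2 / ‖aeval ρ (derivative f)‖

/-- Ma (evaluation).  `evc hm ρ (mk p) = p(ρ)` for a root `ρ` (`p mod f`). -/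
def StMa : Prop :=
  ∀ (f : ℤ[X]) (hm : f.Monic), 1 ≤ f.natDegree →
    (∀ (ρ : ℂ) (x y : LL f) (a : ℚ), evc hm ρ (x + y) = evc hm ρ x + evc hm ρ y ∧
      evc hm ρ (a • x) = (a : ℂ) * evc hm ρ x) ∧
    (∀ ρ ∈ rts f, ∀ x y : LL f, evc hm ρ (x * y) = evc hm ρ x * evc hm ρ y) ∧
    (∀ ρ ∈ rts f, evc hm ρ (th f) = ρ ∧ evc hm ρ 1 = 1) ∧
    (∀ ρ ∈ rts f, aeval ρ f = 0) ∧
    ∀ (ρ : ℂ) (x : LL f), evc hm ((starRingEnd ℂ) ρ) x = (starRingEnd ℂ) (evc hm ρ x)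

/-- Mb (Euler).  Lagrange interpolation at the `N` distinct roots: the coefficient of `x^(N-1)` of the
polynomial of degree `< N` with values `x(ρ)` is `∑ x(ρ) / f'(ρ)`. -/
def StMb : Prop :=
  ∀ (f : ℤ[X]) (hm : f.Monic), 1 ≤ f.natDegree → (fK f).Separable → (rts f).card = f.natDegree ∧
    (∀ ρ ∈ rts f, aeval ρ (derivative f) ≠ 0) ∧
    ∀ x : LL f, ((tau (hm.map (Int.castRingHom ℚ)) x : ℚ) : ℂ) =
      ∑ ρ ∈ rts f, evc hm ρ x / aeval ρ (derivative f)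

/-- Mc (size of the roots).  `|ρ| > 2 H` would give
`|ρ|^N = |∑ c_i ρ^(N-i)| ≤ |ρ|^N ∑_(i≥1) (H/|ρ|)^i < |ρ|^N`. -/
def StMc : Prop :=
  ∀ (N H : ℕ), ∀ f ∈ Fam N H, ∀ ρ ∈ rts f, ‖ρ‖ ≤ 2 * H

/-- Md (the metric bounds the form): Mb and Cauchy-Schwarz; `|θ(ρ)| = |ρ| ≤ 2 H` (Mc). -/
def StMd : Prop :=
  ∀ (N H : ℕ), 1 ≤ N → ∀ f ∈ Fam N H, ∀ (hm : f.Monic), (fK f).Separable → ∀ z : LL f,
    (∀ x y : LL f, ((Bf hm z x y : ℚ) : ℝ) ^ 2 ≤ met hm z x * met hm z y) ∧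
    ∀ x : LL f, met hm z (th f * x) ≤ (2 * (H : ℝ)) ^ 2 * met hm z x

/-- Me (the matrix of the metric).  `V_(ρ,i) = e_i(ρ)` (an `N × N` matrix, rows indexed by the roots),
`w_ρ = |z(ρ)| / |f'(ρ)| > 0` (`L` is a field, `z ≠ 0`).  `S_ij = ∑_ρ w_ρ Re(conj(V_ρi) V_ρj)
= ∑_ρ w_ρ conj(V_ρi) V_ρj` (the roots come in conjugate pairs, Ma), so `S = V* diag(w) V`.  Gram matrix
(Mb): `B = Vᵀ diag(z(ρ)/f'(ρ)) V`.  So `det S = |det V|² ∏ w_ρ = |det B|`, which is `1`; positive definite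
because `det ≠ 0`.  `met` is real: `met (∑ x_i e_i) = xᵀ S x`. -/
def StMe : Prop :=
  ∀ (g : ℕ), ∀ (f : ℤ[X]) (hm : f.Monic), f.natDegree = 2 * g + 1 → Irreducible (fK f) →
    ∀ z : LL f, z ≠ 0 → ∀ e : Module.Basis (Ix g) ℚ (LL f),
    |(Matrix.of fun i j => Bf hm z (e i) (e j)).det| = 1 →
    ∃ S : Matrix (Ix g) (Ix g) ℝ, S.PosDef ∧ S.det = 1 ∧
      ∀ x : Ix g → ℤ, qS S x = met hm z (∑ i, (x i : ℚ) • e i)

/-- An integral structure: a basis `e` of `L` with unimodular integral Gram matrix `B` for `τ(z x y)`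
whose `ℤ`-span is stable under `θ` (with matrix `T`). -/
structure IsInt {g : ℕ} {f : ℤ[X]} (hm : f.Monic) (z : LL f) (e : Module.Basis (Ix g) ℚ (LL f))
    (B T : Matrix (Ix g) (Ix g) ℤ) : Prop where
  gram : ∀ i j, Bf hm z (e i) (e j) = (B i j : ℚ)
  unit : IsUnit B.det
  mat : ∀ j, th f * e j = ∑ i, ((T i j : ℤ) : ℚ) • e i

/-- Mf (algebra of integral structures).  `B` is symmetric, `B T` is the matrix of `τ(z θ x y)`, hence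
symmetric; `charpoly T` is the characteristic polynomial of the multiplication by `θ`, i.e. `f`
(`charpoly` of a matrix of `θ` in a basis; the minimal polynomial is `f`, of degree `N`);
`det (x B - B T) = det B · charpoly T`. -/
def StMf : Prop :=
  ∀ (g : ℕ) (f : ℤ[X]) (hm : f.Monic), f.natDegree = 2 * g + 1 → Irreducible (fK f) →
    ∀ (z : LL f) (e : Module.Basis (Ix g) ℚ (LL f)) (B T : Matrix (Ix g) (Ix g) ℤ),
    IsInt hm z e B T → B.IsSymm ∧ (B * T).IsSymm ∧ T.charpoly = f ∧ IsChi (B, B * T) f ∧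
      ∀ i j, Bf hm z (th f * e i) (e j) = (((B * T) i j : ℤ) : ℚ)

/-- Mg (change of basis).  `e'_j = ∑_i U_ij e_i`, `det U = ± 1`: `B' = Uᵀ B U`, `T' = U⁻¹ T U`,
`B' T' = Uᵀ (B T) U`. -/
def StMg : Prop :=
  ∀ (g : ℕ) (f : ℤ[X]) (hm : f.Monic), f.natDegree = 2 * g + 1 → Irreducible (fK f) →
    ∀ (z : LL f) (e : Module.Basis (Ix g) ℚ (LL f)) (B T U : Matrix (Ix g) (Ix g) ℤ),
    IsInt hm z e B T → IsUnit U.det → ∃ (e' : Module.Basis (Ix g) ℚ (LL f))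
      (T' : Matrix (Ix g) (Ix g) ℤ), IsInt hm z e' (Uᵀ * B * U) T' ∧
      (∀ j, e' j = ∑ i, ((U i j : ℤ) : ℚ) • e i) ∧ Uᵀ * B * U * T' = Uᵀ * (B * T) * U

/-- Mh (the pair of an integral structure).  Md, Me, Mf and Rh; `e'` from Mg.  (`(x ⬝ᵥ B *ᵥ y)` is
`Bf z (∑ x_i e_i) (∑ y_j e_j)`, `T *ᵥ x` are the coordinates of `θ ∑ x_i e_i`.) -/
def StMh : Prop :=
  ∀ g : ℕ, 1 ≤ g → ∃ (C : ℝ) (κ : ℕ), 1 ≤ C ∧ ∀ H : ℕ, 1 ≤ H → ∀ f ∈ Fam (2 * g + 1) H,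
    ∀ (hm : f.Monic), Irreducible (fK f) → ∀ z : LL f, z ≠ 0 →
    ∀ (e : Module.Basis (Ix g) ℚ (LL f)) (B T : Matrix (Ix g) (Ix g) ℤ), IsInt hm z e B T →
    ∃ (U : Matrix (Ix g) (Ix g) ℤ) (e' : Module.Basis (Ix g) ℚ (LL f))
      (B' T' : Matrix (Ix g) (Ix g) ℤ) (m : Fin g → ℕ), IsUnit U.det ∧
      (∀ j, e' j = ∑ i, ((U i j : ℤ) : ℚ) • e i) ∧ IsInt hm z e' B' T' ∧
      DAdm g (Nat.log 2 H + κ) m ∧ InBox g C H m (B', B' * T') ∧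
      (∀ j, met hm z (e' j) ≤ (C * (2 : ℝ) ^ nu g m j) ^ 2) ∧
      (Adm g (Nat.log 2 H + κ) m ∨ TL (B', B' * T'))

end Pool.Agent.Helper54.HQ
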