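import Pool.Agent.Helper54.HQ.StI

/-!
# HQ module Hc0: unit parts of `p`-adic numbers
-/

set_option autoImplicit false

namespace Pool.Agent.Helper54.HQ

private lemma p_ne_Hc0 (p : ℕ) [hp : Fact p.Prime] : (p : ℚ_[p]) ≠ 0 :=
  Nat.cast_ne_zero.2 hp.out.ne_zero

private lemma norm_Hc0 (p : ℕ) [hp : Fact p.Prime] {x : ℚ_[p]} (hx : x ≠ 0) :
    ‖x * (p : ℚ_[p]) ^ (-x.valuation)‖ = 1 := by
  have hp0 : (p : ℝ) ≠ 0 := Nat.cast_ne_zero.2 hp.out.ne_zero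
  rw [norm_mul, Padic.norm_p_zpow, Padic.norm_eq_zpow_neg_valuation hx, ← zpow_add₀ hp0, neg_neg,
    neg_add_cancel, zpow_zero]

private lemma coe_Hc0 (p : ℕ) [hp : Fact p.Prime] {x : ℚ_[p]} (hx : x ≠ 0) :
    (ur p x : ℚ_[p]) = x * (p : ℚ_[p]) ^ (-x.valuation) := by
  unfold ur
  rw [dif_pos (norm_Hc0 p hx).le]

theorem hHc0 : StHc0 := by
  intro p hp
  have hp0 := p_ne_Hc0 p
  refine ⟨fun x hx => ⟨?_, ?_⟩, fun x y hx hy => ⟨?_, ?_⟩, fun x hx hv => ?_⟩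
  · rw [PadicInt.isUnit_iff, ← PadicInt.padic_norm_e_of_padicInt, coe_Hc0 p hx]
    exact norm_Hc0 p hx
  · rw [coe_Hc0 p hx, mul_left_comm, ← zpow_add₀ hp0, add_neg_cancel, zpow_zero, mul_one]
  · apply Subtype.coe_injective
    show (ur p (x * y) : ℚ_[p]) = ((ur p x * ur p y : ℤ_[p]) : ℚ_[p])
    rw [PadicInt.coe_mul, coe_Hc0 p (mul_ne_zero hx hy), coe_Hc0 p hx, coe_Hc0 p hy,
      Padic.valuation_mul hx hy, neg_add, zpow_add₀ hp0]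
    ring
  · unfold v2
    rw [Padic.valuation_mul hx hy, Int.cast_add]
  · rw [coe_Hc0 p hx, hv, neg_zero, zpow_zero, mul_one]

end Pool.Agent.Helper54.HQ
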