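import Pool.Agent.Helper54.HQ.StC
import Pool.Agent.Helper54.HQ.StL

/-!
# HQ: isotropy of the Selmer classes (statements)

Hasse invariants (with values in `ZMod 2`) of the quadratic forms `τ(z x²)` on `L` and the product
formula for Hilbert symbols over `ℚ`.
-/

set_option autoImplicit false

namespace Pool.Agent.Helper54.HQ

open Polynomial Finset Filter Topology Matrix IsDedekindDomain
open Pool.Agent.Helper3.HY (co tau Ix nu TType IType baseChange descentGroup IsPointValue IsTwPoint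
  twGroup)
open Pool.Agent.Helper54.HL (tk IrrInt IrrBig Nr Rep RepA RepB pr pr_mk IsTwIrr LinePt RootLift)

/-! ### Symbols and Hasse invariants -/

/-- A symbol on `K` with values in `ZMod 2`. -/
structure IsSym (K : Type) [Field K] (s : K → K → ZMod 2) : Prop where
  mul : ∀ a b c : K, a ≠ 0 → b ≠ 0 → c ≠ 0 → s (a * b) c = s a c + s b c
  symm : ∀ a b : K, s a b = s b a
  stein : ∀ a b : K, a ≠ 0 → b ≠ 0 → a + b = 1 → s a b = 0

/-- The Hasse invariant of the diagonal form `⟨a_i⟩`. -/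
def hasse {K : Type} (s : K → K → ZMod 2) {n : ℕ} (a : Fin n → K) : ZMod 2 :=
  ∑ p : Fin n × Fin n, if p.1 < p.2 then s (a p.1) (a p.2) else 0

/-- `e` is an orthogonal basis of `k[x]/h` for the form `τ(z x y)`, with norms `a_i`. -/
structure IsOrth {K : Type} [Field K] {h : K[X]} (hm : h.Monic) (z : AdjoinRoot h) {n : ℕ}
    (e : Module.Basis (Fin n) K (AdjoinRoot h)) (a : Fin n → K) : Prop where
  orth : ∀ i j, i ≠ j → tau hm (z * e i * e j) = 0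
  norm : ∀ i, tau hm (z * e i * e i) = a i
  ne : ∀ i, a i ≠ 0

/-- Ha1 (dimension 2).  `⟨a₁, a₂⟩ ≅ ⟨b₁, b₂⟩`: `b₁ = a₁ x² + a₂ y²`, `b₁ b₂ = a₁ a₂ c²`.  If `x, y ≠ 0` the
relation `a₁x²/b₁ + a₂y²/b₁ = 1` gives (squares can be dropped since `s(c², d) = 2 s(c, d) = 0`)
`0 = s(a₁/b₁, a₂/b₁) = s(a₁,a₂) + s(a₁,b₁) + s(b₁,a₂) + s(b₁,b₁) = s(a₁,a₂) + s(b₁, a₁a₂b₁)`, and
`a₁ a₂ b₁ = b₂ (b₁/c)²`.  If `y = 0`: `b₁ ~ a₁`, `b₂ ~ a₂`; if `x = 0`: `b₁ ~ a₂`, `b₂ ~ a₁`. -/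
def StHa1 : Prop :=
  ∀ (K : Type) [Field K] (s : K → K → ZMod 2), IsSym K s → ∀ a₁ a₂ b₁ b₂ x y c : K,
    a₁ ≠ 0 → a₂ ≠ 0 → b₁ ≠ 0 → b₂ ≠ 0 → c ≠ 0 → b₁ = a₁ * x ^ 2 + a₂ * y ^ 2 →
    b₁ * b₂ = a₁ * a₂ * c ^ 2 → s a₁ a₂ = s b₁ b₂

/-- Ha (invariance of the Hasse invariant).  `V` with a symmetric bilinear form `B`; two orthogonal bases
`e`, `f` with nonzero norms `a`, `b`.  Induction on `n` (`n ≤ 1` trivial), and for given `n` induction on
the number `r ≥ 1` of nonzero coordinates `x_i` of `f_0` in the basis `e`.  The Hasse invariant does not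
change if the basis is permuted, and `hasse a = s(a_i, ∏_(j≠i) a_j) + hasse (a_j)_(j≠i)`.
`r = 1`: `f_0 = x e_i`, `b_0 = a_i x²`; the `e_j` (`j ≠ i`) and `f_1, f_2, ..` are orthogonal bases of the
orthogonal complement of `f_0`, so their Hasse invariants agree (induction on `n`) and the products of
their norms agree up to a square.  `r ≥ 2`: there are `i ≠ k` with `x_i, x_k ≠ 0` and
`c = a_i x_i² + a_k x_k² ≠ 0` (if `r = 2` then `c = b_0`; if `r ≥ 3` and all these sums vanish then for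
three indices `2 a_1 x_1² = 0`).  Replace `e_i` by `x_i e_i + x_k e_k` and `e_k` by
`a_k x_k e_i - a_i x_i e_k` (norm `a_i a_k c`): an orthogonal basis with the same Hasse invariant (Ha1 for the
two norms, and `a_i a_k` changes by the square `c²`), for which `f_0` has `r - 1` nonzero
coordinates. -/
def StHa : Prop :=
  StHa1 → ∀ (K : Type) [Field K] (s : K → K → ZMod 2), IsSym K s → (2 : K) ≠ 0 →
    ∀ (V : Type) [AddCommGroup V] [Module K V] (B : LinearMap.BilinForm K V),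
    (∀ x y, B x y = B y x) → ∀ (n : ℕ) (e f : Module.Basis (Fin n) K V),
    (∀ i j, i ≠ j → B (e i) (e j) = 0) → (∀ i j, i ≠ j → B (f i) (f j) = 0) →
    (∀ i, B (e i) (e i) ≠ 0) → (∀ i, B (f i) (f i) ≠ 0) →
    hasse s (fun i => B (e i) (e i)) = hasse s (fun i => B (f i) (f i))

/-- Hb (split forms).  `X` is totally isotropic of dimension `g` in a nondegenerate space of dimension
`2 g + 1`.  By induction on `g` there is an orthogonal basis with norms `1, -1, .., 1, -1, δ`: take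
`0 ≠ x ∈ X`, `y` with `B x y = 1`, replace `y` by `y - (B y y / 2) x`; `x + y/2`, `x - y/2` have norms
`1, -1`; the complement of this plane contains the isotropic space `{x' ∈ X : B x' y = 0}` of dimension
`g - 1`.  The discriminant gives `δ = c²` up to squares, normalise `δ = 1`.  By Ha the Hasse invariant is that
of `⟨1, -1, .., 1⟩`: `s(1, ·) = 0`, so it is `C(g, 2) s(-1, -1)`. -/
def StHb : Prop :=
  ∀ (K : Type) [Field K] (s : K → K → ZMod 2), IsSym K s → (2 : K) ≠ 0 →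
    ∀ (V : Type) [AddCommGroup V] [Module K V] (B : LinearMap.BilinForm K V),
    (∀ x y, B x y = B y x) → ∀ (g : ℕ) (e : Module.Basis (Ix g) K V),
    (∀ i j, i ≠ j → B (e i) (e j) = 0) → (∀ i, B (e i) (e i) ≠ 0) →
    (∃ c : K, c ≠ 0 ∧ ∏ i, B (e i) (e i) = (-1) ^ g * c ^ 2) →
    (∃ X : Submodule K V, Module.finrank K X = g ∧ ∀ x ∈ X, ∀ y ∈ X, B x y = 0) →
    hasse s (fun i => B (e i) (e i)) = (g.choose 2 : ZMod 2) * s (-1) (-1)

/-! ### The symbols -/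

/-- `0` for squares, `1` otherwise. -/
noncomputable def lg {κ : Type} [CommRing κ] (x : κ) : ZMod 2 := by
  classical exact if IsSquare x then 0 else 1

/-- The unit part of a `p`-adic number. -/
noncomputable def ur (p : ℕ) [Fact p.Prime] (x : ℚ_[p]) : ℤ_[p] := by
  classical exact if h : ‖x * (p : ℚ_[p]) ^ (-x.valuation)‖ ≤ 1 then ⟨_, h⟩ else 0

/-- The valuation modulo 2. -/
noncomputable def v2 (p : ℕ) [Fact p.Prime] (x : ℚ_[p]) : ZMod 2 := (x.valuation : ZMod 2)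

/-- The symbol on `ℚ_p`, `p` odd. -/
noncomputable def hs (p : ℕ) [Fact p.Prime] (x y : ℚ_[p]) : ZMod 2 :=
  v2 p x * v2 p y * lg (-1 : ZMod p) + v2 p y * lg (PadicInt.toZMod (ur p x)) +
    v2 p x * lg (PadicInt.toZMod (ur p y))

/-- `ε(u)`. -/
def e4 (u : ZMod 8) : ZMod 2 := if u = 1 ∨ u = 5 then 0 else 1

/-- `ω(u)`. -/
def e8 (u : ZMod 8) : ZMod 2 := if u = 1 ∨ u = 7 then 0 else 1

/-- The unit part modulo 8. -/
noncomputable def u8 (x : ℚ_[2]) : ZMod 8 := PadicInt.toZModPow (p := 2) 3 (ur 2 x)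

/-- The symbol on `ℚ_2`. -/
noncomputable def hs2 (x y : ℚ_[2]) : ZMod 2 :=
  e4 (u8 x) * e4 (u8 y) + v2 2 x * e8 (u8 y) + v2 2 y * e8 (u8 x)

/-- The symbol on `ℝ`. -/
noncomputable def hsR (x y : ℝ) : ZMod 2 := by classical exact if x < 0 ∧ y < 0 then 1 else 0

/-- Hc0 (unit parts). -/
def StHc0 : Prop :=
  ∀ (p : ℕ) [Fact p.Prime], (∀ x : ℚ_[p], x ≠ 0 → IsUnit (ur p x) ∧
      x = (p : ℚ_[p]) ^ x.valuation * (ur p x : ℚ_[p])) ∧
    (∀ x y : ℚ_[p], x ≠ 0 → y ≠ 0 → ur p (x * y) = ur p x * ur p y ∧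
      v2 p (x * y) = v2 p x + v2 p y) ∧
    ∀ x : ℚ_[p], x ≠ 0 → x.valuation = 0 → (ur p x : ℚ_[p]) = x

/-- Hc (the symbol for odd `p`).  `lg` is a homomorphism on `(ℤ/p)ˣ`, so `hs` is bilinear and
symmetric.  Steinberg, `x + y = 1`: `v(x) > 0`: `y` is a unit, `≡ 1`, all terms vanish; symmetric if
`v(y) > 0`; both units: `0`; otherwise `v(x) = v(y) = -n < 0` and `ur y ≡ - ur x mod p`, so the value is
`n (lg(-1) + lg(u) + lg(-u)) = 0`. -/
def StHc : Prop := ∀ (p : ℕ) [Fact p.Prime], p ≠ 2 → IsSym ℚ_[p] (hs p)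

/-- Hd (the symbol for `p = 2`).  `e4`, `e8` are homomorphisms on `(ℤ/8)ˣ`.  Steinberg, `x + y = 1`:
`v(x) = n > 0`, `x = 2^n u`, `y = 1 - 2^n u` a unit: `n ≥ 3`: `y ≡ 1 mod 8`; `n = 1, 2`: check the residues
`u mod 8`.  Both `> 0` or both `= 0` is impossible; `v(x) = v(y) = -n < 0`: `ur x + ur y = 2^n`, again finitely
many cases (`n = 1, 2`, `n ≥ 3` by parity).  `hs2 (-1) (-1) = 1`. -/
def StHd : Prop := IsSym ℚ_[2] hs2 ∧ hs2 (-1) (-1) = 1

/-- He (the real symbol). -/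
def StHe : Prop := IsSym ℝ hsR ∧ hsR (-1) (-1) = 1

/-- Hf (product formula).  `S` is a finite set of odd primes which contains all odd primes dividing the
numerators or denominators of `a`, `b`.  By bilinearity (Hc, Hd, He; also outside `S` the symbols vanish, so
`S` can be enlarged) one may assume that `a` and `b` are in `{-1, 2} ∪ {odd primes}`: `(ℓ, q)` for different
odd primes is quadratic reciprocity, `(ℓ, ℓ) = (ℓ, -1)`, `(-1, ℓ)` and `(2, ℓ)` are the supplements,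
`(-1,-1)`, `(2, 2) = (2, -1)`, `(-1, 2)` are checked directly.  See
`Mathlib.NumberTheory.LegendreSymbol.QuadraticReciprocity`. -/
def StHf : Prop :=
  ∀ (a b : ℚ), a ≠ 0 → b ≠ 0 → ∀ S : Finset Prm, (∀ P ∈ S, (P : ℕ) ≠ 2) →
    (∀ P : Prm, (P : ℕ) ≠ 2 → (padicValRat (P : ℕ) a ≠ 0 ∨ padicValRat (P : ℕ) b ≠ 0) → P ∈ S) →
    ∑ P ∈ S, hs (P : ℕ) (a : ℚ_[(P : ℕ)]) (b : ℚ_[(P : ℕ)]) + hs2 (a : ℚ_[2]) (b : ℚ_[2]) +
      hsR (a : ℝ) (b : ℝ) = 0

/-! ### Local computations -/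

/-- Hg0 (diagonalisation over a local ring).  `2` is a unit.  Induction: a symmetric matrix with unit
determinant over the local ring `O` with `2` invertible represents a unit (some `G_ii` is a unit, or some
`G_ij` is and then `G_ii + 2 G_ij + G_jj` is); split it off. -/
def StHg0 : Prop :=
  ∀ (O : Type) [CommRing O] [IsLocalRing O], IsUnit (2 : O) → ∀ (n : ℕ) (G : Matrix (Fin n) (Fin n) O),
    G.IsSymm → IsUnit G.det → ∃ (Q : Matrix (Fin n) (Fin n) O) (a : Fin n → O), IsUnit Q.det ∧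
      (∀ i, IsUnit (a i)) ∧ Qᵀ * G * Q = Matrix.diagonal a

/-- Hg1 (approximation).  `z` has even valuation at all primes above `P`: there is `y ≠ 0` such that
`z y²` and its inverse are integral at `P`.  (The primes above `P` are finitely many: `v_1, .., v_r`; let
`J = ∏ v_i^(n_i)` with `n_i = - v_i(z) / 2` and choose `y ∈ J` not in any `J v_i` (prime avoidance or the
Chinese remainder theorem).) -/
def StHg1 : Prop :=
  ∀ (f : ℤ[X]), f.Monic →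
    ∀ [Fact (Irreducible (fK f))] [IsDedekindDomain (RR f)] [IsFractionRing (RR f) (LL f)]
      (P : Prm) (z : LL f), z ≠ 0 → (∀ v, Over P v → EvenAt v z) →
    ∃ (y w : LL f) (c c' : ℤ), y ≠ 0 ∧ z * y ^ 2 * w = 1 ∧ ¬ pz P ∣ c ∧ ¬ pz P ∣ c' ∧
      InR ((c : LL f) * (z * y ^ 2)) ∧ InR ((c' : LL f) * w)

/-- Hg (even valuations).  With `z' = z y²`, `w = z'⁻¹` from Hg1 the matrix `G_ij = τ(z' θ^(i+j))` has
entries in `ℤ_[P]` (`c z' ∈ R`, `c` a unit) and determinant `(-1)^g N(z')` (Cg), a unit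
(`N(z')` and `N(w)` are integral at `P`).  Hg0 over `O = ℤ_[P]` gives an orthogonal basis `y θ^i Q` of
`AdjoinRoot ((fK f).map j)` for `z` whose norms are units. -/
def StHg : Prop :=
  ∀ (g : ℕ), 1 ≤ g → ∀ (f : ℤ[X]) (hm : f.Monic), f.natDegree = 2 * g + 1 →
    ∀ [Fact (Irreducible (fK f))] [IsDedekindDomain (RR f)] [IsFractionRing (RR f) (LL f)]
      (P : Prm) (z : LL f), (P : ℕ) ≠ 2 → z ≠ 0 → (∀ v, Over P v → EvenAt v z) →
    ∃ (e : Module.Basis (Ix g) ℚ_[(P : ℕ)]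
        (AdjoinRoot ((fK f).map (algebraMap ℚ ℚ_[(P : ℕ)])))) (a : Ix g → ℚ_[(P : ℕ)]),
      IsOrth ((hm.map (Int.castRingHom ℚ)).map (algebraMap ℚ ℚ_[(P : ℕ)]))
        (baseChange (algebraMap ℚ ℚ_[(P : ℕ)]) (fK f) z) e a ∧ ∀ i, ‖a i‖ = 1

/-- Hh1 (splitting).  `h = (X - θ₀) g₂` over a field `k`, `g₂(θ₀) ≠ 0`.  In `V = k[x]/h` the vector
`ε = g₂` has `τ(z ε²) = z₁ g₂(θ₀)` (`z₁ ∈ k` the value of `z` at `θ₀`; `ε² = g₂(θ₀) ε`, `τ(ε) = 1`), and for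
`u, v ∈ V`, `(X - θ₀) u` is orthogonal to `ε` and `τ(z (X-θ₀) u (X-θ₀) v) = τ₂(z₂ (θ₂ - θ₀) u₂ v₂)` where
`τ₂`, `z₂`, .. refer to `W = k[x]/g₂` (the coefficient of `X^(2g)` of `(X - θ₀) F`, `deg F < 2g`, is that of
`X^(2g-1)` of `F`).  So an orthogonal basis of `W` for `z₂ (θ₂ - θ₀)` together with `ε` gives one of `V`. -/
def StHh1 : Prop :=
  ∀ (k : Type) [Field k] (g : ℕ), 1 ≤ g → ∀ (θ₀ : k) (g₂ : k[X]) (hg₂ : g₂.Monic),
    g₂.natDegree = 2 * g → g₂.eval θ₀ ≠ 0 → ∀ (h : k[X]) (hh : h.Monic) (hd₁ : X - C θ₀ ∣ h)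
      (hd₂ : g₂ ∣ h), h = (X - C θ₀) * g₂ →
    ∀ (z : AdjoinRoot h) (z₁ : k), pr hd₁ z = algebraMap k _ z₁ → z₁ ≠ 0 →
    ∀ (e₂ : Module.Basis (Fin (2 * g)) k (AdjoinRoot g₂)) (a₂ : Fin (2 * g) → k),
    IsOrth hg₂ (pr hd₂ z * (AdjoinRoot.root g₂ - algebraMap k _ θ₀)) e₂ a₂ →
    ∃ e : Module.Basis (Ix g) k (AdjoinRoot h),
      IsOrth hh z e (fun i => if hi : (i : ℕ) < 2 * g then a₂ ⟨i, hi⟩ else z₁ * g₂.eval θ₀)

/-- Hh2 (the unramified factor).  `g₀` monic over `O` with irreducible reduction, `k = Frac O`, `2` a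
unit.  `w = π^e u` with `u` integral and of nonzero residue `s` (`Rep`): the matrix `τ(u θ^(i+j))` is integral
with unit determinant (its reduction is the Gram matrix of `tau (s x y)` on the field `κ[x]/ḡ₀`, which is
nondegenerate, `HY.StUi1`).  Hg0: orthogonal basis with norms `π^e u_i`, `u_i` units. -/
def StHh2 : Prop :=
  ∀ (O k κ : Type) [CommRing O] [IsDomain O] [IsDiscreteValuationRing O] [Field k] [Algebra O k]
    [IsFractionRing O k] [Field κ] (π : O) (ρ : O →+* κ), Irreducible π →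
    Function.Surjective ρ → (∀ c, ρ c = 0 ↔ π ∣ c) → (2 : κ) ≠ 0 →
    ∀ (g₀ : O[X]) (hg : (tk k g₀).Monic), g₀.Monic → Irreducible (g₀.map ρ) →
    ∀ (w : AdjoinRoot (tk k g₀)) (e : ℤ) (s : AdjoinRoot (g₀.map ρ)), Rep π ρ g₀ w e s →
    ∀ n : ℕ, g₀.natDegree = n →
    ∃ (b : Module.Basis (Fin n) k (AdjoinRoot (tk k g₀))) (u : Fin n → O), (∀ i, IsUnit (u i)) ∧
      IsOrth hg w b (fun i => algebraMap O k π ^ e * algebraMap O k (u i))

/-- Hh3 (Hasse invariant of `⟨u₀⟩ ⊕ p ⟨u_i⟩`).  Norms `a_i` with `v(a_i)` odd for `i < 2 g`, `v(a_(2g))`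
even, `∏ a_i = (-1)^g c²`: with `l_i = lg (ur a_i)`: the pairs with `2g` give `2 g l_(2g) = 0`, the other
pairs `∑_(i<j<2g) (lg(-1) + l_i + l_j) = g(2g-1) lg(-1) + (2g-1) ∑_(i<2g) l_i = g lg(-1) + ∑_(i<2g) l_i`;
the discriminant gives `∑_i l_i = g lg(-1)`.  So the invariant is `l_(2g)`. -/
def StHh3 : Prop :=
  ∀ (p : ℕ) [Fact p.Prime], p ≠ 2 → ∀ (g : ℕ), 1 ≤ g → ∀ a : Ix g → ℚ_[p], (∀ i, a i ≠ 0) →
    (∀ i : Ix g, (i : ℕ) < 2 * g → v2 p (a i) = 1) → (∀ i : Ix g, (i : ℕ) = 2 * g → v2 p (a i) = 0) →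
    (∃ c : ℚ_[p], c ≠ 0 ∧ ∏ i, a i = (-1) ^ g * c ^ 2) →
    ∀ i₀ : Ix g, (i₀ : ℕ) = 2 * g → hasse (hs p) a = lg (PadicInt.toZMod (ur p (a i₀)))

/-- Hh (the primes of `T`).  `f.map i = (X - θ₀) g₂` over `ℤ_[P]` (`HL.StFA`), `g₂` reduces to the irreducible
`p`.  `z ↦ (z₁, z₂)`.  By `StCM`: `z₂` has `Rep` `(e, s)` with `e` odd (`om = 1`), and `ep = 0` iff `s` is a
square.  `N(z) = z₁ N(z₂)` is a square (`HL.StNM`), `N(z₂) = π^(2 g e) c`, `ρ c = N(s)` (`HL.StRB`), so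
`v(z₁)` is even and `lg(ur z₁) = lg(N s) = ep` (`HL.StFS`).  Hh1, Hh2 (for `w = z₂ (θ₂ - θ₀)`; `θ₂ - θ₀` has
`Rep` `(0, ·)`) give an orthogonal basis as in Hh3 with last norm `z₁ g₂(θ₀)`; the discriminant is
`(-1)^g N(z)` up to squares.  So the Hasse invariant is `lg(ur z₁) + lg(p(a)) = ep + c_P`, with `c_P = lg(p(a))`
depending only on `f mod P`. -/
def StHh : Prop :=
  ∀ (g : ℕ), 1 ≤ g → ∀ (f : ℤ[X]) (hm : f.Monic), f.natDegree = 2 * g + 1 →
    ∀ [Fact (Irreducible (fK f))] [IsDedekindDomain (RR f)] [IsFractionRing (RR f) (LL f)]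
      (P : Prm), (P : ℕ) ≠ 2 → f.map (red P) ∈ TType (kp P) g →
    ∀ q : HeightOneSpectrum (RR f), IsQ g P q → ∃ cP : ZMod 2,
    ∀ z : LL f, z ≠ 0 → IsSquare (Algebra.norm ℚ z) → om q z = 1 →
    ∃ (e : Module.Basis (Ix g) ℚ_[(P : ℕ)]
        (AdjoinRoot ((fK f).map (algebraMap ℚ ℚ_[(P : ℕ)])))) (a : Ix g → ℚ_[(P : ℕ)]),
      IsOrth ((hm.map (Int.castRingHom ℚ)).map (algebraMap ℚ ℚ_[(P : ℕ)]))
        (baseChange (algebraMap ℚ ℚ_[(P : ℕ)]) (fK f) z) e a ∧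
      hasse (hs (P : ℕ)) a = ep P q z + cP

/-- Hi1 (binary forms over `k[x]`).  Let `V² + U W = h`, `deg h = 2 g + 1`, `U ≠ 0`, and
`Q(p, q) = p² U + 2 p q V - q² W`.  There is a `k`-subspace `Y ⊆ k[x]²` of dimension `g` with
`deg Q(y, y') < 2 g` on `Y` for the polar form `p p' U + (p q' + p' q) V - q q' W`.  Strong induction on
`deg U`.  (a) Replacing `V` by `V - c U` (`c ∈ k[x]`; `W` by `W + 2 c V - c² U`) is the substitution
`(p, q) ↦ (p + c q, q)`: assume `deg V < deg U` (or `V = 0`).  (b) If `m = deg U ≤ g`: `deg W = 2 g + 1 - m`;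
take `p` with `2 deg p + m < 2 g` and `q` with `2 deg q + 2 g + 1 - m < 2 g`: `⌊(2g+1-m)/2⌋ + ⌊m/2⌋ = g`
parameters; the mixed term has degree `≤ (2g-1-m)/2 + (m-2)/2 + m - 1 < 2 g`.  (c) If `m ≥ g + 1`:
`deg W ≤ max (2 g + 1 - m) (m - 2) < m`, `W ≠ 0` (`h` is not a square: odd degree); replace
`(U, V, W)` by `(-W, -V, -U)` (substitution `(p, q) ↦ (q, -p)`) and use the induction hypothesis. -/
def StHi1 : Prop :=
  ∀ (k : Type) [Field k], (2 : k) ≠ 0 → ∀ (g : ℕ) (h U V W : k[X]), h.natDegree = 2 * g + 1 →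
    U ≠ 0 → V ^ 2 + U * W = h →
    ∃ Y : Submodule k (k[X] × k[X]), Module.finrank k Y = g ∧ ∀ y ∈ Y, ∀ y' ∈ Y,
      (y.1 * y'.1 * U + (y.1 * y'.2 + y'.1 * y.2) * V - y.2 * y'.2 * W).degree < (2 * g : ℕ)

/-- Hi2 (isotropic subspace).  `U` coprime to `h`, `h` monic; `u = U(θ)` is a unit.  The map
`Y → k[x]/h`, `(p, q) ↦ p(θ) + q(θ) V(θ) / U(θ)` satisfies `u x x' = Q(y, y')(θ)` (since
`V(θ)² = - U(θ) W(θ)`), of degree `< 2 g`, so `τ(u x x') = 0`.  Injective: if the image is `0` then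
`Q(y, y)` is divisible by `h`, of degree `< 2 g`, so `Q(y, y) = 0`; `U Q(y,y) = (p U + q V)² - q² h` and `h`
has odd degree, so `q = 0`, `p = 0`. -/
def StHi2 : Prop :=
  StHi1 → ∀ (k : Type) [Field k], (2 : k) ≠ 0 → ∀ (g : ℕ) (h U V : k[X]) (hm : h.Monic),
    h.natDegree = 2 * g + 1 → IsCoprime U h → U ∣ h - V ^ 2 →
    ∃ X : Submodule k (AdjoinRoot h), Module.finrank k X = g ∧
      ∀ x ∈ X, ∀ y ∈ X, tau hm (AdjoinRoot.mk h U * x * y) = 0

/-- Hi3 (composition).  `k` infinite, `h` squarefree.  The set of classes `U(θ) y²` (`y` a unit,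
`U` coprime to `h`, `U ∣ h - V²` for some `V`) is closed under multiplication.  Given `(U₁, V₁, W₁)` and
`(U₂, V₂)`.  For `c ∈ k` put `U' = c² U₁ + 2 c V₁ - W₁`, `V' = c U₁ + V₁`-type (the form `Q₁` at `(c, 1)`):
`U' = Q₁(c, 1)`, `V' = - (c U₁ + V₁)`, `V'^2 - h = ... ∈ (U')` since `(c U₁ + V₁)² - h = U₁ U'`;
`U'(θ) = U₁(θ) (c + V₁(θ)/U₁(θ))²`.  For every irreducible factor `π` of `U₂ h` the polynomial
`c² U₁ + 2 c V₁ - W₁` in `c` is not zero modulo `π` (`π ∣ U₁, V₁, W₁` would give `π² ∣ h`), so it has at most 2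
roots `c` modulo `π`: choose `c ∈ k` such that `U'` is coprime to `U₂ h`.  Then the Chinese remainder
theorem gives `V ≡ V' mod U'`, `V ≡ V₂ mod U₂`, `U' U₂ ∣ h - V²`. -/
def StHi3 : Prop :=
  ∀ (k : Type) [Field k] [Infinite k], (2 : k) ≠ 0 → ∀ (h U₁ V₁ U₂ V₂ : k[X]), h.Monic →
    h.Separable → 1 ≤ h.natDegree → IsCoprime U₁ h → U₁ ∣ h - V₁ ^ 2 → IsCoprime U₂ h →
    U₂ ∣ h - V₂ ^ 2 → ∃ (U V : k[X]) (y : (AdjoinRoot h)ˣ), IsCoprime U h ∧ U ∣ h - V ^ 2 ∧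
      AdjoinRoot.mk h U₁ * AdjoinRoot.mk h U₂ = AdjoinRoot.mk h U * (y : AdjoinRoot h) ^ 2

/-- Hi (the descent group is isotropic).  Every element `z` of the descent group is `U(θ) y²` with
`U` coprime to `h`, `U ∣ h - V²` (induction on the closure: generators `(-1)^deg U U(θ)`; squares: `U = 1`;
products: Hi3; inverses: `z⁻¹ = z (z⁻¹)²`).  Hi2 for `U`; multiply the subspace by `y⁻¹`. -/
def StHi : Prop :=
  ∀ (k : Type) [Field k] [Infinite k], (2 : k) ≠ 0 → ∀ (g : ℕ) (h : k[X]) (hm : h.Monic),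
    h.Separable → h.natDegree = 2 * g + 1 → ∀ z ∈ descentGroup h,
    ∃ X : Submodule k (AdjoinRoot h), Module.finrank k X = g ∧
      ∀ x ∈ X, ∀ y ∈ X, tau hm ((z : AdjoinRoot h) * x * y) = 0

/-- Hj (the real place).  For `f` in the region a real root `x` satisfies `x^N ≥ H^N/4 > 0` (see Wb), so
`x > 0` and `f'(x) > 0`; so there is exactly one real root, and `g` pairs `ρ, ρ̄` of non-real roots, all
simple.  For each pair let `e_ρ` be the idempotent of `ℂ[x]/f` and `v = λ e_ρ + λ̄ e_ρ̄ ∈ ℝ[x]/f`: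
`τ(z v v) = 2 Re(λ² z(ρ)/f'(ρ))`; choose `λ ≠ 0` with `λ² z(ρ)/f'(ρ) ∈ i ℝ`.  The `g` vectors are orthogonal
and independent. -/
def StHj : Prop :=
  ∀ (g H : ℕ), 1 ≤ g → 1 ≤ H → ∀ f ∈ Reg g H, ∀ (hm : ((fK f).map (algebraMap ℚ ℝ)).Monic),
    Irreducible (fK f) → ∀ z : AdjoinRoot ((fK f).map (algebraMap ℚ ℝ)),
    ∃ X : Submodule ℝ (AdjoinRoot ((fK f).map (algebraMap ℚ ℝ))), Module.finrank ℝ X = g ∧
      ∀ x ∈ X, ∀ y ∈ X, tau hm (z * x * y) = 0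

/-- Hk (base change of orthogonal bases).  The image of an orthogonal basis of `K[x]/h` in `K'[x]/h` is an
orthogonal basis with the images of the norms. -/
def StHk : Prop :=
  ∀ (K K' : Type) [Field K] [Field K'] (i : K →+* K') (h : K[X]) (hm : h.Monic) (z : AdjoinRoot h)
    (n : ℕ) (e : Module.Basis (Fin n) K (AdjoinRoot h)) (a : Fin n → K), IsOrth hm z e a →
    ∃ e' : Module.Basis (Fin n) K' (AdjoinRoot (h.map i)),
      IsOrth (hm.map i) (baseChange i h z) e' (fun j => i (a j))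

/-- Hl (rational diagonalisation).  `τ(z x y)` is nondegenerate and symmetric on `L`, so it has an
orthogonal basis (`LinearMap.BilinForm.exists_orthogonal_basis`); the product of the norms is
`(-1)^g N(z)` up to a square (Cg). -/
def StHl : Prop :=
  ∀ (g : ℕ) (f : ℤ[X]) (hm : f.Monic), f.natDegree = 2 * g + 1 → ∀ [Fact (Irreducible (fK f))]
    (z : LL f), z ≠ 0 → IsSquare (Algebra.norm ℚ z) →
    ∃ (e : Module.Basis (Ix g) ℚ (LL f)) (a : Ix g → ℚ) (c : ℚ),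
      IsOrth (hm.map (Int.castRingHom ℚ)) z e a ∧ c ≠ 0 ∧ ∏ i, a i = (-1) ^ g * c ^ 2

/-- `z` lies in the descent group over `ℚ_2`. -/
def At2 {f : ℤ[X]} (z : (LL f)ˣ) : Prop :=
  Units.map (baseChange (algebraMap ℚ ℚ_[2]) (fK f) : LL f →* _) z ∈
    descentGroup ((fK f).map (algebraMap ℚ ℚ_[2]))

/-- Hm (quadratic relation).  Rational norms `a_i` (Hl); sum of the product formula Hf over the pairs
`i < j`, `S` large (odd primes, contains `T`): `∑_(P ∈ S) hasse (hs P) a + hasse hs2 a + hasse hsR a = 0`.  By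
Ha and Hk the Hasse invariants may be computed from other orthogonal bases of `AdjoinRoot (h.map j)` for the
form of `z`.  `P ∈ S`, all valuations of `z` above `P` even (`P ∉ T`, or `P ∈ T` and `om = 0`, by Q3): Hg, units,
`0`.  `P ∈ T`, `om = 1`: Hh, `ep + c_P`.  `2`: Hi and Hb, `C(g,2) hs2(-1,-1) = C(g,2)`; `∞`: Hj, Hb, `C(g,2)`:
they cancel. -/
def StHm : Prop :=
  ∀ (g H : ℕ), 1 ≤ g → 1 ≤ H → ∀ f ∈ Reg g H,
    ∀ [Fact (Irreducible (fK f))] [IsDedekindDomain (RR f)] [IsFractionRing (RR f) (LL f)]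
      (T : Finset Prm), (∀ P ∈ T, (P : ℕ) ≠ 2 ∧ f.map (red P) ∈ TType (kp P) g) →
    ∀ q : Prm → HeightOneSpectrum (RR f), (∀ P ∈ T, IsQ g P (q P)) → ∃ c : Prm → ZMod 2,
    ∀ z : (LL f)ˣ, IsSquare (Algebra.norm ℚ (z : LL f)) →
      (∀ v, (∀ P ∈ T, v ≠ q P) → EvenAt v (z : LL f)) → At2 z →
      ∑ P ∈ T, om (q P) (z : LL f) * (ep P (q P) (z : LL f) + c P) = 0

/-- Isotropy: polarise Hm (`om`, `ep` are homomorphisms, `StHom`; the conditions on `z` are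
multiplicative). -/
def StIso : Prop :=
  ∀ (g H : ℕ), 1 ≤ g → 1 ≤ H → ∀ f ∈ Reg g H,
    ∀ [Fact (Irreducible (fK f))] [IsDedekindDomain (RR f)] [IsFractionRing (RR f) (LL f)]
      (T : Finset Prm), (∀ P ∈ T, (P : ℕ) ≠ 2 ∧ f.map (red P) ∈ TType (kp P) g) →
    ∀ q : Prm → HeightOneSpectrum (RR f), (∀ P ∈ T, IsQ g P (q P)) →
    ∀ z w : (LL f)ˣ, IsSquare (Algebra.norm ℚ (z : LL f)) → IsSquare (Algebra.norm ℚ (w : LL f)) →
      (∀ v, (∀ P ∈ T, v ≠ q P) → EvenAt v (z : LL f)) →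
      (∀ v, (∀ P ∈ T, v ≠ q P) → EvenAt v (w : LL f)) → At2 z → At2 w →
      ∑ P ∈ T, (om (q P) (z : LL f) * ep P (q P) (w : LL f) +
        om (q P) (w : LL f) * ep P (q P) (z : LL f)) = 0

/-- `D ≡ 1 mod 8` is a square in `ℚ_2` (Hensel), so the descent group of the twist at 2 is that of
`f`: `U ∣ D h - V²` iff `U ∣ h - (V/√D)²`, and `(-D)^m U` is `(-1)^m U` times a square. -/
def StTwo : Prop :=
  ∀ (f : ℤ[X]) (D : ℤ), f.Monic → D % 8 = 1 → ∀ z : (LL f)ˣ, TwAt f D 2 z → At2 z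

/-- (TW) The twist with trivial Selmer group.  Translation of `HY.tw_of` (`HY/Tw.lean`), with
`HY.coord_lemma`: `X` is the set of the vectors `(om, ep)_(P ∈ T)` of the units `z` with square norm, even
valuations away from the `q P` and `At2 z`; it is isotropic (`StIso`).  For `z` in the twisted Selmer set:
`At2` by `StTwo` (`D` is a product of primes `≡ 1 mod 8`); even valuations above `P ∉ T`, `P ≠ 2` by
`StEven`, above `2` by `StI1`; `P ∈ T` by `StQ3`, `StLine`, `StEven`. -/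
def StTw : Prop :=
  ∀ (g H : ℕ), 1 ≤ g → 1 ≤ H → ∀ T : Finset Prm, (∀ P ∈ T, (P : ℕ) % 8 = 1) → ∀ f ∈ Good g H T,
    ∀ [Fact (Irreducible (fK f))] [IsDedekindDomain (RR f)] [IsFractionRing (RR f) (LL f)],
      (∀ α : LL f, α ≠ 0 → IsSquare (Algebra.norm ℚ α) → (∀ v, EvenAt v α) →
        (∀ P ∈ T, LocSq P α) → IsSquare α) →
      ∃ R ⊆ T, ∀ z : (LL (f.scaleRoots (∏ P ∈ R, pz P)))ˣ,
        IsSquare (Algebra.norm ℚ (z : LL (f.scaleRoots (∏ P ∈ R, pz P)))) →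
        (∀ (p : ℕ) [Fact p.Prime],
          Units.map (baseChange (algebraMap ℚ ℚ_[p]) (fK (f.scaleRoots (∏ P ∈ R, pz P))) :
            LL (f.scaleRoots (∏ P ∈ R, pz P)) →* _) z ∈
            descentGroup ((fK (f.scaleRoots (∏ P ∈ R, pz P))).map (algebraMap ℚ ℚ_[p]))) →
        IsSquare z

end Pool.Agent.Helper54.HQ
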