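import Pool.Agent.Helper54.HQ.StC
import Pool.Agent.Helper54.HQ.Base

/-!
# HQ, module De2: `L` is the fraction field of `R`
-/

set_option autoImplicit false

namespace Pool.Agent.Helper54.HQ

open Polynomial Finset
open Pool.Agent.Helper3.HY (co tau Ix co_mk sum_co ext_co co_eq_zero)

theorem inj_De2 {f : ℤ[X]} (hm : f.Monic) : Function.Injective (algebraMap (RR f) (LL f)) := by
  intro x y hxy
  refine ext_co hm fun i _ => ?_
  have h : Int.castRingHom ℚ (co hm i x) = Int.castRingHom ℚ (co hm i y) := by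
    rw [← co_algebraMap hm, ← co_algebraMap hm, hxy]
  rw [eq_intCast, eq_intCast] at h
  exact_mod_cast h

theorem surj_De2 {f : ℤ[X]} (hm : f.Monic) (z : LL f) : ∃ a : ℤ, a ≠ 0 ∧ ∃ r : RR f,
    z * algebraMap (RR f) (LL f) (a : RR f) = algebraMap (RR f) (LL f) r := by
  obtain ⟨p, rfl⟩ := AdjoinRoot.mk_surjective z
  obtain ⟨b, hb⟩ := IsLocalization.integerNormalization_map_to_map (nonZeroDivisors ℤ) p
  refine ⟨b, nonZeroDivisors.ne_zero b.2,
    AdjoinRoot.mk f (IsLocalization.integerNormalization (nonZeroDivisors ℤ) p), ?_⟩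
  have hb' : (IsLocalization.integerNormalization (nonZeroDivisors ℤ) p).map
      (Int.castRingHom ℚ) = (b : ℤ) • p := hb
  rw [algebraMap_mk, hb', map_zsmul, zsmul_eq_mul, algebraMap_intCast, mul_comm]

theorem hDe2 : StDe2 := by
  intro f hm hirr
  have _ : Fact (Irreducible (fK f)) := ⟨hirr⟩
  have _ : IsDomain (RR f) := (inj_De2 hm).isDomain (algebraMap (RR f) (LL f))
  change IsLocalization (nonZeroDivisors (RR f)) (LL f)
  rw [isLocalization_iff]
  refine ⟨fun y => ?_, fun z => ?_, fun {x y} hxy => ⟨1, by rw [inj_De2 hm hxy]⟩⟩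
  · rw [isUnit_iff_ne_zero, Ne, map_eq_zero_iff _ (inj_De2 hm)]
    exact nonZeroDivisors.ne_zero y.2
  · obtain ⟨a, ha, r, hr⟩ := surj_De2 hm z
    refine ⟨(r, ⟨(a : RR f), mem_nonZeroDivisors_of_ne_zero ?_⟩), hr⟩
    intro h0
    apply ha
    have h1 := congrArg (algebraMap (RR f) (LL f)) h0
    rw [map_zero, map_intCast] at h1
    have h2 : ((a : ℚ) : LL f) = 0 := by
      rw [← h1]
      norm_cast
    have h3 : algebraMap ℚ (LL f) (a : ℚ) = 0 := by
      rw [← h1, map_intCast]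
    exact_mod_cast (map_eq_zero (algebraMap ℚ (LL f))).1 h3

end Pool.Agent.Helper54.HQ
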