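import Pool.Agent.Helper3.HY.Defs
import Pool.Agent.Helper54.HL.Defs

/-!
# HQ: odd degree hyperelliptic Jacobians over `ℚ`, internal definitions

`f` is a monic polynomial over `ℤ` of degree `N = 2 g + 1`, `R = ℤ[θ]`, `L = ℚ[θ]`.
-/

set_option autoImplicit false

namespace Pool.Agent.Helper54.HQ

open Polynomial Finset Filter Topology Matrix IsDedekindDomain
open Pool.Agent.Helper3.HY (co tau Ix nu TType IType baseChange descentGroup IsPointValue IsTwPoint
  twGroup)

/-- The primes. -/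
abbrev Prm : Type := Nat.Primes

/-- The prime as an integer. -/
abbrev pz (P : Prm) : ℤ := ((P : ℕ) : ℤ)

instance factPrm (P : Prm) : Fact (Nat.Prime (P : ℕ)) := ⟨P.2⟩

/-- `f` as a polynomial over `ℚ`. -/
noncomputable abbrev fK (f : ℤ[X]) : ℚ[X] := f.map (Int.castRingHom ℚ)

/-- `R = ℤ[θ]`. -/
abbrev RR (f : ℤ[X]) : Type := AdjoinRoot f

/-- `L = ℚ[θ]`. -/
abbrev LL (f : ℤ[X]) : Type := AdjoinRoot (fK f)

/-- `R → L`. -/
noncomputable instance algRL (f : ℤ[X]) : Algebra (RR f) (LL f) :=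
  (AdjoinRoot.map (Int.castRingHom ℚ) f (fK f) dvd_rfl).toAlgebra

/-- `θ` in `L`. -/
noncomputable abbrev th (f : ℤ[X]) : LL f := AdjoinRoot.root (fK f)

/-- The residue field of a prime. -/
abbrev kp (P : Prm) : Type := ZMod (P : ℕ)

/-- Reduction modulo `P`. -/
abbrev red (P : Prm) : ℤ →+* kp P := Int.castRingHom (kp P)

/-- The form `τ(α x y)` on `L`. -/
noncomputable def Bf {f : ℤ[X]} (hm : f.Monic) (α : LL f) :
    LinearMap.BilinForm ℚ (LL f) :=
  LinearMap.mk₂ ℚ (fun x y => tau (hm.map (Int.castRingHom ℚ)) (α * x * y))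
    (by intro a b c; rw [mul_add, add_mul, map_add])
    (by intro c a b; rw [mul_smul_comm, smul_mul_assoc, map_smul])
    (by intro a b c; rw [mul_add, map_add])
    (by intro c a b; rw [mul_smul_comm, map_smul])

/-- `ℤ[θ]` is regular: `f` does not lie in the square of a maximal ideal of `ℤ[x]`. -/
def Smooth (f : ℤ[X]) : Prop := ∀ m : Ideal ℤ[X], m.IsMaximal → f ∉ m ^ 2

/-- `z` lies in `1 + P R_(P)`. -/
def NearOne (P : Prm) {f : ℤ[X]} (z : LL f) : Prop :=
  ∃ (r : RR f) (a : ℤ), ¬ pz P ∣ a ∧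
    Int.castRingHom (LL f) a * (z - 1) =
      Int.castRingHom (LL f) (pz P) * algebraMap (RR f) (LL f) r

/-- `z` is a square locally at `P`. -/
def LocSq (P : Prm) {f : ℤ[X]} (z : LL f) : Prop :=
  ∃ β : LL f, β ≠ 0 ∧ NearOne P (z * β ^ 2)

/-- `z` lies in the descent group of the twist by `D` over `ℚ_p`. -/
def TwAt (f : ℤ[X]) (D : ℤ) (p : ℕ) [Fact p.Prime] (z : (LL f)ˣ) : Prop :=
  Units.map (baseChange (algebraMap ℚ ℚ_[p]) (fK f) : LL f →* _) z ∈
    twGroup ((fK f).map (algebraMap ℚ ℚ_[p]))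
      (algebraMap ℚ ℚ_[p] (Int.castRingHom ℚ D))

section val

variable {f : ℤ[X]} [Fact (Irreducible (fK f))] [IsDedekindDomain (RR f)]
  [IsFractionRing (RR f) (LL f)]

/-- `z` has even valuation at `v`. -/
def EvenAt (v : HeightOneSpectrum (RR f)) (z : LL f) : Prop := IsSquare (v.valuation (LL f) z)

/-- The parity of the valuation. -/
noncomputable def om (q : HeightOneSpectrum (RR f)) (z : LL f) : ZMod 2 := by
  classical exact if EvenAt q z then 0 else 1

/-- The class of the unit part of `z` (with respect to the uniformizer `P`) at `q`. -/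
noncomputable def ep (P : Prm) (q : HeightOneSpectrum (RR f)) (z : LL f) : ZMod 2 := by
  classical exact if ∃ (j : ℕ) (β : LL f), β ≠ 0 ∧
    q.valuation (LL f) (z * Int.castRingHom (LL f) (pz P) ^ j * β ^ 2 - 1) < 1 then 0 else 1

/-- `q` lies above `P`. -/
def Over (P : Prm) (q : HeightOneSpectrum (RR f)) : Prop :=
  Int.castRingHom (RR f) (pz P) ∈ q.asIdeal

/-- `q` is the prime above `P` with residue degree `2 g`. -/
def IsQ (g : ℕ) (P : Prm) (q : HeightOneSpectrum (RR f)) : Prop :=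
  Over P q ∧ ∃ p : ℤ[X], (p.map (red P)).Monic ∧ Irreducible (p.map (red P)) ∧
    (p.map (red P)).natDegree = 2 * g ∧ AdjoinRoot.mk f p ∈ q.asIdeal

end val

/-- Local data at `P`. -/
structure LD (P : Prm) {O k : Type} [CommRing O] [Field k] [Algebra O k]
    (i : ℤ →+* O) (j : ℚ →+* k) (ρ : O →+* kp P) : Prop where
  comp : ∀ a : ℤ, algebraMap O k (i a) = j (Int.castRingHom ℚ a)
  unif : Irreducible (i (pz P))
  rho : ∀ a : ℤ, ρ (i a) = red P a
  ker : ∀ c : O, ρ c = 0 ↔ i (pz P) ∣ c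
  dense : ∀ (c : O) (n : ℕ), ∃ a : ℤ, i (pz P) ^ n ∣ c - i a

theorem LD.surj {P : Prm} {O k : Type} [CommRing O] [Field k] [Algebra O k]
    {i : ℤ →+* O} {j : ℚ →+* k} {ρ : O →+* kp P} (h : LD P i j ρ) :
    Function.Surjective ρ := by
  intro x
  obtain ⟨a, rfl⟩ := ZMod.intCast_surjective x
  exact ⟨i a, h.rho a⟩

theorem LD.map {P : Prm} {O k : Type} [CommRing O] [Field k] [Algebra O k]
    {i : ℤ →+* O} {j : ℚ →+* k} {ρ : O →+* kp P} (h : LD P i j ρ) (f : ℤ[X]) :
    (fK f).map j = HL.tk k (f.map i) := by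
  rw [fK, HL.tk, Polynomial.map_map, Polynomial.map_map,
    show j.comp (Int.castRingHom ℚ) = (algebraMap O k).comp i from
      RingHom.ext fun a => (h.comp a).symm]

theorem LD.map_red {P : Prm} {O k : Type} [CommRing O] [Field k] [Algebra O k]
    {i : ℤ →+* O} {j : ℚ →+* k} {ρ : O →+* kp P} (h : LD P i j ρ) (f : ℤ[X]) :
    (f.map i).map ρ = f.map (red P) := by
  rw [Polynomial.map_map, show ρ.comp i = red P from RingHom.ext fun a => h.rho a]

end Pool.Agent.Helper54.HQ
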