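import Pool.Agent.Helper3.HY.DefsR
import Pool.Agent.Helper3.PD.Selmer

/-!
# Odd degree hyperelliptic Jacobians over `ℚ`: the 2-Selmer set

`h` is a polynomial of odd degree over a field `k` and `C : y ^ 2 = h(x)` the hyperelliptic curve;
`AdjoinRoot h = k[θ]` with `h(θ) = 0`.  The general definitions (`IsPointValue`, `descentGroup`,
`InDescentGroup`, `InDescentGroupOver`) are in `Pool/Agent/Helper3/HY/DefsR.lean` and
`PicTwoDivisible` is in `Pool/Agent/Helper3/PD/Selmer.lean`.
-/

set_option autoImplicit false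

namespace Pool.Agent.Helper54.HQR

open Polynomial
open Pool.Agent.Helper3.HYR (InDescentGroupOver)
open Pool.Agent.Helper3.PD (PicTwoDivisible)

/-- The 2-Selmer set of `y ^ 2 = h(x)` over `ℚ`: the units `z` of `ℚ[θ]` whose norm is a square and
which lie in the descent group over `ℚ_p` for every prime `p` and over `ℝ`. -/
def selmerSet (h : ℚ[X]) : Set (AdjoinRoot h)ˣ :=
  {z | IsSquare (Algebra.norm ℚ (z : AdjoinRoot h)) ∧
    (∀ (p : ℕ) [Fact p.Prime], InDescentGroupOver (algebraMap ℚ ℚ_[p]) h (z : AdjoinRoot h)) ∧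
    InDescentGroupOver (algebraMap ℚ ℝ) h (z : AdjoinRoot h)}

/-- Every element of the 2-Selmer set is a square. -/
def TrivialSelmer (h : ℚ[X]) : Prop := ∀ z ∈ selmerSet h, IsSquare z

/-- The monic polynomials `x ^ N + c_2 x ^ (N - 2) + ... + c_N` with coefficients `c_i ∈ ℤ`,
`|c_i| ≤ H ^ i`. -/
def family (N H : ℕ) : Set ℤ[X] :=
  {f | f.Monic ∧ f.natDegree = N ∧ f.coeff (N - 1) = 0 ∧
    ∀ i ≤ N, |f.coeff i| ≤ (H : ℤ) ^ (N - i)}

/-- `f` as a polynomial over `ℚ`. -/
noncomputable def overQ (f : ℤ[X]) : ℚ[X] := f.map (Int.castRingHom ℚ)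

/-- The polynomials of the family which are irreducible over `ℚ` and such that every element of the
2-Selmer set of `y ^ 2 = f(x)` over `ℚ` is a square and the group of ideal classes of
`ℚ[x, y] / (y ^ 2 - f(x))`, that is the group of the rational points of the Jacobian, is divisible by two. -/
def trivialFamily (N H : ℕ) : Set ℤ[X] :=
  {f ∈ family N H | Irreducible (overQ f) ∧ TrivialSelmer (overQ f) ∧ PicTwoDivisible (overQ f)}

end Pool.Agent.Helper54.HQR
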