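import Pool.Agent.Helper54.HQ.Defs

/-!
# HQ: definitions for the counting part

`N = 2 g + 1`.  `B` is the Gram matrix of a unimodular lattice, `A = B T` with `T` the matrix of the
multiplication by `θ`; `nu g m` are the exponents of the type `m` (see `Helper3/HY/Defs.lean`):
`-m_0 ≤ .. ≤ -m_(g-1) ≤ 0 ≤ m_(g-1) ≤ .. ≤ m_0`.
-/

set_option autoImplicit false

namespace Pool.Agent.Helper54.HQ

open Polynomial Finset Filter Topology Matrix IsDedekindDomain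
open Pool.Agent.Helper3.HY (co tau Ix nu TType IType rho2 exc Adm)

/-- Pairs of integral matrices. -/
abbrev Pr (g : ℕ) : Type := Matrix (Ix g) (Ix g) ℤ × Matrix (Ix g) (Ix g) ℤ

/-- The pairs `(B, A)` of symmetric integral matrices, `det B = ± 1`, `|b_ij| ≤ C 2^(ν_i+ν_j)`,
`|a_ij| ≤ C H 2^(ν_i+ν_j)`. -/
structure InBox (g : ℕ) (C H : ℝ) (m : Fin g → ℕ) (p : Pr g) : Prop where
  symB : p.1.IsSymm
  symA : p.2.IsSymm
  det : IsUnit p.1.det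
  bB : ∀ i j, |((p.1 i j : ℤ) : ℝ)| ≤ C * (2 : ℝ) ^ (nu g m i + nu g m j)
  bA : ∀ i j, |((p.2 i j : ℤ) : ℝ)| ≤ C * H * (2 : ℝ) ^ (nu g m i + nu g m j)

/-- `f` is the characteristic polynomial of `B⁻¹ A`: `det B * f = det (x B - A)`. -/
def IsChi {g : ℕ} (p : Pr g) (f : ℤ[X]) : Prop :=
  C p.1.det * f = ((X : ℤ[X]) • p.1.map (C : ℤ → ℤ[X]) - p.2.map (C : ℤ → ℤ[X])).det

/-- The top left blocks vanish. -/
def TL {g : ℕ} (p : Pr g) : Prop := ∀ i j : Ix g, (i : ℕ) < g → (j : ℕ) < g → p.1 i j = 0 ∧ p.2 i j = 0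

/-- The pairs over a field `k` which come from the distinguished orbit of a polynomial in `S`. -/
def LocPair (k : Type) [Field k] (g : ℕ) (S : Set k[X]) :
    Set (Matrix (Ix g) (Ix g) k × Matrix (Ix g) (Ix g) k) :=
  {p | ∃ h ∈ S, ∃ hm : h.Monic, h.natDegree = 2 * g + 1 ∧ ∃ w : Ix g → AdjoinRoot h,
    (∀ i j, tau hm (w i * w j) = p.1 i j) ∧
      ∀ i j, tau hm (AdjoinRoot.root h * w i * w j) = p.2 i j}

/-- Reduction of a pair. -/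
def redP {g : ℕ} (P : Prm) (p : Pr g) : Matrix (Ix g) (Ix g) (kp P) × Matrix (Ix g) (Ix g) (kp P) :=
  (p.1.map (red P), p.2.map (red P))

/-- The local condition at the primes of `T`. -/
def LocT {g : ℕ} (T : Finset Prm) (p : Pr g) : Prop :=
  ∀ P ∈ T, redP P p ∈ LocPair (kp P) g (TType (kp P) g)

/-- The polynomials which come from a pair of the type `m` which is good at `T`. -/
def BadM (g : ℕ) (C H : ℝ) (m : Fin g → ℕ) (T : Finset Prm) : Set ℤ[X] :=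
  {f | f.Monic ∧ f.natDegree = 2 * g + 1 ∧ Irreducible (fK f) ∧
    ∃ p : Pr g, InBox g C H m p ∧ LocT T p ∧ IsChi p f}

/-- The polynomials which come from a pair of an admissible type. -/
def BadSet (g : ℕ) (C : ℝ) (κ H : ℕ) (T : Finset Prm) : Set ℤ[X] :=
  {f | ∃ m : Fin g → ℕ, Adm g (Nat.log 2 H + κ) m ∧ f ∈ BadM g C H m T}

/-- The polynomials which come from a pair of the type `m` with vanishing top left blocks. -/
def DeepM (g : ℕ) (C H : ℝ) (m : Fin g → ℕ) : Set ℤ[X] :=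
  {f | f.Monic ∧ f.natDegree = 2 * g + 1 ∧ Irreducible (fK f) ∧
    ∃ p : Pr g, InBox g C H m p ∧ TL p ∧ IsChi p f}

/-- The conditions on the type in the deep cusp. -/
def DAdm (g d : ℕ) (m : Fin g → ℕ) : Prop :=
  Antitone m ∧ (∀ i : Fin g, (i : ℕ) + 1 = g → m i ≤ d) ∧
    ∀ i j : Fin g, (i : ℕ) + 1 = j → m i ≤ m j + d

/-- The deep cusp: `M 2^(∑ m_i) ≤ C H^(g (g+1) / 2)`. -/
def DeepSet (g : ℕ) (C : ℝ) (κ H M : ℕ) : Set ℤ[X] :=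
  {f | ∃ m : Fin g → ℕ, DAdm g (Nat.log 2 H + κ) m ∧
    (M : ℝ) * 2 ^ (∑ i, m i) ≤ C * (H : ℝ) ^ (g * (g + 1) / 2) ∧ f ∈ DeepM g C H m}

/-- The monic polynomials `x ^ N + c_1 x ^ (N - 1) + ..` over `ℤ` with `|c_i| ≤ H ^ i`. -/
def Fam (N H : ℕ) : Set ℤ[X] :=
  {f | f.Monic ∧ f.natDegree = N ∧ ∀ i ≤ N, |f.coeff i| ≤ (H : ℤ) ^ (N - i)}

/-- The region: `|c_i| ≤ H ^ i / 2 ^ (N + 4)` for `0 < i < N` and `- H ^ N ≤ c_N ≤ - H ^ N / 2`. -/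
def Reg (g H : ℕ) : Set ℤ[X] :=
  {f | f.Monic ∧ f.natDegree = 2 * g + 1 ∧
    (∀ i, 1 ≤ i → i ≤ 2 * g → 2 ^ (2 * g + 5) * |f.coeff i| ≤ (H : ℤ) ^ (2 * g + 1 - i)) ∧
    -(H : ℤ) ^ (2 * g + 1) ≤ f.coeff 0 ∧ 2 * f.coeff 0 ≤ -(H : ℤ) ^ (2 * g + 1)}

/-- `f(r) ≡ 0 mod p ^ 2` and `f'(r) ≡ 0 mod p` for some `r`. -/
def Weak (p : ℕ) (f : ℤ[X]) : Prop :=
  ∃ r : ℤ, (p : ℤ) ^ 2 ∣ f.eval r ∧ (p : ℤ) ∣ f.derivative.eval r

/-- `f mod p` is divisible by the square of a monic polynomial of degree at least 2 which is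
irreducible. -/
def Strong (p : ℕ) (f : ℤ[X]) : Prop :=
  ∃ φ : (ZMod p)[X], φ.Monic ∧ Irreducible φ ∧ 2 ≤ φ.natDegree ∧
    φ ^ 2 ∣ f.map (Int.castRingHom (ZMod p))

/-- The density of the local condition. -/
noncomputable def dens (g : ℕ) (P : Prm) : ℝ :=
  ((TType (kp P) g).ncard : ℝ) / ((P : ℕ) : ℝ) ^ (2 * g + 1)

/-- The conditions at the small primes and at `T`. -/
def SvMain (g H : ℕ) (T : Finset Prm) (M : ℕ) : Set ℤ[X] :=
  {f | f ∈ Reg g H ∧ ((2 * g + 1 : ℕ) : ℤ) ∣ f.coeff (2 * g) ∧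
    Irreducible (f.map (Int.castRingHom (ZMod 2))) ∧
    (∀ P ∈ T, f.map (red P) ∈ TType (kp P) g) ∧
    ∀ p : ℕ, p.Prime → p ≤ M → ¬ Weak p f ∧ ¬ Strong p f}

/-- The good polynomials. -/
def Good (g H : ℕ) (T : Finset Prm) : Set ℤ[X] :=
  {f | f ∈ Reg g H ∧ ((2 * g + 1 : ℕ) : ℤ) ∣ f.coeff (2 * g) ∧
    Irreducible (f.map (Int.castRingHom (ZMod 2))) ∧
    (∀ P ∈ T, f.map (red P) ∈ TType (kp P) g) ∧
    ∀ p : ℕ, p.Prime → ¬ Weak p f ∧ ¬ Strong p f}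

/-- The value of a real quadratic form at an integral vector. -/
noncomputable def qS {n : ℕ} (S : Matrix (Fin n) (Fin n) ℝ) (x : Fin n → ℤ) : ℝ :=
  (fun i => (x i : ℝ)) ⬝ᵥ S *ᵥ fun i => (x i : ℝ)

end Pool.Agent.Helper54.HQ
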