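import Pool.Agent.Helper54.HQ.StS

/-!
# HQ: the main lower bound of the sieve
-/

set_option autoImplicit false

namespace Pool.Agent.Helper54.HQ

open Polynomial Finset Filter Topology Matrix
open Pool.Agent.Helper3.HY (co tau Ix nu TType IType rho2 exc Adm)

section aux_Sieve

open Classical in
/-- the local densities -/
noncomputable def dl_Sieve (g : ℕ) (T : Finset Prm) (p : ℕ) : ℝ :=
  if hp : p.Prime then (if (⟨p, hp⟩ : Prm) ∈ T then dens g ⟨p, hp⟩ else 1 - 3 / (p : ℝ) ^ 2) else 1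

theorem dens_nonneg_Sieve (g : ℕ) (P : Prm) : 0 ≤ dens g P := by
  unfold dens
  positivity

theorem dl_nonneg_Sieve (g : ℕ) (T : Finset Prm) (p : ℕ) (hp : 3 ≤ p) : 0 ≤ dl_Sieve g T p := by
  unfold dl_Sieve
  split_ifs with h1 h2
  · exact dens_nonneg_Sieve _ _
  · have h3 : (3 : ℝ) ≤ p := by exact_mod_cast hp
    have h4 : 3 / (p : ℝ) ^ 2 ≤ 1 := by
      rw [div_le_one (by positivity)]
      nlinarith
    linarith
  · exact zero_le_one

theorem dl_mem_Sieve (g : ℕ) (T : Finset Prm) (P : Prm) (hP : P ∈ T) :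
    dl_Sieve g T (P : ℕ) = dens g P := by
  unfold dl_Sieve
  rw [dif_pos P.2]
  exact if_pos hP

/-- the classes at one prime -/
theorem per_Sieve (h3 : StSl) (h6 : StSt) (g : ℕ) (hg : 1 ≤ g) (T : Finset Prm) (p : ℕ)
    (hp : p.Prime) : ∃ (q : ℕ) (A : Finset (Fin (2 * g + 1) → ZMod q)), (∃ k, q = p ^ k) ∧ 0 < q ∧
      dl_Sieve g T p * (q : ℝ) ^ (2 * g + 1) ≤ A.card ∧
      ∀ c : Fin (2 * g + 1) → ℤ, (fun j => (c j : ZMod q)) ∈ A →
        (¬ Weak p (mkP c) ∧ ¬ Strong p (mkP c)) ∧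
        ∀ P ∈ T, (P : ℕ) = p → (mkP c).map (red P) ∈ TType (kp P) g := by
  by_cases hT : (⟨p, hp⟩ : Prm) ∈ T
  · obtain ⟨A, hA1, hA2⟩ := h6 g hg ⟨p, hp⟩
    refine ⟨p, A, ⟨1, (pow_one p).symm⟩, hp.pos, ?_, fun c hc => ?_⟩
    · rw [hA1]
      unfold dl_Sieve
      rw [dif_pos hp, if_pos hT]
      unfold dens
      have : (0 : ℝ) < ((p : ℝ)) ^ (2 * g + 1) := by
        have := hp.pos
        positivity
      refine le_of_eq ?_
      exact div_mul_cancel₀ _ this.ne'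
    · obtain ⟨h7, h8, h9⟩ := hA2 c hc
      refine ⟨⟨h8, h9⟩, fun P hP hPp => ?_⟩
      have : P = ⟨p, hp⟩ := Subtype.ext hPp
      subst this
      exact h7
  · obtain ⟨A, hA1, hA2⟩ := h3 (2 * g + 1) p (by omega) hp
    refine ⟨p ^ 2, A, ⟨2, rfl⟩, pow_pos hp.pos 2, ?_, fun c hc => ?_⟩
    · unfold dl_Sieve
      rw [dif_pos hp, if_neg hT]
      push_cast
      exact hA1
    · refine ⟨hA2 c hc, fun P hP hPp => ?_⟩
      have : P = ⟨p, hp⟩ := Subtype.ext hPp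
      rw [this] at hP
      exact absurd hP hT

/-- lower ends of the box -/
def lo_Sieve (g H : ℕ) (j : Fin (2 * g + 1)) : ℤ :=
  if (j : ℕ) = 0 then -(H : ℤ) ^ (2 * g + 1) else -((H : ℤ) ^ (2 * g + 1 - (j : ℕ)) / 2 ^ (2 * g + 5))

/-- upper ends of the box -/
def hi_Sieve (g H : ℕ) (j : Fin (2 * g + 1)) : ℤ :=
  if (j : ℕ) = 0 then (-(H : ℤ) ^ (2 * g + 1)) / 2 else (H : ℤ) ^ (2 * g + 1 - (j : ℕ)) / 2 ^ (2 * g + 5)

/-- the box is contained in the region -/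
theorem reg_Sieve (h1 : StSp) (g H : ℕ) (c : Fin (2 * g + 1) → ℤ)
    (hc : ∀ j, lo_Sieve g H j ≤ c j ∧ c j ≤ hi_Sieve g H j) : mkP c ∈ Reg g H := by
  obtain ⟨h2, h3, h4⟩ := h1.1 ℤ (2 * g + 1) c
  refine ⟨h2, h3, fun i hi1 hi2 => ?_, ?_, ?_⟩
  · have h5 := h4 ⟨i, by omega⟩
    have h6 : (mkP c).coeff i = c ⟨i, by omega⟩ := h5
    rw [h6]
    obtain ⟨h7, h8⟩ := hc ⟨i, by omega⟩
    have hi0 : ((⟨i, by omega⟩ : Fin (2 * g + 1)) : ℕ) ≠ 0 := by
      show i ≠ 0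
      omega
    unfold lo_Sieve at h7
    unfold hi_Sieve at h8
    rw [if_neg hi0] at h7 h8
    have h9 : |c ⟨i, by omega⟩| ≤ (H : ℤ) ^ (2 * g + 1 - i) / 2 ^ (2 * g + 5) := abs_le.2 ⟨h7, h8⟩
    have h10 : (2 : ℤ) ^ (2 * g + 5) * ((H : ℤ) ^ (2 * g + 1 - i) / 2 ^ (2 * g + 5)) ≤
        (H : ℤ) ^ (2 * g + 1 - i) := Int.mul_ediv_self_le (by positivity)
    exact (mul_le_mul_of_nonneg_left h9 (by positivity)).trans h10
  · have h5 : (mkP c).coeff 0 = c ⟨0, by omega⟩ := h4 ⟨0, by omega⟩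
    rw [h5]
    have h7 := (hc ⟨0, by omega⟩).1
    unfold lo_Sieve at h7
    rw [if_pos rfl] at h7
    exact h7
  · have h5 : (mkP c).coeff 0 = c ⟨0, by omega⟩ := h4 ⟨0, by omega⟩
    rw [h5]
    have h7 := (hc ⟨0, by omega⟩).2
    unfold hi_Sieve at h7
    rw [if_pos rfl] at h7
    omega

/-- the number of residue classes in a side of the box -/
theorem side_Sieve (g H Q : ℕ) (hQ : 0 < Q) (hH : 2 ^ (2 * g + 6) * (Q + 1) ≤ H)
    (j : Fin (2 * g + 1)) : ∃ n : ℕ, (n : ℤ) * (Q : ℤ) ≤ hi_Sieve g H j - lo_Sieve g H j + 1 ∧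
      (H : ℝ) ^ (2 * g + 1 - (j : ℕ)) / 2 ^ (2 * g + 6) ≤ (n : ℝ) * Q := by
  set h : ℤ := (H : ℤ) ^ (2 * g + 1 - (j : ℕ)) with hh
  set k : ℤ := 2 ^ (2 * g + 4) with hk
  have hk0 : 0 < k := by positivity
  have hk5 : (2 : ℤ) ^ (2 * g + 5) = 2 * k := by rw [hk]; ring
  have hk6 : (2 : ℤ) ^ (2 * g + 6) = 4 * k := by rw [hk]; ring
  have hH' : 4 * k * ((Q : ℤ) + 1) ≤ H := by
    rw [← hk6]
    exact_mod_cast hH
  have hQ' : (0 : ℤ) < Q := by exact_mod_cast hQ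
  have hH1 : (1 : ℤ) ≤ H := by nlinarith
  have hhH : (H : ℤ) ≤ h := by
    have h1 : 2 * g + 1 - (j : ℕ) ≠ 0 := by
      have := j.2
      omega
    rw [hh]
    exact le_self_pow₀ hH1 h1
  have hk1 : 1 ≤ k := hk0
  have hk2 : 2 ≤ k := by
    rw [hk, show 2 * g + 4 = (2 * g + 3) + 1 from rfl, pow_succ]
    have : (1 : ℤ) ≤ 2 ^ (2 * g + 3) := one_le_pow₀ (by norm_num)
    linarith
  set x : ℤ := hi_Sieve g H j - lo_Sieve g H j + 1 with hx
  have hx1 : h - k ≤ k * x := by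
    rw [hx]
    unfold hi_Sieve lo_Sieve
    split_ifs with h0
    · have e1 : 2 * g + 1 - (j : ℕ) = 2 * g + 1 := by omega
      rw [e1] at hh
      rw [← hh]
      have h2 : h ≤ 2 * (-h / 2 - -h + 1) := by omega
      have h3 := mul_le_mul_of_nonneg_left h2 hk0.le
      have h4 : 2 * h ≤ k * h := mul_le_mul_of_nonneg_right hk2 (by linarith)
      linarith
    · rw [← hh, hk5]
      have h2 : h < (h / (2 * k) + 1) * (2 * k) := Int.lt_ediv_add_one_mul_self h (by linarith)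
      have h3 : k * (h / (2 * k) - -(h / (2 * k)) + 1) = (h / (2 * k) + 1) * (2 * k) - k := by ring
      rw [h3]
      linarith
  have hx0 : 0 ≤ x := by
    have h1 : 0 ≤ k * x := by nlinarith
    exact nonneg_of_mul_nonneg_right h1 hk0
  have hn0 : 0 ≤ x / Q := Int.ediv_nonneg hx0 hQ'.le
  refine ⟨(x / Q).toNat, ?_, ?_⟩
  · rw [Int.toNat_of_nonneg hn0]
    exact Int.ediv_mul_le x hQ'.ne'
  · have h1 : x < (x / Q + 1) * Q := Int.lt_ediv_add_one_mul_self x hQ'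
    have h2 : h ≤ 4 * k * ((x / Q) * Q) := by
      have h3 : k * x ≤ k * ((x / Q) * Q) + k * Q := by nlinarith
      nlinarith
    have h4 : ((h : ℤ) : ℝ) ≤ ((4 * k * ((x / Q) * Q) : ℤ) : ℝ) := by exact_mod_cast h2
    have h5 : (((x / Q).toNat : ℕ) : ℝ) = ((x / Q : ℤ) : ℝ) := by
      have h6 := Int.toNat_of_nonneg hn0
      exact_mod_cast h6
    rw [h5, div_le_iff₀ (by positivity)]
    have h6 : ((h : ℤ) : ℝ) = (H : ℝ) ^ (2 * g + 1 - (j : ℕ)) := by
      rw [hh]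
      push_cast
      rfl
    have h7 : ((k : ℤ) : ℝ) = 2 ^ (2 * g + 4) := by
      rw [hk]
      push_cast
      rfl
    rw [← h6]
    refine h4.trans (le_of_eq ?_)
    push_cast
    rw [h7]
    ring

theorem sum_Sieve (g : ℕ) : ∑ j : Fin (2 * g + 1), (2 * g + 1 - (j : ℕ)) = (g + 1) * (2 * g + 1) := by
  rw [Fin.sum_univ_eq_sum_range (fun j => 2 * g + 1 - j) (2 * g + 1)]
  have h1 := Finset.sum_range_reflect (fun j => j + 1) (2 * g + 1)
  have h2 : ∑ j ∈ range (2 * g + 1), (2 * g + 1 - j) =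
      ∑ j ∈ range (2 * g + 1), (2 * g + 1 - 1 - j + 1) := by
    refine Finset.sum_congr rfl fun j hj => ?_
    rw [Finset.mem_range] at hj
    omega
  rw [h2, h1, Finset.sum_add_distrib, Finset.sum_const, Finset.card_range, smul_eq_mul, mul_one]
  have h3 := Finset.sum_range_id_mul_two (2 * g + 1)
  have h4 : 2 * g + 1 - 1 = 2 * g := by omega
  rw [h4] at h3
  nlinarith

end aux_Sieve

theorem hSieve (h1 : StSp) (h2 : StSa) (h3 : StSl) (h4 : StSd) (h5 : StSe) (h6 : StSt) :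
    StSieve := by
  classical
  intro g hg
  obtain ⟨a, ha⟩ := h4 g hg
  refine ⟨1 / 3 / (((2 * (2 * g + 1) ^ 2 : ℕ) : ℝ) ^ (2 * g + 1) *
    ((2 : ℝ) ^ (2 * g + 6)) ^ (2 * g + 1)), by positivity, fun T hT M => ?_⟩
  set S₁ : Finset ℕ := T.image (fun P : Prm => (P : ℕ)) with hS₁
  set S₂ : Finset ℕ := ((range (M + 1)).filter
    fun p => p.Prime ∧ p % 2 = 1 ∧ ¬ p ∣ 2 * g + 1) \ S₁ with hS₂
  have hS : ∀ p ∈ S₁ ∪ S₂, p.Prime ∧ p % 2 = 1 ∧ ¬ p ∣ 2 * g + 1 := by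
    intro p hp
    rw [Finset.mem_union] at hp
    rcases hp with hp | hp
    · rw [hS₁, Finset.mem_image] at hp
      obtain ⟨P, hP, rfl⟩ := hp
      have h7 := hT P hP
      refine ⟨P.2, ?_, fun h8 => ?_⟩
      · rcases P.2.eq_two_or_odd with h9 | h9
        · omega
        · exact h9
      · have := Nat.le_of_dvd (by omega) h8
        omega
    · rw [hS₂, Finset.mem_sdiff, Finset.mem_filter] at hp
      exact hp.1.2
  choose q A hqk hq0 hqA hqc using fun p : {p // p ∈ S₁ ∪ S₂} =>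
    per_Sieve h3 h6 g hg T p.1 (hS p.1 p.2).1
  let q' : Option {p // p ∈ S₁ ∪ S₂} → ℕ := fun i => match i with
    | none => 2 * (2 * g + 1) ^ 2
    | some p => q p
  let A' : ∀ i, Finset (Fin (2 * g + 1) → ZMod (q' i)) := fun i => match i with
    | none => {a}
    | some p => A p
  have hcop0 : ∀ p : {p // p ∈ S₁ ∪ S₂}, (2 * (2 * g + 1) ^ 2).Coprime (q p) := by
    intro p
    obtain ⟨k, hk⟩ := hqk p
    obtain ⟨h7, h8, h9⟩ := hS p.1 p.2
    rw [hk]
    refine Nat.Coprime.pow_right k ?_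
    rw [Nat.coprime_comm, h7.coprime_iff_not_dvd]
    intro h10
    rcases h7.dvd_mul.1 h10 with h11 | h11
    · rw [(Nat.prime_dvd_prime_iff_eq h7 Nat.prime_two).1 h11] at h8
      norm_num at h8
    · exact h9 (h7.dvd_of_dvd_pow h11)
  have hcop : ∀ i j, i ≠ j → (q' i).Coprime (q' j) := by
    intro i j hij
    cases i with
    | none =>
      cases j with
      | none => exact absurd rfl hij
      | some p => exact hcop0 p
    | some p =>
      cases j with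
      | none => exact (hcop0 p).symm
      | some r =>
        obtain ⟨k, hk⟩ := hqk p
        obtain ⟨l, hl⟩ := hqk r
        show (q p).Coprime (q r)
        rw [hk, hl]
        refine Nat.Coprime.pow k l ?_
        rw [Nat.coprime_primes (hS p.1 p.2).1 (hS r.1 r.2).1]
        intro h7
        exact hij (congrArg some (Subtype.ext h7))
  have hpos : ∀ i, 0 < q' i := by
    intro i
    cases i with
    | none => exact Nat.mul_pos two_pos (pow_pos (by omega) 2)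
    | some p => exact hq0 p
  set Q : ℕ := ∏ i, q' i with hQ
  have hQ0 : 0 < Q := Finset.prod_pos fun i _ => hpos i
  filter_upwards [eventually_ge_atTop (2 ^ (2 * g + 6) * (Q + 1))] with H hH
  -- finiteness
  have hfin : (SvMain g H T M).Finite := by
    have h7 : (Set.Icc (fun _ : Fin (2 * g + 1) => -(H : ℤ) ^ (2 * g + 1))
        (fun _ => (H : ℤ) ^ (2 * g + 1))).Finite := Set.finite_Icc _ _
    refine (h7.image mkP).subset ?_
    rintro f ⟨⟨hf1, hf2, hf3, hf4, hf5⟩, -⟩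
    refine ⟨fun i => f.coeff i, ?_, (h1.2.1 ℤ (2 * g + 1) f hf1 hf2).symm⟩
    have hH0 : (1 : ℤ) ≤ H := by
      have : 1 ≤ H := le_trans (Nat.mul_pos (by positivity) (by omega)) hH
      exact_mod_cast this
    have h8 : ∀ i : Fin (2 * g + 1), |f.coeff i| ≤ (H : ℤ) ^ (2 * g + 1) := by
      intro i
      by_cases hi : (i : ℕ) = 0
      · rw [hi, abs_le]
        have : (0 : ℤ) ≤ (H : ℤ) ^ (2 * g + 1) := by positivity
        constructor <;> linarith
      · have h9 := hf3 i (by omega) (by have := i.2; omega)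
        have h10 : (1 : ℤ) ≤ 2 ^ (2 * g + 5) := one_le_pow₀ (by norm_num)
        have h11 : (H : ℤ) ^ (2 * g + 1 - (i : ℕ)) ≤ (H : ℤ) ^ (2 * g + 1) :=
          pow_le_pow_right₀ hH0 (Nat.sub_le _ _)
        have h12 : |f.coeff i| ≤ 2 ^ (2 * g + 5) * |f.coeff i| :=
          le_mul_of_one_le_left (abs_nonneg _) h10
        linarith
    rw [Set.mem_Icc]
    exact ⟨fun i => (abs_le.1 (h8 i)).1, fun i => (abs_le.1 (h8 i)).2⟩
  refine ⟨hfin, ?_⟩
  choose n hn1 hn2 using fun j => side_Sieve g H Q hQ0 hH j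
  have hmain := h2 (2 * g + 1) (Option {p // p ∈ S₁ ∪ S₂}) q' hpos hcop A' (lo_Sieve g H)
    (hi_Sieve g H) n (fun j => by
      have := hn1 j
      rw [hQ] at this
      push_cast at this
      exact this)
  -- the injection
  have hle : {c : Fin (2 * g + 1) → ℤ | (∀ j, lo_Sieve g H j ≤ c j ∧ c j ≤ hi_Sieve g H j) ∧
      ∀ i, (fun j => (c j : ZMod (q' i))) ∈ A' i}.ncard ≤ (SvMain g H T M).ncard := by
    refine Set.ncard_le_ncard_of_injOn mkP ?_ ?_ hfin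
    · rintro c ⟨hc1, hc2⟩
      have hc0 : (fun j => (c j : ZMod (2 * (2 * g + 1) ^ 2))) = a := by
        have h7 : (fun j => (c j : ZMod (2 * (2 * g + 1) ^ 2))) ∈
          ({a} : Finset (Fin (2 * g + 1) → ZMod (2 * (2 * g + 1) ^ 2))) := hc2 none
        exact Finset.mem_singleton.1 h7
      obtain ⟨h7, h8, h9⟩ := ha c hc0
      have hcp : ∀ p : {p // p ∈ S₁ ∪ S₂}, (fun j => (c j : ZMod (q p))) ∈ A p :=
        fun p => hc2 (some p)
      refine ⟨reg_Sieve h1 g H c hc1, h7, h8, fun P hP => ?_, fun p hp hpM => ?_⟩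
      · have h10 : (P : ℕ) ∈ S₁ ∪ S₂ :=
          Finset.mem_union_left _ (Finset.mem_image.2 ⟨P, hP, rfl⟩)
        exact (hqc ⟨P, h10⟩ c (hcp ⟨P, h10⟩)).2 P hP rfl
      · by_cases h10 : p ∣ 2 * (2 * g + 1)
        · exact h9 p hp h10
        · have h11 : p ∈ S₁ ∪ S₂ := by
            rw [Finset.mem_union]
            by_cases h12 : p ∈ S₁
            · exact Or.inl h12
            · right
              rw [hS₂, Finset.mem_sdiff, Finset.mem_filter, Finset.mem_range]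
              refine ⟨⟨by omega, hp, ?_, fun h13 => h10 (Dvd.dvd.mul_left h13 2)⟩, h12⟩
              rcases hp.eq_two_or_odd with h14 | h14
              · rw [h14] at h10
                exact absurd (Dvd.intro _ rfl) h10
              · exact h14
          exact (hqc ⟨p, h11⟩ c (hcp ⟨p, h11⟩)).1
    · intro c _ c' _ hcc
      funext i
      have h7 := (h1.1 ℤ (2 * g + 1) c).2.2 i
      have h8 := (h1.1 ℤ (2 * g + 1) c').2.2 i
      rw [← h7, ← h8, hcc]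
  have hmain2 : ((∏ i, (A' i).card : ℕ) : ℝ) * ((∏ j, n j : ℕ) : ℝ) ≤
      ((SvMain g H T M).ncard : ℝ) := by
    have := hmain.trans hle
    exact_mod_cast this
  refine le_trans ?_ hmain2
  -- the product of the local factors
  set Qs : ℕ := ∏ p : {p // p ∈ S₁ ∪ S₂}, q p with hQs
  have hQQ : Q = 2 * (2 * g + 1) ^ 2 * Qs := by
    rw [hQ, Fintype.prod_option]
  have hAA : ∏ i, (A' i).card = ∏ p, (A p).card := by
    rw [Fintype.prod_option]
    have : (A' none).card = 1 := Finset.card_singleton a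
    rw [this, one_mul]
  have hS3 : ∀ p ∈ S₁ ∪ S₂, 3 ≤ p := by
    intro p hp
    obtain ⟨h7, h8, h9⟩ := hS p hp
    have := h7.two_le
    omega
  have hdl : ∏ p : {p // p ∈ S₁ ∪ S₂}, dl_Sieve g T p.1 = (∏ P ∈ T, dens g P) *
      ∏ p ∈ S₂, (1 - 3 / (p : ℝ) ^ 2) := by
    rw [Finset.prod_coe_sort (S₁ ∪ S₂) (fun p => dl_Sieve g T p),
      Finset.prod_union Finset.disjoint_sdiff]
    congr 1
    · rw [hS₁]
      refine (Finset.prod_image (g := fun P : Prm => (P : ℕ))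
        (fun P _ P' _ (h : (P : ℕ) = (P' : ℕ)) => Subtype.ext h)).trans ?_
      exact Finset.prod_congr rfl fun P hP => dl_mem_Sieve g T P hP
    · refine Finset.prod_congr rfl fun p hp => ?_
      have hp' := hp
      rw [hS₂, Finset.mem_sdiff, Finset.mem_filter] at hp'
      unfold dl_Sieve
      rw [dif_pos hp'.1.2.1, if_neg]
      intro h7
      exact hp'.2 (Finset.mem_image.2 ⟨_, h7, rfl⟩)
  have hD0 : 0 ≤ ∏ P ∈ T, dens g P := Finset.prod_nonneg fun P _ => dens_nonneg_Sieve g P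
  have hδ : 1 / 3 * (∏ P ∈ T, dens g P) ≤ ∏ p : {p // p ∈ S₁ ∪ S₂}, dl_Sieve g T p.1 := by
    rw [hdl, mul_comm]
    refine mul_le_mul_of_nonneg_left (h5 S₂ fun p hp => ?_) hD0
    have h7 := Finset.mem_union_right S₁ hp
    exact ⟨hS3 p h7, (hS p h7).2.1⟩
  have hX : (∏ p : {p // p ∈ S₁ ∪ S₂}, dl_Sieve g T p.1) * (Qs : ℝ) ^ (2 * g + 1) ≤
      ((∏ i, (A' i).card : ℕ) : ℝ) := by
    rw [hAA, hQs]
    push_cast
    rw [← Finset.prod_pow, ← Finset.prod_mul_distrib]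
    refine Finset.prod_le_prod (fun p _ => ?_) fun p _ => hqA p
    have := dl_nonneg_Sieve g T p.1 (hS3 p.1 p.2)
    positivity
  have hY : (H : ℝ) ^ ((g + 1) * (2 * g + 1)) / ((2 : ℝ) ^ (2 * g + 6)) ^ (2 * g + 1) ≤
      ((∏ j, n j : ℕ) : ℝ) * (Q : ℝ) ^ (2 * g + 1) := by
    have h7 : ∏ j : Fin (2 * g + 1), ((H : ℝ) ^ (2 * g + 1 - (j : ℕ)) / 2 ^ (2 * g + 6)) ≤
        ∏ j : Fin (2 * g + 1), ((n j : ℝ) * Q) :=
      Finset.prod_le_prod (fun j _ => by positivity) fun j _ => hn2 j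
    rw [Finset.prod_div_distrib, Finset.prod_pow_eq_pow_sum, sum_Sieve, Finset.prod_const,
      Finset.prod_mul_distrib, Finset.prod_const, Finset.card_univ, Fintype.card_fin] at h7
    push_cast
    exact h7
  set X : ℝ := ((∏ i, (A' i).card : ℕ) : ℝ) with hXdef
  set Y : ℝ := ((∏ j, n j : ℕ) : ℝ) with hYdef
  set D : ℝ := ∏ P ∈ T, dens g P with hDdef
  set Hp : ℝ := (H : ℝ) ^ ((g + 1) * (2 * g + 1)) with hHp
  set K : ℝ := ((2 : ℝ) ^ (2 * g + 6)) ^ (2 * g + 1) with hKdef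
  set m : ℝ := ((2 * (2 * g + 1) ^ 2 : ℕ) : ℝ) ^ (2 * g + 1) with hmdef
  have hQr : (Q : ℝ) ^ (2 * g + 1) = m * (Qs : ℝ) ^ (2 * g + 1) := by
    rw [hmdef, ← mul_pow, hQQ]
    push_cast
    ring
  have hm0 : 0 < m := by
    rw [hmdef]
    positivity
  have hK0 : 0 < K := by
    rw [hKdef]
    positivity
  have hHp0 : 0 ≤ Hp := by
    rw [hHp]
    positivity
  have hQs0 : 0 < (Qs : ℝ) ^ (2 * g + 1) := by
    have : 0 < Qs := Finset.prod_pos fun p _ => hq0 p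
    positivity
  have hX2 : 1 / 3 * D * (Qs : ℝ) ^ (2 * g + 1) ≤ X :=
    (mul_le_mul_of_nonneg_right hδ hQs0.le).trans hX
  rw [hQr] at hY
  have hfin2 : 1 / 3 * D * (Qs : ℝ) ^ (2 * g + 1) * (Hp / K) ≤
      X * (Y * (m * (Qs : ℝ) ^ (2 * g + 1))) := by
    refine mul_le_mul hX2 hY (by positivity) ?_
    exact le_trans (by positivity) hX2
  have h8 : 1 / 3 / (m * K) * D * Hp * (m * (Qs : ℝ) ^ (2 * g + 1)) =
      1 / 3 * D * (Qs : ℝ) ^ (2 * g + 1) * (Hp / K) := by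
    field_simp
  have h9 : 1 / 3 / (m * K) * D * Hp * (m * (Qs : ℝ) ^ (2 * g + 1)) ≤
      X * Y * (m * (Qs : ℝ) ^ (2 * g + 1)) := by
    rw [h8, mul_assoc X Y]
    exact hfin2
  exact le_of_mul_le_mul_right h9 (mul_pos hm0 hQs0)

end Pool.Agent.Helper54.HQ
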