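import Pool.Agent.Helper54.HQ.StS

/-!
# HQ, module Tg: few large primes
-/

set_option autoImplicit false

namespace Pool.Agent.Helper54.HQ

open Finset

theorem hTg : StTg := by
  intro N D
  classical
  set B : ℕ := ∑ m ∈ D.support, (D.coeff m).natAbs with hB
  refine ⟨B + N * D.totalDegree, ?_⟩
  intro H hH c hc hne S hS
  have hH1 : 1 ≤ H := by omega
  have h1 : |MvPolynomial.eval c D| ≤ (B : ℤ) * ((H : ℤ) ^ N) ^ D.totalDegree := by
    rw [MvPolynomial.eval_eq']
    refine (Finset.abs_sum_le_sum_abs _ _).trans ?_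
    rw [hB]
    push_cast
    rw [Finset.sum_mul]
    refine Finset.sum_le_sum fun m hm => ?_
    rw [abs_mul, Finset.abs_prod]
    apply mul_le_mul_of_nonneg_left _ (abs_nonneg _)
    have hHN : (1 : ℤ) ≤ (H : ℤ) ^ N := by
      have : 1 ≤ H ^ N := Nat.one_le_pow _ _ hH1
      exact_mod_cast this
    calc ∏ i, |c i ^ m i| ≤ ∏ i, ((H : ℤ) ^ N) ^ m i := by
          refine Finset.prod_le_prod (fun i _ => abs_nonneg _) fun i _ => ?_
          rw [abs_pow]
          exact pow_le_pow_left₀ (abs_nonneg _) (hc i) _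
      _ = ((H : ℤ) ^ N) ^ ∑ i, m i := Finset.prod_pow_eq_pow_sum _ _ _
      _ ≤ ((H : ℤ) ^ N) ^ D.totalDegree := by
          apply pow_le_pow_right₀ hHN
          have := MvPolynomial.le_totalDegree hm
          rwa [Finsupp.sum_fintype _ _ (fun _ => rfl)] at this
  have h2 : (MvPolynomial.eval c D).natAbs ≤ H ^ (B + N * D.totalDegree) := by
    have h3 : (((MvPolynomial.eval c D).natAbs : ℕ) : ℤ) ≤ (B : ℤ) * ((H : ℤ) ^ N) ^ D.totalDegree := by
      rw [Int.natCast_natAbs]
      exact h1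
    have h4 : (MvPolynomial.eval c D).natAbs ≤ B * (H ^ N) ^ D.totalDegree := by exact_mod_cast h3
    refine h4.trans ?_
    rw [pow_add, ← pow_mul]
    apply Nat.mul_le_mul_right
    exact (Nat.lt_two_pow_self).le.trans (Nat.pow_le_pow_left hH _)
  have h3 : ∏ p ∈ S, p ∣ (MvPolynomial.eval c D).natAbs := by
    apply Finset.prod_primes_dvd
    · intro p hp
      exact (hS p hp).1.prime
    · intro p hp
      exact Int.natCast_dvd.1 (hS p hp).2.2
  have h4 : H ^ S.card ≤ ∏ p ∈ S, p := by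
    rw [← Finset.prod_const]
    exact Finset.prod_le_prod (fun _ _ => Nat.zero_le _) fun p hp => (hS p hp).2.1.le
  have h5 : H ^ S.card ≤ H ^ (B + N * D.totalDegree) :=
    h4.trans ((Nat.le_of_dvd (Int.natAbs_pos.2 hne) h3).trans h2)
  exact (Nat.pow_le_pow_iff_right (by omega)).1 h5

end Pool.Agent.Helper54.HQ
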