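import Pool.Agent.Helper54.HQ.StC
import Pool.Agent.Helper54.HQ.Base

/-!
# HQ, module Wb: roots and derivative in the region
-/

set_option autoImplicit false

namespace Pool.Agent.Helper54.HQ

open Polynomial Finset Filter Topology Matrix IsDedekindDomain
open Pool.Agent.Helper3.HY (co tau Ix nu TType IType rho2 exc Adm Gm)
open Pool.Agent.Helper3

private lemma geom_Wb (n : ℕ) : (∑ i ∈ range n, (2 : ℝ) ^ i) ≤ 2 ^ n := by
  induction n with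
  | zero => simp
  | succ n ih => rw [sum_range_succ, pow_succ]; linarith

theorem hWb (h : StMc) : StWb := by
  intro g H hg f hf
  obtain ⟨hm, hdeg, hc, hc1, hc2⟩ := hf
  have hFam : f ∈ Fam (2 * g + 1) H := by
    refine ⟨hm, hdeg, fun i hi => ?_⟩
    have hHn : (0 : ℤ) ≤ (H : ℤ) ^ (2 * g + 1 - i) := by positivity
    rcases Nat.eq_zero_or_pos i with h0 | h0
    · subst h0
      rw [abs_le]
      constructor
      · simpa using hc1
      · have : (0 : ℤ) ≤ (H : ℤ) ^ (2 * g + 1) := by positivity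
        have e : (H : ℤ) ^ (2 * g + 1 - 0) = (H : ℤ) ^ (2 * g + 1) := by simp
        rw [e]; linarith
    rcases Nat.lt_or_ge (2 * g) i with h1 | h1
    · have e : i = 2 * g + 1 := by omega
      subst e
      have e2 : f.coeff (2 * g + 1) = 1 := by
        rw [← hdeg]; exact hm.coeff_natDegree
      rw [e2]; simp
    · have h2 := hc i h0 h1
      have h3 : (1 : ℤ) ≤ 2 ^ (2 * g + 5) := one_le_pow₀ (by norm_num)
      nlinarith [abs_nonneg (f.coeff i)]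
  refine ⟨hFam, fun ρ hρ => ?_⟩
  have hr := h (2 * g + 1) H f hFam ρ hρ
  rcases Nat.eq_zero_or_pos H with h0 | hH
  · subst h0
    have e : ((0 : ℕ) : ℝ) ^ (2 * g) = 0 := by
      rw [Nat.cast_zero]; exact zero_pow (by omega)
    rw [e]; simp
  have hHR : (1 : ℝ) ≤ (H : ℝ) := by exact_mod_cast hH
  have hH0 : (0 : ℝ) < (H : ℝ) := by linarith
  -- coefficients
  have hcoef : ∀ i, 1 ≤ i → i ≤ 2 * g →
      2 ^ (2 * g + 5) * |((f.coeff i : ℤ) : ℝ)| ≤ (H : ℝ) ^ (2 * g + 1 - i) := by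
    intro i h1 h2
    have := hc i h1 h2
    exact_mod_cast this
  have hroot : aeval ρ f = 0 := by
    unfold rts at hρ
    rw [Multiset.mem_toFinset, Polynomial.mem_roots'] at hρ
    have := hρ.2
    rw [Polynomial.IsRoot.def, Polynomial.eval_map] at this
    rw [Polynomial.aeval_def]
    exact this
  have hlead : f.coeff (2 * g + 1) = 1 := by rw [← hdeg]; exact hm.coeff_natDegree
  have hexp : ρ ^ (2 * g + 1) = -((f.coeff 0 : ℤ) : ℂ) -
      ∑ i ∈ range (2 * g), ((f.coeff (i + 1) : ℤ) : ℂ) * ρ ^ (i + 1) := by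
    rw [Polynomial.aeval_eq_sum_range, hdeg, sum_range_succ, sum_range_succ', hlead] at hroot
    simp only [zsmul_eq_mul, pow_zero, mul_one, Int.cast_one, one_mul] at hroot
    linear_combination hroot
  have hsum1 : ‖∑ i ∈ range (2 * g), ((f.coeff (i + 1) : ℤ) : ℂ) * ρ ^ (i + 1)‖ ≤
      (H : ℝ) ^ (2 * g + 1) / 16 := by
    have hb : ∀ i ∈ range (2 * g), ‖((f.coeff (i + 1) : ℤ) : ℂ) * ρ ^ (i + 1)‖ ≤
        ((H : ℝ) ^ (2 * g + 1) / 2 ^ (2 * g + 5) * 2) * 2 ^ i := by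
      intro i hi
      rw [mem_range] at hi
      have h1 := hcoef (i + 1) (by omega) (by omega)
      rw [norm_mul, norm_pow, Complex.norm_intCast]
      have h2 : |((f.coeff (i + 1) : ℤ) : ℝ)| ≤ (H : ℝ) ^ (2 * g + 1 - (i + 1)) / 2 ^ (2 * g + 5) := by
        rw [le_div_iff₀ (by positivity)]; linarith
      have h3 : ‖ρ‖ ^ (i + 1) ≤ (2 * (H : ℝ)) ^ (i + 1) := pow_le_pow_left₀ (norm_nonneg _) hr _
      have h4 : (H : ℝ) ^ (2 * g + 1) = (H : ℝ) ^ (2 * g + 1 - (i + 1)) * (H : ℝ) ^ (i + 1) := by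
        rw [← pow_add]; congr 1; omega
      calc |((f.coeff (i + 1) : ℤ) : ℝ)| * ‖ρ‖ ^ (i + 1)
          ≤ ((H : ℝ) ^ (2 * g + 1 - (i + 1)) / 2 ^ (2 * g + 5)) * (2 * (H : ℝ)) ^ (i + 1) :=
            mul_le_mul h2 h3 (by positivity) (by positivity)
        _ = _ := by rw [h4, mul_pow, pow_succ (2 : ℝ) i]; ring
    refine (norm_sum_le _ _).trans ((sum_le_sum hb).trans ?_)
    rw [← mul_sum]
    have hg2 := geom_Wb (2 * g)
    calc (H : ℝ) ^ (2 * g + 1) / 2 ^ (2 * g + 5) * 2 * ∑ i ∈ range (2 * g), (2 : ℝ) ^ i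
        ≤ (H : ℝ) ^ (2 * g + 1) / 2 ^ (2 * g + 5) * 2 * 2 ^ (2 * g) :=
          mul_le_mul_of_nonneg_left hg2 (by positivity)
      _ = (H : ℝ) ^ (2 * g + 1) / 16 := by
          rw [pow_add (2 : ℝ) (2 * g) 5]
          field_simp
          norm_num
  have hc0 : (H : ℝ) ^ (2 * g + 1) / 2 ≤ ‖-((f.coeff 0 : ℤ) : ℂ)‖ := by
    rw [norm_neg, Complex.norm_intCast]
    have h1 : 2 * ((f.coeff 0 : ℤ) : ℝ) ≤ -(H : ℝ) ^ (2 * g + 1) := by exact_mod_cast hc2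
    have h2 := neg_abs_le ((f.coeff 0 : ℤ) : ℝ)
    linarith
  have hlow : 7 * (H : ℝ) ^ (2 * g + 1) / 16 ≤ ‖ρ‖ ^ (2 * g + 1) := by
    rw [← norm_pow, hexp]
    have h1 := norm_sub_norm_le (-((f.coeff 0 : ℤ) : ℂ))
      (∑ i ∈ range (2 * g), ((f.coeff (i + 1) : ℤ) : ℂ) * ρ ^ (i + 1))
    linarith
  have hlow2 : 7 * (H : ℝ) ^ (2 * g) / 32 ≤ ‖ρ‖ ^ (2 * g) := by
    have h1 : ‖ρ‖ ^ (2 * g + 1) ≤ ‖ρ‖ ^ (2 * g) * (2 * H) := by
      rw [pow_succ]; exact mul_le_mul_of_nonneg_left hr (by positivity)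
    have h2 : (H : ℝ) ^ (2 * g + 1) = (H : ℝ) ^ (2 * g) * H := pow_succ _ _
    rw [h2] at hlow
    have h3 : (7 * (H : ℝ) ^ (2 * g) / 32) * (2 * H) ≤ ‖ρ‖ ^ (2 * g) * (2 * H) := by
      refine le_trans (le_of_eq ?_) (hlow.trans h1)
      ring
    exact le_of_mul_le_mul_right h3 (by positivity)
  -- the derivative
  have hder : aeval ρ (derivative f) = ((2 * g + 1 : ℕ) : ℂ) * ρ ^ (2 * g) +
      ∑ i ∈ range (2 * g), ((f.coeff (i + 1) : ℤ) : ℂ) * ((i : ℂ) + 1) * ρ ^ i := by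
    rw [Polynomial.aeval_eq_sum_range' (n := 2 * g + 1), sum_range_succ]
    · simp only [Polynomial.coeff_derivative, zsmul_eq_mul, hlead]
      push_cast
      ring
    · have := Polynomial.natDegree_derivative_lt (p := f) (by omega)
      omega
  have hsum2 : ‖∑ i ∈ range (2 * g), ((f.coeff (i + 1) : ℤ) : ℂ) * ((i : ℂ) + 1) * ρ ^ i‖ ≤
      (2 * g + 1) * (H : ℝ) ^ (2 * g) / 32 := by
    have hb : ∀ i ∈ range (2 * g), ‖((f.coeff (i + 1) : ℤ) : ℂ) * ((i : ℂ) + 1) * ρ ^ i‖ ≤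
        ((2 * g + 1) * (H : ℝ) ^ (2 * g) / 2 ^ (2 * g + 5)) * 2 ^ i := by
      intro i hi
      rw [mem_range] at hi
      have h1 := hcoef (i + 1) (by omega) (by omega)
      rw [norm_mul, norm_mul, norm_pow, Complex.norm_intCast]
      have h2 : |((f.coeff (i + 1) : ℤ) : ℝ)| ≤ (H : ℝ) ^ (2 * g + 1 - (i + 1)) / 2 ^ (2 * g + 5) := by
        rw [le_div_iff₀ (by positivity)]; linarith
      have h3 : ‖ρ‖ ^ i ≤ (2 * (H : ℝ)) ^ i := pow_le_pow_left₀ (norm_nonneg _) hr _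
      have h4 : (H : ℝ) ^ (2 * g) = (H : ℝ) ^ (2 * g + 1 - (i + 1)) * (H : ℝ) ^ i := by
        rw [← pow_add]; congr 1; omega
      have h5 : ‖(i : ℂ) + 1‖ ≤ 2 * g + 1 := by
        have e : ((i : ℂ) + 1) = ((i + 1 : ℕ) : ℂ) := by push_cast; ring
        rw [e, Complex.norm_natCast]
        have : i + 1 ≤ 2 * g + 1 := by omega
        exact_mod_cast this
      calc |((f.coeff (i + 1) : ℤ) : ℝ)| * ‖(i : ℂ) + 1‖ * ‖ρ‖ ^ i
          ≤ ((H : ℝ) ^ (2 * g + 1 - (i + 1)) / 2 ^ (2 * g + 5)) * (2 * g + 1) *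
            (2 * (H : ℝ)) ^ i :=
            mul_le_mul (mul_le_mul h2 h5 (norm_nonneg _) (by positivity)) h3 (by positivity)
              (by positivity)
        _ = _ := by rw [h4, mul_pow]; ring
    refine (norm_sum_le _ _).trans ((sum_le_sum hb).trans ?_)
    rw [← mul_sum]
    have hg2 := geom_Wb (2 * g)
    calc (2 * g + 1) * (H : ℝ) ^ (2 * g) / 2 ^ (2 * g + 5) * ∑ i ∈ range (2 * g), (2 : ℝ) ^ i
        ≤ (2 * g + 1) * (H : ℝ) ^ (2 * g) / 2 ^ (2 * g + 5) * 2 ^ (2 * g) :=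
          mul_le_mul_of_nonneg_left hg2 (by positivity)
      _ = (2 * g + 1) * (H : ℝ) ^ (2 * g) / 32 := by
          rw [pow_add (2 : ℝ) (2 * g) 5]
          field_simp
          norm_num
  have hmain : ‖((2 * g + 1 : ℕ) : ℂ) * ρ ^ (2 * g)‖ -
      ‖∑ i ∈ range (2 * g), ((f.coeff (i + 1) : ℤ) : ℂ) * ((i : ℂ) + 1) * ρ ^ i‖ ≤
      ‖aeval ρ (derivative f)‖ := by
    rw [hder]
    have := norm_sub_norm_le (((2 * g + 1 : ℕ) : ℂ) * ρ ^ (2 * g))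
      (-∑ i ∈ range (2 * g), ((f.coeff (i + 1) : ℤ) : ℂ) * ((i : ℂ) + 1) * ρ ^ i)
    rw [norm_neg, sub_neg_eq_add] at this
    exact this
  have hN : ‖((2 * g + 1 : ℕ) : ℂ) * ρ ^ (2 * g)‖ = (2 * g + 1) * ‖ρ‖ ^ (2 * g) := by
    rw [norm_mul, Complex.norm_natCast, norm_pow]
    push_cast; ring
  rw [hN] at hmain
  have hk : (2 * (g : ℝ) + 1) * (7 * (H : ℝ) ^ (2 * g) / 32) ≤ (2 * g + 1) * ‖ρ‖ ^ (2 * g) :=
    mul_le_mul_of_nonneg_left hlow2 (by positivity)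
  have hP : 0 ≤ (H : ℝ) ^ (2 * g) := by positivity
  have hgg : 0 ≤ (g : ℝ) * (H : ℝ) ^ (2 * g) := by positivity
  have e1 : (2 * (g : ℝ) + 1) * (7 * (H : ℝ) ^ (2 * g) / 32) =
    14 / 32 * ((g : ℝ) * (H : ℝ) ^ (2 * g)) + 7 / 32 * (H : ℝ) ^ (2 * g) := by ring
  have e2 : (2 * (g : ℝ) + 1) * (H : ℝ) ^ (2 * g) / 32 =
    2 / 32 * ((g : ℝ) * (H : ℝ) ^ (2 * g)) + 1 / 32 * (H : ℝ) ^ (2 * g) := by ring
  linarith

end Pool.Agent.Helper54.HQ
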